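import Pool.Agent.Work.MP_14c213_gt.B.S4a

/-!
The ramified places are inert in K. For v over 2, 17, 23: N x = x₀² - x₀x₁ + x₁² has no non-trivial
zero modulo p (p = 2 mod 3), so v(NK x) = max(v x₀, v x₁)². For v over 3 use the basis 1, ε of K:
x = y₀ + y₁ε, NK x = y₀² + y₀y₁ - y₁², anisotropic modulo 3 (y₁ = x₁(2θ-1)/5, and (2θ-1)² = -15).
-/

namespace Pool.Agent.Work.MP_14c213_gt

open Matrix IsDedekindDomain
open scoped Matrix NumberField QuadraticAlgebra

noncomputable section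

private theorem S4b_res (v : Pl) (p : ℕ) (t : ℤ)
    (h1 : ∀ a b : ℤ, v.valuation kk ⟨a, b⟩ < 1 ↔ (p : ℤ) ∣ a + t * b) (y : kk)
    (hy : v.valuation kk y ≤ 1) : ∃ n : ℤ, v.valuation kk (y - n) < 1 := by
  obtain ⟨a, ha⟩ := HeightOneSpectrum.exists_valuation_sub_lt_of_integer v hy 1
  obtain ⟨c, d, hcd⟩ := (int_iff (a : kk)).1 (NumberField.RingOfIntegers.isIntegral_coe a)
  refine ⟨c + t * d, ?_⟩
  have ha' : v.valuation kk (y - (a : kk)) < 1 := by
    rw [Valuation.map_sub_swap]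
    exact ha
  have h2 : v.valuation kk (⟨((-t * d : ℤ) : ℚ), d⟩ : kk) < 1 := by
    rw [h1]
    exact ⟨0, by ring⟩
  have e : y - ((c + t * d : ℤ) : kk) = (y - (a : kk)) + ⟨((-t * d : ℤ) : ℚ), d⟩ := by
    rw [hcd]
    apply QuadraticAlgebra.ext
    · simp; ring
    · simp
  rw [e]
  exact Valuation.map_add_lt _ ha' h2

private theorem S4b_intmem (v : Pl) (p : ℕ) (t : ℤ)
    (h1 : ∀ a b : ℤ, v.valuation kk ⟨a, b⟩ < 1 ↔ (p : ℤ) ∣ a + t * b) (n : ℤ) :
    v.valuation kk (n : kk) < 1 ↔ (p : ℤ) ∣ n := by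
  have := h1 n 0
  rw [mul_zero, add_zero] at this
  rw [← this]
  have e : (n : kk) = ⟨(n : ℚ), ((0 : ℤ) : ℚ)⟩ := by
    apply QuadraticAlgebra.ext <;> simp
  rw [e]

private theorem S4b_intle (v : Pl) (n : ℤ) : v.valuation kk (n : kk) ≤ 1 := by
  have := val_int v n 0
  have e : (n : kk) = ⟨(n : ℚ), ((0 : ℤ) : ℚ)⟩ := by
    apply QuadraticAlgebra.ext <;> simp
  rwa [e]

private theorem S4b_unit (v : Pl) (p : ℕ) (t s n : ℤ)
    (h1 : ∀ a b : ℤ, v.valuation kk ⟨a, b⟩ < 1 ↔ (p : ℤ) ∣ a + t * b)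
    (hq : ∀ x y : ℤ, (p : ℤ) ∣ x ^ 2 + s * x * y + n * y ^ 2 → (p : ℤ) ∣ x ∧ (p : ℤ) ∣ y)
    (a b : kk) (ha : v.valuation kk a ≤ 1) (hb : v.valuation kk b ≤ 1)
    (hab : v.valuation kk a = 1 ∨ v.valuation kk b = 1) :
    v.valuation kk (a ^ 2 + s * a * b + n * b ^ 2) = 1 := by
  have hint : ∀ m : ℤ, ((m : kk)) ∈ (v.valuation kk).integer := fun m => S4b_intle v m
  have ha' : a ∈ (v.valuation kk).integer := ha
  have hb' : b ∈ (v.valuation kk).integer := hb
  have hle : v.valuation kk (a ^ 2 + s * a * b + n * b ^ 2) ≤ 1 := by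
    have : a ^ 2 + s * a * b + n * b ^ 2 ∈ (v.valuation kk).integer :=
      Subring.add_mem _ (Subring.add_mem _ (Subring.pow_mem _ ha' 2)
        (Subring.mul_mem _ (Subring.mul_mem _ (hint s) ha') hb'))
        (Subring.mul_mem _ (hint n) (Subring.pow_mem _ hb' 2))
    exact this
  by_contra hne
  have hlt : v.valuation kk (a ^ 2 + s * a * b + n * b ^ 2) < 1 := lt_of_le_of_ne hle hne
  obtain ⟨x, hx⟩ := S4b_res v p t h1 a ha
  obtain ⟨y, hy⟩ := S4b_res v p t h1 b hb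
  have mulsm : ∀ c d : kk, v.valuation kk c < 1 → v.valuation kk d ≤ 1 →
      v.valuation kk (c * d) < 1 := by
    intro c d hc hd
    rw [map_mul]
    exact mul_lt_one_of_lt_of_le hc hd
  have k1 : v.valuation kk ((a - x) * (a + x + s * b)) < 1 := by
    apply mulsm _ _ hx
    have : a + x + s * b ∈ (v.valuation kk).integer :=
      Subring.add_mem _ (Subring.add_mem _ ha' (hint x)) (Subring.mul_mem _ (hint s) hb')
    exact this
  have k2 : v.valuation kk ((b - y) * (s * x + n * (b + y))) < 1 := by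
    apply mulsm _ _ hy
    have : s * x + n * (b + y) ∈ (v.valuation kk).integer :=
      Subring.add_mem _ (Subring.mul_mem _ (hint s) (hint x))
        (Subring.mul_mem _ (hint n) (Subring.add_mem _ hb' (hint y)))
    exact this
  have k3 : v.valuation kk (((x ^ 2 + s * x * y + n * y ^ 2 : ℤ) : kk)) < 1 := by
    have e : (((x ^ 2 + s * x * y + n * y ^ 2 : ℤ) : kk)) =
        (a ^ 2 + s * a * b + n * b ^ 2) - ((a - x) * (a + x + s * b) + (b - y) * (s * x + n * (b + y))) := by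
      push_cast
      ring
    rw [e]
    exact Valuation.map_sub_lt _ hlt (Valuation.map_add_lt _ k1 k2)
  rw [S4b_intmem v p t h1] at k3
  obtain ⟨k4, k5⟩ := hq x y k3
  rw [← S4b_intmem v p t h1] at k4 k5
  have k6 : v.valuation kk a < 1 := by
    have : a = (a - x) + x := by ring
    rw [this]
    exact Valuation.map_add_lt _ hx k4
  have k7 : v.valuation kk b < 1 := by
    have : b = (b - y) + y := by ring
    rw [this]
    exact Valuation.map_add_lt _ hy k5
  rcases hab with h | h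
  · exact k6.ne h
  · exact k7.ne h

private theorem S4b_form (v : Pl) (p : ℕ) (t s n : ℤ)
    (h1 : ∀ a b : ℤ, v.valuation kk ⟨a, b⟩ < 1 ↔ (p : ℤ) ∣ a + t * b)
    (hq : ∀ x y : ℤ, (p : ℤ) ∣ x ^ 2 + s * x * y + n * y ^ 2 → (p : ℤ) ∣ x ∧ (p : ℤ) ∣ y)
    (a b : kk) :
    v.valuation kk (a ^ 2 + s * a * b + n * b ^ 2) =
      (max (v.valuation kk a) (v.valuation kk b)) ^ 2 := by
  rcases le_or_gt (v.valuation kk b) (v.valuation kk a) with hle | hlt
  · rw [max_eq_left hle]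
    rcases eq_or_ne a 0 with h0 | h0
    · have hb0 : b = 0 := by
        rw [h0, map_zero] at hle
        exact (Valuation.zero_iff _).1 (le_antisymm hle zero_le)
      simp [h0, hb0]
    · have e : a ^ 2 + s * a * b + n * b ^ 2 = a ^ 2 * (1 ^ 2 + s * 1 * (b / a) + n * (b / a) ^ 2) := by
        field_simp
      rw [e, map_mul, map_pow]
      have hba : v.valuation kk (b / a) ≤ 1 := by
        rw [map_div₀]
        exact div_le_one_of_le₀ hle zero_le
      rw [S4b_unit v p t s n h1 hq 1 (b / a) (by simp) hba (Or.inl (by simp)), mul_one]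
  · rw [max_eq_right hlt.le]
    have h0 : b ≠ 0 := by
      rintro rfl
      simp at hlt
    have e : a ^ 2 + s * a * b + n * b ^ 2 = b ^ 2 * ((a / b) ^ 2 + s * (a / b) * 1 + n * 1 ^ 2) := by
      field_simp
    rw [e, map_mul, map_pow]
    have hba : v.valuation kk (a / b) ≤ 1 := by
      rw [map_div₀]
      exact div_le_one_of_le₀ hlt.le zero_le
    rw [S4b_unit v p t s n h1 hq (a / b) 1 hba (by simp) (Or.inr (by simp)), mul_one]

private theorem S4b_an (p : ℕ) (s n : ℤ)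
    (h : ∀ x y : ZMod p, x ^ 2 + (s : ZMod p) * x * y + (n : ZMod p) * y ^ 2 = 0 → x = 0 ∧ y = 0) :
    ∀ x y : ℤ, (p : ℤ) ∣ x ^ 2 + s * x * y + n * y ^ 2 → (p : ℤ) ∣ x ∧ (p : ℤ) ∣ y := by
  intro x y hxy
  have h1 := (ZMod.intCast_zmod_eq_zero_iff_dvd _ p).2 hxy
  push_cast at h1
  obtain ⟨h2, h3⟩ := h x y h1
  exact ⟨(ZMod.intCast_zmod_eq_zero_iff_dvd _ p).1 h2, (ZMod.intCast_zmod_eq_zero_iff_dvd _ p).1 h3⟩

private theorem S4b_max (v : Pl) (hv : v ∈ SS4) : ∃ L₀ L₁ : KK → kk,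
    (∀ x y, L₀ (x + y) = L₀ x + L₀ y) ∧ (∀ x y, L₁ (x + y) = L₁ x + L₁ y) ∧
    ∀ x : KK, v.valuation kk (NK x) = (max (v.valuation kk (L₀ x)) (v.valuation kk (L₁ x))) ^ 2 := by
  have std : ∀ (p : ℕ) (t : ℤ), (∀ a b : ℤ, v.valuation kk ⟨a, b⟩ < 1 ↔ (p : ℤ) ∣ a + t * b) →
      (∀ x y : ZMod p, x ^ 2 + ((-1 : ℤ) : ZMod p) * x * y + ((1 : ℤ) : ZMod p) * y ^ 2 = 0 → x = 0 ∧ y = 0) →
      ∃ L₀ L₁ : KK → kk,
    (∀ x y, L₀ (x + y) = L₀ x + L₀ y) ∧ (∀ x y, L₁ (x + y) = L₁ x + L₁ y) ∧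
    ∀ x : KK, v.valuation kk (NK x) = (max (v.valuation kk (L₀ x)) (v.valuation kk (L₁ x))) ^ 2 := by
    intro p t h1 h2
    refine ⟨fun x => x.re, fun x => x.im, fun x y => by simp, fun x y => by simp, ?_⟩
    intro x
    rw [← S4b_form v p t (-1) 1 h1 (S4b_an p (-1) 1 h2)]
    congr 1
    simp only [NK]
    push_cast
    ring
  obtain ⟨P2, P3, P17, P23, hS, h2, h3, h17, h23, -⟩ := S4_list
  have hv' := hv
  rw [hS] at hv'
  simp only [Set.mem_insert_iff, Set.mem_singleton_iff] at hv'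
  rcases hv' with rfl | rfl | rfl | rfl
  · refine std 2 1 ?_ (by decide)
    intro a b
    rw [one_mul]
    exact (S4_res v hv a b).1 h2
  · have h1 : ∀ a b : ℤ, v.valuation kk ⟨a, b⟩ < 1 ↔ ((3 : ℕ) : ℤ) ∣ a + 2 * b :=
      fun a b => (S4_res v hv a b).2.1 h3
    have e1 : (⟨-1/5, 2/5⟩ : kk) - 2 * ⟨2/5, 1/5⟩ = -1 := by
      apply QuadraticAlgebra.ext
      · simp [QuadraticAlgebra.re_ofNat, QuadraticAlgebra.im_ofNat]; norm_num
      · simp [QuadraticAlgebra.re_ofNat, QuadraticAlgebra.im_ofNat]; norm_num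
    have e2 : (⟨2/5, 1/5⟩ : kk) * ⟨2/5, 1/5⟩ - ⟨2/5, 1/5⟩ * ⟨-1/5, 2/5⟩ - ⟨-1/5, 2/5⟩ * ⟨-1/5, 2/5⟩ = 1 := by
      apply QuadraticAlgebra.ext
      · simp; norm_num
      · simp; norm_num
    refine ⟨fun x => x.re - x.im * ⟨2/5, 1/5⟩, fun x => x.im * ⟨-1/5, 2/5⟩, ?_, ?_, ?_⟩
    · intro x y; simp; ring
    · intro x y; simp; ring
    · intro x
      rw [← S4b_form v 3 2 1 (-1) h1 (S4b_an 3 1 (-1) (by decide))]
      congr 1
      simp only [NK]
      push_cast
      linear_combination (-x.re * x.im) * e1 - x.im ^ 2 * e2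
  · exact std 17 6 (fun a b => (S4_res v hv a b).2.2.1 h17) (by decide)
  · exact std 23 7 (fun a b => (S4_res v hv a b).2.2.2 h23) (by decide)

theorem inert_even (v : Pl) (hv : v ∈ SS4) {x : KK} (hx : x ≠ 0) : Even (ord v (NK x)) := by
  obtain ⟨L₀, L₁, -, -, h⟩ := S4b_max v hv
  simp only [ord]
  rw [h x, WithZero.log_pow]
  exact ⟨-WithZero.log (max (v.valuation kk (L₀ x)) (v.valuation kk (L₁ x))), by simp; ring⟩

theorem inert_add (v : Pl) (hv : v ∈ SS4) (x y : KK) :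
    v.valuation kk (NK (x + y)) ≤ max (v.valuation kk (NK x)) (v.valuation kk (NK y)) := by
  obtain ⟨L₀, L₁, h0, h1, h⟩ := S4b_max v hv
  rw [h, h, h, h0, h1]
  have k0 := (v.valuation kk).map_add (L₀ x) (L₀ y)
  have k1 := (v.valuation kk).map_add (L₁ x) (L₁ y)
  have k2 : max (v.valuation kk (L₀ x + L₀ y)) (v.valuation kk (L₁ x + L₁ y)) ≤
      max (max (v.valuation kk (L₀ x)) (v.valuation kk (L₁ x)))
        (max (v.valuation kk (L₀ y)) (v.valuation kk (L₁ y))) := by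
    apply max_le
    · exact k0.trans (max_le_max (le_max_left _ _) (le_max_left _ _))
    · exact k1.trans (max_le_max (le_max_right _ _) (le_max_right _ _))
  refine (pow_le_pow_left₀ zero_le k2 2).trans ?_
  rcases le_total (max (v.valuation kk (L₀ x)) (v.valuation kk (L₁ x)))
    (max (v.valuation kk (L₀ y)) (v.valuation kk (L₁ y))) with hle | hle
  · rw [max_eq_right hle]
    exact le_max_right _ _
  · rw [max_eq_left hle]
    exact le_max_left _ _

private theorem S4b_bq (v : Pl) (hv : v ∈ SS4) : ord v bq = 1 := by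
  obtain ⟨P2, P3, P17, P23, hS, -, -, -, -, -, -, -, -, h2, h3, h17, h23⟩ := S4_list
  rw [hS] at hv
  simp only [Set.mem_insert_iff, Set.mem_singleton_iff] at hv
  rcases hv with rfl | rfl | rfl | rfl <;> assumption

private theorem S4b_bq0 : bq ≠ 0 := by
  intro h
  have := congrArg QuadraticAlgebra.re h
  simp [bq] at this

private theorem S4b_odd (v : Pl) (hv : v ∈ SS4) {y : KK} (hy : y ≠ 0) :
    Odd (ord v (bq * NK y)) := by
  rw [ord_mul v S4b_bq0 (NK_ne hy), S4b_bq v hv]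
  obtain ⟨m, hm⟩ := inert_even v hv hy
  exact ⟨m, by rw [hm]; ring⟩

theorem nrd_val (v : Pl) (hv : v ∈ SS4) (g : AA) :
    v.valuation kk (nrd g) = max (v.valuation kk (NK (xp g))) (v.valuation kk (bq * NK (yp g))) := by
  have hN0 : NK 0 = 0 := by simp [NK]
  rw [nrd]
  rcases eq_or_ne (xp g) 0 with h0 | h0
  · rw [h0, hN0, zero_sub, Valuation.map_neg, map_zero, max_eq_right zero_le]
  rcases eq_or_ne (yp g) 0 with h1 | h1
  · rw [h1, hN0, mul_zero, sub_zero, map_zero, max_eq_left zero_le]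
  have h2 := inert_even v hv h0
  have h3 := S4b_odd v hv h1
  have hne : v.valuation kk (NK (xp g)) ≠ v.valuation kk (bq * NK (yp g)) := by
    intro h
    have h4 : ord v (NK (xp g)) = ord v (bq * NK (yp g)) := by simp only [ord, h]
    rw [h4] at h2
    exact (Int.not_even_iff_odd.2 h3) h2
  rcases lt_or_gt_of_ne hne with h | h
  · rw [max_eq_right h.le]
    exact Valuation.map_sub_eq_of_lt_right _ h
  · rw [max_eq_left h.le]
    exact Valuation.map_sub_eq_of_lt_left _ h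

theorem nrd_eq_zero (g : AA) : nrd g = 0 ↔ g = 0 := by
  constructor
  · intro h
    obtain ⟨P2, P3, P17, P23, hS, -⟩ := S4_list
    have hv : P2 ∈ SS4 := by rw [hS]; simp
    have h1 := nrd_val P2 hv g
    rw [h, map_zero] at h1
    have h2 : P2.valuation kk (NK (xp g)) = 0 :=
      le_antisymm ((le_max_left _ _).trans h1.symm.le) zero_le
    have h3 : P2.valuation kk (bq * NK (yp g)) = 0 :=
      le_antisymm ((le_max_right _ _).trans h1.symm.le) zero_le
    rw [Valuation.zero_iff] at h2 h3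
    have h4 : xp g = 0 := by
      by_contra hc
      exact NK_ne hc h2
    have h5 : yp g = 0 := by
      by_contra hc
      exact mul_ne_zero S4b_bq0 (NK_ne hc) h3
    rw [← mkA_eta g, h4, h5]
    rfl
  · rintro rfl
    simp [nrd, NK, xp, yp]

theorem exists_unit {g : AA} (hg : g ≠ 0) : ∃ u : AAˣ, (u : AA) = g := by
  have h0 : nrd g ≠ 0 := fun h => hg ((nrd_eq_zero g).1 h)
  obtain ⟨h1, h2⟩ := mul_cj g
  refine ⟨⟨g, cj g * algebraMap kk AA (nrd g)⁻¹, ?_, ?_⟩, rfl⟩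
  · rw [← mul_assoc, h1, ← map_mul, mul_inv_cancel₀ h0, map_one]
  · rw [mul_assoc, Algebra.commutes, ← mul_assoc, h2, ← map_mul, mul_inv_cancel₀ h0, map_one]

/-- Membership in the local group at a ramified place. -/
theorem mem_UU_ram (v : Pl) (hv : v ∈ SS4) (g : AAˣ) :
    g ∈ UU v ↔ v.valuation kk (bq * NK (yp (g : AA))) < v.valuation kk (NK (xp (g : AA))) := by
  have hN0 : NK 0 = 0 := by simp [NK]
  have e : g ∈ UU v ↔ Even (ord v (nrd (g : AA))) := by
    rw [UU, if_pos hv]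
    rfl
  rw [e]
  have hval := nrd_val v hv (g : AA)
  constructor
  · intro h
    by_contra hc
    rw [not_lt] at hc
    rw [max_eq_right hc] at hval
    have hy : yp (g : AA) ≠ 0 := by
      intro h0
      rw [h0, hN0, mul_zero, map_zero, Valuation.zero_iff] at hval
      exact nrd_ne g hval
    have h3 := S4b_odd v hv hy
    have h4 : ord v (nrd (g : AA)) = ord v (bq * NK (yp (g : AA))) := by simp only [ord, hval]
    rw [h4] at h
    exact (Int.not_even_iff_odd.2 h3) h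
  · intro h
    rw [max_eq_left h.le] at hval
    have hx : xp (g : AA) ≠ 0 := by
      intro h0
      rw [h0, hN0, map_zero] at h
      exact not_lt_zero h
    have h3 := inert_even v hv hx
    have h4 : ord v (nrd (g : AA)) = ord v (NK (xp (g : AA))) := by simp only [ord, hval]
    rwa [h4]

theorem xp_ne (v : Pl) (hv : v ∈ SS4) (g : AAˣ) (hg : g ∈ UU v) : xp (g : AA) ≠ 0 := by
  rw [mem_UU_ram v hv] at hg
  intro h0
  have hN0 : NK 0 = 0 := by simp [NK]
  rw [h0, hN0, map_zero] at hg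
  exact not_lt_zero hg

end

end Pool.Agent.Work.MP_14c213_gt
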