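import Pool.Agent.Work.MP_14c213_gt.B.GGB

/-!
GG s is torsion free modulo scalars. T = trd² / nrd - 2 (= z + 1/z for the eigenvalue ratio z).
T = -2: ww ≡ -1 at all ramified places (ww_trace, (w+1)² ≡ 0), so a3 = 2, a23 = 0 (al3, al23).
T = -1: w² + w + 1 ≡ 0: at 2 w ≡ ζ^{±1}, a2 = ±1; at 17 w³ ≡ 1, so a17 = 0.
T = 0, 1: replace g by g² (T(g²) = T² - 2). T = 2 forces g scalar (trd² = 4 nrd, (g - trd/2) has
norm 0).
-/

namespace Pool.Agent.Work.MP_14c213_gt

open Matrix IsDedekindDomain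
open scoped Matrix NumberField QuadraticAlgebra

noncomputable section

/-- `z + 1/z`. -/
def TT (g : AA) : kk := trd g ^ 2 / nrd g - 2

private theorem torB_trd_sq (g : AA) : trd (g * g) = trd g ^ 2 - 2 * nrd g := by
  simp only [trd, nrd, NK, xp, yp, QuaternionAlgebra.re_mul, QuaternionAlgebra.imI_mul]
  ring

theorem TT_sq (g : AAˣ) : TT ((g ^ 2 : AAˣ) : AA) = TT (g : AA) ^ 2 - 2 := by
  have h0 := nrd_ne g
  have h1 : ((g ^ 2 : AAˣ) : AA) = (g : AA) * (g : AA) := by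
    rw [pow_two, Units.val_mul]
  rw [h1, TT, TT, torB_trd_sq, nrd_mul]
  field_simp

private theorem torB_nrd_sub (g : AA) (c : kk) :
    nrd (g - algebraMap kk AA c) = nrd g - c * trd g + c ^ 2 := by
  have h1 : (algebraMap kk AA c).re = c := by simp
  have h2 : (algebraMap kk AA c).imI = 0 := by simp
  have h3 : (algebraMap kk AA c).imJ = 0 := by simp
  have h4 : (algebraMap kk AA c).imK = 0 := by simp
  simp only [trd, nrd, NK, xp, yp, QuaternionAlgebra.re_sub, QuaternionAlgebra.imI_sub,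
    QuaternionAlgebra.imJ_sub, QuaternionAlgebra.imK_sub, h1, h2, h3, h4]
  ring

theorem TT_two (g : AAˣ) : TT (g : AA) = 2 ↔ g ∈ ZZ := by
  have h0 := nrd_ne g
  have h2 : (2 : kk) ≠ 0 := two_ne_zero
  rw [mem_ZZ]
  constructor
  · intro h
    rw [TT, sub_eq_iff_eq_add, div_eq_iff h0] at h
    have h3 : nrd ((g : AA) - algebraMap kk AA (trd (g : AA) / 2)) = 0 := by
      rw [torB_nrd_sub]
      linear_combination (-1 / 4 : kk) * h
    rw [nrd_eq_zero, sub_eq_zero] at h3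
    refine ⟨trd (g : AA) / 2, ?_, h3⟩
    intro h4
    rw [h4, map_zero] at h3
    exact g.ne_zero h3
  · rintro ⟨z, hz, h⟩
    have h3 : nrd (g : AA) = z ^ 2 := by
      rw [h]
      simp [nrd, NK, xp, yp]
    have h4 : trd (g : AA) = 2 * z := by
      rw [h]
      simp [trd]
    rw [TT, h3, h4]
    field_simp
    norm_num

private theorem torB_NK_inv {w : KK} (hw : NK w = 1) : NK w⁻¹ = 1 ∧ w ≠ 0 := by
  have h0 : w ≠ 0 := by
    rintro rfl
    simp [NK] at hw
  have h1 := NK_mul w w⁻¹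
  rw [mul_inv_cancel₀ h0, NK_one, hw, one_mul] at h1
  exact ⟨h1.symm, h0⟩

private theorem torB_NK_neg (x : KK) : NK (-x) = NK x := by
  simp only [NK, QuadraticAlgebra.re_neg, QuadraticAlgebra.im_neg]
  ring

private theorem torB_lt {v : Pl} {x : kk} (h : v.valuation kk (x * x) < 1) :
    v.valuation kk x < 1 := by
  rw [map_mul] at h
  by_contra h1
  rw [not_lt] at h1
  exact absurd h (not_lt.2 (one_le_mul h1 h1))

private theorem torB_lt_or {v : Pl} {x y : kk} (h : v.valuation kk (x * y) < 1) :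
    v.valuation kk x < 1 ∨ v.valuation kk y < 1 := by
  rw [map_mul] at h
  by_contra h1
  rw [not_or, not_lt, not_lt] at h1
  exact absurd h (not_lt.2 (one_le_mul h1.1 h1.2))

private theorem torB_cg_two {v : Pl} (hv : v ∈ SS4) {g : AAˣ} (hg : g ∈ UU v)
    (h : TT (g : AA) = -2) : cg v (ww (g : AA)) (-1) := by
  have h1 := ww_trace hv hg
  have h2 := NK_ww (xp_ne v hv g hg)
  obtain ⟨h3, h4⟩ := torB_NK_inv h2
  unfold TT at h
  rw [h] at h1
  unfold cg at h1 ⊢
  have h5 : algebraMap kk KK (-2) - (ww (g : AA) + (ww (g : AA))⁻¹) =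
      -((ww (g : AA) + 1) * (ww (g : AA) + 1) * (ww (g : AA))⁻¹) := by
    have : algebraMap kk KK (-2) = -2 := by
      rw [map_neg, map_ofNat]
    rw [this]
    field_simp
    ring
  rw [h5, torB_NK_neg, NK_mul, NK_mul, h3, mul_one] at h1
  have h6 : ww (g : AA) - -1 = ww (g : AA) + 1 := by ring
  rw [h6]
  exact torB_lt h1

private theorem torB_cg_one {v : Pl} (hv : v ∈ SS4) {g : AAˣ} (hg : g ∈ UU v)
    (h : TT (g : AA) = -1) : cg v (ww (g : AA)) zeta ∨ cg v (ww (g : AA)) (zeta * zeta) := by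
  have h1 := ww_trace hv hg
  have h2 := NK_ww (xp_ne v hv g hg)
  obtain ⟨h3, h4⟩ := torB_NK_inv h2
  unfold TT at h
  rw [h] at h1
  unfold cg at h1 ⊢
  have h5 : algebraMap kk KK (-1) - (ww (g : AA) + (ww (g : AA))⁻¹) =
      -((ww (g : AA) - zeta) * (ww (g : AA) - zeta * zeta) * (ww (g : AA))⁻¹) := by
    have h6 : algebraMap kk KK (-1) = -1 := by
      rw [map_neg, map_one]
    have h7 := zeta_rel
    rw [h6]
    have h8 : (ww (g : AA) - zeta) * (ww (g : AA) - zeta * zeta) =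
        ww (g : AA) * ww (g : AA) + ww (g : AA) + 1 := by
      linear_combination (-(ww (g : AA)) + zeta - 1) * h7
    rw [h8]
    field_simp
    ring
  rw [h5, torB_NK_neg, NK_mul, NK_mul, h3, mul_one] at h1
  exact torB_lt_or h1

private theorem torB_NK_zeta : NK zeta = 1 := by
  simp [NK, zeta]

private theorem torB_two (s : ℤˣ) {g : AAˣ} (hg : g ∈ GG s) : TT (g : AA) ≠ -2 := by
  intro h
  obtain ⟨c2, c17, c3, c23, -⟩ := four_spec
  obtain ⟨hO, -, h4⟩ := hg
  rw [mem_GO] at hO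
  have n1 : NK (-1 : KK) = 1 := by rw [torB_NK_neg, NK_one]
  have e3 : a3 g = 2 := by
    unfold a3
    rw [al_congr c3 (NK_ww (xp_ne _ c3.mem g (hO _))) n1 (torB_cg_two c3.mem (hO _) h)]
    exact (al3 c3).2.2
  have e23 : a23 g = 0 := by
    unfold a23
    rw [al_congr c23 (NK_ww (xp_ne _ c23.mem g (hO _))) n1 (torB_cg_two c23.mem (hO _) h)]
    exact (al23 c23).2.2
  rw [e3, e23] at h4
  revert h4
  decide

private theorem torB_one (s : ℤˣ) {g : AAˣ} (hg : g ∈ GG s) : TT (g : AA) ≠ -1 := by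
  intro h
  obtain ⟨c2, c17, c3, c23, -⟩ := four_spec
  obtain ⟨hO, h4, -⟩ := hg
  rw [mem_GO] at hO
  have n1 := torB_NK_zeta
  have n2 : NK (zeta * zeta) = 1 := by rw [NK_mul, n1, one_mul]
  have e2 : a2 g = 1 ∨ a2 g = 2 := by
    unfold a2
    have hN := NK_ww (xp_ne _ c2.mem g (hO _))
    rcases torB_cg_one c2.mem (hO _) h with h5 | h5
    · left
      rw [al_congr c2 hN n1 h5]
      exact (al2 c2).2.2
    · right
      rw [al_congr c2 hN n2 h5, al_mul c2 n1 n1, (al2 c2).2.2]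
      decide
  have e17 : a17 g = 0 := by
    unfold a17
    have hN := NK_ww (xp_ne _ c17.mem g (hO _))
    rcases torB_cg_one c17.mem (hO _) h with h5 | h5
    · rw [al_congr c17 hN n1 h5]
      exact (al17 c17).2.2
    · rw [al_congr c17 hN n2 h5, al_mul c17 n1 n1, (al17 c17).2.2, add_zero]
  rw [e17, mul_zero, add_zero] at h4
  rw [h4] at e2
  revert e2
  decide

theorem no_torsion (s : ℤˣ) {g : AAˣ} (hg : g ∈ GG s) :
    TT (g : AA) ≠ -2 ∧ TT (g : AA) ≠ -1 ∧ TT (g : AA) ≠ 0 ∧ TT (g : AA) ≠ 1 := by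
  have h2 : g ^ 2 ∈ GG s := (GG s).pow_mem hg 2
  refine ⟨torB_two s hg, torB_one s hg, ?_, ?_⟩
  · intro h
    apply torB_two s h2
    rw [TT_sq, h]
    norm_num
  · intro h
    apply torB_one s h2
    rw [TT_sq, h]
    norm_num

end

end Pool.Agent.Work.MP_14c213_gt
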