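import Pool.Agent.Work.MP_14c213_gt.B.CocA
import Pool.Agent.Work.MP_14c213_gt.B.TorB
import Pool.Agent.Work.MP_14c213_gt.B.S4b
import Pool.Agent.Work.MP_14c213_gt.A.PhiSurj
import Pool.Agent.Work.MP_14c213_gt.A.ActM

/-!
Cocompactness. Elements x ∈ O (integral coordinates), x ≠ 0, with |nrd x| bounded: finitely many values n of nrd x;
finitely many classes modulo right multiplication x = y γ, γ ∈ GG s: if nrd x = nrd y = n and x = y modulo n O then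
y⁻¹ x = cj(y) x / n ∈ O has norm one, so is in GO; and GG s has finite index in GO. So x = y_i γ with y_i from a finite
set. For g ∈ Frames: g e₀ = Phi(M) e₀ for some M with det M = 1; x from coc_small (|nrd x| = |det (iotaA x M)| ≤
2C²), x = y_i γ, iotaA γ * M = iotaA (y_i)⁻¹ (iotaA x M) is bounded, |nrd γ| is bounded below; (Psi γ g) 0 0 =
(Phi (iotaA γ * M)) 0 0 ≤ ‖·‖²/|det|.
-/

namespace Pool.Agent.Work.MP_14c213_gt

open Matrix IsDedekindDomain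
open scoped Matrix NumberField QuadraticAlgebra

noncomputable section

private theorem cocB_int {x : kk} (hx : ∀ v : Pl, v.valuation kk x ≤ 1) :
    ∃ a b : ℤ, x = ⟨a, b⟩ := by
  rw [← int_iff]
  obtain ⟨y, hy⟩ := HeightOneSpectrum.mem_integers_of_valuation_le_one (R := 𝓞 kk) kk x hx
  rw [← hy]
  exact NumberField.RingOfIntegers.isIntegral_coe y

private theorem cocB_alg {r : kk} {v : Pl} (hr : v.valuation kk r ≤ 1) :
    algebraMap kk AA r ∈ OO v := by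
  have h1 : (algebraMap kk AA r).re = r := by simp
  have h2 : (algebraMap kk AA r).imI = 0 := by simp
  have h3 : (algebraMap kk AA r).imJ = 0 := by simp
  have h4 : (algebraMap kk AA r).imK = 0 := by simp
  refine ⟨?_, ?_, ?_, ?_⟩
  · rw [h1]; exact hr
  · rw [h2, map_zero]; exact zero_le_one
  · rw [h3, map_zero]; exact zero_le_one
  · rw [h4, map_zero]; exact zero_le_one

private theorem cocB_cj {x : AA} {v : Pl} (hx : x ∈ OO v) : cj x ∈ OO v := by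
  obtain ⟨k1, k2, k3, k4⟩ := hx
  have e1 : (cj x).re = x.re - x.imI := by
    simp [cj, mkA, xp]
    ring
  have e2 : (cj x).imI = -x.imI := by simp [cj, mkA, xp]
  have e3 : (cj x).imJ = -x.imJ := by simp [cj, mkA, yp]
  have e4 : (cj x).imK = -x.imK := by simp [cj, mkA, yp]
  refine ⟨?_, ?_, ?_, ?_⟩
  · rw [e1]
    simp only [← Valuation.mem_integer_iff] at *
    exact Subring.sub_mem _ k1 k2
  · rw [e2, Valuation.map_neg]; exact k2
  · rw [e3, Valuation.map_neg]; exact k3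
  · rw [e4, Valuation.map_neg]; exact k4

private theorem cocB_nrd {x : AA} {v : Pl} (hx : x ∈ OO v) : v.valuation kk (nrd x) ≤ 1 := by
  obtain ⟨k1, k2, k3, k4⟩ := hx
  have hb := val_bq v
  simp only [← Valuation.mem_integer_iff] at *
  simp only [nrd, NK, xp, yp]
  simp only [pow_two]
  repeat' first
    | apply Subring.add_mem | apply Subring.sub_mem | apply Subring.mul_mem
    | apply Subring.neg_mem | assumption

private theorem cocB_inv (y : AAˣ) : ((y⁻¹ : AAˣ) : AA) = algebraMap kk AA (nrd (y : AA))⁻¹ * cj (y : AA) := by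
  symm
  apply Units.eq_inv_of_mul_eq_one_right
  rw [mul_assoc, (mul_cj (y : AA)).2, ← map_mul, inv_mul_cancel₀ (nrd_ne y), map_one]

private theorem cocB_quot {x y : AAˣ} {w : AA} {r : kk}
    (h : (x : AA) = y + algebraMap kk AA (nrd (y : AA) * r) * w) :
    ((y⁻¹ * x : AAˣ) : AA) = 1 + algebraMap kk AA r * (cj (y : AA) * w) := by
  rw [Units.val_mul, h, mul_add, Units.inv_mul, cocB_inv]
  congr 1
  have e1 : cj (y : AA) * (algebraMap kk AA (nrd (y : AA) * r) * w) =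
      algebraMap kk AA (nrd (y : AA) * r) * (cj (y : AA) * w) := by
    rw [← mul_assoc, ← Algebra.commutes, mul_assoc]
  have e2 : algebraMap kk AA (nrd (y : AA))⁻¹ * algebraMap kk AA (nrd (y : AA) * r) =
      algebraMap kk AA r := by
    rw [← map_mul, inv_mul_cancel_left₀ (nrd_ne y)]
  rw [mul_assoc, e1, ← mul_assoc, e2]

private theorem cocB_mem {x y : AAˣ} (hx : ∀ v : Pl, (x : AA) ∈ OO v) (hy : ∀ v : Pl, (y : AA) ∈ OO v)
    (hn : nrd (x : AA) = nrd (y : AA)) {w : AA} (hw : ∀ v : Pl, w ∈ OO v) {r : kk}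
    (hr : ∀ v : Pl, v.valuation kk r ≤ 1)
    (h : (x : AA) = y + algebraMap kk AA (nrd (y : AA) * r) * w) : y⁻¹ * x ∈ GO := by
  have h' : (y : AA) = x + algebraMap kk AA (nrd (x : AA) * r) * (-w) := by
    rw [hn, h]
    noncomm_ring
  have e1 := cocB_quot h
  have e2 := cocB_quot h'
  have m1 : ∀ v : Pl, ((y⁻¹ * x : AAˣ) : AA) ∈ OO v := by
    intro v
    rw [e1]
    exact Subring.add_mem _ (Subring.one_mem _)
      (Subring.mul_mem _ (cocB_alg (hr v)) (Subring.mul_mem _ (cocB_cj (hy v)) (hw v)))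
  have m2 : ∀ v : Pl, ((x⁻¹ * y : AAˣ) : AA) ∈ OO v := by
    intro v
    rw [e2]
    exact Subring.add_mem _ (Subring.one_mem _)
      (Subring.mul_mem _ (cocB_alg (hr v)) (Subring.mul_mem _ (cocB_cj (hx v))
        (Subring.neg_mem _ (hw v))))
  rw [mem_GO]
  intro v
  unfold UU
  split_ifs with hv
  · show Even (ord v (nrd ((y⁻¹ * x : AAˣ) : AA)))
    have h3 := nrd_mul (y : AA) ((y⁻¹ * x : AAˣ) : AA)
    have h4 : (y : AA) * ((y⁻¹ * x : AAˣ) : AA) = x := by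
      rw [← Units.val_mul, mul_inv_cancel_left]
    rw [h4, hn] at h3
    have h5 : nrd ((y⁻¹ * x : AAˣ) : AA) = 1 :=
      mul_left_cancel₀ (nrd_ne y) (by rw [mul_one]; exact h3.symm)
    rw [h5, ord_one]
    exact Even.zero
  · refine ⟨1, one_ne_zero, ?_, ?_⟩
    · rw [one_smul]; exact m1 v
    · rw [inv_one, one_smul, _root_.mul_inv_rev, inv_inv]; exact m2 v

/-- residues of the coordinates -/
private def cocB_rs (m : ℕ) (x : AA) : Fin 8 → ZMod m :=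
  ![(x.re.re.num : ZMod m), (x.re.im.num : ZMod m), (x.imI.re.num : ZMod m), (x.imI.im.num : ZMod m),
    (x.imJ.re.num : ZMod m), (x.imJ.im.num : ZMod m), (x.imK.re.num : ZMod m),
    (x.imK.im.num : ZMod m)]

private theorem cocB_coord {m : ℕ} {x y : kk} (hx : ∃ a b : ℤ, x = ⟨a, b⟩)
    (hy : ∃ a b : ℤ, y = ⟨a, b⟩) (h1 : (x.re.num : ZMod m) = y.re.num)
    (h2 : (x.im.num : ZMod m) = y.im.num) :
    ∃ w : kk, (∀ v : Pl, v.valuation kk w ≤ 1) ∧ x = y + (m : kk) * w := by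
  obtain ⟨a, b, rfl⟩ := hx
  obtain ⟨c, d, rfl⟩ := hy
  simp only [Rat.num_intCast] at h1 h2
  rw [ZMod.intCast_eq_intCast_iff_dvd_sub] at h1 h2
  obtain ⟨p, hp⟩ := h1
  obtain ⟨q, hq⟩ := h2
  refine ⟨⟨((-p : ℤ) : ℚ), ((-q : ℤ) : ℚ)⟩, fun v => val_int v _ _, ?_⟩
  have hp' : (c : ℚ) - a = m * p := by exact_mod_cast hp
  have hq' : (d : ℚ) - b = m * q := by exact_mod_cast hq
  apply QuadraticAlgebra.ext
  · simp
    linear_combination -hp'
  · simp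
    linear_combination -hq'

private theorem cocB_res {m : ℕ} {x y : AA} (hx : ∀ v : Pl, x ∈ OO v) (hy : ∀ v : Pl, y ∈ OO v)
    (h : cocB_rs m x = cocB_rs m y) : ∃ w : AA, (∀ v : Pl, w ∈ OO v) ∧
      x = y + algebraMap kk AA (m : kk) * w := by
  have g0 := congrFun h 0
  have g1 := congrFun h 1
  have g2 := congrFun h 2
  have g3 := congrFun h 3
  have g4 := congrFun h 4
  have g5 := congrFun h 5
  have g6 := congrFun h 6
  have g7 := congrFun h 7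
  obtain ⟨w1, a1, b1⟩ := cocB_coord (cocB_int fun v => (hx v).1) (cocB_int fun v => (hy v).1) g0 g1
  obtain ⟨w2, a2, b2⟩ := cocB_coord (cocB_int fun v => (hx v).2.1)
    (cocB_int fun v => (hy v).2.1) g2 g3
  obtain ⟨w3, a3, b3⟩ := cocB_coord (cocB_int fun v => (hx v).2.2.1)
    (cocB_int fun v => (hy v).2.2.1) g4 g5
  obtain ⟨w4, a4, b4⟩ := cocB_coord (cocB_int fun v => (hx v).2.2.2)
    (cocB_int fun v => (hy v).2.2.2) g6 g7
  refine ⟨⟨w1, w2, w3, w4⟩, fun v => ⟨a1 v, a2 v, a3 v, a4 v⟩, ?_⟩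
  apply QuaternionAlgebra.ext
  · rw [b1]; simp
  · rw [b2]; simp
  · rw [b3]; simp
  · rw [b4]; simp

/-- the norm of an integral element of `kk` -/
private theorem cocB_norm (a b : ℤ) : ‖phik ⟨a, b⟩‖ ^ 2 = ((a ^ 2 + a * b + 4 * b ^ 2 : ℤ) : ℝ) := by
  rw [phik_norm]
  push_cast
  ring

private theorem cocB_norm_pos {a b : ℤ} (h : (⟨a, b⟩ : kk) ≠ 0) :
    1 ≤ a ^ 2 + a * b + 4 * b ^ 2 := by
  by_contra hc
  have h1 : a ^ 2 + a * b + 4 * b ^ 2 ≤ 0 := by omega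
  have hb : b = 0 := by nlinarith [sq_nonneg (2 * a + b), sq_nonneg b]
  subst hb
  have ha : a = 0 := by nlinarith [sq_nonneg a]
  subst ha
  apply h
  apply QuadraticAlgebra.ext <;> simp

private theorem cocB_dvd {n : kk} {a b : ℤ} (hn : n = ⟨a, b⟩) (h0 : n ≠ 0) {B : ℕ}
    (hB : a ^ 2 + a * b + 4 * b ^ 2 ≤ B) :
    ∃ r : kk, (∀ v : Pl, v.valuation kk r ≤ 1) ∧ ((B.factorial : ℕ) : kk) = n * r := by
  subst hn
  have h1 := cocB_norm_pos h0
  obtain ⟨N, hN⟩ : ∃ N : ℕ, (N : ℤ) = a ^ 2 + a * b + 4 * b ^ 2 :=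
    ⟨(a ^ 2 + a * b + 4 * b ^ 2).toNat, Int.toNat_of_nonneg (by omega)⟩
  have hN1 : 0 < N := by omega
  have hN2 : N ≤ B := by omega
  obtain ⟨q, hq⟩ := Nat.dvd_factorial hN1 hN2
  refine ⟨⟨(((a + b) * q : ℤ) : ℚ), ((-b * q : ℤ) : ℚ)⟩, fun v => val_int v _ _, ?_⟩
  have hN' : (N : ℚ) = a ^ 2 + a * b + 4 * b ^ 2 := by exact_mod_cast hN
  rw [hq]
  apply QuadraticAlgebra.ext
  · simp
    rw [hN']
    ring
  · simp
    ring

/-- The set of integral elements of bounded norm. -/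
private def cocB_S (B : ℕ) : Set AAˣ :=
  {x | (∀ v : Pl, (x : AA) ∈ OO v) ∧ ‖phik (nrd (x : AA))‖ ^ 2 ≤ B}

private theorem cocB_nrdval {B : ℕ} {x : AAˣ} (hx : x ∈ cocB_S B) :
    ∃ a b : ℤ, nrd (x : AA) = ⟨a, b⟩ ∧ 1 ≤ a ^ 2 + a * b + 4 * b ^ 2 ∧
      a ^ 2 + a * b + 4 * b ^ 2 ≤ B := by
  obtain ⟨a, b, h⟩ := cocB_int (x := nrd (x : AA)) fun v => cocB_nrd (hx.1 v)
  refine ⟨a, b, h, ?_, ?_⟩
  · apply cocB_norm_pos
    rw [← h]
    exact nrd_ne x
  · have h1 := hx.2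
    rw [h, cocB_norm] at h1
    exact_mod_cast h1

private theorem cocB_finnrd (B : ℕ) :
    ((fun x : AAˣ => nrd (x : AA)) '' cocB_S B).Finite := by
  refine Set.Finite.subset (((Set.finite_Icc (-(2 * B : ℤ)) (2 * B)).prod
    (Set.finite_Icc (-(B : ℤ)) B)).image (fun p : ℤ × ℤ => (⟨p.1, p.2⟩ : kk))) ?_
  rintro _ ⟨x, hx, rfl⟩
  obtain ⟨a, b, h, h1, h2⟩ := cocB_nrdval hx
  refine ⟨(a, b), ?_, h.symm⟩
  have hb2 : b ^ 2 ≤ B := by nlinarith [sq_nonneg (2 * a + b)]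
  have ha2 : a ^ 2 ≤ 2 * B := by nlinarith [sq_nonneg (a + 8 * b)]
  have hB : (0 : ℤ) ≤ B := by positivity
  simp only [Set.mem_prod, Set.mem_Icc]
  refine ⟨⟨?_, ?_⟩, ⟨?_, ?_⟩⟩
  · by_contra hc
    push Not at hc
    nlinarith
  · by_contra hc
    push Not at hc
    nlinarith
  · by_contra hc
    push Not at hc
    nlinarith
  · by_contra hc
    push Not at hc
    nlinarith

private theorem cocB_fin (B : ℕ) :
    ((fun x : AAˣ => (x : AAˣ ⧸ GO)) '' cocB_S B).Finite := by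
  classical
  have hm : NeZero B.factorial := ⟨B.factorial_ne_zero⟩
  set F : AAˣ → kk × (Fin 8 → ZMod B.factorial) := fun x => (nrd (x : AA), cocB_rs B.factorial (x : AA))
    with hF
  have hfin : (F '' cocB_S B).Finite := by
    refine Set.Finite.subset ((cocB_finnrd B).prod (Set.finite_univ (α := Fin 8 → ZMod B.factorial))) ?_
    rintro _ ⟨x, hx, rfl⟩
    exact ⟨⟨x, hx, rfl⟩, trivial⟩
  have hkey : ∀ x ∈ cocB_S B, ∀ y ∈ cocB_S B, F x = F y → (x : AAˣ ⧸ GO) = (y : AAˣ ⧸ GO) := by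
    intro x hx y hy h
    have h1 : nrd (x : AA) = nrd (y : AA) := congrArg Prod.fst h
    have h2 : cocB_rs B.factorial (x : AA) = cocB_rs B.factorial (y : AA) := congrArg Prod.snd h
    obtain ⟨w, hw, e⟩ := cocB_res hx.1 hy.1 h2
    obtain ⟨a, b, hab, hab1, hab2⟩ := cocB_nrdval hy
    obtain ⟨r, hr, er⟩ := cocB_dvd hab (nrd_ne y) hab2
    rw [er] at e
    have h3 := cocB_mem hx.1 hy.1 h1 hw hr e
    exact (QuotientGroup.eq.2 h3).symm
  set G : kk × (Fin 8 → ZMod B.factorial) → AAˣ ⧸ GO := fun t =>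
    if h : ∃ x ∈ cocB_S B, F x = t then ((h.choose : AAˣ) : AAˣ ⧸ GO) else ((1 : AAˣ) : AAˣ ⧸ GO)
    with hG
  refine (hfin.image G).subset ?_
  rintro _ ⟨x, hx, rfl⟩
  refine ⟨F x, ⟨x, hx, rfl⟩, ?_⟩
  have h : ∃ y ∈ cocB_S B, F y = F x := ⟨x, hx, rfl⟩
  simp only [hG]
  rw [dif_pos h]
  exact hkey _ h.choose_spec.1 _ hx h.choose_spec.2

/-- The finite set of representatives. -/
private theorem cocB_reps (s : ℤˣ) (B : ℕ) : ∃ U : Set AAˣ, U.Finite ∧ ∀ x ∈ cocB_S B,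
    ∃ u ∈ U, u⁻¹ * x ∈ GG s := by
  have hfi : ((GG s).subgroupOf GO).FiniteIndex := ⟨GG_index s⟩
  have : Finite (GO ⧸ (GG s).subgroupOf GO) := Subgroup.finite_quotient_of_finiteIndex
  refine ⟨Set.image2 (fun (q : AAˣ ⧸ GO) (t : GO ⧸ (GG s).subgroupOf GO) =>
    (Quotient.out q : AAˣ) * ((Quotient.out t : GO) : AAˣ))
    ((fun x : AAˣ => (x : AAˣ ⧸ GO)) '' cocB_S B) Set.univ, ?_, ?_⟩
  · exact Set.Finite.image2 _ (cocB_fin B) Set.finite_univ
  · intro x hx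
    set y : AAˣ := Quotient.out (x : AAˣ ⧸ GO) with hy
    have h1 : y⁻¹ * x ∈ GO := by
      rw [← QuotientGroup.eq]
      exact Quotient.out_eq' _
    set z : GO := ⟨y⁻¹ * x, h1⟩ with hz
    set t : GO := Quotient.out (z : GO ⧸ (GG s).subgroupOf GO) with ht
    have h2 : t⁻¹ * z ∈ (GG s).subgroupOf GO := by
      rw [← QuotientGroup.eq]
      exact Quotient.out_eq' _
    refine ⟨y * (t : AAˣ), ⟨_, ⟨x, hx, rfl⟩, _, Set.mem_univ _, rfl⟩, ?_⟩
    rw [Subgroup.mem_subgroupOf] at h2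
    have h3 : ((t⁻¹ * z : GO) : AAˣ) = (y * (t : AAˣ))⁻¹ * x := by
      rw [Subgroup.coe_mul, Subgroup.coe_inv, hz]
      simp only
      group
    rw [← h3]
    exact h2

private theorem cocB_frame {g : Mat 3} (hg : g ∈ Frames 3) :
    ∃ M : M2, M.det = 1 ∧ ∀ a, Phi M a 0 = g a 0 := by
  obtain ⟨k, hk, h1, h2⟩ := SS_cor hg
  have hp := cor_mem hg
  have h3 : sec (cor g) ∈ GLo := sec_mem hp
  obtain ⟨z, hz⟩ := IsAlgClosed.exists_pow_nat_eq ((sec (cor g)).det)⁻¹ (n := 2) (by norm_num)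
  have hz0 : z ≠ 0 := by
    rintro rfl
    rw [zero_pow two_ne_zero] at hz
    exact inv_ne_zero h3 hz.symm
  refine ⟨z • sec (cor g), ?_, ?_⟩
  · rw [Matrix.det_smul, Fintype.card_fin, hz, inv_mul_cancel₀ h3]
  · intro a
    rw [Phi_smul hz0]
    have h4 : Phi (sec (cor g)) = g * rot k := h1
    have h5 : rot k 0 0 = 1 := rfl
    have h6 : ∀ i : Fin 3, rot k i.succ 0 = 0 := fun _ => rfl
    rw [h4, Matrix.mul_apply, Fin.sum_univ_succ, h5]
    simp only [h6]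
    simp

theorem coc (s : ℤˣ) : ∃ R : ℝ, ∀ g ∈ Frames 3, ∃ γ ∈ (GG s).map Psi, ((γ : Mat 3) * g) 0 0 ≤ R := by
  obtain ⟨C, hC⟩ := coc_small
  obtain ⟨B, hB⟩ := exists_nat_ge ((2 * C ^ 2) ^ 2)
  obtain ⟨U, hU, hUx⟩ := cocB_reps s B
  set bd : AAˣ → ℝ := fun u => 4 * (C * ∑ i, ∑ k, ‖iotaA ((u⁻¹ : AAˣ) : AA) i k‖) ^ 2 /
    (2 * ‖phik (nrd ((u⁻¹ : AAˣ) : AA))‖) with hbd
  obtain ⟨R, hR⟩ := (hU.image bd).bddAbove
  refine ⟨R, fun g hg => ?_⟩
  obtain ⟨M, hM, hMg⟩ := cocB_frame hg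
  obtain ⟨x, hx0, ⟨a, b, c, d, e, f, p, q, hx⟩, hxC⟩ := hC M hM
  obtain ⟨X, hX⟩ := exists_unit hx0
  have hC0 : 0 ≤ C := (norm_nonneg _).trans (hxC 0 0)
  have hdet : ‖phik (nrd x)‖ ≤ 2 * C ^ 2 := by
    have h1 : (iotaA x * M).det = phik (nrd x) := by
      rw [Matrix.det_mul, hM, mul_one, iota_det]
    rw [← h1, Matrix.det_fin_two]
    refine (norm_sub_le _ _).trans ?_
    rw [norm_mul, norm_mul]
    have h2 : ‖(iotaA x * M) 0 0‖ * ‖(iotaA x * M) 1 1‖ ≤ C * C :=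
      mul_le_mul (hxC 0 0) (hxC 1 1) (norm_nonneg _) hC0
    have h3 : ‖(iotaA x * M) 0 1‖ * ‖(iotaA x * M) 1 0‖ ≤ C * C :=
      mul_le_mul (hxC 0 1) (hxC 1 0) (norm_nonneg _) hC0
    nlinarith
  have hXS : X ∈ cocB_S B := by
    constructor
    · intro v
      rw [hX, hx]
      exact ⟨val_int v _ _, val_int v _ _, val_int v _ _, val_int v _ _⟩
    · rw [hX]
      refine le_trans ?_ hB
      exact pow_le_pow_left₀ (norm_nonneg _) hdet 2
  obtain ⟨u, hu, hγ⟩ := hUx X hXS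
  refine ⟨Psi (u⁻¹ * X), ⟨_, hγ, rfl⟩, ?_⟩
  have hRu : bd u ≤ R := hR ⟨u, hu, rfl⟩
  refine le_trans ?_ hRu
  have e1 : (((Psi (u⁻¹ * X) : (Mat 3)ˣ) : Mat 3) * g) 0 0 =
      Phi (iotaA ((u⁻¹ : AAˣ) : AA) * (iotaA x * M)) 0 0 := by
    have h1 : Phi (iotaA ((u⁻¹ : AAˣ) : AA) * (iotaA x * M)) =
        ((Psi (u⁻¹ * X) : (Mat 3)ˣ) : Mat 3) * Phi M := by
      have hMd : M ∈ GLo := by
        show M.det ≠ 0
        rw [hM]; exact one_ne_zero
      rw [Psi_coe, Units.val_mul, iota_mul, hX, ← mul_assoc, Phi_mul _ hMd]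
      have := iota_GLo (u⁻¹ * X)
      rw [Units.val_mul, iota_mul, hX] at this
      exact this
    rw [h1, Matrix.mul_apply, Matrix.mul_apply]
    refine Finset.sum_congr rfl fun b _ => ?_
    rw [hMg]
  rw [e1, Phi_zero_zero]
  set A := iotaA ((u⁻¹ : AAˣ) : AA) with hA
  set D := iotaA x * M with hD
  set σ := ∑ i, ∑ k, ‖A i k‖ with hσ
  have hσ0 : 0 ≤ σ := Finset.sum_nonneg fun i _ => Finset.sum_nonneg fun k _ => norm_nonneg _
  have hent : ∀ i j, ‖(A * D) i j‖ ^ 2 ≤ (C * σ) ^ 2 := by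
    intro i j
    refine pow_le_pow_left₀ (norm_nonneg _) ?_ 2
    rw [Matrix.mul_apply]
    calc ‖∑ k, A i k * D k j‖ ≤ ∑ k, ‖A i k‖ * C := by
          refine (norm_sum_le _ _).trans (Finset.sum_le_sum fun k _ => ?_)
          rw [norm_mul]
          exact mul_le_mul_of_nonneg_left (hxC k j) (norm_nonneg _)
      _ = C * ∑ k, ‖A i k‖ := by rw [← Finset.sum_mul, mul_comm]
      _ ≤ C * σ := by
          refine mul_le_mul_of_nonneg_left ?_ hC0
          exact Finset.single_le_sum (f := fun i => ∑ k, ‖A i k‖)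
            (fun i _ => Finset.sum_nonneg fun k _ => norm_nonneg _) (Finset.mem_univ i)
  have hnx : 1 ≤ ‖phik (nrd x)‖ := by
    obtain ⟨a', b', h1, h2, h3⟩ := cocB_nrdval hXS
    rw [hX] at h1
    have h4 := cocB_norm a' b'
    rw [← h1] at h4
    have h5 : (1 : ℝ) ≤ ‖phik (nrd x)‖ ^ 2 := by
      rw [h4]; exact_mod_cast h2
    by_contra hc
    push Not at hc
    have h6 : ‖phik (nrd x)‖ ^ 2 < 1 := pow_lt_one₀ (norm_nonneg _) hc two_ne_zero
    linarith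
  have hdetAD : ‖(A * D).det‖ = ‖phik (nrd ((u⁻¹ : AAˣ) : AA))‖ * ‖phik (nrd x)‖ := by
    rw [Matrix.det_mul, hD, Matrix.det_mul, hM, mul_one, hA, iota_det, iota_det, norm_mul]
  have hpos : 0 < ‖phik (nrd ((u⁻¹ : AAˣ) : AA))‖ :=
    norm_pos_iff.2 ((map_ne_zero phik).2 (nrd_ne u⁻¹))
  rw [hdetAD]
  have hnum : ‖(A * D) 0 0‖ ^ 2 + ‖(A * D) 0 1‖ ^ 2 + ‖(A * D) 1 0‖ ^ 2 + ‖(A * D) 1 1‖ ^ 2 ≤
      4 * (C * σ) ^ 2 := by
    have := hent 0 0
    have := hent 0 1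
    have := hent 1 0
    have := hent 1 1
    linarith
  calc _ ≤ 4 * (C * σ) ^ 2 / (2 * (‖phik (nrd ((u⁻¹ : AAˣ) : AA))‖ * ‖phik (nrd x)‖)) := by
        gcongr
    _ ≤ 4 * (C * σ) ^ 2 / (2 * (‖phik (nrd ((u⁻¹ : AAˣ) : AA))‖ * 1)) := by
        gcongr
    _ = bd u := by rw [mul_one]

end

end Pool.Agent.Work.MP_14c213_gt
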