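import Pool.Agent.Work.MP_14c213_gt.B.FldB

/-!
The four ramified places. 𝓞 kk = ℤ[θ] (int_kk and its converse: trace and norm of x + yθ are 2x+y and
x²+xy+4y²). N(43 + 7θ) = 2346 = 2·3·17·23, so the primes dividing b are the kernels of
θ ↦ 1 mod 2, 2 mod 3, 6 mod 17, 7 mod 23, each with exponent one.
-/

namespace Pool.Agent.Work.MP_14c213_gt

open Matrix IsDedekindDomain
open scoped Matrix NumberField QuadraticAlgebra

noncomputable section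

private theorem S4a_rat {r : ℚ} (h : IsIntegral ℤ (algebraMap ℚ kk r)) : ∃ n : ℤ, r = n := by
  have h1 : IsIntegral ℤ r :=
    (isIntegral_algebraMap_iff (algebraMap ℚ kk).injective).1 h
  obtain ⟨n, hn⟩ := IsIntegrallyClosed.isIntegral_iff.1 h1
  exact ⟨n, by rw [← hn]; simp⟩

private theorem S4a_alg (r : ℚ) : algebraMap ℚ kk r = ⟨r, 0⟩ := by
  apply QuadraticAlgebra.ext <;> simp

theorem int_iff (x : kk) : IsIntegral ℤ x ↔ ∃ a b : ℤ, x = ⟨a, b⟩ := by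
  constructor
  · intro hx
    have hs : IsIntegral ℤ (star x) := by
      have := hx.map (starRingEnd kk : kk →+* kk).toIntAlgHom
      exact this
    obtain ⟨t, ht⟩ : ∃ n : ℤ, 2 * x.re + x.im = n := by
      apply S4a_rat
      have e : algebraMap ℚ kk (2 * x.re + x.im) = x + star x := by
        apply QuadraticAlgebra.ext
        · simp; ring
        · simp
      rw [e]
      exact hx.add hs
    obtain ⟨n, hn⟩ : ∃ n : ℤ, x.re ^ 2 + x.re * x.im + 4 * x.im ^ 2 = n := by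
      apply S4a_rat
      have e : algebraMap ℚ kk (x.re ^ 2 + x.re * x.im + 4 * x.im ^ 2) = x * star x := by
        rw [S4a_alg]
        apply QuadraticAlgebra.ext
        · simp; ring
        · simp; ring
      rw [e]
      exact hx.mul hs
    have h1 : 15 * x.im ^ 2 = ((4 * n - t ^ 2 : ℤ) : ℚ) := by
      push_cast
      rw [← hn, ← ht]
      ring
    obtain ⟨s, hs⟩ : ∃ s : ℤ, 15 * x.im = s := by
      have h2 : IsIntegral ℤ (15 * x.im) := by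
        refine ⟨Polynomial.X ^ 2 - Polynomial.C (15 * (4 * n - t ^ 2)), ?_, ?_⟩
        · monicity!
        · simp only [Polynomial.eval₂_sub, Polynomial.eval₂_pow, Polynomial.eval₂_X,
            Polynomial.eval₂_C]
          simp only [eq_intCast]
          push_cast at h1 ⊢
          linear_combination 15 * h1
      obtain ⟨n, hn⟩ := IsIntegrallyClosed.isIntegral_iff.1 h2
      exact ⟨n, by rw [← hn]; simp⟩
    have h3 : s ^ 2 = 15 * (4 * n - t ^ 2) := by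
      have : (s : ℚ) ^ 2 = ((15 * (4 * n - t ^ 2) : ℤ) : ℚ) := by
        rw [← hs]; push_cast at h1 ⊢; linear_combination 15 * h1
      exact_mod_cast this
    have h4 : (3 : ℤ) ∣ s := by
      have : (3 : ℤ) ∣ s ^ 2 := ⟨5 * (4 * n - t ^ 2), by rw [h3]; ring⟩
      exact (by norm_num : Prime (3 : ℤ)).dvd_of_dvd_pow this
    have h5 : (5 : ℤ) ∣ s := by
      have : (5 : ℤ) ∣ s ^ 2 := ⟨3 * (4 * n - t ^ 2), by rw [h3]; ring⟩
      exact (by norm_num : Prime (5 : ℤ)).dvd_of_dvd_pow this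
    obtain ⟨q, hq⟩ : (15 : ℤ) ∣ s := by omega
    have hq2 : x.im = q := by
      have : (15 : ℚ) * x.im = 15 * q := by rw [hs, hq]; push_cast; ring
      linarith
    have h6 : 15 * q ^ 2 = 4 * n - t ^ 2 := by
      have : (15 : ℚ) * q ^ 2 = ((4 * n - t ^ 2 : ℤ) : ℚ) := by rw [← hq2, h1]
      exact_mod_cast this
    obtain ⟨p, hp⟩ : (2 : ℤ) ∣ t - q := by
      have h7 : (t - q) * (t + q) = 4 * (n - 4 * q ^ 2) := by linarith [h6, (by ring : (t - q) * (t + q) = t ^ 2 - q ^ 2)]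
      by_contra hcon
      have h8 : (t - q) % 2 = 1 := by omega
      have h9 : (t + q) % 2 = 1 := by omega
      have h10 : ((t - q) * (t + q)) % 2 = 1 := by rw [Int.mul_emod, h8, h9]; norm_num
      rw [h7] at h10
      omega
    refine ⟨p, q, ?_⟩
    ext
    · have : 2 * x.re = 2 * (p : ℚ) := by
        have : ((t - q : ℤ) : ℚ) = ((2 * p : ℤ) : ℚ) := by rw [hp]
        push_cast at this
        rw [← this, ← ht, hq2]; ring
      simp only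
      linarith
    · exact hq2
  · rintro ⟨a, b, rfl⟩
    exact int_kk a b

/-- Ring homomorphisms from the integers to `ZMod p` for a root of `θ² = θ - 4`. -/
theorem hom_exists (p : ℕ) (t : ZMod p) (ht : t ^ 2 = t - 4) :
    ∃ f : 𝓞 kk →+* ZMod p, ∀ a b : ℤ, ∀ x : 𝓞 kk, (x : kk) = ⟨a, b⟩ → f x = a + b * t := by
  have key : ∀ a b : ℤ, ∀ x : 𝓞 kk, (x : kk) = ⟨a, b⟩ →
      (((x : kk).re.num : ℤ) : ZMod p) + (((x : kk).im.num : ℤ) : ZMod p) * t = a + b * t := by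
    intro a b x hx
    rw [hx]
    simp
  refine ⟨{ toFun := fun x => (((x : kk).re.num : ℤ) : ZMod p) + (((x : kk).im.num : ℤ) : ZMod p) * t,
            map_one' := ?_, map_mul' := ?_, map_zero' := ?_, map_add' := ?_}, fun a b x hx => key a b x hx⟩
  · simp
  · intro x y
    obtain ⟨a, b, h1⟩ := (int_iff (x : kk)).1 (NumberField.RingOfIntegers.isIntegral_coe x)
    obtain ⟨c, d, h2⟩ := (int_iff (y : kk)).1 (NumberField.RingOfIntegers.isIntegral_coe y)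
    rw [key a b x h1, key c d y h2, key (a * c - 4 * b * d) (a * d + b * c + b * d) (x * y) ?_]
    · push_cast
      linear_combination (-(b : ZMod p) * d) * ht
    · have e : ((x * y : 𝓞 kk) : kk) = (x : kk) * (y : kk) := rfl
      rw [e, h1, h2]
      apply QuadraticAlgebra.ext <;> simp <;> ring
  · simp
  · intro x y
    obtain ⟨a, b, h1⟩ := (int_iff (x : kk)).1 (NumberField.RingOfIntegers.isIntegral_coe x)
    obtain ⟨c, d, h2⟩ := (int_iff (y : kk)).1 (NumberField.RingOfIntegers.isIntegral_coe y)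
    rw [key a b x h1, key c d y h2, key (a + c) (b + d) (x + y) ?_]
    · push_cast
      ring
    · have e : ((x + y : 𝓞 kk) : kk) = (x : kk) + (y : kk) := rfl
      rw [e, h1, h2]
      apply QuadraticAlgebra.ext <;> simp

private def S4a_int (a b : ℤ) : 𝓞 kk := ⟨⟨a, b⟩, int_kk a b⟩

private theorem S4a_coe (a b : ℤ) : ((S4a_int a b : 𝓞 kk) : kk) = ⟨a, b⟩ := rfl

private theorem S4a_norm (a b : ℤ) :
    Algebra.norm ℤ (S4a_int a b) = a ^ 2 + a * b + 4 * b ^ 2 := by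
  have h := Algebra.coe_norm_int (S4a_int a b)
  have h2 : Algebra.norm ℚ ((S4a_int a b : 𝓞 kk) : kk) = (a : ℚ) ^ 2 + a * b + 4 * b ^ 2 := by
    rw [S4a_coe, Algebra.norm_apply]
    have := QuadraticAlgebra.det_toLinearMap_eq_norm (⟨a, b⟩ : kk)
    rw [QuadraticAlgebra.norm_def] at this
    have e : (a : ℚ) ^ 2 + a * b + 4 * b ^ 2 = (⟨a, b⟩ : kk).re * (⟨a, b⟩ : kk).re +
      1 * (⟨a, b⟩ : kk).re * (⟨a, b⟩ : kk).im - (-4) * (⟨a, b⟩ : kk).im * (⟨a, b⟩ : kk).im := by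
      simp only
      ring
    rw [e, ← this]
    congr 1
  rw [h2] at h
  exact_mod_cast h

private theorem S4a_ord_iff (v : Pl) {r : 𝓞 kk} (hr : r ≠ 0) (n : ℕ) :
    (n : ℤ) ≤ ord v (r : kk) ↔ r ∈ v.asIdeal ^ n := by
  rw [← v.intValuation_le_pow_iff_mem, ← v.valuation_of_algebraMap (K := kk)]
  have h1 : v.valuation kk (algebraMap (𝓞 kk) kk r) ≠ 0 := by
    simpa using hr
  rw [← WithZero.exp_log h1, WithZero.exp_le_exp]
  simp only [ord]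
  constructor
  · intro h
    have : (n : ℤ) ≤ - WithZero.log (v.valuation kk (algebraMap (𝓞 kk) kk r)) := h
    omega
  · intro h
    show (n : ℤ) ≤ - WithZero.log (v.valuation kk (algebraMap (𝓞 kk) kk r))
    omega

private theorem S4a_ord (v : Pl) (a b : ℤ) (h : S4a_int a b ∈ v.asIdeal)
    (h2 : ¬ (Ideal.absNorm v.asIdeal) ^ 2 ∣ (a ^ 2 + a * b + 4 * b ^ 2).natAbs) :
    ord v ⟨a, b⟩ = 1 := by
  have hr : S4a_int a b ≠ 0 := by
    intro h0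
    have := S4a_norm a b
    rw [h0, Algebra.norm_zero] at this
    rw [← this] at h2
    simp at h2
  have h3 := S4a_ord_iff v hr 1
  have h4 := S4a_ord_iff v hr 2
  rw [pow_one] at h3
  rw [S4a_coe] at h3 h4
  have h5 := h3.2 h
  have h6 : ¬ ((2 : ℕ) : ℤ) ≤ ord v ⟨a, b⟩ := by
    intro hc
    apply h2
    have h7 := h4.1 hc
    rw [← S4a_norm, ← Ideal.absNorm_span_singleton, ← map_pow]
    apply Ideal.absNorm_dvd_absNorm_of_le
    rwa [Ideal.span_singleton_le_iff_mem]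
  push_cast at h5 h6
  omega

private theorem S4a_mem (v : Pl) (a b : ℤ) :
    v.valuation kk ⟨a, b⟩ < 1 ↔ S4a_int a b ∈ v.asIdeal :=
  v.valuation_lt_one_iff_mem (K := kk) (S4a_int a b)

private theorem S4a_place (p : ℕ) [Fact p.Prime] (t : ℤ) (ht' : (p : ℤ) ∣ t ^ 2 - t + 4) :
    ∃ P : Pl, (p : 𝓞 kk) ∈ P.asIdeal ∧ Ideal.absNorm P.asIdeal = p ∧
    (∀ a b : ℤ, S4a_int a b ∈ P.asIdeal ↔ (p : ℤ) ∣ a + b * t) ∧
    (∀ v : Pl, (p : 𝓞 kk) ∈ v.asIdeal → S4a_int (-t) 1 ∈ v.asIdeal → v = P) := by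
  have ht : (t : ZMod p) ^ 2 = t - 4 := by
    have := (ZMod.intCast_zmod_eq_zero_iff_dvd _ p).2 ht'
    push_cast at this
    linear_combination this
  obtain ⟨f, hf⟩ := hom_exists p t ht
  have hsurj : Function.Surjective f := by
    intro z
    obtain ⟨n, rfl⟩ := ZMod.intCast_surjective z
    exact ⟨n, map_intCast f n⟩
  have hpf : f (p : 𝓞 kk) = 0 := by simp
  have hmem : ∀ a b : ℤ, S4a_int a b ∈ RingHom.ker f ↔ (p : ℤ) ∣ a + b * t := by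
    intro a b
    rw [RingHom.mem_ker, hf a b _ (S4a_coe a b), ← ZMod.intCast_zmod_eq_zero_iff_dvd]
    push_cast
    rfl
  have hne : RingHom.ker f ≠ ⊥ := by
    intro h
    have h1 : (p : 𝓞 kk) ∈ RingHom.ker f := hpf
    rw [h, Ideal.mem_bot] at h1
    have := (Fact.out : p.Prime).ne_zero
    exact this (by exact_mod_cast h1)
  have hmax : (RingHom.ker f).IsMaximal := RingHom.ker_isMaximal_of_surjective f hsurj
  refine ⟨⟨RingHom.ker f, hmax.isPrime, hne⟩, hpf, ?_, hmem, ?_⟩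
  · simp only
    rw [Ideal.absNorm_apply, Submodule.cardQuot_apply]
    have e := RingHom.quotientKerEquivOfSurjective hsurj
    rw [Nat.card_congr e.toEquiv, Nat.card_zmod]
  · intro v hv hv2
    apply HeightOneSpectrum.ext
    symm
    apply hmax.eq_of_le v.isPrime.ne_top
    intro x hx
    obtain ⟨a, b, h1⟩ := (int_iff (x : kk)).1 (NumberField.RingOfIntegers.isIntegral_coe x)
    have hxe : x = S4a_int a b := by
      apply NumberField.RingOfIntegers.ext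
      exact h1
    rw [hxe] at hx ⊢
    obtain ⟨c, hc⟩ := (hmem a b).1 hx
    have e : S4a_int a b = (c : 𝓞 kk) * (p : 𝓞 kk) + (b : 𝓞 kk) * S4a_int (-t) 1 := by
      apply NumberField.RingOfIntegers.ext
      have e1 : (((c : 𝓞 kk) * (p : 𝓞 kk) + (b : 𝓞 kk) * S4a_int (-t) 1 : 𝓞 kk) : kk) =
        (c : kk) * (p : kk) + (b : kk) * ⟨((-t : ℤ) : ℚ), ((1 : ℤ) : ℚ)⟩ := by
        simp only [map_add, map_mul, map_intCast, map_natCast]
        rfl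
      rw [e1]
      have h3 : (a : ℚ) = p * c - b * t := by
        have : ((a + b * t : ℤ) : ℚ) = ((p * c : ℤ) : ℚ) := by rw [hc]
        push_cast at this
        linarith
      rw [S4a_coe]
      apply QuadraticAlgebra.ext
      · simp [h3]; ring
      · simp
    rw [e]
    exact Ideal.add_mem _ (Ideal.mul_mem_left _ _ hv) (Ideal.mul_mem_left _ _ hv2)

private theorem S4a_bq : S4a_int 43 7 = S4a_int 43 7 ∧ ((S4a_int 43 7 : 𝓞 kk) : kk) = bq := by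
  refine ⟨rfl, ?_⟩
  rw [S4a_coe]
  simp [bq]

private theorem S4a_lin (x a b a' b' : ℤ) (r : 𝓞 kk) (v : Pl) (h1 : S4a_int a b ∈ v.asIdeal)
    (h2 : r ∈ v.asIdeal) (h3 : (r : kk) = ⟨x, 0⟩) (m n k : ℤ)
    (e1 : a' = m * a + n * x) (e2 : b' = m * b + k * x) : S4a_int a' b' ∈ v.asIdeal := by
  have e : S4a_int a' b' = (m : 𝓞 kk) * S4a_int a b + S4a_int n k * r := by
    apply NumberField.RingOfIntegers.ext
    have e0 : (((m : 𝓞 kk) * S4a_int a b + S4a_int n k * r : 𝓞 kk) : kk) =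
        (m : kk) * ⟨a, b⟩ + ⟨n, k⟩ * (r : kk) := by
      simp only [map_add, map_mul, map_intCast]
      rfl
    rw [e0, h3, S4a_coe, e1, e2]
    apply QuadraticAlgebra.ext
    · simp
    · simp
  rw [e]
  exact Ideal.add_mem _ (Ideal.mul_mem_left _ _ h1) (Ideal.mul_mem_left _ _ h2)

private theorem S4a_SS (v : Pl) : v ∈ SS4 ↔ S4a_int 43 7 ∈ v.asIdeal := by
  have h0 : S4a_int 43 7 ≠ 0 := by
    intro h
    have := S4a_bq.2
    rw [h] at this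
    have h2 := congrArg QuadraticAlgebra.re this
    simp [bq] at h2
  have h := S4a_ord_iff v h0 1
  rw [pow_one, S4a_bq.2] at h
  rw [← h]
  have h3 := S4a_ord_iff v h0 0
  rw [pow_zero, Ideal.one_eq_top, S4a_bq.2] at h3
  have h4 := h3.2 trivial
  simp only [SS4, Set.mem_ofPred_eq]
  push_cast at h4 ⊢
  omega

private theorem S4a_nat (n : ℕ) : ((n : 𝓞 kk) : kk) = ⟨((n : ℤ) : ℚ), 0⟩ := by
  show algebraMap (𝓞 kk) kk (n : 𝓞 kk) = _
  rw [map_natCast]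
  apply QuadraticAlgebra.ext <;> simp

private theorem S4a_key : ∃ P2 P3 P17 P23 : Pl,
    (((2 : ℕ) : 𝓞 kk) ∈ P2.asIdeal ∧ ((3 : ℕ) : 𝓞 kk) ∈ P3.asIdeal ∧ ((17 : ℕ) : 𝓞 kk) ∈ P17.asIdeal ∧
    ((23 : ℕ) : 𝓞 kk) ∈ P23.asIdeal) ∧ (Ideal.absNorm P2.asIdeal = 2 ∧ Ideal.absNorm P3.asIdeal = 3 ∧
    Ideal.absNorm P17.asIdeal = 17 ∧ Ideal.absNorm P23.asIdeal = 23) ∧
    ((∀ a b : ℤ, S4a_int a b ∈ P2.asIdeal ↔ (2 : ℤ) ∣ a + b) ∧
    (∀ a b : ℤ, S4a_int a b ∈ P3.asIdeal ↔ (3 : ℤ) ∣ a + 2 * b) ∧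
    (∀ a b : ℤ, S4a_int a b ∈ P17.asIdeal ↔ (17 : ℤ) ∣ a + 6 * b) ∧
    (∀ a b : ℤ, S4a_int a b ∈ P23.asIdeal ↔ (23 : ℤ) ∣ a + 7 * b)) ∧
    (∀ v : Pl, ((2 : ℕ) : 𝓞 kk) ∈ v.asIdeal → v ∈ SS4 → v = P2) ∧
    (∀ v : Pl, ((3 : ℕ) : 𝓞 kk) ∈ v.asIdeal → v = P3) ∧
    (∀ v : Pl, ((17 : ℕ) : 𝓞 kk) ∈ v.asIdeal → v ∈ SS4 → v = P17) ∧
    (∀ v : Pl, ((23 : ℕ) : 𝓞 kk) ∈ v.asIdeal → v ∈ SS4 → v = P23) := by
  have : Fact (Nat.Prime 2) := ⟨by norm_num⟩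
  have : Fact (Nat.Prime 3) := ⟨by norm_num⟩
  have : Fact (Nat.Prime 17) := ⟨by norm_num⟩
  have : Fact (Nat.Prime 23) := ⟨by norm_num⟩
  obtain ⟨P2, a1, a2, a3, a4⟩ := S4a_place 2 1 (by norm_num)
  obtain ⟨P3, b1, b2, b3, b4⟩ := S4a_place 3 2 (by norm_num)
  obtain ⟨P17, c1, c2, c3, c4⟩ := S4a_place 17 6 (by norm_num)
  obtain ⟨P23, d1, d2, d3, d4⟩ := S4a_place 23 7 (by norm_num)
  refine ⟨P2, P3, P17, P23, ⟨a1, b1, c1, d1⟩, ⟨a2, b2, c2, d2⟩, ⟨?_, ?_, ?_, ?_⟩, ?_, ?_, ?_, ?_⟩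
  · intro a b
    rw [a3]
    push_cast
    rw [mul_one]
  · intro a b
    rw [b3]
    push_cast
    rw [mul_comm b 2]
  · intro a b
    rw [c3]
    push_cast
    rw [mul_comm b 6]
  · intro a b
    rw [d3]
    push_cast
    rw [mul_comm b 7]
  · intro v h1 h2
    rw [S4a_SS] at h2
    exact a4 v h1 (S4a_lin 2 43 7 (-1) 1 _ v h2 h1 (S4a_nat 2) 1 (-22) (-3) (by norm_num) (by norm_num))
  · intro v h1
    apply b4 v h1
    have e : S4a_int 1 1 * S4a_int 1 1 = S4a_int (-1) 1 * ((3 : ℕ) : 𝓞 kk) := by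
      apply NumberField.RingOfIntegers.ext
      have e0 : ((S4a_int 1 1 * S4a_int 1 1 : 𝓞 kk) : kk) = ⟨((1 : ℤ) : ℚ), ((1 : ℤ) : ℚ)⟩ * ⟨((1 : ℤ) : ℚ), ((1 : ℤ) : ℚ)⟩ := rfl
      have e1 : ((S4a_int (-1) 1 * ((3 : ℕ) : 𝓞 kk) : 𝓞 kk) : kk) =
        ⟨((-1 : ℤ) : ℚ), ((1 : ℤ) : ℚ)⟩ * (((3 : ℕ) : 𝓞 kk) : kk) := rfl
      rw [e0, e1, S4a_nat 3]
      apply QuadraticAlgebra.ext
      · simp; norm_num
      · simp; norm_num
    have h2 : S4a_int 1 1 ∈ v.asIdeal := by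
      have h3 : S4a_int 1 1 * S4a_int 1 1 ∈ v.asIdeal := by
        rw [e]; exact Ideal.mul_mem_left _ _ h1
      rcases v.isPrime.mem_or_mem h3 with h | h <;> exact h
    exact S4a_lin 3 1 1 (-2) 1 _ v h2 h1 (S4a_nat 3) 1 (-1) 0 (by norm_num) (by norm_num)
  · intro v h1 h2
    rw [S4a_SS] at h2
    exact c4 v h1 (S4a_lin 17 43 7 (-6) 1 _ v h2 h1 (S4a_nat 17) 5 (-13) (-2) (by norm_num) (by norm_num))
  · intro v h1 h2
    rw [S4a_SS] at h2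
    exact d4 v h1 (S4a_lin 23 43 7 (-7) 1 _ v h2 h1 (S4a_nat 23) 10 (-19) (-3) (by norm_num) (by norm_num))

theorem S4_list : ∃ P2 P3 P17 P23 : Pl, SS4 = {P2, P3, P17, P23} ∧
    (2 : 𝓞 kk) ∈ P2.asIdeal ∧ (3 : 𝓞 kk) ∈ P3.asIdeal ∧ (17 : 𝓞 kk) ∈ P17.asIdeal ∧
    (23 : 𝓞 kk) ∈ P23.asIdeal ∧ Ideal.absNorm P2.asIdeal = 2 ∧ Ideal.absNorm P3.asIdeal = 3 ∧
    Ideal.absNorm P17.asIdeal = 17 ∧ Ideal.absNorm P23.asIdeal = 23 ∧
    ord P2 bq = 1 ∧ ord P3 bq = 1 ∧ ord P17 bq = 1 ∧ ord P23 bq = 1 := by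
  obtain ⟨P2, P3, P17, P23, ⟨a1, b1, c1, d1⟩, ⟨a2, b2, c2, d2⟩, ⟨a3, b3, c3, d3⟩, a4, b4, c4, d4⟩ := S4a_key
  have e : bq = ⟨((43 : ℤ) : ℚ), ((7 : ℤ) : ℚ)⟩ := by simp [bq]
  refine ⟨P2, P3, P17, P23, ?_, by exact_mod_cast a1, by exact_mod_cast b1, by exact_mod_cast c1,
    by exact_mod_cast d1, a2, b2, c2, d2, ?_, ?_, ?_, ?_⟩
  · ext v
    simp only [Set.mem_insert_iff, Set.mem_singleton_iff]
    constructor
    · intro hv
      have h1 := (S4a_SS v).1 hv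
      have h2 : ((2 : ℕ) : 𝓞 kk) * (((3 : ℕ) : 𝓞 kk) * (((17 : ℕ) : 𝓞 kk) * ((23 : ℕ) : 𝓞 kk))) ∈ v.asIdeal := by
        have e2 : ((2 : ℕ) : 𝓞 kk) * (((3 : ℕ) : 𝓞 kk) * (((17 : ℕ) : 𝓞 kk) * ((23 : ℕ) : 𝓞 kk))) =
            S4a_int 50 (-7) * S4a_int 43 7 := by
          apply NumberField.RingOfIntegers.ext
          have e0 : ((S4a_int 50 (-7) * S4a_int 43 7 : 𝓞 kk) : kk) =
            ⟨((50 : ℤ) : ℚ), ((-7 : ℤ) : ℚ)⟩ * ⟨((43 : ℤ) : ℚ), ((7 : ℤ) : ℚ)⟩ := rfl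
          have e3 : ((2 : ℕ) : 𝓞 kk) * (((3 : ℕ) : 𝓞 kk) * (((17 : ℕ) : 𝓞 kk) * ((23 : ℕ) : 𝓞 kk))) =
            ((2346 : ℕ) : 𝓞 kk) := by norm_num
          rw [e3, e0, S4a_nat]
          apply QuadraticAlgebra.ext
          · simp; norm_num
          · simp; norm_num
        rw [e2]
        exact Ideal.mul_mem_left _ _ h1
      rcases v.isPrime.mem_or_mem h2 with h | h
      · exact Or.inl (a4 v h hv)
      rcases v.isPrime.mem_or_mem h with h | h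
      · exact Or.inr (Or.inl (b4 v h))
      rcases v.isPrime.mem_or_mem h with h | h
      · exact Or.inr (Or.inr (Or.inl (c4 v h hv)))
      · exact Or.inr (Or.inr (Or.inr (d4 v h hv)))
    · rintro (rfl | rfl | rfl | rfl)
      · rw [S4a_SS, a3]; norm_num
      · rw [S4a_SS, b3]; norm_num
      · rw [S4a_SS, c3]; norm_num
      · rw [S4a_SS, d3]; norm_num
  · rw [e]
    apply S4a_ord
    · rw [a3]; norm_num
    · rw [a2]; norm_num
  · rw [e]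
    apply S4a_ord
    · rw [b3]; norm_num
    · rw [b2]; norm_num
  · rw [e]
    apply S4a_ord
    · rw [c3]; norm_num
    · rw [c2]; norm_num
  · rw [e]
    apply S4a_ord
    · rw [d3]; norm_num
    · rw [d2]; norm_num

/-- The prime over 3 is unique, and is ramified. -/
theorem three_mem (v : Pl) (h : (3 : 𝓞 kk) ∈ v.asIdeal) : v ∈ SS4 ∧ ord v 3 = 2 := by
  obtain ⟨P2, P3, P17, P23, ⟨a1, b1, c1, d1⟩, ⟨a2, b2, c2, d2⟩, ⟨a3, b3, c3, d3⟩, a4, b4, c4, d4⟩ := S4a_key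
  have hv : v = P3 := b4 v (by exact_mod_cast h)
  subst hv
  refine ⟨by rw [S4a_SS, b3]; norm_num, ?_⟩
  have h1 : ord v ⟨((1 : ℤ) : ℚ), ((1 : ℤ) : ℚ)⟩ = 1 := by
    apply S4a_ord
    · rw [b3]; norm_num
    · rw [b2]; norm_num
  have h2 : ord v ⟨((-1 : ℤ) : ℚ), ((1 : ℤ) : ℚ)⟩ = 0 := by
    have h0 : S4a_int (-1) 1 ≠ 0 := by
      intro h0
      have := S4a_norm (-1) 1
      rw [h0, Algebra.norm_zero] at this
      norm_num at this
    have h3 := S4a_ord_iff v h0 0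
    have h4 := S4a_ord_iff v h0 1
    rw [pow_zero, Ideal.one_eq_top, S4a_coe] at h3
    rw [pow_one, b3, S4a_coe] at h4
    have h5 := h3.2 trivial
    have h6 := mt h4.1 (by norm_num)
    push_cast at h5 h6 ⊢
    omega
  have e : (⟨((1 : ℤ) : ℚ), ((1 : ℤ) : ℚ)⟩ : kk) * ⟨((1 : ℤ) : ℚ), ((1 : ℤ) : ℚ)⟩ =
    3 * ⟨((-1 : ℤ) : ℚ), ((1 : ℤ) : ℚ)⟩ := by
    apply QuadraticAlgebra.ext
    · simp [QuadraticAlgebra.re_ofNat, QuadraticAlgebra.im_ofNat]; norm_num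
    · simp [QuadraticAlgebra.re_ofNat, QuadraticAlgebra.im_ofNat]; norm_num
  have hne1 : (⟨((1 : ℤ) : ℚ), ((1 : ℤ) : ℚ)⟩ : kk) ≠ 0 := by
    intro h0
    have := congrArg QuadraticAlgebra.re h0
    simp at this
  have hne2 : (⟨((-1 : ℤ) : ℚ), ((1 : ℤ) : ℚ)⟩ : kk) ≠ 0 := by
    intro h0
    have := congrArg QuadraticAlgebra.re h0
    simp at this
  have h7 := ord_mul v hne1 hne1
  rw [e, ord_mul v (by norm_num) hne2, h1, h2] at h7
  omega

/-- Residues at the ramified places, for integral elements. -/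
theorem S4_res (v : Pl) (hv : v ∈ SS4) (a b : ℤ) :
    ((2 : 𝓞 kk) ∈ v.asIdeal → (v.valuation kk ⟨a, b⟩ < 1 ↔ (2 : ℤ) ∣ a + b)) ∧
    ((3 : 𝓞 kk) ∈ v.asIdeal → (v.valuation kk ⟨a, b⟩ < 1 ↔ (3 : ℤ) ∣ a + 2 * b)) ∧
    ((17 : 𝓞 kk) ∈ v.asIdeal → (v.valuation kk ⟨a, b⟩ < 1 ↔ (17 : ℤ) ∣ a + 6 * b)) ∧
    ((23 : 𝓞 kk) ∈ v.asIdeal → (v.valuation kk ⟨a, b⟩ < 1 ↔ (23 : ℤ) ∣ a + 7 * b)) := by
  obtain ⟨P2, P3, P17, P23, ⟨a1, b1, c1, d1⟩, ⟨a2, b2, c2, d2⟩, ⟨a3, b3, c3, d3⟩, a4, b4, c4, d4⟩ := S4a_key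
  rw [S4a_mem]
  refine ⟨fun h => ?_, fun h => ?_, fun h => ?_, fun h => ?_⟩
  · rw [a4 v (by exact_mod_cast h) hv, a3]
  · rw [b4 v (by exact_mod_cast h), b3]
  · rw [c4 v (by exact_mod_cast h) hv, c3]
  · rw [d4 v (by exact_mod_cast h) hv, d3]

end

end Pool.Agent.Work.MP_14c213_gt
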