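import Pool.Agent.Work.MP_14c213_gt.B.FldB
import Pool.Agent.Work.MP_14c213_gt.B.S4a

/-!
Finiteness statements for places, and elementary valuation facts.
-/

namespace Pool.Agent.Work.MP_14c213_gt

open Matrix IsDedekindDomain
open scoped Matrix NumberField QuadraticAlgebra

noncomputable section

private theorem val_ne {v : Pl} {x : kk} (hx : x ≠ 0) : v.valuation kk x ≠ 0 := by simpa using hx

theorem val_lt_one {v : Pl} {x : kk} (hx : x ≠ 0) : v.valuation kk x < 1 ↔ 0 < ord v x := by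
  have h := WithZero.log_lt_log (val_ne (v := v) hx) (one_ne_zero (α := WithZero (Multiplicative ℤ)))
  rw [← h, WithZero.log_one, ord]
  omega

theorem val_le_one {v : Pl} {x : kk} (hx : x ≠ 0) : v.valuation kk x ≤ 1 ↔ 0 ≤ ord v x := by
  have h := WithZero.log_le_log (val_ne (v := v) hx) (one_ne_zero (α := WithZero (Multiplicative ℤ)))
  rw [← h, WithZero.log_one, ord]
  omega

theorem ord_inv (v : Pl) (x : kk) : ord v x⁻¹ = -ord v x := by
  rw [ord, ord, map_inv₀, WithZero.log_inv]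

theorem ord_pow (v : Pl) (x : kk) (n : ℕ) : ord v (x ^ n) = n * ord v x := by
  rw [ord, ord, map_pow, WithZero.log_pow, nsmul_eq_mul]
  ring

private theorem ord_zpow (v : Pl) (x : kk) (n : ℤ) : ord v (x ^ n) = n * ord v x := by
  rw [ord, ord, map_zpow₀, WithZero.log_zpow, zsmul_eq_mul]
  push_cast
  ring

private theorem supp_fin (x : kk) : {v : Pl | 1 < v.valuation kk x}.Finite :=
  HeightOneSpectrum.Support.finite (𝓞 kk) x

theorem ord_finite {x : kk} (hx : x ≠ 0) : {v : Pl | ord v x ≠ 0}.Finite := by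
  refine ((supp_fin x).union (supp_fin x⁻¹)).subset ?_
  intro v hv
  simp only [Set.mem_ofPred_eq] at hv
  have h1 := val_le_one (v := v) hx
  have h2 := val_le_one (v := v) (inv_ne_zero hx)
  rw [ord_inv] at h2
  by_contra hc
  simp only [Set.mem_union, Set.mem_ofPred_eq, not_or, not_lt] at hc
  have := h1.1 hc.1
  have := h2.1 hc.2
  omega

/-- Weak approximation: prescribe the order at one place, non-negative order elsewhere. -/
theorem ord_approx (v : Pl) : ∃ x : kk, ord v x = 1 ∧ ∀ w, 0 ≤ ord w x := by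
  obtain ⟨p, hp⟩ := v.intValuation_exists_uniformizer
  have hp0 : p ≠ 0 := by
    rintro rfl
    rw [map_zero] at hp
    exact WithZero.exp_ne_zero hp.symm
  have hx : (algebraMap (𝓞 kk) kk p) ≠ 0 := by
    simpa using hp0
  refine ⟨algebraMap (𝓞 kk) kk p, ?_, fun w => ?_⟩
  · rw [ord, HeightOneSpectrum.valuation_of_algebraMap, hp, WithZero.log_exp]
    norm_num
  · exact (val_le_one hx).1 (w.valuation_le_one p)

/-- An element of order `n` at `v`. -/
theorem ord_surj (v : Pl) (n : ℤ) : ∃ x : kk, x ≠ 0 ∧ ord v x = n := by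
  obtain ⟨x, hx, -⟩ := ord_approx v
  have hx0 : x ≠ 0 := by
    rintro rfl
    simp [ord] at hx
  exact ⟨x ^ n, zpow_ne_zero _ hx0, by rw [ord_zpow, hx, mul_one]⟩

theorem UU_finite (g : AAˣ) : {v : Pl | g ∉ UU v}.Finite := by
  have hb : bq ≠ 0 := by
    intro h
    have := congrArg QuadraticAlgebra.re h
    norm_num [bq] at this
  refine ((ord_finite hb).union (((supp_fin (g : AA).re).union (supp_fin (g : AA).imI)).union
    (((supp_fin (g : AA).imJ).union (supp_fin (g : AA).imK)).union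
    (((supp_fin ((g⁻¹ : AAˣ) : AA).re).union (supp_fin ((g⁻¹ : AAˣ) : AA).imI)).union
    ((supp_fin ((g⁻¹ : AAˣ) : AA).imJ).union (supp_fin ((g⁻¹ : AAˣ) : AA).imK)))))).subset ?_
  intro v hv
  by_contra hc
  simp only [Set.mem_union, Set.mem_ofPred_eq, not_or, not_lt, not_not] at hc
  obtain ⟨h0, ⟨h1, h2⟩, ⟨h3, h4⟩, ⟨h5, h6⟩, h7, h8⟩ := hc
  apply hv
  have hS : v ∉ SS4 := fun h => h h0
  rw [UU, if_neg hS]
  refine ⟨1, one_ne_zero, ?_, ?_⟩
  · rw [one_smul]
    exact ⟨h1, h2, h3, h4⟩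
  · rw [inv_one, one_smul]
    exact ⟨h5, h6, h7, h8⟩

/-- Every nonzero ideal quotient: `Nv` is the norm and `om` is `-1` at the place over 3. -/
theorem om_S4 (v : Pl) (hv : v ∈ SS4) : om v = -1 := by
  obtain ⟨P2, P3, P17, P23, hS, -, -, -, -, h2, h3, h17, h23, -⟩ := S4_list
  rw [hS] at hv
  simp only [Set.mem_insert_iff, Set.mem_singleton_iff] at hv
  rcases hv with rfl | rfl | rfl | rfl
  · rw [om, h2]; rfl
  · rw [om, h3]; rfl
  · rw [om, h17]; rfl
  · rw [om, h23]; rfl

private theorem nrd_smul (z : kk) (g : AA) : nrd (z • g) = z ^ 2 * nrd g := by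
  simp only [nrd, NK, xp, yp, QuaternionAlgebra.re_smul, QuaternionAlgebra.imI_smul,
    QuaternionAlgebra.imJ_smul, QuaternionAlgebra.imK_smul, smul_eq_mul]
  ring

private theorem nrd_int {v : Pl} {g : AA} (hg : g ∈ OO v) : v.valuation kk (nrd g) ≤ 1 := by
  obtain ⟨h1, h2, h3, h4⟩ := hg
  have hb := val_bq v
  simp only [← Valuation.mem_integer_iff] at *
  simp only [nrd, NK, xp, yp]
  exact Subring.sub_mem _ (Subring.add_mem _ (Subring.sub_mem _ (Subring.pow_mem _ h1 2)
    (Subring.mul_mem _ h1 h2)) (Subring.pow_mem _ h2 2))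
    (Subring.mul_mem _ hb (Subring.add_mem _ (Subring.sub_mem _ (Subring.pow_mem _ h3 2)
    (Subring.mul_mem _ h3 h4)) (Subring.pow_mem _ h4 2)))

/-- At `v ∉ SS4` membership in `UU v` forces even valuation of the norm. -/
theorem UU_even {v : Pl} {g : AAˣ} (hg : g ∈ UU v) : Even (ord v (nrd (g : AA))) := by
  by_cases hS : v ∈ SS4
  · rw [UU, if_pos hS] at hg
    exact hg
  · rw [UU, if_neg hS] at hg
    obtain ⟨z, hz, h1, h2⟩ := hg
    have hg0 := nrd_ne g
    have hgi := nrd_ne g⁻¹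
    have k1 := nrd_int h1
    have k2 := nrd_int h2
    rw [nrd_smul] at k1 k2
    rw [val_le_one (mul_ne_zero (pow_ne_zero _ hz) hg0), ord_mul v (pow_ne_zero _ hz) hg0,
      ord_pow] at k1
    rw [val_le_one (mul_ne_zero (pow_ne_zero _ (inv_ne_zero hz)) hgi),
      ord_mul v (pow_ne_zero _ (inv_ne_zero hz)) hgi, ord_pow, ord_inv] at k2
    have h3 := nrd_mul (g : AA) ((g⁻¹ : AAˣ) : AA)
    rw [Units.mul_inv, nrd_one] at h3
    have h4 := ord_mul v hg0 hgi
    rw [← h3, ord_one] at h4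
    refine ⟨-ord v z, ?_⟩
    push_cast at k1 k2
    omega

/-- An element of odd valuation at a ramified place exists (`j` itself). -/
theorem odd_exists : ∃ n : AAˣ, ∀ v ∈ SS4, n ∉ UU v := by
  have hb : bq ≠ 0 := by
    intro h
    have := congrArg QuadraticAlgebra.re h
    norm_num [bq] at this
  let j : AA := ⟨0, 0, 1, 0⟩
  let j' : AA := ⟨0, 0, bq⁻¹, 0⟩
  have h1 : j * j' = 1 := by
    ext1 <;> simp [j, j', hb]
  have h2 : j' * j = 1 := by
    ext1 <;> simp [j, j', hb]
  refine ⟨⟨j, j', h1, h2⟩, fun v hv hU => ?_⟩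
  rw [UU, if_pos hv] at hU
  have h3 : nrd j = -bq := by
    simp [nrd, NK, xp, yp, j]
  change Even (ord v (nrd j)) at hU
  have h4 : ord v (-bq) = ord v bq := by
    rw [ord, ord, Valuation.map_neg]
  rw [h3, h4] at hU
  obtain ⟨P2, P3, P17, P23, hS, -, -, -, -, -, -, -, -, o2, o3, o17, o23⟩ := S4_list
  rw [hS] at hv
  simp only [Set.mem_insert_iff, Set.mem_singleton_iff] at hv
  rcases hv with rfl | rfl | rfl | rfl
  · rw [o2] at hU; revert hU; decide
  · rw [o3] at hU; revert hU; decide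
  · rw [o17] at hU; revert hU; decide
  · rw [o23] at hU; revert hU; decide

end

end Pool.Agent.Work.MP_14c213_gt
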