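import Pool.Agent.Work.MP_14c213_gt.B.FldB
import Pool.Agent.Work.MP_14c213_gt.B.OrdB
import Pool.Agent.Work.MP_14c213_gt.B.S4a

/-!
K is norm-Euclidean. OK = ℤ[ζ] + ℤ[ζ] ε. NQ x = N_{k/ℚ}(NK x). Rounding: u + vε with u, v ∈ ℚ(ζ) reduced
modulo ℤ[ζ] to |u|², |v|² ≤ 1/3; |u² + uv - v²|² ≤ 5/9 (N_{K/ℚ(ζ)}(u + vε) = u² + uv - v²).
-/

namespace Pool.Agent.Work.MP_14c213_gt

open Matrix IsDedekindDomain
open scoped Matrix NumberField QuadraticAlgebra

noncomputable section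

/-- Integers of `K`. -/
def OK : Subring KK where
  carrier := {x | ∃ a b c d : ℤ, x = (algebraMap ℚ KK a + algebraMap ℚ KK b * zeta) +
    (algebraMap ℚ KK c + algebraMap ℚ KK d * zeta) * eps}
  zero_mem' := ⟨0, 0, 0, 0, by simp⟩
  one_mem' := ⟨1, 0, 0, 0, by simp⟩
  add_mem' := by
    rintro x y ⟨a, b, c, d, rfl⟩ ⟨a', b', c', d', rfl⟩
    refine ⟨a + a', b + b', c + c', d + d', ?_⟩
    simp only [Int.cast_add, map_add]
    ring
  neg_mem' := by
    rintro x ⟨a, b, c, d, rfl⟩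
    refine ⟨-a, -b, -c, -d, ?_⟩
    simp only [Int.cast_neg, map_neg]
    ring
  mul_mem' := by
    rintro x y ⟨a, b, c, d, rfl⟩ ⟨a', b', c', d', rfl⟩
    refine ⟨(a * a' - b * b') + (c * c' - d * d'), (a * b' + a' * b - b * b') +
      (c * d' + c' * d - d * d'),
      (a * c' - b * d') + (c * a' - d * b') + (c * c' - d * d'),
      (a * d' + c' * b - b * d') + (c * b' + a' * d - d * b') + (c * d' + c' * d - d * d'), ?_⟩
    simp only [Int.cast_add, Int.cast_sub, Int.cast_mul, map_add, map_sub, map_mul]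
    have h1 := zeta_rel
    have h2 := eps_sq
    linear_combination ((algebraMap ℚ KK b) * (algebraMap ℚ KK b') +
      (algebraMap ℚ KK d) * (algebraMap ℚ KK d') * (eps + 1) +
      (algebraMap ℚ KK b) * (algebraMap ℚ KK d') * eps +
      (algebraMap ℚ KK d) * (algebraMap ℚ KK b') * eps) * h1 +
      ((algebraMap ℚ KK c + algebraMap ℚ KK d * zeta) *
        (algebraMap ℚ KK c' + algebraMap ℚ KK d' * zeta)) * h2

/-- Absolute norm `K → ℚ`. -/
def NQ (x : KK) : ℚ := (NK x).re ^ 2 + (NK x).re * (NK x).im + 4 * (NK x).im ^ 2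

theorem NQ_mul (x y : KK) : NQ (x * y) = NQ x * NQ y := by
  simp only [NQ, NK_mul, QuadraticAlgebra.re_mul, QuadraticAlgebra.im_mul]
  ring

theorem NQ_pos {x : KK} (hx : x ≠ 0) : 0 < NQ x := by
  have h := NK_ne hx
  have h2 : (NK x).re ≠ 0 ∨ (NK x).im ≠ 0 := by
    by_contra hc
    push Not at hc
    exact h (QuadraticAlgebra.ext hc.1 hc.2)
  simp only [NQ]
  rcases h2 with h2 | h2
  · have h3 : 0 < (NK x).re ^ 2 := by positivity
    nlinarith [sq_nonneg ((NK x).re + 8 * (NK x).im), sq_nonneg ((NK x).im)]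
  · have h3 : 0 < (NK x).im ^ 2 := by positivity
    nlinarith [sq_nonneg (2 * (NK x).re + (NK x).im)]

private theorem EucB_mk (a b c d : ℤ) : (algebraMap ℚ KK a + algebraMap ℚ KK b * zeta) +
    (algebraMap ℚ KK c + algebraMap ℚ KK d * zeta) * eps ∈ OK := ⟨a, b, c, d, rfl⟩

theorem zeta_eps_OK : zeta ∈ OK ∧ eps ∈ OK ∧ star eps ∈ OK ∧ star zeta ∈ OK ∧
    ∀ x ∈ OK, star x ∈ OK := by
  have h1 : zeta ∈ OK := ⟨0, 1, 0, 0, by simp⟩
  have h2 : eps ∈ OK := ⟨0, 0, 1, 0, by simp⟩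
  have e3 : star eps = 1 - eps := by
    have h := mul_star_KK eps
    rw [NK_eps, map_neg, map_one] at h
    have h0 : eps ≠ 0 := by
      rintro h0
      rw [h0, zero_mul] at h
      exact one_ne_zero (neg_eq_zero.1 h.symm)
    have h4 : eps * star eps = eps * (1 - eps) := by
      rw [h]
      linear_combination eps_sq
    exact mul_left_cancel₀ h0 h4
  have h3 : star eps ∈ OK := by
    rw [e3]
    exact Subring.sub_mem _ (Subring.one_mem _) h2
  have e4 : star zeta = -1 - zeta := by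
    rw [star_KK]
    simp only [zeta]
    apply QuadraticAlgebra.ext <;> simp
  have h4 : star zeta ∈ OK := by
    rw [e4]
    exact Subring.sub_mem _ (Subring.neg_mem _ (Subring.one_mem _)) h1
  have hint : ∀ n : ℤ, algebraMap ℚ KK n ∈ OK := by
    intro n
    exact ⟨n, 0, 0, 0, by simp⟩
  have hst : ∀ n : ℤ, star (algebraMap ℚ KK n) = algebraMap ℚ KK n := by
    intro n
    simp
  refine ⟨h1, h2, h3, h4, ?_⟩
  rintro x ⟨a, b, c, d, rfl⟩
  rw [star_add, star_add, star_mul', star_mul', star_add, star_mul', hst, hst, hst, hst]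
  exact Subring.add_mem _ (Subring.add_mem _ (hint a) (Subring.mul_mem _ (hint b) h4))
    (Subring.mul_mem _ (Subring.add_mem _ (hint c) (Subring.mul_mem _ (hint d) h4)) h3)

theorem OK_int {x : KK} (hx : x ∈ OK) : IsIntegral ℤ x ∧ IsIntegral ℤ (NK x) ∧ ∃ n : ℕ, NQ x = n := by
  have hz : IsIntegral ℤ zeta := by
    refine ⟨Polynomial.X ^ 2 + Polynomial.X + 1, ?_, ?_⟩
    · monicity!
    · simp only [Polynomial.eval₂_add, Polynomial.eval₂_pow, Polynomial.eval₂_X,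
        Polynomial.eval₂_one]
      linear_combination zeta_rel
  have he : IsIntegral ℤ eps := by
    refine ⟨Polynomial.X ^ 2 - Polynomial.X - 1, ?_, ?_⟩
    · monicity!
    · simp only [Polynomial.eval₂_sub, Polynomial.eval₂_pow, Polynomial.eval₂_X,
        Polynomial.eval₂_one]
      linear_combination eps_sq
  have hn : ∀ n : ℤ, IsIntegral ℤ (algebraMap ℚ KK n) := by
    intro n
    have : algebraMap ℚ KK n = algebraMap ℤ KK n := by simp
    rw [this]
    exact isIntegral_algebraMap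
  have hall : ∀ y ∈ OK, IsIntegral ℤ y := by
    rintro y ⟨a, b, c, d, rfl⟩
    exact ((hn a).add ((hn b).mul hz)).add (((hn c).add ((hn d).mul hz)).mul he)
  have h1 := hall x hx
  have h2 := hall _ (zeta_eps_OK.2.2.2.2 x hx)
  have h3 : IsIntegral ℤ (algebraMap kk KK (NK x)) := by
    rw [← mul_star_KK]
    exact h1.mul h2
  have h4 : IsIntegral ℤ (NK x) :=
    (isIntegral_algebraMap_iff (algebraMap kk KK).injective).1 h3
  refine ⟨h1, h4, ?_⟩
  obtain ⟨a, b, hab⟩ := (int_iff _).1 h4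
  refine ⟨(a ^ 2 + a * b + 4 * b ^ 2).toNat, ?_⟩
  have h5 : 0 ≤ a ^ 2 + a * b + 4 * b ^ 2 := by nlinarith [sq_nonneg (2 * a + b), sq_nonneg b]
  have h6 : (((a ^ 2 + a * b + 4 * b ^ 2).toNat : ℤ) : ℚ) = ((a ^ 2 + a * b + 4 * b ^ 2 : ℤ) : ℚ) := by
    rw [Int.toNat_of_nonneg h5]
  rw [← Int.cast_natCast, h6]
  simp only [NQ, hab]
  push_cast
  ring

theorem kk_OK (a b : ℤ) : algebraMap kk KK ⟨a, b⟩ ∈ OK := by
  refine ⟨a, -b, b, 2 * b, ?_⟩
  simp only [zeta, eps]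
  apply QuadraticAlgebra.ext
  · apply QuadraticAlgebra.ext
    · simp; ring
    · simp; ring
  · apply QuadraticAlgebra.ext
    · simp; ring
    · simp; ring

private theorem EucB_round (a b : ℚ) : ∃ m n : ℤ,
    (a - m) ^ 2 - (a - m) * (b - n) + (b - n) ^ 2 ≤ 1 / 3 := by
  have key : ∀ x y : ℚ, 0 ≤ y → y ≤ x → x ≤ 1 →
      (x ^ 2 - x * y + y ^ 2 ≤ 1 / 3) ∨ ((x - 1) ^ 2 - (x - 1) * y + y ^ 2 ≤ 1 / 3) ∨
      ((x - 1) ^ 2 - (x - 1) * (y - 1) + (y - 1) ^ 2 ≤ 1 / 3) := by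
    intro x y h0 h1 h2
    by_contra hc
    push Not at hc
    obtain ⟨c1, c2, c3⟩ := hc
    have k1 : 0 ≤ (1 - x) * ((x ^ 2 - x * y + y ^ 2) - 1 / 3) :=
      mul_nonneg (by linarith) (by linarith)
    have k2 : 0 ≤ (x - y) * (((x - 1) ^ 2 - (x - 1) * y + y ^ 2) - 1 / 3) :=
      mul_nonneg (by linarith) (by linarith)
    have k3 : 0 ≤ y * (((x - 1) ^ 2 - (x - 1) * (y - 1) + (y - 1) ^ 2) - 1 / 3) :=
      mul_nonneg (by linarith) (by linarith)
    have k4 : (1 - x) * (x ^ 2 - x * y + y ^ 2) + (x - y) * ((x - 1) ^ 2 - (x - 1) * y + y ^ 2) +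
      y * ((x - 1) ^ 2 - (x - 1) * (y - 1) + (y - 1) ^ 2) =
      (1 - x) * (x - y) + (x - y) * y + (1 - x) * y := by ring
    have k5 : (1 - x) * (x - y) + (x - y) * y + (1 - x) * y ≤ 1 / 3 := by
      nlinarith [sq_nonneg ((1 - x) - (x - y)), sq_nonneg ((x - y) - y), sq_nonneg ((1 - x) - y)]
    have k6 : (1 - x) * (x - y) + (x - y) * y + (1 - x) * y = 1 / 3 := by linarith
    have k7 : ((1 - x) - (x - y)) ^ 2 + ((x - y) - y) ^ 2 + ((1 - x) - y) ^ 2 = 0 := by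
      nlinarith [k6]
    have k8 : (1 - x) - (x - y) = 0 := by
      have := sq_nonneg ((1 - x) - (x - y))
      have := sq_nonneg ((x - y) - y)
      have := sq_nonneg ((1 - x) - y)
      exact pow_eq_zero_iff (two_ne_zero) |>.1 (by linarith)
    have k9 : (x - y) - y = 0 := by
      have := sq_nonneg ((1 - x) - (x - y))
      have := sq_nonneg ((x - y) - y)
      have := sq_nonneg ((1 - x) - y)
      exact pow_eq_zero_iff (two_ne_zero) |>.1 (by linarith)
    have hy : y = 1 / 3 := by linarith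
    have hx : x = 2 / 3 := by linarith
    rw [hx, hy] at c1
    norm_num at c1
  have hfl := Int.floor_le a
  have hfl' := Int.lt_floor_add_one a
  have hgl := Int.floor_le b
  have hgl' := Int.lt_floor_add_one b
  rcases le_total (b - ⌊b⌋) (a - ⌊a⌋) with h | h
  · rcases key (a - ⌊a⌋) (b - ⌊b⌋) (by linarith) h (by linarith) with h1 | h1 | h1
    · exact ⟨⌊a⌋, ⌊b⌋, h1⟩
    · refine ⟨⌊a⌋ + 1, ⌊b⌋, ?_⟩
      push_cast
      calc _ = (a - ⌊a⌋ - 1) ^ 2 - (a - ⌊a⌋ - 1) * (b - ⌊b⌋) + (b - ⌊b⌋) ^ 2 := by ring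
        _ ≤ _ := h1
    · refine ⟨⌊a⌋ + 1, ⌊b⌋ + 1, ?_⟩
      push_cast
      calc _ = (a - ⌊a⌋ - 1) ^ 2 - (a - ⌊a⌋ - 1) * (b - ⌊b⌋ - 1) + (b - ⌊b⌋ - 1) ^ 2 := by ring
        _ ≤ _ := h1
  · rcases key (b - ⌊b⌋) (a - ⌊a⌋) (by linarith) h (by linarith) with h1 | h1 | h1
    · refine ⟨⌊a⌋, ⌊b⌋, ?_⟩
      calc _ = (b - ⌊b⌋) ^ 2 - (b - ⌊b⌋) * (a - ⌊a⌋) + (a - ⌊a⌋) ^ 2 := by ring
        _ ≤ _ := h1
    · refine ⟨⌊a⌋, ⌊b⌋ + 1, ?_⟩
      push_cast
      calc _ = (b - ⌊b⌋ - 1) ^ 2 - (b - ⌊b⌋ - 1) * (a - ⌊a⌋) + (a - ⌊a⌋) ^ 2 := by ring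
        _ ≤ _ := h1
    · refine ⟨⌊a⌋ + 1, ⌊b⌋ + 1, ?_⟩
      push_cast
      calc _ = (b - ⌊b⌋ - 1) ^ 2 - (b - ⌊b⌋ - 1) * (a - ⌊a⌋ - 1) + (a - ⌊a⌋ - 1) ^ 2 := by ring
        _ ≤ _ := h1

private theorem EucB_exp (x : KK) : ∃ a b c d : ℚ, x = (algebraMap ℚ KK a + algebraMap ℚ KK b * zeta) +
    (algebraMap ℚ KK c + algebraMap ℚ KK d * zeta) * eps := by
  obtain ⟨⟨p, q⟩, ⟨r, s⟩⟩ := x
  -- p = a + (2 c - d) / 3, q = (- c + 2 d) / 3, r = b + (c + d) / 3, s = (-2 c + d) / 3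
  refine ⟨p + s, r - q + s, q - 2 * s, 2 * q - s, ?_⟩
  simp only [zeta, eps]
  apply QuadraticAlgebra.ext
  · apply QuadraticAlgebra.ext
    · simp; ring
    · simp; ring
  · apply QuadraticAlgebra.ext
    · simp; ring
    · simp; ring

private theorem EucB_NQ (a b c d : ℚ) : NQ ((algebraMap ℚ KK a + algebraMap ℚ KK b * zeta) +
    (algebraMap ℚ KK c + algebraMap ℚ KK d * zeta) * eps) =
    5 / 4 * ((a ^ 2 - a * b + b ^ 2) + (c ^ 2 - c * d + d ^ 2)) ^ 2 -
    (2 * (a * c + b * d - (b * c + a * d) / 2) - ((a ^ 2 - a * b + b ^ 2) - (c ^ 2 - c * d + d ^ 2)) / 2) ^ 2 := by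
  simp only [NQ, NK, zeta, eps]
  simp [pow_two]
  ring

/-- Euclidean rounding. -/
theorem euclid (x : KK) : ∃ q ∈ OK, NQ (x - q) ≤ 5 / 9 := by
  obtain ⟨a, b, c, d, rfl⟩ := EucB_exp x
  obtain ⟨m, n, h1⟩ := EucB_round a b
  obtain ⟨m', n', h2⟩ := EucB_round c d
  refine ⟨_, EucB_mk m n m' n', ?_⟩
  have e : (algebraMap ℚ KK a + algebraMap ℚ KK b * zeta) +
    (algebraMap ℚ KK c + algebraMap ℚ KK d * zeta) * eps - ((algebraMap ℚ KK m + algebraMap ℚ KK n * zeta) +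
    (algebraMap ℚ KK m' + algebraMap ℚ KK n' * zeta) * eps) =
    (algebraMap ℚ KK (a - m) + algebraMap ℚ KK (b - n) * zeta) +
    (algebraMap ℚ KK (c - m') + algebraMap ℚ KK (d - n') * zeta) * eps := by
    simp only [map_sub]
    ring
  rw [e, EucB_NQ]
  have h3 : 0 ≤ (a - m) ^ 2 - (a - m) * (b - n) + (b - n) ^ 2 := by
    nlinarith [sq_nonneg (2 * (a - m) - (b - n)), sq_nonneg (b - n)]
  have h4 : 0 ≤ (c - m') ^ 2 - (c - m') * (d - n') + (d - n') ^ 2 := by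
    nlinarith [sq_nonneg (2 * (c - m') - (d - n')), sq_nonneg (d - n')]
  have h5 : ((a - m) ^ 2 - (a - m) * (b - n) + (b - n) ^ 2 +
    ((c - m') ^ 2 - (c - m') * (d - n') + (d - n') ^ 2)) ^ 2 ≤ (2 / 3) ^ 2 :=
    pow_le_pow_left₀ (by linarith) (by linarith) 2
  have h6 := sq_nonneg (2 * ((a - m) * (c - m') + (b - n) * (d - n') - ((b - n) * (c - m') + (a - m) * (d - n')) / 2) -
    (((a - m) ^ 2 - (a - m) * (b - n) + (b - n) ^ 2) - ((c - m') ^ 2 - (c - m') * (d - n') + (d - n') ^ 2)) / 2)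
  linarith

/-- Coordinates of integers are integral outside 3. -/
theorem OK_coord {x : KK} (hx : x ∈ OK) {v : Pl} (hv : v ∉ SS4) :
    v.valuation kk x.re ≤ 1 ∧ v.valuation kk x.im ≤ 1 := by
  obtain ⟨a, b, c, d, rfl⟩ := hx
  have h3 : v.valuation kk 3 = 1 := by
    have h : (3 : 𝓞 kk) ∉ v.asIdeal := fun h => hv (three_mem v h).1
    have := (v.valuation_eq_one_iff_notMem (K := kk) (r := (3 : 𝓞 kk))).2 h
    rwa [map_ofNat] at this
  have h4 : ∀ y : kk, v.valuation kk (3 * y) ≤ 1 → v.valuation kk y ≤ 1 := by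
    intro y hy
    rwa [map_mul, h3, one_mul] at hy
  constructor
  · apply h4
    have e : 3 * ((algebraMap ℚ KK a + algebraMap ℚ KK b * zeta) +
      (algebraMap ℚ KK c + algebraMap ℚ KK d * zeta) * eps).re =
      (⟨((3 * a + 2 * c - d : ℤ) : ℚ), ((-c + 2 * d : ℤ) : ℚ)⟩ : kk) := by
      simp only [zeta, eps]
      apply QuadraticAlgebra.ext
      · simp [QuadraticAlgebra.re_ofNat, QuadraticAlgebra.im_ofNat]; ring
      · simp [QuadraticAlgebra.re_ofNat, QuadraticAlgebra.im_ofNat]; ring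
    rw [e]
    exact val_int v _ _
  · apply h4
    have e : 3 * ((algebraMap ℚ KK a + algebraMap ℚ KK b * zeta) +
      (algebraMap ℚ KK c + algebraMap ℚ KK d * zeta) * eps).im =
      (⟨((3 * b + c + d : ℤ) : ℚ), ((-2 * c + d : ℤ) : ℚ)⟩ : kk) := by
      simp only [zeta, eps]
      apply QuadraticAlgebra.ext
      · simp [QuadraticAlgebra.re_ofNat, QuadraticAlgebra.im_ofNat]; ring
      · simp [QuadraticAlgebra.re_ofNat, QuadraticAlgebra.im_ofNat]; ring
    rw [e]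
    exact val_int v _ _

/-- Units of `k` are norms from `K`, so an element all of whose valuations at the inert places are
even is a norm. -/
theorem unit_kk {t : kk} (h : ∀ v : Pl, ord v t = 0) (h0 : t ≠ 0) : t = 1 ∨ t = -1 := by
  have hval : ∀ v : Pl, v.valuation kk t = 1 := by
    intro v
    have h1 : v.valuation kk t ≠ 0 := by simpa using h0
    have h2 : WithZero.log (v.valuation kk t) = 0 := by
      have := h v
      simp only [ord] at this
      omega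
    rw [← WithZero.exp_log h1, h2, WithZero.exp_zero]
  have hint : ∀ s : kk, (∀ v : Pl, v.valuation kk s ≤ 1) → IsIntegral ℤ s := by
    intro s hs
    obtain ⟨r, hr⟩ := HeightOneSpectrum.mem_integers_of_valuation_le_one (K := kk) s hs
    rw [← hr]
    exact NumberField.RingOfIntegers.isIntegral_coe r
  obtain ⟨a, b, h1⟩ := (int_iff t).1 (hint t fun v => (hval v).le)
  obtain ⟨c, d, h2⟩ := (int_iff t⁻¹).1 (hint t⁻¹ fun v => by rw [map_inv₀, hval v, inv_one])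
  have h3 : t * t⁻¹ = 1 := mul_inv_cancel₀ h0
  rw [h2, h1] at h3
  have h4 := congrArg QuadraticAlgebra.re h3
  have h5 := congrArg QuadraticAlgebra.im h3
  simp at h4 h5
  have h6 : (a : ℤ) * c - 4 * b * d = 1 := by
    have : ((a * c - 4 * b * d : ℤ) : ℚ) = 1 := by push_cast; linarith
    exact_mod_cast this
  have h7 : a * d + b * c + b * d = 0 := by
    have : ((a * d + b * c + b * d : ℤ) : ℚ) = 0 := by push_cast; linarith
    exact_mod_cast this
  have h8 : (a ^ 2 + a * b + 4 * b ^ 2) * (c ^ 2 + c * d + 4 * d ^ 2) = 1 := by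
    have e : (a ^ 2 + a * b + 4 * b ^ 2) * (c ^ 2 + c * d + 4 * d ^ 2) =
      (a * c - 4 * b * d) ^ 2 + (a * c - 4 * b * d) * (a * d + b * c + b * d) +
      4 * (a * d + b * c + b * d) ^ 2 := by ring
    rw [e, h6, h7]
    norm_num
  have h9 : 0 ≤ a ^ 2 + a * b + 4 * b ^ 2 := by nlinarith [sq_nonneg (2 * a + b), sq_nonneg b]
  have h10 : a ^ 2 + a * b + 4 * b ^ 2 = 1 := by
    rcases Int.eq_one_or_neg_one_of_mul_eq_one h8 with h | h
    · exact h
    · omega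
  have h11 : b = 0 := by
    have : 15 * b ^ 2 ≤ 4 := by nlinarith [sq_nonneg (2 * a + b)]
    have h12 : b ^ 2 < 1 := by linarith
    have h13 := sq_nonneg b
    have : b ^ 2 = 0 := by omega
    exact pow_eq_zero_iff (two_ne_zero) |>.1 this
  subst h11
  have h12 : a * a = 1 := by linarith [h10, (by ring : a ^ 2 + a * 0 + 4 * 0 ^ 2 = a * a)]
  rw [h1]
  rcases mul_self_eq_one_iff.1 h12 with h | h
  · left
    rw [h]
    apply QuadraticAlgebra.ext <;> simp
  · right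
    rw [h]
    apply QuadraticAlgebra.ext <;> simp

end

end Pool.Agent.Work.MP_14c213_gt
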