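import Pool.Agent.Work.MP_14c213_gt.B.FldB
import Pool.Agent.Work.MP_14c213_gt.A.PhiMul
import Pool.Agent.Work.MP_14c213_gt.A.RotM

/-!
The embedding of A in M₂(ℂ) and the homomorphism Psi to Lorentz matrices.
-/

namespace Pool.Agent.Work.MP_14c213_gt

open Matrix IsDedekindDomain
open scoped Matrix NumberField QuadraticAlgebra

noncomputable section

private theorem phik_apply (x : kk) : phik x =
    ((x.re : ℚ) : ℂ) + ((x.im : ℚ) : ℂ) * ((1 + Complex.I * (Real.sqrt 15 : ℂ)) / 2) := by
  have h : phik x = x.re • (1 : ℂ) + x.im • ((1 + Complex.I * (Real.sqrt 15 : ℂ)) / 2) := rfl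
  rw [h, Algebra.smul_def, Algebra.smul_def, mul_one]
  rfl

private theorem phiK_apply (x : KK) : phiK x = phik x.re + phik x.im * zc := rfl

private theorem phiK_algebraMap (z : kk) : phiK (algebraMap kk KK z) = phik z := by
  rw [phiK_apply]
  have h1 : (algebraMap kk KK z).re = z := rfl
  have h2 : (algebraMap kk KK z).im = 0 := rfl
  rw [h1, h2, map_zero, zero_mul, add_zero]

theorem iota_mul (g h : AA) : iotaA (g * h) = iotaA g * iotaA h := by
  unfold iotaA
  rw [xp_mul, yp_mul]
  have hb : star (algebraMap kk KK bq) = algebraMap kk KK bq := by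
    rw [star_KK]
    ext <;> simp
  simp only [star_add, star_mul', star_star, hb, map_add, map_mul, phiK_algebraMap]
  ext i j
  fin_cases i <;> fin_cases j <;> simp [Matrix.mul_apply, Fin.sum_univ_two] <;> ring

theorem iota_one : iotaA 1 = 1 := by
  have h1 : xp (1 : AA) = 1 := by
    unfold xp
    ext <;> simp
  have h2 : yp (1 : AA) = 0 := by
    unfold yp
    ext <;> simp
  unfold iotaA
  rw [h1, h2]
  ext i j
  fin_cases i <;> fin_cases j <;> simp

theorem iota_add (g h : AA) : iotaA (g + h) = iotaA g + iotaA h := by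
  have h1 : xp (g + h) = xp g + xp h := by
    unfold xp
    ext <;> simp
  have h2 : yp (g + h) = yp g + yp h := by
    unfold yp
    ext <;> simp
  unfold iotaA
  rw [h1, h2]
  ext i j
  fin_cases i <;> fin_cases j <;> simp [mul_add]

theorem iota_det (g : AA) : (iotaA g).det = phik (nrd g) := by
  unfold iotaA nrd
  rw [Matrix.det_fin_two]
  simp only [Matrix.of_apply, Matrix.cons_val', Matrix.cons_val_zero, Matrix.cons_val_one,
    Matrix.cons_val_fin_one]
  rw [map_sub, map_mul, ← map_mul, mul_star_KK, phiK_algebraMap, mul_assoc, ← map_mul,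
    mul_star_KK, phiK_algebraMap]

theorem iota_trace (g : AA) : (iotaA g).trace = phik (trd g) := by
  unfold iotaA trd
  rw [Matrix.trace_fin_two]
  simp only [Matrix.of_apply, Matrix.cons_val', Matrix.cons_val_zero, Matrix.cons_val_one,
    Matrix.cons_val_fin_one]
  rw [← map_add]
  have : xp g + star (xp g) = algebraMap kk KK (2 * g.re - g.imI) := by
    rw [star_KK]
    have h1 : (algebraMap kk KK (2 * g.re - g.imI)).re = 2 * g.re - g.imI := rfl
    have h2 : (algebraMap kk KK (2 * g.re - g.imI)).im = 0 := rfl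
    apply QuadraticAlgebra.ext
    · rw [h1, QuadraticAlgebra.re_add]
      simp only [xp]
      ring
    · rw [h2, QuadraticAlgebra.im_add]
      simp only [xp]
      ring
  rw [this, phiK_algebraMap]

private theorem iota_alg (z : kk) : xp (algebraMap kk AA z) = algebraMap kk KK z ∧
    yp (algebraMap kk AA z) = 0 := by
  constructor
  · unfold xp
    ext <;> simp
  · unfold yp
    ext <;> simp

theorem iota_scalar (z : kk) : iotaA (algebraMap kk AA z) = phik z • (1 : M2) := by
  unfold iotaA
  rw [(iota_alg z).1, (iota_alg z).2]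
  have hb : star (algebraMap kk KK z) = algebraMap kk KK z := by
    rw [star_KK]
    ext <;> simp
  rw [hb, phiK_algebraMap]
  ext i j
  fin_cases i <;> fin_cases j <;> simp

theorem phik_norm (x : kk) : ‖phik x‖ ^ 2 = ((x.re ^ 2 + x.re * x.im + 4 * x.im ^ 2 : ℚ) : ℝ) := by
  rw [phik_apply, ← Complex.normSq_eq_norm_sq, Complex.normSq_apply]
  have h15 : Real.sqrt 15 * Real.sqrt 15 = 15 := Real.mul_self_sqrt (by norm_num)
  have e1 : (((x.re : ℚ) : ℂ) + ((x.im : ℚ) : ℂ) * ((1 + Complex.I * (Real.sqrt 15 : ℂ)) / 2)).re =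
      (x.re : ℝ) + (x.im : ℝ) / 2 := by
    simp
    ring
  have e2 : (((x.re : ℚ) : ℂ) + ((x.im : ℚ) : ℂ) * ((1 + Complex.I * (Real.sqrt 15 : ℂ)) / 2)).im =
      (x.im : ℝ) * Real.sqrt 15 / 2 := by
    simp
    ring
  rw [e1, e2]
  push_cast
  linear_combination ((x.im : ℝ) ^ 2 / 4) * h15

theorem iota_GLo (g : AAˣ) : (iotaA g).det ≠ 0 := by
  rw [iota_det]
  intro h
  exact nrd_ne g ((map_eq_zero phik).1 h)

/-- The homomorphism to the Lorentz group. -/
def Psi : AAˣ →* (Mat 3)ˣ where
  toFun g := ⟨Phi (iotaA g), Phi (iotaA ((g⁻¹ : AAˣ) : AA)),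
    by rw [← Phi_mul (iota_GLo g) (iota_GLo g⁻¹), ← iota_mul, Units.mul_inv, iota_one, Phi_one],
    by rw [← Phi_mul (iota_GLo g⁻¹) (iota_GLo g), ← iota_mul, Units.inv_mul, iota_one, Phi_one]⟩
  map_one' := Units.ext (by simp [iota_one, Phi_one])
  map_mul' g h := Units.ext (by simp [iota_mul, Phi_mul (iota_GLo g) (iota_GLo h)])

theorem Psi_coe (g : AAˣ) : ((Psi g : (Mat 3)ˣ) : Mat 3) = Phi (iotaA g) := rfl

theorem Psi_ker (g : AAˣ) : Psi g = 1 ↔ g ∈ ZZ := by
  have h1 : (1 : M2) ∈ GLo := by
    show (1 : M2).det ≠ 0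
    simp
  rw [mem_ZZ]
  constructor
  · intro h
    have h2 : Phi (iotaA g) = Phi 1 := by
      rw [Phi_one, ← Psi_coe, h]
      rfl
    obtain ⟨z, hz, hz2⟩ := Phi_inj h1 (iota_GLo g) h2.symm
    have e01 : phik bq * phiK (yp (g : AA)) = 0 := by
      have := congrFun (congrFun hz2 0) 1
      simpa [iotaA] using this
    have e00 : phiK (xp (g : AA)) = z := by
      have := congrFun (congrFun hz2 0) 0
      simpa [iotaA] using this
    have e11 : phiK (star (xp (g : AA))) = z := by
      have := congrFun (congrFun hz2 1) 1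
      simpa [iotaA] using this
    have hb : phik bq ≠ 0 := by
      intro h0
      have := (map_eq_zero phik).1 h0
      have := congrArg QuadraticAlgebra.re this
      simp [bq] at this
    have hy : yp (g : AA) = 0 := by
      rcases mul_eq_zero.1 e01 with h3 | h3
      · exact absurd h3 hb
      · exact (map_eq_zero phiK).1 h3
    have hx : xp (g : AA) = star (xp (g : AA)) := by
      apply phiK.injective
      rw [e00, e11]
    rw [star_KK] at hx
    have hx2 := congrArg QuadraticAlgebra.re hx
    simp only [xp] at hx2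
    have him : (g : AA).imI = 0 := by
      linear_combination hx2
    have hJ : (g : AA).imJ = 0 := congrArg QuadraticAlgebra.re hy
    have hK : (g : AA).imK = 0 := congrArg QuadraticAlgebra.im hy
    refine ⟨(g : AA).re, ?_, ?_⟩
    · intro h0
      apply g.ne_zero
      exact QuaternionAlgebra.ext h0 him hJ hK
    · exact QuaternionAlgebra.ext rfl him hJ hK
  · rintro ⟨z, hz, hz2⟩
    apply Units.ext
    rw [Psi_coe, hz2, iota_scalar, Phi_smul ((map_ne_zero phik).2 hz), Phi_one]
    rfl

end

end Pool.Agent.Work.MP_14c213_gt
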