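import Pool.Agent.Work.MP_14c213_gt.B.GGB
import Pool.Agent.Work.MP_14c213_gt.B.IotaB
import Pool.Agent.Work.MP_14c213_gt.B.OrdB
import Pool.Agent.Work.MP_14c213_gt.B.EucB

/-!
Discreteness of GO modulo scalars in PGL₂(ℂ). For g ∈ GO all ord v (nrd g) are even, so
(nrd g) = 𝔞²; the class group of kk is finite, so after scaling nrd g is in a finite set; the coordinates
of g have bounded denominators (at v ∉ SS4: z_v g ∈ OO v with ord z_v = -½ ord nrd g; at v ∈ SS4: nrd_val),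
|det iota g| = |nrd g| is bounded, and ‖iota g‖² ≤ 2R|det| by Phi_zero_zero; the coordinates are
bounded integers divided by a fixed integer.
-/

namespace Pool.Agent.Work.MP_14c213_gt

open Matrix IsDedekindDomain
open scoped Matrix NumberField QuadraticAlgebra

noncomputable section

/-! ### Bounded integers -/

private theorem disc_bdd (B : ℝ) : {x : kk | IsIntegral ℤ x ∧ ‖phik x‖ ≤ B}.Finite := by
  obtain ⟨M, hM⟩ := exists_nat_ge (2 * |B|)
  have hfin : ((fun z : ℤ × ℤ => (⟨(z.1 : ℚ), (z.2 : ℚ)⟩ : kk)) ''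
      (Set.Icc (-(M : ℤ)) M ×ˢ Set.Icc (-(M : ℤ)) M)).Finite :=
    ((Set.finite_Icc _ _).prod (Set.finite_Icc _ _)).image _
  refine hfin.subset ?_
  rintro x ⟨hx, hB⟩
  obtain ⟨a, b, rfl⟩ := (int_iff x).1 hx
  refine ⟨(a, b), ?_, rfl⟩
  have h1 := phik_norm ⟨a, b⟩
  have h0 : 0 ≤ ‖phik (⟨a, b⟩ : kk)‖ := norm_nonneg _
  have h2 : ((a : ℝ) ^ 2 + a * b + 4 * b ^ 2) ≤ |B| ^ 2 := by
    push_cast at h1
    rw [← h1]
    exact pow_le_pow_left₀ h0 (hB.trans (le_abs_self B)) 2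
  have hB0 : 0 ≤ |B| := abs_nonneg B
  have h3 : (a : ℝ) ^ 2 ≤ (M : ℝ) ^ 2 := by
    have : (2 * |B|) ^ 2 ≤ (M : ℝ) ^ 2 := pow_le_pow_left₀ (by positivity) hM 2
    nlinarith [sq_nonneg ((a : ℝ) + 8 * b), sq_nonneg (a : ℝ), sq_nonneg (b : ℝ)]
  have h4 : (b : ℝ) ^ 2 ≤ (M : ℝ) ^ 2 := by
    have : (2 * |B|) ^ 2 ≤ (M : ℝ) ^ 2 := pow_le_pow_left₀ (by positivity) hM 2
    nlinarith [sq_nonneg (2 * (a : ℝ) + b), sq_nonneg (a : ℝ), sq_nonneg (b : ℝ)]
  have h5 : a ^ 2 ≤ (M : ℤ) ^ 2 := by exact_mod_cast h3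
  have h6 : b ^ 2 ≤ (M : ℤ) ^ 2 := by exact_mod_cast h4
  have h7 := abs_le.1 (abs_le_of_sq_le_sq h5 (Int.natCast_nonneg M))
  have h8 := abs_le.1 (abs_le_of_sq_le_sq h6 (Int.natCast_nonneg M))
  exact ⟨⟨h7.1, h7.2⟩, ⟨h8.1, h8.2⟩⟩

/-! ### Valuations -/

private theorem disc_NK_le {v : Pl} {a b : kk} (ha : v.valuation kk a ≤ 1)
    (hb : v.valuation kk b ≤ 1) : v.valuation kk (a ^ 2 - a * b + b ^ 2) ≤ 1 := by
  rw [← Valuation.mem_integer_iff] at *
  exact Subring.add_mem _ (Subring.sub_mem _ (Subring.pow_mem _ ha 2) (Subring.mul_mem _ ha hb))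
    (Subring.pow_mem _ hb 2)

private theorem disc_nrd_le {v : Pl} {g : AA} (hg : g ∈ OO v) : v.valuation kk (nrd g) ≤ 1 := by
  obtain ⟨h1, h2, h3, h4⟩ := hg
  have e : nrd g = (g.re ^ 2 - g.re * g.imI + g.imI ^ 2) -
      bq * (g.imJ ^ 2 - g.imJ * g.imK + g.imK ^ 2) := rfl
  have k1 := disc_NK_le h1 h2
  have k2 := disc_NK_le h3 h4
  have k3 := val_bq v
  rw [e]
  rw [← Valuation.mem_integer_iff] at *
  exact Subring.sub_mem _ k1 (Subring.mul_mem _ k3 k2)

private theorem disc_nrd_smul (z : kk) (g : AA) : nrd (z • g) = z ^ 2 * nrd g := by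
  simp only [nrd, NK, xp, yp, QuaternionAlgebra.re_smul, QuaternionAlgebra.imI_smul,
    QuaternionAlgebra.imJ_smul, QuaternionAlgebra.imK_smul, smul_eq_mul]
  ring

private theorem disc_coord {v : Pl} (hv : v ∈ SS4) (x : KK) :
    v.valuation kk 3 * v.valuation kk x.re ^ 2 ≤ v.valuation kk (NK x) ∧
    v.valuation kk 3 * v.valuation kk x.im ^ 2 ≤ v.valuation kk (NK x) := by
  constructor
  · have h := inert_add v hv ⟨x.im - x.re, -x.re⟩ ⟨-x.im, -x.re⟩
    have e1 : NK (⟨x.im - x.re, -x.re⟩ + ⟨-x.im, -x.re⟩ : KK) = 3 * x.re ^ 2 := by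
      simp only [NK, QuadraticAlgebra.re_add, QuadraticAlgebra.im_add]
      ring
    have e2 : NK (⟨x.im - x.re, -x.re⟩ : KK) = NK x := by
      simp only [NK]
      ring
    have e3 : NK (⟨-x.im, -x.re⟩ : KK) = NK x := by
      simp only [NK]
      ring
    rwa [e1, e2, e3, max_self, map_mul, map_pow] at h
  · have h := inert_add v hv x ⟨-(x.re - x.im), x.im⟩
    have e1 : NK (x + ⟨-(x.re - x.im), x.im⟩ : KK) = 3 * x.im ^ 2 := by
      simp only [NK, QuadraticAlgebra.re_add, QuadraticAlgebra.im_add]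
      ring
    have e3 : NK (⟨-(x.re - x.im), x.im⟩ : KK) = NK x := by
      simp only [NK]
      ring
    rwa [e1, e3, max_self, map_mul, map_pow] at h

/-- The coordinates of an element. -/
private def disc_co (g : AA) : Set kk := {g.re, g.imI, g.imJ, g.imK}

private theorem disc_three (v : Pl) : v.valuation kk 3 ≤ 1 := by
  have := val_int v 3 0
  have e : (⟨((3 : ℤ) : ℚ), ((0 : ℤ) : ℚ)⟩ : kk) = 3 := by
    ext <;> simp [QuadraticAlgebra.re_ofNat]
  rwa [e] at this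

private theorem disc_local {g : AAˣ} (hg : g ∈ GO) (v : Pl) {c : kk} (hc : c ∈ disc_co g) :
    v.valuation kk (3 * bq) * v.valuation kk c ^ 2 ≤ v.valuation kk (nrd (g : AA)) := by
  rw [map_mul]
  have hb := val_bq v
  have h3 := disc_three v
  have hgv := (mem_GO g).1 hg v
  by_cases hv : v ∈ SS4
  · have h := nrd_val v hv g
    have k1 : v.valuation kk (NK (xp (g : AA))) ≤ v.valuation kk (nrd (g : AA)) := by
      rw [h]
      exact le_max_left _ _
    have k2 : v.valuation kk bq * v.valuation kk (NK (yp (g : AA))) ≤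
        v.valuation kk (nrd (g : AA)) := by
      rw [h, ← map_mul]
      exact le_max_right _ _
    obtain ⟨m1, m2⟩ := disc_coord hv (xp (g : AA))
    obtain ⟨m3, m4⟩ := disc_coord hv (yp (g : AA))
    have n1 : ∀ t : kk, v.valuation kk 3 * v.valuation kk t ^ 2 ≤ v.valuation kk (NK (xp (g : AA))) →
        v.valuation kk 3 * v.valuation kk bq * v.valuation kk t ^ 2 ≤
          v.valuation kk (nrd (g : AA)) := by
      intro t ht
      refine le_trans ?_ (ht.trans k1)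
      gcongr
      exact mul_le_of_le_one_right' hb
    have n2 : ∀ t : kk, v.valuation kk 3 * v.valuation kk t ^ 2 ≤ v.valuation kk (NK (yp (g : AA))) →
        v.valuation kk 3 * v.valuation kk bq * v.valuation kk t ^ 2 ≤
          v.valuation kk (nrd (g : AA)) := by
      intro t ht
      refine le_trans ?_ k2
      rw [mul_comm (v.valuation kk 3), mul_assoc]
      gcongr
    rcases hc with rfl | rfl | rfl | rfl
    · exact n1 _ m1
    · exact n1 _ m2
    · exact n2 _ m3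
    · exact n2 _ m4
  · have hgv' : g ∈ Uun v := by
      unfold UU at hgv
      rwa [if_neg hv] at hgv
    obtain ⟨z, hz, h1, h2⟩ := hgv'
    have e1 := disc_nrd_le h1
    have e2 := disc_nrd_le h2
    rw [disc_nrd_smul, map_mul, map_pow] at e1 e2
    have hvz : v.valuation kk z ≠ 0 := (Valuation.ne_zero_iff _).2 hz
    have hprod : v.valuation kk (nrd (g : AA)) * v.valuation kk (nrd ((g⁻¹ : AAˣ) : AA)) = 1 := by
      rw [← map_mul, ← nrd_mul, Units.mul_inv, nrd_one, map_one]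
    have hcz : v.valuation kk (z * c) ≤ 1 := by
      obtain ⟨q1, q2, q3, q4⟩ := h1
      rcases hc with rfl | rfl | rfl | rfl
      · exact q1
      · exact q2
      · exact q3
      · exact q4
    have hone : 1 ≤ v.valuation kk z ^ 2 * v.valuation kk (nrd (g : AA)) := by
      rw [map_inv₀, inv_pow] at e2
      have e3 : v.valuation kk z ^ 2 * v.valuation kk (nrd (g : AA)) *
          ((v.valuation kk z ^ 2)⁻¹ * v.valuation kk (nrd ((g⁻¹ : AAˣ) : AA))) = 1 := by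
        rw [mul_mul_mul_comm, mul_inv_cancel₀ (pow_ne_zero 2 hvz), hprod, one_mul]
      calc (1 : WithZero (Multiplicative ℤ)) = _ := e3.symm
        _ ≤ v.valuation kk z ^ 2 * v.valuation kk (nrd (g : AA)) * 1 := by gcongr
        _ = _ := mul_one _
    have hsq : v.valuation kk z ^ 2 * v.valuation kk c ^ 2 ≤
        v.valuation kk z ^ 2 * v.valuation kk (nrd (g : AA)) := by
      refine le_trans ?_ hone
      rw [← mul_pow, ← map_mul]
      exact pow_le_one' hcz 2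
    have hc2 : v.valuation kk c ^ 2 ≤ v.valuation kk (nrd (g : AA)) :=
      le_of_mul_le_mul_left hsq (zero_lt_iff.2 (pow_ne_zero 2 hvz))
    refine le_trans ?_ hc2
    calc v.valuation kk 3 * v.valuation kk bq * v.valuation kk c ^ 2 ≤
        1 * 1 * v.valuation kk c ^ 2 := by gcongr
      _ = _ := by rw [one_mul, one_mul]

/-- common denominators -/
private theorem disc_den {n : kk} {q : kk} (hq : ∀ v : Pl, v.valuation kk q ≤ 1)
    (hqn : ∀ v : Pl, v.valuation kk (q * n) ≤ 1) {g : AAˣ} (hg : g ∈ GO) (hn : nrd (g : AA) = n)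
    {c : kk} (hc : c ∈ disc_co g) : IsIntegral ℤ (3 * bq * q * c) := by
  have h : ∀ v : Pl, v.valuation kk (3 * bq * q * c) ≤ 1 := by
    intro v
    have h1 := disc_local hg v hc
    rw [hn] at h1
    have h2 : v.valuation kk (3 * bq) ≤ 1 := by
      rw [map_mul]
      exact mul_le_one' (disc_three v) (val_bq v)
    have h3 : v.valuation kk (3 * bq * q * c) ^ 2 ≤ 1 := by
      calc v.valuation kk (3 * bq * q * c) ^ 2 =
          v.valuation kk (3 * bq) * (v.valuation kk q * (v.valuation kk q *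
            (v.valuation kk (3 * bq) * v.valuation kk c ^ 2))) := by
            rw [map_mul (v.valuation kk) (3 * bq * q), map_mul (v.valuation kk) (3 * bq), mul_pow,
              mul_pow, pow_two, pow_two (v.valuation kk q)]
            simp only [mul_assoc, mul_left_comm, mul_comm]
        _ ≤ 1 * (1 * (v.valuation kk q * v.valuation kk n)) := by
            gcongr
            exact hq v
        _ ≤ 1 := by
            rw [one_mul, one_mul, ← map_mul]
            exact hqn v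
    exact (pow_le_one_iff (by norm_num)).1 h3
  obtain ⟨y, hy⟩ := HeightOneSpectrum.mem_integers_of_valuation_le_one (R := 𝓞 kk) kk _ h
  rw [← hy]
  exact y.2

/-! ### Bounds in the complex numbers -/

private theorem disc_cbound {x : KK} {T : ℝ} (h1 : ‖phiK x‖ ≤ T) (h2 : ‖phiK (star x)‖ ≤ T) :
    ‖phik x.re‖ ≤ 3 * T ∧ ‖phik x.im‖ ≤ 3 * T := by
  have hz2 : ‖2 * zc + 1‖ ^ 2 = 3 := by
    have h : 2 * zc + 1 = ((Real.sqrt 3 : ℝ) : ℂ) * Complex.I := by
      unfold zc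
      ring
    rw [h, norm_mul, Complex.norm_I, mul_one, Complex.norm_real, Real.norm_eq_abs, sq_abs,
      Real.sq_sqrt (by norm_num)]
  have hz1 : 1 ≤ ‖2 * zc + 1‖ := by nlinarith [norm_nonneg (2 * zc + 1)]
  have hz0 : ‖zc‖ ≤ 1 := by
    have h : ‖zc‖ ^ 3 = 1 := by
      rw [← norm_pow]
      have : zc ^ 3 = 1 := by linear_combination (zc - 1) * zc_sq
      rw [this, norm_one]
    by_contra hcon
    push Not at hcon
    have := one_lt_pow₀ hcon (n := 3) (by norm_num)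
    linarith
  have e1 : phiK x - phiK (star x) = phik x.im * (2 * zc + 1) := by
    rw [star_KK]
    show (phik x.re + phik x.im * zc) - (phik (x.re - x.im) + phik (-x.im) * zc) = _
    rw [map_sub, map_neg]
    ring
  have e2 : phik x.re = phiK x - phik x.im * zc := by
    show _ = (phik x.re + phik x.im * zc) - _
    ring
  have hT : 0 ≤ T := (norm_nonneg _).trans h1
  have k1 : ‖phik x.im‖ ≤ 2 * T := by
    have h3 : ‖phik x.im‖ * ‖2 * zc + 1‖ ≤ 2 * T := by
      rw [← norm_mul, ← e1]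
      exact (norm_sub_le _ _).trans (by linarith)
    nlinarith [norm_nonneg (phik x.im)]
  refine ⟨?_, by linarith⟩
  rw [e2]
  refine (norm_sub_le _ _).trans ?_
  rw [norm_mul]
  nlinarith [norm_nonneg (phik x.im), norm_nonneg zc]

private theorem disc_entry {g : AA} (hg : (iotaA g).det ≠ 0) {R : ℝ} (hR : Phi (iotaA g) 0 0 ≤ R) :
    ∀ c ∈ disc_co g, ‖phik c‖ ≤ 3 * (2 * |R| * ‖phik (nrd g)‖ + 1) := by
  rw [Phi_zero_zero] at hR
  have hd : 0 < ‖(iotaA g).det‖ := norm_pos_iff.2 hg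
  rw [div_le_iff₀ (by positivity), iota_det] at hR
  rw [iota_det] at hd
  set T : ℝ := 2 * |R| * ‖phik (nrd g)‖ + 1 with hT
  have hR2 : R * (2 * ‖phik (nrd g)‖) ≤ T - 1 := by
    rw [hT]
    nlinarith [le_abs_self R]
  have key : ∀ r : ℝ, 0 ≤ r → r ^ 2 ≤ T - 1 → r ≤ T := by
    intro r hr h
    nlinarith [sq_nonneg (r - 1)]
  have f00 : ‖phiK (xp g)‖ ≤ T := by
    apply key _ (norm_nonneg _)
    have : ‖(iotaA g) 0 0‖ ^ 2 ≤ T - 1 := by
      nlinarith [sq_nonneg ‖(iotaA g) 0 0‖, sq_nonneg ‖(iotaA g) 0 1‖, sq_nonneg ‖(iotaA g) 1 0‖,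
        sq_nonneg ‖(iotaA g) 1 1‖]
    exact this
  have f11 : ‖phiK (star (xp g))‖ ≤ T := by
    apply key _ (norm_nonneg _)
    have : ‖(iotaA g) 1 1‖ ^ 2 ≤ T - 1 := by
      nlinarith [sq_nonneg ‖(iotaA g) 0 0‖, sq_nonneg ‖(iotaA g) 0 1‖, sq_nonneg ‖(iotaA g) 1 0‖,
        sq_nonneg ‖(iotaA g) 1 1‖]
    exact this
  have f10 : ‖phiK (star (yp g))‖ ≤ T := by
    apply key _ (norm_nonneg _)
    have : ‖(iotaA g) 1 0‖ ^ 2 ≤ T - 1 := by
      nlinarith [sq_nonneg ‖(iotaA g) 0 0‖, sq_nonneg ‖(iotaA g) 0 1‖, sq_nonneg ‖(iotaA g) 1 0‖,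
        sq_nonneg ‖(iotaA g) 1 1‖]
    exact this
  have f01 : ‖phik bq * phiK (yp g)‖ ≤ T := by
    apply key _ (norm_nonneg _)
    have : ‖(iotaA g) 0 1‖ ^ 2 ≤ T - 1 := by
      nlinarith [sq_nonneg ‖(iotaA g) 0 0‖, sq_nonneg ‖(iotaA g) 0 1‖, sq_nonneg ‖(iotaA g) 1 0‖,
        sq_nonneg ‖(iotaA g) 1 1‖]
    exact this
  have hb : 1 ≤ ‖phik bq‖ := by
    have e : ‖phik bq‖ ^ 2 = 2346 := by
      rw [phik_norm]
      norm_num [bq]
    nlinarith [norm_nonneg (phik bq)]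
  have f01' : ‖phiK (yp g)‖ ≤ T := by
    rw [norm_mul] at f01
    nlinarith [norm_nonneg (phiK (yp g))]
  obtain ⟨m1, m2⟩ := disc_cbound f00 f11
  obtain ⟨m3, m4⟩ := disc_cbound f01' f10
  intro c hc
  rcases hc with rfl | rfl | rfl | rfl
  · exact m1
  · exact m2
  · exact m3
  · exact m4

/-! ### The norms modulo squares -/

private theorem disc_ord {m : 𝓞 kk} (hm : m ≠ 0) (v : Pl) : ord v (algebraMap (𝓞 kk) kk m) =
    (((Associates.mk v.asIdeal).count (Associates.mk (Ideal.span {m} : Ideal (𝓞 kk))).factors : ℕ) :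
      ℤ) := by
  rw [ord, HeightOneSpectrum.valuation_of_algebraMap, v.intValuation_if_neg hm, WithZero.log_exp,
    neg_neg]

private theorem disc_sqrt {m : 𝓞 kk} (hm : m ≠ 0)
    (h : ∀ v : Pl, Even (ord v (algebraMap (𝓞 kk) kk m))) :
    ∃ J : nonZeroDivisors (Ideal (𝓞 kk)), (J : Ideal (𝓞 kk)) ^ 2 = Ideal.span {m} := by
  classical
  have hI : (Ideal.span {m} : Ideal (𝓞 kk)) ≠ 0 := by
    rw [Ne, Ideal.zero_eq_bot, Ideal.span_singleton_eq_bot]
    exact hm
  set cnt : Pl → ℕ := fun v =>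
    (Associates.mk v.asIdeal).count (Associates.mk (Ideal.span {m} : Ideal (𝓞 kk))).factors
    with hcnt
  have hev : ∀ v, Even (cnt v) := by
    intro v
    have := h v
    rw [disc_ord hm] at this
    exact_mod_cast this
  have hJ : (∏ᶠ v : Pl, v.asIdeal ^ (cnt v / 2)) ^ 2 = Ideal.span {m} := by
    have hfin : {v : Pl | cnt v ≠ 0}.Finite := by
      have := Filter.eventually_cofinite.1 (Associates.finite_factors hI)
      refine this.subset fun v hv => ?_
      simpa [hcnt] using hv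
    have hfin2 : (Function.mulSupport fun v : Pl => v.asIdeal ^ (cnt v / 2)).Finite := by
      refine hfin.subset fun v hv h0 => hv ?_
      show v.asIdeal ^ (cnt v / 2) = 1
      rw [h0]
      simp
    rw [finprod_pow hfin2]
    conv_rhs => rw [← Ideal.finprod_heightOneSpectrum_factorization hI]
    refine finprod_congr fun v => ?_
    rw [← pow_mul, Nat.div_mul_cancel (even_iff_two_dvd.1 (hev v))]
    rfl
  refine ⟨⟨∏ᶠ v : Pl, v.asIdeal ^ (cnt v / 2), ?_⟩, hJ⟩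
  rw [mem_nonZeroDivisors_iff_ne_zero]
  intro h0
  apply hI
  rw [← hJ, h0]
  simp

private theorem disc_class {m m' : 𝓞 kk} (hm : m ≠ 0) (hm' : m' ≠ 0)
    {J J' : nonZeroDivisors (Ideal (𝓞 kk))} (hJ : (J : Ideal (𝓞 kk)) ^ 2 = Ideal.span {m})
    (hJ' : (J' : Ideal (𝓞 kk)) ^ 2 = Ideal.span {m'}) (h : ClassGroup.mk0 J = ClassGroup.mk0 J') :
    ∃ z : kk, z ≠ 0 ∧ (z ^ 2 * (m : kk) = m' ∨ z ^ 2 * (m : kk) = -m') := by
  obtain ⟨x, y, hx, hy, hxy⟩ := ClassGroup.mk0_eq_mk0_iff.1 h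
  have h1 : (Ideal.span {x ^ 2 * m} : Ideal (𝓞 kk)) = Ideal.span {y ^ 2 * m'} := by
    have := congrArg (· ^ 2) hxy
    simp only [mul_pow, hJ, hJ', Ideal.span_singleton_pow, Ideal.span_singleton_mul_span_singleton]
      at this
    exact this
  obtain ⟨u, hu⟩ := Ideal.span_singleton_eq_span_singleton.1 h1
  have hu0 : ((u : 𝓞 kk) : kk) ≠ 0 := by
    intro h0
    exact u.ne_zero (NumberField.RingOfIntegers.coe_eq_zero_iff.1 h0)
  have hord : ∀ v : Pl, ord v ((u : 𝓞 kk) : kk) = 0 := by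
    intro v
    have h2 : v.valuation kk ((u : 𝓞 kk) : kk) = 1 := by
      refine le_antisymm (v.valuation_le_one _) ?_
      have h3 : v.valuation kk ((u : 𝓞 kk) : kk) * v.valuation kk (((u⁻¹ : (𝓞 kk)ˣ) : 𝓞 kk) : kk) =
          1 := by
        rw [← map_mul, ← map_mul (algebraMap (𝓞 kk) kk), Units.mul_inv, map_one, map_one]
      have h4 : v.valuation kk (((u⁻¹ : (𝓞 kk)ˣ) : 𝓞 kk) : kk) ≤ 1 := v.valuation_le_one _
      calc (1 : WithZero (Multiplicative ℤ)) = _ := h3.symm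
        _ ≤ v.valuation kk ((u : 𝓞 kk) : kk) * 1 := by gcongr
        _ = _ := mul_one _
    rw [ord, h2]
    simp
  have hxk : (x : kk) ≠ 0 := by
    intro h0
    exact hx (NumberField.RingOfIntegers.coe_eq_zero_iff.1 h0)
  have hyk : (y : kk) ≠ 0 := by
    intro h0
    exact hy (NumberField.RingOfIntegers.coe_eq_zero_iff.1 h0)
  have hu' : (x : kk) ^ 2 * m * ((u : 𝓞 kk) : kk) = (y : kk) ^ 2 * m' := by
    have := congrArg (algebraMap (𝓞 kk) kk) hu
    simpa only [map_mul, map_pow] using this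
  refine ⟨(x : kk) / y, div_ne_zero hxk hyk, ?_⟩
  rcases unit_kk hord hu0 with h5 | h5
  · left
    rw [h5] at hu'
    field_simp
    linear_combination hu'
  · right
    rw [h5] at hu'
    field_simp
    linear_combination -hu'

private theorem disc_selmer : ∃ N : Set kk, N.Finite ∧ (∀ n ∈ N, n ≠ 0) ∧
    ∀ n : kk, n ≠ 0 → (∀ v : Pl, Even (ord v n)) → ∃ z : kk, z ≠ 0 ∧ z ^ 2 * n ∈ N := by
  classical
  let Q : 𝓞 kk → nonZeroDivisors (Ideal (𝓞 kk)) → Prop := fun m J =>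
    m ≠ 0 ∧ (J : Ideal (𝓞 kk)) ^ 2 = Ideal.span {m}
  let rep : ClassGroup (𝓞 kk) → 𝓞 kk := fun c =>
    if h : ∃ m J, Q m J ∧ ClassGroup.mk0 J = c then h.choose else 1
  have hrep0 : ∀ c, rep c ≠ 0 := by
    intro c
    simp only [rep]
    split_ifs with h
    · obtain ⟨J, hJ, -⟩ := h.choose_spec
      exact hJ.1
    · exact one_ne_zero
  have hrep : ∀ m J, Q m J → ∃ J', Q (rep (ClassGroup.mk0 J)) J' ∧
      ClassGroup.mk0 J' = ClassGroup.mk0 J := by
    intro m J hQ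
    have h : ∃ m' J', Q m' J' ∧ ClassGroup.mk0 J' = ClassGroup.mk0 J := ⟨m, J, hQ, rfl⟩
    have e : rep (ClassGroup.mk0 J) = h.choose := dif_pos h
    rw [e]
    exact h.choose_spec
  refine ⟨(Set.range fun c => (rep c : kk)) ∪ (Set.range fun c => -(rep c : kk)),
    (Set.finite_range _).union (Set.finite_range _), ?_, ?_⟩
  · rintro n (⟨c, rfl⟩ | ⟨c, rfl⟩)
    · intro h0
      exact hrep0 c (NumberField.RingOfIntegers.coe_eq_zero_iff.1 h0)
    · intro h0
      exact hrep0 c (NumberField.RingOfIntegers.coe_eq_zero_iff.1 (neg_eq_zero.1 h0))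
  · intro n hn hev
    obtain ⟨p, q, hq, hpq⟩ := IsFractionRing.div_surjective (A := 𝓞 kk) n
    have hq0 : q ≠ 0 := nonZeroDivisors.ne_zero hq
    have hqk : algebraMap (𝓞 kk) kk q ≠ 0 := fun h0 => hq0 (NumberField.RingOfIntegers.coe_eq_zero_iff.1 h0)
    have hpk : algebraMap (𝓞 kk) kk p ≠ 0 := by
      intro h0
      apply hn
      rw [← hpq, h0, zero_div]
    have e1 : algebraMap (𝓞 kk) kk q ^ 2 * n = algebraMap (𝓞 kk) kk (p * q) := by
      rw [← hpq, map_mul]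
      field_simp
    have hm0 : p * q ≠ 0 := by
      intro h0
      rw [h0, map_zero] at e1
      exact mul_ne_zero (pow_ne_zero 2 hqk) hn e1
    obtain ⟨J, hJ⟩ := disc_sqrt hm0 (by
      intro v
      rw [← e1, ord_mul v (pow_ne_zero 2 hqk) hn, ord_pow]
      exact (by simp : Even (((2 : ℕ) : ℤ) * _)).add (hev v))
    obtain ⟨J', hQ', hc⟩ := hrep (p * q) J ⟨hm0, hJ⟩
    obtain ⟨z, hz, h2⟩ := disc_class hm0 hQ'.1 hJ hQ'.2 hc.symm
    refine ⟨z * algebraMap (𝓞 kk) kk q, mul_ne_zero hz hqk, ?_⟩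
    rw [mul_pow, mul_assoc, e1]
    rcases h2 with h2 | h2
    · left
      exact ⟨_, h2.symm⟩
    · right
      exact ⟨_, h2.symm⟩

/-! ### The theorem -/

private theorem disc_fixed (R : ℝ) {n : kk} (hn : n ≠ 0) :
    {g : AAˣ | g ∈ GO ∧ nrd (g : AA) = n ∧ Phi (iotaA g) 0 0 ≤ R}.Finite := by
  obtain ⟨p, q, hq, hpq⟩ := IsFractionRing.div_surjective (A := 𝓞 kk) n
  have hq0 : q ≠ 0 := nonZeroDivisors.ne_zero hq
  have hqk : algebraMap (𝓞 kk) kk q ≠ 0 := fun h0 => hq0 (NumberField.RingOfIntegers.coe_eq_zero_iff.1 h0)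
  have hq1 : ∀ v : Pl, v.valuation kk (algebraMap (𝓞 kk) kk q) ≤ 1 := fun v =>
    v.valuation_le_one q
  have hq2 : ∀ v : Pl, v.valuation kk (algebraMap (𝓞 kk) kk q * n) ≤ 1 := by
    intro v
    have : algebraMap (𝓞 kk) kk q * n = algebraMap (𝓞 kk) kk p := by
      rw [← hpq]
      field_simp
    rw [this]
    exact v.valuation_le_one p
  set d : kk := 3 * bq * algebraMap (𝓞 kk) kk q with hd
  have hb0 : bq ≠ 0 := by
    intro h0
    have := congrArg QuadraticAlgebra.re h0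
    simp [bq] at this
  have hd0 : d ≠ 0 := mul_ne_zero (mul_ne_zero (by norm_num) hb0) hqk
  have hC : {c : kk | IsIntegral ℤ (d * c) ∧
      ‖phik (d * c)‖ ≤ ‖phik d‖ * (3 * (2 * |R| * ‖phik n‖ + 1))}.Finite :=
    (disc_bdd (‖phik d‖ * (3 * (2 * |R| * ‖phik n‖ + 1)))).preimage
      (fun a _ b _ h => mul_left_cancel₀ hd0 h)
  set C := {c : kk | IsIntegral ℤ (d * c) ∧
      ‖phik (d * c)‖ ≤ ‖phik d‖ * (3 * (2 * |R| * ‖phik n‖ + 1))} with hCdef
  have hfin : ((fun z : (kk × kk) × (kk × kk) => (⟨z.1.1, z.1.2, z.2.1, z.2.2⟩ : AA)) ''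
      ((C ×ˢ C) ×ˢ (C ×ˢ C))).Finite := ((hC.prod hC).prod (hC.prod hC)).image _
  refine (hfin.preimage (f := (Units.val : AAˣ → AA)) (Units.val_injective.injOn)).subset ?_
  rintro g ⟨hg, hgn, hgR⟩
  have hmem : ∀ c ∈ disc_co (g : AA), c ∈ C := by
    intro c hc
    refine ⟨disc_den hq1 hq2 hg hgn hc, ?_⟩
    rw [map_mul, norm_mul]
    have := disc_entry (iota_GLo g) hgR c hc
    rw [hgn] at this
    exact mul_le_mul_of_nonneg_left this (norm_nonneg _)
  refine ⟨(((g : AA).re, (g : AA).imI), ((g : AA).imJ, (g : AA).imK)), ?_, rfl⟩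
  refine ⟨⟨hmem _ ?_, hmem _ ?_⟩, ⟨hmem _ ?_, hmem _ ?_⟩⟩ <;> simp [disc_co]

theorem discrete (R : ℝ) :
    {γ : (Mat 3)ˣ | γ ∈ Subgroup.map Psi GO ∧ (γ : Mat 3) 0 0 ≤ R}.Finite := by
  obtain ⟨N, hN, hN0, hsel⟩ := disc_selmer
  have hfin : (⋃ n ∈ N, Psi '' {g : AAˣ | g ∈ GO ∧ nrd (g : AA) = n ∧
      Phi (iotaA g) 0 0 ≤ R}).Finite :=
    hN.biUnion fun n hn => (disc_fixed R (hN0 n hn)).image _
  refine hfin.subset ?_
  rintro γ ⟨⟨g, hg, rfl⟩, hR⟩
  have hg' : g ∈ GO := hg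
  obtain ⟨z, hz, hzN⟩ := hsel (nrd (g : AA)) (nrd_ne g) fun v => UU_even ((mem_GO g).1 hg' v)
  set s : AAˣ := Units.map (algebraMap kk AA : kk →* AA) (Units.mk0 z hz) with hs
  have hsZ : s ∈ ZZ := ⟨Units.mk0 z hz, rfl⟩
  have hsv : (s : AA) = algebraMap kk AA z := rfl
  have hval : ((s * g : AAˣ) : AA) = z • (g : AA) := by
    rw [Units.val_mul, hsv, Algebra.smul_def]
  have hnrd : nrd ((s * g : AAˣ) : AA) = z ^ 2 * nrd (g : AA) := by
    rw [hval, disc_nrd_smul]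
  have hPsi : Psi (s * g) = Psi g := by
    rw [map_mul, (Psi_ker s).2 hsZ, one_mul]
  refine Set.mem_biUnion hzN ⟨s * g, ⟨?_, hnrd, ?_⟩, hPsi⟩
  · refine GO.mul_mem ?_ hg'
    rw [mem_GO]
    exact fun v => ZZ_le v hsZ
  · rw [← Psi_coe, hPsi]
    exact hR

end

end Pool.Agent.Work.MP_14c213_gt
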