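import Pool.Agent.Work.MP_14c213_gt.B.IotaB
import Pool.Agent.Work.MP_14c213_gt.B.TorB

/-!
chl and cth in terms of T = phik (TT g): tr Phi(M) = |tr M|²/|det M| = ‖T + 2‖ (Phi_trace) and
tr (Phi M)² = tr Phi(M²) = ‖T(g²) + 2‖ = ‖T‖²; parallelogram law. In K: T = z + 1/z, z = phiK (x / σ x),
|z + 1/z - 2| = |z - 1|²/|z|.
-/

namespace Pool.Agent.Work.MP_14c213_gt

open Matrix IsDedekindDomain
open scoped Matrix NumberField QuadraticAlgebra

noncomputable section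

private theorem chlB_tr (g : AAˣ) :
    ((Psi g : (Mat 3)ˣ) : Mat 3).trace = ‖phik (TT (g : AA)) + 2‖ := by
  rw [Psi_coe, Phi_trace, iota_trace, iota_det, ← norm_pow, ← norm_div, ← map_pow, ← map_div₀]
  congr 1
  rw [TT, map_sub, map_ofNat]
  ring

private theorem chlB_tr2 (g : AAˣ) :
    (((Psi g : (Mat 3)ˣ) : Mat 3) * ((Psi g : (Mat 3)ˣ) : Mat 3)).trace =
      ‖phik (TT (g : AA))‖ ^ 2 := by
  have h1 : ((Psi g : (Mat 3)ˣ) : Mat 3) * ((Psi g : (Mat 3)ˣ) : Mat 3) =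
      ((Psi (g ^ 2) : (Mat 3)ˣ) : Mat 3) := by
    rw [pow_two, map_mul, Units.val_mul]
  rw [h1, chlB_tr, TT_sq, ← norm_pow, map_sub, map_pow, map_ofNat]
  congr 1
  ring

private theorem chlB_par (t : ℂ) :
    Real.sqrt ((‖t‖ ^ 2 + 4) / 2 - (‖t + 2‖ / 2) ^ 2) = ‖t - 2‖ / 2 := by
  have h1 : (‖t‖ ^ 2 + 4) / 2 - (‖t + 2‖ / 2) ^ 2 = (‖t - 2‖ / 2) ^ 2 := by
    have h2 : ‖t + 2‖ ^ 2 + ‖t - 2‖ ^ 2 = 2 * ‖t‖ ^ 2 + 8 := by
      rw [← Complex.normSq_eq_norm_sq, ← Complex.normSq_eq_norm_sq, ← Complex.normSq_eq_norm_sq,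
        Complex.normSq_apply, Complex.normSq_apply, Complex.normSq_apply]
      simp
      ring
    linear_combination (-1 / 4 : ℝ) * h2
  rw [h1, Real.sqrt_sq (by positivity)]

theorem chl_T (g : AAˣ) : chl ((Psi g : (Mat 3)ˣ) : Mat 3) =
    (‖phik (TT (g : AA)) - 2‖ + ‖phik (TT (g : AA)) + 2‖) / 4 := by
  rw [chl, chlB_tr, chlB_tr2, chlB_par]
  ring

theorem cth_T (g : AAˣ) : cth ((Psi g : (Mat 3)ˣ) : Mat 3) =
    (‖phik (TT (g : AA)) + 2‖ - ‖phik (TT (g : AA)) - 2‖) / 4 := by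
  rw [cth, chlB_tr, chlB_tr2, chlB_par]
  ring

private theorem chlB_trd_comm (g h : AA) : trd (g * h) = trd (h * g) := by
  simp only [trd, QuaternionAlgebra.re_mul, QuaternionAlgebra.imI_mul]
  ring

private theorem chlB_TT_conj (g t : AAˣ) : TT ((t * g * t⁻¹ : AAˣ) : AA) = TT (g : AA) := by
  have h1 : trd ((t * g * t⁻¹ : AAˣ) : AA) = trd (g : AA) := by
    rw [Units.val_mul, chlB_trd_comm, Units.val_mul, ← mul_assoc, Units.inv_mul, one_mul]
  have h2 : nrd ((t * g * t⁻¹ : AAˣ) : AA) = nrd (g : AA) := by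
    have h3 := nrd_mul (t : AA) ((t⁻¹ : AAˣ) : AA)
    rw [Units.mul_inv, nrd_one] at h3
    rw [Units.val_mul, Units.val_mul, nrd_mul, nrd_mul]
    linear_combination (-(nrd (g : AA))) * h3
  rw [TT, TT, h1, h2]

theorem chl_conjB (g t : AAˣ) : chl ((Psi (t * g * t⁻¹) : (Mat 3)ˣ) : Mat 3) = chl ((Psi g : (Mat 3)ˣ) : Mat 3) ∧
    cth ((Psi (t * g * t⁻¹) : (Mat 3)ˣ) : Mat 3) = cth ((Psi g : (Mat 3)ˣ) : Mat 3) := by
  rw [chl_T, chl_T, cth_T, cth_T, chlB_TT_conj]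
  exact ⟨rfl, rfl⟩

/-- `chl > 1` excludes scalars and elements of trace zero. -/
theorem chl_gt {g : AAˣ} (h : 1 < chl ((Psi g : (Mat 3)ˣ) : Mat 3)) : g ∉ ZZ ∧ trd (g : AA) ≠ 0 := by
  rw [chl_T] at h
  constructor
  · intro hg
    rw [(TT_two g).2 hg, map_ofNat] at h
    norm_num at h
  · intro hg
    have h1 : TT (g : AA) = -2 := by
      rw [TT, hg]; ring
    rw [h1, map_neg, map_ofNat] at h
    norm_num at h

/-- The eigenvalue ratio of an element of `K`. -/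
def zr (x : KKˣ) : ℂ := phiK ((x : KK) / star (x : KK))

theorem zr_mul (x y : KKˣ) : zr (x * y) = zr x * zr y := by
  rw [zr, zr, zr, Units.val_mul, star_mul', ← map_mul]
  congr 1
  exact mul_div_mul_comm _ _ _ _

private theorem chlB_star_ne (x : KKˣ) : star (x : KK) ≠ 0 := by
  intro h
  have := congrArg star h
  rw [star_star, star_zero] at this
  exact x.ne_zero this

theorem zr_ne (x : KKˣ) : zr x ≠ 0 := by
  rw [zr]
  exact (map_ne_zero phiK).2 (div_ne_zero x.ne_zero (chlB_star_ne x))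

private theorem chlB_phiK_alg (z : kk) : phiK (algebraMap kk KK z) = phik z := by
  show phik (algebraMap kk KK z).re + phik (algebraMap kk KK z).im * zc = _
  have h1 : (algebraMap kk KK z).re = z := rfl
  have h2 : (algebraMap kk KK z).im = 0 := rfl
  rw [h1, h2, map_zero, zero_mul, add_zero]

private theorem chlB_trd_inK (x : KK) : algebraMap kk KK (trd (inK x)) = x + star x := by
  rw [star_KK]
  apply QuadraticAlgebra.ext
  · simp only [trd, inK, mkA, QuadraticAlgebra.algebraMap_re, QuadraticAlgebra.re_add]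
    ring
  · simp only [trd, inK, mkA, QuadraticAlgebra.algebraMap_im, QuadraticAlgebra.im_add]
    ring

private theorem chlB_TT_K (x : KKˣ) : phik (TT ((inKu x : AAˣ) : AA)) = zr x + (zr x)⁻¹ := by
  have h0 := x.ne_zero
  have h1 := chlB_star_ne x
  have h2 : ((inKu x : AAˣ) : AA) = inK (x : KK) := rfl
  have h3 : algebraMap kk KK (TT (inK (x : KK))) =
      (x : KK) / star (x : KK) + ((x : KK) / star (x : KK))⁻¹ := by
    rw [TT, map_sub, map_div₀, map_pow, chlB_trd_inK, nrd_inK, ← mul_star_KK, map_ofNat]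
    field_simp
    ring
  rw [h2, ← chlB_phiK_alg, h3, map_add, map_inv₀, zr]

private theorem chlB_norm_sub (z : ℂ) (hz : z ≠ 0) : ‖z + z⁻¹ - 2‖ = ‖z - 1‖ ^ 2 / ‖z‖ := by
  rw [← norm_pow, ← norm_div]
  congr 1
  field_simp
  ring

private theorem chlB_norm_add (z : ℂ) (hz : z ≠ 0) : ‖z + z⁻¹ + 2‖ = ‖z + 1‖ ^ 2 / ‖z‖ := by
  rw [← norm_pow, ← norm_div]
  congr 1
  field_simp
  ring

private theorem chlB_sq (z : ℂ) : ‖z + 1‖ ^ 2 = ‖z‖ ^ 2 + 2 * z.re + 1 ∧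
    ‖z - 1‖ ^ 2 = ‖z‖ ^ 2 - 2 * z.re + 1 := by
  rw [← Complex.normSq_eq_norm_sq, ← Complex.normSq_eq_norm_sq, ← Complex.normSq_eq_norm_sq,
    Complex.normSq_apply, Complex.normSq_apply, Complex.normSq_apply]
  constructor <;> simp <;> ring

theorem chl_K (x : KKˣ) : chl ((Psi (inKu x) : (Mat 3)ˣ) : Mat 3) = (‖zr x‖ + ‖zr x‖⁻¹) / 2 := by
  have h0 : ‖zr x‖ ≠ 0 := norm_ne_zero_iff.2 (zr_ne x)
  rw [chl_T, chlB_TT_K, chlB_norm_sub _ (zr_ne x), chlB_norm_add _ (zr_ne x), (chlB_sq _).1,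
    (chlB_sq _).2]
  field_simp
  ring

theorem cth_K (x : KKˣ) : cth ((Psi (inKu x) : (Mat 3)ˣ) : Mat 3) = (zr x).re / ‖zr x‖ := by
  have h0 : ‖zr x‖ ≠ 0 := norm_ne_zero_iff.2 (zr_ne x)
  rw [cth_T, chlB_TT_K, chlB_norm_sub _ (zr_ne x), chlB_norm_add _ (zr_ne x), (chlB_sq _).1,
    (chlB_sq _).2]
  field_simp
  ring

theorem TT_K (x : KKˣ) : TT (inK (x : KK)) - 2 = -3 * (x : KK).im ^ 2 / NK (x : KK) := by
  have h0 := NK_ne x.ne_zero
  rw [TT, nrd_inK]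
  have h1 : trd (inK (x : KK)) = 2 * (x : KK).re - (x : KK).im := rfl
  rw [h1]
  field_simp
  rw [NK]
  ring

end

end Pool.Agent.Work.MP_14c213_gt
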