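import Pool.Agent.Work.MP_14c213_gt.B.TorB
import Pool.Agent.Work.MP_14c213_gt.B.IotaB
import Pool.Agent.Work.MP_14c213_gt.B.ChlB

/-!
Every non-trivial element is loxodromic. T = phik (TT g) with TT g ∈ 𝓞 kk for g ∈ GO (at v ∉ SS4 scale g to a unit
of OO v; at v ∈ SS4 ww + 1/ww is integral: ww_trace, or v(trd²) ≤ v(nrd)). The eigenvalue ratio z of iotaA g satisfies
z + 1/z = T. If |z| = 1 then T = 2 cos is real, |T| ≤ 2, so TT g ∈ ℤ ∩ [-2, 2], excluded by no_torsion and TT_two.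
So |z| ≠ 1 (swap to have |z| > 1), iotaA g is diagonalisable: iotaA g = μ P diag(z, 1) P⁻¹, Phi ignores scalars.
-/

namespace Pool.Agent.Work.MP_14c213_gt

open Matrix IsDedekindDomain
open scoped Matrix NumberField QuadraticAlgebra

noncomputable section

/-- Diagonalisation of a 2 by 2 matrix with distinct eigenvalues. -/
private theorem klox_diag (M : M2) (μ₁ μ₂ : ℂ) (ht : μ₁ + μ₂ = M.trace) (hd : μ₁ * μ₂ = M.det)
    (hne : μ₁ ≠ μ₂) : ∃ P : M2, P.det ≠ 0 ∧ M * P = P * !![μ₁, 0; 0, μ₂] := by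
  rw [Matrix.trace_fin_two] at ht
  rw [Matrix.det_fin_two] at hd
  have hne' : μ₂ - μ₁ ≠ 0 := sub_ne_zero.2 hne.symm
  have q1 : μ₁ * μ₁ = (M 0 0 + M 1 1) * μ₁ - (M 0 0 * M 1 1 - M 0 1 * M 1 0) := by
    rw [← ht, ← hd]; ring
  have q2 : μ₂ * μ₂ = (M 0 0 + M 1 1) * μ₂ - (M 0 0 * M 1 1 - M 0 1 * M 1 0) := by
    rw [← ht, ← hd]; ring
  by_cases hb : M 0 1 = 0
  · by_cases hc : M 1 0 = 0
    · have h1 : (μ₁ - M 0 0) * (μ₁ - M 1 1) = 0 := by
        linear_combination q1 + (M 1 0) * hb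
      rcases mul_eq_zero.1 h1 with h2 | h2
      · have e1 : μ₁ = M 0 0 := sub_eq_zero.1 h2
        have e2 : μ₂ = M 1 1 := by linear_combination ht - e1
        refine ⟨1, by simp, ?_⟩
        rw [mul_one, one_mul]
        ext i j
        fin_cases i <;> fin_cases j <;> simp [hb, hc, e1, e2]
      · have e1 : μ₁ = M 1 1 := sub_eq_zero.1 h2
        have e2 : μ₂ = M 0 0 := by linear_combination ht - e1
        refine ⟨!![0, 1; 1, 0], by simp, ?_⟩
        ext i j
        fin_cases i <;> fin_cases j <;> simp [Matrix.mul_apply, Fin.sum_univ_two, hb, hc, e1, e2]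
    · refine ⟨!![μ₁ - M 1 1, μ₂ - M 1 1; M 1 0, M 1 0], ?_, ?_⟩
      · rw [Matrix.det_fin_two_of]
        have : (μ₁ - M 1 1) * M 1 0 - (μ₂ - M 1 1) * M 1 0 = -(μ₂ - μ₁) * M 1 0 := by ring
        rw [this]
        exact mul_ne_zero (neg_ne_zero.2 hne') hc
      · ext i j
        fin_cases i <;> fin_cases j <;> simp [Matrix.mul_apply, Fin.sum_univ_two]
        · linear_combination -q1
        · linear_combination -q2
        · ring
        · ring
  · refine ⟨!![M 0 1, M 0 1; μ₁ - M 0 0, μ₂ - M 0 0], ?_, ?_⟩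
    · rw [Matrix.det_fin_two_of]
      have : M 0 1 * (μ₂ - M 0 0) - M 0 1 * (μ₁ - M 0 0) = (μ₂ - μ₁) * M 0 1 := by ring
      rw [this]
      exact mul_ne_zero hne' hb
    · ext i j
      fin_cases i <;> fin_cases j <;> simp [Matrix.mul_apply, Fin.sum_univ_two]
      · ring
      · ring
      · linear_combination -q1
      · linear_combination -q2

private theorem klox_roots (t d : ℂ) : ∃ μ₁ μ₂ : ℂ, μ₁ + μ₂ = t ∧ μ₁ * μ₂ = d := by
  obtain ⟨δ, hδ⟩ := IsAlgClosed.exists_pow_nat_eq (t ^ 2 - 4 * d) (n := 2) (by norm_num)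
  refine ⟨(t + δ) / 2, (t - δ) / 2, by ring, ?_⟩
  linear_combination (-1 / 4 : ℂ) * hδ

/-- The eigenvalue ratio determines the loxodromic property. -/
private theorem klox_lox (M : M2) (μ₁ μ₂ : ℂ) (ht : μ₁ + μ₂ = M.trace) (hd : μ₁ * μ₂ = M.det)
    (h0 : M.det ≠ 0) (hn : ‖μ₂‖ < ‖μ₁‖) : ∃ z : ℂ, 1 < ‖z‖ ∧ ∃ g : M2, g.det ≠ 0 ∧
      Phi M = Phi (g * !![z, 0; 0, 1] * g⁻¹) := by
  have h2 : μ₂ ≠ 0 := by
    rintro rfl
    rw [mul_zero] at hd
    exact h0 hd.symm
  have h2' : 0 < ‖μ₂‖ := norm_pos_iff.2 h2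
  obtain ⟨P, hP, hMP⟩ := klox_diag M μ₁ μ₂ ht hd (by rintro rfl; exact lt_irrefl _ hn)
  refine ⟨μ₁ / μ₂, ?_, P, hP, ?_⟩
  · rw [norm_div, one_lt_div h2']
    exact hn
  · have hu : IsUnit P.det := isUnit_iff_ne_zero.2 hP
    have e1 : !![μ₁, 0; 0, μ₂] = μ₂ • !![μ₁ / μ₂, 0; 0, 1] := by
      ext i j
      fin_cases i <;> fin_cases j <;> simp
      field_simp
    have e2 : M = μ₂ • (P * !![μ₁ / μ₂, 0; 0, 1] * P⁻¹) := by
      have e3 : M = P * !![μ₁, 0; 0, μ₂] * P⁻¹ := by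
        rw [← hMP, Matrix.mul_nonsing_inv_cancel_right _ _ hu]
      rw [e1] at e3
      rw [e3, Matrix.mul_smul, Matrix.smul_mul]
    rw [e2, Phi_smul h2]

/-- The trace invariant is integral at all places. -/
private theorem klox_val {g : AAˣ} (hg : g ∈ GO) (v : Pl) : v.valuation kk (TT (g : AA)) ≤ 1 := by
  rw [mem_GO] at hg
  have hgv := hg v
  by_cases hv : v ∈ SS4
  · have h1 := ww_trace hv hgv
    have h2 := NK_ww (xp_ne v hv g hgv)
    have h0 : ww (g : AA) ≠ 0 := by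
      intro h0
      rw [h0] at h2
      simp [NK] at h2
    have h3 : NK (ww (g : AA))⁻¹ = 1 := by
      have h1 := NK_mul (ww (g : AA)) (ww (g : AA))⁻¹
      rw [mul_inv_cancel₀ h0, NK_one, h2, one_mul] at h1
      exact h1.symm
    unfold cg at h1
    have h4 := inert_add v hv (ww (g : AA)) (ww (g : AA))⁻¹
    rw [h2, h3, map_one, max_self] at h4
    have h5 := inert_add v hv (algebraMap kk KK (TT (g : AA)) - (ww (g : AA) + (ww (g : AA))⁻¹))
      (ww (g : AA) + (ww (g : AA))⁻¹)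
    rw [sub_add_cancel, NK_algebraMap, map_pow] at h5
    have h6 : v.valuation kk (TT (g : AA)) ^ 2 ≤ 1 :=
      h5.trans (max_le (by unfold TT; exact h1.le) h4)
    by_contra h7
    rw [not_le] at h7
    have h8 : 1 < v.valuation kk (TT (g : AA)) ^ 2 := one_lt_pow₀ h7 two_ne_zero
    exact absurd h6 (not_le.2 h8)
  · have h1 : g ∈ Uun v := by
      unfold UU at hgv
      rwa [if_neg hv] at hgv
    obtain ⟨z, hz, h2, h3⟩ := h1
    have hnrd : ∀ x ∈ OO v, v.valuation kk (nrd x) ≤ 1 := by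
      rintro x ⟨k1, k2, k3, k4⟩
      have hb := val_bq v
      simp only [← Valuation.mem_integer_iff] at *
      simp only [nrd, NK, xp, yp]
      simp only [pow_two]
      repeat' first
        | apply Subring.add_mem | apply Subring.sub_mem | apply Subring.mul_mem
        | apply Subring.neg_mem | assumption
    have htrd : ∀ x ∈ OO v, v.valuation kk (trd x) ≤ 1 := by
      rintro x ⟨k1, k2, k3, k4⟩
      simp only [← Valuation.mem_integer_iff] at *
      simp only [trd]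
      rw [two_mul]
      exact Subring.sub_mem _ (Subring.add_mem _ k1 k1) k2
    have h4 := htrd _ h2
    have h5 := hnrd _ h3
    have h6 : TT (g : AA) = trd (z • (g : AA)) ^ 2 * nrd (z⁻¹ • ((g⁻¹ : AAˣ) : AA)) - 2 := by
      have e1 : trd (z • (g : AA)) = z * trd (g : AA) := by
        simp only [trd, QuaternionAlgebra.re_smul, QuaternionAlgebra.imI_smul, smul_eq_mul]
        ring
      have e2 : nrd (z⁻¹ • ((g⁻¹ : AAˣ) : AA)) = (z⁻¹) ^ 2 * nrd ((g⁻¹ : AAˣ) : AA) := by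
        simp only [nrd, NK, xp, yp, QuaternionAlgebra.re_smul, QuaternionAlgebra.imI_smul,
          QuaternionAlgebra.imJ_smul, QuaternionAlgebra.imK_smul, smul_eq_mul]
        ring
      have e3 := nrd_mul (g : AA) ((g⁻¹ : AAˣ) : AA)
      rw [Units.mul_inv, nrd_one] at e3
      have e4 := nrd_ne g
      have e5 : nrd ((g⁻¹ : AAˣ) : AA) = (nrd (g : AA))⁻¹ := by
        field_simp
        linear_combination -e3
      rw [e1, e2, e5, TT]
      field_simp
    rw [h6]
    have h7 : v.valuation kk (2 : kk) ≤ 1 := by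
      have : (2 : kk) = 1 + 1 := by norm_num
      rw [this]
      exact (v.valuation kk).map_add_le (by simp) (by simp)
    simp only [← Valuation.mem_integer_iff] at *
    exact Subring.sub_mem _ (Subring.mul_mem _ (Subring.pow_mem _ h4 2) h5) h7

private theorem klox_int {g : AAˣ} (hg : g ∈ GO) : ∃ a b : ℤ, TT (g : AA) = ⟨a, b⟩ := by
  rw [← int_iff]
  obtain ⟨x, hx⟩ := HeightOneSpectrum.mem_integers_of_valuation_le_one (R := 𝓞 kk) kk
    (TT (g : AA)) (klox_val hg)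
  rw [← hx]
  exact NumberField.RingOfIntegers.isIntegral_coe x

private theorem klox_phik (a b : ℤ) : (phik ⟨a, b⟩).re = a + b / 2 ∧
    (phik ⟨a, b⟩).im = b * Real.sqrt 15 / 2 := by
  have h : phik (⟨a, b⟩ : kk) = ((a : ℚ)) • (1 : ℂ) +
      ((b : ℚ)) • ((1 + Complex.I * (Real.sqrt 15 : ℂ)) / 2) := rfl
  rw [h, Algebra.smul_def, Algebra.smul_def, mul_one]
  constructor
  · simp
    ring
  · simp
    ring

theorem klein_lox (s : ℤˣ) : ∀ γ ∈ (GG s).map Psi, γ ≠ 1 → ∃ z, Lox γ z := by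
  rintro _ ⟨g, hg, rfl⟩ hne
  have hZ : g ∉ ZZ := fun h => hne ((Psi_ker g).2 h)
  obtain ⟨a, b, hab⟩ := klox_int (GG_le s hg)
  obtain ⟨μ₁, μ₂, ht, hd⟩ := klox_roots (iotaA g).trace (iotaA g).det
  have h0 := iota_GLo g
  have key : ‖μ₁‖ ≠ ‖μ₂‖ := by
    intro h
    have h1 : μ₁ ≠ 0 := by
      rintro rfl
      rw [zero_mul] at hd
      exact h0 hd.symm
    have h2 : μ₂ ≠ 0 := by
      rintro rfl
      rw [mul_zero] at hd
      exact h0 hd.symm
    -- `T = z + conj z`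
    set z := μ₁ / μ₂ with hz
    have hzn : ‖z‖ = 1 := by
      rw [hz, norm_div, h, div_self (norm_ne_zero_iff.2 h2)]
    have hT : phik (TT (g : AA)) = z + z⁻¹ := by
      rw [TT, map_sub, map_div₀, map_pow, map_ofNat, ← iota_trace, ← iota_det, ← ht, ← hd, hz]
      field_simp
      ring
    have hzi : z⁻¹ = (starRingEnd ℂ) z := by
      rw [Complex.inv_def, Complex.normSq_eq_norm_sq, hzn]
      simp
    rw [hzi, Complex.add_conj, hab] at hT
    have e1 := congrArg Complex.re hT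
    have e2 := congrArg Complex.im hT
    rw [(klox_phik a b).1] at e1
    rw [(klox_phik a b).2] at e2
    have e3 : (b : ℝ) = 0 := by
      have h15 : Real.sqrt 15 ≠ 0 := by positivity
      have h3 : ((2 * z.re : ℝ) : ℂ).im = 0 := Complex.ofReal_im _
      rw [h3] at e2
      have h4 : (b : ℝ) * Real.sqrt 15 = 0 := by linarith
      rcases mul_eq_zero.1 h4 with h5 | h5
      · exact h5
      · exact absurd h5 h15
    have e4 : b = 0 := by exact_mod_cast e3
    rw [e3, Complex.ofReal_re] at e1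
    have e5 : |z.re| ≤ 1 := hzn ▸ Complex.abs_re_le_norm z
    rw [abs_le] at e5
    have e6 : (a : ℝ) ≤ 2 := by linarith
    have e7 : (-2 : ℝ) ≤ a := by linarith
    have e8 : a ≤ 2 := by exact_mod_cast e6
    have e9 : -2 ≤ a := by exact_mod_cast e7
    subst e4
    have hc : TT (g : AA) = (a : kk) := by
      rw [hab]
      apply QuadraticAlgebra.ext <;> simp
    obtain ⟨t1, t2, t3, t4⟩ := no_torsion s hg
    have t5 : TT (g : AA) ≠ 2 := fun h => hZ ((TT_two g).1 h)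
    rw [hc] at t1 t2 t3 t4 t5
    interval_cases a
    · exact t1 (by push_cast; rfl)
    · exact t2 (by push_cast; rfl)
    · exact t3 (by push_cast; rfl)
    · exact t4 (by push_cast; rfl)
    · exact t5 (by push_cast; rfl)
  rcases lt_or_gt_of_ne key with h | h
  · obtain ⟨z, hz, P, hP, e⟩ := klox_lox (iotaA g) μ₂ μ₁ (by rw [add_comm]; exact ht)
      (by rw [mul_comm]; exact hd) h0 h
    exact ⟨z, hz, P, hP, e⟩
  · obtain ⟨z, hz, P, hP, e⟩ := klox_lox (iotaA g) μ₁ μ₂ ht hd h0 h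
    exact ⟨z, hz, P, hP, e⟩

end

end Pool.Agent.Work.MP_14c213_gt
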