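import Pool.Agent.Work.MP_14c213_gt.B.LamB
import Pool.Agent.Work.MP_14c213_gt.B.EucB
import Pool.Agent.Work.MP_14c213_gt.B.S4b

/-!
Structure of K^× ∩ GO. For x in it z = x/σ(x) is a unit of the ring of integers OK = ℤ[ζ] + ℤ[ζ]ε (all ord v (NK x)
even, x locally a scalar times a unit), z σ(z) = 1. If |phiK z| = 1 then also the conjugate z' = u + vε'
(ε' = 1 - ε, √5 ↦ -√5) has |z'| = 1 (it is the complex conjugate of σ z). With z = u + vε: |v|√5 = |z - z'| ≤ 2, so
|v|² ≤ 4/5, v = 0; z = u ∈ ℤ[ζ] of absolute value 1 is (1 + ζ)^a = (c/σ c)^a, so x/c^a ∈ k. idxE: EE modulo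
scalars is ⟨c⟩ times an infinite cyclic group (log |z| is discrete: for bounded |z|, |z|⁻¹ there are finitely many z);
idxE (x c^a) = 6 [EE/⟨c⟩ : ⟨x⟩] does not depend on a.
-/

namespace Pool.Agent.Work.MP_14c213_gt

open Matrix IsDedekindDomain
open scoped Matrix NumberField QuadraticAlgebra

noncomputable section

private theorem torE_phik (a b : ℚ) : phik ⟨a, b⟩ =
    ((a : ℚ) : ℂ) + ((b : ℚ) : ℂ) * ((1 + Complex.I * (Real.sqrt 15 : ℂ)) / 2) := by
  have h : phik ⟨a, b⟩ = a • (1 : ℂ) + b • ((1 + Complex.I * (Real.sqrt 15 : ℂ)) / 2) := rfl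
  rw [h, Algebra.smul_def, Algebra.smul_def, mul_one]
  rfl

private theorem torE_phiK (z : kk) : phiK (algebraMap kk KK z) = phik z := by
  show phik (algebraMap kk KK z).re + phik (algebraMap kk KK z).im * zc = _
  have h1 : (algebraMap kk KK z).re = z := rfl
  have h2 : (algebraMap kk KK z).im = 0 := rfl
  rw [h1, h2, map_zero, zero_mul, add_zero]

theorem torE_star (x : KKˣ) : star (x : KK) ≠ 0 := by
  intro h
  have := congrArg star h
  rw [star_star, star_zero] at this
  exact x.ne_zero this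

private theorem torE_trd (x : KK) : algebraMap kk KK (trd (inK x)) = x + star x := by
  rw [star_KK]
  apply QuadraticAlgebra.ext
  · simp only [trd, inK, mkA, QuadraticAlgebra.algebraMap_re, QuadraticAlgebra.re_add]
    ring
  · simp only [trd, inK, mkA, QuadraticAlgebra.algebraMap_im, QuadraticAlgebra.im_add]
    ring

theorem torE_TT (x : KKˣ) : algebraMap kk KK (TT (inK (x : KK))) =
      (x : KK) / star (x : KK) + ((x : KK) / star (x : KK))⁻¹ := by
  have h0 := x.ne_zero
  have h1 := torE_star x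
  rw [TT, map_sub, map_div₀, map_pow, torE_trd, nrd_inK, ← mul_star_KK, map_ofNat]
  field_simp
  ring

theorem torE_TTzr (x : KKˣ) : phik (TT (inK (x : KK))) = zr x + (zr x)⁻¹ := by
  rw [← torE_phiK, torE_TT, map_add, map_inv₀, zr]

/-- `z + 1/z` is integral for `z = x / σ x`, `x ∈ GO`. -/
theorem torE_int (x : KKˣ) (hx : inKu x ∈ GO) : ∃ a b : ℤ, TT (inK (x : KK)) = ⟨a, b⟩ := by
  have hN := NK_ne x.ne_zero
  have hval : ∀ v : Pl, v.valuation kk (TT (inK (x : KK))) ≤ 1 := by
    intro v
    have h2 : v.valuation kk (2 : kk) ≤ 1 := by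
      have := val_int v 2 0
      have e : (⟨((2 : ℤ) : ℚ), ((0 : ℤ) : ℚ)⟩ : kk) = 2 := by
        ext <;> simp
      rwa [e] at this
    have h3 : v.valuation kk (-3 : kk) ≤ 1 := by
      have := val_int v (-3) 0
      have e : (⟨((-3 : ℤ) : ℚ), ((0 : ℤ) : ℚ)⟩ : kk) = -3 := by
        ext <;> simp
      rwa [e] at this
    by_cases hv : v ∈ SS4
    · have h4 := inert_add v hv (x : KK) (star (x : KK))
      rw [NK_star, max_self, ← torE_trd, NK_algebraMap] at h4
      have h5 : v.valuation kk (trd (inK (x : KK)) ^ 2 / nrd (inK (x : KK))) ≤ 1 := by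
        rw [nrd_inK, map_div₀]
        refine (div_le_one₀ ?_).2 h4
        exact zero_lt_iff.2 ((Valuation.ne_zero_iff _).2 hN)
      rw [TT]
      exact Valuation.map_sub_le _ h5 h2
    · obtain ⟨z, hz, -, him, hord⟩ := (UU_iff_Rn hv x).1 ((mem_GO _).1 hx v)
      have h4 : v.valuation kk (TT (inK (x : KK)) - 2) ≤ 1 := by
        rw [TT_K]
        rcases him with him | him
        · rw [him]
          simp
        · by_cases hi : (x : KK).im = 0
          · rw [hi]
            simp
          · rw [ord_mul v hz hi] at him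
            rw [mul_div_assoc, map_mul]
            refine mul_le_one' h3 ?_
            rw [val_le_one (div_ne_zero (pow_ne_zero 2 hi) hN), div_eq_mul_inv,
              ord_mul v (pow_ne_zero 2 hi) (inv_ne_zero hN), ord_inv, ord_pow]
            push_cast at him ⊢
            linarith
      have h5 := Valuation.map_add_le (v.valuation kk) h4 h2
      rwa [sub_add_cancel] at h5
  obtain ⟨y, hy⟩ := HeightOneSpectrum.mem_integers_of_valuation_le_one kk _ hval
  have h1 : IsIntegral ℤ (TT (inK (x : KK))) := by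
    rw [← hy]
    exact NumberField.RingOfIntegers.isIntegral_coe y
  exact (int_iff _).1 h1

private theorem torE_sq (n : ℕ) (hn : ∀ r : ℕ, r * r ≠ n) (q : ℚ) : q * q ≠ n := by
  intro h
  have : IsSquare (n : ℚ) := ⟨q, h.symm⟩
  rw [Rat.isSquare_natCast_iff] at this
  obtain ⟨r, hr⟩ := this
  exact hn r hr.symm

private theorem torE_sq3 (q : ℚ) : q * q ≠ 3 := by
  have := torE_sq 3 (fun r h => by
    have : r < 2 := by nlinarith
    interval_cases r <;> omega) q
  exact_mod_cast this

private theorem torE_sq15 (q : ℚ) : q * q ≠ 15 := by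
  have := torE_sq 15 (fun r h => by
    have : r < 4 := by nlinarith
    interval_cases r <;> omega) q
  exact_mod_cast this

/-- There is no square root of `-1` in `K`. -/
private theorem torE_noI (z : KK) : z * z + 1 ≠ 0 := by
  intro h
  have h1 := congrArg QuadraticAlgebra.re h
  have h2 := congrArg QuadraticAlgebra.im h
  simp only [QuadraticAlgebra.re_add, QuadraticAlgebra.re_mul, QuadraticAlgebra.re_one,
    QuadraticAlgebra.re_zero] at h1
  simp only [QuadraticAlgebra.im_add, QuadraticAlgebra.im_mul, QuadraticAlgebra.im_one,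
    QuadraticAlgebra.im_zero] at h2
  have h3 : z.im * (2 * z.re - z.im) = 0 := by linear_combination h2
  rcases mul_eq_zero.1 h3 with h4 | h4
  · have h5 : z.re * z.re + 1 = 0 := by
      rw [h4] at h1
      linear_combination h1
    have e1 := congrArg QuadraticAlgebra.re h5
    have e2 := congrArg QuadraticAlgebra.im h5
    simp only [QuadraticAlgebra.re_add, QuadraticAlgebra.re_mul, QuadraticAlgebra.re_one,
      QuadraticAlgebra.re_zero] at e1
    simp only [QuadraticAlgebra.im_add, QuadraticAlgebra.im_mul, QuadraticAlgebra.im_one,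
      QuadraticAlgebra.im_zero] at e2
    have e3 : z.re.im * (2 * z.re.re + z.re.im) = 0 := by linear_combination e2
    rcases mul_eq_zero.1 e3 with e4 | e4
    · rw [e4] at e1
      nlinarith [mul_self_nonneg z.re.re]
    · have e5 : z.re.im = -(2 * z.re.re) := by linarith
      rw [e5] at e1
      exact torE_sq15 (15 * z.re.re) (by linear_combination (-15) * e1)
  · have h5 : z.im = 2 * z.re := by linear_combination -h4
    have h6 : 3 * (z.re * z.re) - 1 = 0 := by
      rw [h5] at h1
      linear_combination -h1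
    have e1 := congrArg QuadraticAlgebra.re h6
    have e2 := congrArg QuadraticAlgebra.im h6
    have k3r : (3 : kk).re = 3 := by simp
    have k3i : (3 : kk).im = 0 := by simp
    simp only [QuadraticAlgebra.re_sub, QuadraticAlgebra.re_mul, QuadraticAlgebra.re_one,
      QuadraticAlgebra.re_zero, QuadraticAlgebra.im_mul, k3r, k3i] at e1
    simp only [QuadraticAlgebra.im_sub, QuadraticAlgebra.im_mul, QuadraticAlgebra.im_one,
      QuadraticAlgebra.im_zero, QuadraticAlgebra.re_mul, k3r, k3i] at e2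
    have e3 : z.re.im * (2 * z.re.re + z.re.im) = 0 := by linear_combination (1 / 3) * e2
    rcases mul_eq_zero.1 e3 with e4 | e4
    · rw [e4] at e1
      exact torE_sq3 (3 * z.re.re) (by linear_combination 3 * e1)
    · have e5 : z.re.im = -(2 * z.re.re) := by linarith
      rw [e5] at e1
      nlinarith [mul_self_nonneg z.re.re]

/-- Solutions of `z + 1/z = a`. -/
private theorem torE_root (z : KK) (hz : z ≠ 0) (a : ℤ) (h : z + z⁻¹ = (a : KK)) (h1 : -2 ≤ a)
    (h2 : a ≤ 2) : ∃ j : ℕ, j < 6 ∧ z = (1 + zeta) ^ j := by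
  have hzr := zeta_rel
  have e : z * z - a * z + 1 = 0 := by
    have := congrArg (fun w => z * w) h
    simp only [mul_add, mul_inv_cancel₀ hz] at this
    linear_combination this
  have ha : a = -2 ∨ a = -1 ∨ a = 0 ∨ a = 1 ∨ a = 2 := by omega
  rcases ha with rfl | rfl | rfl | rfl | rfl
  · refine ⟨3, by norm_num, ?_⟩
    push_cast at e
    have e2 : (z + 1) * (z + 1) = 0 := by linear_combination e
    have e3 : z + 1 = 0 := mul_self_eq_zero.1 e2
    linear_combination e3 - (zeta + 2) * hzr
  · push_cast at e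
    have e2 : (z - zeta) * (z + 1 + zeta) = 0 := by linear_combination e - hzr
    rcases mul_eq_zero.1 e2 with e3 | e3
    · refine ⟨2, by norm_num, ?_⟩
      linear_combination e3 - hzr
    · refine ⟨4, by norm_num, ?_⟩
      linear_combination e3 - (zeta ^ 2 + 3 * zeta + 2) * hzr
  · push_cast at e
    exact absurd (by linear_combination e) (torE_noI z)
  · push_cast at e
    have e2 : (z - (1 + zeta)) * (z + zeta) = 0 := by linear_combination e - hzr
    rcases mul_eq_zero.1 e2 with e3 | e3
    · refine ⟨1, by norm_num, ?_⟩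
      linear_combination e3
    · refine ⟨5, by norm_num, ?_⟩
      linear_combination e3 - (zeta ^ 3 + 4 * zeta ^ 2 + 5 * zeta + 1) * hzr
  · refine ⟨0, by norm_num, ?_⟩
    push_cast at e
    have e2 : (z - 1) * (z - 1) = 0 := by linear_combination e
    have e3 : z - 1 = 0 := mul_self_eq_zero.1 e2
    rw [pow_zero]
    linear_combination e3

/-- Elements with the same `x / σ x` differ by a scalar. -/
theorem torE_scalar (x y : KK) (hx : x ≠ 0) (hy : y ≠ 0) (h : x / star x = y / star y) :
    ∃ z : kk, z ≠ 0 ∧ x = algebraMap kk KK z * y := by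
  have hsx : star x ≠ 0 := fun h => hx (star_eq_zero.1 h)
  have hsy : star y ≠ 0 := fun h => hy (star_eq_zero.1 h)
  have h1 : star (x / y) = x / y := by
    rw [div_eq_div_iff hsx hsy] at h
    have h2 : star (x / y) = star x / star y := map_div₀ (starRingEnd KK) x y
    rw [h2, div_eq_div_iff hsy hy]
    linear_combination -h
  rw [star_KK] at h1
  have h3 := congrArg QuadraticAlgebra.im h1
  simp only at h3
  have h4 : (x / y).im = 0 := by
    have h5 : (2 : kk) * (x / y).im = 0 := by linear_combination -h3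
    exact (mul_eq_zero.1 h5).resolve_left two_ne_zero
  have h5 : x / y = algebraMap kk KK (x / y).re := by
    apply QuadraticAlgebra.ext
    · rfl
    · rw [h4]
      rfl
  refine ⟨(x / y).re, ?_, ?_⟩
  · intro h0
    rw [h0, map_zero] at h5
    exact div_ne_zero hx hy h5
  · rw [← h5, div_mul_cancel₀ _ hy]

theorem tor_E (x : KKˣ) (hx : inKu x ∈ GO) (h : ‖zr x‖ = 1) :
    ∃ a : ℕ, a < 6 ∧ ∃ z : kk, z ≠ 0 ∧ (x : KK) = algebraMap kk KK z * cc ^ a := by
  obtain ⟨a, b, hab⟩ := torE_int x hx
  have h1 := torE_TTzr x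
  rw [hab, Complex.inv_eq_conj h, Complex.add_conj, torE_phik] at h1
  have him := congrArg Complex.im h1
  have hre := congrArg Complex.re h1
  have h15 : (0 : ℝ) < Real.sqrt 15 := Real.sqrt_pos.2 (by norm_num)
  have hb : b = 0 := by
    simpa using him
  subst hb
  have ha : (a : ℝ) = 2 * (zr x).re := by
    simp at hre
    linarith
  have hz1 : |(zr x).re| ≤ 1 := (Complex.abs_re_le_norm _).trans h.le
  rw [abs_le] at hz1
  have ha1 : -2 ≤ a := by
    have : (-2 : ℝ) ≤ a := by linarith [hz1.1]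
    exact_mod_cast this
  have ha2 : a ≤ 2 := by
    have : (a : ℝ) ≤ 2 := by linarith [hz1.2]
    exact_mod_cast this
  have hsx := torE_star x
  have e := torE_TT x
  rw [hab] at e
  have e2 : algebraMap kk KK (⟨((a : ℤ) : ℚ), ((0 : ℤ) : ℚ)⟩ : kk) = (a : KK) := by
    have e3 : (⟨((a : ℤ) : ℚ), ((0 : ℤ) : ℚ)⟩ : kk) = (a : kk) := by
      apply QuadraticAlgebra.ext
      · simp
      · simp
    rw [e3, map_intCast]
  rw [e2] at e
  obtain ⟨j, hj, hjz⟩ := torE_root _ (div_ne_zero x.ne_zero hsx) a e.symm ha1 ha2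
  have hcc : cc ≠ 0 := cc_ne
  obtain ⟨z, hz, hxz⟩ := torE_scalar (x : KK) (cc ^ j) x.ne_zero (pow_ne_zero j hcc) (by
    rw [hjz, ← cc_div, star_pow, div_pow])
  exact ⟨j, hj, z, hz, hxz⟩

theorem zr_ccu : zr ccu = (1 + Complex.I * (Real.sqrt 3 : ℂ)) / 2 := by
  have h : zr ccu = phiK (cc / star cc) := rfl
  rw [h, cc_div, map_add, map_one]
  have h2 : phiK zeta = phik 0 + phik 1 * zc := rfl
  rw [h2, map_zero, map_one, zc]
  ring

theorem zr_epu : zr epu = -((3 + (Real.sqrt 5 : ℂ)) / 2) := by
  have h : zr epu = phiK uu := rfl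
  have h2 : phiK eps = (1 + (Real.sqrt 5 : ℂ)) / 2 := by
    have h3 : phiK eps = phik ⟨2 / 3, -1 / 3⟩ + phik ⟨1 / 3, -2 / 3⟩ * zc := rfl
    have h15 : (Real.sqrt 15 : ℂ) = (Real.sqrt 3 : ℂ) * (Real.sqrt 5 : ℂ) := by
      rw [← Complex.ofReal_mul, ← Real.sqrt_mul (by norm_num)]
      norm_num
    have h33 : ((Real.sqrt 3 : ℝ) : ℂ) ^ 2 = 3 := by
      rw [← Complex.ofReal_pow, Real.sq_sqrt (by norm_num)]; norm_num
    have hI := Complex.I_sq
    rw [h3, torE_phik, torE_phik, zc, h15]
    push_cast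
    linear_combination (-(Real.sqrt 5 : ℂ) * (Real.sqrt 3 : ℂ) ^ 2 / 6) * hI +
      ((Real.sqrt 5 : ℂ) / 6) * h33
  have h5 : ((Real.sqrt 5 : ℝ) : ℂ) ^ 2 = 5 := by
    rw [← Complex.ofReal_pow, Real.sq_sqrt (by norm_num)]; norm_num
  rw [h, uu_eq, map_neg, map_mul, h2]
  linear_combination (-1 / 4 : ℂ) * h5

end

end Pool.Agent.Work.MP_14c213_gt
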