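import Pool.Agent.Work.MP_14c213_gt.B.LamB
import Pool.Agent.Work.MP_14c213_gt.B.TorE

/-!
The trigonometric sums over a < 6. zr (x c^a) = zr x · ω^a, ω = exp(πi/3); lam (x c^a) = (-1)^a lam x;
kapg (x c^a) by chars_mul_ccu: kapA is 3-periodic in a with zero sum (kapA_sum), kapB changes sign with a ↦ a + 1 times 2a:
kapg lam is 3-periodic in a with zero sum. m = 0: zero sum; m = 1: cos changes sign with a ↦ a + 3. For ε, m = 2:
the values of kapg lam are -8, 0, 8 (period 3) and cos² = 1, 1/4, 1/4 (a = 0, 1, 2).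
-/

namespace Pool.Agent.Work.MP_14c213_gt

open Matrix IsDedekindDomain
open scoped Matrix NumberField QuadraticAlgebra

noncomputable section

/-- The sixth root of unity. -/
def trW : ℂ := (1 + Complex.I * (Real.sqrt 3 : ℂ)) / 2

theorem trW_sq : trW ^ 2 = trW - 1 := by
  have h : ((Real.sqrt 3 : ℝ) : ℂ) ^ 2 = 3 := by
    rw [← Complex.ofReal_pow, Real.sq_sqrt (by norm_num)]; norm_num
  have hI := Complex.I_sq
  simp only [trW]
  linear_combination (1/4 : ℂ) * Complex.I^2 * h + (3/4) * hI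

theorem trW_cube : trW ^ 3 = -1 := by
  have h := trW_sq
  linear_combination (trW + 1) * h

theorem trW_norm : ‖trW‖ = 1 := by
  have h : ‖trW‖ ^ 3 = 1 := by
    rw [← norm_pow, trW_cube, norm_neg, norm_one]
  exact (pow_eq_one_iff_of_nonneg (norm_nonneg _) (by norm_num)).mp h

theorem trig_zr_pow (x : KKˣ) (a : ℕ) : zr (x * ccu ^ a) = zr x * trW ^ a := by
  induction a with
  | zero => simp
  | succ a ih =>
    have h1 : zr ccu = trW := zr_ccu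
    rw [pow_succ, ← mul_assoc, zr_mul, ih, h1, pow_succ, mul_assoc]

theorem trig_GO_pow (a : ℕ) : inKu (ccu ^ a) ∈ GO := by
  rw [map_pow]
  exact pow_mem ccu_GO a

theorem trig_lam_pow (x : KKˣ) (hx : inKu x ∈ GO) (a : ℕ) :
    ((lam (x * ccu ^ a) : ℤˣ) : ℤ) = (-1) ^ a * ((lam x : ℤˣ) : ℤ) := by
  induction a with
  | zero => simp
  | succ a ih =>
    have h1 : inKu (x * ccu ^ a) ∈ GO := by
      rw [map_mul]
      exact mul_mem hx (trig_GO_pow a)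
    rw [pow_succ, ← mul_assoc, lam_mul _ _ h1 ccu_GO, lam_ccu, Units.val_mul, ih]
    push_cast
    ring

theorem trig_cth (x : KKˣ) (a : ℕ) : cth ((Psi (inKu (x * ccu ^ a)) : (Mat 3)ˣ) : Mat 3) =
    (zr x * trW ^ a).re / ‖zr x‖ := by
  rw [cth_K, trig_zr_pow, norm_mul, norm_pow, trW_norm, one_pow, mul_one]

theorem trig_kapB (s t : ZMod 4) (a : ℕ) : kapB (s + 2 * a) t = (-1) ^ a * kapB s t := by
  induction a with
  | zero => simp
  | succ a ih =>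
    have e : s + 2 * ((a + 1 : ℕ) : ZMod 4) = (s + 2 * a) + 2 := by
      push_cast
      ring
    rw [e, kapB_two, ih, pow_succ]
    ring

/-- The terms of the sums. -/
theorem trig_term (x : KKˣ) (hx : inKu x ∈ GO) (m a : ℕ) :
    (kapg (x * ccu ^ a) : ℝ) * (((lam (x * ccu ^ a) : ℤˣ) : ℤ) : ℝ) *
      cth ((Psi (inKu (x * ccu ^ a)) : (Mat 3)ˣ) : Mat 3) ^ m =
    ((kapB (a3 (inKu x)) (a23 (inKu x)) : ℤ) : ℝ) * (((lam x : ℤˣ) : ℤ) : ℝ) *
      (((kapA (a2 (inKu x) + 2 * a) (a17 (inKu x)) : ℤ) : ℝ) *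
        ((zr x * trW ^ a).re / ‖zr x‖) ^ m) := by
  obtain ⟨h1, h2, h3, h4⟩ := chars_mul_ccu x a
  rw [trig_cth, trig_lam_pow x hx]
  simp only [kapg]
  rw [h1, h2, h3, h4, trig_kapB]
  have e : ((-1 : ℝ) ^ a) * (-1) ^ a = 1 := by
    rw [← mul_pow]
    norm_num
  push_cast
  linear_combination (((kapA (a2 (inKu x) + 2 * a) (a17 (inKu x)) : ℤ) : ℝ) *
    ((kapB (a3 (inKu x)) (a23 (inKu x)) : ℤ) : ℝ) * (((lam x : ℤˣ) : ℤ) : ℝ) *
    ((zr x * trW ^ a).re / ‖zr x‖) ^ m) * e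

theorem trig_re3 (z : ℂ) (a : ℕ) : (z * trW ^ (a + 3)).re = -(z * trW ^ a).re := by
  have : z * trW ^ (a + 3) = -(z * trW ^ a) := by
    rw [pow_add, trW_cube]
    ring
  rw [this, Complex.neg_re]

theorem trig_sum6 (f : ℕ → ℝ) : ∑ a ∈ Finset.range 6, f a =
    f 0 + f 1 + f 2 + f 3 + f 4 + f 5 := by
  simp [Finset.sum_range_succ]

theorem trig_kA (s t : ZMod 3) : kapA (s + 2 * (1 : ℕ)) t = kapA (s + 2) t ∧
    kapA (s + 2 * (2 : ℕ)) t = kapA (s + 1) t ∧ kapA (s + 2 * (3 : ℕ)) t = kapA s t ∧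
    kapA (s + 2 * (4 : ℕ)) t = kapA (s + 2) t ∧ kapA (s + 2 * (5 : ℕ)) t = kapA (s + 1) t := by
  have e1 : s + 2 * ((1 : ℕ) : ZMod 3) = s + 2 := by push_cast; ring
  have e2 : s + 2 * ((2 : ℕ) : ZMod 3) = s + 1 := by
    have : (2 * ((2 : ℕ) : ZMod 3)) = 1 := by decide
    rw [this]
  have e3 : s + 2 * ((3 : ℕ) : ZMod 3) = s := by
    have : (2 * ((3 : ℕ) : ZMod 3)) = 0 := by decide
    rw [this, add_zero]
  have e4 : s + 2 * ((4 : ℕ) : ZMod 3) = s + 2 := by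
    have : (2 * ((4 : ℕ) : ZMod 3)) = 2 := by decide
    rw [this]
  have e5 : s + 2 * ((5 : ℕ) : ZMod 3) = s + 1 := by
    have : (2 * ((5 : ℕ) : ZMod 3)) = 1 := by decide
    rw [this]
  rw [e1, e2, e3, e4, e5]
  exact ⟨rfl, rfl, rfl, rfl, rfl⟩

theorem trig01 (x : KKˣ) (hx : inKu x ∈ GO) (m : ℕ) (hm : m = 0 ∨ m = 1) :
    ∑ a ∈ Finset.range 6, (kapg (x * ccu ^ a) : ℝ) * (((lam (x * ccu ^ a) : ℤˣ) : ℤ) : ℝ) *
      cth ((Psi (inKu (x * ccu ^ a)) : (Mat 3)ˣ) : Mat 3) ^ m = 0 := by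
  rw [Finset.sum_congr rfl (fun a _ => trig_term x hx m a), ← Finset.mul_sum, trig_sum6]
  obtain ⟨k1, k2, k3, k4, k5⟩ := trig_kA (a2 (inKu x)) (a17 (inKu x))
  rw [k1, k2, k3, k4, k5]
  have hs := kapA_sum (a2 (inKu x)) (a17 (inKu x))
  have hs' : ((kapA (a2 (inKu x)) (a17 (inKu x)) : ℤ) : ℝ) +
      ((kapA (a2 (inKu x) + 1) (a17 (inKu x)) : ℤ) : ℝ) +
      ((kapA (a2 (inKu x) + 2) (a17 (inKu x)) : ℤ) : ℝ) = 0 := by exact_mod_cast hs
  have e0 : a2 (inKu x) + 2 * ((0 : ℕ) : ZMod 3) = a2 (inKu x) := by simp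
  rw [e0]
  have r3 := trig_re3 (zr x) 0
  have r4 := trig_re3 (zr x) 1
  have r5 := trig_re3 (zr x) 2
  rcases hm with rfl | rfl
  · simp only [pow_zero, mul_one]
    linear_combination (2 * (((kapB (a3 (inKu x)) (a23 (inKu x)) : ℤ) : ℝ) *
      (((lam x : ℤˣ) : ℤ) : ℝ))) * hs'
  · simp only [pow_one]
    rw [show (zr x * trW ^ 3).re = -(zr x * trW ^ 0).re from r3,
      show (zr x * trW ^ 4).re = -(zr x * trW ^ 1).re from r4,
      show (zr x * trW ^ 5).re = -(zr x * trW ^ 2).re from r5]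
    ring

theorem trig2 :
    ∑ a ∈ Finset.range 6, (kapg (epu * ccu ^ a) : ℝ) * (((lam (epu * ccu ^ a) : ℤˣ) : ℤ) : ℝ) *
      cth ((Psi (inKu (epu * ccu ^ a)) : (Mat 3)ˣ) : Mat 3) ^ 2 ≠ 0 := by
  rw [Finset.sum_congr rfl (fun a _ => trig_term epu epu_GO 2 a), ← Finset.mul_sum, trig_sum6]
  obtain ⟨k1, k2, k3, k4, k5⟩ := trig_kA (a2 (inKu epu)) (a17 (inKu epu))
  rw [k1, k2, k3, k4, k5]
  have e0 : a2 (inKu epu) + 2 * ((0 : ℕ) : ZMod 3) = a2 (inKu epu) := by simp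
  rw [e0]
  obtain ⟨h1, h2, h3, h4⟩ := chars_epu
  rw [h1, h2, h3, h4, lam_epu]
  obtain ⟨v1, v2, v3, v4⟩ := kap_vals
  have f1 : (1 : ZMod 3) + 2 = 0 := by decide
  have f2 : (1 : ZMod 3) + 1 = 2 := by decide
  rw [f1, f2, v1, v2, v3, v4, zr_epu]
  set r : ℝ := (3 + Real.sqrt 5) / 2 with hr
  have hr0 : 0 < r := by positivity
  have hz : (-((3 + (Real.sqrt 5 : ℂ)) / 2) : ℂ) = ((-r : ℝ) : ℂ) := by
    rw [hr]
    push_cast
    ring
  rw [hz]
  have hn : ‖((-r : ℝ) : ℂ)‖ = r := by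
    rw [Complex.norm_real, norm_neg, Real.norm_of_nonneg hr0.le]
  rw [hn]
  have hre : ∀ a : ℕ, (((-r : ℝ) : ℂ) * trW ^ a).re / r = -(trW ^ a).re := by
    intro a
    rw [Complex.re_ofReal_mul]
    field_simp
  rw [hre, hre, hre, hre, hre, hre]
  have w1 : (trW ^ 1).re = 1 / 2 := by
    simp [trW]
  have w2 : (trW ^ 2).re = -1 / 2 := by
    rw [trW_sq]
    simp [trW]
    norm_num
  have w3 : (trW ^ 3).re = -1 := by
    rw [trW_cube]
    simp
  have w4 : (trW ^ 4).re = -1 / 2 := by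
    have := trig_re3 1 1
    rw [one_mul, one_mul, w1] at this
    norm_num at this
    rw [this]; norm_num
  have w5 : (trW ^ 5).re = 1 / 2 := by
    have := trig_re3 1 2
    rw [one_mul, one_mul, w2] at this
    norm_num at this
    rw [this]
  rw [w1, w2, w3, w4, w5]
  norm_num

end

end Pool.Agent.Work.MP_14c213_gt
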