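import Pool.Agent.Work.MP_14c213_gt.B.FinB
import Pool.Agent.Work.MP_14c213_gt.B.TrigB
import Pool.Agent.Work.MP_14c213_gt.B.KlLox
import Pool.Agent.Work.MP_14c213_gt.B.CocB
import Pool.Agent.Work.MP_14c213_gt.B.DiscB

/-!
Assembly of the arithmetic part.
-/

namespace Pool.Agent.Work.MP_14c213_gt

open Matrix IsDedekindDomain
open scoped Matrix NumberField QuadraticAlgebra

noncomputable section

theorem klein (s : ℤˣ) : Klein ((GG s).map Psi) := by
  refine ⟨klein_lox s, fun R => ?_, coc s⟩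
  refine (discrete R).subset ?_
  rintro γ ⟨h1, h2⟩
  exact ⟨Subgroup.map_mono (GG_le s) h1, h2⟩

private theorem ker_le_GG (s : ℤˣ) : Psi.ker ≤ GG s := fun g hg => ZZ_le_GG s ((Psi_ker g).1 hg)

theorem inf_map : (GG 1).map Psi ⊓ (GG (-1)).map Psi = (GG 1 ⊓ GG (-1)).map Psi := by
  apply le_antisymm
  · rintro _ ⟨⟨a, ha, rfl⟩, ⟨b, hb, hab⟩⟩
    refine ⟨a, ⟨ha, ?_⟩, rfl⟩
    have h : b⁻¹ * a ∈ Psi.ker := by
      rw [MonoidHom.mem_ker, map_mul, map_inv, hab, inv_mul_cancel]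
    have := (GG (-1)).mul_mem hb (ker_le_GG (-1) h)
    simpa using this
  · exact le_inf (Subgroup.map_mono inf_le_left) (Subgroup.map_mono inf_le_right)

theorem idx_map (s : ℤˣ) :
    ((GG 1 ⊓ GG (-1)).map Psi).relIndex ((GG s).map Psi) = (GG 1 ⊓ GG (-1)).relIndex (GG s) := by
  have h : Psi.ker ≤ GG 1 ⊓ GG (-1) := le_inf (ker_le_GG 1) (ker_le_GG (-1))
  rw [← Subgroup.relIndex_comap, Subgroup.comap_map_eq_self h]

theorem arithmetic : ∃ Γ₁ Γ₂ : Subgroup (Mat 3)ˣ, Pair Γ₁ Γ₂ := by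
  refine ⟨(GG 1).map Psi, (GG (-1)).map Psi, ?_⟩
  have h01 : ∀ m : ℕ, (m = 0 ∨ m = 1) → ∀ L > 1,
      lenData ((GG 1).map Psi) m L = lenData ((GG (-1)).map Psi) m L := by
    intro m hm L hL
    by_cases h : ∃ x : KKˣ, inKu x ∈ GO ∧ chl ((Psi (inKu x) : (Mat 3)ˣ) : Mat 3) = L
    · obtain ⟨x, hx, hc⟩ := h
      have := diff_some (klein 1) (klein (-1)) m L hL x hx hc
      rw [trig01 x hx m hm, mul_zero] at this
      linarith
    · exact diff_none (klein 1) (klein (-1)) m L hL h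
  refine ⟨klein 1, klein (-1), ?_, ?_, h01 0 (Or.inl rfl), h01 1 (Or.inr rfl), ?_⟩
  · rw [inf_map, idx_map, idx_map, GG_inf.1, GG_inf.2]
  · rw [inf_map, idx_map, GG_inf.1]
    norm_num
  · refine ⟨3 / 2, by norm_num, ?_⟩
    have := diff_some (klein 1) (klein (-1)) 2 (3 / 2) (by norm_num) epu epu_GO chl_epu
    intro h
    rw [h, sub_self] at this
    have h3 := trig2
    have h4 : ((GG 1).relIndex GO : ℝ) ≠ 0 := by exact_mod_cast GG_index 1
    have h5 : (idxE epu : ℝ) ≠ 0 := by exact_mod_cast idxE_epu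
    have h6 : -((GG 1).relIndex GO : ℝ) / (idxE epu : ℝ) ≠ 0 := div_ne_zero (neg_ne_zero.2 h4) h5
    exact (mul_ne_zero h6 h3) this.symm

end

end Pool.Agent.Work.MP_14c213_gt
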