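import Pool.Agent.Work.MP_14c213_gt.B.ChlB
import Pool.Agent.Work.MP_14c213_gt.B.S4b

/-!
Centralizers in the division algebra A. A nonscalar γ generates a maximal commutative subfield k + kγ.
If Psi (h γ h⁻¹) = Psi γ then h γ h⁻¹ = z γ, taking traces z = 1.
-/

namespace Pool.Agent.Work.MP_14c213_gt

open Matrix IsDedekindDomain
open scoped Matrix NumberField QuadraticAlgebra

noncomputable section

private theorem cenB_bq : bq ≠ 0 := by
  intro h
  have := congrArg QuadraticAlgebra.re h
  simp [bq] at this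

private theorem cenB_alg (z : kk) : algebraMap kk AA z = ⟨z, 0, 0, 0⟩ := by
  apply QuaternionAlgebra.ext <;> simp

private theorem cenB_minors {γ h : AA} (hc : h * γ = γ * h) :
    h.imJ * γ.imK = h.imK * γ.imJ ∧ h.imI * γ.imK = h.imK * γ.imI ∧
      h.imI * γ.imJ = h.imJ * γ.imI := by
  have e1 := congrArg QuaternionAlgebra.imI hc
  have e2 := congrArg QuaternionAlgebra.imJ hc
  have e3 := congrArg QuaternionAlgebra.imK hc
  simp only [QuaternionAlgebra.imI_mul, QuaternionAlgebra.imJ_mul, QuaternionAlgebra.imK_mul]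
    at e1 e2 e3
  have hb := cenB_bq
  have h2 : (2 : kk) ≠ 0 := two_ne_zero
  have m1 : bq * 2 * (h.imJ * γ.imK - h.imK * γ.imJ) = 0 := by linear_combination (-1 : kk) * e1
  have h3 : (3 : kk) ≠ 0 := three_ne_zero
  have m1' : h.imJ * γ.imK - h.imK * γ.imJ = 0 := by
    rcases mul_eq_zero.1 m1 with h | h
    · exact absurd h (mul_ne_zero hb h2)
    · exact h
  have m2 : 3 * (h.imI * γ.imK - h.imK * γ.imI) = 0 := by linear_combination e3 - 2 * e2
  have m2' : h.imI * γ.imK - h.imK * γ.imI = 0 := by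
    rcases mul_eq_zero.1 m2 with h | h
    · exact absurd h h3
    · exact h
  have m3' : h.imI * γ.imJ - h.imJ * γ.imI = 0 := by
    linear_combination e2 + 2 * m2'
  exact ⟨sub_eq_zero.1 m1', sub_eq_zero.1 m2', sub_eq_zero.1 m3'⟩

theorem cen_lin {γ h : AA} (hγ : ∀ z : kk, γ ≠ algebraMap kk AA z) (hc : h * γ = γ * h) :
    ∃ a b : kk, h = algebraMap kk AA a + algebraMap kk AA b * γ := by
  obtain ⟨m1, m2, m3⟩ := cenB_minors hc
  have key : ∀ b : kk, h.imI = b * γ.imI → h.imJ = b * γ.imJ → h.imK = b * γ.imK →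
      ∃ a b : kk, h = algebraMap kk AA a + algebraMap kk AA b * γ := by
    intro b h1 h2 h3
    refine ⟨h.re - b * γ.re, b, ?_⟩
    rw [cenB_alg, cenB_alg]
    apply QuaternionAlgebra.ext
    · simp
    · simp [h1]
    · simp [h2]
    · simp [h3]
  by_cases h1 : γ.imI = 0
  · by_cases h2 : γ.imJ = 0
    · by_cases h3 : γ.imK = 0
      · exfalso
        apply hγ γ.re
        rw [cenB_alg]
        exact QuaternionAlgebra.ext rfl h1 h2 h3
      · apply key (h.imK / γ.imK)
        · field_simp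
          linear_combination m2
        · field_simp
          linear_combination m1
        · field_simp
    · apply key (h.imJ / γ.imJ)
      · field_simp
        linear_combination m3
      · field_simp
      · field_simp
        linear_combination -m1
  · apply key (h.imI / γ.imI)
    · field_simp
    · field_simp
      linear_combination -m3
    · field_simp
      linear_combination -m2

theorem cen_comm {γ h h' : AA} (hγ : ∀ z : kk, γ ≠ algebraMap kk AA z) (hc : h * γ = γ * h)
    (hc' : h' * γ = γ * h') : h * h' = h' * h := by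
  obtain ⟨a, b, hh⟩ := cen_lin hγ hc
  have e1 : algebraMap kk AA b * γ * h' = h' * (algebraMap kk AA b * γ) := by
    rw [mul_assoc, ← hc', ← mul_assoc, Algebra.commutes b h', mul_assoc]
  rw [hh, add_mul, mul_add, Algebra.commutes a h', e1]

private theorem cenB_trd_comm (g h : AA) : trd (g * h) = trd (h * g) := by
  simp only [trd, QuaternionAlgebra.re_mul, QuaternionAlgebra.imI_mul]
  ring

private theorem cenB_trd_smul (z : kk) (g : AA) : trd (algebraMap kk AA z * g) = z * trd g := by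
  rw [cenB_alg]
  simp only [trd, QuaternionAlgebra.re_mul, QuaternionAlgebra.imI_mul]
  ring

private theorem cenB_trd_conj (g h : AAˣ) : trd ((h * g * h⁻¹ : AAˣ) : AA) = trd (g : AA) := by
  rw [Units.val_mul, cenB_trd_comm, Units.val_mul, ← mul_assoc, Units.inv_mul, one_mul]

/-- Elements with the same image differ by a scalar. -/
private theorem cenB_scalar {g h : AAˣ} (e : Psi g = Psi h) :
    ∃ z : kk, z ≠ 0 ∧ (g : AA) = algebraMap kk AA z * h := by
  have h1 : Psi (g * h⁻¹) = 1 := by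
    rw [map_mul, e, ← map_mul, mul_inv_cancel, map_one]
  rw [Psi_ker, mem_ZZ] at h1
  obtain ⟨z, hz, h2⟩ := h1
  refine ⟨z, hz, ?_⟩
  rw [← h2, Units.val_mul, mul_assoc, Units.inv_mul, mul_one]

theorem cen_psi {γ h : AAˣ} (ht : trd (γ : AA) ≠ 0) (hc : Psi (h * γ * h⁻¹) = Psi γ) :
    h * γ = γ * h := by
  obtain ⟨z, hz, h1⟩ := cenB_scalar hc
  have h2 := congrArg trd h1
  rw [cenB_trd_conj, cenB_trd_smul] at h2
  have h3 : z = 1 := by
    have h4 : (z - 1) * trd (γ : AA) = 0 := by linear_combination -h2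
    rcases mul_eq_zero.1 h4 with h5 | h5
    · exact sub_eq_zero.1 h5
    · exact absurd h5 ht
  rw [h3, map_one, one_mul] at h1
  have h5 : h * γ * h⁻¹ = γ := Units.ext h1
  rwa [mul_inv_eq_iff_eq_mul] at h5

private theorem cenB_inK_comm (x y : KK) : inK x * inK y = inK y * inK x := by
  rw [← inK_mul, ← inK_mul, mul_comm]

private theorem cenB_inK_alg (z : kk) : inK (algebraMap kk KK z) = algebraMap kk AA z := by
  rw [cenB_alg]
  apply QuaternionAlgebra.ext <;> simp [inK, mkA]

/-- The centralizer modulo scalars of an element of `K`. -/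
theorem cen_K (x : KKˣ) (hc : 1 < chl ((Psi (inKu x) : (Mat 3)ˣ) : Mat 3)) :
    (Subgroup.centralizer {Psi (inKu x)}).comap Psi = inKu.range := by
  obtain ⟨h1, h2⟩ := chl_gt hc
  have h3 : ∀ z : kk, ((inKu x : AAˣ) : AA) ≠ algebraMap kk AA z := by
    intro z hz
    apply h1
    rw [mem_ZZ]
    refine ⟨z, ?_, hz⟩
    intro h0
    rw [h0, map_zero] at hz
    exact (inKu x).ne_zero hz
  ext g
  rw [Subgroup.mem_comap, Subgroup.mem_centralizer_singleton_iff, MonoidHom.mem_range]
  constructor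
  · intro hg
    have h4 : Psi (g * inKu x * g⁻¹) = Psi (inKu x) := by
      rw [map_mul, map_mul, map_inv]
      rw [hg, mul_inv_cancel_right]
    have h5 := cen_psi h2 h4
    have h6 : (g : AA) * ((inKu x : AAˣ) : AA) = ((inKu x : AAˣ) : AA) * (g : AA) := by
      rw [← Units.val_mul, ← Units.val_mul, h5]
    obtain ⟨a, b, h7⟩ := cen_lin h3 h6
    have h8 : (g : AA) = inK (algebraMap kk KK a + algebraMap kk KK b * (x : KK)) := by
      rw [h7, inK_add, inK_mul, cenB_inK_alg, cenB_inK_alg]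
      rfl
    have h9 : algebraMap kk KK a + algebraMap kk KK b * (x : KK) ≠ 0 := by
      intro h0
      rw [h0] at h8
      apply g.ne_zero
      rw [h8]
      apply QuaternionAlgebra.ext <;> simp [inK, mkA]
    refine ⟨Units.mk0 _ h9, ?_⟩
    apply Units.ext
    rw [h8]
    rfl
  · rintro ⟨y, rfl⟩
    rw [← map_mul, ← map_mul, ← map_mul, ← map_mul, mul_comm]

private theorem cenB_trd_inK (x : KK) : algebraMap kk KK (trd (inK x)) = x + star x := by
  rw [star_KK]
  apply QuadraticAlgebra.ext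
  · simp only [trd, inK, mkA, QuadraticAlgebra.algebraMap_re, QuadraticAlgebra.re_add]
    ring
  · simp only [trd, inK, mkA, QuadraticAlgebra.algebraMap_im, QuadraticAlgebra.im_add]
    ring

private theorem cenB_nrd_smul (z : kk) (g : AA) :
    nrd (algebraMap kk AA z * g) = z ^ 2 * nrd g := by
  rw [nrd_mul]
  congr 1
  rw [cenB_alg]
  simp [nrd, NK, xp, yp]

private theorem cenB_nrd_conj (g h : AAˣ) : nrd ((h * g * h⁻¹ : AAˣ) : AA) = nrd (g : AA) := by
  have h3 := nrd_mul (h : AA) ((h⁻¹ : AAˣ) : AA)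
  rw [Units.mul_inv, nrd_one] at h3
  rw [Units.val_mul, Units.val_mul, nrd_mul, nrd_mul]
  linear_combination (-(nrd (g : AA))) * h3

/-- Classes of elements of `K`. -/
theorem class_K (x y : KKˣ) (g : AAˣ) (h : Psi (g * inKu x * g⁻¹) = Psi (inKu y)) :
    ∃ z : kk, z ≠ 0 ∧ ((y : KK) = algebraMap kk KK z * x ∨ (y : KK) = algebraMap kk KK z * star (x : KK)) := by
  obtain ⟨z, hz, h1⟩ := cenB_scalar h.symm
  refine ⟨z, hz, ?_⟩
  have h2 := congrArg trd h1
  have h3 := congrArg nrd h1
  rw [cenB_trd_smul, cenB_trd_conj] at h2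
  rw [cenB_nrd_smul, cenB_nrd_conj] at h3
  have ey : ((inKu y : AAˣ) : AA) = inK (y : KK) := rfl
  have ex : ((inKu x : AAˣ) : AA) = inK (x : KK) := rfl
  rw [ey, ex] at h2 h3
  have h4 := congrArg (algebraMap kk KK) h2
  rw [map_mul, cenB_trd_inK, cenB_trd_inK] at h4
  rw [nrd_inK, nrd_inK] at h3
  have h5 := congrArg (algebraMap kk KK) h3
  rw [map_mul, map_pow, ← mul_star_KK, ← mul_star_KK] at h5
  have h6 : ((y : KK) - algebraMap kk KK z * x) * ((y : KK) - algebraMap kk KK z * star (x : KK)) =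
      0 := by
    linear_combination (y : KK) * h4 - h5
  rcases mul_eq_zero.1 h6 with h7 | h7
  · exact Or.inl (sub_eq_zero.1 h7)
  · exact Or.inr (sub_eq_zero.1 h7)

/-- Conversely `j x j⁻¹ = σ x`. -/
theorem conj_star (x y : KKˣ) (h : (y : KK) = star (x : KK)) :
    ∃ g : AAˣ, g * inKu x * g⁻¹ = inKu y := by
  have h0 : mkA 0 1 ≠ 0 := by
    intro h
    have := congrArg QuaternionAlgebra.imJ h
    simp [mkA] at this
  obtain ⟨g, hg⟩ := exists_unit h0
  refine ⟨g, ?_⟩
  rw [mul_inv_eq_iff_eq_mul]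
  apply Units.ext
  rw [Units.val_mul, Units.val_mul, hg]
  show mkA 0 1 * mkA (x : KK) 0 = mkA (y : KK) 0 * mkA 0 1
  rw [mkA_mul, mkA_mul, h]
  simp

end

end Pool.Agent.Work.MP_14c213_gt
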