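import Pool.Agent.Work.MP_14c213_gt.B.S4b

/-!
Congruences at a ramified (inert) place for elements w of K with v(NK w) = 1 (this holds for all
w = x/σ(x)). cg is an equivalence relation compatible with multiplication. ww is multiplicative modulo
v on UU v (xp_mul: xp(gh) = xp g xp h (1 + δ), v(NK δ) < 1), and is inverted by conjugation with
elements of odd valuation (write them as inK x * j * u or compute directly).
-/

namespace Pool.Agent.Work.MP_14c213_gt

open Matrix IsDedekindDomain
open scoped Matrix NumberField QuadraticAlgebra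

noncomputable section

private theorem cgb_NK_zero : NK 0 = 0 := by simp [NK]

private theorem cgb_NK_neg (x : KK) : NK (-x) = NK x := by
  simp only [NK, QuadraticAlgebra.re_neg, QuadraticAlgebra.im_neg]
  ring

private theorem cgb_NK_div (x y : KK) : NK (x / y) = NK x / NK y := by
  by_cases hy : y = 0
  · rw [hy, div_zero, cgb_NK_zero, div_zero]
  · rw [eq_div_iff (NK_ne hy), ← NK_mul, div_mul_cancel₀ _ hy]

private theorem cgb_NK_inv (x : KK) : NK x⁻¹ = (NK x)⁻¹ := by
  rw [inv_eq_one_div, cgb_NK_div, NK_one, one_div]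

private theorem cgb_star_ne {x : KK} (hx : x ≠ 0) : star x ≠ 0 := by
  intro h
  exact hx (star_eq_zero.1 h)

private theorem cgb_val_pos (v : Pl) {x : kk} (hx : x ≠ 0) : 0 < v.valuation kk x :=
  zero_lt_iff.2 ((Valuation.ne_zero_iff _).2 hx)

theorem cg_refl (v : Pl) (x : KK) : cg v x x := by
  unfold cg
  rw [sub_self, cgb_NK_zero, map_zero]
  exact zero_lt_one

theorem cg_symm {v : Pl} {x y : KK} (h : cg v x y) : cg v y x := by
  unfold cg at *
  rw [← neg_sub, cgb_NK_neg]
  exact h

theorem cg_trans {v : Pl} (hv : v ∈ SS4) {x y z : KK} (h : cg v x y) (h' : cg v y z) :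
    cg v x z := by
  unfold cg at *
  have e : x - z = (x - y) + (y - z) := by ring
  rw [e]
  exact lt_of_le_of_lt (inert_add v hv _ _) (max_lt h h')

theorem cg_mul {v : Pl} (hv : v ∈ SS4) {x y x' y' : KK} (hx : v.valuation kk (NK x) ≤ 1)
    (hy' : v.valuation kk (NK y') ≤ 1) (h : cg v x x') (h' : cg v y y') : cg v (x * y) (x' * y') := by
  unfold cg at *
  have e : x * y - x' * y' = (x - x') * y' + x * (y - y') := by ring
  rw [e]
  refine lt_of_le_of_lt (inert_add v hv _ _) (max_lt ?_ ?_)
  · rw [NK_mul, map_mul]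
    exact lt_of_le_of_lt (mul_le_of_le_one_right' hy') h
  · rw [NK_mul, map_mul]
    exact lt_of_le_of_lt (mul_le_of_le_one_left' hx) h'

theorem cg_inv {v : Pl} (hv : v ∈ SS4) {x y : KK} (hx : NK x = 1) (hy : NK y = 1) (h : cg v x y) :
    cg v x⁻¹ y⁻¹ := by
  have hx0 : x ≠ 0 := by
    rintro rfl
    rw [cgb_NK_zero] at hx
    exact zero_ne_one hx
  have hy0 : y ≠ 0 := by
    rintro rfl
    rw [cgb_NK_zero] at hy
    exact zero_ne_one hy
  have e : x⁻¹ - y⁻¹ = (y - x) / (x * y) := by
    field_simp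
  unfold cg
  rw [e, cgb_NK_div, NK_mul, hx, hy, mul_one, div_one]
  exact cg_symm h

theorem NK_ww {g : AA} (hg : xp g ≠ 0) : NK (ww g) = 1 := by
  rw [ww, cgb_NK_div, NK_star, div_self (NK_ne hg)]

/-- elements close to one -/
private theorem cgb_close {v : Pl} (hv : v ∈ SS4) {d : KK} (hd : v.valuation kk (NK d) < 1) :
    v.valuation kk (NK (1 + d)) = 1 ∧ 1 + d ≠ 0 ∧ cg v ((1 + d) / star (1 + d)) 1 := by
  have h1 : v.valuation kk (NK (1 + d)) ≤ 1 := by
    refine (inert_add v hv _ _).trans (max_le ?_ hd.le)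
    rw [NK_one, map_one]
  have h2 : 1 ≤ v.valuation kk (NK (1 + d)) := by
    have h3 := inert_add v hv (1 + d) (-d)
    have e : (1 : KK) + d + -d = 1 := by ring
    rw [e, NK_one, map_one, cgb_NK_neg] at h3
    rcases le_max_iff.1 h3 with h4 | h4
    · exact h4
    · exact absurd hd (not_lt.2 h4)
  have h3 : v.valuation kk (NK (1 + d)) = 1 := le_antisymm h1 h2
  have h4 : 1 + d ≠ 0 := by
    intro h0
    rw [h0, cgb_NK_zero, map_zero] at h3
    exact zero_ne_one h3
  refine ⟨h3, h4, ?_⟩
  unfold cg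
  have h5 : star (1 + d) ≠ 0 := cgb_star_ne h4
  have e : (1 + d) / star (1 + d) - 1 = (d - star d) / star (1 + d) := by
    rw [div_sub_one h5]
    congr 1
    rw [star_add, star_one]
    ring
  rw [e, cgb_NK_div, map_div₀, NK_star, h3, div_one]
  have e2 : d - star d = d + -star d := by ring
  rw [e2]
  refine lt_of_le_of_lt (inert_add v hv _ _) (max_lt hd ?_)
  rw [cgb_NK_neg, NK_star]
  exact hd

private theorem cgb_star_alg (c : kk) : star (algebraMap kk KK c) = algebraMap kk KK c := by
  rw [star_KK]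
  apply QuadraticAlgebra.ext <;> simp

/-- dominant terms -/
private theorem cgb_dom {v : Pl} (hv : v ∈ SS4) {X Y : KK} {c : kk} (hc : c ≠ 0) (hY : Y ≠ 0)
    (h : v.valuation kk (NK (X - algebraMap kk KK c * Y)) <
      v.valuation kk (NK (algebraMap kk KK c * Y))) :
    X ≠ 0 ∧ cg v (X / star X) (Y / star Y) := by
  have hc' : algebraMap kk KK c ≠ 0 := (map_ne_zero _).2 hc
  have hcY : algebraMap kk KK c * Y ≠ 0 := mul_ne_zero hc' hY
  set d : KK := (X - algebraMap kk KK c * Y) / (algebraMap kk KK c * Y) with hd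
  have hd1 : v.valuation kk (NK d) < 1 := by
    rw [hd, cgb_NK_div, map_div₀, div_lt_one₀ (cgb_val_pos v (NK_ne hcY))]
    exact h
  obtain ⟨h1, h2, h3⟩ := cgb_close hv hd1
  have hX : X = algebraMap kk KK c * Y * (1 + d) := by
    rw [hd]
    field_simp
    ring
  have hX0 : X ≠ 0 := by
    rw [hX]
    exact mul_ne_zero hcY h2
  refine ⟨hX0, ?_⟩
  have hsY : star Y ≠ 0 := cgb_star_ne hY
  have hs1 : star (1 + d) ≠ 0 := cgb_star_ne h2
  have e : X / star X = (Y / star Y) * ((1 + d) / star (1 + d)) := by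
    rw [hX, star_mul, star_mul, cgb_star_alg]
    field_simp
  have e2 : Y / star Y = (Y / star Y) * 1 := by rw [mul_one]
  rw [e]
  conv_rhs => rw [e2]
  refine cg_mul hv ?_ ?_ (cg_refl v _) h3
  · rw [cgb_NK_div, NK_star, div_self (NK_ne hY), map_one]
  · rw [NK_one, map_one]

theorem ww_mul {v : Pl} (hv : v ∈ SS4) {g h : AAˣ} (hg : g ∈ UU v) (hh : h ∈ UU v) :
    cg v (ww ((g * h : AAˣ) : AA)) (ww (g : AA) * ww (h : AA)) := by
  have hg' := (mem_UU_ram v hv g).1 hg
  have hh' := (mem_UU_ram v hv h).1 hh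
  have hg0 := xp_ne v hv g hg
  have hh0 := xp_ne v hv h hh
  have h1 : v.valuation kk (NK (xp ((g * h : AAˣ) : AA) -
      algebraMap kk KK 1 * (xp (g : AA) * xp (h : AA)))) <
      v.valuation kk (NK (algebraMap kk KK 1 * (xp (g : AA) * xp (h : AA)))) := by
    rw [Units.val_mul, xp_mul, map_one, one_mul, add_sub_cancel_left, NK_mul, NK_mul, NK_mul,
      NK_algebraMap, NK_star]
    have e : bq ^ 2 * (NK (yp (g : AA)) * NK (yp (h : AA))) =
        (bq * NK (yp (g : AA))) * (bq * NK (yp (h : AA))) := by ring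
    rw [e, map_mul (v.valuation kk) (bq * NK (yp (g : AA))),
      map_mul (v.valuation kk) (NK (xp (g : AA)))]
    exact mul_lt_mul'' hg' hh' zero_le zero_le
  have h2 := (cgb_dom hv one_ne_zero (mul_ne_zero hg0 hh0) h1).2
  have e : xp (g : AA) * xp (h : AA) / star (xp (g : AA) * xp (h : AA)) =
      ww (g : AA) * ww (h : AA) := by
    rw [ww, ww, star_mul, mul_comm (star (xp (h : AA))), div_mul_div_comm]
  rw [e] at h2
  exact h2

theorem ww_conj {v : Pl} (hv : v ∈ SS4) {g n : AAˣ} (hg : g ∈ UU v) (hn : n ∉ UU v) :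
    n⁻¹ * g * n ∈ UU v ∧ cg v (ww ((n⁻¹ * g * n : AAˣ) : AA)) (ww (g : AA))⁻¹ := by
  have hU : UU v = Uram v := by
    unfold UU
    rw [if_pos hv]
  constructor
  · rw [hU] at hg ⊢
    have hg' : Even (ord v (nrd (g : AA))) := hg
    show Even (ord v (nrd ((n⁻¹ * g * n : AAˣ) : AA)))
    have e : nrd ((n⁻¹ * g * n : AAˣ) : AA) = nrd (g : AA) := by
      have h1 := nrd_mul ((n⁻¹ : AAˣ) : AA) (n : AA)
      rw [Units.inv_mul, nrd_one] at h1
      rw [Units.val_mul, Units.val_mul, nrd_mul, nrd_mul]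
      linear_combination (-nrd (g : AA)) * h1
    rw [e]
    exact hg'
  -- the elements
  set x := xp (g : AA) with hx
  set y := yp (g : AA) with hy
  set p := xp (n : AA) with hp
  set q := yp (n : AA) with hq
  have hg' : v.valuation kk (bq * NK y) < v.valuation kk (NK x) := (mem_UU_ram v hv g).1 hg
  have hx0 : x ≠ 0 := xp_ne v hv g hg
  have hn1 : v.valuation kk (NK p) ≤ v.valuation kk (bq * NK q) := by
    by_contra hcon
    exact hn ((mem_UU_ram v hv n).2 (not_le.1 hcon))
  have hb0 : bq ≠ 0 := by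
    intro h
    have := congrArg QuadraticAlgebra.re h
    simp [bq] at this
  have hq0 : q ≠ 0 := by
    intro h
    rw [h, cgb_NK_zero, mul_zero, map_zero] at hn1
    have h1 : NK p = 0 := by
      have := le_antisymm hn1 zero_le
      rwa [map_eq_zero] at this
    have h2 : p = 0 := by
      by_contra h3
      exact NK_ne h3 h1
    have h3 : nrd (n : AA) = 0 := by
      rw [nrd, ← hp, ← hq, h, h2, cgb_NK_zero]
      ring
    exact nrd_ne n h3
  -- strict inequality, by parity
  have hordb : Odd (ord v bq) := by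
    obtain ⟨P2, P3, P17, P23, hS, -, -, -, -, -, -, -, -, o1, o2, o3, o4⟩ := S4_list
    rw [hS] at hv
    rcases hv with h | h | h | h
    · rw [h, o1]; exact odd_one
    · rw [h, o2]; exact odd_one
    · rw [h, o3]; exact odd_one
    · rw [Set.mem_singleton_iff.1 h, o4]; exact odd_one
  have hn2 : v.valuation kk (NK p) < v.valuation kk (bq * NK q) := by
    refine lt_of_le_of_ne hn1 fun heq => ?_
    have hp0 : p ≠ 0 := by
      intro h
      rw [h, cgb_NK_zero, map_zero] at heq
      have := (map_eq_zero (v.valuation kk)).1 heq.symm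
      exact mul_ne_zero hb0 (NK_ne hq0) this
    have h1 : ord v (NK p) = ord v (bq * NK q) := by
      unfold ord
      rw [heq]
    rw [ord_mul v hb0 (NK_ne hq0)] at h1
    have h2 := inert_even v hv hp0
    have h3 := inert_even v hv hq0
    rw [h1] at h2
    have h4 : Odd (ord v bq + ord v (NK q)) := hordb.add_even h3
    exact (Int.not_even_iff_odd.2 h4) h2
  -- the conjugate
  have hnn := nrd_ne n
  have hinv : ((n⁻¹ : AAˣ) : AA) = algebraMap kk AA (nrd (n : AA))⁻¹ * cj (n : AA) := by
    have h1 := (mul_cj (n : AA)).1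
    have h2 : ((n⁻¹ : AAˣ) : AA) * ((n : AA) * cj (n : AA)) = cj (n : AA) := by
      rw [← mul_assoc, Units.inv_mul, one_mul]
    rw [h1] at h2
    rw [← h2, Algebra.commutes (nrd (n : AA))⁻¹, mul_assoc, ← map_mul, mul_inv_cancel₀ hnn,
      map_one, mul_one]
  set X : KK := xp (cj (n : AA) * ((g : AA) * (n : AA))) with hX
  have hww : ww ((n⁻¹ * g * n : AAˣ) : AA) = X / star X := by
    have h1 : ((n⁻¹ * g * n : AAˣ) : AA) = algebraMap kk AA (nrd (n : AA))⁻¹ *
        (cj (n : AA) * ((g : AA) * (n : AA))) := by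
      rw [Units.val_mul, Units.val_mul, hinv]
      simp only [mul_assoc]
    have h2 : ∀ (c : kk) (a : AA), xp (algebraMap kk AA c * a) = algebraMap kk KK c * xp a := by
      intro c a
      rw [xp_mul]
      have e1 : xp (algebraMap kk AA c) = algebraMap kk KK c := by
        apply QuadraticAlgebra.ext <;> simp [xp]
      have e2 : yp (algebraMap kk AA c) = 0 := by
        apply QuadraticAlgebra.ext <;> simp [yp]
      rw [e1, e2]
      ring
    rw [ww, h1, h2, ← hX, star_mul, cgb_star_alg, mul_comm (star X)]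
    exact mul_div_mul_left _ _ ((map_ne_zero _).2 (inv_ne_zero hnn))
  have hXeq : X = algebraMap kk KK (-(bq * NK q)) * star x + (algebraMap kk KK (NK p) * x +
      algebraMap kk KK bq * (star p * star q * y + -(q * p * star y))) := by
    have e1 : xp (cj (n : AA)) = star p := rfl
    have e2 : yp (cj (n : AA)) = -q := rfl
    rw [hX, xp_mul, xp_mul, yp_mul, e1, e2, ← hx, ← hy, ← hp, ← hq, map_neg, map_mul,
      ← mul_star_KK q, ← mul_star_KK p, star_add, star_mul, star_mul, star_star]
    ring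
  have hdom : v.valuation kk (NK (X - algebraMap kk KK (-(bq * NK q)) * star x)) <
      v.valuation kk (NK (algebraMap kk KK (-(bq * NK q)) * star x)) := by
    rw [hXeq, add_sub_cancel_left]
    have hR : v.valuation kk (NK (algebraMap kk KK (-(bq * NK q)) * star x)) =
        v.valuation kk (bq * NK q) * v.valuation kk (bq * NK q) * v.valuation kk (NK x) := by
      rw [NK_mul, NK_algebraMap, NK_star, map_mul (v.valuation kk) _ (NK x), neg_sq, pow_two,
        map_mul (v.valuation kk) (bq * NK q)]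
    rw [hR]
    have hpos : 0 < v.valuation kk (bq * NK q) := cgb_val_pos v (mul_ne_zero hb0 (NK_ne hq0))
    have hxpos : 0 < v.valuation kk (NK x) := cgb_val_pos v (NK_ne hx0)
    refine lt_of_le_of_lt (inert_add v hv _ _) (max_lt ?_ ?_)
    · rw [NK_mul, NK_algebraMap, map_mul (v.valuation kk) _ (NK x), pow_two,
        map_mul (v.valuation kk) (NK p)]
      exact mul_lt_mul_of_pos_right (mul_lt_mul'' hn2 hn2 zero_le zero_le) hxpos
    · rw [NK_mul, NK_algebraMap, map_mul (v.valuation kk) (bq ^ 2)]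
      have h5 : v.valuation kk (NK (star p * star q * y + -(q * p * star y))) ≤
          v.valuation kk (NK p * NK q * NK y) := by
        refine (inert_add v hv _ _).trans (max_le ?_ ?_)
        · rw [NK_mul, NK_mul, NK_star, NK_star]
        · rw [cgb_NK_neg, NK_mul, NK_mul, NK_star, mul_comm (NK q)]
      refine lt_of_le_of_lt (mul_le_mul_right h5 _) ?_
      have e : bq ^ 2 * (NK p * NK q * NK y) = (NK p * (bq * NK q)) * (bq * NK y) := by ring
      rw [← map_mul (v.valuation kk) (bq ^ 2), e, map_mul (v.valuation kk) _ (bq * NK y),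
        map_mul (v.valuation kk) (NK p)]
      exact mul_lt_mul'' (mul_lt_mul_of_pos_right hn2 hpos) hg' zero_le zero_le
  have h6 := (cgb_dom hv (neg_ne_zero.2 (mul_ne_zero hb0 (NK_ne hq0))) (cgb_star_ne hx0) hdom).2
  rw [hww]
  have e : (ww (g : AA))⁻¹ = star x / star (star x) := by
    rw [ww, inv_div, star_star]
  rw [e]
  exact h6

/-- Trace and norm determine the residue of ww up to inversion. -/
theorem ww_trace {v : Pl} (hv : v ∈ SS4) {g : AAˣ} (hg : g ∈ UU v) :
    cg v (algebraMap kk KK (trd (g : AA) ^ 2 / nrd (g : AA) - 2)) (ww (g : AA) + (ww (g : AA))⁻¹) := by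
  set x := xp (g : AA) with hx
  set y := yp (g : AA) with hy
  have hg' : v.valuation kk (bq * NK y) < v.valuation kk (NK x) := (mem_UU_ram v hv g).1 hg
  have hx0 : x ≠ 0 := xp_ne v hv g hg
  have hsx : star x ≠ 0 := cgb_star_ne hx0
  have hN0 : NK x ≠ 0 := NK_ne hx0
  have hn0 : nrd (g : AA) ≠ 0 := nrd_ne g
  have htr : algebraMap kk KK (trd (g : AA)) = x + star x := by
    rw [star_KK]
    apply QuadraticAlgebra.ext
    · simp only [trd, QuadraticAlgebra.algebraMap_re, QuadraticAlgebra.re_add, hx, xp]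
      ring
    · simp only [QuadraticAlgebra.algebraMap_im, QuadraticAlgebra.im_add, hx, xp]
      ring
  have e1 : ww (g : AA) + (ww (g : AA))⁻¹ =
      algebraMap kk KK (trd (g : AA) ^ 2 / NK x - 2) := by
    have h1 : algebraMap kk KK (NK x) ≠ 0 := (map_ne_zero _).2 hN0
    rw [map_sub, map_div₀, map_pow, htr, ← mul_star_KK, ww, ← hx, inv_div]
    rw [map_ofNat]
    field_simp
    ring
  have e2 : trd (g : AA) ^ 2 / nrd (g : AA) - 2 - (trd (g : AA) ^ 2 / NK x - 2) =
      trd (g : AA) ^ 2 * (bq * NK y) / (nrd (g : AA) * NK x) := by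
    have h1 : NK x - nrd (g : AA) = bq * NK y := by
      rw [nrd, ← hx, ← hy]
      ring
    rw [← h1]
    field_simp
    ring
  unfold cg
  rw [e1, ← map_sub, NK_algebraMap, e2]
  have hvn : v.valuation kk (nrd (g : AA)) = v.valuation kk (NK x) := by
    rw [nrd_val v hv, ← hx, ← hy]
    exact max_eq_left hg'.le
  have hxpos : 0 < v.valuation kk (NK x) := cgb_val_pos v hN0
  have htle : v.valuation kk (trd (g : AA) ^ 2) ≤ v.valuation kk (NK x) := by
    rw [← NK_algebraMap, htr]
    refine (inert_add v hv _ _).trans (max_le le_rfl ?_)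
    rw [NK_star]
  have hlt : v.valuation kk (trd (g : AA) ^ 2 * (bq * NK y) / (nrd (g : AA) * NK x)) < 1 := by
    rw [map_div₀, div_lt_one₀ (cgb_val_pos v (mul_ne_zero hn0 hN0)),
      map_mul (v.valuation kk) (nrd (g : AA)), hvn, map_mul (v.valuation kk) _ (bq * NK y)]
    exact lt_of_le_of_lt (mul_le_mul_left htle _) (mul_lt_mul_of_pos_left hg' hxpos)
  rw [map_pow]
  exact pow_lt_one₀ zero_le hlt two_ne_zero

end

end Pool.Agent.Work.MP_14c213_gt
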