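import Pool.Agent.Work.MP_14c213_gt.B.CgB

/-!
The characters. Residue fields: 𝔽₄ at 2 (w³ = 1 for norm one elements), 𝔽₂₈₉ at 17 (w¹⁸ = 1), 𝔽₉ at 3
(w⁴ = 1), 𝔽₅₂₉ at 23 (w²⁴ = 1); norm one elements form a cyclic group of order p + 1, so w, w⁶, w, w⁶ are
powers of ζ, ζ, u, u⁶ respectively (orders 3, 3, 4, 4). Everything can be done by finite computation in
ZMod p × ZMod p after reducing to integral coordinates (S4_res); at 3 use the basis 1, ε.
Uniqueness of the exponent: ζ ≢ 1 mod 2, 17; u² ≡ -1 mod 3, u¹² ≡ -1 mod 23.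
-/

namespace Pool.Agent.Work.MP_14c213_gt

open Matrix IsDedekindDomain
open scoped Matrix NumberField QuadraticAlgebra

noncomputable section

/-- `(v, m, η, n)` is one of the four characters: the exponent `m`, the root of unity `η`, its
order `n`. -/
structure IsCh (v : Pl) (m : ℕ) (η : KK) (n : ℕ) : Prop where
  mem : v ∈ SS4
  cases : ((2 : 𝓞 kk) ∈ v.asIdeal ∧ m = 1 ∧ η = zeta ∧ n = 3) ∨
    ((17 : 𝓞 kk) ∈ v.asIdeal ∧ m = 6 ∧ η = zeta ∧ n = 3) ∨
    ((3 : 𝓞 kk) ∈ v.asIdeal ∧ m = 1 ∧ η = uu ∧ n = 4) ∨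
    ((23 : 𝓞 kk) ∈ v.asIdeal ∧ m = 6 ∧ η = uu ^ 6 ∧ n = 4)

/-! ### The basis `1, ε` -/

/-- The ring `ℤ[ε]`. -/
private abbrev Ze := QuadraticAlgebra ℤ 1 1

/-- The quadratic algebra `𝔽ₚ[ε]`. -/
private abbrev Fe (p : ℕ) := QuadraticAlgebra (ZMod p) 1 1

/-- The embedding of `ℤ[ε]`. -/
private def fK : Ze →+* KK where
  toFun x := (x.re : KK) + (x.im : KK) * eps
  map_zero' := by simp
  map_one' := by simp
  map_add' x y := by simp only [QuadraticAlgebra.re_add, QuadraticAlgebra.im_add]; push_cast; ring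
  map_mul' x y := by
    simp only [QuadraticAlgebra.re_mul, QuadraticAlgebra.im_mul]
    push_cast
    linear_combination (-(x.im : KK) * y.im) * eps_sq

/-- The reduction of `ℤ[ε]`. -/
private def gF (p : ℕ) : Ze →+* Fe p where
  toFun x := ⟨x.re, x.im⟩
  map_zero' := by ext <;> simp
  map_one' := by ext <;> simp
  map_add' x y := by ext <;> simp
  map_mul' x y := by ext <;> simp

/-- The elements `a + b ε` of `K`. -/
private def EE (a b : kk) : KK := ⟨a + b * ⟨2 / 3, -1 / 3⟩, b * ⟨1 / 3, -2 / 3⟩⟩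

private theorem EE_sub (a b c d : kk) : EE a b - EE c d = EE (a - c) (b - d) := by
  simp only [EE]
  ext1
  · simp only [QuadraticAlgebra.re_sub]; ring
  · simp only [QuadraticAlgebra.im_sub]; ring

private theorem NK_EE (a b : kk) : NK (EE a b) = a ^ 2 + a * b - b ^ 2 := by
  have h1 : (2 : kk) * ⟨2 / 3, -1 / 3⟩ - ⟨1 / 3, -2 / 3⟩ = 1 := by
    ext <;> simp [QuadraticAlgebra.re_ofNat, QuadraticAlgebra.im_ofNat] <;> norm_num
  have h2 : (⟨2 / 3, -1 / 3⟩ : kk) ^ 2 - ⟨2 / 3, -1 / 3⟩ * ⟨1 / 3, -2 / 3⟩ +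
      (⟨1 / 3, -2 / 3⟩ : kk) ^ 2 = -1 := by
    ext <;> simp [pow_two] <;> norm_num
  simp only [NK, EE]
  linear_combination (a * b) * h1 + b ^ 2 * h2

private theorem EE_surj (x : KK) :
    x = EE (x.re - x.im * ⟨2 / 5, 1 / 5⟩) (x.im * ⟨-1 / 5, 2 / 5⟩) := by
  have h1 : (⟨-1 / 5, 2 / 5⟩ : kk) * ⟨2 / 3, -1 / 3⟩ = ⟨2 / 5, 1 / 5⟩ := by
    ext <;> simp <;> norm_num
  have h2 : (⟨-1 / 5, 2 / 5⟩ : kk) * ⟨1 / 3, -2 / 3⟩ = 1 := by
    ext <;> simp <;> norm_num
  ext1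
  · change x.re = x.re - x.im * ⟨2 / 5, 1 / 5⟩ + x.im * ⟨-1 / 5, 2 / 5⟩ * ⟨2 / 3, -1 / 3⟩
    linear_combination (-x.im) * h1
  · change x.im = x.im * ⟨-1 / 5, 2 / 5⟩ * ⟨1 / 3, -2 / 3⟩
    linear_combination (-x.im) * h2

private theorem fK_EE (x : Ze) : fK x = EE (x.re : kk) (x.im : kk) := by
  change (x.re : KK) + (x.im : KK) * eps = _
  ext1
  · simp [EE, eps]
  · simp [EE, eps]

/-! ### Residues -/

/-- The residue field of `v` is `𝔽ₚ`, and `ε` generates a quadratic extension. -/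
private structure Rs (v : Pl) (p : ℕ) : Prop where
  int : ∀ n : ℤ, v.valuation kk (n : kk) < 1 ↔ (p : ℤ) ∣ n
  ex : ∀ x : kk, v.valuation kk x ≤ 1 → ∃ n : ℤ, v.valuation kk (x - n) < 1
  an : ∀ s : ZMod p, s ^ 2 + s - 1 ≠ 0 ∧ 1 + s - s ^ 2 ≠ 0

private theorem cast_eq (n : ℤ) : (n : kk) = ⟨n, 0⟩ := by
  ext
  · rw [QuadraticAlgebra.re_intCast]
  · rw [QuadraticAlgebra.im_intCast]

private theorem Rs_of {v : Pl} {p : ℕ} {t : ℤ}
    (h : ∀ a b : ℤ, v.valuation kk ⟨a, b⟩ < 1 ↔ (p : ℤ) ∣ a + t * b)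
    (an : ∀ s : ZMod p, s ^ 2 + s - 1 ≠ 0 ∧ 1 + s - s ^ 2 ≠ 0) : Rs v p := by
  refine ⟨fun n => ?_, fun x hx => ?_, an⟩
  · have := h n 0
    rw [cast_eq]
    simpa using this
  · obtain ⟨a, ha⟩ := v.exists_valuation_sub_lt_of_integer hx 1
    obtain ⟨c, d, hcd⟩ := (int_iff (algebraMap (𝓞 kk) kk a)).1
      (NumberField.RingOfIntegers.isIntegral_coe a)
    refine ⟨c + t * d, ?_⟩
    have e : x - ((c + t * d : ℤ) : kk) = -(algebraMap (𝓞 kk) kk a - x) +
        (⟨((-t * d : ℤ) : ℚ), (d : ℚ)⟩ : kk) := by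
      have e2 : (⟨((-t * d : ℤ) : ℚ), (d : ℚ)⟩ : kk) = ⟨c, d⟩ - ((c + t * d : ℤ) : kk) := by
        rw [cast_eq]
        ext
        · simp
        · simp
      rw [e2, hcd]
      ring
    rw [e]
    refine Valuation.map_add_lt _ ?_ ((h _ _).2 ?_)
    · rw [Valuation.map_neg]
      exact ha
    · rw [neg_mul, neg_add_cancel]
      exact dvd_zero _

private theorem val_cast (v : Pl) (n : ℤ) : v.valuation kk (n : kk) ≤ 1 := by
  rw [cast_eq]
  simpa using val_int v n 0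

private theorem le_of_lt_add {v : Pl} {x y : kk} (h : v.valuation kk (x - y) < 1)
    (hy : v.valuation kk y ≤ 1) : v.valuation kk x ≤ 1 := by
  have := (v.valuation kk).map_add_le h.le hy
  rwa [sub_add_cancel] at this

private theorem mul_lt {v : Pl} {x y : kk} (h : v.valuation kk x < 1)
    (hy : v.valuation kk y ≤ 1) : v.valuation kk (x * y) < 1 := by
  rw [map_mul]
  exact mul_lt_one_of_lt_of_le h hy

/-- The key step of the anisotropy. -/
private theorem aux_root {v : Pl} {p : ℕ} (R : Rs v p) {s : kk} (hs : v.valuation kk s ≤ 1) :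
    ¬ v.valuation kk (s ^ 2 + s - 1) < 1 ∧ ¬ v.valuation kk (1 + s - s ^ 2) < 1 := by
  obtain ⟨n, hn⟩ := R.ex s hs
  have hnv := val_cast v n
  have h2 : v.valuation kk (s + n + 1) ≤ 1 :=
    (v.valuation kk).map_add_le ((v.valuation kk).map_add_le hs hnv) (by simp)
  have h3 : v.valuation kk (1 - (s + n)) ≤ 1 := by
    have h := (v.valuation kk).map_add_le hs hnv
    rw [← Valuation.mem_integer_iff] at *
    exact Subring.sub_mem _ (Subring.one_mem _) h
  constructor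
  · intro h
    apply (R.an n).1
    have h4 : v.valuation kk ((n ^ 2 + n - 1 : ℤ) : kk) < 1 := by
      have e : ((n ^ 2 + n - 1 : ℤ) : kk) = (s ^ 2 + s - 1) + -((s - n) * (s + n + 1)) := by
        push_cast; ring
      rw [e]
      refine Valuation.map_add_lt _ h ?_
      rw [Valuation.map_neg]
      exact mul_lt hn h2
    have h5 := (ZMod.intCast_zmod_eq_zero_iff_dvd _ p).2 ((R.int _).1 h4)
    push_cast at h5
    exact h5
  · intro h
    apply (R.an n).2
    have h4 : v.valuation kk ((1 + n - n ^ 2 : ℤ) : kk) < 1 := by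
      have e : ((1 + n - n ^ 2 : ℤ) : kk) = (1 + s - s ^ 2) + -((s - n) * (1 - (s + n))) := by
        push_cast; ring
      rw [e]
      refine Valuation.map_add_lt _ h ?_
      rw [Valuation.map_neg]
      exact mul_lt hn h3
    have h5 := (ZMod.intCast_zmod_eq_zero_iff_dvd _ p).2 ((R.int _).1 h4)
    push_cast at h5
    exact h5

private theorem aniso {v : Pl} {p : ℕ} (R : Rs v p) (a b : kk) :
    v.valuation kk (a ^ 2 + a * b - b ^ 2) = max (v.valuation kk a) (v.valuation kk b) ^ 2 := by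
  rcases le_total (v.valuation kk b) (v.valuation kk a) with h | h
  · rw [max_eq_left h]
    by_cases ha : a = 0
    · subst ha
      have hb : b = 0 := by simpa using h
      subst hb
      simp
    · have hs : v.valuation kk (b / a) ≤ 1 := by
        rw [map_div₀]
        exact div_le_one_of_le₀ h zero_le
      have h1 := not_lt.1 (aux_root R hs).2
      have h2 : v.valuation kk (1 + b / a - (b / a) ^ 2) ≤ 1 := by
        rw [← Valuation.mem_integer_iff] at *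
        exact Subring.sub_mem _ (Subring.add_mem _ (Subring.one_mem _) hs) (Subring.pow_mem _ hs 2)
      have e : a ^ 2 + a * b - b ^ 2 = a ^ 2 * (1 + b / a - (b / a) ^ 2) := by
        field_simp
      rw [e, map_mul, le_antisymm h2 h1, mul_one, map_pow]
  · rw [max_eq_right h]
    by_cases hb : b = 0
    · subst hb
      have ha : a = 0 := by simpa using h
      subst ha
      simp
    · have hs : v.valuation kk (a / b) ≤ 1 := by
        rw [map_div₀]
        exact div_le_one_of_le₀ h zero_le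
      have h1 := not_lt.1 (aux_root R hs).1
      have h2 : v.valuation kk ((a / b) ^ 2 + a / b - 1) ≤ 1 := by
        rw [← Valuation.mem_integer_iff] at *
        exact Subring.sub_mem _ (Subring.add_mem _ (Subring.pow_mem _ hs 2) hs) (Subring.one_mem _)
      have e : a ^ 2 + a * b - b ^ 2 = b ^ 2 * ((a / b) ^ 2 + a / b - 1) := by
        field_simp
      rw [e, map_mul, le_antisymm h2 h1, mul_one, map_pow]

private theorem cg_EE {v : Pl} {p : ℕ} (R : Rs v p) (a b c d : kk) :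
    cg v (EE a b) (EE c d) ↔ v.valuation kk (a - c) < 1 ∧ v.valuation kk (b - d) < 1 := by
  rw [cg, EE_sub, NK_EE, aniso R, ← max_lt_iff]
  exact pow_lt_one_iff two_ne_zero

private theorem cg_fK {v : Pl} {p : ℕ} (R : Rs v p) (x y : Ze) :
    cg v (fK x) (fK y) ↔ gF p x = gF p y := by
  rw [fK_EE, fK_EE, cg_EE R, ← Int.cast_sub, ← Int.cast_sub, R.int, R.int,
    ← ZMod.intCast_zmod_eq_zero_iff_dvd, ← ZMod.intCast_zmod_eq_zero_iff_dvd]
  push_cast
  rw [sub_eq_zero, sub_eq_zero]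
  constructor
  · rintro ⟨h1, h2⟩
    exact QuadraticAlgebra.ext h1 h2
  · intro h
    exact ⟨congrArg QuadraticAlgebra.re h, congrArg QuadraticAlgebra.im h⟩

private theorem ex_red {v : Pl} {p : ℕ} (R : Rs v p) {w : KK} (hw : NK w = 1) :
    ∃ x : Ze, cg v w (fK x) ∧ (x.re : ZMod p) ^ 2 + x.re * x.im - (x.im : ZMod p) ^ 2 = 1 := by
  obtain ⟨a, b, rfl⟩ : ∃ a b, w = EE a b := ⟨_, _, EE_surj w⟩
  rw [NK_EE] at hw
  have h1 := aniso R a b
  rw [hw, map_one] at h1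
  have h2 : max (v.valuation kk a) (v.valuation kk b) ≤ 1 := by
    by_contra hc
    exact absurd h1.symm (one_lt_pow₀ (not_le.1 hc) two_ne_zero).ne'
  obtain ⟨m, hm⟩ := R.ex a ((le_max_left _ _).trans h2)
  obtain ⟨n, hn⟩ := R.ex b ((le_max_right _ _).trans h2)
  have ha := (le_max_left _ _).trans h2
  have hb := (le_max_right _ _).trans h2
  refine ⟨⟨m, n⟩, ?_, ?_⟩
  · rw [fK_EE, cg_EE R]
    exact ⟨hm, hn⟩
  · have h3 : v.valuation kk ((m ^ 2 + m * n - n ^ 2 - 1 : ℤ) : kk) < 1 := by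
      have e : ((m ^ 2 + m * n - n ^ 2 - 1 : ℤ) : kk) =
          -((a - m) * (a + m + b)) + -((b - n) * (m - (b + n))) := by
        push_cast
        linear_combination hw
      have hm1 := val_cast v m
      have hn1 := val_cast v n
      rw [e]
      refine Valuation.map_add_lt _ ?_ ?_
      · rw [Valuation.map_neg]
        refine mul_lt hm ?_
        rw [← Valuation.mem_integer_iff] at *
        exact Subring.add_mem _ (Subring.add_mem _ ha hm1) hb
      · rw [Valuation.map_neg]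
        refine mul_lt hn ?_
        rw [← Valuation.mem_integer_iff] at *
        exact Subring.sub_mem _ hm1 (Subring.add_mem _ hb hn1)
    have h4 := (ZMod.intCast_zmod_eq_zero_iff_dvd _ p).2 ((R.int _).1 h3)
    push_cast at h4
    exact sub_eq_zero.1 h4

/-! ### Powers -/

private theorem NK_zero : NK 0 = 0 := by simp [NK]

/-- The norm as a homomorphism. -/
private def NKh : KK →*₀ kk where
  toFun := NK
  map_zero' := NK_zero
  map_one' := NK_one
  map_mul' := NK_mul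

private theorem NK_pow (x : KK) (n : ℕ) : NK (x ^ n) = NK x ^ n := map_pow NKh x n

private theorem NK_zpow (x : KK) (n : ℤ) : NK (x ^ n) = NK x ^ n := map_zpow₀ NKh x n

private theorem NK_inv (x : KK) : NK x⁻¹ = (NK x)⁻¹ := map_inv₀ NKh x

private theorem ne_of_NK {x : KK} (h : NK x = 1) : x ≠ 0 := by
  rintro rfl
  rw [NK_zero] at h
  exact zero_ne_one h

private theorem cg_pow {v : Pl} (hv : v ∈ SS4) {x y : KK} (hx : v.valuation kk (NK x) ≤ 1)
    (hy : v.valuation kk (NK y) ≤ 1) (h : cg v x y) (n : ℕ) : cg v (x ^ n) (y ^ n) := by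
  induction n with
  | zero => rw [pow_zero, pow_zero]; exact cg_refl v 1
  | succ n ih =>
    rw [pow_succ, pow_succ]
    refine cg_mul hv ?_ hy ih h
    rw [NK_pow, map_pow]
    exact pow_le_one₀ zero_le hx

private theorem val_NK {v : Pl} {x : KK} (h : NK x = 1) : v.valuation kk (NK x) ≤ 1 := by
  rw [h, map_one]

private theorem cg_mul1 {v : Pl} (hv : v ∈ SS4) {x y x' y' : KK} (hx : NK x = 1)
    (hy' : NK y' = 1) (h : cg v x x') (h' : cg v y y') : cg v (x * y) (x' * y') :=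
  cg_mul hv (val_NK hx) (val_NK hy') h h'

private theorem cg_zpow_one {v : Pl} (hv : v ∈ SS4) {x : KK} (hx : NK x = 1) (h : cg v x 1)
    (n : ℤ) : cg v (x ^ n) 1 := by
  have key : ∀ n : ℕ, cg v (x ^ n) 1 := fun n => by
    have := cg_pow hv (val_NK hx) (val_NK NK_one) h n
    rwa [one_pow] at this
  obtain ⟨k, rfl | rfl⟩ := n.eq_nat_or_neg
  · rw [zpow_natCast]
    exact key k
  · rw [_root_.zpow_neg, zpow_natCast]
    have := cg_inv hv (x := x ^ k) (y := 1) (by rw [NK_pow, hx, one_pow]) NK_one (key k)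
    rwa [inv_one] at this

/-- The finite data of a character. -/
private structure Dt (v : Pl) (m : ℕ) (η : KK) (n : ℕ) (p : ℕ) (z : Ze) : Prop where
  rs : Rs v p
  pos : 0 < n
  cgz : cg v η (fK z)
  nk : NK η = 1
  ex : ∀ a b : ZMod p, a ^ 2 + a * b - b ^ 2 = 1 →
    ∃ k : Fin n, (⟨a, b⟩ : Fe p) ^ m = (gF p z) ^ (k : ℕ)
  un : ∀ k : Fin n, (gF p z) ^ (k : ℕ) = 1 → (k : ℕ) = 0
  one : (gF p z) ^ n = 1

private theorem val_fK (v : Pl) (z : Ze) : v.valuation kk (NK (fK z)) ≤ 1 := by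
  rw [fK_EE, NK_EE]
  have e : ((z.re : kk) ^ 2 + z.re * z.im - (z.im : kk) ^ 2) =
      ((z.re ^ 2 + z.re * z.im - z.im ^ 2 : ℤ) : kk) := by push_cast; ring
  rw [e]
  exact val_cast v _

private theorem NK_zeta : NK zeta = 1 := by
  simp [NK, zeta]

private theorem NK_uu : NK uu = 1 := by
  rw [uu_eq]
  have h : (-(eps * eps) : KK) = (-1) * (eps * eps) := by ring
  rw [h, NK_mul, NK_mul, NK_eps]
  simp [NK]

private theorem uu_fK : uu = fK ⟨-1, -1⟩ := by
  rw [uu_eq, eps_sq]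
  change _ = ((-1 : ℤ) : KK) + ((-1 : ℤ) : KK) * eps
  push_cast
  ring

private theorem cg_zeta {v : Pl} {p : ℕ} {t : ℤ} (R : Rs v p)
    (h : ∀ a b : ℤ, v.valuation kk ⟨a, b⟩ < 1 ↔ (p : ℤ) ∣ a + t * b) (x y : ℤ)
    (h5 : ¬ (p : ℤ) ∣ 5) (h1 : (p : ℤ) ∣ (-2 - 5 * x) + t * (-1))
    (h2 : (p : ℤ) ∣ (-1 - 5 * y) + t * 2) : cg v zeta (fK ⟨x, y⟩) := by
  have k5 : v.valuation kk ((5 : ℤ) : kk) = 1 :=
    le_antisymm (val_cast v 5) (not_lt.1 (fun hc => h5 ((R.int 5).1 hc)))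
  have key : ∀ a : kk, v.valuation kk (((5 : ℤ) : kk) * a) < 1 → v.valuation kk a < 1 := by
    intro a ha
    rwa [map_mul, k5, one_mul] at ha
  rw [EE_surj zeta, fK_EE, cg_EE R]
  refine ⟨key _ ?_, key _ ?_⟩
  · have h3 := (h (-2 - 5 * x) (-1)).2 h1
    convert h3 using 2
    simp only [zeta, cast_eq]
    ext
    · simp; ring
    · simp
  · have h3 := (h (-1 - 5 * y) 2).2 h2
    convert h3 using 2
    simp only [zeta, cast_eq]
    ext
    · simp; ring
    · simp; norm_num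

private theorem dt_exists {v : Pl} {m : ℕ} {η : KK} {n : ℕ} (h : IsCh v m η n) :
    ∃ p z, Dt v m η n p z := by
  obtain ⟨c2, c3, c17, c23⟩ := And.intro (fun a b => (S4_res v h.mem a b).1)
    (And.intro (fun a b => (S4_res v h.mem a b).2.1) (And.intro
      (fun a b => (S4_res v h.mem a b).2.2.1) (fun a b => (S4_res v h.mem a b).2.2.2)))
  rcases h.cases with ⟨hp, rfl, rfl, rfl⟩ | ⟨hp, rfl, rfl, rfl⟩ | ⟨hp, rfl, rfl, rfl⟩ |
    ⟨hp, rfl, rfl, rfl⟩
  · have hr : ∀ a b : ℤ, v.valuation kk ⟨a, b⟩ < 1 ↔ ((2 : ℕ) : ℤ) ∣ a + 1 * b := fun a b => by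
      rw [c2 a b hp, one_mul]; rfl
    have R : Rs v 2 := Rs_of hr (by decide)
    exact ⟨2, ⟨1, 1⟩, R, by norm_num, cg_zeta R hr 1 1 (by norm_num) (by norm_num) (by norm_num),
      NK_zeta, by decide +kernel, by decide +kernel, by decide +kernel⟩
  · have hr : ∀ a b : ℤ, v.valuation kk ⟨a, b⟩ < 1 ↔ ((17 : ℕ) : ℤ) ∣ a + 6 * b := fun a b => by
      rw [c17 a b hp]; rfl
    have R : Rs v 17 := Rs_of hr (by decide)
    exact ⟨17, ⟨12, 9⟩, R, by norm_num, cg_zeta R hr 12 9 (by norm_num) (by norm_num)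
      (by norm_num), NK_zeta, by decide +kernel, by decide +kernel, by decide +kernel⟩
  · have hr : ∀ a b : ℤ, v.valuation kk ⟨a, b⟩ < 1 ↔ ((3 : ℕ) : ℤ) ∣ a + 2 * b := fun a b => by
      rw [c3 a b hp]; rfl
    have R : Rs v 3 := Rs_of hr (by decide)
    exact ⟨3, ⟨-1, -1⟩, R, by norm_num, by rw [uu_fK]; exact cg_refl v _, NK_uu,
      by decide +kernel, by decide +kernel, by decide +kernel⟩
  · have hr : ∀ a b : ℤ, v.valuation kk ⟨a, b⟩ < 1 ↔ ((23 : ℕ) : ℤ) ∣ a + 7 * b := fun a b => by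
      rw [c23 a b hp]; rfl
    have R : Rs v 23 := Rs_of hr (by decide)
    exact ⟨23, ⟨-1, -1⟩ ^ 6, R, by norm_num, by rw [uu_fK, ← map_pow]; exact cg_refl v _,
      by rw [NK_pow, NK_uu, one_pow], by decide +kernel, by decide +kernel, by decide +kernel⟩

theorem ch_exists {v : Pl} {m : ℕ} {η : KK} {n : ℕ} (h : IsCh v m η n) {w : KK} (hw : NK w = 1) :
    ∃ a : ℤ, cg v (w ^ m) (η ^ a) := by
  obtain ⟨p, z, D⟩ := dt_exists h
  obtain ⟨x, hx, hn⟩ := ex_red D.rs hw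
  obtain ⟨k, hk⟩ := D.ex _ _ hn
  refine ⟨(k : ℕ), ?_⟩
  rw [zpow_natCast]
  have h1 := cg_pow h.mem (val_NK hw) (val_fK v x) hx m
  have h2 := cg_pow h.mem (val_NK D.nk) (val_fK v z) D.cgz k
  have h3 : cg v (fK x ^ m) (fK z ^ (k : ℕ)) := by
    rw [← map_pow, ← map_pow, cg_fK D.rs, map_pow, map_pow]
    exact hk
  exact cg_trans h.mem (cg_trans h.mem h1 h3) (cg_symm h2)

private theorem ch_one {v : Pl} {m : ℕ} {η : KK} {n : ℕ} (h : IsCh v m η n) (c : ℤ) :
    cg v (η ^ c) 1 ↔ (n : ℤ) ∣ c := by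
  obtain ⟨p, z, D⟩ := dt_exists h
  have hη := ne_of_NK D.nk
  have hpow : ∀ k : ℕ, cg v (η ^ k) 1 ↔ (gF p z) ^ k = 1 := by
    intro k
    have h2 := cg_pow h.mem (val_NK D.nk) (val_fK v z) D.cgz k
    have h3 : cg v (fK z ^ k) 1 ↔ (gF p z) ^ k = 1 := by
      rw [← map_pow, ← map_one fK, cg_fK D.rs, map_pow, map_one]
    rw [← h3]
    exact ⟨fun h4 => cg_trans h.mem (cg_symm h2) h4, fun h4 => cg_trans h.mem h2 h4⟩
  have hn : cg v (η ^ n) 1 := (hpow n).2 D.one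
  have hq := cg_zpow_one h.mem (x := η ^ n) (by rw [NK_pow, D.nk, one_pow]) hn (c / n)
  have hn0 : (0 : ℤ) < n := by exact_mod_cast D.pos
  have hr0 := Int.emod_nonneg c hn0.ne'
  have hrn := Int.emod_lt_of_pos c hn0
  obtain ⟨r, hr⟩ := Int.eq_ofNat_of_zero_le hr0
  have hc : η ^ c = (η ^ n) ^ (c / n) * η ^ r := by
    rw [← zpow_natCast η n, ← _root_.zpow_mul, ← zpow_natCast η r, ← zpow_add₀ hη, ← hr,
      Int.mul_ediv_add_emod]
  have h5 : cg v (η ^ c) (η ^ r) := by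
    rw [hc]
    have := cg_mul1 h.mem (x := (η ^ n) ^ (c / n)) (x' := 1) (y := η ^ r) (y' := η ^ r)
      (by rw [NK_zpow, NK_pow, D.nk, one_pow, _root_.one_zpow]) (by rw [NK_pow, D.nk, one_pow]) hq
      (cg_refl v _)
    rwa [one_mul] at this
  have hrn' : r < n := by
    rw [hr] at hrn
    exact_mod_cast hrn
  rw [Int.dvd_iff_emod_eq_zero, hr]
  constructor
  · intro h6
    have := D.un ⟨r, hrn'⟩ ((hpow r).1 (cg_trans h.mem (cg_symm h5) h6))
    exact_mod_cast this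
  · intro h6
    have h7 : r = 0 := by exact_mod_cast h6
    rw [h7, pow_zero] at h5
    exact h5

theorem ch_unique {v : Pl} {m : ℕ} {η : KK} {n : ℕ} (h : IsCh v m η n) (a b : ℤ) :
    cg v (η ^ a) (η ^ b) ↔ (a : ZMod n) = b := by
  obtain ⟨p, z, D⟩ := dt_exists h
  have hη := ne_of_NK D.nk
  have hz : ∀ c : ℤ, NK (η ^ c) = 1 := fun c => by rw [NK_zpow, D.nk, _root_.one_zpow]
  have h1 : cg v (η ^ a) (η ^ b) ↔ cg v (η ^ (a - b)) 1 := by
    constructor
    · intro h2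
      have := cg_mul1 h.mem (hz a) (hz (-b)) h2 (cg_refl v (η ^ (-b)))
      rwa [← zpow_add₀ hη, ← zpow_add₀ hη, add_neg_cancel, zpow_zero, ← sub_eq_add_neg] at this
    · intro h2
      have := cg_mul1 h.mem (hz (a - b)) (hz b) h2 (cg_refl v (η ^ b))
      rwa [← zpow_add₀ hη, sub_add_cancel, one_mul] at this
  rw [h1, ch_one h, ← ZMod.intCast_zmod_eq_zero_iff_dvd, Int.cast_sub, sub_eq_zero]

/-- The exponent of `x/σ(x)` at `v`. -/
def al (v : Pl) (m : ℕ) (η : KK) (n : ℕ) (w : KK) : ZMod n :=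
  open Classical in if h : ∃ a : ℤ, cg v (w ^ m) (η ^ a) then (h.choose : ZMod n) else 0

theorem al_iff {v : Pl} {m : ℕ} {η : KK} {n : ℕ} (h : IsCh v m η n) {w : KK} (hw : NK w = 1)
    (a : ℤ) : cg v (w ^ m) (η ^ a) ↔ al v m η n w = a := by
  have hex := ch_exists h hw
  have hal : al v m η n w = (hex.choose : ZMod n) := by
    rw [al, dif_pos hex]
  rw [hal, ← ch_unique h]
  exact ⟨fun h1 => cg_trans h.mem (cg_symm hex.choose_spec) h1,
    fun h1 => cg_trans h.mem hex.choose_spec h1⟩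

private theorem al_ex {v : Pl} {m : ℕ} {η : KK} {n : ℕ} (h : IsCh v m η n) {w : KK} (hw : NK w = 1) :
    ∃ a : ℤ, cg v (w ^ m) (η ^ a) ∧ al v m η n w = a := by
  obtain ⟨a, ha⟩ := ch_exists h hw
  exact ⟨a, ha, (al_iff h hw a).1 ha⟩

theorem al_congr {v : Pl} {m : ℕ} {η : KK} {n : ℕ} (h : IsCh v m η n) {w w' : KK} (hw : NK w = 1)
    (hw' : NK w' = 1) (hc : cg v w w') : al v m η n w = al v m η n w' := by
  obtain ⟨a, ha, ha'⟩ := al_ex h hw'
  rw [ha', ← al_iff h hw]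
  exact cg_trans h.mem (cg_pow h.mem (val_NK hw) (val_NK hw') hc m) ha

private theorem NK_root {v : Pl} {m : ℕ} {η : KK} {n : ℕ} (h : IsCh v m η n) : NK η = 1 := by
  obtain ⟨p, z, D⟩ := dt_exists h
  exact D.nk

theorem al_mul {v : Pl} {m : ℕ} {η : KK} {n : ℕ} (h : IsCh v m η n) {w w' : KK} (hw : NK w = 1)
    (hw' : NK w' = 1) : al v m η n (w * w') = al v m η n w + al v m η n w' := by
  have hη := NK_root h
  obtain ⟨a, ha, ha'⟩ := al_ex h hw
  obtain ⟨b, hb, hb'⟩ := al_ex h hw'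
  have h1 := cg_mul1 h.mem (by rw [NK_pow, hw, one_pow]) (by rw [NK_zpow, hη, _root_.one_zpow]) ha hb
  rw [← mul_pow, ← zpow_add₀ (ne_of_NK hη), al_iff h (by rw [NK_mul, hw, hw', one_mul])] at h1
  rw [h1, ha', hb', Int.cast_add]

theorem al_inv {v : Pl} {m : ℕ} {η : KK} {n : ℕ} (h : IsCh v m η n) {w : KK} (hw : NK w = 1) :
    al v m η n w⁻¹ = -al v m η n w := by
  have hη := NK_root h
  obtain ⟨a, ha, ha'⟩ := al_ex h hw
  have h1 := cg_inv h.mem (by rw [NK_pow, hw, one_pow]) (by rw [NK_zpow, hη, _root_.one_zpow]) ha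
  rw [← inv_pow, ← _root_.zpow_neg, al_iff h (by rw [NK_inv, hw, inv_one])] at h1
  rw [h1, ha', Int.cast_neg]

end

end Pool.Agent.Work.MP_14c213_gt
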