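import Pool.Agent.Work.MP_14c213_gt.B.ChB

/-!
Values of the characters (finite computations with S4_res). w(c) = 1 + ζ = ζ₆, w(ε) = u.
At 2: ζ₆ = ζ², u = ζ. At 17: ζ₆⁶ = 1, u⁶ ≡ ζ². At 3: ζ ≡ 1, so ζ₆ ≡ -1 ≡ u². At 23: ζ₆⁶ = 1.
-/

namespace Pool.Agent.Work.MP_14c213_gt

open Matrix IsDedekindDomain
open scoped Matrix NumberField QuadraticAlgebra

noncomputable section

private theorem chval_uu : uu = ⟨⟨-5 / 3, 1 / 3⟩, ⟨-1 / 3, 2 / 3⟩⟩ := by
  rw [uu_eq, eps_sq]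
  ext <;> simp [eps] <;> norm_num

private theorem chval_uu2 : uu ^ 2 = ⟨⟨4, -1⟩, ⟨1, -2⟩⟩ := by
  rw [chval_uu]
  ext <;> simp [pow_two] <;> norm_num

private theorem chval_uu4 : uu ^ 4 = ⟨⟨27, -7⟩, ⟨7, -14⟩⟩ := by
  have e : uu ^ 4 = uu ^ 2 * uu ^ 2 := by ring
  rw [e, chval_uu2]
  ext <;> simp <;> norm_num

private theorem chval_uu6 : uu ^ 6 = ⟨⟨185, -48⟩, ⟨48, -96⟩⟩ := by
  have e : uu ^ 6 = uu ^ 4 * uu ^ 2 := by ring
  rw [e, chval_uu2, chval_uu4]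
  ext <;> simp <;> norm_num

private theorem chval_NK (a b c d : ℚ) (e f : ℤ)
    (h1 : a ^ 2 - 4 * b ^ 2 - (a * c - 4 * b * d) + (c ^ 2 - 4 * d ^ 2) = e)
    (h2 : 2 * a * b + b ^ 2 - (a * d + b * c + b * d) + (2 * c * d + d ^ 2) = f) :
    NK (⟨⟨a, b⟩, ⟨c, d⟩⟩ : KK) = ⟨e, f⟩ := by
  ext
  · simp only [NK, pow_two, QuadraticAlgebra.re_add, QuadraticAlgebra.re_sub,
      QuadraticAlgebra.re_mul]
    rw [← h1]
    ring
  · simp only [NK, pow_two, QuadraticAlgebra.im_add, QuadraticAlgebra.im_sub,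
      QuadraticAlgebra.im_mul]
    rw [← h2]
    ring

private theorem chval_zeta3 : zeta ^ 3 = 1 := by
  linear_combination (zeta - 1) * zeta_rel

private theorem chval_six : (1 + zeta) ^ 6 = 1 := by
  have h : (1 : KK) + zeta = -(zeta * zeta) := by linear_combination zeta_rel
  have h3 := chval_zeta3
  rw [h]
  have e : (-(zeta * zeta)) ^ 6 = (zeta ^ 3) ^ 4 := by ring
  rw [e, h3, one_pow]

private theorem chval_NK_one_zeta : NK (1 + zeta) = 1 := by
  simp [NK, zeta]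

private theorem chval_NK_zeta : NK zeta = 1 := by
  simp [NK, zeta]

private theorem chval_NK_uu : NK uu = 1 := by
  have h := NK_mul uu (star eps)
  have h0 : star eps ≠ 0 := by
    intro h
    have h1 := mul_star_KK eps
    rw [h, mul_zero, NK_eps] at h1
    simp at h1
  rw [uu, div_mul_cancel₀ _ h0, NK_star, NK_eps] at h
  rw [uu]
  linear_combination h

private theorem chval_NK_neg_one : NK (-1) = 1 := by
  simp [NK]

theorem al2 {v : Pl} (h : IsCh v 1 zeta 3) :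
    al v 1 zeta 3 (1 + zeta) = 2 ∧ al v 1 zeta 3 uu = 1 ∧ al v 1 zeta 3 zeta = 1 := by
  have hv := h.mem
  have h2 : (2 : 𝓞 kk) ∈ v.asIdeal := by
    rcases h.cases with h1 | h1 | h1 | h1
    · exact h1.1
    · exact absurd h1.2.1 (by norm_num)
    · exact absurd h1.2.2.2 (by norm_num)
    · exact absurd h1.2.2.2 (by norm_num)
  refine ⟨?_, ?_, ?_⟩
  · have h3 : al v 1 zeta 3 (1 + zeta) = ((2 : ℤ) : ZMod 3) := by
      rw [← al_iff h chval_NK_one_zeta]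
      unfold cg
      have e : (1 + zeta) ^ 1 - zeta ^ (2 : ℤ) = ⟨⟨2, 0⟩, ⟨2, 0⟩⟩ := by
        rw [show zeta ^ (2 : ℤ) = zeta * zeta by rw [zpow_two]]
        have : zeta * zeta = -1 - zeta := by linear_combination zeta_rel
        rw [this]
        ext <;> simp [zeta] <;> norm_num
      rw [e, chval_NK 2 0 2 0 4 0 (by norm_num) (by norm_num)]
      exact ((S4_res v hv 4 0).1 h2).2 (by norm_num)
    rw [h3]
    rfl
  · have h3 : al v 1 zeta 3 uu = ((1 : ℤ) : ZMod 3) := by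
      rw [← al_iff h chval_NK_uu]
      unfold cg
      have e : uu ^ 1 - zeta ^ (1 : ℤ) = ⟨⟨-5 / 3, 1 / 3⟩, ⟨-4 / 3, 2 / 3⟩⟩ := by
        rw [zpow_one, pow_one, chval_uu]
        ext <;> simp [zeta] <;> norm_num
      rw [e, chval_NK (-5 / 3) (1 / 3) (-4 / 3) (2 / 3) 1 (-1) (by norm_num) (by norm_num)]
      exact ((S4_res v hv 1 (-1)).1 h2).2 (by norm_num)
    rw [h3]
    rfl
  · have h3 : al v 1 zeta 3 zeta = ((1 : ℤ) : ZMod 3) := by
      rw [← al_iff h chval_NK_zeta, zpow_one, pow_one]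
      exact cg_refl v _
    rw [h3]
    rfl

theorem al17 {v : Pl} (h : IsCh v 6 zeta 3) :
    al v 6 zeta 3 (1 + zeta) = 0 ∧ al v 6 zeta 3 uu = 2 ∧ al v 6 zeta 3 zeta = 0 := by
  have hv := h.mem
  have h17 : (17 : 𝓞 kk) ∈ v.asIdeal := by
    rcases h.cases with h1 | h1 | h1 | h1
    · exact absurd h1.2.1 (by norm_num)
    · exact h1.1
    · exact absurd h1.2.2.2 (by norm_num)
    · exact absurd h1.2.2.2 (by norm_num)
  refine ⟨?_, ?_, ?_⟩
  · have h3 : al v 6 zeta 3 (1 + zeta) = ((0 : ℤ) : ZMod 3) := by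
      rw [← al_iff h chval_NK_one_zeta, chval_six, zpow_zero]
      exact cg_refl v _
    rw [h3]
    rfl
  · have h3 : al v 6 zeta 3 uu = ((2 : ℤ) : ZMod 3) := by
      rw [← al_iff h chval_NK_uu]
      unfold cg
      have e : uu ^ 6 - zeta ^ (2 : ℤ) = ⟨⟨186, -48⟩, ⟨49, -96⟩⟩ := by
        rw [show zeta ^ (2 : ℤ) = zeta * zeta by rw [zpow_two], chval_uu6]
        have : zeta * zeta = -1 - zeta := by linear_combination zeta_rel
        rw [this]
        ext <;> simp [zeta] <;> norm_num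
      rw [e, chval_NK 186 (-48) 49 (-96) 235 (-144) (by norm_num) (by norm_num)]
      exact ((S4_res v hv 235 (-144)).2.2.1 h17).2 (by norm_num)
    rw [h3]
    rfl
  · have h3 : al v 6 zeta 3 zeta = ((0 : ℤ) : ZMod 3) := by
      have e : zeta ^ 6 = 1 := by
        rw [show zeta ^ 6 = (zeta ^ 3) ^ 2 by ring, chval_zeta3, one_pow]
      rw [← al_iff h chval_NK_zeta, e, zpow_zero]
      exact cg_refl v _
    rw [h3]
    rfl

theorem al3 {v : Pl} (h : IsCh v 1 uu 4) :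
    al v 1 uu 4 (1 + zeta) = 2 ∧ al v 1 uu 4 uu = 1 ∧ al v 1 uu 4 (-1) = 2 := by
  have hv := h.mem
  have h3m : (3 : 𝓞 kk) ∈ v.asIdeal := by
    rcases h.cases with h1 | h1 | h1 | h1
    · exact absurd h1.2.2.2 (by norm_num)
    · exact absurd h1.2.2.2 (by norm_num)
    · exact h1.1
    · exact absurd h1.2.1 (by norm_num)
  refine ⟨?_, ?_, ?_⟩
  · have h3 : al v 1 uu 4 (1 + zeta) = ((2 : ℤ) : ZMod 4) := by
      rw [← al_iff h chval_NK_one_zeta]
      unfold cg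
      have e : (1 + zeta) ^ 1 - uu ^ (2 : ℤ) = ⟨⟨-3, 1⟩, ⟨0, 2⟩⟩ := by
        rw [show uu ^ (2 : ℤ) = uu ^ 2 from zpow_natCast uu 2, chval_uu2]
        ext <;> simp [zeta] <;> norm_num
      rw [e, chval_NK (-3) 1 0 2 (-3) 3 (by norm_num) (by norm_num)]
      exact ((S4_res v hv (-3) 3).2.1 h3m).2 (by norm_num)
    rw [h3]
    rfl
  · have h3 : al v 1 uu 4 uu = ((1 : ℤ) : ZMod 4) := by
      rw [← al_iff h chval_NK_uu, zpow_one, pow_one]
      exact cg_refl v _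
    rw [h3]
    rfl
  · have h3 : al v 1 uu 4 (-1) = ((2 : ℤ) : ZMod 4) := by
      rw [← al_iff h chval_NK_neg_one]
      unfold cg
      have e : (-1 : KK) ^ 1 - uu ^ (2 : ℤ) = ⟨⟨-5, 1⟩, ⟨-1, 2⟩⟩ := by
        rw [show uu ^ (2 : ℤ) = uu ^ 2 from zpow_natCast uu 2, chval_uu2]
        ext <;> simp <;> norm_num
      rw [e, chval_NK (-5) 1 (-1) 2 9 0 (by norm_num) (by norm_num)]
      exact ((S4_res v hv 9 0).2.1 h3m).2 (by norm_num)
    rw [h3]
    rfl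

theorem al23 {v : Pl} (h : IsCh v 6 (uu ^ 6) 4) :
    al v 6 (uu ^ 6) 4 (1 + zeta) = 0 ∧ al v 6 (uu ^ 6) 4 uu = 1 ∧ al v 6 (uu ^ 6) 4 (-1) = 0 := by
  refine ⟨?_, ?_, ?_⟩
  · have h3 : al v 6 (uu ^ 6) 4 (1 + zeta) = ((0 : ℤ) : ZMod 4) := by
      rw [← al_iff h chval_NK_one_zeta, chval_six, zpow_zero]
      exact cg_refl v _
    rw [h3]
    rfl
  · have h3 : al v 6 (uu ^ 6) 4 uu = ((1 : ℤ) : ZMod 4) := by
      rw [← al_iff h chval_NK_uu, zpow_one]
      exact cg_refl v _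
    rw [h3]
    rfl
  · have h3 : al v 6 (uu ^ 6) 4 (-1) = ((0 : ℤ) : ZMod 4) := by
      have e : (-1 : KK) ^ 6 = 1 := by ring
      rw [← al_iff h chval_NK_neg_one, e, zpow_zero]
      exact cg_refl v _
    rw [h3]
    rfl

/-- If `w ≢ ±1` modulo `v` the element is regular: used to see that `w ≡ 1` kills the character. -/
theorem al_one {v : Pl} {m : ℕ} {η : KK} {n : ℕ} (h : IsCh v m η n) {w : KK} (hw : NK w = 1)
    (hc : cg v w 1) : al v m η n w = 0 := by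
  have h1 : al v m η n 1 = ((0 : ℤ) : ZMod n) := by
    rw [← al_iff h NK_one, one_pow, zpow_zero]
    exact cg_refl v _
  rw [al_congr h hw NK_one hc, h1, Int.cast_zero]

end

end Pool.Agent.Work.MP_14c213_gt
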