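import Pool.Agent.Work.MP_14c213_gt.BDefs

/-!
Abstract counting of sign configurations: ½ (1 + product of all signs) is the indicator of the parity
condition; Finset.prod_univ_sum.
-/

namespace Pool.Agent.Work.MP_14c213_gt

open Matrix IsDedekindDomain
open scoped Matrix NumberField QuadraticAlgebra

noncomputable section

private theorem cntA_ind (u v : ℤˣ) :
    (if u * v = 1 then (1 : ℝ) else 0) = 2⁻¹ * (1 + ((v : ℤ) : ℝ) * ((u : ℤ) : ℝ)) := by
  rcases Int.units_eq_one_or u with rfl | rfl <;> rcases Int.units_eq_one_or v with rfl | rfl <;>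
    norm_num

private theorem cntA_sum {ι : Type*} [Fintype ι] [DecidableEq ι] (Z : ι → Type*)
    [∀ i, Fintype (Z i)] (sgn : ∀ i, Z i → ℤˣ) (v : ℤˣ) :
    ∑ z : (∀ i, Z i), (if (∏ i, sgn i (z i)) * v = 1 then (1 : ℝ) else 0) =
      2⁻¹ * ((∏ i, (Fintype.card (Z i) : ℝ)) +
        ((v : ℤ) : ℝ) * ∏ i, ∑ z : Z i, (((sgn i z : ℤˣ) : ℤ) : ℝ)) := by
  simp only [cntA_ind]
  rw [← Finset.mul_sum, Finset.sum_add_distrib, ← Finset.mul_sum]
  congr 2
  · simp [Fintype.card_pi]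
  · congr 1
    rw [Finset.prod_univ_sum, ← Fintype.piFinset_univ]
    apply Finset.sum_congr rfl
    intro z _
    push_cast
    rfl

theorem cnt_abs {ι : Type*} [Fintype ι] [DecidableEq ι] (Z : ι → Type*) [∀ i, Fintype (Z i)]
    (sgn : ∀ i, Z i → ℤˣ) (L : ℤˣ → ℤˣ → ℤˣ → ℤˣ → Prop) :
    (Nat.card {p : (∀ i, Z i) × ℤˣ × ℤˣ × ℤˣ × ℤˣ //
      (∏ i, sgn i (p.1 i)) * p.2.1 * p.2.2.1 * p.2.2.2.1 * p.2.2.2.2 = 1 ∧
        L p.2.1 p.2.2.1 p.2.2.2.1 p.2.2.2.2} : ℝ) =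
    2⁻¹ * ∑ a : ℤˣ, ∑ b : ℤˣ, ∑ c : ℤˣ, ∑ d : ℤˣ, (open Classical in if L a b c d then
      ((∏ i, (Fintype.card (Z i) : ℝ)) +
        (((a * b * c * d : ℤˣ) : ℤ) : ℝ) * ∏ i, ∑ z : Z i, (((sgn i z : ℤˣ) : ℤ) : ℝ)) else 0) := by
  classical
  rw [Nat.card_eq_fintype_card, Fintype.card_subtype, Finset.card_filter]
  push_cast
  rw [Fintype.sum_prod_type_right]
  simp only [Fintype.sum_prod_type]
  rw [Finset.mul_sum]
  apply Finset.sum_congr rfl
  intro a _
  rw [Finset.mul_sum]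
  apply Finset.sum_congr rfl
  intro b _
  rw [Finset.mul_sum]
  apply Finset.sum_congr rfl
  intro c _
  rw [Finset.mul_sum]
  apply Finset.sum_congr rfl
  intro d _
  by_cases hL : L a b c d
  · simp only [hL, and_true, if_true]
    have e := cntA_sum Z sgn (a * b * c * d)
    push_cast at e
    rw [← e]
    apply Finset.sum_congr rfl
    intro z _
    simp only [mul_assoc]
  · simp [hL]

end

end Pool.Agent.Work.MP_14c213_gt
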