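import Pool.Agent.Work.MP_14c213_gt.B.GGB
import Pool.Agent.Work.MP_14c213_gt.B.ChlB

/-!
Finite sums over signs; everything by decide. E = units: epu, ccu.
-/

namespace Pool.Agent.Work.MP_14c213_gt

open Matrix IsDedekindDomain
open scoped Matrix NumberField QuadraticAlgebra

noncomputable section

/-- three is a unit away from the place over three -/
private theorem kpb_three {v : Pl} (h : (3 : 𝓞 kk) ∉ v.asIdeal) : v.valuation kk 3 = 1 := by
  have h1 : v.valuation kk (algebraMap (𝓞 kk) kk 3) ≤ 1 := v.valuation_le_one _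
  have h2 : ¬ v.valuation kk (algebraMap (𝓞 kk) kk 3) < 1 := by
    rw [HeightOneSpectrum.valuation_lt_one_iff_mem]
    exact h
  rw [map_ofNat] at h1 h2
  exact le_antisymm h1 (not_lt.1 h2)

private theorem kpb_third {v : Pl} (h : (3 : 𝓞 kk) ∉ v.asIdeal) (a b : ℤ) :
    v.valuation kk (⟨a / 3, b / 3⟩ : kk) ≤ 1 := by
  have e : (⟨a / 3, b / 3⟩ : kk) * 3 = ⟨a, b⟩ := by
    ext <;> simp [QuadraticAlgebra.re_ofNat, QuadraticAlgebra.im_ofNat]
  have h1 := val_int v a b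
  rw [← e, map_mul, kpb_three h, mul_one] at h1
  exact h1

private theorem kpb_mem {x : KK} (hx : x ≠ 0) (hram : ∀ v ∈ SS4, Even (ord v (NK x)))
    (hun : ∀ v : Pl, (3 : 𝓞 kk) ∉ v.asIdeal → v.valuation kk x.re ≤ 1 ∧ v.valuation kk x.im ≤ 1 ∧
      v.valuation kk x⁻¹.re ≤ 1 ∧ v.valuation kk x⁻¹.im ≤ 1) :
    inKu (Units.mk0 x hx) ∈ GO := by
  rw [mem_GO]
  intro v
  unfold UU
  split_ifs with hv
  · show Even (ord v (nrd (inK x)))
    rw [nrd_inK]
    exact hram v hv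
  · have h3 : (3 : 𝓞 kk) ∉ v.asIdeal := fun h => hv (three_mem v h).1
    obtain ⟨h4, h5, h6, h7⟩ := hun v h3
    refine ⟨1, one_ne_zero, ?_, ?_⟩
    · rw [one_smul]
      have h0 : v.valuation kk (0 : kk) ≤ 1 := by rw [map_zero]; exact zero_le_one
      exact ⟨h4, h5, h0, h0⟩
    · rw [inv_one, one_smul]
      have h0 : v.valuation kk (0 : kk) ≤ 1 := by rw [map_zero]; exact zero_le_one
      have e : (((inKu (Units.mk0 x hx))⁻¹ : AAˣ) : AA) = inK x⁻¹ := rfl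
      rw [e]
      exact ⟨h6, h7, h0, h0⟩

private theorem kpb_ww_one : ww 1 = 1 := by
  have e : xp 1 = 1 := by
    apply QuadraticAlgebra.ext <;> simp [xp]
  rw [ww, e, star_one, div_one]

private theorem kpb_al_one {v : Pl} {m : ℕ} {η : KK} {n : ℕ} (h : IsCh v m η n) :
    al v m η n (ww ((1 : AAˣ) : AA)) = 0 := by
  rw [Units.val_one, kpb_ww_one]
  exact al_one h NK_one (cg_refl v _)

private theorem kpb_mul (x y : KKˣ) : a2 (inKu (x * y)) = a2 (inKu x) + a2 (inKu y) ∧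
    a17 (inKu (x * y)) = a17 (inKu x) + a17 (inKu y) ∧ a3 (inKu (x * y)) = a3 (inKu x) + a3 (inKu y) ∧
    a23 (inKu (x * y)) = a23 (inKu x) + a23 (inKu y) := by
  have h : ∀ z : KKˣ, NK (ww (inK (z : KK))) = 1 := fun z => NK_ww (g := inK (z : KK)) z.ne_zero
  have e : ww (inK ((x * y : KKˣ) : KK)) = ww (inK (x : KK)) * ww (inK (y : KK)) := by
    show ((x * y : KKˣ) : KK) / star ((x * y : KKˣ) : KK) = (x : KK) / star (x : KK) * ((y : KK) / star (y : KK))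
    rw [Units.val_mul, star_mul, mul_comm (star (y : KK)), mul_div_mul_comm]
  have e' : ∀ z : KKˣ, (((inKu z) : AAˣ) : AA) = inK (z : KK) := fun _ => rfl
  refine ⟨?_, ?_, ?_, ?_⟩
  · rw [a2, a2, a2, e', e', e', e]; exact al_mul four_spec.1 (h x) (h y)
  · rw [a17, a17, a17, e', e', e', e]; exact al_mul four_spec.2.1 (h x) (h y)
  · rw [a3, a3, a3, e', e', e', e]; exact al_mul four_spec.2.2.1 (h x) (h y)
  · rw [a23, a23, a23, e', e', e', e]; exact al_mul four_spec.2.2.2.1 (h x) (h y)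

def kapA (s t : ZMod 3) : ℤ := ∑ e : ℤˣ, ∑ e' : ℤˣ, ((e * e' : ℤˣ) : ℤ) *
  ((if ((e : ℤ) : ZMod 3) * s + ((e' : ℤ) : ZMod 3) * t = 0 then 1 else 0) -
    (if ((e : ℤ) : ZMod 3) * s - ((e' : ℤ) : ZMod 3) * t = 0 then 1 else 0))

def kapB (s t : ZMod 4) : ℤ := ∑ e : ℤˣ, ∑ e' : ℤˣ, ((e * e' : ℤˣ) : ℤ) *
  (if ((e : ℤ) : ZMod 4) * s + ((e' : ℤ) : ZMod 4) * t = 0 then 1 else 0)

theorem kapA_ne (s t : ZMod 3) (h : kapA s t ≠ 0) : s ≠ 0 ∧ t ≠ 0 := by
  revert s t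
  unfold kapA
  decide

theorem kapB_ne (s t : ZMod 4) (h : kapB s t ≠ 0) : s ≠ 0 ∧ t ≠ 0 := by
  revert s t
  unfold kapB
  decide

theorem kapA_sum (s t : ZMod 3) : kapA s t + kapA (s + 1) t + kapA (s + 2) t = 0 := by
  revert s t
  unfold kapA
  decide

theorem kapB_two (s t : ZMod 4) : kapB (s + 2) t = -kapB s t := by
  revert s t
  unfold kapB
  decide

theorem kap_vals : kapA 1 2 = 4 ∧ kapA 2 2 = -4 ∧ kapA 0 2 = 0 ∧ kapB 1 1 = -2 := by
  unfold kapA kapB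
  decide

/-- The sign sum of the four bits. -/
def kapg (x : KKˣ) : ℤ :=
  kapA (a2 (inKu x)) (a17 (inKu x)) * kapB (a3 (inKu x)) (a23 (inKu x))

theorem eps_ne : eps ≠ 0 := by
  intro h
  have h1 := NK_eps
  rw [h] at h1
  have h2 : (-1 : kk) = 0 := by rw [← h1]; simp [NK]
  norm_num at h2

theorem cc_ne : cc ≠ 0 := by
  intro h
  have h1 := NK_cc
  rw [h] at h1
  have h2 : (3 : kk) = 0 := by rw [← h1]; simp [NK]
  norm_num at h2

def epu : KKˣ := Units.mk0 eps eps_ne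
def ccu : KKˣ := Units.mk0 cc cc_ne

theorem epu_GO : inKu epu ∈ GO := by
  refine kpb_mem eps_ne ?_ ?_
  · intro v hv
    rw [NK_eps]
    have : ord v (-1) = 0 := by
      unfold ord
      rw [Valuation.map_neg, map_one, WithZero.log_one, neg_zero]
    rw [this]
    exact Even.zero
  · intro v h3
    have e : eps⁻¹ = ⟨⟨-1 / 3, -1 / 3⟩, ⟨1 / 3, -2 / 3⟩⟩ := by
      refine inv_eq_of_mul_eq_one_right ?_
      ext <;> simp [eps] <;> norm_num
    have t1 := kpb_third h3 2 (-1)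
    have t2 := kpb_third h3 1 (-2)
    have t3 := kpb_third h3 (-1) (-1)
    push_cast at t1 t2 t3
    rw [e]
    exact ⟨t1, t2, t3, t2⟩

theorem ccu_GO : inKu ccu ∈ GO := by
  refine kpb_mem cc_ne ?_ ?_
  · intro v hv
    rw [NK_cc]
    by_cases h3 : (3 : 𝓞 kk) ∈ v.asIdeal
    · rw [(three_mem v h3).2]
      exact even_two
    · have : ord v 3 = 0 := by
        unfold ord
        rw [kpb_three h3, WithZero.log_one, neg_zero]
      rw [this]
      exact Even.zero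
  · intro v h3
    have e : cc⁻¹ = ⟨⟨1 / 3, 0 / 3⟩, ⟨-1 / 3, 0 / 3⟩⟩ := by
      refine inv_eq_of_mul_eq_one_right ?_
      ext <;> simp [cc] <;> norm_num
    have t1 := kpb_third h3 1 0
    have t2 := kpb_third h3 (-1) 0
    push_cast at t1 t2
    rw [e]
    refine ⟨?_, ?_, t1, t2⟩
    · have h := val_int v 2 0
      have e2 : (⟨((2 : ℤ) : ℚ), ((0 : ℤ) : ℚ)⟩ : kk) = cc.re := by
        ext <;> simp [cc, QuadraticAlgebra.re_ofNat, QuadraticAlgebra.im_ofNat]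
      rwa [e2] at h
    · show v.valuation kk (1 : kk) ≤ 1
      rw [map_one]

theorem chars_epu : a2 (inKu epu) = 1 ∧ a17 (inKu epu) = 2 ∧ a3 (inKu epu) = 1 ∧ a23 (inKu epu) = 1 := by
  have e : ww ((inKu epu : AAˣ) : AA) = uu := rfl
  refine ⟨?_, ?_, ?_, ?_⟩
  · rw [a2, e]; exact (al2 four_spec.1).2.1
  · rw [a17, e]; exact (al17 four_spec.2.1).2.1
  · rw [a3, e]; exact (al3 four_spec.2.2.1).2.1
  · rw [a23, e]; exact (al23 four_spec.2.2.2.1).2.1

theorem chars_ccu : a2 (inKu ccu) = 2 ∧ a17 (inKu ccu) = 0 ∧ a3 (inKu ccu) = 2 ∧ a23 (inKu ccu) = 0 := by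
  have e : ww ((inKu ccu : AAˣ) : AA) = 1 + zeta := cc_div
  refine ⟨?_, ?_, ?_, ?_⟩
  · rw [a2, e]; exact (al2 four_spec.1).1
  · rw [a17, e]; exact (al17 four_spec.2.1).1
  · rw [a3, e]; exact (al3 four_spec.2.2.1).1
  · rw [a23, e]; exact (al23 four_spec.2.2.2.1).1

/-- Changing `x` by a power of `c`. -/
theorem chars_mul_ccu (x : KKˣ) (a : ℕ) : a2 (inKu (x * ccu ^ a)) = a2 (inKu x) + 2 * a ∧
    a17 (inKu (x * ccu ^ a)) = a17 (inKu x) ∧ a3 (inKu (x * ccu ^ a)) = a3 (inKu x) + 2 * a ∧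
    a23 (inKu (x * ccu ^ a)) = a23 (inKu x) := by
  obtain ⟨c1, c2, c3, c4⟩ := chars_ccu
  induction a with
  | zero => simp
  | succ a ih =>
    obtain ⟨i1, i2, i3, i4⟩ := ih
    obtain ⟨h1, h2, h3, h4⟩ := kpb_mul (x * ccu ^ a) ccu
    rw [pow_succ, ← mul_assoc, h1, h2, h3, h4, i1, i2, i3, i4, c1, c2, c3, c4]
    push_cast
    refine ⟨by ring, by ring, by ring, by ring⟩

end

end Pool.Agent.Work.MP_14c213_gt
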