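import Pool.Agent.Work.MP_14c213_gt.B.EucB
import Pool.Agent.Work.MP_14c213_gt.B.S4b

/-!
A place v with om v = -1 stays prime in K and v OK is principal. For x in OK: v divides NK x iff v divides
x (anisotropic modulo v: for v not over 3 because X² + X + 1 has no root modulo v, Nv = 2 mod 3; over 3 this
is S4b). I = {x ∈ OK : v(NK x) < 1} is an ideal, so I = p OK for p of minimal NQ (euclid). For s in v (as
an element of kk) s = p q, s² = NK p NK q; with s of order 1 at v, respectively of order 0 at w ≠ v, one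
gets ord v (NK p) = 2 (it is even and positive) and ord w (NK p) = 0; so (NK p) = v² and NQ p = Nv².
-/

namespace Pool.Agent.Work.MP_14c213_gt

open Matrix IsDedekindDomain
open scoped Matrix NumberField QuadraticAlgebra

noncomputable section

private def InGen_mk (a b : ℤ) : 𝓞 kk := ⟨⟨a, b⟩, int_kk a b⟩

private theorem InGen_norm (a b : ℤ) :
    Ideal.absNorm (Ideal.span {InGen_mk a b}) = (a ^ 2 + a * b + 4 * b ^ 2).natAbs := by
  rw [Ideal.absNorm_span_singleton]
  congr 1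
  have h1 := Algebra.coe_norm_int (InGen_mk a b)
  have h2 : Algebra.norm ℚ ((InGen_mk a b : 𝓞 kk) : kk) = ((a ^ 2 + a * b + 4 * b ^ 2 : ℤ) : ℚ) := by
    have h0 : ((InGen_mk a b : 𝓞 kk) : kk) = ⟨a, b⟩ := rfl
    rw [h0, Algebra.norm_apply]
    have h3 := QuadraticAlgebra.det_toLinearMap_eq_norm (⟨a, b⟩ : kk)
    have h4 : (QuadraticAlgebra.norm (⟨a, b⟩ : kk)) = ((a ^ 2 + a * b + 4 * b ^ 2 : ℤ) : ℚ) := by
      rw [QuadraticAlgebra.norm_def]
      push_cast
      ring
    rw [← h4, ← h3]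
    congr 1
  rw [h2] at h1
  exact_mod_cast h1

private theorem InGen_val (v : Pl) {x : kk} (h : IsIntegral ℤ x) : v.valuation kk x ≤ 1 :=
  v.valuation_le_one (K := kk) (⟨x, h⟩ : 𝓞 kk)

private theorem InGen_ord (v : Pl) {x : kk} (h : IsIntegral ℤ x) (h0 : x ≠ 0) : 0 ≤ ord v x :=
  (val_le_one h0).1 (InGen_val v h)

/-- Three times the coordinates of an integer are integers. -/
private theorem InGen_coord {x : KK} (hx : x ∈ OK) :
    ∃ a b : 𝓞 kk, (a : kk) = 3 * x.re ∧ (b : kk) = 3 * x.im := by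
  obtain ⟨a, b, c, d, rfl⟩ := hx
  refine ⟨InGen_mk (3 * a + 2 * c - d) (-c + 2 * d), InGen_mk (3 * b + c + d) (-2 * c + d), ?_, ?_⟩
  · show (⟨((3 * a + 2 * c - d : ℤ) : ℚ), ((-c + 2 * d : ℤ) : ℚ)⟩ : kk) = _
    ext <;> simp [zeta, eps, QuadraticAlgebra.re_ofNat, QuadraticAlgebra.im_ofNat] <;> ring
  · show (⟨((3 * b + c + d : ℤ) : ℚ), ((-2 * c + d : ℤ) : ℚ)⟩ : kk) = _
    ext <;> simp [zeta, eps, QuadraticAlgebra.re_ofNat, QuadraticAlgebra.im_ofNat] <;> ring

private theorem InGen_noroot (v : Pl) (hv : Ideal.absNorm v.asIdeal % 3 ≠ 1)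
    (h3 : (3 : 𝓞 kk) ∉ v.asIdeal) {a b : 𝓞 kk} (h : a ^ 2 - a * b + b ^ 2 ∈ v.asIdeal) :
    a ∈ v.asIdeal ∧ b ∈ v.asIdeal := by
  classical
  have hmax : v.asIdeal.IsMaximal := v.isMaximal
  let _ : Field (𝓞 kk ⧸ v.asIdeal) := Ideal.Quotient.field v.asIdeal
  have hfin : Finite (𝓞 kk ⧸ v.asIdeal) := Ring.HasFiniteQuotients.finiteQuotient v.ne_bot
  let _ : Fintype (𝓞 kk ⧸ v.asIdeal) := Fintype.ofFinite _
  have habs : Ideal.absNorm v.asIdeal = Fintype.card (𝓞 kk ⧸ v.asIdeal) := by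
    rw [Ideal.absNorm_apply, Submodule.cardQuot_apply, Nat.card_eq_fintype_card]
  rw [← Ideal.Quotient.eq_zero_iff_mem] at h h3
  rw [← Ideal.Quotient.eq_zero_iff_mem, ← Ideal.Quotient.eq_zero_iff_mem]
  rw [map_add, map_sub, map_pow, map_mul, map_pow] at h
  generalize Ideal.Quotient.mk v.asIdeal a = A at *
  generalize Ideal.Quotient.mk v.asIdeal b = B at *
  have h3' : (3 : 𝓞 kk ⧸ v.asIdeal) ≠ 0 := by
    intro h4
    apply h3
    rw [map_ofNat]
    exact h4
  have hB : B = 0 := by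
    by_contra hB
    have h1 : (-A / B) ^ 2 + (-A / B) + 1 = 0 := by
      field_simp
      linear_combination h
    set ρ := -A / B
    have h2 : ρ ^ 3 = 1 := by linear_combination (ρ - 1) * h1
    have hρ0 : ρ ≠ 0 := by
      intro h0
      rw [h0] at h1
      simp at h1
    have hρ1 : ρ ≠ 1 := by
      intro h0
      rw [h0] at h1
      apply h3'
      linear_combination h1
    let u : (𝓞 kk ⧸ v.asIdeal)ˣ := Units.mk0 ρ hρ0
    have hu3 : u ^ 3 = 1 := Units.ext (by simpa [u] using h2)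
    have hu1 : u ≠ 1 := by
      intro h0
      apply hρ1
      have := congrArg Units.val h0
      simpa [u] using this
    have _ : Fact (Nat.Prime 3) := ⟨Nat.prime_three⟩
    have hord : orderOf u = 3 := orderOf_eq_prime hu3 hu1
    have hdvd : 3 ∣ Fintype.card (𝓞 kk ⧸ v.asIdeal)ˣ := by
      rw [← hord]
      exact orderOf_dvd_card
    rw [Fintype.card_units _, ← habs] at hdvd
    have hpos : 0 < Ideal.absNorm v.asIdeal := by
      rw [habs]
      exact Fintype.card_pos
    omega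
  refine ⟨?_, hB⟩
  rw [hB] at h
  simpa using h

private theorem InGen_om {v : Pl} (hv : om v = -1) : Ideal.absNorm v.asIdeal % 3 ≠ 1 := by
  intro h
  rw [om, if_pos h] at hv
  exact absurd hv (by decide)

private theorem InGen_aniso (v : Pl) (hv : om v = -1) (hS : v ∉ SS4) {x : KK} (hx : x ∈ OK)
    (h : v.valuation kk (NK x) < 1) : v.valuation kk x.re < 1 ∧ v.valuation kk x.im < 1 := by
  obtain ⟨a, b, ha, hb⟩ := InGen_coord hx
  have h3 : (3 : 𝓞 kk) ∉ v.asIdeal := fun h => hS (three_mem v h).1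
  have h3v : v.valuation kk (3 : kk) = 1 := by
    have h1 : v.valuation kk ((3 : 𝓞 kk) : kk) ≤ 1 := v.valuation_le_one (K := kk) (3 : 𝓞 kk)
    have h2 : ¬ v.valuation kk ((3 : 𝓞 kk) : kk) < 1 := fun hh =>
      h3 ((v.valuation_lt_one_iff_mem (3 : 𝓞 kk)).1 hh)
    have h4 : ((3 : 𝓞 kk) : kk) = 3 := map_ofNat (algebraMap (𝓞 kk) kk) 3
    rw [h4] at h1 h2
    exact le_antisymm h1 (not_lt.1 h2)
  have h5 : a ^ 2 - a * b + b ^ 2 ∈ v.asIdeal := by
    rw [← v.valuation_lt_one_iff_mem (K := kk)]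
    have h6 : algebraMap (𝓞 kk) kk (a ^ 2 - a * b + b ^ 2) = 3 ^ 2 * NK x := by
      rw [map_add, map_sub, map_pow, map_mul, map_pow]
      have ha' : algebraMap (𝓞 kk) kk a = 3 * x.re := ha
      have hb' : algebraMap (𝓞 kk) kk b = 3 * x.im := hb
      rw [ha', hb', NK]
      ring
    change v.valuation kk (algebraMap (𝓞 kk) kk (a ^ 2 - a * b + b ^ 2)) < 1
    rw [h6, map_mul, map_pow, h3v, one_pow, one_mul]
    exact h
  obtain ⟨h7, h8⟩ := InGen_noroot v (InGen_om hv) h3 h5
  have h9 : v.valuation kk (a : kk) < 1 := (v.valuation_lt_one_iff_mem a).2 h7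
  have h10 : v.valuation kk (b : kk) < 1 := (v.valuation_lt_one_iff_mem b).2 h8
  rw [ha, map_mul, h3v, one_mul] at h9
  rw [hb, map_mul, h3v, one_mul] at h10
  exact ⟨h9, h10⟩

private theorem InGen_add (v : Pl) (hv : om v = -1) {x y : KK} (hx : x ∈ OK) (hy : y ∈ OK)
    (h : v.valuation kk (NK x) < 1) (h' : v.valuation kk (NK y) < 1) :
    v.valuation kk (NK (x + y)) < 1 := by
  by_cases hS : v ∈ SS4
  · exact (inert_add v hS x y).trans_lt (max_lt h h')
  · obtain ⟨h1, h2⟩ := InGen_aniso v hv hS hx h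
    obtain ⟨k1, k2⟩ := InGen_aniso v hv hS hy h'
    have h3 : v.valuation kk (x + y).re < 1 := by
      rw [QuadraticAlgebra.re_add]
      exact (Valuation.map_add _ _ _).trans_lt (max_lt h1 k1)
    have h4 : v.valuation kk (x + y).im < 1 := by
      rw [QuadraticAlgebra.im_add]
      exact (Valuation.map_add _ _ _).trans_lt (max_lt h2 k2)
    unfold NK
    refine (Valuation.map_add _ _ _).trans_lt (max_lt ?_ ?_)
    · refine (Valuation.map_sub _ _ _).trans_lt (max_lt ?_ ?_)
      · rw [map_pow]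
        exact pow_lt_one₀ zero_le h3 two_ne_zero
      · rw [map_mul]
        exact mul_lt_one_of_lt_of_le h3 h4.le
    · rw [map_pow]
      exact pow_lt_one₀ zero_le h4 two_ne_zero

theorem inert_gen (v : Pl) (hv : om v = -1) :
    ∃ p ∈ OK, NQ p = (Ideal.absNorm v.asIdeal : ℚ) ^ 2 ∧ v.valuation kk (NK p) < 1 := by
  classical
  have hint : ∀ x ∈ OK, IsIntegral ℤ (NK x) := fun x hx => (OK_int hx).2.1
  let PJ : KK → Prop := fun x => x ∈ OK ∧ v.valuation kk (NK x) < 1
  have hmul : ∀ x q, PJ x → q ∈ OK → PJ (x * q) := by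
    rintro x q ⟨h1, h2⟩ hq
    refine ⟨OK.mul_mem h1 hq, ?_⟩
    rw [NK_mul, map_mul]
    exact mul_lt_one_of_lt_of_le h2 (InGen_val v (hint q hq))
  have hsub : ∀ x y, PJ x → PJ y → PJ (x - y) := by
    intro x y h1 h2
    refine ⟨OK.sub_mem h1.1 h2.1, ?_⟩
    have h3 := hmul y (-1) h2 (OK.neg_mem OK.one_mem)
    have h4 : x - y = x + y * (-1) := by ring
    rw [h4]
    exact InGen_add v hv h1.1 h3.1 h1.2 h3.2
  have hs : ∀ s : 𝓞 kk, s ∈ v.asIdeal → PJ (algebraMap kk KK (s : kk)) := by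
    intro s hs
    obtain ⟨a, b, hab⟩ := (int_iff (s : kk)).1 s.2
    refine ⟨?_, ?_⟩
    · rw [hab]
      exact kk_OK a b
    · rw [NK_algebraMap, map_pow]
      exact pow_lt_one₀ zero_le ((v.valuation_lt_one_iff_mem s).2 hs) two_ne_zero
  have hex : ∃ n : ℕ, ∃ x, PJ x ∧ x ≠ 0 ∧ NQ x = n := by
    obtain ⟨s, hs1, hs2⟩ := Submodule.exists_mem_ne_zero_of_ne_bot v.ne_bot
    obtain ⟨n, hn⟩ := (OK_int (hs s hs1).1).2.2
    refine ⟨n, _, hs s hs1, ?_, hn⟩
    intro h
    apply hs2
    have h1 := congrArg QuadraticAlgebra.re h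
    simp at h1
    exact h1
  obtain ⟨p, hp, hp0, hpn⟩ := Nat.find_spec hex
  have hgen : ∀ x, PJ x → ∃ q ∈ OK, x = p * q := by
    intro x hx
    obtain ⟨q, hq, hqn⟩ := euclid (x / p)
    refine ⟨q, hq, ?_⟩
    by_contra hne
    have h1 : PJ (x - p * q) := hsub _ _ hx (hmul _ _ hp hq)
    have h2 : x - p * q = p * (x / p - q) := by
      field_simp
    obtain ⟨n, hn⟩ := (OK_int h1.1).2.2
    have h4 : NQ (x - p * q) ≤ NQ p * (5 / 9) := by
      rw [h2, NQ_mul]
      exact mul_le_mul_of_nonneg_left hqn (NQ_pos hp0).le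
    have h5 : NQ (x - p * q) < NQ p := by
      have := NQ_pos hp0
      linarith
    rw [hn, hpn] at h5
    have h6 : n < Nat.find hex := by exact_mod_cast h5
    exact Nat.find_min hex h6 ⟨_, h1, sub_ne_zero.2 hne, hn⟩
  have hNp0 : NK p ≠ 0 := NK_ne hp0
  -- the divisibility relation
  have hdiv : ∀ s : 𝓞 kk, s ∈ v.asIdeal → s ≠ 0 → ∃ z : kk, IsIntegral ℤ z ∧ z ≠ 0 ∧
      NK p * z = (s : kk) ^ 2 := by
    intro s hs1 hs2
    obtain ⟨q, hq, hqe⟩ := hgen _ (hs s hs1)
    have h3 : NK p * NK q = (s : kk) ^ 2 := by rw [← NK_mul, ← hqe, NK_algebraMap]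
    refine ⟨NK q, hint q hq, ?_, h3⟩
    intro h
    rw [h, mul_zero] at h3
    have h4 : (s : kk) = 0 := (pow_eq_zero_iff two_ne_zero).1 h3.symm
    exact hs2 (by exact_mod_cast h4)
  have hord : ord v (NK p) = 2 := by
    have h1 : 0 < ord v (NK p) := (val_lt_one hNp0).1 hp.2
    obtain ⟨π, hπ⟩ := v.intValuation_exists_uniformizer
    have hπm : π ∈ v.asIdeal := by
      have := (v.intValuation_le_pow_iff_mem π 1).1 (by rw [hπ]; simp)
      rwa [pow_one] at this
    have hπ0 : π ≠ 0 := by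
      rintro rfl
      rw [map_zero] at hπ
      exact WithZero.exp_ne_zero hπ.symm
    have hπo : ord v (π : kk) = 1 := by
      have h2 : v.valuation kk (π : kk) = WithZero.exp (-1 : ℤ) := by
        rw [← hπ]
        exact v.valuation_of_algebraMap (K := kk) π
      rw [ord, h2, WithZero.log_exp]
      norm_num
    obtain ⟨z, hz, hz0, hze⟩ := hdiv π hπm hπ0
    have h6 := congrArg (ord v) hze
    rw [ord_mul v hNp0 hz0, ord_pow, hπo] at h6
    have h7 := InGen_ord v hz hz0
    push_cast at h6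
    have h8 : ord v (NK p) ≠ 1 := by
      intro h9
      by_cases hS : v ∈ SS4
      · have := inert_even v hS hp0
        rw [h9] at this
        exact absurd this (by decide)
      · obtain ⟨k1, k2⟩ := InGen_aniso v hv hS hp.1 hp.2
        have hle : ∀ x : kk, v.valuation kk x < 1 → v.valuation kk x ≤ WithZero.exp (-1 : ℤ) := by
          intro x hx
          by_cases hx0 : x = 0
          · rw [hx0, map_zero]
            exact zero_le
          · have hx1 : v.valuation kk x ≠ 0 := by simpa using hx0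
            have h10 := (val_lt_one hx0).1 hx
            rw [← WithZero.exp_log hx1, WithZero.exp_le_exp]
            unfold ord at h10
            omega
        have h11 : v.valuation kk (NK p) ≤ WithZero.exp (-1 : ℤ) * WithZero.exp (-1 : ℤ) := by
          unfold NK
          refine (Valuation.map_add _ _ _).trans (max_le ?_ ?_)
          · refine (Valuation.map_sub _ _ _).trans (max_le ?_ ?_)
            · rw [pow_two, map_mul]
              exact mul_le_mul' (hle _ k1) (hle _ k1)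
            · rw [map_mul]
              exact mul_le_mul' (hle _ k1) (hle _ k2)
          · rw [pow_two, map_mul]
            exact mul_le_mul' (hle _ k2) (hle _ k2)
        have h12 : v.valuation kk (NK p) ≠ 0 := by simpa using hNp0
        rw [← WithZero.exp_add, ← WithZero.exp_log h12, WithZero.exp_le_exp] at h11
        unfold ord at h9
        omega
    omega
  have hordw : ∀ w, w ≠ v → ord w (NK p) = 0 := by
    intro w hw
    have h1 : ¬ v.asIdeal ≤ w.asIdeal := fun h =>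
      hw (HeightOneSpectrum.ext (v.isMaximal.eq_of_le w.isPrime.ne_top h)).symm
    obtain ⟨s, hs1, hs2⟩ := Set.not_subset.1 h1
    have hs0' : s ≠ 0 := by
      intro h
      apply hs2
      rw [h]
      exact w.asIdeal.zero_mem
    obtain ⟨z, hz, hz0, hze⟩ := hdiv s hs1 hs0'
    have h4 : ord w (s : kk) = 0 := by
      have h5 : w.valuation kk (s : kk) = 1 := by
        refine le_antisymm (w.valuation_le_one (K := kk) s) (not_lt.1 fun h => hs2 ?_)
        exact (w.valuation_lt_one_iff_mem s).1 h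
      rw [ord, h5]
      simp
    have h6 := congrArg (ord w) hze
    rw [ord_mul w hNp0 hz0, ord_pow, h4] at h6
    have h7 := InGen_ord w hz hz0
    have h8 := InGen_ord w (hint p hp.1) hNp0
    simp at h6
    omega
  refine ⟨p, hp.1, ?_, hp.2⟩
  -- the ideal of `NK p`
  obtain ⟨a, b, hab⟩ := (int_iff (NK p)).1 (hint p hp.1)
  have ht : ((InGen_mk a b : 𝓞 kk) : kk) = NK p := hab.symm
  have ht0 : InGen_mk a b ≠ 0 := by
    intro h
    apply hNp0
    rw [← ht, h]
    rfl
  have hle : ∀ (w : Pl) (n : ℕ), (n : ℤ) ≤ ord w (NK p) ↔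
      w.asIdeal ^ n ∣ Ideal.span {InGen_mk a b} := by
    intro w n
    have hval : w.valuation kk (NK p) = w.intValuation (InGen_mk a b) := by
      rw [← ht]
      exact w.valuation_of_algebraMap _
    have hne : w.intValuation (InGen_mk a b) ≠ 0 := w.intValuation_ne_zero _ ht0
    rw [← w.intValuation_le_pow_iff_dvd, ord, hval, ← WithZero.exp_log hne, WithZero.exp_le_exp,
      WithZero.log_exp]
    constructor <;> intro h <;> linarith
  obtain ⟨J, hJ⟩ := (hle v 2).1 (by rw [hord]; norm_num)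
  have hJt : J = ⊤ := by
    by_contra hJ1
    obtain ⟨M, hM, hJM⟩ := Ideal.exists_le_maximal J hJ1
    have hJ0 : J ≠ ⊥ := by
      rintro rfl
      apply ht0
      rw [← Ideal.span_singleton_eq_bot, hJ, Ideal.mul_bot]
    have hM0 : M ≠ ⊥ := fun h => hJ0 (le_bot_iff.1 (h ▸ hJM))
    let w : Pl := ⟨M, hM.isPrime, hM0⟩
    have hwJ : w.asIdeal ∣ J := Ideal.dvd_iff_le.2 hJM
    by_cases hwv : w = v
    · have h1 : v.asIdeal ^ 3 ∣ Ideal.span {InGen_mk a b} := by
        rw [hJ, pow_succ]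
        exact mul_dvd_mul_left _ (hwv ▸ hwJ)
      have h2 := (hle v 3).2 h1
      rw [hord] at h2
      norm_num at h2
    · have h1 : w.asIdeal ^ 1 ∣ Ideal.span {InGen_mk a b} := by
        rw [hJ, pow_one]
        exact hwJ.mul_left _
      have h2 := (hle w 1).2 h1
      rw [hordw w hwv] at h2
      norm_num at h2
  rw [hJt, Ideal.mul_top] at hJ
  have h1 := InGen_norm a b
  rw [hJ, map_pow] at h1
  have h2 : NQ p = ((a ^ 2 + a * b + 4 * b ^ 2 : ℤ) : ℚ) := by
    rw [NQ, hab]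
    push_cast
    ring
  have h3 : (0 : ℤ) ≤ a ^ 2 + a * b + 4 * b ^ 2 := by nlinarith [sq_nonneg (2 * a + b)]
  rw [h2]
  have h4 : (a ^ 2 + a * b + 4 * b ^ 2 : ℤ) = ((Ideal.absNorm v.asIdeal ^ 2 : ℕ) : ℤ) := by
    rw [h1]
    exact (Int.natAbs_of_nonneg h3).symm
  rw [h4]
  push_cast
  rfl

/-- The norm is onto modulo a place not dividing 6. -/
theorem norm_onto (v : Pl) (h2 : (2 : 𝓞 kk) ∉ v.asIdeal) (h3 : (3 : 𝓞 kk) ∉ v.asIdeal) (b : 𝓞 kk) :
    ∃ x₀ x₁ : 𝓞 kk, x₀ ^ 2 - x₀ * x₁ + x₁ ^ 2 - b ∈ v.asIdeal := by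
  classical
  have hmax : v.asIdeal.IsMaximal := v.isMaximal
  let _ : Field (𝓞 kk ⧸ v.asIdeal) := Ideal.Quotient.field v.asIdeal
  have hfin : Finite (𝓞 kk ⧸ v.asIdeal) := Ring.HasFiniteQuotients.finiteQuotient v.ne_bot
  let _ : Fintype (𝓞 kk ⧸ v.asIdeal) := Fintype.ofFinite _
  rw [← Ideal.Quotient.eq_zero_iff_mem, map_ofNat] at h2 h3
  have hchar : ringChar (𝓞 kk ⧸ v.asIdeal) ≠ 2 := by
    intro h
    apply h2
    have := ringChar.Nat.cast_ringChar (R := 𝓞 kk ⧸ v.asIdeal)
    rw [h] at this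
    exact_mod_cast this
  have hodd := FiniteField.odd_card_of_char_ne_two hchar
  set B := Ideal.Quotient.mk v.asIdeal b
  obtain ⟨u, w, huw⟩ := FiniteField.exists_root_sum_quadratic
    (f := Polynomial.X ^ 2 - Polynomial.C (4 * B)) (g := Polynomial.C 3 * Polynomial.X ^ 2)
    (Polynomial.degree_X_pow_sub_C (by norm_num) _)
    (Polynomial.degree_C_mul_X_pow 2 h3) hodd
  simp only [Polynomial.eval_sub, Polynomial.eval_pow, Polynomial.eval_X, Polynomial.eval_C,
    Polynomial.eval_mul] at huw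
  obtain ⟨x₀, hx₀⟩ := Ideal.Quotient.mk_surjective ((u + w) / 2)
  obtain ⟨x₁, hx₁⟩ := Ideal.Quotient.mk_surjective w
  refine ⟨x₀, x₁, ?_⟩
  rw [← Ideal.Quotient.eq_zero_iff_mem, map_sub, map_add, map_sub, map_pow, map_mul, map_pow, hx₀,
    hx₁]
  change ((u + w) / 2) ^ 2 - (u + w) / 2 * w + w ^ 2 - B = 0
  have h4 : (4 : 𝓞 kk ⧸ v.asIdeal) ≠ 0 := by
    have : (4 : 𝓞 kk ⧸ v.asIdeal) = 2 * 2 := by norm_num
    rw [this]
    exact mul_ne_zero h2 h2
  field_simp
  linear_combination huw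

/-- Congruent elements have congruent norms. -/
theorem inV_norm (v : Pl) (hv : om v = -1) {x y : KK} (hx : x ∈ OK) (hy : y ∈ OK)
    (h : v.valuation kk (NK y) < 1) : v.valuation kk (NK (x - y) - NK x) < 1 := by
  by_cases hS : v ∈ SS4
  · have h1 : algebraMap kk KK (NK (x - y) - NK x) = (-(x * star y)) + (y * star y + (-(y * star x))) := by
      rw [map_sub, ← mul_star_KK, ← mul_star_KK, star_sub]
      ring
    have hxv := InGen_val v (OK_int hx).2.1
    have hn : ∀ z : KK, NK (-z) = NK z := by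
      intro z
      simp [NK]
    have h2 : v.valuation kk (NK (algebraMap kk KK (NK (x - y) - NK x))) < 1 := by
      rw [h1]
      refine (inert_add v hS _ _).trans_lt (max_lt ?_ ?_)
      · rw [hn, NK_mul, NK_star, map_mul, mul_comm]
        exact mul_lt_one_of_lt_of_le h hxv
      · refine (inert_add v hS _ _).trans_lt (max_lt ?_ ?_)
        · rw [NK_mul, NK_star, map_mul]
          exact mul_lt_one_of_lt_of_le h h.le
        · rw [hn, NK_mul, NK_star, map_mul]
          exact mul_lt_one_of_lt_of_le h hxv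
    rw [NK_algebraMap, map_pow] at h2
    by_contra hcon
    rw [not_lt] at hcon
    exact absurd h2 (not_lt.2 (one_le_pow₀ hcon))
  · obtain ⟨k1, k2⟩ := InGen_aniso v hv hS hy h
    obtain ⟨c1, c2⟩ := OK_coord hx hS
    have h1 : NK (x - y) - NK x = NK y - (y.re * (2 * x.re - x.im) + y.im * (2 * x.im - x.re)) := by
      simp only [NK, QuadraticAlgebra.re_sub, QuadraticAlgebra.im_sub]
      ring
    have h2 : v.valuation kk (2 : kk) ≤ 1 := by
      have h5 : v.valuation kk ((2 : 𝓞 kk) : kk) ≤ 1 := v.valuation_le_one (K := kk) (2 : 𝓞 kk)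
      have h4 : ((2 : 𝓞 kk) : kk) = 2 := map_ofNat (algebraMap (𝓞 kk) kk) 2
      rwa [h4] at h5
    rw [h1]
    refine (Valuation.map_sub _ _ _).trans_lt (max_lt h ?_)
    refine (Valuation.map_add _ _ _).trans_lt (max_lt ?_ ?_)
    · rw [map_mul]
      refine mul_lt_one_of_lt_of_le k1 ?_
      refine (Valuation.map_sub _ _ _).trans (max_le ?_ c2)
      rw [map_mul]
      exact mul_le_one' h2 c1
    · rw [map_mul]
      refine mul_lt_one_of_lt_of_le k2 ?_
      refine (Valuation.map_sub _ _ _).trans (max_le ?_ c1)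
      rw [map_mul]
      exact mul_le_one' h2 c2

end

end Pool.Agent.Work.MP_14c213_gt
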