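import Pool.Agent.Work.MP_14c213_gt.B.OrdB
import Pool.Agent.Work.MP_14c213_gt.B.S4a
import Mathlib.Algebra.QuadraticAlgebra.NormDeterminant

/-!
Reciprocity: for t ≠ 0 the product of om v ^ ord v t over all v is 1. For integral t = x + yθ with 3 not
dividing x² + xy + 4y²: ∏ Nv^{ord v t} = x² + xy + 4y² ≡ (x - y)² ≡ 1 mod 3, and om v ≡ Nv mod 3 for
all v occurring. If the place over 3 occurs: multiply t by (√-15)/3 = (2θ-1)/3 or its inverse;
om at the places over 3 and 5 are both -1 and (√-15) = P3 P5.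
-/

namespace Pool.Agent.Work.MP_14c213_gt

open Matrix IsDedekindDomain
open scoped Matrix NumberField QuadraticAlgebra

noncomputable section

/-- The product in question. -/
private def FR (t : kk) : ℤˣ := ∏ᶠ v : Pl, om v ^ (ord v t)

private theorem FR_fin {t : kk} (ht : t ≠ 0) :
    Function.HasFiniteMulSupport (fun v : Pl => om v ^ (ord v t)) := by
  refine (ord_finite ht).subset ?_
  intro v hv
  simp only [Function.mem_mulSupport] at hv
  simp only [Set.mem_ofPred_eq]
  intro h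
  exact hv (by rw [h, zpow_zero])

private theorem FR_mul {s t : kk} (hs : s ≠ 0) (ht : t ≠ 0) : FR (s * t) = FR s * FR t := by
  rw [FR, FR, FR, ← finprod_mul_distrib (FR_fin hs) (FR_fin ht)]
  exact finprod_congr fun v => by rw [ord_mul v hs ht, _root_.zpow_add]

private theorem FR_pow {s : kk} (hs : s ≠ 0) (n : ℕ) : FR (s ^ n) = FR s ^ n := by
  induction n with
  | zero =>
    rw [pow_zero, pow_zero, FR]
    rw [finprod_congr (g := fun _ => (1 : ℤˣ)) (fun v => by rw [ord_one, zpow_zero]), finprod_one]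
  | succ n ih => rw [pow_succ, pow_succ, FR_mul (pow_ne_zero _ hs) hs, ih]

/-- The exponent of `v` in an integral element. -/
private def cnt (v : Pl) (r : 𝓞 kk) : ℕ :=
  (Associates.mk v.asIdeal).count (Associates.mk (Ideal.span {r})).factors

private theorem ord_cnt (v : Pl) {r : 𝓞 kk} (hr : r ≠ 0) : ord v (algebraMap (𝓞 kk) kk r) = cnt v r := by
  rw [ord, HeightOneSpectrum.valuation_of_algebraMap, v.intValuation_if_neg hr, WithZero.log_exp,
    cnt]
  ring

private theorem norm_prod {r : 𝓞 kk} (hr : r ≠ 0) :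
    Function.HasFiniteMulSupport (fun v : Pl => Ideal.absNorm v.asIdeal ^ cnt v r) ∧
    Ideal.absNorm (Ideal.span {r}) = ∏ᶠ v : Pl, Ideal.absNorm v.asIdeal ^ cnt v r := by
  have hI : Ideal.span {r} ≠ 0 := by simpa using hr
  have h1 := Ideal.finprod_heightOneSpectrum_factorization hI
  have hf := Ideal.hasFiniteMulSupport hI
  have h2 := MonoidHom.map_finprod (Ideal.absNorm (S := 𝓞 kk)).toMonoidHom hf
  rw [h1] at h2
  constructor
  · refine (ord_finite (x := algebraMap (𝓞 kk) kk r) (by simpa using hr)).subset ?_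
    intro v hv
    simp only [Function.mem_mulSupport] at hv
    simp only [Set.mem_ofPred_eq, ord_cnt v hr]
    intro h
    exact hv (by rw [Nat.cast_eq_zero.1 h, pow_zero])
  · refine Eq.trans h2 (finprod_congr fun v => ?_)
    simp only [HeightOneSpectrum.maxPowDividing]
    exact map_pow Ideal.absNorm _ _

/-- The unique prime over three. -/
private theorem P3_exists : ∃ P3 : Pl, (3 : 𝓞 kk) ∈ P3.asIdeal ∧ Ideal.absNorm P3.asIdeal = 3 ∧
    om P3 = -1 ∧ ord P3 3 = 2 ∧ ∀ v : Pl, v ≠ P3 → (3 : 𝓞 kk) ∉ v.asIdeal := by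
  obtain ⟨P2, P3, P17, P23, hS, m2, m3, m17, m23, h2, h3, h17, h23, -⟩ := S4_list
  have k3 := three_mem P3 m3
  refine ⟨P3, m3, h3, om_S4 P3 k3.1, k3.2, fun v hv h => ?_⟩
  have hvS := (three_mem v h).1
  rw [hS] at hvS
  simp only [Set.mem_insert_iff, Set.mem_singleton_iff] at hvS
  rcases hvS with rfl | rfl | rfl | rfl
  · refine v.isPrime.ne_top ((Ideal.eq_top_iff_one _).2 ?_)
    have := Ideal.sub_mem _ h m2
    norm_num at this
    exact this
  · exact hv rfl
  · refine v.isPrime.ne_top ((Ideal.eq_top_iff_one _).2 ?_)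
    have := Ideal.sub_mem _ (Ideal.mul_mem_left _ 6 h) m17
    norm_num at this
    exact this
  · refine v.isPrime.ne_top ((Ideal.eq_top_iff_one _).2 ?_)
    have := Ideal.sub_mem _ (Ideal.mul_mem_left _ 8 h) m23
    norm_num at this
    exact this

private theorem om_cast {v : Pl} (hv : (3 : 𝓞 kk) ∉ v.asIdeal) :
    ((om v : ℤ) : ZMod 3) = (Ideal.absNorm v.asIdeal : ZMod 3) := by
  have h3 : ¬ 3 ∣ Ideal.absNorm v.asIdeal := by
    intro h
    apply hv
    have hne : Ideal.absNorm v.asIdeal ≠ 0 := by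
      rw [Ne, Ideal.absNorm_eq_zero_iff]
      exact v.ne_bot
    rw [Ideal.absNorm_apply, Submodule.cardQuot_apply] at h hne
    have : Finite (𝓞 kk ⧸ v.asIdeal) := Nat.finite_of_card_ne_zero hne
    have : Fact (Nat.Prime 3) := ⟨by norm_num⟩
    obtain ⟨x, hx⟩ := exists_prime_addOrderOf_dvd_card' (G := 𝓞 kk ⧸ v.asIdeal) 3 h
    have hx0 : x ≠ 0 := by
      rintro rfl
      rw [addOrderOf_zero] at hx
      norm_num at hx
    have h3x : (3 : ℕ) • x = 0 := by
      rw [← hx]
      exact addOrderOf_nsmul_eq_zero x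
    obtain ⟨y, rfl⟩ := Ideal.Quotient.mk_surjective x
    rw [Ne, Ideal.Quotient.eq_zero_iff_mem] at hx0
    rw [← map_nsmul, Ideal.Quotient.eq_zero_iff_mem, nsmul_eq_mul] at h3x
    exact (v.isPrime.mem_or_mem h3x).resolve_right hx0
  have hlt : Ideal.absNorm v.asIdeal % 3 = 1 ∨ Ideal.absNorm v.asIdeal % 3 = 2 := by omega
  have hc : (Ideal.absNorm v.asIdeal : ZMod 3) = ((Ideal.absNorm v.asIdeal % 3 : ℕ) : ZMod 3) := by
    simp
  rw [hc]
  rcases hlt with h | h
  · rw [om, h]; rfl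
  · rw [om, h]; rfl

/-- The product modulo three. -/
private theorem FR_cast {P3 : Pl} (hP : ∀ v : Pl, v ≠ P3 → (3 : 𝓞 kk) ∉ v.asIdeal)
    (hN : Ideal.absNorm P3.asIdeal = 3) (ho : om P3 = -1) {r : 𝓞 kk} (hr : r ≠ 0) :
    ∃ M : ℕ, Ideal.absNorm (Ideal.span {r}) = 3 ^ cnt P3 r * M ∧
      ((FR (algebraMap (𝓞 kk) kk r) : ℤ) : ZMod 3) = (-1) ^ cnt P3 r * M := by
  classical
  obtain ⟨hfin, hprod⟩ := norm_prod hr
  let g : Pl → ℕ := fun v => if v = P3 then 3 ^ cnt P3 r else 1
  let h : Pl → ℕ := fun v => if v = P3 then 1 else Ideal.absNorm v.asIdeal ^ cnt v r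
  have hg : Function.HasFiniteMulSupport g := by
    refine (Set.finite_singleton P3).subset fun v hv => ?_
    by_contra hne
    exact hv (if_neg hne)
  have hh : Function.HasFiniteMulSupport h := by
    refine hfin.subset fun v hv => ?_
    simp only [Function.mem_mulSupport, h] at hv ⊢
    intro he
    apply hv
    split_ifs with hc
    · rfl
    · exact he
  have hgh : ∀ v : Pl, Ideal.absNorm v.asIdeal ^ cnt v r = g v * h v := by
    intro v
    by_cases hc : v = P3
    · subst hc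
      simp only [g, h, if_true, hN, mul_one]
    · simp only [g, h, if_neg hc, one_mul]
  have hgp : ∏ᶠ v, g v = 3 ^ cnt P3 r := by
    rw [finprod_eq_single g P3 (fun v hv => if_neg hv)]
    exact if_pos rfl
  refine ⟨∏ᶠ v, h v, ?_, ?_⟩
  · rw [hprod, finprod_congr hgh, finprod_mul_distrib hg hh, hgp]
  · let c : ℤˣ →* ZMod 3 := (Int.castRingHom (ZMod 3) : ℤ →* ZMod 3).comp (Units.coeHom ℤ)
    have hr' : algebraMap (𝓞 kk) kk r ≠ 0 := by simpa using hr
    have e1 : ((FR (algebraMap (𝓞 kk) kk r) : ℤ) : ZMod 3) =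
        ∏ᶠ v : Pl, c (om v ^ ord v (algebraMap (𝓞 kk) kk r)) :=
      MonoidHom.map_finprod c (FR_fin hr')
    have e2 : ((∏ᶠ v, h v : ℕ) : ZMod 3) = ∏ᶠ v : Pl, ((h v : ℕ) : ZMod 3) :=
      MonoidHom.map_finprod (Nat.castRingHom (ZMod 3) : ℕ →* ZMod 3) hh
    let g' : Pl → ZMod 3 := fun v => if v = P3 then (-1) ^ cnt P3 r else 1
    have hg' : Function.HasFiniteMulSupport g' := by
      refine (Set.finite_singleton P3).subset fun v hv => ?_
      by_contra hne
      exact hv (if_neg hne)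
    have hh' : Function.HasFiniteMulSupport (fun v : Pl => ((h v : ℕ) : ZMod 3)) := by
      refine hh.subset fun v hv => ?_
      simp only [Function.mem_mulSupport] at hv ⊢
      intro he
      exact hv (by rw [he, Nat.cast_one])
    have hgp' : ∏ᶠ v, g' v = (-1) ^ cnt P3 r := by
      rw [finprod_eq_single g' P3 (fun v hv => if_neg hv)]
      exact if_pos rfl
    rw [e1, e2, ← hgp', ← finprod_mul_distrib hg' hh']
    refine finprod_congr fun v => ?_
    rw [ord_cnt v hr, zpow_natCast, map_pow]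
    have hc : c (om v) = ((om v : ℤ) : ZMod 3) := rfl
    rw [hc]
    by_cases hv : v = P3
    · subst hv
      simp only [g', h, if_true, ho]
      push_cast
      ring
    · simp only [g', h, if_neg hv, one_mul]
      rw [om_cast (hP v hv)]
      push_cast
      rfl

private theorem norm_q (x : kk) :
    Algebra.norm ℚ x = x.re ^ 2 + x.re * x.im + 4 * x.im ^ 2 := by
  rw [Algebra.norm_apply]
  have h := QuadraticAlgebra.det_toLinearMap_eq_norm x
  rw [QuadraticAlgebra.norm_def] at h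
  have h2 : (LinearMap.det ((Algebra.lmul ℚ kk) x) : ℚ) =
    (DistribSMul.toLinearMap ℚ (QuadraticAlgebra ℚ (-4) 1) x).det := by
    congr 1
  rw [h2, h]
  ring

/-- The norm of an integral element. -/
private theorem norm_int {r : 𝓞 kk} {a b : ℤ} (h : (r : kk) = ⟨a, b⟩) :
    (Ideal.absNorm (Ideal.span {r}) : ℤ) = a ^ 2 + a * b + 4 * b ^ 2 := by
  have h1 : ((Algebra.norm ℤ r : ℤ) : ℚ) = ((a ^ 2 + a * b + 4 * b ^ 2 : ℤ) : ℚ) := by
    rw [Algebra.coe_norm_int, norm_q, h]
    push_cast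
    rfl
  have h2 : Algebra.norm ℤ r = a ^ 2 + a * b + 4 * b ^ 2 := by exact_mod_cast h1
  rw [Ideal.absNorm_span_singleton, h2, Int.natAbs_of_nonneg]
  nlinarith [sq_nonneg (2 * a + b), sq_nonneg b]

private theorem val_iff (v : Pl) {n : 𝓞 kk} {x : kk} (h : algebraMap (𝓞 kk) kk n = x) :
    (v.valuation kk x < 1 ↔ n ∈ v.asIdeal) ∧ v.valuation kk x ≤ 1 := by
  subst h
  exact ⟨v.valuation_lt_one_iff_mem (K := kk) n, v.valuation_le_one (K := kk) n⟩

private theorem unit_eq {u : ℤˣ} (h : ((u : ℤ) : ZMod 3) = 1) : u = 1 := by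
  rcases Int.units_eq_one_or u with rfl | rfl
  · rfl
  · exact absurd h (by decide)

private theorem unit_sq (u : ℤˣ) : ((u : ℤ) : ZMod 3) ^ 2 = 1 := by
  rcases Int.units_eq_one_or u with rfl | rfl <;> decide

/-- Integral elements prime to three. -/
private theorem FR_int {P3 : Pl} (hP : ∀ v : Pl, v ≠ P3 → (3 : 𝓞 kk) ∉ v.asIdeal)
    (hN : Ideal.absNorm P3.asIdeal = 3) (ho : om P3 = -1) {r : 𝓞 kk} (hr : r ≠ 0)
    (h0 : cnt P3 r = 0) : FR (algebraMap (𝓞 kk) kk r) = 1 := by
  obtain ⟨M, hM, hF⟩ := FR_cast hP hN ho hr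
  obtain ⟨a, b, hab⟩ := (int_iff (algebraMap (𝓞 kk) kk r)).1 (NumberField.RingOfIntegers.isIntegral_coe r)
  have h1 := norm_int hab
  rw [h0, pow_zero, one_mul] at hM hF
  rw [hM] at h1
  have h2 : (M : ZMod 3) = ((a : ZMod 3) - b) ^ 2 := by
    have h3 : ((M : ℤ) : ZMod 3) = ((a ^ 2 + a * b + 4 * b ^ 2 : ℤ) : ZMod 3) := by rw [h1]
    push_cast at h3
    rw [h3]
    have h4 : (3 : ZMod 3) = 0 := by decide
    linear_combination ((a : ZMod 3) * b + b ^ 2) * h4
  have h5 := unit_sq (FR (algebraMap (𝓞 kk) kk r))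
  apply unit_eq
  rw [hF, h2] at h5 ⊢
  generalize (a : ZMod 3) - b = c at h5 ⊢
  revert c
  decide

private theorem FR_all {r : 𝓞 kk} (hr : r ≠ 0) : FR (algebraMap (𝓞 kk) kk r) = 1 := by
  obtain ⟨P3, m3, hN, ho, h3, hP⟩ := P3_exists
  have hr' : algebraMap (𝓞 kk) kk r ≠ 0 := by simpa using hr
  -- the number 3
  have n3 : (3 : 𝓞 kk) ≠ 0 := by norm_num
  have k3 : (3 : kk) ≠ 0 := by norm_num
  have e3 : algebraMap (𝓞 kk) kk 3 = 3 := map_ofNat _ 3
  have F3 : FR 3 = 1 := by
    obtain ⟨M, hM, hF⟩ := FR_cast hP hN ho n3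
    have hc : cnt P3 3 = 2 := by
      have := ord_cnt P3 n3
      rw [e3, h3] at this
      exact_mod_cast this.symm
    have hn := norm_int (r := 3) (a := 3) (b := 0) (by
      change algebraMap (𝓞 kk) kk 3 = _
      rw [e3]
      ext <;> simp [QuadraticAlgebra.re_ofNat, QuadraticAlgebra.im_ofNat])
    rw [hM, hc] at hn
    have hM1 : M = 1 := by
      push_cast at hn
      omega
    rw [e3, hc, hM1] at hF
    exact unit_eq (by rw [hF]; decide)
  -- the number √-15
  let l : 𝓞 kk := ⟨⟨(-1 : ℤ), (2 : ℤ)⟩, int_kk (-1) 2⟩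
  have el : algebraMap (𝓞 kk) kk l = ⟨-1, 2⟩ := by
    change (⟨((-1 : ℤ) : ℚ), ((2 : ℤ) : ℚ)⟩ : kk) = _
    norm_num
  have kl : (⟨-1, 2⟩ : kk) ≠ 0 := by
    intro h
    have := congrArg QuadraticAlgebra.re h
    norm_num at this
  have nl : l ≠ 0 := by
    rintro h
    rw [h, map_zero] at el
    exact kl el.symm
  have sq : (⟨-1, 2⟩ : kk) ^ 2 = -15 := by
    ext <;> simp [pow_two, QuadraticAlgebra.re_ofNat, QuadraticAlgebra.im_ofNat] <;> norm_num
  have ol : ord P3 (⟨-1, 2⟩ : kk) = 1 := by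
    have h1 := ord_pow P3 (⟨-1, 2⟩ : kk) 2
    rw [sq, show (-15 : kk) = -(3 * 5) by norm_num] at h1
    have h2 : ord P3 (-(3 * 5) : kk) = ord P3 (3 * 5 : kk) := by
      rw [ord, ord, Valuation.map_neg]
    have k5 : (5 : kk) ≠ 0 := by norm_num
    rw [h2, ord_mul P3 k3 k5, h3] at h1
    have h5 : ord P3 (5 : kk) = 0 := by
      have h6 : P3.valuation kk (5 : kk) = 1 := by
        obtain ⟨h7, h8⟩ := val_iff P3 (show algebraMap (𝓞 kk) kk 5 = 5 from map_ofNat _ 5)
        refine le_antisymm h8 (not_lt.1 fun hlt => ?_)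
        have h9 := h7.1 hlt
        refine P3.isPrime.ne_top ((Ideal.eq_top_iff_one _).2 ?_)
        have := Ideal.sub_mem _ (Ideal.mul_mem_left _ 2 m3) h9
        norm_num at this
        exact this
      rw [ord, h6, WithZero.log_one, neg_zero]
    rw [h5] at h1
    push_cast at h1
    omega
  have Fl : FR (⟨-1, 2⟩ : kk) = 1 := by
    obtain ⟨M, hM, hF⟩ := FR_cast hP hN ho nl
    have hc : cnt P3 l = 1 := by
      have := ord_cnt P3 nl
      rw [el, ol] at this
      exact_mod_cast this.symm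
    have hn := norm_int (r := l) (a := -1) (b := 2) (by
      change algebraMap (𝓞 kk) kk l = _
      rw [el]
      norm_num)
    rw [hM, hc] at hn
    have hM1 : M = 5 := by
      push_cast at hn
      omega
    rw [el, hc, hM1] at hF
    exact unit_eq (by rw [hF]; decide)
  -- reduction
  set n := cnt P3 r with hn
  set x := algebraMap (𝓞 kk) kk r with hx
  set s : kk := x * ⟨-1, 2⟩ ^ n * (3 ^ n)⁻¹ with hs
  have hs0 : s ≠ 0 := mul_ne_zero (mul_ne_zero hr' (pow_ne_zero _ kl)) (inv_ne_zero (pow_ne_zero _ k3))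
  have os : ∀ v : Pl, ord v s = ord v x + n * ord v (⟨-1, 2⟩ : kk) - n * ord v (3 : kk) := by
    intro v
    rw [hs, ord_mul v (mul_ne_zero hr' (pow_ne_zero _ kl)) (inv_ne_zero (pow_ne_zero _ k3)),
      ord_mul v hr' (pow_ne_zero _ kl), ord_inv, ord_pow, ord_pow]
    ring
  have oP : ord P3 s = 0 := by
    rw [os, ol, h3, hx, ord_cnt P3 hr, ← hn]
    ring
  have hsi : ∀ v : Pl, v.valuation kk s ≤ 1 := by
    intro v
    rw [val_le_one hs0]
    by_cases hv : v = P3
    · rw [hv, oP]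
    · have h5 : ord v (3 : kk) = 0 := by
        have h6 : v.valuation kk (3 : kk) = 1 := by
          obtain ⟨h7, h8⟩ := val_iff v e3
          exact le_antisymm h8 (not_lt.1 fun hlt => hP v hv (h7.1 hlt))
        rw [ord, h6, WithZero.log_one, neg_zero]
      have h6 : 0 ≤ ord v x := (val_le_one hr').1 (v.valuation_le_one r)
      have h7 : 0 ≤ ord v (⟨-1, 2⟩ : kk) := by
        rw [← el]
        exact (val_le_one (by rw [el]; exact kl)).1 (v.valuation_le_one l)
      rw [os, h5]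
      have h8 : 0 ≤ (n : ℤ) * ord v (⟨-1, 2⟩ : kk) := by positivity
      linarith
  obtain ⟨q, hq⟩ := HeightOneSpectrum.mem_integers_of_valuation_le_one kk s hsi
  have hq0 : q ≠ 0 := by
    rintro rfl
    rw [map_zero] at hq
    exact hs0 hq.symm
  have hcq : cnt P3 q = 0 := by
    have := ord_cnt P3 hq0
    rw [hq, oP] at this
    exact_mod_cast this.symm
  have Fs := FR_int hP hN ho hq0 hcq
  rw [hq] at Fs
  have hxs : x * ⟨-1, 2⟩ ^ n = s * 3 ^ n := by
    rw [hs, mul_assoc, inv_mul_cancel₀ (pow_ne_zero _ k3), mul_one]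
  have hF := congrArg FR hxs
  rw [FR_mul hr' (pow_ne_zero _ kl), FR_mul hs0 (pow_ne_zero _ k3), FR_pow kl, FR_pow k3, F3, Fl,
    Fs, one_pow, mul_one, mul_one] at hF
  exact hF

theorem reciprocity {t : kk} (ht : t ≠ 0) : ∏ᶠ v : Pl, om v ^ (ord v t) = 1 := by
  change FR t = 1
  obtain ⟨a, b, hb, rfl⟩ := IsFractionRing.div_surjective (A := 𝓞 kk) t
  have hb0 : b ≠ 0 := nonZeroDivisors.ne_zero hb
  have ha0 : a ≠ 0 := by
    rintro rfl
    rw [map_zero, zero_div] at ht
    exact ht rfl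
  have hb' : algebraMap (𝓞 kk) kk b ≠ 0 := by simpa using hb0
  have h1 := FR_mul ht hb'
  rw [div_mul_cancel₀ _ hb', FR_all ha0, FR_all hb0, mul_one] at h1
  exact h1.symm

end

end Pool.Agent.Work.MP_14c213_gt
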