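import Pool.Agent.Work.MP_14c213_gt.B.EucB
import Pool.Agent.Work.MP_14c213_gt.B.S4a

/-!
For om v = 1 (so Nv = 1 mod 3 and v does not divide 3) X² + X + 1 has a root r modulo v, and by changing
r the norm r² + r + 1 has order exactly 1 at v. J = {x ∈ OK : x.re + r x.im in v} (OK_coord) is an ideal
(kernel of a ring homomorphism), generated by an element p of minimal NQ (euclid). For s in v: p divides s
and NK p NK q = s²; p divides ζ - r (NK (ζ - r) = r² + r + 1, of order 1 at v): ord v (NK p) = 1 and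
ord w (NK p) = 0 for w ≠ v.
-/

namespace Pool.Agent.Work.MP_14c213_gt

open Matrix IsDedekindDomain
open scoped Matrix NumberField QuadraticAlgebra

noncomputable section

private theorem SplGen_root (v : Pl) (hv : Ideal.absNorm v.asIdeal % 3 = 1) :
    ∃ r : 𝓞 kk, r ^ 2 + r + 1 ∈ v.asIdeal := by
  classical
  have hmax : v.asIdeal.IsMaximal := v.isMaximal
  let _ : Field (𝓞 kk ⧸ v.asIdeal) := Ideal.Quotient.field v.asIdeal
  have hfin : Finite (𝓞 kk ⧸ v.asIdeal) := Ring.HasFiniteQuotients.finiteQuotient v.ne_bot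
  let _ : Fintype (𝓞 kk ⧸ v.asIdeal) := Fintype.ofFinite _
  have habs : Ideal.absNorm v.asIdeal = Fintype.card (𝓞 kk ⧸ v.asIdeal) := by
    rw [Ideal.absNorm_apply, Submodule.cardQuot_apply, Nat.card_eq_fintype_card]
  have hc : Fintype.card (𝓞 kk ⧸ v.asIdeal)ˣ = Fintype.card (𝓞 kk ⧸ v.asIdeal) - 1 :=
    Fintype.card_units _
  have h3 : 3 ∣ Fintype.card (𝓞 kk ⧸ v.asIdeal)ˣ := by
    rw [hc, ← habs]
    omega
  have _ : Fact (Nat.Prime 3) := ⟨Nat.prime_three⟩
  obtain ⟨g, hg⟩ := exists_prime_orderOf_dvd_card 3 h3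
  obtain ⟨r, hr⟩ := Ideal.Quotient.mk_surjective (g : 𝓞 kk ⧸ v.asIdeal)
  refine ⟨r, ?_⟩
  rw [← Ideal.Quotient.eq_zero_iff_mem, map_add, map_add, map_pow, hr, map_one]
  have h1 : g ^ 3 = 1 := by rw [← hg]; exact pow_orderOf_eq_one g
  have h2 : (g : 𝓞 kk ⧸ v.asIdeal) ^ 3 = 1 := by
    rw [← Units.val_pow_eq_pow_val, h1, Units.val_one]
  have h4 : (g : 𝓞 kk ⧸ v.asIdeal) ≠ 1 := by
    intro h
    have : g = 1 := Units.ext h
    rw [this, orderOf_one] at hg
    omega
  have h5 : ((g : 𝓞 kk ⧸ v.asIdeal) - 1) * ((g : 𝓞 kk ⧸ v.asIdeal) ^ 2 + g + 1) = 0 := by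
    linear_combination h2
  exact (mul_eq_zero.1 h5).resolve_left (sub_ne_zero.2 h4)

private theorem SplGen_root' (v : Pl) (hv : Ideal.absNorm v.asIdeal % 3 = 1)
    (h3 : (3 : 𝓞 kk) ∉ v.asIdeal) :
    ∃ r : 𝓞 kk, v.intValuation (r ^ 2 + r + 1) = WithZero.exp (-1 : ℤ) := by
  obtain ⟨r, hr⟩ := SplGen_root v hv
  obtain ⟨π, hπ⟩ := v.intValuation_exists_uniformizer
  by_cases h : v.intValuation (r ^ 2 + r + 1) = WithZero.exp (-1 : ℤ)
  · exact ⟨r, h⟩
  · refine ⟨r + π, ?_⟩
    have h1 : v.intValuation (r ^ 2 + r + 1) ≤ WithZero.exp (-1 : ℤ) := by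
      have := (v.intValuation_le_pow_iff_mem (r ^ 2 + r + 1) 1).2 (by rwa [pow_one])
      simpa using this
    have h2 : v.intValuation (r ^ 2 + r + 1) < WithZero.exp (-1 : ℤ) := lt_of_le_of_ne h1 h
    have hπm : π ∈ v.asIdeal := by
      have := (v.intValuation_le_pow_iff_mem π 1).1 (by rw [hπ]; simp)
      rwa [pow_one] at this
    have h4 : 2 * r + 1 + π ∉ v.asIdeal := by
      intro h5
      apply h3
      have h6 : (3 : 𝓞 kk) = 4 * (r ^ 2 + r + 1) - (2 * r + 1 + π) * (2 * r + 1 - π) - π * π := by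
        ring
      rw [h6]
      refine Ideal.sub_mem _ (Ideal.sub_mem _ (Ideal.mul_mem_left _ _ hr)
        (Ideal.mul_mem_right _ _ h5)) (Ideal.mul_mem_left _ _ hπm)
    have h7 : v.intValuation (2 * r + 1 + π) = 1 := v.intValuation_eq_one_iff.2 h4
    have h8 : (r + π) ^ 2 + (r + π) + 1 = (r ^ 2 + r + 1) + π * (2 * r + 1 + π) := by ring
    have h9 : v.intValuation (π * (2 * r + 1 + π)) = WithZero.exp (-1 : ℤ) := by
      rw [map_mul, h7, mul_one, hπ]
    rw [h8, Valuation.map_add_eq_of_lt_right _ (by rw [h9]; exact h2), h9]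

private theorem SplGen_val (v : Pl) {x : kk} (h : IsIntegral ℤ x) : v.valuation kk x ≤ 1 :=
  v.valuation_le_one (K := kk) (⟨x, h⟩ : 𝓞 kk)

private theorem SplGen_ord (v : Pl) {x : kk} (h : IsIntegral ℤ x) (h0 : x ≠ 0) : 0 ≤ ord v x :=
  (val_le_one h0).1 (SplGen_val v h)

theorem split_gen (v : Pl) (hv : om v = 1) :
    ∃ x ∈ OK, x ≠ 0 ∧ ord v (NK x) = 1 ∧ ∀ w, w ≠ v → ord w (NK x) = 0 := by
  classical
  have hN : Ideal.absNorm v.asIdeal % 3 = 1 := by
    by_contra h
    rw [om, if_neg h] at hv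
    exact absurd hv (by decide)
  have hvS : v ∉ SS4 := by
    intro h
    rw [om_S4 v h] at hv
    exact absurd hv (by decide)
  have h3 : (3 : 𝓞 kk) ∉ v.asIdeal := fun h => hvS (three_mem v h).1
  obtain ⟨r, hr⟩ := SplGen_root' v hN h3
  have hrv : v.valuation kk ((r : kk) ^ 2 + r + 1) = WithZero.exp (-1 : ℤ) := by
    rw [← hr, ← v.valuation_of_algebraMap (K := kk)]
    simp
  have hrv1 : v.valuation kk ((r : kk) ^ 2 + r + 1) < 1 := by
    rw [hrv]
    exact WithZero.exp_lt_exp.2 (by norm_num)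
  have hr1 : v.valuation kk (r : kk) ≤ 1 := v.valuation_le_one (K := kk) r
  let PJ : KK → Prop := fun x => x ∈ OK ∧ v.valuation kk (x.re + r * x.im) < 1
  have hsub : ∀ x y, PJ x → PJ y → PJ (x - y) := by
    rintro x y ⟨h1, h2⟩ ⟨k1, k2⟩
    refine ⟨OK.sub_mem h1 k1, ?_⟩
    have : (x - y).re + r * (x - y).im = (x.re + r * x.im) - (y.re + r * y.im) := by
      simp only [QuadraticAlgebra.re_sub, QuadraticAlgebra.im_sub]
      ring
    rw [this]
    exact (Valuation.map_sub _ _ _).trans_lt (max_lt h2 k2)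
  have hmul : ∀ x q, PJ x → q ∈ OK → PJ (x * q) := by
    rintro x q ⟨h1, h2⟩ hq
    refine ⟨OK.mul_mem h1 hq, ?_⟩
    have : (x * q).re + r * (x * q).im = (x.re + r * x.im) * (q.re + r * q.im) -
        ((r : kk) ^ 2 + r + 1) * (x.im * q.im) := by
      simp only [QuadraticAlgebra.re_mul, QuadraticAlgebra.im_mul]
      ring
    rw [this]
    obtain ⟨c1, c2⟩ := OK_coord h1 hvS
    obtain ⟨d1, d2⟩ := OK_coord hq hvS
    refine (Valuation.map_sub _ _ _).trans_lt (max_lt ?_ ?_)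
    · rw [map_mul]
      refine mul_lt_one_of_lt_of_le h2 ?_
      refine (Valuation.map_add _ _ _).trans (max_le d1 ?_)
      rw [map_mul]
      exact mul_le_one' hr1 d2
    · rw [map_mul, map_mul]
      exact mul_lt_one_of_lt_of_le hrv1 (mul_le_one' c2 d2)
  -- elements of `v`
  have hs : ∀ s : 𝓞 kk, s ∈ v.asIdeal → PJ (algebraMap kk KK (s : kk)) := by
    intro s hs
    obtain ⟨a, b, hab⟩ := (int_iff (s : kk)).1 s.2
    refine ⟨?_, ?_⟩
    · rw [hab]
      exact kk_OK a b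
    · have h1 : v.valuation kk (s : kk) < 1 := (v.valuation_lt_one_iff_mem s).2 hs
      have h2 : (algebraMap kk KK (s : kk)).re + r * (algebraMap kk KK (s : kk)).im = s := by
        simp
      rw [h2]
      exact h1
  -- `ζ - r`
  have hζ : PJ (zeta - algebraMap kk KK (r : kk)) := by
    obtain ⟨a, b, hab⟩ := (int_iff (r : kk)).1 r.2
    refine ⟨OK.sub_mem zeta_eps_OK.1 (by rw [hab]; exact kk_OK a b), ?_⟩
    have : (zeta - algebraMap kk KK (r : kk)).re + r * (zeta - algebraMap kk KK (r : kk)).im = 0 := by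
      simp [zeta]
    rw [this, map_zero]
    exact zero_lt_one
  have hNζ : NK (zeta - algebraMap kk KK (r : kk)) = (r : kk) ^ 2 + r + 1 := by
    simp [NK, zeta]
  -- minimal element
  have hex : ∃ n : ℕ, ∃ x, PJ x ∧ x ≠ 0 ∧ NQ x = n := by
    obtain ⟨s, hs1, hs2⟩ := Submodule.exists_mem_ne_zero_of_ne_bot v.ne_bot
    obtain ⟨n, hn⟩ := (OK_int (hs s hs1).1).2.2
    refine ⟨n, _, hs s hs1, ?_, hn⟩
    intro h
    apply hs2
    have h1 := congrArg QuadraticAlgebra.re h
    simp at h1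
    exact h1
  obtain ⟨p, hp, hp0, hpn⟩ := Nat.find_spec hex
  have hgen : ∀ x, PJ x → ∃ q ∈ OK, x = p * q := by
    intro x hx
    obtain ⟨q, hq, hqn⟩ := euclid (x / p)
    refine ⟨q, hq, ?_⟩
    by_contra hne
    have h1 : PJ (x - p * q) := hsub _ _ hx (hmul _ _ hp hq)
    have h2 : x - p * q = p * (x / p - q) := by
      field_simp
    obtain ⟨n, hn⟩ := (OK_int h1.1).2.2
    have h4 : NQ (x - p * q) ≤ NQ p * (5 / 9) := by
      rw [h2, NQ_mul]
      exact mul_le_mul_of_nonneg_left hqn (NQ_pos hp0).le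
    have h5 : NQ (x - p * q) < NQ p := by
      have := NQ_pos hp0
      linarith
    rw [hn, hpn] at h5
    have h6 : n < Nat.find hex := by exact_mod_cast h5
    exact Nat.find_min hex h6 ⟨_, h1, sub_ne_zero.2 hne, hn⟩
  have hNp0 : NK p ≠ 0 := NK_ne hp0
  have hint : ∀ x ∈ OK, IsIntegral ℤ (NK x) := fun x hx => (OK_int hx).2.1
  refine ⟨p, hp.1, hp0, ?_, ?_⟩
  · have h1 : v.valuation kk (NK p) < 1 := by
      have : NK p = (p.re + r * p.im) * (p.re + (-1 - r) * p.im) +
          ((r : kk) ^ 2 + r + 1) * p.im ^ 2 := by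
        simp only [NK]
        ring
      rw [this]
      obtain ⟨c1, c2⟩ := OK_coord hp.1 hvS
      refine (Valuation.map_add _ _ _).trans_lt (max_lt ?_ ?_)
      · rw [map_mul]
        refine mul_lt_one_of_lt_of_le hp.2 ?_
        refine (Valuation.map_add _ _ _).trans (max_le c1 ?_)
        rw [map_mul]
        refine mul_le_one' ?_ c2
        refine (Valuation.map_sub _ _ _).trans (max_le ?_ hr1)
        rw [Valuation.map_neg, map_one]
      · rw [map_mul, map_pow]
        exact mul_lt_one_of_lt_of_le hrv1 (pow_le_one' c2 2)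
    have h2 : 0 < ord v (NK p) := (val_lt_one hNp0).1 h1
    obtain ⟨q, hq, hqe⟩ := hgen _ hζ
    have h3 : NK p * NK q = (r : kk) ^ 2 + r + 1 := by rw [← NK_mul, ← hqe, hNζ]
    have h4 : ord v ((r : kk) ^ 2 + r + 1) = 1 := by
      rw [ord, hrv, WithZero.log_exp]
      norm_num
    have h5 : NK q ≠ 0 := by
      intro h
      rw [h, mul_zero] at h3
      rw [← h3, map_zero] at hrv
      exact WithZero.exp_ne_zero hrv.symm
    rw [← h3, ord_mul v hNp0 h5] at h4
    have h6 := SplGen_ord v (hint q hq) h5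
    omega
  · intro w hw
    have h1 : ¬ v.asIdeal ≤ w.asIdeal := fun h =>
      hw (HeightOneSpectrum.ext (v.isMaximal.eq_of_le w.isPrime.ne_top h)).symm
    obtain ⟨s, hs1, hs2⟩ := Set.not_subset.1 h1
    obtain ⟨q, hq, hqe⟩ := hgen _ (hs s hs1)
    have h3 : NK p * NK q = (s : kk) ^ 2 := by rw [← NK_mul, ← hqe, NK_algebraMap]
    have hs0 : (s : kk) ≠ 0 := by
      intro h
      apply hs2
      have : s = 0 := by exact_mod_cast h
      rw [this]
      exact w.asIdeal.zero_mem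
    have h4 : ord w (s : kk) = 0 := by
      have h5 : w.valuation kk (s : kk) = 1 := by
        refine le_antisymm (w.valuation_le_one (K := kk) s) (not_lt.1 fun h => hs2 ?_)
        exact (w.valuation_lt_one_iff_mem s).1 h
      rw [ord, h5]
      simp
    have h5 : NK q ≠ 0 := by
      intro h
      rw [h, mul_zero] at h3
      exact hs0 ((pow_eq_zero_iff two_ne_zero).1 h3.symm)
    have h6 := congrArg (ord w) h3
    rw [ord_mul w hNp0 h5, ord_pow, h4] at h6
    have h7 := SplGen_ord w (hint q hq) h5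
    have h8 := SplGen_ord w (hint p hp.1) hNp0
    simp at h6
    omega

end

end Pool.Agent.Work.MP_14c213_gt
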