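import Pool.Agent.Work.MP_14c213_gt.B.ParTab
import Pool.Agent.Work.MP_14c213_gt.B.RecB
import Pool.Agent.Work.MP_14c213_gt.B.S4b
import Pool.Agent.Work.MP_14c213_gt.B.InGen
import Pool.Agent.Work.MP_14c213_gt.B.SplGen

/-!
Parity statement. Let e_v denote unit parity vectors modulo the parities of nrd(A^×). om v = 1: e_v = 0
by split_gen (g = inK x). om v = -1, absNorm ≤ 193: e_v = e_P (parity_table). Larger v (not in SS4, not
over 2, 3): norm_onto gives x₀ ∈ OK with NK x₀ - b ∈ v; reduce x = x₀ - p q (p from inert_gen, q from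
euclid applied to x₀ / p), NQ x ≤ (5/9) Nv², and by inV_norm NK x - b ∈ v; in ℂ: |NK x| ≤ (√5/3) Nv and
|b| = √2346, so 0 < |NK x - b|² ≤ ((√5/3) Nv + √2346)² < Nv² for Nv > 193; g = x + j has nrd g = NK x - b
in v with cofactor of norm less than Nv (nrd g ≠ 0 by nrd_eq_zero). Strong induction on Nv: all other
places w with odd ord w (nrd g) are smaller, and by reciprocity for nrd g the number of those with
om w = -1 is odd, so e_v = e_P. Then for a general e with ∏ om v ^ e v = 1 combine (take products of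
the elements g found; induction on the finite support).
-/

namespace Pool.Agent.Work.MP_14c213_gt

open Matrix IsDedekindDomain
open scoped Matrix NumberField QuadraticAlgebra

noncomputable section

/-! ### Parity vectors -/

private def parB_Good (f : Pl → ZMod 2) : Prop :=
  ∃ g : AAˣ, ∀ v, ((ord v (nrd (g : AA)) : ℤ) : ZMod 2) = f v

private theorem parB_zero : parB_Good 0 :=
  ⟨1, fun v => by simp [nrd_one, ord_one]⟩

private theorem parB_add {f f' : Pl → ZMod 2} (h : parB_Good f) (h' : parB_Good f') :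
    parB_Good (f + f') := by
  obtain ⟨g, hg⟩ := h
  obtain ⟨g', hg'⟩ := h'
  refine ⟨g * g', fun v => ?_⟩
  rw [Units.val_mul, nrd_mul, ord_mul v (nrd_ne g) (nrd_ne g'), Int.cast_add, hg, hg', Pi.add_apply]

private theorem parB_sum {ι : Type*} (S : Finset ι) (f : ι → Pl → ZMod 2)
    (h : ∀ i ∈ S, parB_Good (f i)) : parB_Good (∑ i ∈ S, f i) :=
  Finset.sum_induction f parB_Good (fun _ _ => parB_add) parB_zero h

private def parB_c : ℤˣ →* Multiplicative (ZMod 2) where
  toFun u := Multiplicative.ofAdd (if u = 1 then 0 else 1)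
  map_one' := by simp
  map_mul' := by decide

open Classical in
private def parB_dd (P v : Pl) : Pl → ZMod 2 :=
  Pi.single v 1 + Pi.single P (Multiplicative.toAdd (parB_c (om v)))

open Classical in
private theorem parB_sum_dd (P : Pl) (S : Finset Pl) (h : ∏ v ∈ S, om v = 1) :
    ∑ v ∈ S, parB_dd P v = ∑ v ∈ S, (Pi.single v 1 : Pl → ZMod 2) := by
  simp only [parB_dd]
  rw [Finset.sum_add_distrib]
  have h1 : ∑ v ∈ S, (Pi.single P (Multiplicative.toAdd (parB_c (om v))) : Pl → ZMod 2) = 0 := by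
    have h2 : ∑ v ∈ S, Multiplicative.toAdd (parB_c (om v)) = 0 := by
      rw [← toAdd_prod, ← map_prod, h, map_one, toAdd_one]
    ext w
    rw [Finset.sum_apply]
    by_cases hw : w = P
    · subst hw
      simp [h2]
    · simp [Pi.single_eq_of_ne hw]
  rw [h1, add_zero]

open Classical in
private theorem parB_expand (f : Pl → ZMod 2) (S : Finset Pl) (hS : ∀ v, v ∈ S ↔ f v ≠ 0) :
    f = ∑ v ∈ S, (Pi.single v 1 : Pl → ZMod 2) := by
  ext w
  rw [Finset.sum_apply]
  by_cases hw : w ∈ S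
  · rw [Finset.sum_eq_single w]
    · have h1 := (hS w).1 hw
      have h2 : ∀ x : ZMod 2, x ≠ 0 → x = 1 := by decide
      simp [h2 _ h1]
    · intro b _ hb
      exact Pi.single_eq_of_ne hb.symm _
    · intro h; exact absurd hw h
  · rw [Finset.sum_eq_zero]
    · by_contra h1
      exact hw ((hS w).2 h1)
    · intro b hb
      apply Pi.single_eq_of_ne
      rintro rfl
      exact hw hb

private theorem parB_zpow (u : ℤˣ) (n : ℤ) : u ^ n = if ((n : ℤ) : ZMod 2) ≠ 0 then u else 1 := by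
  have h2 : u ^ (2 : ℤ) = 1 := by
    have := Int.units_sq u
    exact_mod_cast this
  rcases Int.even_or_odd' n with ⟨k, rfl | rfl⟩
  · have : ((2 * k : ℤ) : ZMod 2) = 0 := by
      rw [Int.cast_mul, show ((2 : ℤ) : ZMod 2) = 0 from by decide, zero_mul]
    rw [if_neg (by simp [this]), _root_.zpow_mul, h2, _root_.one_zpow]
  · have : ((2 * k + 1 : ℤ) : ZMod 2) = 1 := by
      rw [Int.cast_add, Int.cast_mul, show ((2 : ℤ) : ZMod 2) = 0 from by decide, zero_mul, zero_add,
        Int.cast_one]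
    rw [if_pos (by simp [this]), _root_.zpow_add, _root_.zpow_mul, h2, _root_.one_zpow, one_mul,
      _root_.zpow_one]

private theorem parB_finprod (e : Pl → ℤ) (S : Finset Pl)
    (hS : ∀ v, v ∈ S ↔ ((e v : ℤ) : ZMod 2) ≠ 0) : ∏ᶠ v : Pl, om v ^ e v = ∏ v ∈ S, om v := by
  rw [finprod_eq_prod_of_mulSupport_subset (s := S)]
  · apply Finset.prod_congr rfl
    intro v hv
    rw [parB_zpow, if_pos ((hS v).1 hv)]
  · intro v hv
    rw [Finset.mem_coe, hS]
    intro h
    apply hv
    simp only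
    rw [parB_zpow, if_neg (by simp [h])]

/-! ### The norm of `k` -/

private def parB_N2 (x : kk) : ℚ := x.re ^ 2 + x.re * x.im + 4 * x.im ^ 2

private theorem parB_phik (x : kk) : phik x = (x.re : ℂ) + (x.im : ℂ) *
    ((1 + Complex.I * (Real.sqrt 15 : ℂ)) / 2) := by
  simp [phik, Algebra.smul_def]

private theorem parB_norm_phik (x : kk) : ‖phik x‖ ^ 2 = ((parB_N2 x : ℚ) : ℝ) := by
  have h : (Real.sqrt 15) ^ 2 = 15 := Real.sq_sqrt (by norm_num)
  rw [← Complex.normSq_eq_norm_sq, parB_phik, Complex.normSq_apply]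
  simp [parB_N2]
  linear_combination (x.im : ℝ) ^ 2 / 4 * h

private theorem parB_norm (x : kk) : Algebra.norm ℚ x = parB_N2 x := by
  have h1 := QuadraticAlgebra.det_toLinearMap_eq_norm x
  have h2 : QuadraticAlgebra.norm x = parB_N2 x := by
    simp [QuadraticAlgebra.norm_def, parB_N2]
    ring
  rw [← h2, ← h1, Algebra.norm_apply]
  congr 1

private theorem parB_absNorm {t : 𝓞 kk} :
    ((Ideal.absNorm (Ideal.span {t}) : ℕ) : ℚ) = parB_N2 (t : kk) := by
  have h1 := Algebra.coe_norm_int t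
  rw [parB_norm] at h1
  have h0 : 0 ≤ parB_N2 (t : kk) := by
    simp only [parB_N2]
    nlinarith [sq_nonneg ((t : kk).re + (t : kk).im / 2), sq_nonneg ((t : kk).im)]
  rw [Ideal.absNorm_span_singleton, ← h1]
  rw [← h1] at h0
  have h2 : 0 ≤ Algebra.norm ℤ t := by exact_mod_cast h0
  have h3 : (((Algebra.norm ℤ t).natAbs : ℤ) : ℚ) = ((Algebra.norm ℤ t : ℤ) : ℚ) := by
    rw [Int.natAbs_of_nonneg h2]
  rwa [Int.cast_natCast] at h3

private theorem parB_small {t : 𝓞 kk} (ht : t ≠ 0) {v : Pl} (hv : t ∈ v.asIdeal)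
    (hN : Ideal.absNorm (Ideal.span {t}) < Ideal.absNorm v.asIdeal ^ 2) :
    ord v (t : kk) = 1 ∧ ∀ w : Pl, w ≠ v → ord w (t : kk) ≠ 0 →
      Ideal.absNorm w.asIdeal < Ideal.absNorm v.asIdeal := by
  have hpos : 0 < Ideal.absNorm (Ideal.span {t}) := by
    rw [Nat.pos_iff_ne_zero, Ne, Ideal.absNorm_eq_zero_iff, Ideal.span_singleton_eq_bot]
    exact ht
  have htk : (t : kk) ≠ 0 := by
    intro h
    apply ht
    exact NumberField.RingOfIntegers.ext h
  constructor
  · have h1 : 0 < ord v (t : kk) := by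
      rw [← val_lt_one htk, HeightOneSpectrum.valuation_lt_one_iff_mem]
      exact hv
    by_contra h2
    have h3 : 2 ≤ ord v (t : kk) := by omega
    have h4 : t ∈ v.asIdeal ^ 2 := by
      rw [← HeightOneSpectrum.intValuation_le_pow_iff_mem,
        ← HeightOneSpectrum.valuation_of_algebraMap (K := kk)]
      apply WithZero.le_exp_of_log_le
      have h5 : ord v (t : kk) = -WithZero.log (v.valuation kk (t : kk)) := rfl
      rw [h5] at h3
      change WithZero.log (v.valuation kk (t : kk)) ≤ -((2 : ℕ) : ℤ)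
      push_cast
      omega
    have h5 := Ideal.absNorm_dvd_absNorm_of_le ((Ideal.span_singleton_le_iff_mem _).2 h4)
    rw [map_pow] at h5
    have h6 := Nat.le_of_dvd hpos h5
    omega
  · intro w hwv hw
    have h1 : t ∈ w.asIdeal := by
      rw [← HeightOneSpectrum.valuation_lt_one_iff_mem (K := kk), val_lt_one htk]
      have h2 := (val_le_one htk).1 (w.valuation_le_one (K := kk) t)
      omega
    have h2 : IsCoprime v.asIdeal w.asIdeal := by
      apply Ideal.isCoprime_of_isMaximal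
      intro h
      exact hwv (HeightOneSpectrum.ext h.symm)
    have h3 : v.asIdeal * w.asIdeal ∣ Ideal.span {t} := by
      apply h2.mul_dvd
      · rw [Ideal.dvd_span_singleton]; exact hv
      · rw [Ideal.dvd_span_singleton]; exact h1
    have h4 := Ideal.absNorm_dvd_absNorm_of_le (Ideal.le_of_dvd h3)
    rw [map_mul] at h4
    have h5 := Nat.le_of_dvd hpos h4
    have h6 := lt_of_le_of_lt h5 hN
    rw [pow_two] at h6
    exact lt_of_mul_lt_mul_left' h6

private theorem parB_real {A B N : ℝ} (hA : 0 ≤ A) (hB : 0 ≤ B) (hN : 194 ≤ N)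
    (h1 : A ^ 2 ≤ 5 / 9 * N ^ 2) (h2 : B ^ 2 = 2346) : (A + B) ^ 2 < N ^ 2 := by
  have h3 : A ≤ 0.7454 * N := by
    apply le_of_sq_le_sq _ (by positivity)
    nlinarith
  have h4 : B ≤ 48.45 := by
    apply le_of_sq_le_sq _ (by positivity)
    rw [h2]; norm_num
  apply pow_lt_pow_left₀ _ (by positivity) two_ne_zero
  linarith

private theorem parB_val_int (v : Pl) {x : kk} (hx : IsIntegral ℤ x) : v.valuation kk x ≤ 1 :=
  v.valuation_le_one (K := kk) (⟨x, hx⟩ : 𝓞 kk)

private theorem parB_mk_OK (x₀ x₁ : 𝓞 kk) : (⟨(x₀ : kk), (x₁ : kk)⟩ : KK) ∈ OK := by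
  obtain ⟨a, b, h0⟩ := (int_iff (x₀ : kk)).1 x₀.2
  obtain ⟨c, d, h1⟩ := (int_iff (x₁ : kk)).1 x₁.2
  have h2 : (⟨(x₀ : kk), (x₁ : kk)⟩ : KK) =
      algebraMap kk KK ⟨a, b⟩ + algebraMap kk KK ⟨c, d⟩ * zeta := by
    rw [h0, h1]
    apply QuadraticAlgebra.ext <;> simp [zeta]
  rw [h2]
  exact OK.add_mem (kk_OK a b) (OK.mul_mem (kk_OK c d) zeta_eps_OK.1)

/-- The element found by reduction. -/
private theorem parB_element (v : Pl) (hv : om v = -1) (hn : 193 < Ideal.absNorm v.asIdeal) :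
    ∃ u : AAˣ, ∃ t : 𝓞 kk, t ≠ 0 ∧ nrd (u : AA) = (t : kk) ∧ t ∈ v.asIdeal ∧
      Ideal.absNorm (Ideal.span {t}) < Ideal.absNorm v.asIdeal ^ 2 := by
  have h2 : (2 : 𝓞 kk) ∉ v.asIdeal := by
    intro h
    have h1 := Ideal.absNorm_dvd_absNorm_of_le ((Ideal.span_singleton_le_iff_mem _).2 h)
    have h3 : ((Ideal.absNorm (Ideal.span {(2 : 𝓞 kk)}) : ℕ) : ℚ) = 4 := by
      rw [parB_absNorm]
      have e1 : (((2 : 𝓞 kk) : kk)) = (2 : kk) := rfl
      rw [e1, parB_N2]
      norm_num
    have h4 : Ideal.absNorm (Ideal.span {(2 : 𝓞 kk)}) = 4 := by exact_mod_cast h3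
    rw [h4] at h1
    have := Nat.le_of_dvd (by norm_num) h1
    omega
  have h3 : (3 : 𝓞 kk) ∉ v.asIdeal := by
    intro h
    have h1 := Ideal.absNorm_dvd_absNorm_of_le ((Ideal.span_singleton_le_iff_mem _).2 h)
    have h3 : ((Ideal.absNorm (Ideal.span {(3 : 𝓞 kk)}) : ℕ) : ℚ) = 9 := by
      rw [parB_absNorm]
      have e1 : (((3 : 𝓞 kk) : kk)) = (3 : kk) := rfl
      rw [e1, parB_N2]
      norm_num
    have h4 : Ideal.absNorm (Ideal.span {(3 : 𝓞 kk)}) = 9 := by exact_mod_cast h3
    rw [h4] at h1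
    have := Nat.le_of_dvd (by norm_num) h1
    omega
  have hbi : IsIntegral ℤ bq := by
    have := int_kk 43 7
    simpa [bq] using this
  obtain ⟨bO, hbO⟩ : ∃ bO : 𝓞 kk, (bO : kk) = bq := ⟨⟨bq, hbi⟩, rfl⟩
  obtain ⟨x₀, x₁, hx⟩ := norm_onto v h2 h3 bO
  obtain ⟨p, hpO, hpN, hpv⟩ := inert_gen v hv
  set N : ℕ := Ideal.absNorm v.asIdeal with hN
  have hp0 : p ≠ 0 := by
    rintro rfl
    have h4 : NQ (0 : KK) = 0 := by simp [NQ, NK]
    rw [h4] at hpN
    have h5 : (N : ℚ) = 0 := pow_eq_zero_iff two_ne_zero |>.1 hpN.symm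
    have h6 : N = 0 := by exact_mod_cast h5
    omega
  set X : KK := ⟨(x₀ : kk), (x₁ : kk)⟩ with hX
  have hXO : X ∈ OK := parB_mk_OK x₀ x₁
  obtain ⟨q, hqO, hq⟩ := euclid (X / p)
  have hYO : p * q ∈ OK := OK.mul_mem hpO hqO
  have hYv : v.valuation kk (NK (p * q)) < 1 := by
    rw [NK_mul, map_mul]
    exact mul_lt_one_of_lt_of_le hpv (parB_val_int v (OK_int hqO).2.1)
  have hc := inV_norm v hv hXO hYO hYv
  set x' : KK := X - p * q with hx'
  have hx'O : x' ∈ OK := OK.sub_mem hXO hYO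
  have hti : IsIntegral ℤ (NK x' - bq) := (OK_int hx'O).2.1.sub hbi
  obtain ⟨u, hu⟩ := exists_unit (g := mkA x' 1) (by
    intro h
    have h4 := congrArg QuaternionAlgebra.imJ h
    simp [mkA] at h4)
  have hnu : nrd (u : AA) = NK x' - bq := by
    rw [hu]
    have e1 : xp (mkA x' 1) = x' := rfl
    have e2 : yp (mkA x' 1) = 1 := rfl
    rw [nrd, e1, e2, NK_one, mul_one]
  obtain ⟨t, ht⟩ : ∃ t : 𝓞 kk, (t : kk) = NK x' - bq := ⟨⟨_, hti⟩, rfl⟩
  refine ⟨u, t, ?_, by rw [hnu, ht], ?_, ?_⟩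
  · intro h
    apply nrd_ne u
    rw [hnu, ← ht, h]
    rfl
  · rw [← HeightOneSpectrum.valuation_lt_one_iff_mem (K := kk)]
    change v.valuation kk (t : kk) < 1
    rw [ht]
    rw [← HeightOneSpectrum.valuation_lt_one_iff_mem (K := kk)] at hx
    have e1 : (algebraMap (𝓞 kk) kk) (x₀ ^ 2 - x₀ * x₁ + x₁ ^ 2 - bO) = NK X - bq := by
      rw [← hbO]
      simp only [map_sub, map_add, map_mul, map_pow, NK, hX]
    have hx2 : v.valuation kk (NK X - bq) < 1 := by rw [← e1]; exact hx
    have e2 : NK x' - bq = (NK x' - NK X) + (NK X - bq) := by ring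
    rw [e2]
    exact (v.valuation kk).map_add_lt hc hx2
  · have e0 := parB_absNorm (t := t)
    rw [ht] at e0
    have e1 : parB_N2 (NK x' - bq) < (N : ℚ) ^ 2 := by
      have hNQ : NQ x' ≤ 5 / 9 * (N : ℚ) ^ 2 := by
        have e3 : x' = p * (X / p - q) := by
          rw [hx']
          field_simp
        rw [e3, NQ_mul, hpN]
        nlinarith [sq_nonneg (N : ℚ)]
      have hA : ‖phik (NK x')‖ ^ 2 ≤ 5 / 9 * (N : ℝ) ^ 2 := by
        rw [parB_norm_phik]
        have e4 : parB_N2 (NK x') = NQ x' := rfl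
        rw [e4]
        have e5 : ((NQ x' : ℚ) : ℝ) ≤ ((5 / 9 * (N : ℚ) ^ 2 : ℚ) : ℝ) := Rat.cast_le.2 hNQ
        push_cast at e5
        exact e5
      have hB : ‖phik bq‖ ^ 2 = 2346 := by
        rw [parB_norm_phik]
        norm_num [parB_N2, bq]
      have hN' : (194 : ℝ) ≤ (N : ℝ) := by exact_mod_cast hn
      have e5 := parB_real (norm_nonneg _) (norm_nonneg _) hN' hA hB
      have e6 : ‖phik (NK x' - bq)‖ ≤ ‖phik (NK x')‖ + ‖phik bq‖ := by
        rw [map_sub]
        exact norm_sub_le _ _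
      have e7 : ‖phik (NK x' - bq)‖ ^ 2 < (N : ℝ) ^ 2 :=
        lt_of_le_of_lt (pow_le_pow_left₀ (norm_nonneg _) e6 2) e5
      rw [parB_norm_phik] at e7
      exact_mod_cast e7
    rw [← e0] at e1
    exact_mod_cast e1

private theorem parB_self (f : Pl → ZMod 2) : f + f = 0 := by
  ext w
  have : ∀ x : ZMod 2, x + x = 0 := by decide
  exact this (f w)

private theorem parB_odd (n : ℤ) : ((n : ℤ) : ZMod 2) = 1 ↔ Odd n := by
  constructor
  · intro h
    rcases Int.even_or_odd' n with ⟨k, rfl | rfl⟩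
    · rw [Int.cast_mul, show ((2 : ℤ) : ZMod 2) = 0 from by decide, zero_mul] at h
      exact absurd h (by decide)
    · exact ⟨k, rfl⟩
  · rintro ⟨k, rfl⟩
    rw [Int.cast_add, Int.cast_mul, show ((2 : ℤ) : ZMod 2) = 0 from by decide, zero_mul, zero_add,
      Int.cast_one]

open Classical in
private theorem parB_key {P : Pl} (hP : (2 : 𝓞 kk) ∈ P.asIdeal) (hP4 : P ∈ SS4)
    (huniq : ∀ P' : Pl, (2 : 𝓞 kk) ∈ P'.asIdeal → P' ∈ SS4 → P' = P) (n : ℕ) :
    ∀ v : Pl, Ideal.absNorm v.asIdeal = n → parB_Good (parB_dd P v) := by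
  induction n using Nat.strong_induction_on with
  | _ n ih =>
    intro v hvn
    rcases Int.units_eq_one_or (om v) with hv | hv
    · obtain ⟨x, -, hx0, hx1, hx2⟩ := split_gen v hv
      refine ⟨inKu (Units.mk0 x hx0), fun w => ?_⟩
      have h1 : nrd ((inKu (Units.mk0 x hx0) : AAˣ) : AA) = NK x := nrd_inK x
      rw [h1, parB_dd, hv, map_one, toAdd_one, Pi.single_zero, add_zero]
      by_cases hw : w = v
      · subst hw
        rw [hx1, Pi.single_eq_same, Int.cast_one]
      · rw [hx2 w hw, Pi.single_eq_of_ne hw, Int.cast_zero]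
    · have hc : Multiplicative.toAdd (parB_c (-1)) = 1 := by decide
      rcases le_or_gt (Ideal.absNorm v.asIdeal) 193 with hs | hl
      · obtain ⟨P', h2, h4, g, hg⟩ := parity_table v hv hs
        have hPP := huniq P' h2 h4
        subst hPP
        refine ⟨g, fun w => ?_⟩
        rw [parB_dd, hv, hc, Pi.add_apply]
        have h5 := hg w
        rw [← parB_odd] at h5
        have h01 : ∀ x : ZMod 2, x ≠ 1 → x = 0 := by decide
        by_cases e1 : w = v <;> by_cases e2 : w = P'
        · subst e1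
          subst e2
          have h6 := h01 _ (fun h => by have := h5.1 h; simp at this)
          rw [h6, Pi.single_eq_same]
          decide
        · have h6 := h5.2 (Or.inl ⟨e1, e2⟩)
          rw [h6, e1, Pi.single_eq_same, Pi.single_eq_of_ne (by rw [← e1]; exact e2), add_zero]
        · have h6 := h5.2 (Or.inr ⟨e2, e1⟩)
          rw [h6, Pi.single_eq_of_ne e1, e2, Pi.single_eq_same, zero_add]
        · have h6 := h01 _ (fun h => by
            rcases h5.1 h with h7 | h7
            · exact e1 h7.1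
            · exact e2 h7.1)
          rw [h6, Pi.single_eq_of_ne e1, Pi.single_eq_of_ne e2, add_zero]
      · obtain ⟨u, t, ht0, hut, htv, htN⟩ := parB_element v hv hl
        obtain ⟨ho, hsm⟩ := parB_small ht0 htv htN
        have htk : (t : kk) ≠ 0 := by rw [← hut]; exact nrd_ne u
        have hfin := ord_finite htk
        set S : Finset Pl := hfin.toFinset.filter
          (fun w => ((ord w (t : kk) : ℤ) : ZMod 2) ≠ 0) with hS
        have hmem : ∀ w, w ∈ S ↔ ((ord w (t : kk) : ℤ) : ZMod 2) ≠ 0 := by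
          intro w
          rw [hS, Finset.mem_filter, Set.Finite.mem_toFinset, and_iff_right_iff_imp]
          intro h h'
          apply h
          rw [h', Int.cast_zero]
        have hprod : ∏ w ∈ S, om w = 1 := by
          rw [← parB_finprod (fun w => ord w (t : kk)) S hmem]
          exact reciprocity htk
        have hvS : v ∈ S := by
          rw [hmem, ho]
          decide
        have e1 := parB_expand (fun w => ((ord w (t : kk) : ℤ) : ZMod 2)) S hmem
        rw [← parB_sum_dd P S hprod, ← Finset.add_sum_erase S _ hvS] at e1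
        have g1 : parB_Good (fun w => ((ord w (t : kk) : ℤ) : ZMod 2)) :=
          ⟨u, fun w => by rw [hut]⟩
        have g2 : parB_Good (∑ w ∈ S.erase v, parB_dd P w) := by
          apply parB_sum
          intro w hw
          rw [Finset.mem_erase] at hw
          have h7 := hsm w hw.1 (fun h => by
            have := (hmem w).1 hw.2
            apply this
            rw [h, Int.cast_zero])
          exact ih _ (hvn ▸ h7) w rfl
        have g3 := parB_add g1 g2
        rw [e1, add_assoc, parB_self, add_zero] at g3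
        exact g3

theorem parity (e : Pl → ℤ) (hfin : {v | e v ≠ 0}.Finite) (h : ∏ᶠ v : Pl, om v ^ e v = 1) :
    ∃ g : AAˣ, ∀ v, Even (ord v (nrd (g : AA)) - e v) := by
  classical
  obtain ⟨P2, P3, P17, P23, hS4, h2, h3, h17, h23, -⟩ := S4_list
  have huniq : ∀ P' : Pl, (2 : 𝓞 kk) ∈ P'.asIdeal → P' ∈ SS4 → P' = P2 := by
    intro P' h2' h4
    rw [hS4] at h4
    simp only [Set.mem_insert_iff, Set.mem_singleton_iff] at h4
    rcases h4 with h4 | h4 | h4 | h4
    · exact h4
    · exfalso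
      subst h4
      apply P'.isPrime.ne_top
      rw [Ideal.eq_top_iff_one]
      have := P'.asIdeal.sub_mem h3 h2'
      have e1 : (3 : 𝓞 kk) - 2 = 1 := by norm_num
      rwa [e1] at this
    · exfalso
      subst h4
      apply P'.isPrime.ne_top
      rw [Ideal.eq_top_iff_one]
      have := P'.asIdeal.sub_mem h17 (P'.asIdeal.mul_mem_left 8 h2')
      have e1 : (17 : 𝓞 kk) - 8 * 2 = 1 := by norm_num
      rwa [e1] at this
    · exfalso
      subst h4
      apply P'.isPrime.ne_top
      rw [Ideal.eq_top_iff_one]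
      have := P'.asIdeal.sub_mem h23 (P'.asIdeal.mul_mem_left 11 h2')
      have e1 : (23 : 𝓞 kk) - 11 * 2 = 1 := by norm_num
      rwa [e1] at this
  have hP4 : P2 ∈ SS4 := by rw [hS4]; simp
  set S : Finset Pl := hfin.toFinset.filter (fun w => ((e w : ℤ) : ZMod 2) ≠ 0) with hS
  have hmem : ∀ w, w ∈ S ↔ ((e w : ℤ) : ZMod 2) ≠ 0 := by
    intro w
    rw [hS, Finset.mem_filter, Set.Finite.mem_toFinset, and_iff_right_iff_imp]
    intro h h'
    apply h
    rw [h', Int.cast_zero]
  have hprod : ∏ w ∈ S, om w = 1 := by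
    rw [← parB_finprod e S hmem, h]
  have e1 := parB_expand (fun w => ((e w : ℤ) : ZMod 2)) S hmem
  rw [← parB_sum_dd P2 S hprod] at e1
  have g1 : parB_Good (∑ w ∈ S, parB_dd P2 w) :=
    parB_sum S _ (fun w _ => parB_key h2 hP4 huniq _ w rfl)
  rw [← e1] at g1
  obtain ⟨g, hg⟩ := g1
  refine ⟨g, fun v => ?_⟩
  have h5 := hg v
  rw [← sub_eq_zero, ← Int.cast_sub, ZMod.intCast_zmod_eq_zero_iff_dvd] at h5
  rw [even_iff_two_dvd]
  exact_mod_cast h5

end

end Pool.Agent.Work.MP_14c213_gt
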