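import Pool.Agent.Work.MP_14c213_gt.B.SAd
import Pool.Agent.Work.MP_14c213_gt.B.ParB

/-!
Orbits. By ParB choose g₀ with ord v (nrd g₀) = ord v (nrd (x v)) mod 2 for all v; replace x v by g₀⁻¹ x v: all
even, so nothing to do at v ∈ SS4; at the finitely many v ∉ SS4 with x v ∉ UU v use SA one after the other
(γ ∈ UU w does not change the situation at w).
-/

namespace Pool.Agent.Work.MP_14c213_gt

open Matrix IsDedekindDomain
open scoped Matrix NumberField QuadraticAlgebra

noncomputable section

private theorem orbB_ordmul (v : Pl) (g h : AAˣ) :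
    ord v (nrd ((g * h : AAˣ) : AA)) = ord v (nrd (g : AA)) + ord v (nrd (h : AA)) := by
  rw [Units.val_mul, nrd_mul, ord_mul v (nrd_ne g) (nrd_ne h)]

private theorem orbB_ordinv (v : Pl) (g : AAˣ) :
    ord v (nrd ((g⁻¹ : AAˣ) : AA)) = -ord v (nrd (g : AA)) := by
  have h := orbB_ordmul v g g⁻¹
  rw [mul_inv_cancel, Units.val_one, nrd_one, ord_one] at h
  linarith

private theorem orbB_ind (T : Finset Pl) : ∀ y : Pl → AAˣ,
    (∀ v, Even (ord v (nrd (y v : AA)))) → (∀ v, v ∉ T → y v ∈ UU v) →
    ∃ g : AAˣ, ∀ v, g⁻¹ * y v ∈ UU v := by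
  classical
  induction T using Finset.induction_on with
  | empty =>
    intro y _ h
    exact ⟨1, fun v => by simpa using h v (by simp)⟩
  | insert v T hv ih =>
    intro y he h
    by_cases hS : v ∈ SS4
    · apply ih y he
      intro w hw
      by_cases hwv : w = v
      · subst hwv
        rw [UU, if_pos hS]
        exact he w
      · exact h w (by simp [hwv, hw])
    · obtain ⟨γ, hγ1, hγ2⟩ := SA v hS (y v) (he v)
      have hγe : ∀ w, Even (ord w (nrd (γ : AA))) := by
        intro w
        by_cases hwv : w = v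
        · subst hwv
          have h1 := UU_even hγ1
          rw [orbB_ordmul, orbB_ordinv] at h1
          have h2 := he w
          have h3 : ord w (nrd (γ : AA)) = ord w (nrd (y w : AA)) -
              (-ord w (nrd (γ : AA)) + ord w (nrd (y w : AA))) := by ring
          rw [h3]
          exact h2.sub h1
        · exact UU_even (hγ2 w hwv)
      obtain ⟨g, hg⟩ := ih (fun w => γ⁻¹ * y w) (by
        intro w
        rw [orbB_ordmul, orbB_ordinv]
        exact (hγe w).neg.add (he w)) (by
        intro w hw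
        by_cases hwv : w = v
        · subst hwv
          exact hγ1
        · exact (UU w).mul_mem ((UU w).inv_mem (hγ2 w hwv)) (h w (by simp [hwv, hw])))
      refine ⟨γ * g, fun w => ?_⟩
      rw [_root_.mul_inv_rev, mul_assoc]
      exact hg w

private theorem orbB_om_sq (u : ℤˣ) (a b : ℤ) (h : Even (a - b)) : u ^ a = u ^ b := by
  obtain ⟨k, hk⟩ := h
  have h2 : u ^ (2 : ℤ) = 1 := by
    have := Int.units_sq u
    exact_mod_cast this
  have h3 : a = b + 2 * k := by omega
  rw [h3, _root_.zpow_add, _root_.zpow_mul, h2, _root_.one_zpow, mul_one]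

theorem orb (x : Pl → AAˣ) (hfin : {v | x v ∉ UU v}.Finite)
    (hpar : ∏ᶠ v : Pl, om v ^ (ord v (nrd (x v : AA))) = 1) :
    ∃ g : AAˣ, ∀ v, g⁻¹ * x v ∈ UU v := by
  classical
  set e : Pl → ℤ := fun v => ord v (nrd (x v : AA)) % 2 with he
  have hemod : ∀ v, Even (ord v (nrd (x v : AA)) - e v) := by
    intro v
    simp only [he]
    rw [Int.even_iff]
    omega
  have hefin : {v | e v ≠ 0}.Finite := by
    apply hfin.subset
    intro v hv hx
    apply hv
    have := UU_even hx
    rw [Int.even_iff] at this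
    exact this
  have heprod : ∏ᶠ v : Pl, om v ^ e v = 1 := by
    rw [← hpar]
    congr 1
    funext v
    exact (orbB_om_sq _ _ _ (hemod v)).symm
  obtain ⟨g₀, hg₀⟩ := parity e hefin heprod
  have heven : ∀ v, Even (ord v (nrd ((g₀⁻¹ * x v : AAˣ) : AA))) := by
    intro v
    rw [orbB_ordmul, orbB_ordinv]
    have h1 := hg₀ v
    have h2 := hemod v
    rw [Int.even_iff] at h1 h2 ⊢
    omega
  have hfin2 : {v | g₀⁻¹ * x v ∉ UU v}.Finite := by
    apply (hfin.union (UU_finite g₀)).subset
    intro v hv
    by_contra hcon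
    rw [Set.mem_union, not_or] at hcon
    obtain ⟨h1, h2⟩ := hcon
    have h1' : x v ∈ UU v := not_not.mp h1
    have h2' : g₀ ∈ UU v := not_not.mp h2
    exact hv ((UU v).mul_mem ((UU v).inv_mem h2') h1')
  obtain ⟨g, hg⟩ := orbB_ind hfin2.toFinset (fun v => g₀⁻¹ * x v) heven (by
    intro v hv
    rw [Set.Finite.mem_toFinset] at hv
    exact not_not.mp hv)
  refine ⟨g₀ * g, fun v => ?_⟩
  rw [_root_.mul_inv_rev, mul_assoc]
  exact hg v

/-- The parity condition holds for global elements. -/
theorem par_global (g : AAˣ) : ∏ᶠ v : Pl, om v ^ (ord v (nrd (g : AA))) = 1 :=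
  reciprocity (nrd_ne g)

end

end Pool.Agent.Work.MP_14c213_gt
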