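import Pool.Agent.Work.MP_14c213_gt.B.PrimB

/-!
The local count. By PrimB the set Zs v x is the disjoint union over n ≤ nn v x of the orbits of Rn v 0 on the
coset dd v n UU v, of size [Rn v 0 : Rn v n] (dd_spec, Rn_index), sign om v ^ n. Sum: 1 + Σ_{i<n} om^(i+1) q^i (q - om)
= (om q)^n (telescoping, om² = 1).
-/

namespace Pool.Agent.Work.MP_14c213_gt

open Matrix IsDedekindDomain
open scoped Matrix NumberField QuadraticAlgebra

noncomputable section

/-- The fixed primitive cosets. -/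
def Zs (v : Pl) (x : KKˣ) : Set (AAˣ ⧸ UU v) :=
  {y | ∃ g : AAˣ, y = (g : AAˣ ⧸ UU v) ∧ Prim v g ∧ g⁻¹ * inKu x * g ∈ UU v}

/-- The sign of a coset. -/
def sg (v : Pl) (y : AAˣ ⧸ UU v) : ℤˣ := om v ^ (ord v (nrd ((Quotient.out y : AAˣ) : AA)))

private theorem p4b_ordmul (v : Pl) (g h : AAˣ) :
    ord v (nrd ((g * h : AAˣ) : AA)) = ord v (nrd (g : AA)) + ord v (nrd (h : AA)) := by
  rw [Units.val_mul, nrd_mul, ord_mul v (nrd_ne g) (nrd_ne h)]

private theorem p4b_even (u : ℤˣ) {a : ℤ} (h : Even a) : u ^ a = 1 := by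
  obtain ⟨c, rfl⟩ := h
  rcases Int.units_eq_one_or u with rfl | rfl
  · simp
  · rw [_root_.zpow_add, ← mul_zpow]
    simp

private theorem p4b_par (u : ℤˣ) (a b : ℤ) (h : Even (a - b)) : u ^ a = u ^ b := by
  have : a = (a - b) + b := by ring
  rw [this, _root_.zpow_add, p4b_even u h, one_mul]

theorem sg_mk (v : Pl) (g : AAˣ) : sg v (g : AAˣ ⧸ UU v) = om v ^ (ord v (nrd (g : AA))) := by
  obtain ⟨u, hu⟩ := QuotientGroup.mk_out_eq_mul (UU v) g
  have h1 : sg v (g : AAˣ ⧸ UU v) = om v ^ (ord v (nrd ((g * (u : AAˣ) : AAˣ) : AA))) := by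
    rw [← hu]
    rfl
  rw [h1]
  apply p4b_par
  rw [p4b_ordmul, add_sub_cancel_left]
  exact UU_even u.2

private theorem p4b_conj {v : Pl} {g h x : AAˣ} (e : (g : AAˣ ⧸ UU v) = (h : AAˣ ⧸ UU v)) :
    g⁻¹ * x * g ∈ UU v ↔ h⁻¹ * x * h ∈ UU v := by
  rw [QuotientGroup.eq] at e
  have h2 : h⁻¹ * x * h = (g⁻¹ * h)⁻¹ * (g⁻¹ * x * g) * (g⁻¹ * h) := by group
  rw [h2, Subgroup.mul_mem_cancel_right _ e, Subgroup.mul_mem_cancel_left _ ((UU v).inv_mem e)]

theorem mem_Zs (v : Pl) (hv : v ∉ SS4) (x : KKˣ) (g : AAˣ) :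
    (g : AAˣ ⧸ UU v) ∈ Zs v x ↔ Prim v g ∧ g⁻¹ * inKu x * g ∈ UU v := by
  constructor
  · rintro ⟨h, e, h1, h2⟩
    refine ⟨?_, (p4b_conj e).2 h2⟩
    have e' := e
    rw [QuotientGroup.eq] at e'
    have h3 := prim_right v g (g⁻¹ * h) e'
    rw [mul_inv_cancel_left] at h3
    exact h3.1 h1
  · rintro ⟨h1, h2⟩
    exact ⟨g, rfl, h1, h2⟩

/-- The n-th orbit. -/
private def p4T (v : Pl) (n : ℕ) : Set (AAˣ ⧸ UU v) :=
  Set.range fun y : Rn v 0 => ((inKu (y : KKˣ) * dd v n : AAˣ) : AAˣ ⧸ UU v)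

private theorem p4b_eq (v : Pl) (hv : v ∉ SS4) (n m : ℕ) (y y' : KKˣ) :
    ((inKu y * dd v n : AAˣ) : AAˣ ⧸ UU v) = ((inKu y' * dd v m : AAˣ) : AAˣ ⧸ UU v) ↔
      n = m ∧ y⁻¹ * y' ∈ Rn v n := by
  rw [QuotientGroup.eq, ← (dd_spec v hv).2.2.1 n m (y⁻¹ * y'), map_mul, map_inv]
  have : (inKu y * dd v n)⁻¹ * (inKu y' * dd v m) =
      (dd v n)⁻¹ * ((inKu y)⁻¹ * inKu y') * dd v m := by group
  rw [this]

private theorem p4b_index (v : Pl) (hv : v ∉ SS4) (n : ℕ) : (Rn v n).relIndex (Rn v 0) ≠ 0 := by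
  cases n with
  | zero => simp
  | succ n =>
    intro h
    have h1 := Rn_index hv n
    rw [h] at h1
    have hq : 2 ≤ Ideal.absNorm v.asIdeal := by
      have h0 : Ideal.absNorm v.asIdeal ≠ 0 := by
        rw [Ne, Ideal.absNorm_eq_zero_iff]
        exact v.ne_bot
      have h1 : Ideal.absNorm v.asIdeal ≠ 1 := by
        rw [Ne, Ideal.absNorm_eq_one_iff]
        exact v.isPrime.ne_top
      omega
    have ho : (om v : ℤ) ≤ 1 := by
      rcases Int.units_eq_one_or (om v) with e | e <;> rw [e] <;> norm_num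
    have h2 : (0 : ℤ) < (Ideal.absNorm v.asIdeal : ℤ) ^ n *
        ((Ideal.absNorm v.asIdeal : ℤ) - (om v : ℤ)) := by
      have : (2 : ℤ) ≤ (Ideal.absNorm v.asIdeal : ℤ) := by exact_mod_cast hq
      exact mul_pos (pow_pos (by linarith) _) (by linarith)
    rw [← h1] at h2
    simp at h2

private theorem p4b_card (v : Pl) (hv : v ∉ SS4) (n : ℕ) :
    Nat.card (p4T v n) = (Rn v n).relIndex (Rn v 0) := by
  have hw : ∀ a b : Rn v 0, (QuotientGroup.leftRel ((Rn v n).subgroupOf (Rn v 0))) a b →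
      ((inKu (a : KKˣ) * dd v n : AAˣ) : AAˣ ⧸ UU v) = ((inKu (b : KKˣ) * dd v n : AAˣ) : AAˣ ⧸ UU v) := by
    intro a b hab
    rw [QuotientGroup.leftRel_apply, Subgroup.mem_subgroupOf] at hab
    rw [p4b_eq v hv]
    exact ⟨rfl, by simpa using hab⟩
  let F : Rn v 0 ⧸ (Rn v n).subgroupOf (Rn v 0) → AAˣ ⧸ UU v := Quotient.lift _ hw
  have hF : Function.Injective F := by
    intro a b
    refine Quotient.inductionOn₂ a b ?_
    intro a b hab
    have h1 : ((inKu (a : KKˣ) * dd v n : AAˣ) : AAˣ ⧸ UU v) =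
      ((inKu (b : KKˣ) * dd v n : AAˣ) : AAˣ ⧸ UU v) := hab
    rw [p4b_eq v hv] at h1
    apply Quotient.sound
    show (QuotientGroup.leftRel _) a b
    rw [QuotientGroup.leftRel_apply, Subgroup.mem_subgroupOf]
    simpa using h1.2
  have hr : Set.range F = p4T v n := by
    ext y
    constructor
    · rintro ⟨a, rfl⟩
      refine Quotient.inductionOn a ?_
      intro a
      exact ⟨a, rfl⟩
    · rintro ⟨a, rfl⟩
      exact ⟨Quotient.mk _ a, rfl⟩
  rw [← hr, Nat.card_range_of_injective hF, Subgroup.relIndex, Subgroup.index]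

private theorem p4b_fin (v : Pl) (hv : v ∉ SS4) (n : ℕ) : (p4T v n).Finite := by
  have h := p4b_index v hv n
  rw [← p4b_card v hv] at h
  exact Set.finite_coe_iff.1 (Nat.finite_of_card_ne_zero h)

private theorem p4b_mem (v : Pl) (hv : v ∉ SS4) (x : KKˣ) (hx : x ∈ Rn v 0)
    (him : (x : KK).im ≠ 0) :
    Zs v x = ⋃ n ∈ ((Finset.range ((nn v x).toNat + 1) : Finset ℕ) : Set ℕ), p4T v n := by
  have h0 := (mem_Rn hx him 0).1
  ext y
  simp only [Set.mem_iUnion, Finset.mem_coe, Finset.mem_range, exists_prop]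
  constructor
  · rintro ⟨g, rfl, ⟨n, t, ht, hg⟩, h2⟩
    have e : (g : AAˣ ⧸ UU v) = ((inKu t * dd v n : AAˣ) : AAˣ ⧸ UU v) := by
      rw [eq_comm, QuotientGroup.eq]
      simpa [_root_.mul_inv_rev] using hg
    refine ⟨n, ?_, ⟨⟨t, ht⟩, e.symm⟩⟩
    rw [p4b_conj e] at h2
    have e2 : (inKu t * dd v n)⁻¹ * inKu x * (inKu t * dd v n) =
        (dd v n)⁻¹ * inKu x * dd v n := by
      have : inKu x * inKu t = inKu t * inKu x := by rw [← map_mul, mul_comm, map_mul]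
      calc (inKu t * dd v n)⁻¹ * inKu x * (inKu t * dd v n)
          = (dd v n)⁻¹ * (inKu t)⁻¹ * (inKu x * inKu t) * dd v n := by group
        _ = _ := by rw [this]; group
    rw [e2, (dd_spec v hv).2.2.1 n n x, (mem_Rn hx him n).2] at h2
    have := h2.2
    omega
  · rintro ⟨n, hn, ⟨t, rfl⟩⟩
    refine ⟨inKu (t : KKˣ) * dd v n, rfl, ⟨n, t, t.2, ?_⟩, ?_⟩
    · have : (dd v n)⁻¹ * (inKu (t : KKˣ))⁻¹ * (inKu (t : KKˣ) * dd v n) = 1 := by group
      rw [this]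
      exact (UU v).one_mem
    · have e2 : (inKu (t : KKˣ) * dd v n)⁻¹ * inKu x * (inKu (t : KKˣ) * dd v n) =
        (dd v n)⁻¹ * inKu x * dd v n := by
        have : inKu x * inKu (t : KKˣ) = inKu (t : KKˣ) * inKu x := by
          rw [← map_mul, mul_comm, map_mul]
        calc (inKu (t : KKˣ) * dd v n)⁻¹ * inKu x * (inKu (t : KKˣ) * dd v n)
            = (dd v n)⁻¹ * (inKu (t : KKˣ))⁻¹ * (inKu x * inKu (t : KKˣ)) * dd v n := by group
          _ = _ := by rw [this]; group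
      rw [e2, (dd_spec v hv).2.2.1 n n x, (mem_Rn hx him n).2]
      exact ⟨rfl, by omega⟩

theorem Zs_finite (v : Pl) (hv : v ∉ SS4) (x : KKˣ) (hx : x ∈ Rn v 0) (him : (x : KK).im ≠ 0) :
    (Zs v x).Finite := by
  rw [p4b_mem v hv x hx him]
  exact (Finset.finite_toSet _).biUnion fun n _ => p4b_fin v hv n

private theorem p4b_sg (v : Pl) (hv : v ∉ SS4) (n : ℕ) {y : AAˣ ⧸ UU v} (hy : y ∈ p4T v n) :
    sg v y = om v ^ n := by
  obtain ⟨t, rfl⟩ := hy
  beta_reduce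
  rw [sg_mk, ← zpow_natCast]
  apply p4b_par
  rw [p4b_ordmul]
  have h1 := UU_even ((UU_iff_Rn hv (t : KKˣ)).2 t.2)
  have h2 := (dd_spec v hv).2.1 n
  rw [add_sub_assoc]
  exact h1.add h2

private theorem p4b_tele (o q : ℤ) (ho : o * o = 1) (N : ℕ) (f : ℕ → ℤ) (h0 : f 0 = 1)
    (hf : ∀ n, f (n + 1) = q ^ n * (q - o)) :
    ∑ n ∈ Finset.range (N + 1), f n * o ^ n = (o * q) ^ N := by
  induction N with
  | zero => simp [h0]
  | succ N ih =>
    rw [Finset.sum_range_succ, ih, hf, mul_pow, mul_pow, pow_succ o N, pow_succ q N]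
    linear_combination (-(o ^ N * q ^ N)) * ho

theorem Zs_sum (v : Pl) (hv : v ∉ SS4) (x : KKˣ) (hx : x ∈ Rn v 0) (him : (x : KK).im ≠ 0) :
    ∑ᶠ y ∈ Zs v x, ((sg v y : ℤˣ) : ℤ) =
      (((om v : ℤˣ) : ℤ) * (Ideal.absNorm v.asIdeal : ℤ)) ^ (nn v x).toNat := by
  classical
  rw [p4b_mem v hv x hx him, finsum_mem_biUnion ?_ (Finset.finite_toSet _)
    (fun n _ => p4b_fin v hv n)]
  · rw [finsum_mem_coe_finset]
    rw [← p4b_tele ((om v : ℤˣ) : ℤ) (Ideal.absNorm v.asIdeal : ℤ)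
      (by rcases Int.units_eq_one_or (om v) with e | e <;> rw [e] <;> norm_num) _
      (fun n => (((Rn v n).relIndex (Rn v 0) : ℕ) : ℤ)) (by simp) (fun n => Rn_index hv n)]
    apply Finset.sum_congr rfl
    intro n _
    rw [finsum_mem_congr rfl (g := fun _ => (((om v ^ n : ℤˣ)) : ℤ))
      (fun y hy => by rw [p4b_sg v hv n hy])]
    rw [finsum_mem_eq_finite_toFinset_sum _ (p4b_fin v hv n), Finset.sum_const,
      ← Set.ncard_eq_toFinset_card _ (p4b_fin v hv n), ← Nat.card_coe_set_eq, p4b_card v hv n, nsmul_eq_mul]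
    simp
  · intro n _ m _ hnm
    rw [Function.onFun, Set.disjoint_left]
    rintro _ ⟨a, rfl⟩ ⟨b, hb⟩
    exact hnm (((p4b_eq v hv m n _ _).1 hb).1).symm

theorem Zs_zero (v : Pl) (hv : v ∉ SS4) (x : KKˣ) (hx : x ∈ Rn v 0) (him : (x : KK).im ≠ 0)
    (h0 : nn v x = 0) : Zs v x = {((1 : AAˣ) : AAˣ ⧸ UU v)} := by
  rw [p4b_mem v hv x hx him, h0]
  ext y
  simp only [Int.toNat_zero, zero_add, Finset.range_one, Finset.coe_singleton, Set.mem_singleton_iff, Set.iUnion_iUnion_eq_left,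
    Set.mem_singleton_iff]
  constructor
  · rintro ⟨t, rfl⟩
    beta_reduce
    rw [(dd_spec v hv).1, mul_one, eq_comm, QuotientGroup.eq, inv_one, one_mul]
    exact (UU_iff_Rn hv (t : KKˣ)).2 t.2
  · rintro rfl
    refine ⟨1, ?_⟩
    beta_reduce
    rw [(dd_spec v hv).1, mul_one]
    simp

end

end Pool.Agent.Work.MP_14c213_gt
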