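import Pool.Agent.Work.MP_14c213_gt.B.CntA
import Pool.Agent.Work.MP_14c213_gt.B.P4B
import Pool.Agent.Work.MP_14c213_gt.B.KapB
import Pool.Agent.Work.MP_14c213_gt.B.OrbB

/-!
Counting S1. W = {v ∉ SS4 : nn v x > 0} is finite. The coset g GO is determined by its images in Zs v x, v ∈ W,
and the four signs om v ^ ord v (nrd g), v ∈ SS4 (at the other v ∉ SS4 the image is the trivial coset, Zs_zero;
GO = ⋂ UU v); by par_global and orb exactly the configurations with product of signs 1 occur (for cosets of GO).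
For such g: g⁻¹ x g ∈ GO (K_S4 at SS4, UU v normal there) and a2 (g⁻¹xg) = ± a2 (x) according to the sign at P2
(chg_conj, chg_flip), etc. So cnt_abs applies with L = link condition for s; the first terms agree for
s = 1, -1 (flip the first sign) and the second give ½ kapg x · ∏ (Zs_sum).
-/

namespace Pool.Agent.Work.MP_14c213_gt

open Matrix IsDedekindDomain
open scoped Matrix NumberField QuadraticAlgebra

noncomputable section

/-- Primitive fixed cosets of `GO`. -/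
def S1 (s : ℤˣ) (x : KKˣ) : Set (AAˣ ⧸ GO) :=
  {y | ∃ g : AAˣ, y = (g : AAˣ ⧸ GO) ∧ (∀ v, v ∉ SS4 → Prim v g) ∧ g⁻¹ * inKu x * g ∈ GG s}

/-- The product over the unramified places. -/
def prodS (x : KKˣ) : ℝ := ∏ᶠ v : Pl, open Classical in if v ∈ SS4 then 1 else
  ((((om v : ℤˣ) : ℤ) : ℝ) * (Ideal.absNorm v.asIdeal : ℝ)) ^ (nn v x).toNat

private theorem GO_le (v : Pl) : GO ≤ UU v := fun _ hg => (mem_GO _).1 hg v

private theorem ram_iff {v : Pl} (hv : v ∈ SS4) (g : AAˣ) :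
    g ∈ UU v ↔ Even (ord v (nrd (g : AA))) := by
  rw [UU, if_pos hv]
  rfl

private theorem nrd_inv_ord (v : Pl) (g : AAˣ) :
    ord v (nrd ((g⁻¹ : AAˣ) : AA)) = -ord v (nrd (g : AA)) := by
  have h1 := nrd_mul (g : AA) ((g⁻¹ : AAˣ) : AA)
  rw [Units.mul_inv, nrd_one] at h1
  have h2 := ord_mul v (nrd_ne g) (nrd_ne g⁻¹)
  rw [← h1, ord_one] at h2
  linarith

private theorem ord_nrd_mul (v : Pl) (g h : AAˣ) :
    ord v (nrd ((g * h : AAˣ) : AA)) = ord v (nrd (g : AA)) + ord v (nrd (h : AA)) := by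
  rw [Units.val_mul, nrd_mul, ord_mul v (nrd_ne g) (nrd_ne h)]

private theorem conj_ram {v : Pl} (hv : v ∈ SS4) (g t : AAˣ) :
    t⁻¹ * g * t ∈ UU v ↔ g ∈ UU v := by
  rw [ram_iff hv, ram_iff hv, ord_nrd_mul, ord_nrd_mul, nrd_inv_ord]
  rw [show -ord v (nrd (t : AA)) + ord v (nrd (g : AA)) + ord v (nrd (t : AA)) =
    ord v (nrd (g : AA)) by ring]

private theorem sg_ram {v : Pl} (hv : v ∈ SS4) (g : AAˣ) :
    (g ∈ UU v ∧ sg v (g : AAˣ ⧸ UU v) = 1) ∨ (g ∉ UU v ∧ sg v (g : AAˣ ⧸ UU v) = -1) := by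
  rw [sg_mk, om_S4 v hv, ram_iff hv]
  rcases Int.even_or_odd (ord v (nrd (g : AA))) with h | h
  · left; exact ⟨h, h.neg_one_zpow⟩
  · right; exact ⟨Int.not_even_iff_odd.2 h, h.neg_one_zpow⟩

private theorem al_conj {v : Pl} {m : ℕ} {η : KK} {n : ℕ} (h : IsCh v m η n) {g t : AAˣ}
    (hg : g ∈ UU v) :
    al v m η n (ww ((t⁻¹ * g * t : AAˣ) : AA)) =
      (((sg v (t : AAˣ ⧸ UU v) : ℤˣ) : ℤ) : ZMod n) * al v m η n (ww (g : AA)) := by
  rcases sg_ram h.mem t with ⟨h1, h2⟩ | ⟨h1, h2⟩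
  · rw [chg_conj h hg h1, h2]; simp
  · rw [chg_flip h hg h1, h2]; simp

/-- The link condition in terms of signs. -/
private def lk (s : ℤˣ) (x : KKˣ) (a b c d : ℤˣ) : Prop :=
  ((a : ℤ) : ZMod 3) * a2 (inKu x) + ((s : ℤ) : ZMod 3) * (((b : ℤ) : ZMod 3) * a17 (inKu x)) = 0 ∧
    ((c : ℤ) : ZMod 4) * a3 (inKu x) + ((d : ℤ) : ZMod 4) * a23 (inKu x) = 0

private theorem S4_mem : P2 ∈ SS4 ∧ P17 ∈ SS4 ∧ P3 ∈ SS4 ∧ P23 ∈ SS4 :=
  ⟨four_spec.1.mem, four_spec.2.1.mem, four_spec.2.2.1.mem, four_spec.2.2.2.1.mem⟩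

private theorem mem_GG_iff (s : ℤˣ) (x : KKˣ) (hx : inKu x ∈ GO) (g : AAˣ) :
    g⁻¹ * inKu x * g ∈ GG s ↔ (∀ v, v ∉ SS4 → g⁻¹ * inKu x * g ∈ UU v) ∧
      lk s x (sg P2 (g : AAˣ ⧸ UU P2)) (sg P17 (g : AAˣ ⧸ UU P17)) (sg P3 (g : AAˣ ⧸ UU P3))
        (sg P23 (g : AAˣ ⧸ UU P23)) := by
  have hx' := (mem_GO _).1 hx
  have e2 : a2 (g⁻¹ * inKu x * g) = _ := al_conj four_spec.1 (t := g) (hx' P2)
  have e17 : a17 (g⁻¹ * inKu x * g) = _ := al_conj four_spec.2.1 (t := g) (hx' P17)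
  have e3 : a3 (g⁻¹ * inKu x * g) = _ := al_conj four_spec.2.2.1 (t := g) (hx' P3)
  have e23 : a23 (g⁻¹ * inKu x * g) = _ := al_conj four_spec.2.2.2.1 (t := g) (hx' P23)
  constructor
  · rintro ⟨h1, h2, h3⟩
    refine ⟨fun v _ => (mem_GO _).1 h1 v, ?_, ?_⟩
    · rw [e2, e17] at h2; exact h2
    · rw [e3, e23] at h3; exact h3
  · rintro ⟨h1, h2, h3⟩
    refine ⟨(mem_GO _).2 fun v => ?_, ?_, ?_⟩
    · by_cases hv : v ∈ SS4
      · exact (conj_ram hv _ _).2 (hx' v)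
      · exact h1 v hv
    · rw [e2, e17]; exact h2
    · rw [e3, e23]; exact h3

theorem mem_S1 (s : ℤˣ) (x : KKˣ) (g : AAˣ) : (g : AAˣ ⧸ GO) ∈ S1 s x ↔
    (∀ v, v ∉ SS4 → Prim v g) ∧ g⁻¹ * inKu x * g ∈ GG s := by
  constructor
  · rintro ⟨h, hg, h1, h2⟩
    rw [QuotientGroup.eq] at hg
    have e : g = h * (g⁻¹ * h)⁻¹ := by group
    have hu : (g⁻¹ * h)⁻¹ ∈ GO := GO.inv_mem hg
    refine ⟨fun v hv => ?_, ?_⟩
    · rw [e]
      exact (prim_right v h _ (GO_le v hu)).2 (h1 v hv)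
    · set u := (g⁻¹ * h)⁻¹
      rw [e]
      have hn := (GG_normal s).conj_mem ⟨h⁻¹ * inKu x * h, GG_le s h2⟩ (by
        rw [Subgroup.mem_subgroupOf]; exact h2) ⟨u⁻¹, GO.inv_mem hu⟩
      rw [Subgroup.mem_subgroupOf] at hn
      convert hn using 1
      simp only [Subgroup.coe_mul, InvMemClass.coe_inv]
      group
  · rintro ⟨h1, h2⟩
    exact ⟨g, rfl, h1, h2⟩

/-- The relevant unramified places. -/
private def Wx (x : KKˣ) : Set Pl := {v | v ∉ SS4 ∧ nn v x ≠ 0}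

private theorem Wx_fin (x : KKˣ) (him : (x : KK).im ≠ 0) : (Wx x).Finite := by
  refine ((ord_finite him).union (ord_finite (NK_ne x.ne_zero))).subset ?_
  rintro v ⟨-, hv⟩
  by_contra h
  simp only [Set.mem_union, Set.mem_ofPred_eq, not_or, not_not] at h
  apply hv
  rw [nn, h.1, h.2]
  rfl

/-- Projection of cosets. -/
private def pj (v : Pl) : AAˣ ⧸ GO → AAˣ ⧸ UU v := Subgroup.quotientMapOfLE (GO_le v)

private theorem pj_mk (v : Pl) (g : AAˣ) : pj v (g : AAˣ ⧸ GO) = (g : AAˣ ⧸ UU v) := rfl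

private theorem pj_inj {y y' : AAˣ ⧸ GO} (h : ∀ v, pj v y = pj v y') : y = y' := by
  induction y using QuotientGroup.induction_on with | _ g =>
  induction y' using QuotientGroup.induction_on with | _ g' =>
  rw [QuotientGroup.eq, mem_GO]
  intro v
  have := h v
  rwa [pj_mk, pj_mk, QuotientGroup.eq] at this

/-- Membership in terms of the projections. -/
private theorem mem_S1' (s : ℤˣ) (x : KKˣ) (hx : inKu x ∈ GO) (him : (x : KK).im ≠ 0)
    (y : AAˣ ⧸ GO) : y ∈ S1 s x ↔ (∀ v ∈ Wx x, pj v y ∈ Zs v x) ∧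
      (∀ v, v ∉ SS4 → v ∉ Wx x → pj v y = ((1 : AAˣ) : AAˣ ⧸ UU v)) ∧
      lk s x (sg P2 (pj P2 y)) (sg P17 (pj P17 y)) (sg P3 (pj P3 y)) (sg P23 (pj P23 y)) := by
  have hx' := (mem_GO _).1 hx
  induction y using QuotientGroup.induction_on with | _ g =>
  rw [mem_S1, mem_GG_iff s x hx]
  simp only [pj_mk]
  have hz : ∀ v, v ∉ SS4 → v ∉ Wx x → Zs v x = {((1 : AAˣ) : AAˣ ⧸ UU v)} := by
    intro v hv hw
    refine Zs_zero v hv x ((UU_iff_Rn hv x).1 (hx' v)) him ?_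
    by_contra h
    exact hw ⟨hv, h⟩
  constructor
  · rintro ⟨h1, h2, h3⟩
    refine ⟨fun v hv => (mem_Zs v hv.1 x g).2 ⟨h1 v hv.1, h2 v hv.1⟩, fun v hv hw => ?_, h3⟩
    have := (mem_Zs v hv x g).2 ⟨h1 v hv, h2 v hv⟩
    rw [hz v hv hw] at this
    exact this
  · rintro ⟨h1, h2, h3⟩
    have h4 : ∀ v, v ∉ SS4 → Prim v g ∧ g⁻¹ * inKu x * g ∈ UU v := by
      intro v hv
      rw [← mem_Zs v hv]
      by_cases hw : v ∈ Wx x
      · exact h1 v hw
      · rw [hz v hv hw]; exact h2 v hv hw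
    exact ⟨fun v hv => (h4 v hv).1, fun v hv => (h4 v hv).2, h3⟩

/-- Configurations. -/
private abbrev Cf (s : ℤˣ) (x : KKˣ) [Fintype (Wx x)] := {p : (∀ i : Wx x, Zs i.1 x) × ℤˣ × ℤˣ × ℤˣ × ℤˣ //
      (∏ i : Wx x, sg i.1 (p.1 i).1) * p.2.1 * p.2.2.1 * p.2.2.2.1 * p.2.2.2.2 = 1 ∧
        lk s x p.2.1 p.2.2.1 p.2.2.2.1 p.2.2.2.2}

/-- The product of all signs. -/
private theorem sign_prod (x : KKˣ) [Fintype (Wx x)] (f : Pl → AAˣ)
    (hf : ∀ v, v ∉ SS4 → v ∉ Wx x → f v ∈ UU v) :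
    ∏ᶠ v : Pl, om v ^ (ord v (nrd (f v : AA))) =
      (∏ i : Wx x, sg i.1 ((f i.1 : AAˣ) : AAˣ ⧸ UU i.1)) * sg P2 ((f P2 : AAˣ) : AAˣ ⧸ UU P2) *
        sg P17 ((f P17 : AAˣ) : AAˣ ⧸ UU P17) * sg P3 ((f P3 : AAˣ) : AAˣ ⧸ UU P3) *
        sg P23 ((f P23 : AAˣ) : AAˣ ⧸ UU P23) := by
  classical
  obtain ⟨-, -, -, -, hS, n1, n2, n3, n4, n5, n6⟩ := four_spec
  have hsub : Function.mulSupport (fun v : Pl => om v ^ (ord v (nrd (f v : AA)))) ⊆
      ((Wx x).toFinset ∪ {P2, P17, P3, P23} : Finset Pl) := by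
    intro v hv
    rw [Finset.coe_union, Set.mem_union]
    by_contra h
    rw [not_or] at h
    obtain ⟨h1, h2⟩ := h
    have hw : v ∉ Wx x := by simpa using h1
    have hs : v ∉ SS4 := by
      rw [hS]
      simpa using h2
    obtain ⟨k, hk⟩ := UU_even (hf v hs hw)
    apply hv
    show om v ^ (ord v (nrd (f v : AA))) = 1
    rw [hk, _root_.zpow_add, ← mul_zpow, Int.units_mul_self, _root_.one_zpow]
  rw [finprod_eq_prod_of_mulSupport_subset _ hsub, Finset.prod_union]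
  · rw [Finset.prod_insert, Finset.prod_insert, Finset.prod_insert, Finset.prod_singleton]
    · rw [sg_mk, sg_mk, sg_mk, sg_mk]
      have : ∏ v ∈ (Wx x).toFinset, om v ^ (ord v (nrd (f v : AA))) =
          ∏ i : Wx x, sg i.1 ((f i.1 : AAˣ) : AAˣ ⧸ UU i.1) := by
        rw [← Finset.prod_coe_sort]
        refine Fintype.prod_equiv (Equiv.subtypeEquivRight (by simp)) _ _ ?_
        intro i
        rw [sg_mk]
        rfl
      rw [this]
      simp only [mul_assoc]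
    all_goals simp [n1, n2, n3, n4, n5, n6]
  · rw [Finset.disjoint_left]
    intro v hv hv'
    have h1 : v ∈ Wx x := by simpa using hv
    have h2 : v ∈ SS4 := by
      rw [hS]
      simpa using hv'
    exact h1.1 h2

private theorem sg_inj {v : Pl} (hv : v ∈ SS4) {y y' : AAˣ ⧸ UU v} (h : sg v y = sg v y') :
    y = y' := by
  induction y using QuotientGroup.induction_on with | _ g =>
  induction y' using QuotientGroup.induction_on with | _ g' =>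
  rw [QuotientGroup.eq, ram_iff hv, ord_nrd_mul, nrd_inv_ord]
  have hne : (1 : ℤˣ) ≠ -1 := by decide
  rcases sg_ram hv g with ⟨h1, h2⟩ | ⟨h1, h2⟩ <;> rcases sg_ram hv g' with ⟨k1, k2⟩ | ⟨k1, k2⟩
  · rw [ram_iff hv] at h1 k1
    exact h1.neg.add k1
  · rw [h2, k2] at h; exact absurd h hne
  · rw [h2, k2] at h; exact absurd h.symm hne
  · rw [ram_iff hv, Int.not_even_iff_odd] at h1 k1
    exact h1.neg.add_odd k1

/-- Representative of a sign at a ramified place. -/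
private theorem sg_surj {v : Pl} (hv : v ∈ SS4) (a : ℤˣ) :
    ∃ g : AAˣ, sg v (g : AAˣ ⧸ UU v) = a := by
  obtain ⟨n, hn⟩ := odd_exists
  rcases Int.units_eq_one_or a with rfl | rfl
  · refine ⟨1, ?_⟩
    rcases sg_ram hv 1 with ⟨-, h⟩ | ⟨h, -⟩
    · exact h
    · exact absurd (UU v).one_mem h
  · refine ⟨n, ?_⟩
    rcases sg_ram hv n with ⟨h, -⟩ | ⟨-, h⟩
    · exact absurd h (hn v hv)
    · exact h

private theorem conf_equiv (s : ℤˣ) (x : KKˣ) (hx : inKu x ∈ GO) (him : (x : KK).im ≠ 0)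
    [Fintype (Wx x)] : Nonempty (S1 s x ≃ Cf s x) := by
  classical
  obtain ⟨-, -, -, -, hS, n1, n2, n3, n4, n5, n6⟩ := four_spec
  obtain ⟨m2, m17, m3, m23⟩ := S4_mem
  have hpr : ∀ y ∈ S1 s x, (∏ i : Wx x, sg i.1 (pj i.1 y)) * sg P2 (pj P2 y) * sg P17 (pj P17 y) *
      sg P3 (pj P3 y) * sg P23 (pj P23 y) = 1 := by
    intro y hy
    induction y using QuotientGroup.induction_on with | _ g =>
    rw [mem_S1' s x hx him] at hy
    have h := sign_prod x (fun _ => g) (fun v hv hw => by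
      have := hy.2.1 v hv hw
      rw [pj_mk, QuotientGroup.eq, mul_one] at this
      simpa using (UU v).inv_mem this)
    rw [par_global] at h
    exact h.symm
  let F : S1 s x → Cf s x := fun y =>
    ⟨(fun i => ⟨pj i.1 y.1, ((mem_S1' s x hx him y.1).1 y.2).1 i.1 i.2⟩, sg P2 (pj P2 y.1),
      sg P17 (pj P17 y.1), sg P3 (pj P3 y.1), sg P23 (pj P23 y.1)), hpr y.1 y.2,
      ((mem_S1' s x hx him y.1).1 y.2).2.2⟩
  refine ⟨Equiv.ofBijective F ⟨?_, ?_⟩⟩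
  · intro y y' h
    have h1 := congrArg Subtype.val h
    simp only [F, Prod.mk.injEq] at h1
    obtain ⟨e0, e1, e2, e3, e4⟩ := h1
    apply Subtype.ext
    apply pj_inj
    intro v
    by_cases hv : v ∈ SS4
    · apply sg_inj hv
      rw [hS] at hv
      simp only [Set.mem_insert_iff, Set.mem_singleton_iff] at hv
      rcases hv with rfl | rfl | rfl | rfl <;> assumption
    · by_cases hw : v ∈ Wx x
      · have := congrFun e0 ⟨v, hw⟩
        exact congrArg Subtype.val this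
      · rw [((mem_S1' s x hx him y.1).1 y.2).2.1 v hv hw,
          ((mem_S1' s x hx him y'.1).1 y'.2).2.1 v hv hw]
  · rintro ⟨⟨z, a, b, c, d⟩, hp, hl⟩
    obtain ⟨ga, ha⟩ := sg_surj m2 a
    obtain ⟨gb, hb⟩ := sg_surj m17 b
    obtain ⟨gc, hc⟩ := sg_surj m3 c
    obtain ⟨gd, hd⟩ := sg_surj m23 d
    let f : Pl → AAˣ := fun v => if h : v ∈ Wx x then Quotient.out (z ⟨v, h⟩).1 else
      if v = P2 then ga else if v = P17 then gb else if v = P3 then gc else if v = P23 then gd else 1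
    have hW : ∀ v, v ∈ SS4 → v ∉ Wx x := fun v hv hw => hw.1 hv
    have f2 : f P2 = ga := by simp [f, hW P2 m2]
    have f17 : f P17 = gb := by simp [f, hW P17 m17, n1.symm]
    have f3 : f P3 = gc := by simp [f, hW P3 m3, n2.symm, n4.symm]
    have f23 : f P23 = gd := by simp [f, hW P23 m23, n3.symm, n5.symm, n6.symm]
    have fW : ∀ v (h : v ∈ Wx x), ((f v : AAˣ) : AAˣ ⧸ UU v) = (z ⟨v, h⟩).1 := by
      intro v h
      have e : f v = Quotient.out (z ⟨v, h⟩).1 := by simp [f, h]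
      rw [e]
      exact QuotientGroup.out_eq' _
    have f1 : ∀ v, v ∉ SS4 → v ∉ Wx x → f v = 1 := by
      intro v hv hw
      rw [hS] at hv
      simp only [Set.mem_insert_iff, Set.mem_singleton_iff, not_or] at hv
      simp [f, hw, hv.1, hv.2.1, hv.2.2.1, hv.2.2.2]
    have hsp := sign_prod x f (fun v hv hw => by rw [f1 v hv hw]; exact (UU v).one_mem)
    have hsp1 : ∏ᶠ v : Pl, om v ^ (ord v (nrd (f v : AA))) = 1 := by
      rw [hsp, f2, f17, f3, f23, ha, hb, hc, hd, ← hp]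
      congr 4
      exact Finset.prod_congr rfl fun i _ => by rw [fW i.1 i.2]
    obtain ⟨g, hg⟩ := orb f (by
      refine ((Wx_fin x him).union (Set.toFinite {P2, P17, P3, P23})).subset ?_
      intro v hv
      by_contra h
      rw [Set.mem_union, not_or, ← hS] at h
      apply hv
      rw [f1 v h.2 h.1]
      exact (UU v).one_mem) hsp1
    have hpj : ∀ v, pj v (g : AAˣ ⧸ GO) = (f v : AAˣ ⧸ UU v) := by
      intro v
      rw [pj_mk, QuotientGroup.eq]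
      exact hg v
    have hgS : (g : AAˣ ⧸ GO) ∈ S1 s x := by
      rw [mem_S1' s x hx him]
      refine ⟨fun v hv => ?_, fun v hv hw => ?_, ?_⟩
      · rw [hpj, fW v hv]
        exact (z ⟨v, hv⟩).2
      · rw [hpj, f1 v hv hw]
      · rw [hpj, hpj, hpj, hpj, f2, f17, f3, f23, ha, hb, hc, hd]
        exact hl
    refine ⟨⟨(g : AAˣ ⧸ GO), hgS⟩, ?_⟩
    apply Subtype.ext
    simp only [F, Prod.mk.injEq]
    refine ⟨?_, ?_, ?_, ?_, ?_⟩
    · funext i
      apply Subtype.ext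
      show pj i.1 (g : AAˣ ⧸ GO) = _
      rw [hpj, fW i.1 i.2]
    · rw [hpj, f2, ha]
    · rw [hpj, f17, hb]
    · rw [hpj, f3, hc]
    · rw [hpj, f23, hd]

private theorem conf_finite (s : ℤˣ) (x : KKˣ) (hx : inKu x ∈ GO) (him : (x : KK).im ≠ 0)
    [Fintype (Wx x)] : Finite (Cf s x) := by
  have hx' := (mem_GO _).1 hx
  have : ∀ i : Wx x, Finite (Zs i.1 x) := fun i =>
    (Zs_finite i.1 i.2.1 x ((UU_iff_Rn i.2.1 x).1 (hx' i.1)) him).to_subtype
  infer_instance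

theorem S1_finite (s : ℤˣ) (x : KKˣ) (hx : inKu x ∈ GO) (him : (x : KK).im ≠ 0) :
    (S1 s x).Finite := by
  have : Fintype (Wx x) := (Wx_fin x him).fintype
  have := conf_finite s x hx him
  obtain ⟨e⟩ := conf_equiv s x hx him
  have : Finite (S1 s x) := Finite.of_equiv _ e.symm
  exact Set.toFinite _

private theorem sum_u (f : ℤˣ → ℝ) : ∑ a : ℤˣ, f a = f 1 + f (-1) := by
  rw [show (Finset.univ : Finset ℤˣ) = {1, -1} from rfl, Finset.sum_pair (by decide)]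

private def iA (s t : ZMod 3) (e : ℤˣ) (a b : ℤˣ) : ℤ :=
  if ((a : ℤ) : ZMod 3) * s + ((e : ℤ) : ZMod 3) * (((b : ℤ) : ZMod 3) * t) = 0 then 1 else 0

private theorem iA_sum (s t : ZMod 3) :
    iA s t 1 1 1 + iA s t 1 1 (-1) + iA s t 1 (-1) 1 + iA s t 1 (-1) (-1) =
      iA s t (-1) 1 1 + iA s t (-1) 1 (-1) + iA s t (-1) (-1) 1 + iA s t (-1) (-1) (-1) := by
  revert s t; decide

private theorem iA_kap (s t : ZMod 3) :
    (iA s t 1 1 1 - iA s t 1 1 (-1) - iA s t 1 (-1) 1 + iA s t 1 (-1) (-1)) -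
      (iA s t (-1) 1 1 - iA s t (-1) 1 (-1) - iA s t (-1) (-1) 1 + iA s t (-1) (-1) (-1)) =
      kapA s t := by
  revert s t; decide

private def iB (s t : ZMod 4) (a b : ℤˣ) : ℤ :=
  if ((a : ℤ) : ZMod 4) * s + ((b : ℤ) : ZMod 4) * t = 0 then 1 else 0

private theorem iB_kap (s t : ZMod 4) :
    iB s t 1 1 - iB s t 1 (-1) - iB s t (-1) 1 + iB s t (-1) (-1) = kapB s t := by
  revert s t; decide

private theorem sum_formula (x : KKˣ) (e : ℤˣ) (C D : ℝ) :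
    (∑ a : ℤˣ, ∑ b : ℤˣ, ∑ c : ℤˣ, ∑ d : ℤˣ, (open Classical in if lk e x a b c d then
      (C + (((a * b * c * d : ℤˣ) : ℤ) : ℝ) * D) else 0)) =
    ((iA (a2 (inKu x)) (a17 (inKu x)) e 1 1 : ℝ) + iA (a2 (inKu x)) (a17 (inKu x)) e 1 (-1) +
        iA (a2 (inKu x)) (a17 (inKu x)) e (-1) 1 + iA (a2 (inKu x)) (a17 (inKu x)) e (-1) (-1)) *
      ((iB (a3 (inKu x)) (a23 (inKu x)) 1 1 : ℝ) + iB (a3 (inKu x)) (a23 (inKu x)) 1 (-1) +
        iB (a3 (inKu x)) (a23 (inKu x)) (-1) 1 + iB (a3 (inKu x)) (a23 (inKu x)) (-1) (-1)) * C +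
    ((iA (a2 (inKu x)) (a17 (inKu x)) e 1 1 : ℝ) - iA (a2 (inKu x)) (a17 (inKu x)) e 1 (-1) -
        iA (a2 (inKu x)) (a17 (inKu x)) e (-1) 1 + iA (a2 (inKu x)) (a17 (inKu x)) e (-1) (-1)) *
      ((iB (a3 (inKu x)) (a23 (inKu x)) 1 1 : ℝ) - iB (a3 (inKu x)) (a23 (inKu x)) 1 (-1) -
        iB (a3 (inKu x)) (a23 (inKu x)) (-1) 1 + iB (a3 (inKu x)) (a23 (inKu x)) (-1) (-1)) * D := by
  classical
  have hA : ∀ (a b c d : ℤˣ) (z : ℝ), (if lk e x a b c d then z else 0) =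
      (iA (a2 (inKu x)) (a17 (inKu x)) e a b : ℝ) * (iB (a3 (inKu x)) (a23 (inKu x)) c d : ℝ) * z := by
    intro a b c d z
    rw [iA, iB]
    by_cases h1 : ((a : ℤ) : ZMod 3) * a2 (inKu x) + ((e : ℤ) : ZMod 3) *
      (((b : ℤ) : ZMod 3) * a17 (inKu x)) = 0 <;>
    by_cases h2 : ((c : ℤ) : ZMod 4) * a3 (inKu x) + ((d : ℤ) : ZMod 4) * a23 (inKu x) = 0
    · rw [if_pos (show lk e x a b c d from ⟨h1, h2⟩), if_pos h1, if_pos h2]; simp
    · rw [if_neg (show ¬ lk e x a b c d from fun h => h2 h.2), if_neg h2]; simp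
    · rw [if_neg (show ¬ lk e x a b c d from fun h => h1 h.1), if_neg h1]; simp
    · rw [if_neg (show ¬ lk e x a b c d from fun h => h1 h.1), if_neg h1]; simp
  simp only [hA, sum_u]
  push_cast
  ring

theorem S1_count (x : KKˣ) (hx : inKu x ∈ GO) (him : (x : KK).im ≠ 0) :
    ((S1 1 x).ncard : ℝ) - ((S1 (-1) x).ncard : ℝ) = 2⁻¹ * (kapg x : ℝ) * prodS x := by
  classical
  have hx' := (mem_GO _).1 hx
  have : Fintype (Wx x) := (Wx_fin x him).fintype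
  have hfin : ∀ i : Wx x, (Zs i.1 x).Finite := fun i =>
    Zs_finite i.1 i.2.1 x ((UU_iff_Rn i.2.1 x).1 (hx' i.1)) him
  have : ∀ i : Wx x, Fintype (Zs i.1 x) := fun i => (hfin i).fintype
  have hs : ∀ s : ℤˣ, ((S1 s x).ncard : ℝ) = 2⁻¹ * ∑ a : ℤˣ, ∑ b : ℤˣ, ∑ c : ℤˣ, ∑ d : ℤˣ,
      (if lk s x a b c d then ((∏ i : Wx x, (Fintype.card (Zs i.1 x) : ℝ)) +
        (((a * b * c * d : ℤˣ) : ℤ) : ℝ) * ∏ i : Wx x, ∑ z : Zs i.1 x,
          (((sg i.1 z.1 : ℤˣ) : ℤ) : ℝ)) else 0) := by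
    intro s
    obtain ⟨e⟩ := conf_equiv s x hx him
    have h1 : (S1 s x).ncard = Nat.card (Cf s x) := by
      rw [← Nat.card_coe_set_eq]
      exact Nat.card_congr e
    rw [h1]
    exact cnt_abs (fun i : Wx x => Zs i.1 x) (fun i z => sg i.1 z.1) (lk s x)
  have hD : (∏ i : Wx x, ∑ z : Zs i.1 x, (((sg i.1 z.1 : ℤˣ) : ℤ) : ℝ)) = prodS x := by
    have h1 : ∀ i : Wx x, (∑ z : Zs i.1 x, (((sg i.1 z.1 : ℤˣ) : ℤ) : ℝ)) =
        ((((om i.1 : ℤˣ) : ℤ) : ℝ) * (Ideal.absNorm i.1.asIdeal : ℝ)) ^ (nn i.1 x).toNat := by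
      intro i
      have h2 := Zs_sum i.1 i.2.1 x ((UU_iff_Rn i.2.1 x).1 (hx' i.1)) him
      rw [finsum_mem_eq_finite_toFinset_sum _ (hfin i)] at h2
      have h3 : (∑ z : Zs i.1 x, ((sg i.1 z.1 : ℤˣ) : ℤ)) =
          ∑ y ∈ (hfin i).toFinset, ((sg i.1 y : ℤˣ) : ℤ) := by
        rw [← Finset.sum_coe_sort (hfin i).toFinset]
        exact Fintype.sum_equiv (Equiv.subtypeEquivRight (by simp)) _ _ (fun _ => rfl)
      rw [← h3] at h2
      have h4 := congrArg (fun n : ℤ => (n : ℝ)) h2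
      push_cast at h4
      exact h4
    rw [Finset.prod_congr rfl fun i _ => h1 i]
    have hsub : Function.mulSupport (fun v : Pl => if v ∈ SS4 then (1 : ℝ) else
        ((((om v : ℤˣ) : ℤ) : ℝ) * (Ideal.absNorm v.asIdeal : ℝ)) ^ (nn v x).toNat) ⊆
        ((Wx x).toFinset : Finset Pl) := by
      intro v hv
      rw [Set.coe_toFinset]
      rw [Function.mem_mulSupport] at hv
      by_cases h4 : v ∈ SS4
      · simp [h4] at hv
      · refine ⟨h4, fun h0 => ?_⟩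
        simp [h4, h0] at hv
    rw [prodS, finprod_eq_prod_of_mulSupport_subset _ hsub, ← Finset.prod_set_coe]
    refine Finset.prod_congr rfl fun i _ => ?_
    rw [if_neg i.2.1]
  rw [hs 1, hs (-1), hD]
  rw [sum_formula, sum_formula]
  have e1 := congrArg (fun n : ℤ => (n : ℝ)) (iA_sum (a2 (inKu x)) (a17 (inKu x)))
  have e2 := congrArg (fun n : ℤ => (n : ℝ)) (iA_kap (a2 (inKu x)) (a17 (inKu x)))
  have e3 := congrArg (fun n : ℤ => (n : ℝ)) (iB_kap (a3 (inKu x)) (a23 (inKu x)))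
  push_cast at e1 e2 e3
  rw [kapg]
  push_cast
  rw [← e2, ← e3, e1]
  ring

end

end Pool.Agent.Work.MP_14c213_gt
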