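import Pool.Agent.Work.MP_14c213_gt.B.OrdB

/-!
Some power of the ideal v is principal (finite class group).
-/

namespace Pool.Agent.Work.MP_14c213_gt

open Matrix IsDedekindDomain
open scoped Matrix NumberField QuadraticAlgebra

noncomputable section

theorem pow_gen (v : Pl) : ∃ (p : kk) (h : ℕ), 0 < h ∧ p ≠ 0 ∧ IsIntegral ℤ p ∧ ord v p = h ∧
    ∀ w, w ≠ v → ord w p = 0 := by
  classical
  have hv0 : v.asIdeal ∈ nonZeroDivisors (Ideal (𝓞 kk)) := mem_nonZeroDivisors_of_ne_zero v.ne_bot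
  set h := Fintype.card (ClassGroup (𝓞 kk)) with hh
  have hpos : 0 < h := Fintype.card_pos
  have h1 : (ClassGroup.mk0 ⟨v.asIdeal, hv0⟩) ^ h = 1 := pow_card_eq_one
  rw [← map_pow, ClassGroup.mk0_eq_one_iff] at h1
  obtain ⟨x, hx⟩ := h1.principal
  have hx' : Ideal.span {x} = v.asIdeal ^ h := hx.symm
  have hx0 : x ≠ 0 := by
    rintro rfl
    rw [Ideal.span_singleton_eq_bot.2 rfl] at hx'
    exact pow_ne_zero h v.ne_bot hx'.symm
  have hle : ∀ (w : Pl) (n : ℕ), (n : ℤ) ≤ ord w (x : kk) ↔ w.asIdeal ^ n ∣ v.asIdeal ^ h := by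
    intro w n
    have hval : w.valuation kk (x : kk) = w.intValuation x := w.valuation_of_algebraMap _
    have hne : w.intValuation x ≠ 0 := w.intValuation_ne_zero _ hx0
    rw [← hx', ← w.intValuation_le_pow_iff_dvd, ord, hval, ← WithZero.exp_log hne,
      WithZero.exp_le_exp, WithZero.log_exp]
    constructor <;> intro h <;> linarith
  refine ⟨x, h, hpos, by exact_mod_cast hx0, x.2, ?_, ?_⟩
  · have h2 := (hle v h).2 dvd_rfl
    have h3 : ¬ ((h + 1 : ℕ) : ℤ) ≤ ord v (x : kk) := by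
      intro h4
      have h5 := (hle v (h + 1)).1 h4
      have h6 := (pow_dvd_pow_iff v.ne_bot v.prime.not_isUnit).1 h5
      omega
    push_cast at h3
    omega
  · intro w hw
    have h2 := (hle w 0).2 (by simp)
    have h3 : ¬ ((1 : ℕ) : ℤ) ≤ ord w (x : kk) := by
      intro h4
      have h5 := (hle w 1).1 h4
      rw [pow_one] at h5
      have h6 := w.prime.dvd_of_dvd_pow h5
      have h7 : v.asIdeal ≤ w.asIdeal := Ideal.dvd_iff_le.1 h6
      exact hw (HeightOneSpectrum.ext (v.isMaximal.eq_of_le w.isPrime.ne_top h7)).symm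
    push_cast at h2 h3
    omega

private theorem PowB_den (z : kk) : ∃ N : ℕ, 0 < N ∧ ∀ M : ℕ, N ∣ M → ∀ w : Pl,
    w.valuation kk ((M : kk) * z) ≤ 1 := by
  refine ⟨z.re.den * z.im.den, Nat.mul_pos z.re.den_pos z.im.den_pos, ?_⟩
  rintro _ ⟨k, rfl⟩ w
  have h1 : ((z.re.den * z.im.den * k : ℕ) : kk) * z =
      ⟨((z.re.num * z.im.den * k : ℤ) : ℚ), ((z.im.num * z.re.den * k : ℤ) : ℚ)⟩ := by
    have e1 : (z.re.den : ℚ) * z.re = z.re.num := Rat.den_mul_eq_num z.re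
    have e2 : (z.im.den : ℚ) * z.im = z.im.num := Rat.den_mul_eq_num z.im
    ext
    · simp
      linear_combination (z.im.den * k : ℚ) * e1
    · simp
      linear_combination (z.re.den * k : ℚ) * e2
  rw [h1]
  exact val_int w _ _

/-- Denominators: every element of `A` becomes integral everywhere after multiplication by a positive
integer. -/
theorem denom (g : AA) : ∃ N : ℕ, 0 < N ∧ ∀ w : Pl, (N : kk) • g ∈ OO w := by
  obtain ⟨N1, p1, h1⟩ := PowB_den g.re
  obtain ⟨N2, p2, h2⟩ := PowB_den g.imI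
  obtain ⟨N3, p3, h3⟩ := PowB_den g.imJ
  obtain ⟨N4, p4, h4⟩ := PowB_den g.imK
  refine ⟨N1 * N2 * N3 * N4, by positivity, fun w => ⟨?_, ?_, ?_, ?_⟩⟩
  · exact h1 _ ⟨N2 * N3 * N4, by ring⟩ w
  · exact h2 _ ⟨N1 * N3 * N4, by ring⟩ w
  · exact h3 _ ⟨N1 * N2 * N4, by ring⟩ w
  · exact h4 _ ⟨N1 * N2 * N3, by ring⟩ w

end

end Pool.Agent.Work.MP_14c213_gt
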