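import Pool.Agent.Work.MP_14c213_gt.B.MinkB
import Pool.Agent.Work.MP_14c213_gt.B.IotaB
import Pool.Agent.Work.MP_14c213_gt.B.PowB

/-!
For det M = 1 there is a nonzero integral x ∈ A with iotaA x * M bounded. `cocL : ℝ⁸ → M₂(ℂ)` extends iotaA on the
integral elements; the matrix of `cocL⁻¹ ∘ (· * M) ∘ cocL` has determinant `|det M|⁴ = 1`.
-/

namespace Pool.Agent.Work.MP_14c213_gt

open Matrix IsDedekindDomain
open scoped Matrix NumberField QuadraticAlgebra

noncomputable section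

private def cocTh : ℂ := (1 + Complex.I * (Real.sqrt 15 : ℂ)) / 2

private theorem coc_phik (a b : ℤ) : phik ⟨a, b⟩ = (a : ℂ) + (b : ℂ) * cocTh := by
  have h : phik (⟨a, b⟩ : kk) = ((a : ℚ)) • (1 : ℂ) + ((b : ℚ)) • cocTh := rfl
  rw [h, Algebra.smul_def, Algebra.smul_def, mul_one]
  simp

private def cocL : (Fin 8 → ℝ) →ₗ[ℝ] M2 where
  toFun c := !![((c 0 : ℂ) + c 1 * cocTh) + ((c 2 : ℂ) + c 3 * cocTh) * zc,
    phik bq * (((c 4 : ℂ) + c 5 * cocTh) + ((c 6 : ℂ) + c 7 * cocTh) * zc);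
    ((c 4 : ℂ) + c 5 * cocTh) + ((c 6 : ℂ) + c 7 * cocTh) * (-1 - zc),
    ((c 0 : ℂ) + c 1 * cocTh) + ((c 2 : ℂ) + c 3 * cocTh) * (-1 - zc)]
  map_add' c d := by
    ext i j
    fin_cases i <;> fin_cases j <;> simp <;> ring
  map_smul' r c := by
    ext i j
    fin_cases i <;> fin_cases j <;> simp <;> ring

private theorem coc_iota (a b c d e f g h : ℤ) :
    iotaA ⟨⟨a, b⟩, ⟨c, d⟩, ⟨e, f⟩, ⟨g, h⟩⟩ =
      cocL ![(a : ℝ), b, c, d, e, f, g, h] := by
  have hK : ∀ x : KK, phiK x = phik x.re + phik x.im * zc := fun _ => rfl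
  have hs : ∀ x : KK, phiK (star x) = phik x.re + phik x.im * (-1 - zc) := by
    intro x
    rw [star_KK, hK]
    simp only [map_sub, map_neg]
    ring
  unfold iotaA
  rw [hs, hs, hK, hK]
  simp only [xp, yp, coc_phik]
  ext i j
  fin_cases i <;> fin_cases j <;> simp [cocL]

private theorem coc_zc : zc - (-1 - zc) ≠ 0 := by
  intro h
  have h1 := congrArg Complex.im h
  have : Real.sqrt 3 ≠ 0 := by positivity
  simp [zc] at h1

private theorem coc_lin0 {a b : ℝ} (h : (a : ℂ) + b * cocTh = 0) : a = 0 ∧ b = 0 := by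
  have h1 := congrArg Complex.im h
  have h2 := congrArg Complex.re h
  have h3 : Real.sqrt 15 ≠ 0 := by positivity
  have hb : b = 0 := by
    simp [cocTh] at h1
    exact h1
  subst hb
  simp [cocTh] at h2
  exact ⟨h2, rfl⟩

private theorem coc_pair {X Y : ℂ} (h1 : X + Y * zc = 0) (h2 : X + Y * (-1 - zc) = 0) :
    X = 0 ∧ Y = 0 := by
  have h3 : Y * (zc - (-1 - zc)) = 0 := by linear_combination h1 - h2
  have hY : Y = 0 := by
    rcases mul_eq_zero.1 h3 with h | h
    · exact h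
    · exact absurd h coc_zc
  subst hY
  rw [zero_mul, add_zero] at h1
  exact ⟨h1, rfl⟩

private theorem coc_inj : Function.Injective cocL := by
  rw [injective_iff_map_eq_zero]
  intro c hc
  have e00 := congrFun (congrFun hc 0) 0
  have e01 := congrFun (congrFun hc 0) 1
  have e10 := congrFun (congrFun hc 1) 0
  have e11 := congrFun (congrFun hc 1) 1
  simp only [cocL, LinearMap.coe_mk, AddHom.coe_mk, Matrix.of_apply, Matrix.cons_val',
    Matrix.cons_val_zero, Matrix.cons_val_one, Matrix.cons_val_fin_one, Matrix.zero_apply]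
    at e00 e01 e10 e11
  have hb : phik bq ≠ 0 := by
    intro h0
    have := (map_eq_zero phik).1 h0
    have := congrArg QuadraticAlgebra.re this
    simp [bq] at this
  have e01' := (mul_eq_zero.1 e01).resolve_left hb
  obtain ⟨h1, h2⟩ := coc_pair e00 e11
  obtain ⟨h3, h4⟩ := coc_pair e01' e10
  obtain ⟨a0, a1⟩ := coc_lin0 h1
  obtain ⟨a2, a3⟩ := coc_lin0 h2
  obtain ⟨a4, a5⟩ := coc_lin0 h3
  obtain ⟨a6, a7⟩ := coc_lin0 h4
  funext i
  fin_cases i <;> assumption

private def cocE : (Fin 8 → ℝ) ≃ₗ[ℝ] M2 :=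
  LinearEquiv.ofInjectiveOfFinrankEq cocL coc_inj (by
    rw [Module.finrank_matrix, Module.finrank_fin_fun, Complex.finrank_real_complex]
    simp)

private theorem cocE_apply (c : Fin 8 → ℝ) : cocE c = cocL c := rfl

/-- Right multiplication by `M`. -/
private def cocR (M : M2) : M2 →ₗ[ℂ] M2 where
  toFun X := X * M
  map_add' X Y := Matrix.add_mul X Y M
  map_smul' c X := Matrix.smul_mul c X M

private theorem cocR_det (M : M2) (hM : M.det = 1) : (cocR M).det = 1 := by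
  have h1 : (LinearMap.pi (fun i : Fin 2 => (Matrix.vecMulLinear M).comp
      (LinearMap.proj (R := ℂ) (φ := fun _ : Fin 2 => Fin 2 → ℂ) i))).det =
        ∏ _i : Fin 2, (Matrix.vecMulLinear M).det := LinearMap.det_pi _
  have h2 : (Matrix.vecMulLinear M).det = 1 := by
    have : Matrix.vecMulLinear M = Matrix.toLin' Mᵀ := by
      ext x i
      simp
    rw [this, LinearMap.det_toLin', Matrix.det_transpose, hM]
  rw [h2, Finset.prod_const_one] at h1
  exact h1

private theorem coc_det (M : M2) (hM : M.det = 1) :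
    (LinearMap.toMatrix' ((cocE.symm : M2 →ₗ[ℝ] (Fin 8 → ℝ)) ∘ₗ
      ((cocR M).restrictScalars ℝ) ∘ₗ (cocE : (Fin 8 → ℝ) →ₗ[ℝ] M2))).det = 1 := by
  rw [LinearMap.det_toMatrix']
  have h := LinearMap.det_conj ((cocR M).restrictScalars ℝ) cocE.symm
  rw [LinearEquiv.symm_symm] at h
  rw [h, LinearMap.det_restrictScalars, cocR_det M hM, map_one]

theorem coc_small : ∃ C : ℝ, ∀ M : M2, M.det = 1 → ∃ x : AA, x ≠ 0 ∧
    (∃ a b c d e f g h : ℤ, x = ⟨⟨a, b⟩, ⟨c, d⟩, ⟨e, f⟩, ⟨g, h⟩⟩) ∧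
    ∀ i j, ‖(iotaA x * M) i j‖ ≤ C := by
  refine ⟨∑ i, ∑ j, ∑ k, 2 * ‖cocL (Pi.single k 1) i j‖, fun M hM => ?_⟩
  set f := (cocE.symm : M2 →ₗ[ℝ] (Fin 8 → ℝ)) ∘ₗ
      ((cocR M).restrictScalars ℝ) ∘ₗ (cocE : (Fin 8 → ℝ) →ₗ[ℝ] M2) with hf
  have hdet : (LinearMap.toMatrix' f).det = 1 := coc_det M hM
  obtain ⟨x, hx, hb⟩ := mink_forms (LinearMap.toMatrix' f) (by rw [hdet]; exact one_ne_zero) 2
    (by norm_num) (by rw [hdet]; norm_num)
  set v : Fin 8 → ℝ := fun j => (x j : ℝ) with hv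
  have hfv : ∀ i, f v i = ∑ j, LinearMap.toMatrix' f i j * (x j : ℝ) := by
    intro i
    have h1 := congrFun (LinearMap.toMatrix'_mulVec f v) i
    rw [← h1, Matrix.mulVec, dotProduct]
  have hLf : cocL (f v) = cocL v * M := by
    rw [← cocE_apply, hf]
    simp only [LinearMap.comp_apply, LinearEquiv.coe_coe, LinearEquiv.apply_symm_apply]
    rfl
  have hv8 : v = ![(x 0 : ℝ), x 1, x 2, x 3, x 4, x 5, x 6, x 7] := by
    funext i
    fin_cases i <;> rfl
  refine ⟨⟨⟨x 0, x 1⟩, ⟨x 2, x 3⟩, ⟨x 4, x 5⟩, ⟨x 6, x 7⟩⟩, ?_, ⟨x 0, x 1, x 2, x 3, x 4, x 5, x 6,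
    x 7, rfl⟩, ?_⟩
  · intro h0
    apply hx
    have h1 := congrArg QuaternionAlgebra.re h0
    have h2 := congrArg QuaternionAlgebra.imI h0
    have h3 := congrArg QuaternionAlgebra.imJ h0
    have h4 := congrArg QuaternionAlgebra.imK h0
    have k0 := congrArg QuadraticAlgebra.re h1
    have k1 := congrArg QuadraticAlgebra.im h1
    have k2 := congrArg QuadraticAlgebra.re h2
    have k3 := congrArg QuadraticAlgebra.im h2
    have k4 := congrArg QuadraticAlgebra.re h3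
    have k5 := congrArg QuadraticAlgebra.im h3
    have k6 := congrArg QuadraticAlgebra.re h4
    have k7 := congrArg QuadraticAlgebra.im h4
    simp at k0 k1 k2 k3 k4 k5 k6 k7
    funext i
    fin_cases i <;> assumption
  · intro i j
    rw [coc_iota, ← hv8, ← hLf]
    have h1 : f v = ∑ k, (f v k) • (Pi.single k (1 : ℝ) : Fin 8 → ℝ) := by
      funext i
      simp [Finset.sum_apply, Pi.single_apply]
    rw [h1, map_sum, Matrix.sum_apply]
    have h2 : ‖∑ k, cocL ((f v k) • (Pi.single k (1 : ℝ) : Fin 8 → ℝ)) i j‖ ≤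
        ∑ k, 2 * ‖cocL (Pi.single k 1) i j‖ := by
      refine (norm_sum_le _ _).trans (Finset.sum_le_sum fun k _ => ?_)
      rw [map_smul, Matrix.smul_apply, norm_smul, Real.norm_eq_abs]
      have h3 := hb k
      rw [← hfv] at h3
      gcongr
    refine h2.trans ?_
    have h4 : ∀ i' j', 0 ≤ ∑ k, 2 * ‖cocL (Pi.single k 1) i' j'‖ := fun i' j' =>
      Finset.sum_nonneg fun k _ => by positivity
    refine (Finset.single_le_sum (f := fun j' => ∑ k, 2 * ‖cocL (Pi.single k 1) i j'‖)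
      (fun j' _ => h4 i j') (Finset.mem_univ j)).trans ?_
    exact Finset.single_le_sum (f := fun i' => ∑ j', ∑ k, 2 * ‖cocL (Pi.single k 1) i' j'‖)
      (fun i' _ => Finset.sum_nonneg fun j' _ => h4 i' j') (Finset.mem_univ i)

end

end Pool.Agent.Work.MP_14c213_gt
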