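import Pool.Agent.Work.MP_14c213_gt.BDefs

/-!
The completion at v: dense, compact integers (Mathlib:
compactSpace_iff_completeSpace_and_isDiscreteValuationRing_and_finite_residueField, the residue field is a
quotient of 𝓞 kk ⧸ v, finite).
-/

namespace Pool.Agent.Work.MP_14c213_gt

open Matrix IsDedekindDomain
open scoped Matrix NumberField QuadraticAlgebra

noncomputable section

/-- The completion of `k` at `v`. -/
abbrev Kv (v : Pl) := v.adicCompletion kk

theorem Kv_val (v : Pl) (x : kk) : Valued.v (algebraMap kk (Kv v) x) = v.valuation kk x := by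
  exact IsDedekindDomain.HeightOneSpectrum.valuedAdicCompletion_eq_valuation' v x

theorem Kv_dense (v : Pl) : DenseRange (algebraMap kk (Kv v)) := by
  exact IsDedekindDomain.HeightOneSpectrum.denseRange_algebraMap kk v

private theorem compV_surj (v : Pl) (r : WithZero (Multiplicative ℤ)) :
    ∃ b : Kv v, Valued.v b = r :=
  HeightOneSpectrum.valuedAdicCompletion_surjective (K := kk) (v := v) r

private theorem compV_approx (v : Pl) (x : Kv v) (r : WithZero (Multiplicative ℤ)) (hr : r ≠ 0) :
    ∃ y : kk, Valued.v (x - algebraMap kk (Kv v) y) < r := by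
  obtain ⟨b, hb⟩ := compV_surj v r
  have hb0 : Valued.v.restrict b ≠ 0 := by
    rw [ne_eq, ← map_zero (Valued.v : Valuation (Kv v) (WithZero (Multiplicative ℤ))).restrict,
      Valuation.restrict_inj, map_zero, hb]
    exact hr
  have hU : {y : Kv v | Valued.v (y - x) < r} ∈ nhds x := by
    rw [Valued.mem_nhds]
    refine ⟨Units.mk0 _ hb0, fun y hy => ?_⟩
    have h2 : Valued.v.restrict (y - x) < Valued.v.restrict b := hy
    rw [Valuation.restrict_lt_iff, hb] at h2
    exact h2
  obtain ⟨y, hy⟩ := (Kv_dense v).exists_mem_open isOpen_interior ⟨x, mem_interior_iff_mem_nhds.mpr hU⟩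
  have := interior_subset hy
  refine ⟨y, ?_⟩
  rw [← Valuation.map_neg, neg_sub]
  exact this

private theorem compV_dvr (v : Pl) : IsDiscreteValuationRing (Valued.integer (Kv v)) :=
  inferInstanceAs (IsDiscreteValuationRing (v.adicCompletionIntegers kk))

private theorem compV_mem (v : Pl) (r : 𝓞 kk) :
    (algebraMap kk (Kv v) (algebraMap (𝓞 kk) kk r)) ∈ Valued.integer (Kv v) := by
  show Valued.v (algebraMap kk (Kv v) (algebraMap (𝓞 kk) kk r)) ≤ 1
  rw [Kv_val]
  exact v.valuation_le_one r

/-- the residue field is finite -/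
private theorem compV_fin (v : Pl) : Finite (IsLocalRing.ResidueField (Valued.integer (Kv v))) := by
  have hq : Finite (𝓞 kk ⧸ v.asIdeal) := Ideal.finiteQuotientOfFreeOfNeBot v.asIdeal v.ne_bot
  let f : 𝓞 kk → IsLocalRing.ResidueField (Valued.integer (Kv v)) := fun r =>
    IsLocalRing.residue _ ⟨_, compV_mem v r⟩
  have hf : Function.Surjective (fun q : 𝓞 kk ⧸ v.asIdeal => f (Quotient.out q)) := by
    intro x
    obtain ⟨z, rfl⟩ := IsLocalRing.residue_surjective x
    obtain ⟨y, hy⟩ := compV_approx v z.1 1 one_ne_zero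
    have hy1 : v.valuation kk y ≤ 1 := by
      rw [← Kv_val]
      have h1 : algebraMap kk (Kv v) y = z.1 - (z.1 - algebraMap kk (Kv v) y) := by ring
      rw [h1]
      exact (Valuation.map_sub _ _ _).trans (max_le z.2 hy.le)
    obtain ⟨r, hr⟩ := v.exists_valuation_sub_lt_of_integer (K := kk) hy1 1
    rw [Units.val_one] at hr
    refine ⟨Ideal.Quotient.mk v.asIdeal r, ?_⟩
    set s := Quotient.out (Ideal.Quotient.mk v.asIdeal r) with hs
    have hrs : s - r ∈ v.asIdeal := by
      rw [← Ideal.Quotient.eq]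
      exact Quotient.out_eq _
    have h2 : v.valuation kk (algebraMap (𝓞 kk) kk s - algebraMap (𝓞 kk) kk r) < 1 := by
      rw [← map_sub, v.valuation_lt_one_iff_mem]
      exact hrs
    have h3 : Valued.v (algebraMap kk (Kv v) (algebraMap (𝓞 kk) kk s) - z.1) < 1 := by
      have e1 : algebraMap kk (Kv v) (algebraMap (𝓞 kk) kk s) - z.1 =
          (algebraMap kk (Kv v) (algebraMap (𝓞 kk) kk s - algebraMap (𝓞 kk) kk r) +
          algebraMap kk (Kv v) (algebraMap (𝓞 kk) kk r - y)) - (z.1 - algebraMap kk (Kv v) y) := by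
        simp only [map_sub]
        ring
      rw [e1]
      refine lt_of_le_of_lt (Valuation.map_sub _ _ _) (max_lt ?_ hy)
      refine lt_of_le_of_lt (Valuation.map_add _ _ _) (max_lt ?_ ?_)
      · rw [Kv_val]; exact h2
      · rw [Kv_val]; exact hr
    have h4 : IsLocalRing.residue (Valued.integer (Kv v)) (⟨_, compV_mem v s⟩ - z) = 0 := by
      rw [IsLocalRing.residue_eq_zero_iff, IsLocalRing.mem_maximalIdeal, mem_nonunits_iff]
      intro hu
      have h5 := (Valuation.integer.integers (Valued.v (R := Kv v))).isUnit_iff_valuation_eq_one.mp hu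
      have h6 : Valued.v (algebraMap kk (Kv v) (algebraMap (𝓞 kk) kk s) - z.1) = 1 := h5
      rw [h6] at h3
      exact lt_irrefl _ h3
    rw [map_sub, sub_eq_zero] at h4
    exact h4
  exact Finite.of_surjective _ hf

private theorem compV_compl (v : Pl) : CompleteSpace (Valued.integer (Kv v)) :=
  (Valued.isClosed_integer (Kv v)).completeSpace_coe

theorem Kv_compact (v : Pl) : CompactSpace (v.adicCompletionIntegers kk) := by
  have h : CompactSpace (Valued.integer (Kv v)) := by
    rw [Valued.integer.compactSpace_iff_completeSpace_and_isDiscreteValuationRing_and_finite_residueField]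
    exact ⟨compV_compl v, compV_dvr v, compV_fin v⟩
  exact h

theorem Kv_ball (v : Pl) (r : WithZero (Multiplicative ℤ)) : IsCompact {x : Kv v | Valued.v x ≤ r} ∧
    IsOpen {x : Kv v | Valued.v x ≤ 1} := by
  have h1 : IsCompact {x : Kv v | Valued.v x ≤ 1} := by
    have := Kv_compact v
    have h2 : IsCompact ((v.adicCompletionIntegers kk : Set (Kv v))) :=
      isCompact_iff_compactSpace.mpr this
    exact h2
  refine ⟨?_, Valued.isOpen_integer (Kv v)⟩
  obtain ⟨b, hb⟩ := compV_surj v r
  have h3 : {x : Kv v | Valued.v x ≤ r} = (fun y => b * y) '' {x : Kv v | Valued.v x ≤ 1} := by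
    ext x
    simp only [Set.mem_ofPred_eq, Set.mem_image]
    constructor
    · intro hx
      by_cases hb0 : b = 0
      · rw [hb0, map_zero] at hb
        rw [← hb, le_zero_iff, map_eq_zero] at hx
        exact ⟨0, by rw [map_zero]; exact zero_le_one, by rw [hx, mul_zero]⟩
      · refine ⟨b⁻¹ * x, ?_, by rw [mul_inv_cancel_left₀ hb0]⟩
        rw [map_mul, map_inv₀, hb]
        have hr0 : r ≠ 0 := by
          rw [← hb]
          exact (Valuation.ne_zero_iff _).mpr hb0
        calc r⁻¹ * Valued.v x ≤ r⁻¹ * r := mul_le_mul_right hx _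
          _ = 1 := inv_mul_cancel₀ hr0
    · rintro ⟨y, hy, rfl⟩
      rw [map_mul, hb]
      calc r * Valued.v y ≤ r * 1 := mul_le_mul_right hy _
        _ = r := mul_one r
  rw [h3]
  exact h1.image (continuous_const.mul continuous_id)

/-- Approximation by elements of `k`. -/
theorem Kv_approx (v : Pl) (x : Kv v) (r : WithZero (Multiplicative ℤ)) (hr : r ≠ 0) :
    ∃ y : kk, Valued.v (x - algebraMap kk (Kv v) y) ≤ r := by
  obtain ⟨y, hy⟩ := compV_approx v x r hr
  exact ⟨y, hy.le⟩

end

end Pool.Agent.Work.MP_14c213_gt
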