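import Pool.Agent.Work.MP_14c213_gt.B.CenB

/-!
Skolem-Noether for elements of order three: if x² + x + 1 = 0 then for a suitable y the element
h = Σ_{i=0..2} ζ^i y x^{-i} satisfies ζ h = h x and h ≠ 0 (some y ∈ A works since otherwise the three maps
y ↦ ζ^i y x^{-i} would be dependent; or: h = ζ y - y x² with y = 1, and if that is 0 take y = j).
Both x and ζ have trace -1 and norm 1. Simplest: h = ζ y + y (x + 1) satisfies ζ h = h x:
ζ² y + ζ y (x + 1) = -y - ζ y + ζ y x + ζ y = ζ y x - y and h x = ζ y x + y (x² + x) = ζ y x - y.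
-/

namespace Pool.Agent.Work.MP_14c213_gt

open Matrix IsDedekindDomain
open scoped Matrix NumberField QuadraticAlgebra

noncomputable section

private theorem ConjK_gen {R : Type*} [Ring R] {z x : R} (y : R) (hz : z * z + z + 1 = 0)
    (hx : x * x + x + 1 = 0) : z * (z * y + y * (x + 1)) = (z * y + y * (x + 1)) * x := by
  have h1 : z * z = -z - 1 := by
    have := eq_neg_of_add_eq_zero_left hz
    have h2 := eq_sub_of_add_eq this
    rw [h2]; abel
  have h2 : x * x = -x - 1 := by
    have := eq_neg_of_add_eq_zero_left hx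
    have h2 := eq_sub_of_add_eq this
    rw [h2]; abel
  have e1 : z * (z * y + y * (x + 1)) = (z * z) * y + z * y * x + z * y := by noncomm_ring
  have e2 : (z * y + y * (x + 1)) * x = z * y * x + y * (x * x) + y * x := by noncomm_ring
  rw [e1, e2, h1, h2]
  noncomm_ring

private theorem ConjK_comm {R : Type*} [Monoid R] (t g : Rˣ) (x : R) (hc : x * g = g * x) :
    ((t : R) * x * ((t⁻¹ : Rˣ) : R)) * ((t * g * t⁻¹ : Rˣ) : R) =
    ((t * g * t⁻¹ : Rˣ) : R) * ((t : R) * x * ((t⁻¹ : Rˣ) : R)) := by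
  simp only [Units.val_mul, mul_assoc, Units.inv_mul_cancel_left]
  rw [← mul_assoc x, hc, mul_assoc]

private theorem ConjK_zz : inK zeta * inK zeta + inK zeta + 1 = 0 := by
  have h := congrArg inK zeta_rel
  rw [inK_add, inK_add, inK_mul, inK_one] at h
  rw [h]
  rfl

private theorem ConjK_xp (x y : KK) : xp (mkA x y) = x := rfl
private theorem ConjK_yp (x y : KK) : yp (mkA x y) = y := rfl

private theorem ConjK_zs : zeta - star zeta ≠ 0 := by
  intro h
  rw [star_KK] at h
  have := congrArg (fun x : KK => x.im.re) h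
  simp [zeta] at this

private theorem ConjK_yz {g : AA} (h : inK zeta * g = g * inK zeta) : yp g = 0 := by
  have h2 := congrArg yp h
  rw [yp_mul, yp_mul] at h2
  simp only [inK, ConjK_xp, ConjK_yp, zero_mul, mul_zero, add_zero, zero_add] at h2
  have h3 : yp g * (zeta - star zeta) = 0 := by
    rw [mul_sub, ← h2]
    ring
  rcases mul_eq_zero.1 h3 with h4 | h4
  · exact h4
  · exact absurd h4 ConjK_zs

theorem conj_zeta {x : AA} (hx : x * x + x + 1 = 0) :
    ∃ h : AAˣ, (h : AA) * x * ((h⁻¹ : AAˣ) : AA) = inK zeta := by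
  have key : ∀ y : AA, inK zeta * y + y * (x + 1) ≠ 0 →
      ∃ h : AAˣ, (h : AA) * x * ((h⁻¹ : AAˣ) : AA) = inK zeta := by
    intro y hy
    obtain ⟨h, hh⟩ := exists_unit hy
    refine ⟨h, ?_⟩
    rw [hh, ← ConjK_gen y ConjK_zz hx, ← hh, mul_assoc, Units.mul_inv, mul_one]
  by_cases h1 : inK zeta * 1 + 1 * (x + 1) = 0
  · apply key (mkA 0 1)
    have hx' : x + 1 = -inK zeta := by
      rw [mul_one, one_mul] at h1
      exact eq_neg_of_add_eq_zero_right h1
    rw [hx']
    intro hc
    have h3 : inK zeta * mkA 0 1 = mkA 0 1 * inK zeta := by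
      rw [mul_neg] at hc
      exact eq_of_sub_eq_zero (by rw [sub_eq_add_neg]; exact hc)
    have h4 := ConjK_yz h3
    rw [ConjK_yp] at h4
    exact one_ne_zero h4
  · exact key 1 h1

private theorem ConjK_mem (g : AAˣ) (hy : yp (g : AA) = 0) : ∃ y : KKˣ, g = inKu y := by
  have hgx : (g : AA) = inK (xp (g : AA)) := by
    rw [inK, ← hy, mkA_eta]
  have hx0 : xp (g : AA) ≠ 0 := by
    intro h0
    have h3 := nrd_ne g
    rw [nrd, h0, hy] at h3
    exact h3 (by simp [NK])
  exact ⟨Units.mk0 (xp (g : AA)) hx0, Units.ext hgx⟩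

/-- An element commuting with a third root of unity is conjugate to an element of `K`. -/
theorem conj_K (γ : AAˣ) (h : ∃ x : AA, x * γ = γ * x ∧ x * x + x + 1 = 0) :
    ∃ (t : AAˣ) (y : KKˣ), t * γ * t⁻¹ = inKu y := by
  obtain ⟨x, hc, hx⟩ := h
  obtain ⟨t, ht⟩ := conj_zeta hx
  have h1 := ConjK_comm t γ x hc
  rw [ht] at h1
  have hy := ConjK_yz h1
  exact ⟨t, ConjK_mem _ hy⟩

end

end Pool.Agent.Work.MP_14c213_gt
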