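import Pool.Agent.Work.MP_14c213_gt.B.MsK

/-!
The mass formula. Let H = f⁻¹(centralizer of f γ), C = f⁻¹⟨f γ⟩. Conjugacy classes of N.map f which contain
some f (g γ g⁻¹) correspond to H-orbits on {g N : g⁻¹ γ g ∈ N} (g N goes to the class of f (g⁻¹ γ g)): if
f n conjugates f (g⁻¹γg) to f (g'⁻¹γg') then h = g' n g⁻¹ ∈ H and h g N = g' N. The stabiliser of g N in H is
H ∩ g N g⁻¹, and x ↦ f (g⁻¹ x g) maps it onto the centralizer of f (g⁻¹γg) in N.map f, C onto ⟨f (g⁻¹γg)⟩, with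
kernel f.ker ≤ C; so the indices agree. Then pass from G ⧸ N to G ⧸ Γ₀: the condition g⁻¹γg ∈ N only depends
on g Γ₀ since N is normal in Γ₀, the fibres have N.relIndex Γ₀ elements: ms_kto1.
-/

namespace Pool.Agent.Work.MP_14c213_gt

open Matrix IsDedekindDomain
open scoped Matrix NumberField QuadraticAlgebra

noncomputable section

/-- The mass of the classes of `N.map f` which are conjugate to `f γ` in the range of `f`. -/
def massP {G P : Type*} [Group G] [Group P] (f : G →* P) (N : Subgroup G) (γ : G) : ℝ :=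
  ∑ᶠ c : ConjClasses (N.map f), open Classical in
    if ∃ g : G, f (g * γ * g⁻¹) = ((Quotient.out c : N.map f) : P) then
      (((Subgroup.zpowers (Quotient.out c : N.map f)).relIndex
        (Subgroup.centralizer {(Quotient.out c : N.map f)}) : ℕ) : ℝ)⁻¹ else 0

/-- The set of cosets. -/
def cosS {G : Type*} [Group G] (N Γ₀ : Subgroup G) (γ : G) : Set (G ⧸ Γ₀) :=
  {y | ∃ g : G, y = (g : G ⧸ Γ₀) ∧ g⁻¹ * γ * g ∈ N}

theorem massP_congr {G P : Type*} [Group G] [Group P] (f : G →* P) (N : Subgroup G) {γ γ' : G}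
    (t : G) (h : f γ' = f (t * γ * t⁻¹)) : massP f N γ' = massP f N γ := by
  have key : ∀ g, f (g * γ' * g⁻¹) = f (g * t * γ * (g * t)⁻¹) := by
    intro g
    have h1 : g * t * γ * (g * t)⁻¹ = g * (t * γ * t⁻¹) * g⁻¹ := by group
    rw [h1, map_mul f (g * γ'), map_mul f g, map_mul f (g * (t * γ * t⁻¹)), map_mul f g, h]
  unfold massP
  refine finsum_congr fun c => ?_
  have h1 : (∃ g : G, f (g * γ' * g⁻¹) = ((Quotient.out c : N.map f) : P)) ↔
      ∃ g : G, f (g * γ * g⁻¹) = ((Quotient.out c : N.map f) : P) := by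
    constructor
    · rintro ⟨g, hg⟩
      exact ⟨g * t, by rw [← hg, key]⟩
    · rintro ⟨g, hg⟩
      refine ⟨g * t⁻¹, ?_⟩
      rw [← hg, key, inv_mul_cancel_right]
  classical
  exact if_congr h1 rfl rfl

section glm

variable {G P : Type*} [Group G] [Group P] (f : G →* P) (N Γ₀ : Subgroup G)

private theorem mem_of_map (hk : f.ker ≤ N) {x : G} (h : f x ∈ N.map f) : x ∈ N := by
  obtain ⟨y, hy, e⟩ := h
  have h1 : y⁻¹ * x ∈ f.ker := by
    rw [MonoidHom.mem_ker, map_mul, map_inv, e, inv_mul_cancel]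
  have h2 := N.mul_mem hy (hk h1)
  rwa [mul_inv_cancel_left] at h2

private theorem mem_H {γ h : G} (hh : h ∈ (Subgroup.centralizer {f γ}).comap f) :
    f h * f γ = f γ * f h := by
  have h1 := Subgroup.mem_centralizer_singleton_iff.1 (Subgroup.mem_comap.1 hh)
  exact h1

private theorem act_eq {γ h g : G} (hh : h ∈ (Subgroup.centralizer {f γ}).comap f) :
    f ((h * g)⁻¹ * γ * (h * g)) = f (g⁻¹ * γ * g) := by
  have h1 := mem_H f hh
  simp only [map_mul, map_inv, _root_.mul_inv_rev]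
  have h2 : f γ = (f h)⁻¹ * (f γ * f h) := by rw [← h1, inv_mul_cancel_left]
  calc (f g)⁻¹ * (f h)⁻¹ * f γ * (f h * f g) = (f g)⁻¹ * ((f h)⁻¹ * (f γ * f h)) * f g := by group
    _ = (f g)⁻¹ * f γ * f g := by rw [← h2]

end glm

/-- Membership in `cosS` does not depend on the representative. -/
theorem mem_cosS {G : Type*} [Group G] (N Γ₀ : Subgroup G) (hN : N ≤ Γ₀)
    (hn : (N.subgroupOf Γ₀).Normal) (γ g : G) :
    (g : G ⧸ Γ₀) ∈ cosS N Γ₀ γ ↔ g⁻¹ * γ * g ∈ N := by
  constructor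
  · rintro ⟨g', e, hg'⟩
    rw [eq_comm, QuotientGroup.eq] at e
    have h1 := hn.conj_mem ⟨g'⁻¹ * γ * g', hN hg'⟩ hg' ⟨g'⁻¹ * g, e⟩⁻¹
    have h2 : ((⟨g'⁻¹ * g, e⟩ : Γ₀)⁻¹ * ⟨g'⁻¹ * γ * g', hN hg'⟩ * (⟨g'⁻¹ * g, e⟩ : Γ₀)⁻¹⁻¹ : Γ₀) =
        (⟨g⁻¹ * γ * g, by
          have h3 := Γ₀.mul_mem (Γ₀.mul_mem (Γ₀.inv_mem e) (hN hg')) e
          have h4 : (g'⁻¹ * g)⁻¹ * (g'⁻¹ * γ * g') * (g'⁻¹ * g) = g⁻¹ * γ * g := by group
          rwa [h4] at h3⟩ : Γ₀) := by
      apply Subtype.ext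
      show (g'⁻¹ * g)⁻¹ * (g'⁻¹ * γ * g') * (g'⁻¹ * g)⁻¹⁻¹ = g⁻¹ * γ * g
      group
    rw [h2] at h1
    exact h1
  · intro h
    exact ⟨g, rfl, h⟩

/-- `H` acts on `cosS`, `C` acts trivially. -/
theorem cosS_act {G P : Type*} [Group G] [Group P] (f : G →* P) (N Γ₀ : Subgroup G)
    (hk : f.ker ≤ N) (hN : N ≤ Γ₀) (hn : (N.subgroupOf Γ₀).Normal) (γ : G) :
    (∀ h ∈ (Subgroup.centralizer {f γ}).comap f, ∀ y ∈ cosS N Γ₀ γ, h • y ∈ cosS N Γ₀ γ) ∧
    (∀ c ∈ (Subgroup.zpowers (f γ)).comap f, ∀ y ∈ cosS N Γ₀ γ, c • y = y) ∧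
    (∀ h ∈ (Subgroup.centralizer {f γ}).comap f, ∀ c ∈ (Subgroup.zpowers (f γ)).comap f,
      h * c * h⁻¹ ∈ (Subgroup.zpowers (f γ)).comap f) := by
  refine ⟨?_, ?_, ?_⟩
  · rintro h hh y ⟨g, rfl, hg⟩
    refine ⟨h * g, rfl, mem_of_map f N hk ?_⟩
    rw [act_eq f hh]
    exact Subgroup.mem_map_of_mem f hg
  · rintro c hc y ⟨g, rfl, hg⟩
    obtain ⟨k, hk2⟩ := Subgroup.mem_zpowers_iff.1 (Subgroup.mem_comap.1 hc)
    have h1 : g⁻¹ * c * g ∈ N := by
      apply mem_of_map f N hk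
      have h2 : f (g⁻¹ * c * g) = f ((g⁻¹ * γ * g) ^ k) := by
        have h3 : (g⁻¹ * γ * g) ^ k = g⁻¹ * γ ^ k * g := by
          have := conj_zpow (a := g⁻¹) (b := γ) (i := k)
          rwa [inv_inv] at this
        rw [h3]
        simp only [map_mul, map_inv, map_zpow, hk2]
      rw [h2]
      exact Subgroup.mem_map_of_mem f (N.zpow_mem hg k)
    show ((c * g : G) : G ⧸ Γ₀) = (g : G ⧸ Γ₀)
    rw [eq_comm, QuotientGroup.eq, ← mul_assoc]
    exact hN h1
  · intro h hh c hc
    obtain ⟨k, hk2⟩ := Subgroup.mem_zpowers_iff.1 (Subgroup.mem_comap.1 hc)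
    have h1 := mem_H f hh
    rw [Subgroup.mem_comap]
    have h2 : f (h * c * h⁻¹) = f γ ^ k := by
      rw [map_mul, map_mul, map_inv, ← hk2]
      have h3 : Commute (f h) (f γ) := h1
      have h4 := (h3.zpow_right k).eq
      rw [h4, mul_inv_cancel_right]
    rw [h2]
    exact Subgroup.zpow_mem _ (Subgroup.mem_zpowers _) k

section orb

variable {G X : Type*} [Group G] [MulAction G X] (H : Subgroup G)

/-- orbits of a subgroup -/
private abbrev OQ (X : Type*) [MulAction G X] (H : Subgroup G) : Type _ :=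
  MulAction.orbitRel.Quotient H X

/-- the orbit of an element -/
private def mkO (y : X) : OQ X H := Quotient.mk _ y

/-- a representative -/
private def outO (o : OQ X H) : X := Quotient.out o

private theorem outO_mk (y : X) : ∃ h ∈ H, outO H (mkO H y) = h • y := out_orb H y

private theorem mk_outO (o : OQ X H) : mkO H (outO H o) = o := Quotient.out_eq o

private theorem mkO_eq (y y' : X) : mkO H y = mkO H y' ↔ ∃ h ∈ H, y = h • y' := mk_eq_iff H y y'

private theorem ms_defO (C : Subgroup G) (S : Set X) :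
    ms H C S = ∑ᶠ o : OQ X H, msw H C S (outO H o) := ms_def H C S

private theorem mswO (C : Subgroup G) (hC : ∀ h ∈ H, ∀ c ∈ C, h * c * h⁻¹ ∈ C) (S : Set X)
    (hS : ∀ h ∈ H, ∀ y ∈ S, h • y ∈ S) (y : X) :
    msw H C S (outO H (mkO H y)) = msw H C S y := msw_out H C hC S hS y

end orb

section glm2

variable {G P : Type*} [Group G] [Group P] (f : G →* P) (N : Subgroup G)

private theorem self_normal : (N.subgroupOf N).Normal := by
  rw [Subgroup.subgroupOf_self]
  infer_instance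

private theorem weight_eq (hk : f.ker ≤ N) (γ g : G) (u : N.map f)
    (hu : f (g⁻¹ * γ * g) = (u : P)) :
    (Subgroup.zpowers u).relIndex (Subgroup.centralizer {u}) =
      ((Subgroup.zpowers (f γ)).comap f).relIndex
        ((Subgroup.centralizer {f γ}).comap f ⊓ MulAction.stabilizer G (g : G ⧸ N)) := by
  set φ : G →* P := f.comp (MulAut.conj g⁻¹).toMonoidHom with hφ
  have hφx : ∀ x, φ x = (f g)⁻¹ * f x * f g := by
    intro x
    show f (g⁻¹ * x * g⁻¹⁻¹) = _
    rw [inv_inv, map_mul, map_mul, map_inv]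
  have huP : (u : P) = (f g)⁻¹ * f γ * f g := by
    rw [← hu, map_mul, map_mul, map_inv]
  have hC : (Subgroup.zpowers (f γ)).comap f = (Subgroup.zpowers (u : P)).comap φ := by
    ext x
    rw [Subgroup.mem_comap, Subgroup.mem_comap, Subgroup.mem_zpowers_iff,
      Subgroup.mem_zpowers_iff]
    have hz : ∀ k : ℤ, (u : P) ^ k = (f g)⁻¹ * f γ ^ k * f g := by
      intro k
      rw [huP]
      have := conj_zpow (a := (f g)⁻¹) (b := f γ) (i := k)
      rwa [inv_inv] at this
    constructor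
    · rintro ⟨k, e⟩
      exact ⟨k, by rw [hz, hφx, e]⟩
    · rintro ⟨k, e⟩
      refine ⟨k, ?_⟩
      rw [hz, hφx] at e
      exact mul_left_cancel (mul_right_cancel e)
  have hZ : Subgroup.zpowers u = (Subgroup.zpowers (u : P)).comap (N.map f).subtype := by
    ext x
    rw [Subgroup.mem_comap, Subgroup.mem_zpowers_iff, Subgroup.mem_zpowers_iff]
    constructor
    · rintro ⟨k, e⟩
      exact ⟨k, by rw [← e]; rfl⟩
    · rintro ⟨k, e⟩
      exact ⟨k, Subtype.ext e⟩
  have hK : (Subgroup.centralizer {u}).map (N.map f).subtype =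
      ((Subgroup.centralizer {f γ}).comap f ⊓ MulAction.stabilizer G (g : G ⧸ N)).map φ := by
    ext y
    rw [Subgroup.mem_map, Subgroup.mem_map]
    constructor
    · rintro ⟨⟨x, hx⟩, hx2, rfl⟩
      obtain ⟨m, hm, rfl⟩ := hx
      have hx3 := congrArg Subtype.val (Subgroup.mem_centralizer_singleton_iff.1 hx2)
      have hx4 : f m * (u : P) = (u : P) * f m := hx3
      refine ⟨g * m * g⁻¹, Subgroup.mem_inf.2 ⟨?_, ?_⟩, ?_⟩
      · rw [Subgroup.mem_comap, Subgroup.mem_centralizer_singleton_iff]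
        rw [huP] at hx4
        have h5 := congrArg (fun z => f g * z * (f g)⁻¹) hx4
        simp only [map_mul, map_inv]
        simp only [mul_assoc] at h5 ⊢
        simp only [mul_inv_cancel_left, mul_inv_cancel, mul_one] at h5
        exact h5
      · rw [MulAction.mem_stabilizer_iff]
        show ((g * m * g⁻¹ * g : G) : G ⧸ N) = g
        rw [inv_mul_cancel_right, eq_comm, QuotientGroup.eq, inv_mul_cancel_left]
        exact hm
      · rw [hφx]
        show _ = f m
        simp only [map_mul, map_inv]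
        group
    · rintro ⟨x, ⟨hx1, hx2⟩, rfl⟩
      have h1 : g⁻¹ * x * g ∈ N := by
        have h2 : ((x * g : G) : G ⧸ N) = g := MulAction.mem_stabilizer_iff.1 hx2
        rw [eq_comm, QuotientGroup.eq, ← mul_assoc] at h2
        exact h2
      have h3 := mem_H f hx1
      refine ⟨⟨f (g⁻¹ * x * g), Subgroup.mem_map_of_mem f h1⟩, ?_, ?_⟩
      · rw [Subgroup.mem_centralizer_singleton_iff]
        apply Subtype.ext
        show f (g⁻¹ * x * g) * (u : P) = (u : P) * f (g⁻¹ * x * g)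
        rw [huP]
        simp only [map_mul, map_inv]
        have h4 := congrArg (fun z => (f g)⁻¹ * z * f g) h3
        simp only [mul_assoc] at h4 ⊢
        simp only [mul_inv_cancel_left]
        exact h4
      · rw [hφx]
        show f (g⁻¹ * x * g) = _
        rw [map_mul, map_mul, map_inv]
  rw [hZ, Subgroup.relIndex_comap, hK, hC, Subgroup.relIndex_comap]

/-- the classes that occur -/
private def goodC (γ : G) : Set (ConjClasses (N.map f)) :=
  {c | ∃ g : G, f (g * γ * g⁻¹) = ((Quotient.out c : N.map f) : P)}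

open Classical in
/-- the orbit attached to a class -/
private def orbC (γ : G) (c : ConjClasses (N.map f)) :
    OQ (G ⧸ N) ((Subgroup.centralizer {f γ}).comap f) :=
  if h : c ∈ goodC f N γ then mkO _ (((Classical.choose h)⁻¹ : G) : G ⧸ N)
  else mkO _ ((1 : G) : G ⧸ N)

private theorem orbC_good {γ : G} {c : ConjClasses (N.map f)} (hc : c ∈ goodC f N γ) :
    ∃ g : G, f (g * γ * g⁻¹) = ((Quotient.out c : N.map f) : P) ∧
      orbC f N γ c = mkO _ ((g⁻¹ : G) : G ⧸ N) :=
  ⟨Classical.choose hc, Classical.choose_spec hc, dif_pos hc⟩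

private theorem massP_ms (hk : f.ker ≤ N) (γ : G) : massP f N γ =
    ms ((Subgroup.centralizer {f γ}).comap f) ((Subgroup.zpowers (f γ)).comap f)
      (cosS N N γ) := by
  classical
  obtain ⟨a1, a2, a3⟩ := cosS_act f N N hk le_rfl (self_normal N) γ
  set H := (Subgroup.centralizer {f γ}).comap f with hH
  set C := (Subgroup.zpowers (f γ)).comap f with hC
  rw [ms_defO]
  have e1 : massP f N γ = ∑ᶠ c ∈ goodC f N γ, (((Subgroup.zpowers (Quotient.out c : N.map f)).relIndex
        (Subgroup.centralizer {(Quotient.out c : N.map f)}) : ℕ) : ℝ)⁻¹ := by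
    rw [finsum_mem_def]
    unfold massP
    refine finsum_congr fun c => ?_
    rw [Set.indicator_apply]
    rfl
  have e2 : (∑ᶠ o : OQ (G ⧸ N) H, msw H C (cosS N N γ) (outO H o)) =
      ∑ᶠ o ∈ {o : OQ (G ⧸ N) H | outO H o ∈ cosS N N γ},
        msw H C (cosS N N γ) (outO H o) := by
    rw [finsum_mem_def]
    refine finsum_congr fun o => ?_
    rw [Set.indicator_apply]
    split_ifs with h
    · rfl
    · exact if_neg h
  refine e1.trans (Eq.trans ?_ e2.symm)
  refine finsum_mem_eq_of_bijOn (orbC f N γ) ⟨?_, ?_, ?_⟩ ?_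
  · intro c hc
    obtain ⟨g, hg, e⟩ := orbC_good f N hc
    rw [e]
    obtain ⟨h, hh, e'⟩ := outO_mk H ((g⁻¹ : G) : G ⧸ N)
    show outO H (mkO H ((g⁻¹ : G) : G ⧸ N)) ∈ cosS N N γ
    rw [e']
    refine a1 h hh _ ⟨g⁻¹, rfl, ?_⟩
    apply mem_of_map f N hk
    rw [inv_inv, hg]
    exact (Quotient.out c : N.map f).2
  · intro c hc c' hc' he
    obtain ⟨g, hg, e⟩ := orbC_good f N hc
    obtain ⟨g', hg', e'⟩ := orbC_good f N hc'
    have he2 : mkO H ((g⁻¹ : G) : G ⧸ N) = mkO H ((g'⁻¹ : G) : G ⧸ N) := by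
      rw [← e, ← e']
      exact he
    rw [mkO_eq] at he2
    obtain ⟨h, hh, e3⟩ := he2
    have e4 : ((g⁻¹ : G) : G ⧸ N) = ((h * g'⁻¹ : G) : G ⧸ N) := e3
    rw [QuotientGroup.eq, inv_inv] at e4
    have h1 := mem_H f hh
    have hcc : ∀ c : ConjClasses (N.map f), ConjClasses.mk (Quotient.out c : N.map f) = c :=
      fun c => Quotient.out_eq c
    rw [← hcc c, ← hcc c', ConjClasses.mk_eq_mk_iff_isConj, isConj_comm, isConj_iff]
    refine ⟨⟨f (g * (h * g'⁻¹)), Subgroup.mem_map_of_mem f e4⟩, Subtype.ext ?_⟩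
    show f (g * (h * g'⁻¹)) * ((Quotient.out c' : N.map f) : P) * (f (g * (h * g'⁻¹)))⁻¹ =
      ((Quotient.out c : N.map f) : P)
    rw [← hg, ← hg']
    simp only [map_mul, map_inv, _root_.mul_inv_rev, inv_inv]
    have h2 : f γ = f h * f γ * (f h)⁻¹ := by rw [h1, mul_inv_cancel_right]
    calc f g * (f h * (f g')⁻¹) * (f g' * f γ * (f g')⁻¹) * (f g' * (f h)⁻¹ * (f g)⁻¹) =
          f g * (f h * f γ * (f h)⁻¹) * (f g)⁻¹ := by group
      _ = f g * f γ * (f g)⁻¹ := by rw [← h2]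
  · intro o ho
    obtain ⟨g, hg, hgN⟩ := (ho : outO H o ∈ cosS N N γ)
    let c : ConjClasses (N.map f) := ConjClasses.mk ⟨f (g⁻¹ * γ * g), Subgroup.mem_map_of_mem f hgN⟩
    have hcc : ConjClasses.mk (Quotient.out c : N.map f) = c := Quotient.out_eq c
    obtain ⟨⟨y, hy⟩, hyc⟩ := isConj_iff.1 (ConjClasses.mk_eq_mk_iff_isConj.1 hcc).symm
    obtain ⟨m, hm, rfl⟩ := hy
    have hyc2 : f m * f (g⁻¹ * γ * g) * (f m)⁻¹ = ((Quotient.out c : N.map f) : P) :=
      congrArg Subtype.val hyc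
    have hc : c ∈ goodC f N γ := by
      refine ⟨m * g⁻¹, ?_⟩
      rw [← hyc2]
      simp only [map_mul, map_inv, _root_.mul_inv_rev, inv_inv]
      group
    obtain ⟨g', hg', e'⟩ := orbC_good f N hc
    refine ⟨c, hc, ?_⟩
    rw [e']
    have ho2 : o = mkO H (g : G ⧸ N) := by
      rw [← hg]
      exact (mk_outO H o).symm
    rw [ho2]
    refine (mkO_eq H _ _).2 ⟨g'⁻¹ * m * g⁻¹, ?_, ?_⟩
    · rw [hH, Subgroup.mem_comap, Subgroup.mem_centralizer_singleton_iff]
      have h1 : f g' * f γ * (f g')⁻¹ = f m * ((f g)⁻¹ * f γ * f g) * (f m)⁻¹ := by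
        rw [← map_inv, ← map_mul, ← map_mul, hg', ← hyc2]
        simp only [map_mul, map_inv]
      simp only [map_mul, map_inv]
      have h2 : f γ = (f g')⁻¹ * (f m * ((f g)⁻¹ * f γ * f g) * (f m)⁻¹) * f g' := by
        rw [← h1]
        group
      have h3 : f γ * ((f g')⁻¹ * f m * (f g)⁻¹) =
          ((f g')⁻¹ * (f m * ((f g)⁻¹ * f γ * f g) * (f m)⁻¹) * f g') *
            ((f g')⁻¹ * f m * (f g)⁻¹) := by
        rw [← h2]
      rw [h3]
      group
    · show ((g'⁻¹ : G) : G ⧸ N) = ((g'⁻¹ * m * g⁻¹ * g : G) : G ⧸ N)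
      rw [inv_mul_cancel_right, QuotientGroup.eq, inv_inv, mul_inv_cancel_left]
      exact hm
  · intro c hc
    obtain ⟨g, hg, e⟩ := orbC_good f N hc
    rw [e]
    have h1 := mswO H C a3 (cosS N N γ) a1 ((g⁻¹ : G) : G ⧸ N)
    have h2 : msw H C (cosS N N γ) ((g⁻¹ : G) : G ⧸ N) =
        (((C.relIndex (H ⊓ MulAction.stabilizer G ((g⁻¹ : G) : G ⧸ N))) : ℕ) : ℝ)⁻¹ := by
      refine if_pos ⟨g⁻¹, rfl, ?_⟩
      apply mem_of_map f N hk
      rw [inv_inv, hg]
      exact (Quotient.out c : N.map f).2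
    rw [h2] at h1
    refine Eq.trans ?_ h1.symm
    rw [weight_eq f N hk γ g⁻¹ (Quotient.out c) (by rw [inv_inv, hg])]

end glm2

theorem mass_eq {G P : Type*} [Group G] [Group P] (f : G →* P) (N Γ₀ : Subgroup G)
    (hk : f.ker ≤ N) (hN : N ≤ Γ₀) (hn : (N.subgroupOf Γ₀).Normal) (hi : N.relIndex Γ₀ ≠ 0)
    (γ : G) : massP f N γ = (N.relIndex Γ₀ : ℝ) *
      ms ((Subgroup.centralizer {f γ}).comap f) ((Subgroup.zpowers (f γ)).comap f)
        (cosS N Γ₀ γ) := by
  rw [massP_ms f N hk γ]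
  obtain ⟨a1, a2, a3⟩ := cosS_act f N N hk le_rfl (self_normal N) γ
  obtain ⟨b1, b2, b3⟩ := cosS_act f N Γ₀ hk hN hn γ
  have hpre : cosS N N γ = (Subgroup.quotientMapOfLE hN) ⁻¹' (cosS N Γ₀ γ) := by
    ext x
    induction x using QuotientGroup.induction_on with
    | H g =>
      rw [mem_cosS N N le_rfl (self_normal N)]
      show _ ↔ (g : G ⧸ Γ₀) ∈ cosS N Γ₀ γ
      rw [mem_cosS N Γ₀ hN hn]
  rw [hpre]
  refine ms_kto1 _ _ b3 (Subgroup.quotientMapOfLE hN) ?_ (cosS N Γ₀ γ) b1 ?_ ?_ _ hi ?_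
  · intro h _ x
    induction x using QuotientGroup.induction_on with
    | H g => rfl
  · intro c hc
    obtain ⟨k, hk2⟩ := Subgroup.mem_zpowers_iff.1 (Subgroup.mem_comap.1 hc)
    rw [Subgroup.mem_comap, Subgroup.mem_centralizer_singleton_iff, ← hk2]
    exact ((Commute.refl (f γ)).zpow_left k).eq
  · intro c hc x hx
    refine a2 c hc x ?_
    rw [hpre]
    exact hx
  · intro y _
    induction y using QuotientGroup.induction_on with
    | H g =>
      let F : Γ₀ ⧸ N.subgroupOf Γ₀ → G ⧸ N := Quotient.lift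
        (fun s : Γ₀ => ((g * s : G) : G ⧸ N)) (by
          intro a b hab
          have hab2 : a⁻¹ * b ∈ N.subgroupOf Γ₀ := QuotientGroup.leftRel_apply.1 hab
          show ((g * a : G) : G ⧸ N) = ((g * b : G) : G ⧸ N)
          rw [QuotientGroup.eq]
          have : (g * (a : G))⁻¹ * (g * b) = (a : G)⁻¹ * b := by group
          rw [this]
          exact hab2)
      have hFmk : ∀ s : Γ₀, F (s : Γ₀ ⧸ N.subgroupOf Γ₀) = ((g * s : G) : G ⧸ N) := fun s => rfl
      have hinj : Function.Injective F := by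
        intro a b
        induction a using QuotientGroup.induction_on with
        | H a =>
          induction b using QuotientGroup.induction_on with
          | H b =>
            intro hab
            rw [hFmk, hFmk, QuotientGroup.eq] at hab
            rw [QuotientGroup.eq]
            have : (g * (a : G))⁻¹ * (g * b) = (a : G)⁻¹ * b := by group
            rw [this] at hab
            exact hab
      have hrange : (Subgroup.quotientMapOfLE hN) ⁻¹' {(g : G ⧸ Γ₀)} = Set.range F := by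
        ext x
        induction x using QuotientGroup.induction_on with
        | H g' =>
          constructor
          · intro hx
            have hx2 : (g' : G ⧸ Γ₀) = (g : G ⧸ Γ₀) := hx
            rw [eq_comm, QuotientGroup.eq] at hx2
            refine ⟨((⟨g⁻¹ * g', hx2⟩ : Γ₀) : Γ₀ ⧸ N.subgroupOf Γ₀), ?_⟩
            rw [hFmk]
            show ((g * (g⁻¹ * g') : G) : G ⧸ N) = g'
            rw [mul_inv_cancel_left]
          · rintro ⟨a, ha⟩
            induction a using QuotientGroup.induction_on with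
            | H a =>
              rw [← ha]
              show ((g * a : G) : G ⧸ Γ₀) = (g : G ⧸ Γ₀)
              rw [eq_comm, QuotientGroup.eq, inv_mul_cancel_left]
              exact a.2
      rw [hrange, ← Set.image_univ, Set.ncard_image_of_injective _ hinj, Set.ncard_univ]
      rfl

end

end Pool.Agent.Work.MP_14c213_gt
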