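import Pool.Agent.Work.MP_14c213_gt.B.ProdB
import Pool.Agent.Work.MP_14c213_gt.B.GLM
import Pool.Agent.Work.MP_14c213_gt.B.CenB

/-!
The difference of the masses of an element of K. mass_eq with f = Psi, Γ₀ = GO, N = GG s (Psi_ker, ZZ_le_GG, GG_normal,
GG_index), then ms_fib with H = (centralizer)⁻¹ = inKu.range (cen_K), S₁ = S1 s x, E = EE: h1 from prim_global,
h2 from prim_left and UU_iff_Rn, K_S4. Then S1_count, prodS_eq, GG_index_eq. T2z: conj_GO.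
-/

namespace Pool.Agent.Work.MP_14c213_gt

open Matrix IsDedekindDomain
open scoped Matrix NumberField QuadraticAlgebra

noncomputable section

/-- `K^× ∩ GO`. -/
def EE : Subgroup AAˣ := inKu.range ⊓ GO

/-- The index of the group generated by `x` and the scalars. -/
def idxE (x : KKˣ) : ℕ := ((Subgroup.zpowers (Psi (inKu x))).comap Psi).relIndex EE

private theorem t2b_ker (s : ℤˣ) : Psi.ker ≤ GG s := fun g hg => ZZ_le_GG s ((Psi_ker g).1 hg)

private theorem t2b_im {x : KKˣ} (hc : 1 < chl ((Psi (inKu x) : (Mat 3)ˣ) : Mat 3)) :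
    (x : KK).im ≠ 0 := by
  intro h
  refine (chl_gt hc).1 ((mem_ZZ _).2 ⟨(x : KK).re, ?_, ?_⟩)
  · intro h0
    exact x.ne_zero (QuadraticAlgebra.ext h0 h)
  · show inK (x : KK) = _
    apply QuaternionAlgebra.ext <;> simp [inK, mkA, h]

private theorem t2b_comm (t x : KKˣ) (g : AAˣ) :
    (inKu t * g)⁻¹ * inKu x * (inKu t * g) = g⁻¹ * inKu x * g := by
  have h : inKu x * inKu t = inKu t * inKu x := by rw [← map_mul, mul_comm, map_mul]
  calc (inKu t * g)⁻¹ * inKu x * (inKu t * g)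
      = g⁻¹ * (inKu t)⁻¹ * (inKu x * inKu t) * g := by group
    _ = _ := by rw [h]; group

private theorem t2b_EE (t : KKˣ) : inKu t ∈ EE ↔ ∀ v, v ∉ SS4 → t ∈ Rn v 0 := by
  constructor
  · intro h v hv
    exact (UU_iff_Rn hv t).1 ((mem_GO _).1 h.2 v)
  · intro h
    refine ⟨⟨t, rfl⟩, (mem_GO _).2 fun v => ?_⟩
    by_cases hv : v ∈ SS4
    · exact K_S4 t v hv
    · exact (UU_iff_Rn hv t).2 (h v hv)

private theorem t2b_mass (s : ℤˣ) (x : KKˣ) (hx : inKu x ∈ GO)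
    (hc : 1 < chl ((Psi (inKu x) : (Mat 3)ˣ) : Mat 3)) :
    massP Psi (GG s) (inKu x) = ((GG s).relIndex GO : ℝ) * (((S1 s x).ncard : ℝ) / (idxE x : ℝ)) := by
  rw [mass_eq Psi (GG s) GO (t2b_ker s) (GG_le s) (GG_normal s) (GG_index s) (inKu x)]
  obtain ⟨a1, a2, a3⟩ := cosS_act Psi (GG s) GO (t2b_ker s) (GG_le s) (GG_normal s) (inKu x)
  have hH := cen_K x hc
  have hmem : ∀ g : AAˣ, (g : AAˣ ⧸ GO) ∈ cosS (GG s) GO (inKu x) ↔ g⁻¹ * inKu x * g ∈ GG s :=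
    fun g => mem_cosS (GG s) GO (GG_le s) (GG_normal s) (inKu x) g
  rw [ms_fib _ _ EE a3 (cosS (GG s) GO (inKu x)) (S1 s x) a1 a2 ?_ (S1_finite s x hx (t2b_im hc))
    ?_ ?_ ?_ ?_]
  · rfl
  · rintro y ⟨g, rfl, h1, h2⟩
    exact (hmem g).2 h2
  · rw [hH]
    exact inf_le_left
  · refine le_inf ?_ ?_
    · rw [← hH]
      apply Subgroup.comap_mono
      rw [Subgroup.zpowers_le, Subgroup.mem_centralizer_singleton_iff]
    · intro c hc
      rw [Subgroup.mem_comap, Subgroup.mem_zpowers_iff] at hc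
      obtain ⟨k, hk⟩ := hc
      have h1 : (inKu x ^ k)⁻¹ * c ∈ Psi.ker := by
        rw [MonoidHom.mem_ker, map_mul, map_inv, map_zpow, hk, inv_mul_cancel]
      have h2 : (inKu x ^ k)⁻¹ * c ∈ GO := GG_le s (t2b_ker s h1)
      have h3 := GO.mul_mem (GO.zpow_mem hx k) h2
      rwa [mul_inv_cancel_left] at h3
  · intro y
    refine QuotientGroup.induction_on y ?_
    intro g hg
    rw [hmem] at hg
    obtain ⟨t, ht⟩ := prim_global g
    refine ⟨(inKu t)⁻¹, ?_, ?_⟩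
    · rw [hH]
      exact ⟨t⁻¹, map_inv _ _⟩
    · show (((inKu t)⁻¹ * g : AAˣ) : AAˣ ⧸ GO) ∈ S1 s x
      rw [mem_S1]
      refine ⟨ht, ?_⟩
      rw [← map_inv, t2b_comm]
      exact hg
  · intro y
    refine QuotientGroup.induction_on y ?_
    intro g hg h hh
    rw [mem_S1] at hg
    rw [hH] at hh
    obtain ⟨t, rfl⟩ := hh
    show ((inKu t * g : AAˣ) : AAˣ ⧸ GO) ∈ S1 s x ↔ _
    rw [mem_S1, t2b_comm, t2b_EE]
    constructor
    · rintro ⟨h1, -⟩ v hv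
      exact (prim_left v hv t g (hg.1 v hv)).1 (h1 v hv)
    · intro h1
      exact ⟨fun v hv => (prim_left v hv t g (hg.1 v hv)).2 (h1 v hv), hg.2⟩

theorem T2 (x : KKˣ) (hx : inKu x ∈ GO) (hc : 1 < chl ((Psi (inKu x) : (Mat 3)ˣ) : Mat 3)) :
    massP Psi (GG 1) (inKu x) - massP Psi (GG (-1)) (inKu x) =
      -((GG 1).relIndex GO : ℝ) * (kapg x : ℝ) * (((lam x : ℤˣ) : ℤ) : ℝ) *
        (chl ((Psi (inKu x) : (Mat 3)ˣ) : Mat 3) - cth ((Psi (inKu x) : (Mat 3)ˣ) : Mat 3)) /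
          (idxE x : ℝ) := by
  rw [t2b_mass 1 x hx hc, t2b_mass (-1) x hx hc, ← GG_index_eq]
  have h := S1_count x hx (t2b_im hc)
  by_cases hk : kapg x = 0
  · rw [hk] at h ⊢
    have h2 : ((S1 1 x).ncard : ℝ) = ((S1 (-1) x).ncard : ℝ) := by
      rw [Int.cast_zero, mul_zero, zero_mul] at h
      linarith
    rw [h2]
    simp
  · rw [prodS_eq x hx (t2b_im hc) hk] at h
    have h2 : ((S1 1 x).ncard : ℝ) = ((S1 (-1) x).ncard : ℝ) +
      2⁻¹ * (kapg x : ℝ) * (-(((lam x : ℤˣ) : ℤ) : ℝ) * 2 *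
        (chl ((Psi (inKu x) : (Mat 3)ˣ) : Mat 3) - cth ((Psi (inKu x) : (Mat 3)ˣ) : Mat 3))) := by
      linarith
    rw [h2]
    ring

theorem T2z (x : KKˣ) (hx : inKu x ∉ GO) (s : ℤˣ) : massP Psi (GG s) (inKu x) = 0 := by
  unfold massP
  apply finsum_eq_zero_of_forall_eq_zero
  intro c
  rw [if_neg]
  rintro ⟨g, hg⟩
  obtain ⟨n, hn, e⟩ := (Quotient.out c : (GG s).map Psi).2
  rw [← e] at hg
  apply hx
  apply conj_GO x g⁻¹
  rw [inv_inv]
  apply GG_le s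
  have h1 : n⁻¹ * (g * inKu x * g⁻¹) ∈ Psi.ker := by
    rw [MonoidHom.mem_ker, map_mul, hg, map_inv, inv_mul_cancel]
  have h2 := (GG s).mul_mem hn (t2b_ker s h1)
  rwa [mul_inv_cancel_left] at h2

end

end Pool.Agent.Work.MP_14c213_gt
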