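import Pool.Agent.Work.MP_14c213_gt.B.TorE
import Pool.Agent.Work.MP_14c213_gt.B.T2B

/-!
Indices (see TorE). For the index of ⟨c^a x⟩: a relative index computation in the abelian group EE modulo scalars with
torsion ⟨c⟩ (tor_E; torsion elements have |z| = 1), x of infinite order (‖zr x‖ ≠ 1). Finiteness for ε: every y in EE
can be multiplied by a power of ε so that 1 ≤ ‖zr y‖ ≤ ‖zr ε‖, and there are finitely many such z = y/σ(y)
(integers of K with both conjugates bounded).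
-/

namespace Pool.Agent.Work.MP_14c213_gt

open Matrix IsDedekindDomain
open scoped Matrix NumberField QuadraticAlgebra

noncomputable section

/-! ### The groups in `K^×` -/

private def ef : KKˣ →* (Mat 3)ˣ := Psi.comp inKu

private def eE0 : Subgroup KKˣ := GO.comap inKu

private def eW (x : KKˣ) : Subgroup KKˣ := Subgroup.zpowers x ⊔ ef.ker

private theorem e_idx (x : KKˣ) : idxE x = (eW x).relIndex eE0 := by
  have h1 : EE = eE0.map inKu := by
    rw [eE0, Subgroup.map_comap_eq]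
    rfl
  rw [idxE, h1, ← Subgroup.relIndex_comap, Subgroup.comap_comap]
  have h2 : (Subgroup.zpowers (Psi (inKu x))).comap (Psi.comp inKu) = eW x := by
    have h3 : Subgroup.zpowers (Psi (inKu x)) = (Subgroup.zpowers x).map ef := by
      rw [MonoidHom.map_zpowers]
      rfl
    rw [h3, eW, ← Subgroup.comap_map_eq]
    rfl
  rw [h2]

private theorem e_ker (x : KKˣ) : x ∈ ef.ker ↔ inKu x ∈ ZZ := by
  rw [MonoidHom.mem_ker]
  exact Psi_ker _

private theorem e_ker_zr {x : KKˣ} (hx : x ∈ ef.ker) : zr x = 1 := by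
  rw [e_ker, mem_ZZ] at hx
  obtain ⟨z, hz, h⟩ := hx
  have h1 : (x : KK).im = 0 := by
    have h2 := congrArg QuaternionAlgebra.imI h
    have h3 : (algebraMap kk AA z).imI = 0 := by simp
    rw [h3] at h2
    exact h2
  have h2 : star (x : KK) = x := by
    rw [star_KK, h1]
    apply QuadraticAlgebra.ext
    · simp
    · simp [h1]
  rw [zr, h2, div_self x.ne_zero, map_one]

private theorem e_ker_le : ef.ker ≤ eE0 := by
  intro x hx
  rw [e_ker] at hx
  show inKu x ∈ GO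
  rw [mem_GO]
  exact fun v => ZZ_le v hx

private theorem e_scalar {x y : KKˣ} {z : kk} (hz : z ≠ 0) (h : (x : KK) = algebraMap kk KK z * y) :
    x * y⁻¹ ∈ ef.ker := by
  rw [e_ker, mem_ZZ]
  refine ⟨z, hz, ?_⟩
  show inK ((x * y⁻¹ : KKˣ) : KK) = _
  have h1 : ((x * y⁻¹ : KKˣ) : KK) = algebraMap kk KK z := by
    rw [Units.val_mul, h, mul_assoc, Units.mul_inv, mul_one]
  rw [h1]
  apply QuaternionAlgebra.ext <;> simp [inK, mkA]

/-! ### The logarithm of `|z|` -/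

private def el (x : KKˣ) : ℝ := Real.log ‖zr x‖

private theorem el_mul (x y : KKˣ) : el (x * y) = el x + el y := by
  unfold el
  rw [zr_mul, norm_mul, Real.log_mul (norm_ne_zero_iff.2 (zr_ne x)) (norm_ne_zero_iff.2 (zr_ne y))]

private def elh : Additive KKˣ →+ ℝ := AddMonoidHom.mk' (fun x => el x.toMul) fun _ _ => el_mul _ _

private theorem el_zpow (x : KKˣ) (m : ℤ) : el (x ^ m) = m * el x := by
  have := map_zsmul elh m (Additive.ofMul x)
  rw [zsmul_eq_mul] at this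
  exact this

private theorem el_ker {x : KKˣ} (hx : x ∈ ef.ker) : el x = 0 := by
  unfold el
  rw [e_ker_zr hx]
  simp

private theorem el_ccu : el ccu = 0 := by
  have h : ‖zr ccu‖ ^ 2 = 1 := by
    rw [zr_ccu, ← Complex.normSq_eq_norm_sq, Complex.normSq_apply]
    have h3 : Real.sqrt 3 * Real.sqrt 3 = 3 := Real.mul_self_sqrt (by norm_num)
    simp
    linear_combination (1 / 4) * h3
  have h2 : ‖zr ccu‖ = 1 := by
    nlinarith [norm_nonneg (zr ccu)]
  unfold el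
  rw [h2, Real.log_one]

private theorem el_ne {x : KKˣ} (hc : 1 < chl ((Psi (inKu x) : (Mat 3)ˣ) : Mat 3)) : el x ≠ 0 := by
  rw [chl_K] at hc
  unfold el
  refine Real.log_ne_zero_of_pos_of_ne_one (norm_pos_iff.2 (zr_ne x)) fun h => ?_
  rw [h] at hc
  norm_num at hc

/-- The group generated by `c` and the scalars. -/
private def eT : Subgroup KKˣ := eW ccu

private theorem e_inf {x : KKˣ} (hx : el x ≠ 0) : eW x ⊓ eT = ef.ker := by
  apply le_antisymm
  · rintro y ⟨h1, h2⟩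
    obtain ⟨_, ⟨m, rfl⟩, s, hs, rfl⟩ := Subgroup.mem_sup.1 h1
    obtain ⟨_, ⟨j, rfl⟩, s', hs', he⟩ := Subgroup.mem_sup.1 h2
    have h3 := congrArg el he
    simp only at h3
    rw [el_mul, el_mul, el_zpow, el_zpow, el_ker hs, el_ker hs', el_ccu] at h3
    have h4 : (m : ℝ) = 0 := by
      have h5 : (m : ℝ) * el x = 0 := by linarith
      exact (mul_eq_zero.1 h5).resolve_right hx
    have h5 : m = 0 := by exact_mod_cast h4
    subst h5
    simpa using hs
  · exact le_inf le_sup_right le_sup_right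

private theorem e_count {x : KKˣ} (hx : inKu x ∈ GO) (h : el x ≠ 0) :
    idxE x = ef.ker.relIndex eT * (eW x ⊔ eT).relIndex eE0 := by
  have h1 : (eW x).relIndex (eW x ⊔ eT) = ef.ker.relIndex eT := by
    rw [Subgroup.relIndex_sup_left, ← Subgroup.inf_relIndex_right, e_inf h]
  rw [e_idx, ← h1]
  refine (Subgroup.relIndex_mul_relIndex _ _ _ le_sup_left ?_).symm
  refine sup_le (sup_le ?_ e_ker_le) (sup_le ?_ e_ker_le)
  · rw [Subgroup.zpowers_le]
    exact hx
  · rw [Subgroup.zpowers_le]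
    exact ccu_GO

theorem idxE_const (x : KKˣ) (hx : inKu x ∈ GO) (hc : 1 < chl ((Psi (inKu x) : (Mat 3)ˣ) : Mat 3))
    (a : ℕ) : idxE (x * ccu ^ a) = idxE x := by
  have h := el_ne hc
  have hcc : ∀ a : ℕ, ccu ^ a ∈ eT := fun a =>
    (eT).pow_mem (Subgroup.mem_sup_left (Subgroup.mem_zpowers ccu)) a
  have h2 : el (x * ccu ^ a) ≠ 0 := by
    have := el_zpow ccu a
    rw [zpow_natCast, el_ccu, mul_zero] at this
    rwa [el_mul, this, add_zero]
  have hx2 : inKu (x * ccu ^ a) ∈ GO := by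
    rw [map_mul, map_pow]
    exact GO.mul_mem hx (GO.pow_mem ccu_GO a)
  rw [e_count hx h, e_count hx2 h2]
  congr 2
  apply le_antisymm
  · refine sup_le (sup_le ?_ (le_sup_of_le_left le_sup_right)) le_sup_right
    rw [Subgroup.zpowers_le]
    exact Subgroup.mul_mem _ (Subgroup.mem_sup_left (Subgroup.mem_sup_left (Subgroup.mem_zpowers x)))
      (Subgroup.mem_sup_right (hcc a))
  · refine sup_le (sup_le ?_ (le_sup_of_le_left le_sup_right)) le_sup_right
    rw [Subgroup.zpowers_le]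
    have h3 : x = (x * ccu ^ a) * (ccu ^ a)⁻¹ := by rw [mul_inv_cancel_right]
    have h4 : (x * ccu ^ a) * (ccu ^ a)⁻¹ ∈ eW (x * ccu ^ a) ⊔ eT :=
      Subgroup.mul_mem _ (Subgroup.mem_sup_left (Subgroup.mem_sup_left (Subgroup.mem_zpowers _)))
      (Subgroup.mem_sup_right (eT.inv_mem (hcc a)))
    rwa [← h3] at h4

/-! ### Finiteness -/

private theorem norm_epu : ‖zr epu‖ = (3 + Real.sqrt 5) / 2 := by
  have h : zr epu = ((-((3 + Real.sqrt 5) / 2) : ℝ) : ℂ) := by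
    rw [zr_epu]
    push_cast
    ring
  rw [h, Complex.norm_real, Real.norm_eq_abs, abs_neg, abs_of_pos (by positivity)]

private theorem sqrt5_lt : Real.sqrt 5 < 3 := by
  rw [Real.sqrt_lt' (by norm_num)]
  norm_num

private def eB : Set kk := {τ | (∃ a b : ℤ, τ = ⟨a, b⟩) ∧ ‖phik τ‖ ≤ 4}

private theorem eB_finite : eB.Finite := by
  have h : eB ⊆ (fun p : ℤ × ℤ => (⟨p.1, p.2⟩ : kk)) '' (Set.Icc (-6) 6 ×ˢ Set.Icc (-6) 6) := by
    rintro τ ⟨⟨a, b, rfl⟩, h⟩
    refine ⟨(a, b), ?_, rfl⟩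
    have h1 : ‖phik (⟨a, b⟩ : kk)‖ ^ 2 ≤ 16 := by
      have := norm_nonneg (phik (⟨a, b⟩ : kk))
      nlinarith
    rw [phik_norm] at h1
    have h2 : a ^ 2 + a * b + 4 * b ^ 2 ≤ 16 := by
      have h3 : (((a : ℚ) ^ 2 + a * b + 4 * b ^ 2 : ℚ) : ℝ) ≤ ((16 : ℚ) : ℝ) := by
        push_cast at h1 ⊢
        exact h1
      have h4 : ((a : ℚ) ^ 2 + a * b + 4 * b ^ 2 : ℚ) ≤ 16 := by exact_mod_cast h3
      exact_mod_cast h4
    have hb1 : b ≤ 6 := by nlinarith [sq_nonneg (2 * a + b)]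
    have hb2 : -6 ≤ b := by nlinarith [sq_nonneg (2 * a + b)]
    have ha1 : a ≤ 6 := by nlinarith [sq_nonneg (a + 8 * b)]
    have ha2 : -6 ≤ a := by nlinarith [sq_nonneg (a + 8 * b)]
    exact ⟨⟨ha2, ha1⟩, ⟨hb2, hb1⟩⟩
  exact (((Set.finite_Icc _ _).prod (Set.finite_Icc _ _)).image _).subset h

private def eS : Set KK := {z | ∃ τ ∈ eB, z * z - algebraMap kk KK τ * z + 1 = 0}

private theorem eS_finite : eS.Finite := by
  have h : eS = ⋃ τ ∈ eB, {z : KK | z * z - algebraMap kk KK τ * z + 1 = 0} := by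
    ext z
    simp [eS]
  rw [h]
  refine eB_finite.biUnion fun τ _ => ?_
  rcases Set.eq_empty_or_nonempty {z : KK | z * z - algebraMap kk KK τ * z + 1 = 0} with h0 | ⟨w, hw⟩
  · rw [h0]
    exact Set.finite_empty
  · refine (Set.toFinite {w, algebraMap kk KK τ - w}).subset ?_
    intro z hz
    have hw' : w * w - algebraMap kk KK τ * w + 1 = 0 := hw
    have hz' : z * z - algebraMap kk KK τ * z + 1 = 0 := hz
    have h1 : (z - w) * (z - (algebraMap kk KK τ - w)) = 0 := by linear_combination hz' - hw'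
    rcases mul_eq_zero.1 h1 with h2 | h2
    · exact Or.inl (sub_eq_zero.1 h2)
    · exact Or.inr (sub_eq_zero.1 h2)

private theorem eS_mem {x : KKˣ} (hx : inKu x ∈ GO) (h1 : 1 ≤ ‖zr x‖) (h2 : ‖zr x‖ ≤ 3) :
    (x : KK) / star (x : KK) ∈ eS := by
  refine ⟨TT (inK (x : KK)), ⟨torE_int x hx, ?_⟩, ?_⟩
  · rw [torE_TTzr]
    refine (norm_add_le _ _).trans ?_
    rw [norm_inv]
    have := inv_le_one_of_one_le₀ h1
    linarith
  · rw [torE_TT]
    have h0 : (x : KK) / star (x : KK) ≠ 0 := div_ne_zero x.ne_zero (torE_star x)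
    field_simp
    ring

private theorem e_comm {G : Type*} [CommGroup G] (w x u : G) :
    w⁻¹ * x = u * (w * (x * u⁻¹)⁻¹)⁻¹ := by
  rw [_root_.mul_inv_rev, inv_inv, mul_comm x u⁻¹, mul_assoc, mul_inv_cancel_left, mul_comm]

private theorem e_close (x w : KKˣ) (m : ℤ) (h : w * (x * epu ^ (-m))⁻¹ ∈ ef.ker) :
    w⁻¹ * x ∈ eW epu := by
  have h4 : w⁻¹ * x = epu ^ m * (w * (x * epu ^ (-m))⁻¹)⁻¹ := by
    rw [_root_.zpow_neg]
    exact e_comm _ _ _
  rw [h4]
  exact Subgroup.mul_mem _ (Subgroup.mem_sup_left (Subgroup.zpow_mem_zpowers _ _))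
    (Subgroup.mem_sup_right (ef.ker.inv_mem h))

private theorem e_norm (x : KKˣ) (m : ℤ) : ‖zr (x * epu ^ (-m))‖ = ‖zr x‖ * ‖zr epu‖ ^ (-m) := by
  have e1 : ‖zr (x * epu ^ (-m))‖ = Real.exp (el (x * epu ^ (-m))) :=
    (Real.exp_log (norm_pos_iff.2 (zr_ne _))).symm
  rw [e1, el_mul, el_zpow, Real.exp_add, el, Real.exp_log (norm_pos_iff.2 (zr_ne x))]
  congr 1
  rw [el, mul_comm, Real.exp_mul, Real.exp_log (norm_pos_iff.2 (zr_ne epu)), Real.rpow_intCast]

/-- Every element can be moved to one with bounded eigenvalue ratio. -/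
private theorem e_move (x : KKˣ) (hx : inKu x ∈ GO) : ∃ m : ℤ, inKu (x * epu ^ (-m)) ∈ GO ∧
    ((x * epu ^ (-m) : KKˣ) : KK) / star ((x * epu ^ (-m) : KKˣ) : KK) ∈ eS := by
  have hR : 1 < ‖zr epu‖ := by
    rw [norm_epu]
    have := Real.sqrt_nonneg 5
    linarith
  have hR3 : ‖zr epu‖ ≤ 3 := by
    rw [norm_epu]
    have := sqrt5_lt
    linarith
  obtain ⟨m, hm1, hm2⟩ := exists_mem_Ico_zpow (norm_pos_iff.2 (zr_ne x)) hR
  have hmem : inKu (x * epu ^ (-m)) ∈ GO := by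
    rw [map_mul, map_zpow]
    exact GO.mul_mem hx (GO.zpow_mem epu_GO _)
  have hz := e_norm x m
  have hRpos : 0 < ‖zr epu‖ := by linarith
  have h1 : 1 ≤ ‖zr (x * epu ^ (-m))‖ := by
    rw [hz, _root_.zpow_neg, ← div_eq_mul_inv, one_le_div (by positivity)]
    exact hm1
  have h2 : ‖zr (x * epu ^ (-m))‖ ≤ 3 := by
    rw [hz, _root_.zpow_neg, ← div_eq_mul_inv, div_le_iff₀ (by positivity)]
    rw [zpow_add_one₀ hRpos.ne'] at hm2
    have : 0 < ‖zr epu‖ ^ m := by positivity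
    nlinarith
  exact ⟨m, hmem, eS_mem hmem h1 h2⟩

private theorem e_mk (z : KK) (hz : ∃ x : KKˣ, x ∈ eE0 ∧ (x : KK) / star (x : KK) = z) :
    ∃ w : eE0, ∀ x : KKˣ, x ∈ eE0 → (x : KK) / star (x : KK) = z → (w : KKˣ) * x⁻¹ ∈ ef.ker := by
  obtain ⟨w, hw, hwz⟩ := hz
  refine ⟨⟨w, hw⟩, fun x _ hxz => ?_⟩
  obtain ⟨c, hc0, hcc⟩ := torE_scalar _ _ (Units.ne_zero w) (Units.ne_zero x) (hwz.trans hxz.symm)
  exact e_scalar hc0 hcc

theorem idxE_epu : idxE epu ≠ 0 := by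
  classical
  rw [e_idx, Subgroup.relIndex]
  have hfinS : Finite eS := eS_finite
  have hch : ∀ z : KK, ∃ w : eE0, ∀ x : KKˣ, x ∈ eE0 → (x : KK) / star (x : KK) = z →
      (w : KKˣ) * x⁻¹ ∈ ef.ker := by
    intro z
    by_cases hz : ∃ x : KKˣ, x ∈ eE0 ∧ (x : KK) / star (x : KK) = z
    · exact e_mk z hz
    · exact ⟨1, fun x hx hxz => absurd ⟨x, hx, hxz⟩ hz⟩
  choose w hw using hch
  have hf : Function.Surjective (fun z : eS => ((w z : eE0) : eE0 ⧸ (eW epu).subgroupOf eE0)) := by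
    intro y
    obtain ⟨⟨x, hx⟩, rfl⟩ := QuotientGroup.mk_surjective y
    obtain ⟨m, hm, hmS⟩ := e_move x hx
    refine ⟨⟨_, hmS⟩, ?_⟩
    rw [QuotientGroup.eq, Subgroup.mem_subgroupOf]
    exact e_close x _ m (hw _ _ hm rfl)
  have := Finite.of_surjective _ hf
  exact Subgroup.index_ne_zero_of_finite

theorem chl_epu : chl ((Psi (inKu epu) : (Mat 3)ˣ) : Mat 3) = 3 / 2 := by
  rw [chl_K, norm_epu]
  have h5 : Real.sqrt 5 * Real.sqrt 5 = 5 := Real.mul_self_sqrt (by norm_num)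
  have h0 : (3 + Real.sqrt 5) ≠ 0 := by positivity
  field_simp
  nlinarith

end

end Pool.Agent.Work.MP_14c213_gt
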