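import Pool.Agent.Work.MP_14c213_gt.B.CompV

/-!
Helper for EigV, SAb, SAc: neighbourhoods in the completion and in matrices over it.
-/

namespace Pool.Agent.Work.MP_14c213_gt

open Matrix IsDedekindDomain
open scoped Matrix NumberField QuadraticAlgebra

noncomputable section

/-- multiplying by a uniformizer -/
theorem kt_lt (r : WithZero (Multiplicative ℤ)) (hr : r ≠ 0) :
    r * WithZero.exp (-1) < r ∧ r * WithZero.exp (-1) ≠ 0 := by
  have h1 : WithZero.exp (-1 : ℤ) < (1 : WithZero (Multiplicative ℤ)) := by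
    rw [← WithZero.exp_zero, WithZero.exp_lt_exp]; norm_num
  refine ⟨?_, mul_ne_zero hr WithZero.exp_ne_zero⟩
  calc r * WithZero.exp (-1) < r * 1 := by
        exact mul_lt_mul_of_pos_left h1 (zero_lt_iff.2 hr)
    _ = r := mul_one r

theorem kt_nhds (v : Pl) (x : Kv v) (U : Set (Kv v)) : U ∈ nhds x ↔
    ∃ r : WithZero (Multiplicative ℤ), r ≠ 0 ∧ ∀ y, Valued.v (y - x) ≤ r → y ∈ U := by
  rw [Valued.mem_nhds]
  constructor
  · rintro ⟨γ, hγ⟩
    set r := MonoidWithZeroHom.ValueGroup₀.embedding γ.1 with hr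
    have hr0 : r ≠ 0 := by
      rw [hr]
      simp
    refine ⟨r * WithZero.exp (-1), (kt_lt r hr0).2, fun y hy => hγ ?_⟩
    show Valuation.restrict _ (y - x) < γ.1
    rw [Valuation.restrict_lt_iff_lt_embedding]
    exact lt_of_le_of_lt hy (kt_lt r hr0).1
  · rintro ⟨r, hr, h⟩
    obtain ⟨z, hz⟩ := HeightOneSpectrum.valuedAdicCompletion_surjective kk v r
    have hz0 : Valuation.restrict (Valued.v (R := Kv v)) z ≠ 0 := by
      intro h0
      apply hr
      rw [← hz]
      simpa using h0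
    refine ⟨Units.mk0 _ hz0, fun y hy => h y ?_⟩
    have h1 : Valuation.restrict (Valued.v (R := Kv v)) (y - x) <
      Valuation.restrict (Valued.v (R := Kv v)) z := hy
    rw [Valuation.restrict_lt_iff] at h1
    exact (h1.trans_eq hz).le

theorem kt_closure (v : Pl) (x : Kv v) (U : Set (Kv v)) : x ∈ closure U ↔
    ∀ r : WithZero (Multiplicative ℤ), r ≠ 0 → ∃ y ∈ U, Valued.v (y - x) ≤ r := by
  rw [mem_closure_iff_nhds]
  constructor
  · intro h r hr
    obtain ⟨y, hy, hyU⟩ := h {y | Valued.v (y - x) ≤ r} ((kt_nhds v x _).2 ⟨r, hr, fun y hy => hy⟩)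
    exact ⟨y, hyU, hy⟩
  · intro h W hW
    obtain ⟨r, hr, hrW⟩ := (kt_nhds v x W).1 hW
    obtain ⟨y, hyU, hy⟩ := h r hr
    exact ⟨y, hrW y hy, hyU⟩

theorem kt_tendsto {ι : Type*} {l : Filter ι} (v : Pl) (f : ι → Kv v) (x : Kv v) :
    Filter.Tendsto f l (nhds x) ↔
      ∀ r : WithZero (Multiplicative ℤ), r ≠ 0 → ∀ᶠ n in l, Valued.v (f n - x) ≤ r := by
  constructor
  · intro h r hr
    exact h ((kt_nhds v x {y | Valued.v (y - x) ≤ r}).2 ⟨r, hr, fun y hy => hy⟩)
  · intro h W hW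
    obtain ⟨r, hr, hrW⟩ := (kt_nhds v x W).1 hW
    exact Filter.mem_map.2 (Filter.mem_of_superset (h r hr) fun n hn => hrW _ hn)

theorem kt_tendsto_mat {ι : Type*} {l : Filter ι} (v : Pl)
    {f : ι → Matrix (Fin 2) (Fin 2) (Kv v)} {x : Matrix (Fin 2) (Fin 2) (Kv v)} :
    Filter.Tendsto f l (nhds x) ↔ ∀ i j, Filter.Tendsto (fun n => f n i j) l (nhds (x i j)) := by
  constructor
  · intro h i j
    have h3 : Continuous fun y : Matrix (Fin 2) (Fin 2) (Kv v) => y i j :=
      continuous_id.matrix_elem i j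
    exact (h3.tendsto x).comp h
  · intro h
    exact tendsto_pi_nhds.2 fun i => tendsto_pi_nhds.2 fun j => h i j

theorem kt_exp (r : WithZero (Multiplicative ℤ)) (hr : r ≠ 0) :
    ∀ᶠ n : ℕ in Filter.atTop, WithZero.exp (-(n : ℤ)) ≤ r := by
  refine Filter.eventually_atTop.2 ⟨(-WithZero.log r).toNat, fun n hn => ?_⟩
  rw [← WithZero.exp_log hr, WithZero.exp_le_exp]
  have := Int.self_le_toNat (-WithZero.log r)
  omega

theorem kt_closure_mat (v : Pl) (x : Matrix (Fin 2) (Fin 2) (Kv v))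
    (U : Set (Matrix (Fin 2) (Fin 2) (Kv v))) : x ∈ closure U ↔
    ∀ r : WithZero (Multiplicative ℤ), r ≠ 0 → ∃ y ∈ U, ∀ i j, Valued.v (y i j - x i j) ≤ r := by
  constructor
  · intro h r hr
    rw [mem_closure_iff_nhds] at h
    have h1 : {y : Matrix (Fin 2) (Fin 2) (Kv v) | ∀ i j, Valued.v (y i j - x i j) ≤ r} ∈ nhds x := by
      have h2 : ∀ i j, {y : Matrix (Fin 2) (Fin 2) (Kv v) | Valued.v (y i j - x i j) ≤ r} ∈
          nhds x := by
        intro i j
        have h3 : Continuous fun y : Matrix (Fin 2) (Fin 2) (Kv v) => y i j :=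
          continuous_id.matrix_elem i j
        exact h3.continuousAt.preimage_mem_nhds
          ((kt_nhds v (x i j) {y | Valued.v (y - x i j) ≤ r}).2 ⟨r, hr, fun y hy => hy⟩)
      have h4 := Filter.iInter_mem.2 fun i => Filter.iInter_mem.2 fun j => h2 i j
      refine Filter.mem_of_superset h4 fun y hy i j => ?_
      exact Set.mem_iInter.1 (Set.mem_iInter.1 hy i) j
    obtain ⟨y, hy, hyU⟩ := h _ h1
    exact ⟨y, hyU, hy⟩
  · intro h
    choose y hyU hy using fun n : ℕ => h (WithZero.exp (-(n : ℤ))) WithZero.exp_ne_zero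
    refine mem_closure_of_tendsto (b := Filter.atTop) (f := y) ?_ (Filter.Eventually.of_forall hyU)
    rw [kt_tendsto_mat]
    intro i j
    rw [kt_tendsto]
    intro r hr
    filter_upwards [kt_exp r hr] with n hn
    exact (hy n i j).trans hn

end

end Pool.Agent.Work.MP_14c213_gt
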