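import Pool.Agent.Work.MP_14c213_gt.B.CompV
import Pool.Agent.Work.MP_14c213_gt.B.KvTop

/-!
Diagonalisation of hyperbolic matrices over the complete field k_v: λ = t - 1/λ by iteration (contraction on
{|λ| = |t|}), or Hensel for Y² - Y + t⁻².
-/

namespace Pool.Agent.Work.MP_14c213_gt

open Matrix IsDedekindDomain
open scoped Matrix NumberField QuadraticAlgebra

noncomputable section

/-- iteration for `Y = 1 - s / Y` -/
private def eigv_Y {v : Pl} (s : Kv v) : ℕ → Kv v
  | 0 => 1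
  | n + 1 => 1 - s / eigv_Y s n

private lemma eigv_one {v : Pl} {s : Kv v} (hs : Valued.v s < 1) (y : Kv v)
    (hy : Valued.v (y - 1) ≤ Valued.v s) : Valued.v y = 1 := by
  have h1 : Valued.v (y - 1) < Valued.v (1 : Kv v) := by
    rw [map_one]; exact lt_of_le_of_lt hy hs
  rw [Valuation.map_eq_of_sub_lt _ h1, map_one]

private lemma eigv_near {v : Pl} {s : Kv v} (hs : Valued.v s < 1) (n : ℕ) :
    Valued.v (eigv_Y s n - 1) ≤ Valued.v s := by
  induction n with
  | zero => simp [eigv_Y]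
  | succ n ih =>
    have h1 := eigv_one hs _ ih
    have h2 : eigv_Y s (n + 1) - 1 = -(s / eigv_Y s n) := by
      show 1 - s / eigv_Y s n - 1 = _
      ring
    rw [h2, Valuation.map_neg, map_div₀, h1, div_one]

private lemma eigv_step {v : Pl} {s : Kv v} (hs : Valued.v s < 1) (n : ℕ) :
    Valued.v (eigv_Y s (n + 1) - eigv_Y s n) ≤ Valued.v s ^ (n + 1) := by
  induction n with
  | zero =>
    have h2 : eigv_Y s 1 - eigv_Y s 0 = -s := by
      show 1 - s / 1 - 1 = _
      ring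
    rw [h2, Valuation.map_neg, zero_add, pow_one]
  | succ n ih =>
    have h1 := eigv_one hs _ (eigv_near hs n)
    have h1' := eigv_one hs _ (eigv_near hs (n + 1))
    have hne : eigv_Y s n ≠ 0 := by
      intro h
      rw [h, map_zero] at h1
      exact zero_ne_one h1
    have hne' : eigv_Y s (n + 1) ≠ 0 := by
      intro h
      rw [h, map_zero] at h1'
      exact zero_ne_one h1'
    have h2 : eigv_Y s (n + 2) - eigv_Y s (n + 1) =
        s * (eigv_Y s (n + 1) - eigv_Y s n) / (eigv_Y s (n + 1) * eigv_Y s n) := by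
      have e1 : eigv_Y s (n + 2) = 1 - s / eigv_Y s (n + 1) := rfl
      have e2 : s / eigv_Y s n = 1 - eigv_Y s (n + 1) := by
        show _ = 1 - (1 - s / eigv_Y s n)
        ring
      have e3 : s = (1 - eigv_Y s (n + 1)) * eigv_Y s n := by
        rw [← e2, div_mul_cancel₀ _ hne]
      have e4 : (1 - s / eigv_Y s (n + 1) - eigv_Y s (n + 1)) * (eigv_Y s (n + 1) * eigv_Y s n) =
          eigv_Y s (n + 1) * eigv_Y s n - (s / eigv_Y s (n + 1) * eigv_Y s (n + 1)) * eigv_Y s n -
            eigv_Y s (n + 1) * eigv_Y s (n + 1) * eigv_Y s n := by ring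
      rw [e1, eq_div_iff (mul_ne_zero hne' hne), e4, div_mul_cancel₀ _ hne']
      linear_combination (-eigv_Y s (n + 1)) * e3
    rw [h2, map_div₀, map_mul, map_mul, h1, h1', one_mul, div_one, pow_succ']
    exact mul_le_mul_right ih _

private lemma eigv_root {v : Pl} {t : Kv v} (ht : 1 < Valued.v t) :
    ∃ l : Kv v, l * l - t * l + 1 = 0 ∧ 1 < Valued.v l := by
  have ht0 : t ≠ 0 := by
    rintro rfl
    rw [map_zero] at ht
    exact absurd ht (not_lt.2 zero_le_one)
  set s : Kv v := (t * t)⁻¹ with hsdef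
  have hs0 : s ≠ 0 := inv_ne_zero (mul_ne_zero ht0 ht0)
  have hs : Valued.v s < 1 := by
    rw [hsdef, map_inv₀, map_mul]
    exact inv_lt_one_of_one_lt₀ (one_lt_mul'' ht ht)
  have hsv0 : Valued.v s ≠ 0 := (Valuation.ne_zero_iff _).2 hs0
  set f : Kv v → Kv v := fun y => y * y - y + s with hf
  have hfc : Continuous f := by
    rw [hf]
    exact ((continuous_id.mul continuous_id).sub continuous_id).add continuous_const
  set C : Set (Kv v) := (fun x : Kv v => x + 1) '' {x : Kv v | Valued.v x ≤ Valued.v s} with hC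
  have hCc : IsCompact C := (Kv_ball v (Valued.v s)).1.image (continuous_id.add continuous_const)
  have hCl : IsClosed (f '' C) := (hCc.image hfc).isClosed
  have h0 : (0 : Kv v) ∈ f '' C := by
    rw [← hCl.closure_eq, kt_closure]
    intro r hr
    have h1 : ∃ n : ℕ, Valued.v s ^ (n + 1) ≤ r := by
      have h2 : Valued.v s ≤ WithZero.exp (-1) := by
        rw [← WithZero.exp_log hsv0, WithZero.exp_le_exp]
        have h3 : WithZero.log (Valued.v s) < 0 := by
          have := (WithZero.log_lt_log hsv0 (one_ne_zero)).2 hs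
          rwa [WithZero.log_one] at this
        omega
      obtain ⟨n, hn⟩ := (kt_exp r hr).exists
      refine ⟨n, le_trans ?_ hn⟩
      calc Valued.v s ^ (n + 1) ≤ (WithZero.exp (-1)) ^ (n + 1) := pow_le_pow_left' h2 _
        _ ≤ WithZero.exp (-(n : ℤ)) := by
            rw [← WithZero.exp_nsmul, WithZero.exp_le_exp]
            simp
    obtain ⟨n, hn⟩ := h1
    refine ⟨f (eigv_Y s n), ⟨eigv_Y s n, ⟨eigv_Y s n - 1, eigv_near hs n, by simp⟩, rfl⟩, ?_⟩
    have h1 := eigv_one hs _ (eigv_near hs n)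
    have hne : eigv_Y s n ≠ 0 := by
      intro h
      rw [h, map_zero] at h1
      exact zero_ne_one h1
    have h2 : f (eigv_Y s n) - 0 = -(eigv_Y s n * (eigv_Y s (n + 1) - eigv_Y s n)) := by
      have e1 : eigv_Y s (n + 1) = 1 - s / eigv_Y s n := rfl
      rw [e1, hf]
      field_simp
      ring
    rw [h2, Valuation.map_neg, map_mul, h1, one_mul]
    exact (eigv_step hs n).trans hn
  obtain ⟨_, ⟨x, hx, rfl⟩, hy⟩ := h0
  have hy1 : Valued.v (x + 1) = 1 := eigv_one hs _ (by simpa using hx)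
  refine ⟨t * (x + 1), ?_, ?_⟩
  · have h2 : (x + 1) * (x + 1) - (x + 1) + s = 0 := hy
    have h3 : t * t * s = 1 := by rw [hsdef]; exact mul_inv_cancel₀ (mul_ne_zero ht0 ht0)
    linear_combination (t * t) * h2 - h3
  · rw [map_mul, hy1, mul_one]
    exact ht

private lemma eigv_key {F : Type*} [Field F] {A P D : Matrix (Fin 2) (Fin 2) F} (hP : P.det ≠ 0)
    (h : A * P = P * D) : A = P * D * P⁻¹ := by
  rw [← h, Matrix.mul_assoc, Matrix.mul_nonsing_inv _ (isUnit_iff_ne_zero.mpr hP), Matrix.mul_one]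

private lemma eigv_lin {F : Type*} [Field F] {a b c d l : F} (hdet : a * d - b * c = 1)
    (hl : l * l - (a + d) * l + 1 = 0) (hne : l⁻¹ - l ≠ 0) (hbc : ¬ (b = 0 ∧ c = 0)) :
    ∃ P : Matrix (Fin 2) (Fin 2) F, P.det ≠ 0 ∧ !![a, b; c, d] = P * !![l, 0; 0, l⁻¹] * P⁻¹ := by
  have hlinv : l⁻¹ = a + d - l := inv_eq_of_mul_eq_one_right (by linear_combination -hl)
  by_cases hb : b = 0
  · have hc : c ≠ 0 := fun hc => hbc ⟨hb, hc⟩
    have hP : (!![l - d, l⁻¹ - d; c, c] : Matrix (Fin 2) (Fin 2) F).det ≠ 0 := by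
      rw [Matrix.det_fin_two_of]
      have : (l - d) * c - (l⁻¹ - d) * c = -((l⁻¹ - l) * c) := by ring
      rw [this]
      exact neg_ne_zero.mpr (mul_ne_zero hne hc)
    refine ⟨_, hP, eigv_key hP ?_⟩
    rw [Matrix.mul_fin_two, Matrix.mul_fin_two]
    have e1 : a * (l - d) + b * c = (l - d) * l := by
      linear_combination (-1 : F) * hl - hdet
    have e2 : a * (l⁻¹ - d) + b * c = (l⁻¹ - d) * l⁻¹ := by
      rw [hlinv]
      linear_combination (-1 : F) * hl - hdet
    ext i j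
    fin_cases i <;> fin_cases j <;> simp
    · exact e1
    · exact e2
    · ring
    · ring
  · have hP : (!![b, b; l - a, l⁻¹ - a] : Matrix (Fin 2) (Fin 2) F).det ≠ 0 := by
      rw [Matrix.det_fin_two_of]
      have : b * (l⁻¹ - a) - b * (l - a) = (l⁻¹ - l) * b := by ring
      rw [this]
      exact mul_ne_zero hne hb
    refine ⟨_, hP, eigv_key hP ?_⟩
    rw [Matrix.mul_fin_two, Matrix.mul_fin_two]
    have e1 : c * b + d * (l - a) = (l - a) * l := by
      linear_combination (-1 : F) * hl - hdet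
    have e2 : c * b + d * (l⁻¹ - a) = (l⁻¹ - a) * l⁻¹ := by
      rw [hlinv]
      linear_combination (-1 : F) * hl - hdet
    ext i j
    fin_cases i <;> fin_cases j <;> simp
    · ring
    · ring
    · exact e1
    · exact e2

private lemma eigv_diag {F : Type*} [Field F] {a d : F} (had : a * d = 1) :
    (!![a, 0; 0, d] : Matrix (Fin 2) (Fin 2) F) =
      (1 : Matrix (Fin 2) (Fin 2) F) * !![a, 0; 0, a⁻¹] * (1 : Matrix (Fin 2) (Fin 2) F)⁻¹ ∧
    (!![a, 0; 0, d] : Matrix (Fin 2) (Fin 2) F) = !![0, 1; 1, 0] * !![d, 0; 0, d⁻¹] *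
      (!![0, 1; 1, 0] : Matrix (Fin 2) (Fin 2) F)⁻¹ := by
  have hd : a⁻¹ = d := inv_eq_of_mul_eq_one_right had
  have ha : d⁻¹ = a := inv_eq_of_mul_eq_one_left had
  constructor
  · rw [hd]; simp
  · refine eigv_key ?_ ?_
    · rw [Matrix.det_fin_two_of]; simp
    · rw [Matrix.mul_fin_two, Matrix.mul_fin_two, ha]
      ext i j
      fin_cases i <;> fin_cases j <;> simp

theorem eigV (v : Pl) (A : Matrix (Fin 2) (Fin 2) (Kv v)) (hdet : A.det = 1)
    (ht : 1 < Valued.v A.trace) : ∃ (P : Matrix (Fin 2) (Fin 2) (Kv v)) (l : Kv v), P.det ≠ 0 ∧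
      1 < Valued.v l ∧ A = P * !![l, 0; 0, l⁻¹] * P⁻¹ := by
  obtain ⟨a, b, c, d, rfl⟩ : ∃ a b c d, A = !![a, b; c, d] := ⟨_, _, _, _, Matrix.eta_fin_two A⟩
  rw [Matrix.det_fin_two_of] at hdet
  rw [Matrix.trace_fin_two_of] at ht
  obtain ⟨l, hl, hl1⟩ := eigv_root ht
  have hne : l⁻¹ - l ≠ 0 := by
    intro h
    have h1 : Valued.v l⁻¹ = Valued.v l := by rw [sub_eq_zero.1 h]
    rw [map_inv₀] at h1
    have h2 : (Valued.v l)⁻¹ < 1 := inv_lt_one_of_one_lt₀ hl1
    rw [h1] at h2
    exact lt_asymm h2 hl1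
  by_cases hbc : b = 0 ∧ c = 0
  · obtain ⟨rfl, rfl⟩ := hbc
    have had : a * d = 1 := by linear_combination hdet
    obtain ⟨h1, h2⟩ := eigv_diag had
    by_cases ha : 1 < Valued.v a
    · exact ⟨1, a, by simp, ha, h1⟩
    · have hd1 : 1 < Valued.v d := by
        by_contra hcon
        have h1 := (Valued.v (R := Kv v)).map_add_le (not_lt.1 ha) (not_lt.1 hcon)
        exact absurd ht (not_lt.2 h1)
      refine ⟨!![0, 1; 1, 0], d, ?_, hd1, h2⟩
      rw [Matrix.det_fin_two_of]
      simp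
  · obtain ⟨P, hP, h⟩ := eigv_lin hdet hl hne hbc
    exact ⟨P, l, hP, hl1, h⟩

end

end Pool.Agent.Work.MP_14c213_gt
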