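import Pool.Agent.Work.MP_14c213_gt.B.ChVal

/-!
The groups GO = ⋂ UU v and GG s. Link s g ⟺ the exponents satisfy a2 + s a17 = 0, a3 + a23 = 0.
chg v m η n g = exponent of ww g; homomorphism on UU v.
-/

namespace Pool.Agent.Work.MP_14c213_gt

open Matrix IsDedekindDomain
open scoped Matrix NumberField QuadraticAlgebra

noncomputable section

/-- The arithmetic group of the order. -/
def GO : Subgroup AAˣ := ⨅ v : Pl, UU v

theorem mem_GO (g : AAˣ) : g ∈ GO ↔ ∀ v, g ∈ UU v := by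
  simp [GO, Subgroup.mem_iInf]

private theorem ggb_star_alg (c : kk) : star (algebraMap kk KK c) = algebraMap kk KK c := by
  rw [star_KK]
  apply QuadraticAlgebra.ext <;> simp

private theorem ggb_xp_alg (c : kk) (a : AA) :
    xp (algebraMap kk AA c * a) = algebraMap kk KK c * xp a := by
  rw [xp_mul]
  have e1 : xp (algebraMap kk AA c) = algebraMap kk KK c := by
    apply QuadraticAlgebra.ext <;> simp [xp]
  have e2 : yp (algebraMap kk AA c) = 0 := by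
    apply QuadraticAlgebra.ext <;> simp [yp]
  rw [e1, e2]
  ring

private theorem ggb_nrd_alg (z : kk) : nrd (algebraMap kk AA z) = z ^ 2 := by
  have e1 : xp (algebraMap kk AA z) = algebraMap kk KK z := by
    apply QuadraticAlgebra.ext <;> simp [xp]
  have e2 : yp (algebraMap kk AA z) = 0 := by
    apply QuadraticAlgebra.ext <;> simp [yp]
  have e3 : NK (0 : KK) = 0 := by simp [NK]
  rw [nrd, e1, e2, NK_algebraMap, e3]
  ring

theorem ZZ_le (v : Pl) : ZZ ≤ UU v := by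
  intro g hg
  obtain ⟨z, hz, hgz⟩ := (mem_ZZ g).1 hg
  unfold UU
  split_ifs with hv
  · show Even (ord v (nrd (g : AA)))
    rw [hgz, ggb_nrd_alg, pow_two, ord_mul v hz hz]
    exact Even.add_self _
  · refine ⟨z⁻¹, inv_ne_zero hz, ?_, ?_⟩
    · have e : z⁻¹ • (g : AA) = 1 := by
        rw [hgz, Algebra.smul_def, ← map_mul, inv_mul_cancel₀ hz, map_one]
      rw [e]
      exact (OO v).one_mem
    · have e : z⁻¹⁻¹ • ((g⁻¹ : AAˣ) : AA) = 1 := by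
        rw [inv_inv, Algebra.smul_def, ← hgz, Units.mul_inv]
      rw [e]
      exact (OO v).one_mem

private theorem ggb_ww_one : ww 1 = 1 := by
  have e : xp 1 = 1 := by
    apply QuadraticAlgebra.ext <;> simp [xp]
  rw [ww, e, star_one, div_one]

private theorem ggb_al_one {v : Pl} {m : ℕ} {η : KK} {n : ℕ} (h : IsCh v m η n) :
    al v m η n (ww ((1 : AAˣ) : AA)) = 0 := by
  rw [Units.val_one, ggb_ww_one]
  exact al_one h NK_one (cg_refl v _)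

theorem chg_mul {v : Pl} {m : ℕ} {η : KK} {n : ℕ} (h : IsCh v m η n) {g g' : AAˣ}
    (hg : g ∈ UU v) (hg' : g' ∈ UU v) :
    al v m η n (ww ((g * g' : AAˣ) : AA)) = al v m η n (ww (g : AA)) + al v m η n (ww (g' : AA)) := by
  have hv := h.mem
  have h1 := NK_ww (xp_ne v hv _ ((UU v).mul_mem hg hg'))
  have h2 := NK_ww (xp_ne v hv _ hg)
  have h3 := NK_ww (xp_ne v hv _ hg')
  rw [al_congr h h1 (by rw [NK_mul, h2, h3, mul_one]) (ww_mul hv hg hg'), al_mul h h2 h3]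

private theorem ggb_inv {v : Pl} {m : ℕ} {η : KK} {n : ℕ} (h : IsCh v m η n) {g : AAˣ}
    (hg : g ∈ UU v) :
    al v m η n (ww ((g⁻¹ : AAˣ) : AA)) = -al v m η n (ww (g : AA)) := by
  have h1 := chg_mul h ((UU v).inv_mem hg) hg
  rw [inv_mul_cancel, ggb_al_one h] at h1
  exact eq_neg_of_add_eq_zero_left h1.symm

theorem chg_conj {v : Pl} {m : ℕ} {η : KK} {n : ℕ} (h : IsCh v m η n) {g t : AAˣ}
    (hg : g ∈ UU v) (ht : t ∈ UU v) :
    al v m η n (ww ((t⁻¹ * g * t : AAˣ) : AA)) = al v m η n (ww (g : AA)) := by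
  rw [chg_mul h ((UU v).mul_mem ((UU v).inv_mem ht) hg) ht, chg_mul h ((UU v).inv_mem ht) hg,
    ggb_inv h ht]
  ring

theorem chg_flip {v : Pl} {m : ℕ} {η : KK} {n : ℕ} (h : IsCh v m η n) {g t : AAˣ}
    (hg : g ∈ UU v) (ht : t ∉ UU v) :
    al v m η n (ww ((t⁻¹ * g * t : AAˣ) : AA)) = -al v m η n (ww (g : AA)) := by
  have hv := h.mem
  obtain ⟨h1, h2⟩ := ww_conj hv hg ht
  have h3 := NK_ww (xp_ne v hv _ h1)
  have h4 := NK_ww (xp_ne v hv _ hg)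
  have h5 : NK (ww (g : AA))⁻¹ = 1 := by
    have h6 := NK_mul (ww (g : AA)) (ww (g : AA))⁻¹
    have h7 : ww (g : AA) ≠ 0 := by
      intro h0
      rw [h0] at h4
      simp [NK] at h4
    rw [mul_inv_cancel₀ h7, NK_one, h4, one_mul] at h6
    exact h6.symm
  rw [al_congr h h3 h5 h2, al_inv h h4]

theorem chg_scalar {v : Pl} {m : ℕ} {η : KK} {n : ℕ} (h : IsCh v m η n) {g z : AAˣ}
    (hz : z ∈ ZZ) : al v m η n (ww ((z * g : AAˣ) : AA)) = al v m η n (ww (g : AA)) := by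
  obtain ⟨c, hc, hzc⟩ := (mem_ZZ z).1 hz
  have e : ww ((z * g : AAˣ) : AA) = ww (g : AA) := by
    rw [ww, Units.val_mul, hzc, ggb_xp_alg, star_mul, ggb_star_alg,
      mul_comm (star (xp (g : AA)))]
    exact mul_div_mul_left _ _ ((map_ne_zero _).2 hc)
  rw [e]

/-- The four places. -/
theorem four : ∃ P2 P17 P3 P23 : Pl, IsCh P2 1 zeta 3 ∧ IsCh P17 6 zeta 3 ∧ IsCh P3 1 uu 4 ∧
    IsCh P23 6 (uu ^ 6) 4 ∧ SS4 = {P2, P17, P3, P23} ∧ P2 ≠ P17 ∧ P2 ≠ P3 ∧ P2 ≠ P23 ∧ P17 ≠ P3 ∧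
    P17 ≠ P23 ∧ P3 ≠ P23 := by
  obtain ⟨P2, P3, P17, P23, hS, m2, m3, m17, m23, n2, n3, n17, n23, -⟩ := S4_list
  have hne : ∀ {P Q : Pl}, Ideal.absNorm P.asIdeal ≠ Ideal.absNorm Q.asIdeal → P ≠ Q := by
    intro P Q h h'
    exact h (by rw [h'])
  refine ⟨P2, P17, P3, P23, ⟨by rw [hS]; simp, Or.inl ⟨m2, rfl, rfl, rfl⟩⟩,
    ⟨by rw [hS]; simp, Or.inr (Or.inl ⟨m17, rfl, rfl, rfl⟩)⟩,
    ⟨by rw [hS]; simp, Or.inr (Or.inr (Or.inl ⟨m3, rfl, rfl, rfl⟩))⟩,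
    ⟨by rw [hS]; simp, Or.inr (Or.inr (Or.inr ⟨m23, rfl, rfl, rfl⟩))⟩, ?_,
    hne (by rw [n2, n17]; norm_num), hne (by rw [n2, n3]; norm_num),
    hne (by rw [n2, n23]; norm_num), hne (by rw [n17, n3]; norm_num),
    hne (by rw [n17, n23]; norm_num), hne (by rw [n3, n23]; norm_num)⟩
  rw [hS]
  ext v
  simp only [Set.mem_insert_iff, Set.mem_singleton_iff]
  tauto

def P2 : Pl := four.choose
def P17 : Pl := four.choose_spec.choose
def P3 : Pl := four.choose_spec.choose_spec.choose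
def P23 : Pl := four.choose_spec.choose_spec.choose_spec.choose

theorem four_spec : IsCh P2 1 zeta 3 ∧ IsCh P17 6 zeta 3 ∧ IsCh P3 1 uu 4 ∧
    IsCh P23 6 (uu ^ 6) 4 ∧ SS4 = {P2, P17, P3, P23} ∧ P2 ≠ P17 ∧ P2 ≠ P3 ∧ P2 ≠ P23 ∧ P17 ≠ P3 ∧
    P17 ≠ P23 ∧ P3 ≠ P23 := four.choose_spec.choose_spec.choose_spec.choose_spec

def a2 (g : AAˣ) : ZMod 3 := al P2 1 zeta 3 (ww (g : AA))
def a17 (g : AAˣ) : ZMod 3 := al P17 6 zeta 3 (ww (g : AA))
def a3 (g : AAˣ) : ZMod 4 := al P3 1 uu 4 (ww (g : AA))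
def a23 (g : AAˣ) : ZMod 4 := al P23 6 (uu ^ 6) 4 (ww (g : AA))

private theorem ggb_mul (g h : AAˣ) (hg : g ∈ GO) (hh : h ∈ GO) :
    a2 (g * h) = a2 g + a2 h ∧ a17 (g * h) = a17 g + a17 h ∧ a3 (g * h) = a3 g + a3 h ∧
      a23 (g * h) = a23 g + a23 h := by
  rw [mem_GO] at hg hh
  exact ⟨chg_mul four_spec.1 (hg _) (hh _), chg_mul four_spec.2.1 (hg _) (hh _),
    chg_mul four_spec.2.2.1 (hg _) (hh _), chg_mul four_spec.2.2.2.1 (hg _) (hh _)⟩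

private theorem ggb_one : a2 1 = 0 ∧ a17 1 = 0 ∧ a3 1 = 0 ∧ a23 1 = 0 :=
  ⟨ggb_al_one four_spec.1, ggb_al_one four_spec.2.1, ggb_al_one four_spec.2.2.1,
    ggb_al_one four_spec.2.2.2.1⟩

private theorem ggb_inv' (g : AAˣ) (hg : g ∈ GO) :
    a2 g⁻¹ = -a2 g ∧ a17 g⁻¹ = -a17 g ∧ a3 g⁻¹ = -a3 g ∧ a23 g⁻¹ = -a23 g := by
  rw [mem_GO] at hg
  exact ⟨ggb_inv four_spec.1 (hg _), ggb_inv four_spec.2.1 (hg _), ggb_inv four_spec.2.2.1 (hg _),
    ggb_inv four_spec.2.2.2.1 (hg _)⟩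

/-- The two groups, `s = 1` and `s = -1`. -/
def GG (s : ℤˣ) : Subgroup AAˣ where
  carrier := {g | g ∈ GO ∧ a2 g + ((s : ℤ) : ZMod 3) * a17 g = 0 ∧ a3 g + a23 g = 0}
  one_mem' := by
    obtain ⟨h1, h2, h3, h4⟩ := ggb_one
    refine ⟨GO.one_mem, ?_, ?_⟩
    · rw [h1, h2]; ring
    · rw [h3, h4]; ring
  mul_mem' := by
    rintro g h ⟨hg, hg1, hg2⟩ ⟨hh, hh1, hh2⟩
    obtain ⟨h1, h2, h3, h4⟩ := ggb_mul g h hg hh
    refine ⟨GO.mul_mem hg hh, ?_, ?_⟩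
    · rw [h1, h2]
      linear_combination hg1 + hh1
    · rw [h3, h4]
      linear_combination hg2 + hh2
  inv_mem' := by
    rintro g ⟨hg, hg1, hg2⟩
    obtain ⟨h1, h2, h3, h4⟩ := ggb_inv' g hg
    refine ⟨GO.inv_mem hg, ?_, ?_⟩
    · rw [h1, h2]
      linear_combination -hg1
    · rw [h3, h4]
      linear_combination -hg2

private theorem ggb_ZZ {z : AAˣ} (hz : z ∈ ZZ) : a2 z = 0 ∧ a17 z = 0 ∧ a3 z = 0 ∧ a23 z = 0 := by
  obtain ⟨h1, h2, h3, h4⟩ := ggb_one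
  have e1 := chg_scalar four_spec.1 (g := 1) hz
  have e2 := chg_scalar four_spec.2.1 (g := 1) hz
  have e3 := chg_scalar four_spec.2.2.1 (g := 1) hz
  have e4 := chg_scalar four_spec.2.2.2.1 (g := 1) hz
  rw [mul_one] at e1 e2 e3 e4
  exact ⟨e1.trans h1, e2.trans h2, e3.trans h3, e4.trans h4⟩

theorem ZZ_le_GG (s : ℤˣ) : ZZ ≤ GG s := by
  intro z hz
  obtain ⟨h1, h2, h3, h4⟩ := ggb_ZZ hz
  refine ⟨(mem_GO z).2 fun v => ZZ_le v hz, ?_, ?_⟩
  · rw [h1, h2]; ring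
  · rw [h3, h4]; ring

theorem GG_le (s : ℤˣ) : GG s ≤ GO := fun _ h => h.1

theorem GG_normal (s : ℤˣ) : ((GG s).subgroupOf GO).Normal := by
  refine ⟨fun n hn g => ?_⟩
  rw [Subgroup.mem_subgroupOf] at hn ⊢
  obtain ⟨hn0, hn1, hn2⟩ := hn
  have hg := g.2
  have hprod : ((g * n * g⁻¹ : GO) : AAˣ) = (g : AAˣ) * (n : AAˣ) * (g : AAˣ)⁻¹ := rfl
  rw [hprod]
  obtain ⟨u1, u2, u3, u4⟩ := ggb_mul _ _ (GO.mul_mem hg hn0) (GO.inv_mem hg)
  obtain ⟨w1, w2, w3, w4⟩ := ggb_mul _ _ hg hn0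
  obtain ⟨i1, i2, i3, i4⟩ := ggb_inv' _ hg
  refine ⟨GO.mul_mem (GO.mul_mem hg hn0) (GO.inv_mem hg), ?_, ?_⟩
  · rw [u1, u2, w1, w2, i1, i2]
    linear_combination hn1
  · rw [u3, u4, w3, w4, i3, i4]
    linear_combination hn2

/-- the kernel of `a3 + a23` -/
private def ggbH : Subgroup AAˣ where
  carrier := {g | g ∈ GO ∧ a3 g + a23 g = 0}
  one_mem' := by
    obtain ⟨h1, h2, h3, h4⟩ := ggb_one
    refine ⟨GO.one_mem, ?_⟩
    rw [h3, h4]; ring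
  mul_mem' := by
    rintro g h ⟨hg, hg2⟩ ⟨hh, hh2⟩
    obtain ⟨h1, h2, h3, h4⟩ := ggb_mul g h hg hh
    refine ⟨GO.mul_mem hg hh, ?_⟩
    rw [h3, h4]
    linear_combination hg2 + hh2
  inv_mem' := by
    rintro g ⟨hg, hg2⟩
    obtain ⟨h1, h2, h3, h4⟩ := ggb_inv' g hg
    refine ⟨GO.inv_mem hg, ?_⟩
    rw [h3, h4]
    linear_combination -hg2

private theorem ggb_hom {n : ℕ} (H K : Subgroup AAˣ) (f : AAˣ → ZMod n)
    (hmul : ∀ g ∈ H, ∀ h ∈ H, f (g * h) = f g + f h) (hK : ∀ g ∈ H, g ∈ K ↔ f g = 0) :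
    ∃ F : H →* Multiplicative (ZMod n), (∀ g : H, F g = Multiplicative.ofAdd (f g)) ∧
      F.ker = K.subgroupOf H := by
  have h1 : f 1 = 0 := by
    have := hmul 1 H.one_mem 1 H.one_mem
    rw [mul_one] at this
    exact left_eq_add.1 this
  refine ⟨⟨⟨fun g => Multiplicative.ofAdd (f g), ?_⟩, ?_⟩, fun g => rfl, ?_⟩
  · show Multiplicative.ofAdd (f ((1 : H) : AAˣ)) = 1
    rw [Subgroup.coe_one, h1]
    rfl
  · intro g h
    show Multiplicative.ofAdd (f ((g * h : H) : AAˣ)) = _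
    rw [Subgroup.coe_mul, hmul g g.2 h h.2]
    rfl
  · ext g
    rw [MonoidHom.mem_ker, Subgroup.mem_subgroupOf, hK g g.2]
    show Multiplicative.ofAdd (f g) = 1 ↔ _
    exact ofAdd_eq_one

private theorem ggb_idx3 (H K : Subgroup AAˣ) (f : AAˣ → ZMod 3)
    (hmul : ∀ g ∈ H, ∀ h ∈ H, f (g * h) = f g + f h) (hK : ∀ g ∈ H, g ∈ K ↔ f g = 0)
    (hne : ∃ g ∈ H, f g ≠ 0) : K.relIndex H = 3 := by
  obtain ⟨F, hF, hker⟩ := ggb_hom H K f hmul hK
  rw [Subgroup.relIndex, ← hker, Subgroup.index_ker]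
  obtain ⟨g, hg, hfg⟩ := hne
  have hsurj : Function.Surjective F := by
    intro z
    have h1 : ∀ k : ℕ, F (⟨g, hg⟩ ^ k) = Multiplicative.ofAdd ((k : ZMod 3) * f g) := by
      intro k
      rw [map_pow, hF, ← ofAdd_nsmul, nsmul_eq_mul]
    refine ⟨⟨g, hg⟩ ^ (Multiplicative.toAdd z * (f g)⁻¹).val, ?_⟩
    rw [h1, ZMod.natCast_zmod_val, mul_assoc, inv_mul_cancel₀ hfg, mul_one]
    rfl
  rw [MonoidHom.range_eq_top.2 hsurj, Subgroup.card_top]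
  show Nat.card (ZMod 3) = 3
  rw [Nat.card_eq_fintype_card, ZMod.card]

private theorem ggb_idxne {n : ℕ} [NeZero n] (H K : Subgroup AAˣ) (f : AAˣ → ZMod n)
    (hmul : ∀ g ∈ H, ∀ h ∈ H, f (g * h) = f g + f h) (hK : ∀ g ∈ H, g ∈ K ↔ f g = 0) :
    K.relIndex H ≠ 0 := by
  obtain ⟨F, hF, hker⟩ := ggb_hom H K f hmul hK
  rw [Subgroup.relIndex, ← hker, Subgroup.index_ker]
  have : Finite (Multiplicative (ZMod n)) := inferInstanceAs (Finite (ZMod n))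
  exact Nat.card_pos.ne'

/-- three is a unit away from the place over three -/
private theorem ggb_three {v : Pl} (h : (3 : 𝓞 kk) ∉ v.asIdeal) : v.valuation kk 3 = 1 := by
  have h1 : v.valuation kk (algebraMap (𝓞 kk) kk 3) ≤ 1 := v.valuation_le_one _
  have h2 : ¬ v.valuation kk (algebraMap (𝓞 kk) kk 3) < 1 := by
    rw [HeightOneSpectrum.valuation_lt_one_iff_mem]
    exact h
  rw [map_ofNat] at h1 h2
  exact le_antisymm h1 (not_lt.1 h2)

private theorem ggb_third {v : Pl} (h : (3 : 𝓞 kk) ∉ v.asIdeal) (a b : ℤ) :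
    v.valuation kk (⟨a / 3, b / 3⟩ : kk) ≤ 1 := by
  have e : (⟨a / 3, b / 3⟩ : kk) * 3 = ⟨a, b⟩ := by
    ext <;> simp [QuadraticAlgebra.re_ofNat, QuadraticAlgebra.im_ofNat]
  have h1 := val_int v a b
  rw [← e, map_mul, ggb_three h, mul_one] at h1
  exact h1

private theorem ggb_mem {x : KK} (hx : x ≠ 0) (hram : ∀ v ∈ SS4, Even (ord v (NK x)))
    (hun : ∀ v : Pl, (3 : 𝓞 kk) ∉ v.asIdeal → v.valuation kk x.re ≤ 1 ∧ v.valuation kk x.im ≤ 1 ∧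
      v.valuation kk x⁻¹.re ≤ 1 ∧ v.valuation kk x⁻¹.im ≤ 1) :
    inKu (Units.mk0 x hx) ∈ GO := by
  rw [mem_GO]
  intro v
  unfold UU
  split_ifs with hv
  · show Even (ord v (nrd (inK x)))
    rw [nrd_inK]
    exact hram v hv
  · have h3 : (3 : 𝓞 kk) ∉ v.asIdeal := fun h => hv (three_mem v h).1
    obtain ⟨h4, h5, h6, h7⟩ := hun v h3
    refine ⟨1, one_ne_zero, ?_, ?_⟩
    · rw [one_smul]
      have h0 : v.valuation kk (0 : kk) ≤ 1 := by rw [map_zero]; exact zero_le_one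
      exact ⟨h4, h5, h0, h0⟩
    · rw [inv_one, one_smul]
      have h0 : v.valuation kk (0 : kk) ≤ 1 := by rw [map_zero]; exact zero_le_one
      have e : (((inKu (Units.mk0 x hx))⁻¹ : AAˣ) : AA) = inK x⁻¹ := rfl
      rw [e]
      exact ⟨h6, h7, h0, h0⟩

private theorem ggb_cc_ne : cc ≠ 0 := by
  intro h
  have h1 := NK_cc
  rw [h] at h1
  have h2 : (3 : kk) = 0 := by rw [← h1]; simp [NK]
  norm_num at h2

private theorem ggb_eps_ne : eps ≠ 0 := by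
  intro h
  have h1 := NK_eps
  rw [h] at h1
  have h2 : (-1 : kk) = 0 := by rw [← h1]; simp [NK]
  norm_num at h2

private def ggb_cU : AAˣ := inKu (Units.mk0 cc ggb_cc_ne)
private def ggb_eU : AAˣ := inKu (Units.mk0 eps ggb_eps_ne)

private theorem ggb_cU_mem : ggb_cU ∈ GO := by
  refine ggb_mem ggb_cc_ne ?_ ?_
  · intro v hv
    rw [NK_cc]
    by_cases h3 : (3 : 𝓞 kk) ∈ v.asIdeal
    · rw [(three_mem v h3).2]
      exact even_two
    · have : ord v 3 = 0 := by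
        unfold ord
        rw [ggb_three h3, WithZero.log_one, neg_zero]
      rw [this]
      exact Even.zero
  · intro v h3
    have e : cc⁻¹ = ⟨⟨1 / 3, 0 / 3⟩, ⟨-1 / 3, 0 / 3⟩⟩ := by
      refine inv_eq_of_mul_eq_one_right ?_
      ext <;> simp [cc] <;> norm_num
    have t1 := ggb_third h3 1 0
    have t2 := ggb_third h3 (-1) 0
    push_cast at t1 t2
    rw [e]
    refine ⟨?_, ?_, t1, t2⟩
    · have h := val_int v 2 0
      have e2 : (⟨((2 : ℤ) : ℚ), ((0 : ℤ) : ℚ)⟩ : kk) = cc.re := by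
        ext <;> simp [cc, QuadraticAlgebra.re_ofNat, QuadraticAlgebra.im_ofNat]
      rwa [e2] at h
    · show v.valuation kk (1 : kk) ≤ 1
      rw [map_one]

private theorem ggb_eU_mem : ggb_eU ∈ GO := by
  refine ggb_mem ggb_eps_ne ?_ ?_
  · intro v hv
    rw [NK_eps]
    have : ord v (-1) = 0 := by
      unfold ord
      rw [Valuation.map_neg, map_one, WithZero.log_one, neg_zero]
    rw [this]
    exact Even.zero
  · intro v h3
    have e : eps⁻¹ = ⟨⟨-1 / 3, -1 / 3⟩, ⟨1 / 3, -2 / 3⟩⟩ := by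
      refine inv_eq_of_mul_eq_one_right ?_
      ext <;> simp [eps] <;> norm_num
    have t1 := ggb_third h3 2 (-1)
    have t2 := ggb_third h3 1 (-2)
    have t3 := ggb_third h3 (-1) (-1)
    push_cast at t1 t2 t3
    rw [e]
    exact ⟨t1, t2, t3, t2⟩

private theorem ggb_cU_val : a2 ggb_cU = 2 ∧ a17 ggb_cU = 0 ∧ a3 ggb_cU = 2 ∧ a23 ggb_cU = 0 := by
  have e : ww ((ggb_cU : AAˣ) : AA) = 1 + zeta := cc_div
  refine ⟨?_, ?_, ?_, ?_⟩
  · rw [a2, e]; exact (al2 four_spec.1).1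
  · rw [a17, e]; exact (al17 four_spec.2.1).1
  · rw [a3, e]; exact (al3 four_spec.2.2.1).1
  · rw [a23, e]; exact (al23 four_spec.2.2.2.1).1

private theorem ggb_eU_val : a2 ggb_eU = 1 ∧ a17 ggb_eU = 2 ∧ a3 ggb_eU = 1 ∧ a23 ggb_eU = 1 := by
  have e : ww ((ggb_eU : AAˣ) : AA) = uu := rfl
  refine ⟨?_, ?_, ?_, ?_⟩
  · rw [a2, e]; exact (al2 four_spec.1).2.1
  · rw [a17, e]; exact (al17 four_spec.2.1).2.1
  · rw [a3, e]; exact (al3 four_spec.2.2.1).2.1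
  · rw [a23, e]; exact (al23 four_spec.2.2.2.1).2.1

private theorem ggb_pow {g : AAˣ} (hg : g ∈ GO) (k : ℕ) :
    a2 (g ^ k) = k * a2 g ∧ a17 (g ^ k) = k * a17 g ∧ a3 (g ^ k) = k * a3 g ∧
      a23 (g ^ k) = k * a23 g := by
  induction k with
  | zero =>
    obtain ⟨h1, h2, h3, h4⟩ := ggb_one
    rw [pow_zero]
    simp [h1, h2, h3, h4]
  | succ k ih =>
    obtain ⟨i1, i2, i3, i4⟩ := ih
    obtain ⟨h1, h2, h3, h4⟩ := ggb_mul _ _ (GO.pow_mem hg k) hg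
    rw [pow_succ, h1, h2, h3, h4, i1, i2, i3, i4]
    push_cast
    refine ⟨by ring, by ring, by ring, by ring⟩

private theorem ggb_le (s : ℤˣ) : GG s ≤ ggbH := fun _ h => ⟨h.1, h.2.2⟩

private theorem ggb_H_le : ggbH ≤ GO := fun _ h => h.1

private theorem ggb_H3 (s : ℤˣ) : (GG s).relIndex ggbH = 3 := by
  refine ggb_idx3 ggbH (GG s) (fun g => a2 g + ((s : ℤ) : ZMod 3) * a17 g) ?_ ?_ ?_
  · intro g hg h hh
    obtain ⟨h1, h2, -, -⟩ := ggb_mul g h hg.1 hh.1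
    rw [h1, h2]
    ring
  · intro g hg
    exact ⟨fun h => h.2.1, fun h => ⟨hg.1, h, hg.2⟩⟩
  · obtain ⟨p1, p2, p3, p4⟩ := ggb_pow ggb_cU_mem 2
    obtain ⟨c1, c2, c3, c4⟩ := ggb_cU_val
    refine ⟨ggb_cU ^ 2, ⟨GO.pow_mem ggb_cU_mem 2, ?_⟩, ?_⟩
    · rw [p3, p4, c3, c4]
      decide
    · rw [p1, p2, c1, c2, mul_zero, mul_zero, add_zero]
      decide

private theorem ggb_HGO : ggbH.relIndex GO ≠ 0 := by
  refine ggb_idxne (n := 4) GO ggbH (fun g => a3 g + a23 g) ?_ ?_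
  · intro g hg h hh
    obtain ⟨-, -, h1, h2⟩ := ggb_mul g h hg hh
    rw [h1, h2]
    ring
  · intro g hg
    exact ⟨fun h => h.2, fun h => ⟨hg, h⟩⟩


theorem GG_index (s : ℤˣ) : (GG s).relIndex GO ≠ 0 := by
  rw [← Subgroup.relIndex_mul_relIndex (GG s) ggbH GO (ggb_le s) ggb_H_le, ggb_H3]
  exact mul_ne_zero (by norm_num) ggb_HGO

/-- Both groups have the same index in `GO`. -/
theorem GG_index_eq : (GG 1).relIndex GO = (GG (-1)).relIndex GO := by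
  rw [← Subgroup.relIndex_mul_relIndex (GG 1) ggbH GO (ggb_le 1) ggb_H_le,
    ← Subgroup.relIndex_mul_relIndex (GG (-1)) ggbH GO (ggb_le (-1)) ggb_H_le, ggb_H3, ggb_H3]

theorem GG_inf : (GG 1 ⊓ GG (-1)).relIndex (GG 1) = 3 ∧
    (GG 1 ⊓ GG (-1)).relIndex (GG (-1)) = 3 := by
  have key : ∀ a b : ZMod 3, (a + b = 0 → (a = 0 ↔ a + -1 * b = 0)) ∧
      (a + -1 * b = 0 → (a = 0 ↔ a + b = 0)) := by decide
  have e1 : (((1 : ℤˣ) : ℤ) : ZMod 3) = 1 := by simp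
  have e2 : (((-1 : ℤˣ) : ℤ) : ZMod 3) = -1 := by simp
  obtain ⟨c1, c2, c3, c4⟩ := ggb_cU_val
  obtain ⟨d1, d2, d3, d4⟩ := ggb_eU_val
  obtain ⟨q1, q2, q3, q4⟩ := ggb_pow ggb_eU_mem 2
  obtain ⟨p1, p2, p3, p4⟩ := ggb_pow ggb_cU_mem 4
  have hmul : ∀ s : ℤˣ, ∀ g ∈ GG s, ∀ h ∈ GG s, a2 (g * h) = a2 g + a2 h := fun s g hg h hh =>
    (ggb_mul g h hg.1 hh.1).1
  constructor
  · refine ggb_idx3 (GG 1) _ a2 (hmul 1) ?_ ?_
    · intro g hg
      have h1 := hg.2.1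
      rw [e1, one_mul] at h1
      have h2 := (key _ _).1 h1
      rw [Subgroup.mem_inf, h2]
      constructor
      · intro h
        have h3 := h.2.2.1
        rw [e2] at h3
        exact h3
      · intro h
        refine ⟨hg, hg.1, ?_, hg.2.2⟩
        rw [e2]
        exact h
    · refine ⟨ggb_eU ^ 2, ⟨GO.pow_mem ggb_eU_mem 2, ?_, ?_⟩, ?_⟩
      · rw [q1, q2, d1, d2, e1]
        decide
      · rw [q3, q4, d3, d4]
        decide
      · rw [q1, d1]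
        decide
  · refine ggb_idx3 (GG (-1)) _ a2 (hmul (-1)) ?_ ?_
    · intro g hg
      have h1 := hg.2.1
      rw [e2] at h1
      have h2 := (key _ _).2 h1
      rw [Subgroup.mem_inf, h2]
      constructor
      · intro h
        have h3 := h.1.2.1
        rw [e1, one_mul] at h3
        exact h3
      · intro h
        refine ⟨⟨hg.1, ?_, hg.2.2⟩, hg⟩
        rw [e1, one_mul]
        exact h
    · have hc := GO.pow_mem ggb_cU_mem 4
      have he := GO.pow_mem ggb_eU_mem 2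
      obtain ⟨m1, m2, m3, m4⟩ := ggb_mul _ _ hc he
      refine ⟨ggb_cU ^ 4 * ggb_eU ^ 2, ⟨GO.mul_mem hc he, ?_, ?_⟩, ?_⟩
      · rw [m1, m2, p1, p2, q1, q2, c1, c2, d1, d2, e2]
        decide
      · rw [m3, m4, p3, p4, q3, q4, c3, c4, d3, d4]
        decide
      · rw [m1, p1, q1, c1, d1]
        decide

end

end Pool.Agent.Work.MP_14c213_gt
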