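import Pool.Agent.Work.MP_14c213_gt.B.GLM

/-!
Grouping the classes of Γ by the classes of f.range (abstract). If F (out C) ≠ 0 then the inner sum has finite
support by hfin. Use the map ConjClasses Γ → ConjClasses f.range.
-/

namespace Pool.Agent.Work.MP_14c213_gt

open Matrix IsDedekindDomain
open scoped Matrix NumberField QuadraticAlgebra

noncomputable section

theorem sum_classes {G P : Type*} [Group G] [Group P] (f : G →* P) (Γ : Subgroup P)
    (hΓ : Γ ≤ f.range) (F : P → ℝ) (hF : ∀ g : G, ∀ x, F (f g * x * (f g)⁻¹) = F x)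
    (w : ConjClasses Γ → ℝ)
    (hfin : {c : ConjClasses Γ | F ((Quotient.out c : Γ) : P) * w c ≠ 0}.Finite) :
    ∑ᶠ c : ConjClasses Γ, F ((Quotient.out c : Γ) : P) * w c =
      ∑ᶠ C : ConjClasses f.range, F ((Quotient.out C : f.range) : P) *
        (∑ᶠ c : ConjClasses Γ, open Classical in
          if ∃ g : G, f g * ((Quotient.out C : f.range) : P) * (f g)⁻¹ =
            ((Quotient.out c : Γ) : P) then w c else 0) := by
  classical
  let β : ConjClasses Γ → ConjClasses f.range := fun c =>
    ConjClasses.mk ⟨((Quotient.out c : Γ) : P), hΓ (Quotient.out c : Γ).2⟩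
  have hβ : ∀ (C : ConjClasses f.range) (c : ConjClasses Γ),
      (∃ g : G, f g * ((Quotient.out C : f.range) : P) * (f g)⁻¹ =
        ((Quotient.out c : Γ) : P)) ↔ β c = C := by
    intro C c
    have hC : ConjClasses.mk (Quotient.out C : f.range) = C := Quotient.out_eq C
    rw [← hC]
    show _ ↔ ConjClasses.mk _ = _
    rw [ConjClasses.mk_eq_mk_iff_isConj, isConj_comm, isConj_iff, hC]
    constructor
    · rintro ⟨g, hg⟩
      exact ⟨⟨f g, g, rfl⟩, Subtype.ext hg⟩
    · rintro ⟨⟨_, g, rfl⟩, hg⟩
      exact ⟨g, congrArg Subtype.val hg⟩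
  have hFβ : ∀ (C : ConjClasses f.range) (c : ConjClasses Γ), β c = C →
      F ((Quotient.out C : f.range) : P) = F ((Quotient.out c : Γ) : P) := by
    intro C c h
    obtain ⟨g, hg⟩ := (hβ C c).2 h
    rw [← hg, hF]
  set a : ConjClasses Γ → ℝ := fun c => F ((Quotient.out c : Γ) : P) * w c with ha
  set T : Finset (ConjClasses Γ) := hfin.toFinset with hT
  have hTm : ∀ c, c ∈ T ↔ a c ≠ 0 := fun c => hfin.mem_toFinset
  have h1 : ∀ C : ConjClasses f.range, F ((Quotient.out C : f.range) : P) *
      (∑ᶠ c : ConjClasses Γ, if ∃ g : G, f g * ((Quotient.out C : f.range) : P) * (f g)⁻¹ =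
            ((Quotient.out c : Γ) : P) then w c else 0) = ∑ c ∈ T.filter (fun c => β c = C), a c := by
    intro C
    by_cases h0 : F ((Quotient.out C : f.range) : P) = 0
    · rw [h0, zero_mul, eq_comm]
      refine Finset.sum_eq_zero fun c hc => ?_
      show F ((Quotient.out c : Γ) : P) * w c = 0
      rw [← hFβ C c (Finset.mem_filter.1 hc).2, h0, zero_mul]
    · rw [finsum_eq_sum_of_support_subset (s := T.filter (fun c => β c = C)), Finset.mul_sum]
      · refine Finset.sum_congr rfl fun c hc => ?_
        have h2 := (Finset.mem_filter.1 hc).2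
        rw [if_pos ((hβ C c).2 h2), hFβ C c h2]
      · intro c hc
        rw [Function.mem_support] at hc
        have h3 : ∃ g : G, f g * ((Quotient.out C : f.range) : P) * (f g)⁻¹ =
            ((Quotient.out c : Γ) : P) := by
          by_contra h4
          exact hc (if_neg h4)
        rw [if_pos h3] at hc
        have h5 := (hβ C c).1 h3
        rw [Finset.mem_coe, Finset.mem_filter, hTm]
        refine ⟨mul_ne_zero ?_ hc, h5⟩
        rw [← hFβ C c h5]
        exact h0
  rw [finsum_congr h1]
  have h2 : ∑ᶠ c : ConjClasses Γ, a c = ∑ c ∈ T, a c :=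
    finsum_eq_sum_of_support_subset _ fun c hc => (hTm c).2 hc
  rw [h2, finsum_eq_sum_of_support_subset (s := T.image β)]
  · exact (Finset.sum_fiberwise_of_maps_to (fun c hc => Finset.mem_image_of_mem β hc) _).symm
  · intro C hC
    rw [Function.mem_support] at hC
    obtain ⟨c, hc, _⟩ := Finset.exists_ne_zero_of_sum_ne_zero hC
    rw [Finset.mem_coe, Finset.mem_image]
    exact ⟨c, (Finset.mem_filter.1 hc).1, (Finset.mem_filter.1 hc).2⟩

end

end Pool.Agent.Work.MP_14c213_gt
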