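import Pool.Agent.Work.MP_14c213_gt.B.GLM
import Pool.Agent.Work.MP_14c213_gt.B.SumC
import Pool.Agent.Work.MP_14c213_gt.B.GGB
import Pool.Agent.Work.MP_14c213_gt.B.ChlB
import Pool.Agent.Work.MP_14c213_gt.A.LoxM

/-!
lenData of the groups as a sum over the classes of the range of Psi: sum_classes with
F = FF m L, w = cen; finiteness from Klein_lengths; massP is the inner sum (Psi (rp C) = out C).
-/

namespace Pool.Agent.Work.MP_14c213_gt

open Matrix IsDedekindDomain
open scoped Matrix NumberField QuadraticAlgebra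

noncomputable section

/-- The summand of lenData. -/
def FF (m : ℕ) (L : ℝ) (δ : Mat 3) : ℝ := open Classical in
  if chl δ = L then cth δ ^ m / (L - cth δ) else 0

/-- A preimage in `A^×` of the representative of a class. -/
def rp (C : ConjClasses Psi.range) : AAˣ := Classical.choose (Quotient.out C : Psi.range).2

theorem rp_spec (C : ConjClasses Psi.range) :
    Psi (rp C) = ((Quotient.out C : Psi.range) : (Mat 3)ˣ) :=
  Classical.choose_spec (Quotient.out C : Psi.range).2

private theorem lenb_FF (m : ℕ) (L : ℝ) (a x : (Mat 3)ˣ) :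
    FF m L ((a * x * a⁻¹ : (Mat 3)ˣ) : Mat 3) = FF m L (x : Mat 3) := by
  have h := chl_conj (a : Mat 3) ((a⁻¹ : (Mat 3)ˣ) : Mat 3) (x : Mat 3) (Units.mul_inv a)
  rw [FF, FF, Units.val_mul, Units.val_mul, h.1, h.2]

private theorem lenb_le (s : ℤˣ) : (GG s).map Psi ≤ Psi.range := by
  rintro _ ⟨g, _, rfl⟩
  exact ⟨g, rfl⟩

private theorem lenb_mass (s : ℤˣ) (C : ConjClasses Psi.range) :
    massP Psi (GG s) (rp C) = ∑ᶠ c : ConjClasses ((GG s).map Psi), open Classical in
      if ∃ g : AAˣ, Psi g * ((Quotient.out C : Psi.range) : (Mat 3)ˣ) * (Psi g)⁻¹ =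
        ((Quotient.out c : (GG s).map Psi) : (Mat 3)ˣ) then
          cen (Quotient.out c : (GG s).map Psi) else 0 := by
  unfold massP
  apply finsum_congr
  intro c
  have e : (∃ g : AAˣ, Psi (g * rp C * g⁻¹) = ((Quotient.out c : (GG s).map Psi) : (Mat 3)ˣ)) ↔
      ∃ g : AAˣ, Psi g * ((Quotient.out C : Psi.range) : (Mat 3)ˣ) * (Psi g)⁻¹ =
        ((Quotient.out c : (GG s).map Psi) : (Mat 3)ˣ) := by
    apply exists_congr
    intro g
    rw [map_mul, map_mul, map_inv, rp_spec]
  by_cases h : ∃ g : AAˣ, Psi g * ((Quotient.out C : Psi.range) : (Mat 3)ˣ) * (Psi g)⁻¹ =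
        ((Quotient.out c : (GG s).map Psi) : (Mat 3)ˣ)
  · rw [if_pos h, if_pos (e.2 h), cen]
  · rw [if_neg h, if_neg fun h' => h (e.1 h')]

theorem lenData_eq (s : ℤˣ) (hK : Klein ((GG s).map Psi)) (m : ℕ) (L : ℝ) :
    lenData ((GG s).map Psi) m L = ∑ᶠ C : ConjClasses Psi.range,
      FF m L ((Psi (rp C) : (Mat 3)ˣ) : Mat 3) * massP Psi (GG s) (rp C) := by
  have e1 : lenData ((GG s).map Psi) m L = ∑ᶠ c : ConjClasses ((GG s).map Psi),
      FF m L (((Quotient.out c : (GG s).map Psi) : (Mat 3)ˣ) : Mat 3) *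
        cen (Quotient.out c : (GG s).map Psi) := by
    unfold lenData
    apply finsum_congr
    intro c
    unfold FF
    split_ifs
    · ring
    · ring
  rw [e1]
  have h := sum_classes Psi ((GG s).map Psi) (lenb_le s) (fun x => FF m L (x : Mat 3))
    (fun g x => lenb_FF m L (Psi g) x)
    (fun c => cen (Quotient.out c : (GG s).map Psi)) (by
      refine (Klein_lengths hK L).subset ?_
      intro c hc
      have h1 : FF m L (((Quotient.out c : (GG s).map Psi) : (Mat 3)ˣ) : Mat 3) ≠ 0 :=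
        left_ne_zero_of_mul hc
      show chl (((Quotient.out c : (GG s).map Psi) : (Mat 3)ˣ) : Mat 3) ≤ L
      unfold FF at h1
      split_ifs at h1 with h2
      · exact h2.le
      · exact absurd rfl h1)
  beta_reduce at h
  rw [h]
  apply finsum_congr
  intro C
  rw [lenb_mass, rp_spec]

theorem lenData_fin (s : ℤˣ) (hK : Klein ((GG s).map Psi)) (m : ℕ) (L : ℝ) :
    {C : ConjClasses Psi.range |
      FF m L ((Psi (rp C) : (Mat 3)ˣ) : Mat 3) * massP Psi (GG s) (rp C) ≠ 0}.Finite := by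
  refine ((Klein_lengths hK L).image (fun c => (ConjClasses.mk
    (⟨(Quotient.out c : (GG s).map Psi), lenb_le s (Quotient.out c : (GG s).map Psi).2⟩ :
      Psi.range) : ConjClasses Psi.range))).subset ?_
  intro C hC
  have h1 : FF m L ((Psi (rp C) : (Mat 3)ˣ) : Mat 3) ≠ 0 := left_ne_zero_of_mul hC
  have h2 : massP Psi (GG s) (rp C) ≠ 0 := right_ne_zero_of_mul hC
  rw [lenb_mass] at h2
  obtain ⟨c, hc⟩ := not_forall.1 fun h => h2 (finsum_eq_zero_of_forall_eq_zero h)
  split_ifs at hc with h3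
  · obtain ⟨g, hg⟩ := h3
    refine ⟨c, ?_, ?_⟩
    · show chl (((Quotient.out c : (GG s).map Psi) : (Mat 3)ˣ) : Mat 3) ≤ L
      rw [rp_spec] at h1
      rw [← lenb_FF m L (Psi g), hg] at h1
      unfold FF at h1
      split_ifs at h1 with h4
      · exact h4.le
      · exact absurd rfl h1
    · beta_reduce
      have e : C = ConjClasses.mk (Quotient.out C : Psi.range) := (Quotient.out_eq C).symm
      rw [e, ConjClasses.mk_eq_mk_iff_isConj, isConj_iff]
      have hm : Psi g ∈ Psi.range := ⟨g, rfl⟩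
      refine ⟨(⟨Psi g, hm⟩ : Psi.range)⁻¹, ?_⟩
      apply Subtype.ext
      show (Psi g)⁻¹ * ((Quotient.out c : (GG s).map Psi) : (Mat 3)ˣ) * (Psi g)⁻¹⁻¹ =
        ((Quotient.out C : Psi.range) : (Mat 3)ˣ)
      rw [← hg]
      group
  · exact absurd rfl hc

end

end Pool.Agent.Work.MP_14c213_gt
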