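import Pool.Agent.Work.MP_14c213_gt.B.T1B
import Pool.Agent.Work.MP_14c213_gt.B.T2B
import Pool.Agent.Work.MP_14c213_gt.B.EIdx
import Pool.Agent.Work.MP_14c213_gt.B.LenB
import Pool.Agent.Work.MP_14c213_gt.B.ConjK

/-!
The difference of the length data. By lenData_eq, lenData_fin it is the finite sum over C of
FF m L (Psi (rp C)) times the difference of the masses. If FF ≠ 0 then chl = L > 1; if rp C is K-free the difference is
0 (T1); otherwise rp C is conjugate to inKu y (conj_K; massP_congr, chl_conjB), difference 0 if inKu y ∉ GO (T2z).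
diff_some: fix x with chl = L. If y in K^× ∩ GO has chl = L then ‖zr y‖ = ‖zr x‖^{±1} (chl_K), so y x^{∓1} is
a scalar times c^a (tor_E): y is a scalar times x c^a or its inverse; the inverse is σ up to scalars (conj_star), so
the class of Psi (inKu y) is the class of x c^a, a < 6. These six classes are different (class_K: x c^a =
z x c^b gives a = b as (1+ζ)^(a-b) = 1; x c^a = z σ(x c^b) contradicts ‖zr x‖ ≠ 1). Apply T2 to each, idxE_const; the factor
(chl - cth) cancels.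
-/

namespace Pool.Agent.Work.MP_14c213_gt

open Matrix IsDedekindDomain
open scoped Matrix NumberField QuadraticAlgebra

noncomputable section

/-- The class of the image of `γ`. -/
private def finbC (γ : AAˣ) : ConjClasses Psi.range :=
  ConjClasses.mk (⟨Psi γ, ⟨γ, rfl⟩⟩ : Psi.range)

private theorem finb_eq (γ γ' : AAˣ) :
    finbC γ = finbC γ' ↔ ∃ g : AAˣ, Psi (g * γ * g⁻¹) = Psi γ' := by
  rw [finbC, finbC, ConjClasses.mk_eq_mk_iff_isConj, isConj_iff]
  constructor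
  · rintro ⟨⟨_, ⟨g, rfl⟩⟩, h⟩
    refine ⟨g, ?_⟩
    have := congrArg Subtype.val h
    rw [map_mul, map_mul, map_inv]
    exact this
  · rintro ⟨g, hg⟩
    refine ⟨⟨Psi g, ⟨g, rfl⟩⟩, ?_⟩
    apply Subtype.ext
    rw [map_mul, map_mul, map_inv] at hg
    exact hg

private theorem finb_rp (C : ConjClasses Psi.range) : finbC (rp C) = C := by
  have e : C = ConjClasses.mk (Quotient.out C : Psi.range) := (Quotient.out_eq C).symm
  conv_rhs => rw [e]
  rw [finbC]
  congr 1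
  exact Subtype.ext (rp_spec C)

private theorem finb_inv (m : ℕ) (L : ℝ) {γ γ' : AAˣ} (h : finbC γ = finbC γ') :
    FF m L ((Psi γ : (Mat 3)ˣ) : Mat 3) = FF m L ((Psi γ' : (Mat 3)ˣ) : Mat 3) ∧
      ∀ s, massP Psi (GG s) γ = massP Psi (GG s) γ' := by
  obtain ⟨g, hg⟩ := (finb_eq γ γ').1 h
  constructor
  · rw [← hg, FF, FF, (chl_conjB γ g).1, (chl_conjB γ g).2]
  · intro s
    exact (massP_congr Psi (GG s) g hg.symm).symm

/-- The difference of the masses. -/
private def finbD (γ : AAˣ) : ℝ := massP Psi (GG 1) γ - massP Psi (GG (-1)) γ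

private theorem finb_main (m : ℕ) (L : ℝ) (hL : 1 < L) (C : ConjClasses Psi.range)
    (h : FF m L ((Psi (rp C) : (Mat 3)ˣ) : Mat 3) * finbD (rp C) ≠ 0) :
    ∃ y : KKˣ, inKu y ∈ GO ∧ chl ((Psi (inKu y) : (Mat 3)ˣ) : Mat 3) = L ∧
      finbC (inKu y) = C := by
  have h1 := left_ne_zero_of_mul h
  have h2 := right_ne_zero_of_mul h
  have h3 : chl ((Psi (rp C) : (Mat 3)ˣ) : Mat 3) = L := by
    unfold FF at h1
    split_ifs at h1 with h4
    · exact h4
    · exact absurd rfl h1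
  by_cases hK : ∃ x : AA, x * (rp C : AA) = (rp C : AA) * x ∧ x * x + x + 1 = 0
  · obtain ⟨t, y, hy⟩ := conj_K (rp C) hK
    have e : finbC (inKu y) = finbC (rp C) := by
      rw [eq_comm, finb_eq]
      exact ⟨t, by rw [hy]⟩
    refine ⟨y, ?_, ?_, ?_⟩
    · by_contra hyG
      apply h2
      rw [finbD, ← (finb_inv m L e).2 1, ← (finb_inv m L e).2 (-1), T2z y hyG 1, T2z y hyG (-1),
        sub_zero]
    · rw [← hy, (chl_conjB (rp C) t).1, h3]
    · rw [e, finb_rp]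
  · exfalso
    apply h2
    rw [finbD, T1 (rp C) (by rw [h3]; exact hL) hK, sub_self]

private theorem finb_diff (h1 : Klein ((GG 1).map Psi)) (h2 : Klein ((GG (-1)).map Psi)) (m : ℕ)
    (L : ℝ) : lenData ((GG 1).map Psi) m L - lenData ((GG (-1)).map Psi) m L =
      ∑ᶠ C : ConjClasses Psi.range, FF m L ((Psi (rp C) : (Mat 3)ˣ) : Mat 3) * finbD (rp C) := by
  rw [lenData_eq 1 h1, lenData_eq (-1) h2, ← finsum_sub_distrib (lenData_fin 1 h1 m L)
    (lenData_fin (-1) h2 m L)]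
  apply finsum_congr
  intro C
  rw [finbD, mul_sub]

theorem diff_none (h1 : Klein ((GG 1).map Psi)) (h2 : Klein ((GG (-1)).map Psi)) (m : ℕ) (L : ℝ)
    (hL : 1 < L) (h : ¬ ∃ x : KKˣ, inKu x ∈ GO ∧ chl ((Psi (inKu x) : (Mat 3)ˣ) : Mat 3) = L) :
    lenData ((GG 1).map Psi) m L = lenData ((GG (-1)).map Psi) m L := by
  rw [← sub_eq_zero, finb_diff h1 h2]
  apply finsum_eq_zero_of_forall_eq_zero
  intro C
  by_contra hC
  obtain ⟨y, hy1, hy2, -⟩ := finb_main m L hL C hC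
  exact h ⟨y, hy1, hy2⟩

private theorem finb_zr_one : zr 1 = 1 := by
  have h := zr_mul 1 1
  rw [mul_one] at h
  exact (mul_eq_left₀ (zr_ne 1)).1 h.symm

private theorem finb_zr_inv (x : KKˣ) : zr x⁻¹ = (zr x)⁻¹ := by
  have h := zr_mul x x⁻¹
  rw [mul_inv_cancel, finb_zr_one] at h
  exact eq_inv_of_mul_eq_one_right h.symm

private theorem finb_zr_pow (x : KKˣ) (n : ℕ) : zr (x ^ n) = zr x ^ n := by
  induction n with
  | zero => rw [pow_zero, pow_zero, finb_zr_one]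
  | succ n ih => rw [pow_succ, zr_mul, ih, pow_succ]

private theorem finb_norm_c : ‖zr ccu‖ = 1 := by
  rw [zr_ccu, norm_div, Complex.norm_ofNat, div_eq_one_iff_eq (by norm_num)]
  have h : ‖(1 + Complex.I * (Real.sqrt 3 : ℂ) : ℂ)‖ ^ 2 = 2 ^ 2 := by
    rw [← Complex.normSq_eq_norm_sq, Complex.normSq_apply]
    have h3 := Real.mul_self_sqrt (show (0 : ℝ) ≤ 3 by norm_num)
    simp
    linarith
  exact (pow_left_inj₀ (norm_nonneg _) (by norm_num) two_ne_zero).1 h

private theorem finb_norm (x : KKˣ) (a : ℕ) : ‖zr (x * ccu ^ a)‖ = ‖zr x‖ := by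
  rw [zr_mul, finb_zr_pow, norm_mul, norm_pow, finb_norm_c, one_pow, mul_one]

private theorem finb_chl (x : KKˣ) (a : ℕ) : chl ((Psi (inKu (x * ccu ^ a)) : (Mat 3)ˣ) : Mat 3) =
    chl ((Psi (inKu x) : (Mat 3)ˣ) : Mat 3) := by
  rw [chl_K, chl_K, finb_norm]

private theorem finb_star_ne (x : KKˣ) : star (x : KK) ≠ 0 := by
  intro h
  have := congrArg star h
  rw [star_star, star_zero] at this
  exact x.ne_zero this

private theorem finb_star_alg (c : kk) : star (algebraMap kk KK c) = algebraMap kk KK c := by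
  rw [star_KK]
  apply QuadraticAlgebra.ext <;> simp

private theorem finb_zr_star {x y : KKˣ} {z : kk} (hz : z ≠ 0)
    (h : (y : KK) = algebraMap kk KK z * star (x : KK)) : zr y = (zr x)⁻¹ := by
  have h0 : algebraMap kk KK z ≠ 0 := (map_ne_zero _).2 hz
  rw [zr, zr, ← map_inv₀, inv_div, h, star_mul', star_star, finb_star_alg,
    mul_div_mul_left _ _ h0]

private theorem finb_psi {x y : KKˣ} {z : kk} (hz : z ≠ 0)
    (h : (y : KK) = algebraMap kk KK z * (x : KK)) : Psi (inKu y) = Psi (inKu x) := by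
  have h1 : (inKu x)⁻¹ * inKu y ∈ ZZ := by
    rw [← map_inv, ← map_mul, mem_ZZ]
    refine ⟨z, hz, ?_⟩
    have e : ((x⁻¹ * y : KKˣ) : KK) = algebraMap kk KK z := by
      rw [Units.val_mul, h, mul_left_comm, Units.inv_mul, mul_one]
    show inK ((x⁻¹ * y : KKˣ) : KK) = _
    rw [e]
    apply QuaternionAlgebra.ext <;> simp [inK, mkA]
  have h2 := (Psi_ker _).2 h1
  rw [map_mul, map_inv, inv_mul_eq_one] at h2
  exact h2.symm

private theorem finb_cc (n : ℕ) (hn : n < 6) (h : (cc ^ n).im = 0) : n = 0 := by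
  have h2 : cc ^ 2 = ⟨3, 3⟩ := by
    rw [pow_two]
    apply QuadraticAlgebra.ext <;> simp [cc] <;> norm_num
  have h3 : cc ^ 3 = ⟨3, 6⟩ := by
    rw [pow_succ, h2]
    apply QuadraticAlgebra.ext <;> simp [cc] <;> norm_num
  have h4 : cc ^ 4 = ⟨0, 9⟩ := by
    rw [pow_succ, h3]
    apply QuadraticAlgebra.ext <;> simp [cc] <;> norm_num
  have h5 : cc ^ 5 = ⟨-9, 9⟩ := by
    rw [pow_succ, h4]
    apply QuadraticAlgebra.ext <;> simp [cc] <;> norm_num
  interval_cases n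
  · rfl
  · rw [pow_one] at h
    simp [cc] at h
  · rw [h2] at h
    norm_num at h
  · rw [h3] at h
    norm_num at h
  · rw [h4] at h
    norm_num at h
  · rw [h5] at h
    norm_num at h

private theorem finb_inj1 {a b : ℕ} (hb : b < 6) (hab : a ≤ b) {x : KKˣ} {z : kk}
    (h : ((x * ccu ^ b : KKˣ) : KK) = algebraMap kk KK z * ((x * ccu ^ a : KKˣ) : KK)) : a = b := by
  obtain ⟨n, rfl⟩ := Nat.exists_eq_add_of_le hab
  have e : (ccu : KK) = cc := rfl
  have h1 : cc ^ n = algebraMap kk KK z := by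
    have h2 : ((x * ccu ^ a : KKˣ) : KK) * cc ^ n = ((x * ccu ^ a : KKˣ) : KK) * algebraMap kk KK z := by
      rw [mul_comm _ (algebraMap kk KK z), ← h, Units.val_mul, Units.val_mul, Units.val_pow_eq_pow_val,
        Units.val_pow_eq_pow_val, e, pow_add]
      ring
    exact mul_left_cancel₀ (Units.ne_zero _) h2
  have h3 : n = 0 := by
    apply finb_cc n (by omega)
    rw [h1]
    rfl
  omega

private theorem finb_inj {x : KKˣ} (hc : 1 < chl ((Psi (inKu x) : (Mat 3)ˣ) : Mat 3)) {a b : ℕ}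
    (ha : a < 6) (hb : b < 6) (h : finbC (inKu (x * ccu ^ a)) = finbC (inKu (x * ccu ^ b))) :
    a = b := by
  obtain ⟨g, hg⟩ := (finb_eq _ _).1 h
  obtain ⟨z, hz, h1 | h1⟩ := class_K _ _ g hg
  · rcases le_total a b with hab | hab
    · exact finb_inj1 hb hab h1
    · refine (finb_inj1 (x := x) (z := z⁻¹) ha hab ?_).symm
      rw [h1, ← mul_assoc, ← map_mul, inv_mul_cancel₀ hz, map_one, one_mul]
  · exfalso
    have h2 := finb_zr_star hz h1
    have h3 := congrArg norm h2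
    rw [norm_inv, finb_norm, finb_norm] at h3
    have h0 : ‖zr x‖ ≠ 0 := norm_ne_zero_iff.2 (zr_ne x)
    have h4 : ‖zr x‖ * ‖zr x‖ = 1 := by
      nth_rewrite 2 [h3]
      exact mul_inv_cancel₀ h0
    have h5 : ‖zr x‖ = 1 := by nlinarith [norm_nonneg (zr x)]
    rw [chl_K, h5] at hc
    norm_num at hc

private theorem finb_find {x : KKˣ} (hx : inKu x ∈ GO) {y : KKˣ} (hy : inKu y ∈ GO)
    (h : ‖zr y‖ = ‖zr x‖) : ∃ a < 6, finbC (inKu (x * ccu ^ a)) = finbC (inKu y) := by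
  have h0 : ‖zr x‖ ≠ 0 := norm_ne_zero_iff.2 (zr_ne x)
  obtain ⟨a, ha, z, hz, e⟩ := tor_E (y * x⁻¹) (by
    rw [map_mul, map_inv]
    exact GO.mul_mem hy (GO.inv_mem hx)) (by
    rw [zr_mul, finb_zr_inv, norm_mul, norm_inv, h, mul_inv_cancel₀ h0])
  refine ⟨a, ha, ?_⟩
  rw [finb_eq]
  refine ⟨1, ?_⟩
  rw [one_mul, inv_one, mul_one, eq_comm]
  refine finb_psi hz ?_
  have e1 : (y : KK) = ((y * x⁻¹ : KKˣ) : KK) * (x : KK) := by
    rw [← Units.val_mul, inv_mul_cancel_right]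
  have e2 : (ccu : KK) = cc := rfl
  rw [e1, e, Units.val_mul, Units.val_pow_eq_pow_val, e2]
  ring

private theorem finb_find' {x : KKˣ} (hx : inKu x ∈ GO) {y : KKˣ} (hy : inKu y ∈ GO)
    (h : chl ((Psi (inKu y) : (Mat 3)ˣ) : Mat 3) = chl ((Psi (inKu x) : (Mat 3)ˣ) : Mat 3)) :
    ∃ a < 6, finbC (inKu (x * ccu ^ a)) = finbC (inKu y) := by
  have h0 : 0 < ‖zr x‖ := norm_pos_iff.2 (zr_ne x)
  have h1 : 0 < ‖zr y‖ := norm_pos_iff.2 (zr_ne y)
  rw [chl_K, chl_K] at h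
  have h2 : (‖zr y‖ - ‖zr x‖) * (‖zr y‖ - ‖zr x‖⁻¹) = 0 := by
    have h3 : ‖zr y‖ + ‖zr y‖⁻¹ = ‖zr x‖ + ‖zr x‖⁻¹ := by linarith
    have h4 : ‖zr y‖ * ‖zr y‖⁻¹ = 1 := mul_inv_cancel₀ h1.ne'
    have h5 : ‖zr x‖ * ‖zr x‖⁻¹ = 1 := mul_inv_cancel₀ h0.ne'
    linear_combination ‖zr y‖ * h3 - h4 + h5
  rcases mul_eq_zero.1 h2 with h3 | h3
  · exact finb_find hx hy (by linarith)
  · have h4 : ‖zr y‖ = ‖zr x‖⁻¹ := by linarith
    let y' : KKˣ := Units.mk0 (star (y : KK)) (finb_star_ne y)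
    have hy' : (y' : KK) = star (y : KK) := rfl
    obtain ⟨g, hg⟩ := conj_star y y' hy'
    have h5 : inKu y' ∈ GO := by
      apply conj_GO y' g
      rw [← hg]
      have : g⁻¹ * (g * inKu y * g⁻¹) * g = inKu y := by group
      rw [this]
      exact hy
    have h6 : zr y' = (zr y)⁻¹ := by
      refine finb_zr_star (z := 1) one_ne_zero ?_
      rw [map_one, one_mul]
      exact hy'
    obtain ⟨a, ha, e⟩ := finb_find hx h5 (by rw [h6, norm_inv, h4, inv_inv])
    refine ⟨a, ha, ?_⟩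
    rw [e, eq_comm, finb_eq]
    exact ⟨g, by rw [hg]⟩

theorem diff_some (h1 : Klein ((GG 1).map Psi)) (h2 : Klein ((GG (-1)).map Psi)) (m : ℕ) (L : ℝ)
    (hL : 1 < L) (x : KKˣ) (hx : inKu x ∈ GO) (hc : chl ((Psi (inKu x) : (Mat 3)ˣ) : Mat 3) = L) :
    lenData ((GG 1).map Psi) m L - lenData ((GG (-1)).map Psi) m L =
      -((GG 1).relIndex GO : ℝ) / (idxE x : ℝ) *
      ∑ a ∈ Finset.range 6, (kapg (x * ccu ^ a) : ℝ) * (((lam (x * ccu ^ a) : ℤˣ) : ℤ) : ℝ) *
        cth ((Psi (inKu (x * ccu ^ a)) : (Mat 3)ˣ) : Mat 3) ^ m := by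
  classical
  have hc' : 1 < chl ((Psi (inKu x) : (Mat 3)ˣ) : Mat 3) := by rw [hc]; exact hL
  rw [finb_diff h1 h2, finsum_eq_sum_of_support_subset (s := (Finset.range 6).image
    (fun a => finbC (inKu (x * ccu ^ a)))) _ ?_, Finset.sum_image ?_, Finset.mul_sum]
  · apply Finset.sum_congr rfl
    intro a _
    have e := finb_inv m L (finb_rp (finbC (inKu (x * ccu ^ a))))
    have hG : inKu (x * ccu ^ a) ∈ GO := by
      rw [map_mul, map_pow]
      exact GO.mul_mem hx (GO.pow_mem ccu_GO a)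
    rw [finbD, e.1, e.2, e.2, T2 (x * ccu ^ a) hG (by rw [finb_chl]; exact hc'), FF,
      if_pos (by rw [finb_chl, hc]), finb_chl, hc, idxE_const x hx hc' a]
    have h3 : L - cth ((Psi (inKu (x * ccu ^ a)) : (Mat 3)ˣ) : Mat 3) ≠ 0 := by
      have h4 : cth ((Psi (inKu (x * ccu ^ a)) : (Mat 3)ˣ) : Mat 3) ≤ 1 := by
        rw [cth_K]
        have h5 : 0 < ‖zr (x * ccu ^ a)‖ := norm_pos_iff.2 (zr_ne _)
        rw [div_le_one h5]
        exact Complex.re_le_norm _
      linarith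
    field_simp
  · intro a ha b hb hab
    rw [Finset.mem_coe, Finset.mem_range] at ha hb
    exact finb_inj hc' ha hb hab
  · intro C hC
    obtain ⟨y, hy1, hy2, hy3⟩ := finb_main m L hL C hC
    obtain ⟨a, ha, e⟩ := finb_find' hx hy1 (by rw [hy2, hc])
    rw [Finset.coe_image]
    exact ⟨a, by simpa using ha, by beta_reduce; rw [e, hy3]⟩

end

end Pool.Agent.Work.MP_14c213_gt
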