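import Pool.Agent.Work.MP_14c213_gt.BDefs

/-!
Field facts. star on KK = QuadraticAlgebra kk (-1) (-1) is σ : x₀ + x₁ζ ↦ x₀ - x₁ - x₁ζ, x * star x = NK x.
All computations are componentwise (QuadraticAlgebra.ext twice, then norm_num / ring).
-/

namespace Pool.Agent.Work.MP_14c213_gt

open Matrix IsDedekindDomain
open scoped Matrix NumberField QuadraticAlgebra

noncomputable section

theorem star_KK (x : KK) : star x = ⟨x.re - x.im, -x.im⟩ := by
  ext1
  · simp [QuadraticAlgebra.re_star, sub_eq_add_neg]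
  · simp [QuadraticAlgebra.im_star]

theorem mul_star_KK (x : KK) : x * star x = algebraMap kk KK (NK x) := by
  rw [star_KK]
  ext1
  · simp only [QuadraticAlgebra.re_mul, QuadraticAlgebra.algebraMap_re, NK]
    ring
  · simp only [QuadraticAlgebra.im_mul, QuadraticAlgebra.algebraMap_im, NK]
    ring

theorem NK_ne {x : KK} (hx : x ≠ 0) : NK x ≠ 0 := by
  intro h
  have h1 := mul_star_KK x
  rw [h, map_zero] at h1
  rcases mul_eq_zero.1 h1 with h2 | h2
  · exact hx h2
  · exact hx (star_eq_zero.1 h2)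

theorem NK_star (x : KK) : NK (star x) = NK x := by
  rw [star_KK]
  simp only [NK]
  ring

theorem NK_algebraMap (z : kk) : NK (algebraMap kk KK z) = z ^ 2 := by
  simp only [NK, QuadraticAlgebra.algebraMap_re, QuadraticAlgebra.algebraMap_im]
  ring

theorem eps_sq : eps * eps = eps + 1 := by
  ext <;> simp [eps] <;> norm_num

theorem NK_eps : NK eps = -1 := by
  ext <;> simp [eps, NK, pow_two] <;> norm_num

theorem uu_eq : uu = -(eps * eps) := by
  have h0 : star eps ≠ 0 := by
    intro h
    have h1 := mul_star_KK eps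
    rw [h, mul_zero, NK_eps] at h1
    simp at h1
  rw [uu, div_eq_iff h0]
  have h2 := mul_star_KK eps
  rw [NK_eps, map_neg, map_one] at h2
  linear_combination eps * h2

theorem NK_cc : NK cc = 3 := by
  simp only [NK, cc]
  norm_num

theorem cc_div : cc / star cc = 1 + zeta := by
  have h0 : star cc ≠ 0 := by
    intro h
    have h1 := mul_star_KK cc
    rw [h, mul_zero, NK_cc] at h1
    have h2 := (map_eq_zero (algebraMap kk KK)).1 h1.symm
    norm_num at h2
  rw [div_eq_iff h0, star_KK]
  ext <;> simp [cc, zeta] <;> norm_num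

theorem zeta_rel : zeta * zeta + zeta + 1 = 0 := by
  ext <;> simp [zeta]

theorem xp_mul (g h : AA) :
    xp (g * h) = xp g * xp h + algebraMap kk KK bq * (yp g * star (yp h)) := by
  rw [star_KK]
  apply QuadraticAlgebra.ext
  · simp only [xp, yp, QuaternionAlgebra.re_mul, QuadraticAlgebra.re_add, QuadraticAlgebra.re_mul,
      QuadraticAlgebra.algebraMap_re, QuadraticAlgebra.algebraMap_im]
    ring
  · simp only [xp, yp, QuaternionAlgebra.imI_mul, QuadraticAlgebra.im_add, QuadraticAlgebra.im_mul,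
      QuadraticAlgebra.algebraMap_re, QuadraticAlgebra.algebraMap_im]
    ring

theorem yp_mul (g h : AA) : yp (g * h) = xp g * yp h + yp g * star (xp h) := by
  rw [star_KK]
  apply QuadraticAlgebra.ext
  · simp only [xp, yp, QuaternionAlgebra.imJ_mul, QuadraticAlgebra.re_add, QuadraticAlgebra.re_mul]
    ring
  · simp only [xp, yp, QuaternionAlgebra.imK_mul, QuadraticAlgebra.im_add, QuadraticAlgebra.im_mul]
    ring

private theorem fldB_ext {g h : AA} (h1 : xp g = xp h) (h2 : yp g = yp h) : g = h := by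
  have e1 := congrArg QuadraticAlgebra.re h1
  have e2 := congrArg QuadraticAlgebra.im h1
  have e3 := congrArg QuadraticAlgebra.re h2
  have e4 := congrArg QuadraticAlgebra.im h2
  exact QuaternionAlgebra.ext e1 e2 e3 e4

private theorem fldB_xp (x y : KK) : xp (mkA x y) = x := rfl

private theorem fldB_yp (x y : KK) : yp (mkA x y) = y := rfl

theorem mkA_eta (g : AA) : mkA (xp g) (yp g) = g := rfl

theorem mkA_mul (x y x' y' : KK) : mkA x y * mkA x' y' =
    mkA (x * x' + algebraMap kk KK bq * (y * star y')) (x * y' + y * star x') := by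
  apply fldB_ext
  · rw [xp_mul, fldB_xp, fldB_xp, fldB_yp, fldB_yp, fldB_xp]
  · rw [yp_mul, fldB_xp, fldB_xp, fldB_yp, fldB_yp, fldB_yp]

/-- The canonical involution: `g * cj g = nrd g`. -/
def cj (g : AA) : AA := mkA (star (xp g)) (-yp g)

private theorem fldB_alg (z : kk) : algebraMap kk AA z = mkA (algebraMap kk KK z) 0 := by
  apply QuaternionAlgebra.ext <;> simp [mkA]

theorem mul_cj (g : AA) : g * cj g = algebraMap kk AA (nrd g) ∧ cj g * g = algebraMap kk AA (nrd g) := by
  have e1 : algebraMap kk KK (nrd g) = xp g * star (xp g) -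
      algebraMap kk KK bq * (yp g * star (yp g)) := by
    rw [mul_star_KK, mul_star_KK, nrd, map_sub, map_mul]
  constructor
  · rw [fldB_alg, e1]
    conv_lhs => rw [← mkA_eta g]
    rw [cj, mkA_mul, fldB_xp, fldB_yp, star_neg, star_star]
    congr 1 <;> ring
  · rw [fldB_alg, e1]
    conv_lhs => rw [← mkA_eta g]
    rw [cj, mkA_mul, fldB_xp, fldB_yp]
    congr 1 <;> ring

/-- The reduced trace. -/
def trd (g : AA) : kk := 2 * g.re - g.imI

theorem add_cj (g : AA) : g + cj g = algebraMap kk AA (trd g) := by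
  rw [fldB_alg]
  apply QuaternionAlgebra.ext
  · simp only [cj, mkA, star_KK, trd, QuaternionAlgebra.re_add, xp, QuadraticAlgebra.algebraMap_re]
    ring
  · simp only [cj, mkA, star_KK, QuaternionAlgebra.imI_add, xp, QuadraticAlgebra.algebraMap_im]
    ring
  · simp [cj, mkA, yp]
  · simp [cj, mkA, yp]

theorem cj_mul (g h : AA) : cj (g * h) = cj h * cj g := by
  have hb : star (algebraMap kk KK bq) = algebraMap kk KK bq := by
    rw [star_KK]
    apply QuadraticAlgebra.ext <;> simp
  rw [cj, cj, cj, mkA_mul, xp_mul, yp_mul]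
  congr 1
  · rw [star_add, star_mul, star_mul, star_mul, star_star, hb, star_neg]
    ring
  · rw [star_star]
    ring

/-- Elements of `K` as elements of `A`. -/
def inK (x : KK) : AA := mkA x 0

theorem inK_mul (x y : KK) : inK (x * y) = inK x * inK y := by
  rw [inK, inK, inK, mkA_mul]
  congr 1 <;> simp

theorem inK_add (x y : KK) : inK (x + y) = inK x + inK y := by
  apply QuaternionAlgebra.ext <;> simp [inK, mkA]

theorem inK_one : inK 1 = 1 := by
  apply QuaternionAlgebra.ext <;> simp [inK, mkA]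

theorem nrd_inK (x : KK) : nrd (inK x) = NK x := by
  rw [nrd, inK, fldB_xp, fldB_yp]
  simp [NK]

/-- Units of `K` as units of `A`. -/
def inKu : KKˣ →* AAˣ where
  toFun x := ⟨inK x, inK ((x⁻¹ : KKˣ) : KK), by rw [← inK_mul, Units.mul_inv, inK_one],
    by rw [← inK_mul, Units.inv_mul, inK_one]⟩
  map_one' := Units.ext inK_one
  map_mul' x y := Units.ext (inK_mul _ _)

/-- Scalars. -/
def ZZ : Subgroup AAˣ := (Units.map (algebraMap kk AA : kk →* AA)).range

theorem mem_ZZ (g : AAˣ) : g ∈ ZZ ↔ ∃ z : kk, z ≠ 0 ∧ (g : AA) = algebraMap kk AA z := by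
  constructor
  · rintro ⟨z, rfl⟩
    exact ⟨z, z.ne_zero, rfl⟩
  · rintro ⟨z, hz, h⟩
    exact ⟨Units.mk0 z hz, Units.ext h.symm⟩

end

end Pool.Agent.Work.MP_14c213_gt
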