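import Pool.Agent.Work.MP_14c213_gt.B.ZetaB
import Pool.Agent.Work.MP_14c213_gt.B.CenB
import Pool.Agent.Work.MP_14c213_gt.B.OrdB
import Pool.Agent.Work.MP_14c213_gt.B.SplGen

/-!
L = k(γ): the quadratic field QuadraticAlgebra kk (-(nrd γ)) (trd γ), mapped to A by x₀ + x₁ω ↦ x₀ + x₁γ, norm = nrd.
It has no root of x² + x + 1, so zeta_prime gives P with absNorm P = 2 mod 3. Let v = P ∩ 𝓞 kk: the residue degree f is
odd, and om v = -1. Take a ∈ 𝓞 L with (a) = P J, J prime to v 𝓞 L; relNorm P = v^f,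
relNorm J is prime to v: ord v (nrd a) = f.
-/

namespace Pool.Agent.Work.MP_14c213_gt

open Matrix IsDedekindDomain
open scoped Matrix NumberField QuadraticAlgebra

noncomputable section

private theorem flip_rel (k L : Type) [Field k] [NumberField k] [Field L] [NumberField L] [Algebra k L]
    (p : Ideal (𝓞 k)) (hp : p.IsPrime) (J : Ideal (𝓞 L)) (hJ : J ≠ ⊥)
    (h : p.map (algebraMap (𝓞 k) (𝓞 L)) ⊔ J = ⊤) : ¬ Ideal.relNorm (𝓞 k) J ≤ p := by
  classical
  have h1 : (UniqueFactorizationMonoid.normalizedFactors J).prod = J := Ideal.prod_normalizedFactors_eq_self hJ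
  have h2 : ¬ Ideal.relNorm (𝓞 k) ((UniqueFactorizationMonoid.normalizedFactors J).prod) ≤ p := by
    refine Multiset.prod_induction (fun I => ¬ Ideal.relNorm (𝓞 k) I ≤ p) _ ?_ ?_ ?_
    · intro I I' hI hI' hle
      rw [map_mul] at hle
      rcases (hp.mul_le).1 hle with h3 | h3
      · exact hI h3
      · exact hI' h3
    · rw [map_one, Ideal.one_eq_top]
      intro h3
      exact hp.ne_top (top_le_iff.1 h3)
    · intro Q hQ hle
      have hQ0 : Q ≠ ⊥ := UniqueFactorizationMonoid.ne_zero_of_mem_normalizedFactors hQ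
      have hQ2 := (Ideal.mem_normalizedFactors_iff hJ).1 hQ
      have hQp : Q.IsPrime := hQ2.1
      have hQm : Q.IsMaximal := Ring.DimensionLEOne.maximalOfPrime hQ0 hQp
      set q : Ideal (𝓞 k) := Q.under (𝓞 k) with hq
      have hqp : q.IsPrime := inferInstance
      have hq0 : q ≠ ⊥ := by
        intro h
        have : Q.LiesOver q := inferInstance
        rw [h] at this
        exact hQ0 (Ideal.eq_bot_of_liesOver_bot (𝓞 k) Q)
      have hqm : q.IsMaximal := Ring.DimensionLEOne.maximalOfPrime hq0 hqp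
      have h3 : Ideal.relNorm (𝓞 k) Q = q ^ Q.inertiaDeg (𝓞 k) := Ideal.relNorm_eq_pow_of_isMaximal Q q
      rw [h3] at hle
      have h4 : q ≤ p := hp.le_of_pow_le hle
      have h5 : q = p := hqm.eq_of_le hp.ne_top h4
      have h6 : p.map (algebraMap (𝓞 k) (𝓞 L)) ≤ Q := by
        rw [← h5, Ideal.map_le_iff_le_comap]
      have h7 : (⊤ : Ideal (𝓞 L)) ≤ Q := by
        rw [← h]
        exact sup_le h6 hQ2.2
      exact hQp.ne_top (top_le_iff.1 h7)
  rwa [h1] at h2

private theorem flip_abs (k L : Type) [Field k] [NumberField k] [Field L] [NumberField L] [Algebra k L]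
    (P : HeightOneSpectrum (𝓞 L)) (hP : Ideal.absNorm P.asIdeal % 3 = 2) :
    ∃ (v : HeightOneSpectrum (𝓞 k)) (a : 𝓞 L) (f : ℕ), Ideal.absNorm v.asIdeal % 3 = 2 ∧ a ≠ 0 ∧
      Odd f ∧ Algebra.intNorm (𝓞 k) (𝓞 L) a ∈ v.asIdeal ^ f ∧
      Algebra.intNorm (𝓞 k) (𝓞 L) a ∉ v.asIdeal ^ (f + 1) := by
  classical
  have hPp := P.isPrime
  have hPm := P.isMaximal
  set p : Ideal (𝓞 k) := P.asIdeal.under (𝓞 k) with hp
  have hpp : p.IsPrime := inferInstance
  have hp0 : p ≠ ⊥ := by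
    intro h
    have : P.asIdeal.LiesOver p := inferInstance
    rw [h] at this
    exact P.ne_bot (Ideal.eq_bot_of_liesOver_bot (𝓞 k) P.asIdeal)
  have hpm : p.IsMaximal := Ring.DimensionLEOne.maximalOfPrime hp0 hpp
  set f := P.asIdeal.inertiaDeg (𝓞 k) with hf
  have h1 : Ideal.relNorm (𝓞 k) P.asIdeal = p ^ f := Ideal.relNorm_eq_pow_of_isMaximal P.asIdeal p
  have h2 : Ideal.absNorm P.asIdeal = Ideal.absNorm p ^ f := by
    rw [← Ideal.absNorm_relNorm (R := 𝓞 k), h1, map_pow]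
  have h3 : Ideal.absNorm p % 3 = 2 ∧ Odd f := by
    rw [h2, Nat.pow_mod] at hP
    have h4 : Ideal.absNorm p % 3 < 3 := Nat.mod_lt _ (by norm_num)
    rcases Nat.even_or_odd' f with ⟨m, hm | hm⟩
    · exfalso
      rw [hm, pow_mul] at hP
      interval_cases h5 : Ideal.absNorm p % 3
      · rcases Nat.eq_zero_or_pos m with h6 | h6
        · rw [h6] at hP; norm_num at hP
        · rw [zero_pow two_ne_zero, zero_pow h6.ne'] at hP; norm_num at hP
      · rw [one_pow, one_pow] at hP; norm_num at hP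
      · rw [Nat.pow_mod] at hP
        norm_num at hP
    · refine ⟨?_, ⟨m, hm⟩⟩
      interval_cases h5 : Ideal.absNorm p % 3
      · rw [zero_pow (by omega)] at hP; norm_num at hP
      · rw [one_pow] at hP; norm_num at hP
      · rfl
  set V : Ideal (𝓞 L) := p.map (algebraMap (𝓞 k) (𝓞 L)) with hV
  have hV0 : V ≠ ⊥ := by
    intro h
    exact hp0 ((Ideal.map_eq_bot_iff_of_injective
      (FaithfulSMul.algebraMap_injective (𝓞 k) (𝓞 L))).1 h)
  have hVP : V ≤ P.asIdeal := Ideal.map_le_iff_le_comap.2 le_rfl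
  obtain ⟨a, ha⟩ := IsDedekindDomain.exists_sup_span_eq (I := P.asIdeal * V) (J := P.asIdeal) Ideal.mul_le_left
    (mul_ne_zero P.ne_bot hV0)
  have ha1 : Ideal.span {a} ≤ P.asIdeal := by
    rw [← ha]
    exact le_sup_right
  obtain ⟨J, hJ⟩ := Ideal.dvd_iff_le.2 ha1
  have hVJ : V ⊔ J = ⊤ := by
    have h5 : P.asIdeal * (V ⊔ J) = P.asIdeal * ⊤ := by
      rw [Ideal.mul_sup, ← hJ, ha, Ideal.mul_top]
    exact mul_left_cancel₀ P.ne_bot h5
  have ha0 : a ≠ 0 := by
    rintro rfl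
    have h5 : Ideal.span {(0 : 𝓞 L)} = ⊥ := by simp
    rw [h5] at hJ
    have h6 : J = ⊥ := by
      rcases mul_eq_zero.1 hJ.symm with h6 | h6
      · exact absurd h6 P.ne_bot
      · exact h6
    rw [h6, sup_bot_eq] at hVJ
    exact hPp.ne_top (top_le_iff.1 (hVJ ▸ hVP))
  have hJ0 : J ≠ ⊥ := by
    intro h
    rw [h, Ideal.mul_bot, Ideal.span_singleton_eq_bot] at hJ
    exact ha0 hJ
  have hN : Ideal.span {Algebra.intNorm (𝓞 k) (𝓞 L) a} = p ^ f * Ideal.relNorm (𝓞 k) J := by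
    rw [← Ideal.relNorm_singleton, hJ, map_mul, h1]
  have hrel := flip_rel k L p hpp J hJ0 hVJ
  refine ⟨⟨p, hpp, hp0⟩, a, f, h3.1, ha0, h3.2, ?_, ?_⟩
  · rw [← Ideal.span_singleton_le_iff_mem, hN]
    exact Ideal.mul_le_left
  · rw [← Ideal.span_singleton_le_iff_mem, hN]
    intro hle
    rw [← Ideal.dvd_iff_le, pow_succ] at hle
    have h5 := (mul_dvd_mul_iff_left (pow_ne_zero f hp0)).1 hle
    exact hrel (Ideal.dvd_iff_le.1 h5)

theorem flip (γ : AAˣ) (hγ : γ ∉ ZZ) (hK : ¬ ∃ x : AA, x * γ = γ * x ∧ x * x + x + 1 = 0) :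
    ∃ (v : Pl) (t : AAˣ), om v = -1 ∧ t * γ = γ * t ∧ Odd (ord v (nrd (t : AA))) := by
  have hsq : (γ : AA) * γ = (-(nrd (γ : AA))) • (1 : AA) + trd (γ : AA) • (γ : AA) := by
    have h1 := add_cj (γ : AA)
    have h2 := (mul_cj (γ : AA)).1
    have h3 : cj (γ : AA) = algebraMap kk AA (trd (γ : AA)) - γ := by rw [← h1]; abel
    rw [h3, mul_sub, ← Algebra.commutes, ← Algebra.smul_def] at h2
    rw [neg_smul, ← Algebra.algebraMap_eq_smul_one, ← h2]
    abel
  have hfact : Fact (∀ r : kk, r ^ 2 ≠ -(nrd (γ : AA)) + trd (γ : AA) * r) := ⟨by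
    intro r hr
    have h1 : nrd ((γ : AA) - algebraMap kk AA r) = 0 := by
      have h2 : nrd ((γ : AA) - algebraMap kk AA r) = r ^ 2 - trd (γ : AA) * r + nrd (γ : AA) := by
        rw [Algebra.algebraMap_eq_smul_one]
        simp only [nrd, NK, trd, xp, yp, QuaternionAlgebra.re_sub, QuaternionAlgebra.imI_sub,
          QuaternionAlgebra.imJ_sub, QuaternionAlgebra.imK_sub, QuaternionAlgebra.re_smul,
          QuaternionAlgebra.imI_smul, QuaternionAlgebra.imJ_smul, QuaternionAlgebra.imK_smul,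
          QuaternionAlgebra.re_one, QuaternionAlgebra.imI_one, QuaternionAlgebra.imJ_one,
          QuaternionAlgebra.imK_one, smul_eq_mul]
        ring
      rw [h2, hr]
      ring
    have h3 := (nrd_eq_zero _).1 h1
    rw [sub_eq_zero] at h3
    refine hγ ((mem_ZZ γ).2 ⟨r, ?_, h3⟩)
    rintro rfl
    rw [map_zero] at h3
    exact γ.ne_zero h3⟩
  let L := QuadraticAlgebra kk (-(nrd (γ : AA))) (trd (γ : AA))
  have hfin : Module.Finite ℚ L := by
    have h1 : Module.Finite kk L := inferInstance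
    exact Module.Finite.trans kk L
  have hchar : CharZero L := charZero_of_injective_algebraMap (algebraMap kk L).injective
  have hNF : NumberField L := ⟨⟩
  let φ : L →ₐ[kk] AA := QuadraticAlgebra.lift ⟨(γ : AA), hsq⟩
  have hφ : ∀ z : L, φ z = z.re • (1 : AA) + z.im • (γ : AA) := fun z => rfl
  have hcomm : ∀ z : L, φ z * γ = γ * φ z := by
    intro z
    rw [hφ, add_mul, mul_add, smul_mul_assoc, smul_mul_assoc, mul_smul_comm, mul_smul_comm, one_mul, mul_one]
  have hnrd : ∀ z : L, nrd (φ z) = QuadraticAlgebra.norm z := by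
    intro z
    rw [hφ, QuadraticAlgebra.norm_def]
    simp only [nrd, NK, trd, xp, yp, QuaternionAlgebra.re_add, QuaternionAlgebra.imI_add,
          QuaternionAlgebra.imJ_add, QuaternionAlgebra.imK_add, QuaternionAlgebra.re_smul,
          QuaternionAlgebra.imI_smul, QuaternionAlgebra.imJ_smul, QuaternionAlgebra.imK_smul,
          QuaternionAlgebra.re_one, QuaternionAlgebra.imI_one, QuaternionAlgebra.imJ_one,
          QuaternionAlgebra.imK_one, smul_eq_mul]
    ring
  obtain ⟨P, hP⟩ := zeta_prime L (by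
    rintro ⟨x, hx⟩
    refine hK ⟨φ x, hcomm x, ?_⟩
    rw [← map_mul, ← map_add, ← map_one φ, ← map_add, ← pow_two, hx, map_zero])
  obtain ⟨v, a, f, hv, ha, hf, h1, h2⟩ := flip_abs kk L P hP
  have ha' : ((a : 𝓞 L) : L) ≠ 0 := by simpa using ha
  have hφa : φ (a : L) ≠ 0 := by
    intro h
    have h3 := hnrd (a : L)
    rw [h, (nrd_eq_zero 0).2 rfl] at h3
    exact ha' (QuadraticAlgebra.norm_eq_zero_iff_eq_zero.1 h3.symm)
  obtain ⟨t, ht⟩ := exists_unit hφa
  refine ⟨v, t, ?_, ?_, ?_⟩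
  · rw [om, if_neg]
    rw [hv]
    norm_num
  · apply Units.ext
    rw [Units.val_mul, Units.val_mul, ht]
    exact hcomm _
  · have h3 : nrd (t : AA) = algebraMap (𝓞 kk) kk (Algebra.intNorm (𝓞 kk) (𝓞 L) a) := by
      rw [Algebra.algebraMap_intNorm (A := 𝓞 kk) (K := kk) (L := L) (B := 𝓞 L), ht, hnrd, Algebra.norm_apply]
      exact (QuadraticAlgebra.det_toLinearMap_eq_norm (a : L)).symm
    rw [h3, ord, HeightOneSpectrum.valuation_of_algebraMap]
    set n := Algebra.intNorm (𝓞 kk) (𝓞 L) a with hn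
    have hn0 : n ≠ 0 := by
      intro h
      apply h2
      rw [h]
      exact Ideal.zero_mem _
    have hval : v.intValuation n ≠ 0 := v.intValuation_ne_zero n hn0
    have k1 := (v.intValuation_le_pow_iff_mem n f).2 h1
    have k2 : ¬ v.intValuation n ≤ _ := fun h => h2 ((v.intValuation_le_pow_iff_mem n (f + 1)).1 h)
    have e := WithZero.exp_log hval
    rw [← e, WithZero.exp_le_exp] at k1 k2
    have k3 : -WithZero.log (v.intValuation n) = f := by
      push_cast at k2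
      omega
    rw [k3]
    exact_mod_cast hf

end

end Pool.Agent.Work.MP_14c213_gt
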