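import Pool.Agent.Work.MP_14c213_gt.B.NormLift
import Pool.Agent.Work.MP_14c213_gt.B.PowB
import Pool.Agent.Work.MP_14c213_gt.B.S4b

/-!
# A hyperbolic element at a place away from the bad set

For a place `v` outside `SS4` there is an element of reduced norm one of the quaternion algebra which is
integral, together with its inverse, at all places outside `SS4` and different from `v`, and whose reduced
trace is not integral at `v`.  The element is found by the pigeonhole principle in the lattices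
of the maximal order congruent to a rank one pattern modulo powers of a generator of a power of `v`.
-/

namespace Pool.Agent.Work.MP_14c213_gt

open Matrix IsDedekindDomain
open scoped Matrix NumberField QuadraticAlgebra

noncomputable section

namespace HypB

theorem val_coe_ne (w : Pl) {x : kk} (hx : x ≠ 0) : w.valuation kk x ≠ 0 := by simpa using hx

theorem val_eq_exp (w : Pl) {x : kk} (hx : x ≠ 0) : w.valuation kk x = WithZero.exp (-(ord w x)) := by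
  rw [ord, neg_neg, WithZero.exp_log (val_coe_ne w hx)]

/-- Divisibility by powers of `p`. -/
theorem dvd_of_mem {v : Pl} {p : 𝓞 kk} {h : ℕ} (hp : p ≠ 0) (hv : ord v (p : kk) = h)
    (hw : ∀ w, w ≠ v → ord w (p : kk) = 0) (n : ℕ) {z : 𝓞 kk} (hz : z ∈ v.asIdeal ^ (h * n)) :
    p ^ n ∣ z := by
  have hp' : (p : kk) ≠ 0 := by simpa using hp
  have hpn : (p : kk) ^ n ≠ 0 := pow_ne_zero n hp'
  have hint : ∀ w : Pl, w.valuation kk ((z : kk) / (p : kk) ^ n) ≤ 1 := by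
    intro w
    rw [map_div₀]
    refine div_le_one_of_le₀ ?_ zero_le
    rw [val_eq_exp w hpn, ord_pow]
    by_cases h1 : w = v
    · subst h1
      rw [hv]
      have h2 : w.valuation kk (algebraMap (𝓞 kk) kk z) ≤ WithZero.exp (-((h * n : ℕ) : ℤ)) := by
        rw [w.valuation_of_algebraMap]
        exact (w.intValuation_le_pow_iff_mem z (h * n)).2 hz
      refine h2.trans (le_of_eq ?_)
      congr 2
      push_cast
      ring
    · rw [hw w h1, mul_zero, neg_zero, WithZero.exp_zero]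
      exact w.valuation_le_one z
  obtain ⟨c, hc⟩ := HeightOneSpectrum.mem_integers_of_valuation_le_one (R := 𝓞 kk) kk _ hint
  refine ⟨c, ?_⟩
  apply NumberField.RingOfIntegers.ext
  have h3 : (algebraMap (𝓞 kk) kk c) = (z : kk) / (p : kk) ^ n := hc
  show (z : kk) = algebraMap (𝓞 kk) kk (p ^ n * c)
  rw [map_mul, map_pow, h3]
  show (z : kk) = (p : kk) ^ n * ((z : kk) / (p : kk) ^ n)
  field_simp

/-- the local data -/
theorem data (v : Pl) (hv : v ∉ SS4) : ∃ (p : 𝓞 kk) (h : ℕ) (s t : ℕ → 𝓞 kk), 0 < h ∧ p ≠ 0 ∧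
    ord v (p : kk) = h ∧ (∀ w, w ≠ v → ord w (p : kk) = 0) ∧
    (∀ n, p ^ n ∣ s n ^ 2 - s n * t n + t n ^ 2 - bO) ∧
    (∀ m n, m ≤ n → p ^ m ∣ s n - s m ∧ p ^ m ∣ t n - t m) := by
  obtain ⟨p, h, hh, hp, hpi, hpv, hpw⟩ := pow_gen v
  obtain ⟨s, t, hst⟩ := norm_lift v hv
  have hp0 : (⟨p, hpi⟩ : 𝓞 kk) ≠ 0 := by
    intro h0
    apply hp
    exact congrArg (algebraMap (𝓞 kk) kk) h0
  have hcoh : ∀ m n, m ≤ n → s n - s m ∈ v.asIdeal ^ m ∧ t n - t m ∈ v.asIdeal ^ m := by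
    intro m n hmn
    induction n, hmn using Nat.le_induction with
    | base => simp
    | succ n hmn ih =>
      obtain ⟨-, h1, h2⟩ := hst n
      have hle : v.asIdeal ^ n ≤ v.asIdeal ^ m := Ideal.pow_le_pow_right hmn
      constructor
      · have := Ideal.add_mem _ (hle h1) ih.1
        simpa using this
      · have := Ideal.add_mem _ (hle h2) ih.2
        simpa using this
  refine ⟨⟨p, hpi⟩, h, fun n => s (h * n), fun n => t (h * n), hh, hp0, hpv, hpw, ?_, ?_⟩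
  · intro n
    exact dvd_of_mem hp0 hpv hpw n (hst (h * n)).1
  · intro m n hmn
    have h1 := hcoh (h * m) (h * n) (Nat.mul_le_mul_left h hmn)
    exact ⟨dvd_of_mem hp0 hpv hpw m h1.1, dvd_of_mem hp0 hpv hpw m h1.2⟩

/-- the norm to the rationals -/
theorem nm (x : kk) : QuadraticAlgebra.norm x = x.re ^ 2 + x.re * x.im + 4 * x.im ^ 2 := by
  rw [QuadraticAlgebra.norm_def]
  ring

theorem nm_nonneg (x : kk) : 0 ≤ QuadraticAlgebra.norm x := by
  rw [nm]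
  nlinarith [sq_nonneg (2 * x.re + x.im), sq_nonneg x.im]

theorem nm_ne {x : kk} (hx : x ≠ 0) : QuadraticAlgebra.norm x ≠ 0 := by
  intro h
  exact hx (QuadraticAlgebra.norm_eq_zero_iff_eq_zero.1 h)

theorem nm_add (x y : kk) : QuadraticAlgebra.norm (x + y) ≤
    2 * QuadraticAlgebra.norm x + 2 * QuadraticAlgebra.norm y := by
  rw [nm, nm, nm, QuadraticAlgebra.re_add, QuadraticAlgebra.im_add]
  nlinarith [sq_nonneg (2 * (x.re - y.re) + (x.im - y.im)), sq_nonneg (x.im - y.im)]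

theorem nm_sub (x y : kk) : QuadraticAlgebra.norm (x - y) ≤
    2 * QuadraticAlgebra.norm x + 2 * QuadraticAlgebra.norm y := by
  rw [nm, nm, nm, QuadraticAlgebra.re_sub, QuadraticAlgebra.im_sub]
  nlinarith [sq_nonneg (2 * (x.re + y.re) + (x.im + y.im)), sq_nonneg (x.im + y.im)]

theorem nm_box {a b : ℤ} {B : ℚ} (ha : |(a : ℚ)| ≤ B) (hb : |(b : ℚ)| ≤ B) :
    QuadraticAlgebra.norm (⟨a, b⟩ : kk) ≤ 6 * B ^ 2 := by
  rw [nm]
  have h1 : (a : ℚ) ^ 2 ≤ B ^ 2 := by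
    rw [← sq_abs]; exact pow_le_pow_left₀ (abs_nonneg _) ha 2
  have h2 : (b : ℚ) ^ 2 ≤ B ^ 2 := by
    rw [← sq_abs]; exact pow_le_pow_left₀ (abs_nonneg _) hb 2
  simp only
  nlinarith [sq_nonneg ((a : ℚ) - b)]

/-- the form x² - x y + y² -/
theorem nm_form {x y : kk} {T : ℚ} (hx : QuadraticAlgebra.norm x ≤ T) (hy : QuadraticAlgebra.norm y ≤ T) :
    QuadraticAlgebra.norm (x ^ 2 - x * y + y ^ 2) ≤ 10 * T ^ 2 := by
  have hx0 := nm_nonneg x
  have hy0 := nm_nonneg y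
  have h1 := nm_add (x ^ 2 - x * y) (y ^ 2)
  have h2 := nm_sub (x ^ 2) (x * y)
  rw [map_pow] at h1
  rw [map_pow, map_mul] at h2
  have h3 : QuadraticAlgebra.norm x ^ 2 ≤ T ^ 2 := pow_le_pow_left₀ hx0 hx 2
  have h4 : QuadraticAlgebra.norm y ^ 2 ≤ T ^ 2 := pow_le_pow_left₀ hy0 hy 2
  have h5 : QuadraticAlgebra.norm x * QuadraticAlgebra.norm y ≤ T ^ 2 := by
    nlinarith [sq_nonneg (QuadraticAlgebra.norm x - QuadraticAlgebra.norm y)]
  nlinarith

theorem nm_bq : QuadraticAlgebra.norm bq = 2346 := by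
  rw [nm, bq]
  norm_num

theorem nm_nrd {g : AA} {T : ℚ} (h1 : QuadraticAlgebra.norm g.re ≤ T) (h2 : QuadraticAlgebra.norm g.imI ≤ T)
    (h3 : QuadraticAlgebra.norm g.imJ ≤ T) (h4 : QuadraticAlgebra.norm g.imK ≤ T) :
    QuadraticAlgebra.norm (nrd g) ≤ 46940 * T ^ 2 := by
  have k1 := nm_form h1 h2
  have k2 := nm_form h3 h4
  have k3 : nrd g = (g.re ^ 2 - g.re * g.imI + g.imI ^ 2) - bq * (g.imJ ^ 2 - g.imJ * g.imK + g.imK ^ 2) := rfl
  rw [k3]
  refine (nm_sub _ _).trans ?_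
  rw [map_mul, nm_bq]
  linarith

/-- integers of `k` -/
def zz (a b : ℤ) : 𝓞 kk := ⟨⟨a, b⟩, int_kk a b⟩

theorem zz_coe (a b : ℤ) : ((zz a b : 𝓞 kk) : kk) = ⟨a, b⟩ := rfl

theorem zz_surj (x : 𝓞 kk) : ∃ a b : ℤ, x = zz a b := by
  obtain ⟨a, b, h⟩ := (int_iff (x : kk)).1 (NumberField.RingOfIntegers.isIntegral_coe x)
  exact ⟨a, b, NumberField.RingOfIntegers.ext h⟩

theorem zz_sub (a b c d : ℤ) : zz a b - zz c d = zz (a - c) (b - d) := by
  apply NumberField.RingOfIntegers.ext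
  show (⟨a, b⟩ : kk) - ⟨c, d⟩ = ⟨((a - c : ℤ) : ℚ), ((b - d : ℤ) : ℚ)⟩
  ext <;> simp

theorem norm_zz (a b : ℤ) : Algebra.norm ℤ (zz a b) = a ^ 2 + a * b + 4 * b ^ 2 := by
  have h := Algebra.coe_norm_int (zz a b)
  have h2 : Algebra.norm ℚ ((zz a b : 𝓞 kk) : kk) = (a : ℚ) ^ 2 + a * b + 4 * b ^ 2 := by
    rw [zz_coe, Algebra.norm_apply]
    have := QuadraticAlgebra.det_toLinearMap_eq_norm (⟨a, b⟩ : kk)
    rw [QuadraticAlgebra.norm_def] at this
    have e : (a : ℚ) ^ 2 + a * b + 4 * b ^ 2 = (⟨a, b⟩ : kk).re * (⟨a, b⟩ : kk).re +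
      1 * (⟨a, b⟩ : kk).re * (⟨a, b⟩ : kk).im - (-4) * (⟨a, b⟩ : kk).im * (⟨a, b⟩ : kk).im := by
      simp only
      ring
    rw [e, ← this]
    congr 1
  rw [h2] at h
  exact_mod_cast h

theorem norm_coe (x : 𝓞 kk) : ((Algebra.norm ℤ x : ℤ) : ℚ) = QuadraticAlgebra.norm (x : kk) := by
  obtain ⟨a, b, rfl⟩ := zz_surj x
  rw [norm_zz, nm, zz_coe]
  push_cast
  ring

theorem absNorm_coe (x : 𝓞 kk) : ((Ideal.absNorm (Ideal.span {x}) : ℕ) : ℚ) = QuadraticAlgebra.norm (x : kk) := by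
  rw [Ideal.absNorm_span_singleton, ← norm_coe]
  have h : 0 ≤ Algebra.norm ℤ x := by
    have := nm_nonneg (x : kk)
    rw [← norm_coe] at this
    exact_mod_cast this
  rw [Nat.cast_natAbs, abs_of_nonneg h]

theorem finite_quot {x : 𝓞 kk} (hx : x ≠ 0) : Finite (𝓞 kk ⧸ Ideal.span {x}) := by
  have h : Ideal.absNorm (Ideal.span {x}) ≠ 0 := by
    intro h0
    have h1 := absNorm_coe x
    rw [h0, Nat.cast_zero] at h1
    exact nm_ne (x := (x : kk)) (by simpa using hx) h1.symm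
  rw [Ideal.absNorm_apply, Submodule.cardQuot_apply] at h
  exact (Nat.finite_of_card_ne_zero h)

theorem card_quot (x : 𝓞 kk) : ((Nat.card (𝓞 kk ⧸ Ideal.span {x}) : ℕ) : ℚ) = QuadraticAlgebra.norm (x : kk) := by
  rw [← absNorm_coe, Ideal.absNorm_apply, Submodule.cardQuot_apply]

/-- Pigeonhole. -/
theorem pigeon {q : 𝓞 kk} (hq : q ≠ 0) (s t : 𝓞 kk) : ∃ (x : Fin 4 → 𝓞 kk) (B : ℕ), x ≠ 0 ∧
    q ∣ x 0 + (x 2 * s - x 3 * t) ∧ q ∣ x 1 + (x 2 * t + x 3 * s - x 3 * t) ∧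
    (∀ i, QuadraticAlgebra.norm (x i : kk) ≤ 6 * (B : ℚ) ^ 2) ∧
    (B : ℚ) ^ 4 ≤ QuadraticAlgebra.norm (q : kk) := by
  have hfin := finite_quot hq
  set N : ℕ := Nat.card (𝓞 kk ⧸ Ideal.span {q}) with hN
  have hNq : (N : ℚ) = QuadraticAlgebra.norm (q : kk) := card_quot q
  have hN0 : 0 < N := Nat.card_pos
  -- the bound
  obtain ⟨B, hB1, hB2⟩ : ∃ B : ℕ, B ^ 4 ≤ N ∧ N < (B + 1) ^ 4 := by
    have hex : ∃ k : ℕ, N < (k + 1) ^ 4 := ⟨N, by
      calc N < N + 1 := Nat.lt_succ_self N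
        _ ≤ (N + 1) ^ 4 := Nat.le_self_pow (by norm_num) _⟩
    classical
    refine ⟨Nat.find hex, ?_, Nat.find_spec hex⟩
    rcases h0 : Nat.find hex with _ | k
    · simp
    · have := Nat.find_min hex (m := k) (by omega)
      exact not_lt.1 this
  let X : (Fin 8 → Fin (B + 1)) → Fin 4 → 𝓞 kk := fun c i =>
    zz ((c ⟨2 * i, by omega⟩ : ℕ) : ℤ) ((c ⟨2 * i + 1, by omega⟩ : ℕ) : ℤ)
  let Φ : (Fin 8 → Fin (B + 1)) → (𝓞 kk ⧸ Ideal.span {q}) × (𝓞 kk ⧸ Ideal.span {q}) := fun c =>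
    (Ideal.Quotient.mk _ (X c 0 + (X c 2 * s - X c 3 * t)),
      Ideal.Quotient.mk _ (X c 1 + (X c 2 * t + X c 3 * s - X c 3 * t)))
  have hninj : ¬ Function.Injective Φ := by
    intro hinj
    have h1 := Nat.card_le_card_of_injective Φ hinj
    rw [Nat.card_prod, Nat.card_fun, Nat.card_fin, Nat.card_fin, ← hN] at h1
    have h2 : N * N < (B + 1) ^ 8 := by
      calc N * N < (B + 1) ^ 4 * (B + 1) ^ 4 := Nat.mul_lt_mul'' hB2 hB2
        _ = (B + 1) ^ 8 := by ring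
    omega
  rw [Function.Injective] at hninj
  push Not at hninj
  obtain ⟨c, d, hcd, hne⟩ := hninj
  have h1 := congrArg Prod.fst hcd
  have h2 := congrArg Prod.snd hcd
  simp only [Φ] at h1 h2
  rw [Ideal.Quotient.eq, Ideal.mem_span_singleton] at h1 h2
  refine ⟨fun i => X c i - X d i, B, ?_, ?_, ?_, ?_, ?_⟩
  · intro h0
    apply hne
    have h3 : ∀ i : Fin 4, c ⟨2 * i, by omega⟩ = d ⟨2 * i, by omega⟩ ∧
        c ⟨2 * i + 1, by omega⟩ = d ⟨2 * i + 1, by omega⟩ := by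
      intro i
      have h4 : X c i - X d i = 0 := congrFun h0 i
      rw [sub_eq_zero] at h4
      have h5 := congrArg (fun z : 𝓞 kk => (z : kk)) h4
      simp only [X, zz_coe] at h5
      have h6 := congrArg QuadraticAlgebra.re h5
      have h7 := congrArg QuadraticAlgebra.im h5
      simp only at h6 h7
      constructor
      · apply Fin.ext
        exact_mod_cast h6
      · apply Fin.ext
        exact_mod_cast h7
    funext j
    have h8 := h3 ⟨j / 2, by omega⟩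
    rcases Nat.even_or_odd' (j : ℕ) with ⟨k, hk | hk⟩
    · have e1 : j = ⟨2 * ((⟨j / 2, by omega⟩ : Fin 4) : ℕ), by simp only; omega⟩ := by
        apply Fin.ext
        simp only
        omega
      rw [e1]
      exact h8.1
    · have e1 : j = ⟨2 * ((⟨j / 2, by omega⟩ : Fin 4) : ℕ) + 1, by simp only; omega⟩ := by
        apply Fin.ext
        simp only
        omega
      rw [e1]
      exact h8.2
  · convert h1 using 1
    ring
  · convert h2 using 1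
    ring
  · intro i
    have h3 : X c i - X d i = zz _ _ := zz_sub _ _ _ _
    simp only [h3, zz_coe]
    apply nm_box
    · have k1 := (c ⟨2 * i, by omega⟩).2
      have k2 := (d ⟨2 * i, by omega⟩).2
      rw [abs_le]
      constructor
      · have : (-(B : ℤ)) ≤ (((c ⟨2 * i, by omega⟩ : ℕ) : ℤ) - ((d ⟨2 * i, by omega⟩ : ℕ) : ℤ)) := by omega
        exact_mod_cast this
      · have : (((c ⟨2 * i, by omega⟩ : ℕ) : ℤ) - ((d ⟨2 * i, by omega⟩ : ℕ) : ℤ)) ≤ (B : ℤ) := by omega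
        exact_mod_cast this
    · have k1 := (c ⟨2 * i + 1, by omega⟩).2
      have k2 := (d ⟨2 * i + 1, by omega⟩).2
      rw [abs_le]
      constructor
      · have : (-(B : ℤ)) ≤ (((c ⟨2 * i + 1, by omega⟩ : ℕ) : ℤ) - ((d ⟨2 * i + 1, by omega⟩ : ℕ) : ℤ)) := by omega
        exact_mod_cast this
      · have : (((c ⟨2 * i + 1, by omega⟩ : ℕ) : ℤ) - ((d ⟨2 * i + 1, by omega⟩ : ℕ) : ℤ)) ≤ (B : ℤ) := by omega
        exact_mod_cast this
  · rw [← hNq]
    exact_mod_cast hB1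

/-- an element of `A` from four integers -/
def toA (x : Fin 4 → 𝓞 kk) : AA := ⟨(x 0 : kk), (x 1 : kk), (x 2 : kk), (x 3 : kk)⟩

/-- the norm in `𝓞 kk` -/
def nr (x : Fin 4 → 𝓞 kk) : 𝓞 kk :=
  x 0 ^ 2 - x 0 * x 1 + x 1 ^ 2 - bO * (x 2 ^ 2 - x 2 * x 3 + x 3 ^ 2)

theorem nr_coe (x : Fin 4 → 𝓞 kk) : ((nr x : 𝓞 kk) : kk) = nrd (toA x) := by
  show algebraMap (𝓞 kk) kk (nr x) = _
  simp only [nr, map_sub, map_add, map_mul, map_pow]
  rfl

theorem toA_ne {x : Fin 4 → 𝓞 kk} (hx : x ≠ 0) : toA x ≠ 0 := by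
  intro h
  apply hx
  funext i
  have h0 := congrArg QuaternionAlgebra.re h
  have h1 := congrArg QuaternionAlgebra.imI h
  have h2 := congrArg QuaternionAlgebra.imJ h
  have h3 := congrArg QuaternionAlgebra.imK h
  apply NumberField.RingOfIntegers.ext
  fin_cases i
  · exact h0
  · exact h1
  · exact h2
  · exact h3

theorem nr_ne {x : Fin 4 → 𝓞 kk} (hx : x ≠ 0) : nr x ≠ 0 := by
  intro h
  have h1 := nr_coe x
  rw [h] at h1
  exact toA_ne hx ((nrd_eq_zero _).1 h1.symm)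

/-- the basic sequence -/
theorem seq (v : Pl) (hv : v ∉ SS4) : ∃ (p : 𝓞 kk) (h : ℕ) (s t : ℕ → 𝓞 kk) (x : ℕ → Fin 4 → 𝓞 kk)
    (u : ℕ → 𝓞 kk), 0 < h ∧ p ≠ 0 ∧
    ord v (p : kk) = h ∧ (∀ w, w ≠ v → ord w (p : kk) = 0) ∧
    (∀ n, p ^ n ∣ s n ^ 2 - s n * t n + t n ^ 2 - bO) ∧
    (∀ m n, m ≤ n → p ^ m ∣ s n - s m ∧ p ^ m ∣ t n - t m) ∧
    (∀ n, p ^ n ∣ x n 0 + (x n 2 * s n - x n 3 * t n) ∧
      p ^ n ∣ x n 1 + (x n 2 * t n + x n 3 * s n - x n 3 * t n)) ∧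
    (∀ n, nr (x n) = p ^ n * u n) ∧ (∀ n, u n ≠ 0) ∧
    (∀ n, QuadraticAlgebra.norm (u n : kk) ≤ 46940 * 36) := by
  obtain ⟨p, h, s, t, hh, hp, hpv, hpw, h1, h2⟩ := data v hv
  have hpn : ∀ n, p ^ n ≠ 0 := fun n => pow_ne_zero n hp
  choose x B hx0 hx1 hx2 hxB hB using fun n => pigeon (hpn n) (s n) (t n)
  have hdiv : ∀ n, p ^ n ∣ nr (x n) := by
    intro n
    obtain ⟨κ, hκ⟩ := h1 n
    obtain ⟨δ0, hδ0⟩ := hx1 n
    obtain ⟨δ1, hδ1⟩ := hx2 n
    have e0 : x n 0 = p ^ n * δ0 - (x n 2 * s n - x n 3 * t n) := by rw [← hδ0]; ring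
    have e1 : x n 1 = p ^ n * δ1 - (x n 2 * t n + x n 3 * s n - x n 3 * t n) := by rw [← hδ1]; ring
    refine ⟨κ * (x n 2 ^ 2 - x n 2 * x n 3 + x n 3 ^ 2) -
      (2 * (x n 2 * s n - x n 3 * t n) * δ0 - (x n 2 * s n - x n 3 * t n) * δ1 -
        (x n 2 * t n + x n 3 * s n - x n 3 * t n) * δ0 +
        2 * (x n 2 * t n + x n 3 * s n - x n 3 * t n) * δ1) +
        p ^ n * (δ0 ^ 2 - δ0 * δ1 + δ1 ^ 2), ?_⟩
    rw [nr, e0, e1]
    linear_combination (x n 2 ^ 2 - x n 2 * x n 3 + x n 3 ^ 2) * hκ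
  choose u hu using hdiv
  refine ⟨p, h, s, t, x, u, hh, hp, hpv, hpw, h1, h2, fun n => ⟨hx1 n, hx2 n⟩, hu, ?_, ?_⟩
  · intro n h0
    have := hu n
    rw [h0, mul_zero] at this
    exact nr_ne (hx0 n) this
  · intro n
    have k1 : QuadraticAlgebra.norm ((nr (x n) : 𝓞 kk) : kk) ≤ 46940 * (6 * (B n : ℚ) ^ 2) ^ 2 := by
      rw [nr_coe]
      exact nm_nrd (hxB n 0) (hxB n 1) (hxB n 2) (hxB n 3)
    have k2 : ((nr (x n) : 𝓞 kk) : kk) = ((p ^ n : 𝓞 kk) : kk) * (u n : kk) := by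
      rw [hu n]
      exact map_mul (algebraMap (𝓞 kk) kk) _ _
    rw [k2, map_mul] at k1
    have k3 := hB n
    have hP : 0 < QuadraticAlgebra.norm ((p ^ n : 𝓞 kk) : kk) := by
      refine lt_of_le_of_ne (nm_nonneg _) (Ne.symm (nm_ne ?_))
      simpa using hpn n
    have k4 : 46940 * (6 * (B n : ℚ) ^ 2) ^ 2 ≤ 46940 * 36 * QuadraticAlgebra.norm ((p ^ n : 𝓞 kk) : kk) := by
      nlinarith
    have k5 := k1.trans k4
    by_contra hcon
    push Not at hcon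
    nlinarith [mul_lt_mul_of_pos_left hcon hP]

theorem finite_norm (C : ℕ) : {u : 𝓞 kk | QuadraticAlgebra.norm (u : kk) ≤ C}.Finite := by
  have hf : ((fun ab : ℤ × ℤ => zz ab.1 ab.2) ''
      (↑(Finset.Icc (-(2 * C : ℤ)) (2 * C) ×ˢ Finset.Icc (-(2 * C : ℤ)) (2 * C)) : Set (ℤ × ℤ))).Finite :=
    (Finset.finite_toSet _).image _
  refine hf.subset ?_
  intro u hu
  obtain ⟨a, b, rfl⟩ := zz_surj u
  have h1 : QuadraticAlgebra.norm ((zz a b : 𝓞 kk) : kk) ≤ C := hu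
  rw [nm, zz_coe] at h1
  simp only at h1
  have h2 : a ^ 2 + a * b + 4 * b ^ 2 ≤ (C : ℤ) := by exact_mod_cast h1
  have h3 : a ^ 2 ≤ 2 * (C : ℤ) := by nlinarith [sq_nonneg (a + 2 * b), sq_nonneg b]
  have h4 : b ^ 2 ≤ 2 * (C : ℤ) := by nlinarith [sq_nonneg (2 * a + b), sq_nonneg b]
  have k : ∀ c : ℤ, c ^ 2 ≤ 2 * (C : ℤ) → -(2 * C : ℤ) ≤ c ∧ c ≤ 2 * C := by
    intro c hc
    have h5 : |c| ≤ c ^ 2 := by
      rcases eq_or_ne c 0 with rfl | h0
      · simp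
      · have := Int.one_le_abs h0
        rw [← sq_abs]
        nlinarith
    exact abs_le.1 (h5.trans hc)
  refine ⟨(a, b), ?_, rfl⟩
  simp only [Finset.coe_product, Finset.coe_Icc, Set.mem_prod, Set.mem_Icc]
  exact ⟨k a h3, k b h4⟩

theorem exists_mult (p : 𝓞 kk) (hp : p ≠ 0) (C : ℕ) : ∃ N : ℕ, 0 < N ∧
    ∀ u : 𝓞 kk, u ≠ 0 → QuadraticAlgebra.norm (u : kk) ≤ C → p * u ∣ (N : 𝓞 kk) := by
  refine ⟨(Ideal.absNorm (Ideal.span {p}) * C).factorial, Nat.factorial_pos _, fun u hu hC => ?_⟩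
  have h1 : ((Ideal.absNorm (Ideal.span {p * u}) : ℕ) : 𝓞 kk) ∈ Ideal.span {p * u} := Ideal.absNorm_mem _
  rw [Ideal.mem_span_singleton] at h1
  refine h1.trans ?_
  have h2 : Ideal.absNorm (Ideal.span {p * u}) ∣ (Ideal.absNorm (Ideal.span {p}) * C).factorial := by
    refine Nat.dvd_factorial ?_ ?_
    · rw [Nat.pos_iff_ne_zero]
      intro h0
      have h3 := absNorm_coe (p * u)
      rw [h0, Nat.cast_zero] at h3
      refine nm_ne (x := ((p * u : 𝓞 kk) : kk)) ?_ h3.symm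
      simpa using ⟨hp, hu⟩
    · have h3 := absNorm_coe (p * u)
      have h4 : (((p * u : 𝓞 kk)) : kk) = (p : kk) * (u : kk) := map_mul (algebraMap (𝓞 kk) kk) _ _
      rw [h4, map_mul, ← absNorm_coe p] at h3
      have h5 : ((Ideal.absNorm (Ideal.span {p * u}) : ℕ) : ℚ) ≤ ((Ideal.absNorm (Ideal.span {p}) * C : ℕ) : ℚ) := by
        rw [h3]
        push_cast
        exact mul_le_mul_of_nonneg_left hC (by positivity)
      exact_mod_cast h5
  exact_mod_cast (Nat.cast_dvd_cast (α := 𝓞 kk) h2)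

/-- trace of `x * cj x'` -/
def tr2 (x y : Fin 4 → 𝓞 kk) : 𝓞 kk :=
  (2 * x 0 * y 0 - x 0 * y 1 - x 1 * y 0 + 2 * x 1 * y 1) -
    bO * (2 * x 2 * y 2 - x 2 * y 3 - x 3 * y 2 + 2 * x 3 * y 3)

theorem tr2_coe (x y : Fin 4 → 𝓞 kk) : ((tr2 x y : 𝓞 kk) : kk) = trd (toA x * cj (toA y)) := by
  show algebraMap (𝓞 kk) kk (tr2 x y) = _
  simp only [tr2, map_sub, map_add, map_mul, map_ofNat]
  simp only [trd, cj, mkA, toA, xp, yp, star_KK, QuaternionAlgebra.re_mul, QuaternionAlgebra.imI_mul,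
    QuadraticAlgebra.re_neg, QuadraticAlgebra.im_neg]
  show _ - bq * _ = _
  ring

theorem nrd_smul' (z : kk) (g : AA) : nrd (z • g) = z ^ 2 * nrd g := by
  simp only [nrd, NK, xp, yp, QuaternionAlgebra.re_smul, QuaternionAlgebra.imI_smul,
    QuaternionAlgebra.imJ_smul, QuaternionAlgebra.imK_smul, smul_eq_mul]
  ring

theorem nrd_cj (g : AA) : nrd (cj g) = nrd g := by
  simp only [nrd, NK, cj, mkA, xp, yp, star_KK, QuadraticAlgebra.re_neg, QuadraticAlgebra.im_neg]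
  ring

theorem cj_OO {w : Pl} {g : AA} (hg : g ∈ OO w) : cj g ∈ OO w := by
  obtain ⟨h1, h2, h3, h4⟩ := hg
  refine ⟨?_, ?_, ?_, ?_⟩
  · simp only [cj, mkA, xp, star_KK]
    exact (w.valuation kk).map_sub_le h1 h2
  · simp only [cj, mkA, xp, star_KK, Valuation.map_neg]
    exact h2
  · simp only [cj, mkA, yp, QuadraticAlgebra.re_neg, Valuation.map_neg]
    exact h3
  · simp only [cj, mkA, yp, QuadraticAlgebra.im_neg, Valuation.map_neg]
    exact h4

theorem toA_OO (w : Pl) (x : Fin 4 → 𝓞 kk) : toA x ∈ OO w :=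
  ⟨w.valuation_le_one _, w.valuation_le_one _, w.valuation_le_one _, w.valuation_le_one _⟩

theorem alg_OO {w : Pl} {z : kk} (hz : w.valuation kk z ≤ 1) : algebraMap kk AA z ∈ OO w := by
  refine ⟨?_, ?_, ?_, ?_⟩ <;> simp [hz]

/-- the algebraic identity -/
theorem ident (P P' U s t : 𝓞 kk) (x x' : Fin 4 → 𝓞 kk) (κ δ0 δ1 ε0 ε1 z0 z1 : 𝓞 kk)
    (hκ : s ^ 2 - s * t + t ^ 2 - bO = P * κ)
    (h0 : x 0 + (x 2 * s - x 3 * t) = P * δ0) (h1 : x 1 + (x 2 * t + x 3 * s - x 3 * t) = P * δ1)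
    (h0' : x' 0 + (x' 2 * s - x' 3 * t) = P' * ε0)
    (h1' : x' 1 + (x' 2 * t + x' 3 * s - x' 3 * t) = P' * ε1)
    (hz0 : x 2 = x' 2 + U * z0) (hz1 : x 3 = x' 3 + U * z1) :
    ∃ A1 A2 A3 : 𝓞 kk, tr2 x x' - nr x' = P * A1 + U * P' * A2 + P' ^ 2 * A3 := by
  have e0 : x 0 = P * δ0 - (x 2 * s - x 3 * t) := by rw [← h0]; ring
  have e1 : x 1 = P * δ1 - (x 2 * t + x 3 * s - x 3 * t) := by rw [← h1]; ring
  have e0' : x' 0 = P' * ε0 - (x' 2 * s - x' 3 * t) := by rw [← h0']; ring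
  have e1' : x' 1 = P' * ε1 - (x' 2 * t + x' 3 * s - x' 3 * t) := by rw [← h1']; ring
  refine ⟨κ * ((2 * x 2 * x' 2 - x 2 * x' 3 - x 3 * x' 2 + 2 * x 3 * x' 3) -
      (x' 2 ^ 2 - x' 2 * x' 3 + x' 3 ^ 2)) -
      (2 * δ0 * (x' 2 * s - x' 3 * t) - δ0 * (x' 2 * t + x' 3 * s - x' 3 * t) -
        δ1 * (x' 2 * s - x' 3 * t) + 2 * δ1 * (x' 2 * t + x' 3 * s - x' 3 * t)) +
      P' * (2 * δ0 * ε0 - δ0 * ε1 - δ1 * ε0 + 2 * δ1 * ε1),
    -(2 * (z0 * s - z1 * t) * ε0 - (z0 * s - z1 * t) * ε1 - (z0 * t + z1 * s - z1 * t) * ε0 +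
      2 * (z0 * t + z1 * s - z1 * t) * ε1), -(ε0 ^ 2 - ε0 * ε1 + ε1 ^ 2), ?_⟩
  rw [tr2, nr, e0, e1, e0', e1', hz0, hz1]
  linear_combination ((2 * (x' 2 + U * z0) * x' 2 - (x' 2 + U * z0) * x' 3 - (x' 3 + U * z1) * x' 2 +
    2 * (x' 3 + U * z1) * x' 3) - (x' 2 ^ 2 - x' 2 * x' 3 + x' 3 ^ 2)) * hκ

theorem val_int_ord {v : Pl} {x : 𝓞 kk} (hx : x ≠ 0) :
    v.valuation kk (x : kk) = WithZero.exp (-(ord v (x : kk))) :=
  val_eq_exp v (by simpa using hx)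

theorem val_mul_le {v : Pl} {a b : 𝓞 kk} {c : ℤ} (ha : v.valuation kk (a : kk) ≤ WithZero.exp c) :
    v.valuation kk ((a * b : 𝓞 kk) : kk) ≤ WithZero.exp c := by
  have h : ((a * b : 𝓞 kk) : kk) = (a : kk) * (b : kk) := map_mul (algebraMap (𝓞 kk) kk) _ _
  rw [h, map_mul]
  calc v.valuation kk (a : kk) * v.valuation kk (b : kk) ≤ WithZero.exp c * 1 :=
        mul_le_mul' ha (v.valuation_le_one _)
    _ = WithZero.exp c := mul_one _

end HypB

open HypB in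
theorem hyp_elt (v : Pl) (hv : v ∉ SS4) : ∃ a : AAˣ, nrd (a : AA) = 1 ∧
    (∀ w, w ∉ SS4 → w ≠ v → (a : AA) ∈ OO w ∧ ((a⁻¹ : AAˣ) : AA) ∈ OO w) ∧
    1 < v.valuation kk (trd (a : AA)) := by
  obtain ⟨p, h, s, t, x, u, hh, hp, hpv, hpw, h1, h2, h3, hu, hu0, huC⟩ := seq v hv
  set C : ℕ := 46940 * 36 with hC
  have huC' : ∀ n, QuadraticAlgebra.norm (u n : kk) ≤ (C : ℚ) := by
    intro n
    have := huC n
    rw [hC]
    push_cast
    linarith
  obtain ⟨N, hN0, hN⟩ := exists_mult p hp C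
  have hNne : (N : 𝓞 kk) ≠ 0 := by exact_mod_cast hN0.ne'
  have := finite_quot hNne
  have : Finite {u : 𝓞 kk | QuadraticAlgebra.norm (u : kk) ≤ (C : ℚ)} := (finite_norm C).to_subtype
  let f : ℕ → {u : 𝓞 kk | QuadraticAlgebra.norm (u : kk) ≤ (C : ℚ)} × ZMod 2 ×
      (Fin 4 → 𝓞 kk ⧸ Ideal.span {(N : 𝓞 kk)}) := fun n =>
    (⟨u n, huC' n⟩, (n : ZMod 2), fun i => Ideal.Quotient.mk _ (x n i))
  obtain ⟨y, hy⟩ := Finite.exists_infinite_fiber f
  have hinf : (f ⁻¹' {y}).Infinite := Set.infinite_coe_iff.1 hy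
  obtain ⟨m0, hm0, -⟩ := hinf.exists_gt 0
  set L : ℕ := (ord v (u m0 : kk)).toNat with hL
  obtain ⟨m, hm, hmL⟩ := hinf.exists_gt L
  obtain ⟨n, hn, hnL⟩ := hinf.exists_gt (m + L)
  have hfm : f m = f m0 := hm.trans hm0.symm
  have hfn : f n = f m := hn.trans hm.symm
  have hum0 : u m = u m0 := congrArg (fun z => ((z.1 : {u : 𝓞 kk | QuadraticAlgebra.norm (u : kk) ≤ (C : ℚ)}) : 𝓞 kk)) hfm
  have hunm : u n = u m := congrArg (fun z => ((z.1 : {u : 𝓞 kk | QuadraticAlgebra.norm (u : kk) ≤ (C : ℚ)}) : 𝓞 kk)) hfn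
  have hpar : (n : ZMod 2) = (m : ZMod 2) := congrArg (fun z => z.2.1) hfn
  have hres : ∀ i, (N : 𝓞 kk) ∣ x n i - x m i := by
    intro i
    have h4 : (fun i => Ideal.Quotient.mk (Ideal.span {(N : 𝓞 kk)}) (x n i)) =
      fun i => Ideal.Quotient.mk (Ideal.span {(N : 𝓞 kk)}) (x m i) := congrArg (fun z => z.2.2) hfn
    have h5 := congrFun h4 i
    rw [Ideal.Quotient.eq, Ideal.mem_span_singleton] at h5
    exact h5
  -- common value
  set uu' : 𝓞 kk := u m with huu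
  have hu0' : uu' ≠ 0 := hu0 m
  have hordu : 0 ≤ ord v (uu' : kk) := (val_le_one (by simpa using hu0')).1 (v.valuation_le_one _)
  have hLe : (L : ℤ) = ord v (uu' : kk) := by
    rw [hL, ← hum0]
    exact Int.toNat_of_nonneg hordu
  obtain ⟨k, hk⟩ : ∃ k, n + m = 2 * k := by
    have h4 : ((n + m : ℕ) : ZMod 2) = 0 := by
      push_cast
      rw [hpar]
      exact CharTwo.add_self_eq_zero _
    exact (ZMod.natCast_eq_zero_iff _ _).1 h4
  have hmk : m < k := by omega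
  obtain ⟨e, he⟩ := hN uu' hu0' (huC' m)
  choose z hz using hres
  have hxz : ∀ i, x n i = x m i + (p * uu') * (e * z i) := by
    intro i
    have := hz i
    rw [he] at this
    linear_combination this
  -- the identity
  obtain ⟨κ, hκ⟩ := h1 n
  obtain ⟨⟨δ0, hδ0⟩, ⟨δ1, hδ1⟩⟩ := h3 n
  obtain ⟨⟨ε0, hε0⟩, ⟨ε1, hε1⟩⟩ := h3 m
  obtain ⟨⟨σ, hσ⟩, ⟨τ, hτ⟩⟩ := h2 m n (by omega)
  obtain ⟨A1, A2, A3, hA⟩ := ident (p ^ n) (p ^ m) (p * uu') (s n) (t n) (x n) (x m) κ δ0 δ1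
    (ε0 + x m 2 * σ - x m 3 * τ) (ε1 + x m 2 * τ + x m 3 * σ - x m 3 * τ) (e * z 2) (e * z 3)
    hκ hδ0 hδ1 (by linear_combination hε0 + x m 2 * hσ - x m 3 * hτ)
    (by linear_combination hε1 + x m 2 * hτ + x m 3 * hσ - x m 3 * hτ) (hxz 2) (hxz 3)
  have hpk : (p : kk) ≠ 0 := by simpa using hp
  have huk : (uu' : kk) ≠ 0 := by simpa using hu0'
  have hordm : ∀ j : ℕ, ord v ((p ^ j : 𝓞 kk) : kk) = j * h := by
    intro j
    have h4 : ((p ^ j : 𝓞 kk) : kk) = (p : kk) ^ j := map_pow (algebraMap (𝓞 kk) kk) _ _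
    rw [h4, ord_pow, hpv]
  have hcoemul : ∀ a b : 𝓞 kk, ((a * b : 𝓞 kk) : kk) = (a : kk) * (b : kk) := fun a b =>
    map_mul (algebraMap (𝓞 kk) kk) _ _
  have hcoepow : ∀ (a : 𝓞 kk) (j : ℕ), ((a ^ j : 𝓞 kk) : kk) = (a : kk) ^ j := fun a b =>
    map_pow (algebraMap (𝓞 kk) kk) _ _
  have hcoeadd : ∀ a b : 𝓞 kk, ((a + b : 𝓞 kk) : kk) = (a : kk) + (b : kk) := fun a b =>
    map_add (algebraMap (𝓞 kk) kk) _ _
  have hcoesub : ∀ a b : 𝓞 kk, ((a - b : 𝓞 kk) : kk) = (a : kk) - (b : kk) := fun a b =>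
    map_sub (algebraMap (𝓞 kk) kk) _ _
  -- valuation of the trace
  have hmain : v.valuation kk ((p ^ m * uu' : 𝓞 kk) : kk) = WithZero.exp (-((L : ℤ) + m * h)) := by
    rw [hcoemul, map_mul, val_int_ord (pow_ne_zero m hp), val_int_ord hu0', ← WithZero.exp_add, hordm, hLe]
    congr 1
    ring
  have hh' : (1 : ℤ) ≤ h := by exact_mod_cast hh
  have hE : v.valuation kk (((tr2 (x n) (x m) - nr (x m) : 𝓞 kk)) : kk) <
      v.valuation kk ((p ^ m * uu' : 𝓞 kk) : kk) := by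
    rw [hmain, hA]
    have b1 : v.valuation kk ((p ^ n * A1 : 𝓞 kk) : kk) < WithZero.exp (-((L : ℤ) + m * h)) := by
      refine lt_of_le_of_lt (val_mul_le (c := -(n * h)) ?_) ?_
      · rw [val_int_ord (pow_ne_zero n hp), hordm]
      · rw [WithZero.exp_lt_exp]
        have : (m : ℤ) + L + 1 ≤ n := by exact_mod_cast hnL
        nlinarith
    have b2 : v.valuation kk ((p * uu' * p ^ m * A2 : 𝓞 kk) : kk) < WithZero.exp (-((L : ℤ) + m * h)) := by
      refine lt_of_le_of_lt (val_mul_le (c := -(h + L + m * h)) ?_) ?_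
      · rw [hcoemul, hcoemul, map_mul, map_mul, val_int_ord hp, val_int_ord hu0',
          val_int_ord (pow_ne_zero m hp), ← WithZero.exp_add, ← WithZero.exp_add, hordm, hpv, hLe]
        apply le_of_eq
        congr 1
        ring
      · rw [WithZero.exp_lt_exp]
        linarith
    have b3 : v.valuation kk (((p ^ m) ^ 2 * A3 : 𝓞 kk) : kk) < WithZero.exp (-((L : ℤ) + m * h)) := by
      refine lt_of_le_of_lt (val_mul_le (c := -(2 * (m * h))) ?_) ?_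
      · rw [← pow_mul, val_int_ord (pow_ne_zero _ hp), hordm]
        apply le_of_eq
        congr 1
        push_cast
        ring
      · rw [WithZero.exp_lt_exp]
        have : (L : ℤ) + 1 ≤ m := by exact_mod_cast hmL
        nlinarith
    rw [hcoeadd, hcoeadd]
    exact Valuation.map_add_lt _ (Valuation.map_add_lt _ b1 b2) b3
  have htr : v.valuation kk ((tr2 (x n) (x m) : 𝓞 kk) : kk) = WithZero.exp (-((L : ℤ) + m * h)) := by
    rw [← hmain]
    have h5 : ((tr2 (x n) (x m) : 𝓞 kk) : kk) = ((tr2 (x n) (x m) - nr (x m) : 𝓞 kk) : kk) +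
        ((p ^ m * uu' : 𝓞 kk) : kk) := by
      rw [hcoesub, hu m]
      ring
    rw [h5]
    exact Valuation.map_add_eq_of_lt_right _ hE
  -- the element
  set c : kk := ((p : kk) ^ k * (uu' : kk))⁻¹ with hc
  have hc0 : (p : kk) ^ k * (uu' : kk) ≠ 0 := mul_ne_zero (pow_ne_zero _ hpk) huk
  set a : AA := c • (toA (x n) * cj (toA (x m))) with ha
  have hnrd : nrd a = 1 := by
    rw [ha, nrd_smul', nrd_mul, nrd_cj, ← nr_coe, ← nr_coe, hu n, hu m, hunm, hcoemul, hcoemul,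
      hcoepow, hcoepow, hc]
    have h6 : (p : kk) ^ n * (uu' : kk) * ((p : kk) ^ m * (uu' : kk)) = ((p : kk) ^ k * (uu' : kk)) ^ 2 := by
      rw [mul_pow, ← pow_mul, mul_comm k 2, ← hk, pow_add]
      ring
    rw [h6, inv_pow, inv_mul_cancel₀ (pow_ne_zero _ hc0)]
  have ha0 : a ≠ 0 := by
    intro h0
    rw [h0] at hnrd
    have : nrd 0 = 0 := (nrd_eq_zero 0).2 rfl
    rw [this] at hnrd
    exact zero_ne_one hnrd
  obtain ⟨au, hau⟩ := exists_unit ha0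
  have hinv : ((au⁻¹ : AAˣ) : AA) = cj a := by
    have h7 := (mul_cj a).1
    rw [hnrd, map_one, ← hau] at h7
    have h8 : ((au⁻¹ : AAˣ) : AA) * ((au : AA) * cj (au : AA)) = ((au⁻¹ : AAˣ) : AA) * 1 := by rw [h7]
    rw [← mul_assoc, Units.inv_mul, one_mul, mul_one] at h8
    rw [← h8, hau]
  refine ⟨au, by rw [hau]; exact hnrd, ?_, ?_⟩
  · intro w _ hwv
    have hpw1 : ∀ j : ℕ, w.valuation kk ((p : kk) ^ j) = 1 := by
      intro j
      rw [val_eq_exp w (pow_ne_zero j hpk), ord_pow, hpw w hwv, mul_zero, neg_zero, WithZero.exp_zero]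
    have haO : a ∈ OO w := by
      have h9 : toA (x n) = toA (x m) + algebraMap kk AA ((p : kk) * (uu' : kk) * (e : kk)) * toA z := by
        have hx' : ∀ i, (x n i : kk) = (x m i : kk) + (p : kk) * (uu' : kk) * (e : kk) * (z i : kk) := by
          intro i
          rw [hxz i, hcoeadd, hcoemul, hcoemul, hcoemul]
          ring
        apply QuaternionAlgebra.ext
        · simpa [toA] using hx' 0
        · simpa [toA] using hx' 1
        · simpa [toA] using hx' 2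
        · simpa [toA] using hx' 3
      have h10 : a = algebraMap kk AA (((p : kk) ^ k)⁻¹ * (p : kk) ^ m) +
          algebraMap kk AA (((p : kk) ^ k)⁻¹ * (p : kk) * (e : kk)) * (toA z * cj (toA (x m))) := by
        have e1 : ((p : kk) ^ k * (uu' : kk))⁻¹ * ((p : kk) ^ m * (uu' : kk)) =
            ((p : kk) ^ k)⁻¹ * (p : kk) ^ m := by field_simp
        have e2 : ((p : kk) ^ k * (uu' : kk))⁻¹ * ((p : kk) * (uu' : kk) * (e : kk)) =
            ((p : kk) ^ k)⁻¹ * (p : kk) * (e : kk) := by field_simp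
        have e3 : nrd (toA (x m)) = (p : kk) ^ m * (uu' : kk) := by
          rw [← nr_coe, hu m, hcoemul, hcoepow]
        have e4 : c • algebraMap kk AA ((p : kk) ^ m * (uu' : kk)) =
            algebraMap kk AA (((p : kk) ^ k)⁻¹ * (p : kk) ^ m) := by
          rw [Algebra.smul_def, ← map_mul, hc, e1]
        have e5 : c • (algebraMap kk AA ((p : kk) * (uu' : kk) * (e : kk)) * (toA z * cj (toA (x m)))) =
            algebraMap kk AA (((p : kk) ^ k)⁻¹ * (p : kk) * (e : kk)) * (toA z * cj (toA (x m))) := by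
          rw [← smul_mul_assoc, Algebra.smul_def, ← map_mul, hc, e2]
        rw [ha, h9, add_mul, (mul_cj _).1, e3, smul_add, e4, ← e5]
        congr 2
        exact mul_assoc _ _ _
      rw [h10]
      refine (OO w).add_mem (alg_OO ?_) ((OO w).mul_mem (alg_OO ?_) ((OO w).mul_mem (toA_OO w z)
        (cj_OO (toA_OO w (x m)))))
      · rw [map_mul, map_inv₀, hpw1, hpw1]
        simp
      · rw [map_mul, map_mul, map_inv₀, hpw1, inv_one, one_mul]
        exact mul_le_one' (w.valuation_le_one _) (w.valuation_le_one _)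
    rw [hinv, hau]
    exact ⟨haO, cj_OO haO⟩
  · rw [hau, ha]
    have h11 : trd (c • (toA (x n) * cj (toA (x m)))) = c * ((tr2 (x n) (x m) : 𝓞 kk) : kk) := by
      rw [tr2_coe, trd, trd, QuaternionAlgebra.re_smul, QuaternionAlgebra.imI_smul, smul_eq_mul, smul_eq_mul]
      ring
    rw [h11, map_mul, htr, hc, map_inv₀, map_mul, val_eq_exp v (pow_ne_zero k hpk), ord_pow, hpv,
      val_eq_exp v huk, ← WithZero.exp_add, ← WithZero.exp_neg, ← WithZero.exp_add, ← WithZero.exp_zero,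
      WithZero.exp_lt_exp, ← hLe]
    have : (m : ℤ) + 1 ≤ k := by exact_mod_cast hmk
    nlinarith

end

end Pool.Agent.Work.MP_14c213_gt
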