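import Pool.Agent.Work.MP_14c213_gt.B.TreeB
import Pool.Agent.Work.MP_14c213_gt.B.GGB

/-!
Primitive cosets: formal consequences of `tree` (group theory, K^× commutative). prim_global: g ∈ UU v for
almost all v (UU_finite), there Prim holds already; for the finitely many other v ∉ SS4 multiply the elements
x of the last clause of `tree` (each is in UU w for w ≠ v, i.e. in Rn w 0).
-/

namespace Pool.Agent.Work.MP_14c213_gt

open Matrix IsDedekindDomain
open scoped Matrix NumberField QuadraticAlgebra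

noncomputable section

/-- The standard coset representatives at `v ∉ SS4`. -/
def dd (v : Pl) (n : ℕ) : AAˣ := open Classical in if h : v ∉ SS4 then (tree v h).choose n else 1

theorem dd_spec (v : Pl) (hv : v ∉ SS4) : dd v 0 = 1 ∧
    (∀ n, Even (ord v (nrd (dd v n : AA)) - n)) ∧
    (∀ (n m : ℕ) (x : KKˣ), (dd v n)⁻¹ * inKu x * dd v m ∈ UU v ↔ n = m ∧ x ∈ Rn v n) ∧
    (∀ g : AAˣ, ∃ (n : ℕ) (x y : KKˣ), (∀ w, w ≠ v → inKu x ∈ UU w) ∧ y ∈ Rn v 0 ∧
      (dd v n)⁻¹ * (inKu (x * y))⁻¹ * g ∈ UU v) := by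
  have h := (tree v hv).choose_spec
  have e : dd v = (tree v hv).choose := by
    funext n
    simp [dd, hv]
  rw [e]
  exact h

/-- Primitive at `v`: the coset is in the orbit of the local units. -/
def Prim (v : Pl) (g : AAˣ) : Prop := ∃ n : ℕ, ∃ y ∈ Rn v 0, (dd v n)⁻¹ * (inKu y)⁻¹ * g ∈ UU v

theorem prim_one (v : Pl) (hv : v ∉ SS4) : Prim v 1 := by
  refine ⟨0, 1, (Rn v 0).one_mem, ?_⟩
  rw [(dd_spec v hv).1, map_one, inv_one, mul_one, mul_one]
  exact (UU v).one_mem

theorem prim_right (v : Pl) (g u : AAˣ) (hu : u ∈ UU v) : Prim v (g * u) ↔ Prim v g := by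
  constructor
  · rintro ⟨n, y, hy, h⟩
    refine ⟨n, y, hy, ?_⟩
    have := (UU v).mul_mem h ((UU v).inv_mem hu)
    rwa [← mul_assoc, mul_inv_cancel_right] at this
  · rintro ⟨n, y, hy, h⟩
    refine ⟨n, y, hy, ?_⟩
    rw [← mul_assoc]
    exact (UU v).mul_mem h hu

theorem prim_left (v : Pl) (hv : v ∉ SS4) (x : KKˣ) (g : AAˣ) (hg : Prim v g) :
    Prim v (inKu x * g) ↔ x ∈ Rn v 0 := by
  obtain ⟨n, y, hy, h⟩ := hg
  constructor
  · rintro ⟨m, y', hy', h'⟩
    have h1 := (UU v).mul_mem h' ((UU v).inv_mem h)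
    have h2 : (dd v m)⁻¹ * (inKu y')⁻¹ * (inKu x * g) * ((dd v n)⁻¹ * (inKu y)⁻¹ * g)⁻¹ =
        (dd v m)⁻¹ * inKu (y'⁻¹ * x * y) * dd v n := by
      rw [map_mul, map_mul, map_inv]
      group
    rw [h2] at h1
    have h3 := ((dd_spec v hv).2.2.1 m n _).1 h1
    have h4 := Rn_mono v (Nat.zero_le m) h3.2
    have h5 := (Rn v 0).mul_mem ((Rn v 0).mul_mem hy' h4) ((Rn v 0).inv_mem hy)
    have h6 : y' * (y'⁻¹ * x * y) * y⁻¹ = x := by group
    rwa [h6] at h5
  · intro hx
    refine ⟨n, x * y, (Rn v 0).mul_mem hx hy, ?_⟩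
    have h2 : (dd v n)⁻¹ * (inKu (x * y))⁻¹ * (inKu x * g) = (dd v n)⁻¹ * (inKu y)⁻¹ * g := by
      rw [map_mul]
      group
    rwa [h2]

theorem prim_global (g : AAˣ) : ∃ t : KKˣ, ∀ v, v ∉ SS4 → Prim v ((inKu t)⁻¹ * g) := by
  classical
  have key : ∀ T : Finset Pl, ∃ t : KKˣ, (∀ v ∈ T, v ∉ SS4 → Prim v ((inKu t)⁻¹ * g)) ∧
      ∀ v, v ∉ T → inKu t ∈ UU v := by
    intro T
    induction T using Finset.induction_on with
    | empty => exact ⟨1, by simp, fun v _ => by rw [map_one]; exact (UU v).one_mem⟩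
    | insert w T hw ih =>
      obtain ⟨t, h1, h2⟩ := ih
      by_cases hwS : w ∈ SS4
      · refine ⟨t, ?_, fun v hv => h2 v fun hc => hv (Finset.mem_insert_of_mem hc)⟩
        intro v hv hvS
        rcases Finset.mem_insert.1 hv with rfl | hv
        · exact absurd hwS hvS
        · exact h1 v hv hvS
      · obtain ⟨n, x, y, hx, hy, h⟩ := (dd_spec w hwS).2.2.2 ((inKu t)⁻¹ * g)
        have e : ∀ z : AAˣ, (inKu (t * x))⁻¹ * z = inKu x⁻¹ * ((inKu t)⁻¹ * z) := by
          intro z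
          rw [map_mul, map_inv]
          group
        refine ⟨t * x, ?_, ?_⟩
        · intro v hv hvS
          rcases Finset.mem_insert.1 hv with rfl | hvT
          · refine ⟨n, y, hy, ?_⟩
            have h2 : (dd v n)⁻¹ * (inKu y)⁻¹ * ((inKu (t * x))⁻¹ * g) =
                (dd v n)⁻¹ * (inKu (x * y))⁻¹ * ((inKu t)⁻¹ * g) := by
              rw [mul_comm t x, map_mul, map_mul]
              have h3 : inKu x * inKu t = inKu t * inKu x := by
                rw [← map_mul, ← map_mul, mul_comm]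
              rw [h3]
              group
            rwa [h2]
          · have hvw : v ≠ w := by
              rintro rfl
              exact hw hvT
            rw [e]
            refine (prim_left v hvS x⁻¹ _ (h1 v hvT hvS)).2 ?_
            exact (Rn v 0).inv_mem ((UU_iff_Rn hvS x).1 (hx v hvw))
        · intro v hv
          rw [Finset.mem_insert, not_or] at hv
          rw [map_mul]
          exact (UU v).mul_mem (h2 v hv.2) (hx v hv.1)
  obtain ⟨t, h1, h2⟩ := key (UU_finite g).toFinset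
  refine ⟨t, fun v hv => ?_⟩
  by_cases hvT : v ∈ (UU_finite g).toFinset
  · exact h1 v hvT hv
  · have hg : g ∈ UU v := by
      by_contra hc
      exact hvT ((Set.Finite.mem_toFinset _).2 hc)
    rw [prim_right v _ g hg, ← map_inv]
    have := (prim_left v hv t⁻¹ 1 (prim_one v hv)).2
      ((Rn v 0).inv_mem ((UU_iff_Rn hv t).1 (h2 v hvT)))
    rwa [mul_one] at this

theorem K_S4 (x : KKˣ) (v : Pl) (hv : v ∈ SS4) : inKu x ∈ UU v := by
  unfold UU
  rw [if_pos hv]
  show Even (ord v (nrd (inK (x : KK))))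
  rw [nrd_inK]
  exact inert_even v hv x.ne_zero

/-- Elements of `K^×` which are conjugate to elements of `GO` are in `GO`. -/
theorem conj_GO (x : KKˣ) (g : AAˣ) (h : g⁻¹ * inKu x * g ∈ GO) : inKu x ∈ GO := by
  rw [mem_GO] at h ⊢
  intro v
  by_cases hv : v ∈ SS4
  · exact K_S4 x v hv
  · obtain ⟨n, a, y, -, -, hu⟩ := (dd_spec v hv).2.2.2 g
    set s := a * y with hs
    have h1 := (UU v).mul_mem ((UU v).mul_mem hu (h v)) ((UU v).inv_mem hu)
    have h2 : (dd v n)⁻¹ * (inKu s)⁻¹ * g * (g⁻¹ * inKu x * g) * ((dd v n)⁻¹ * (inKu s)⁻¹ * g)⁻¹ =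
        (dd v n)⁻¹ * inKu x * dd v n := by
      have h3 : (inKu s)⁻¹ * inKu x * inKu s = inKu x := by
        rw [← map_inv, ← map_mul, ← map_mul, mul_comm s⁻¹ x, inv_mul_cancel_right]
      calc _ = (dd v n)⁻¹ * ((inKu s)⁻¹ * inKu x * inKu s) * dd v n := by group
        _ = _ := by rw [h3]
    rw [h2] at h1
    exact (UU_iff_Rn hv x).2 (Rn_mono v (Nat.zero_le n) (((dd_spec v hv).2.2.1 n n x).1 h1).2)

end

end Pool.Agent.Work.MP_14c213_gt
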