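import Pool.Agent.Work.MP_14c213_gt.B.KapB
import Pool.Agent.Work.MP_14c213_gt.B.RecB
import Pool.Agent.Work.MP_14c213_gt.B.PrimB

/-!
λ(x) = ∏ om v ^ (½ ord v (NK x)) on elements of K^× ∩ GO (all orders even). NK (z) = z²: reciprocity.
NK ε = -1, NK c = 3 and ord 3 = 2 at the place over 3, zero elsewhere, om = -1 there.
-/

namespace Pool.Agent.Work.MP_14c213_gt

open Matrix IsDedekindDomain
open scoped Matrix NumberField QuadraticAlgebra

noncomputable section

def lam (x : KKˣ) : ℤˣ := ∏ᶠ v : Pl, om v ^ (ord v (NK (x : KK)) / 2)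

theorem lam_even (x : KKˣ) (hx : inKu x ∈ GO) (v : Pl) : Even (ord v (NK (x : KK))) := by
  rw [mem_GO] at hx
  have h := UU_even (hx v)
  have e : nrd ((inKu x : AAˣ) : AA) = NK (x : KK) := nrd_inK _
  rwa [e] at h

private theorem lamb_ne (x : KKˣ) : NK (x : KK) ≠ 0 := by
  intro h
  have h1 := NK_mul (x : KK) ((x⁻¹ : KKˣ) : KK)
  rw [Units.mul_inv, NK_one, h, zero_mul] at h1
  exact one_ne_zero h1

private theorem lamb_fin (x : KKˣ) :
    Function.HasFiniteMulSupport (fun v : Pl => om v ^ (ord v (NK (x : KK)) / 2)) := by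
  refine (ord_finite (lamb_ne x)).subset ?_
  intro v hv
  simp only [Function.mem_mulSupport] at hv
  simp only [Set.mem_ofPred_eq]
  intro h
  exact hv (by rw [h]; simp)

theorem lam_mul (x y : KKˣ) (hx : inKu x ∈ GO) (hy : inKu y ∈ GO) : lam (x * y) = lam x * lam y := by
  rw [lam, lam, lam, ← finprod_mul_distrib (lamb_fin x) (lamb_fin y)]
  refine finprod_congr fun v => ?_
  rw [← _root_.zpow_add, Units.val_mul, NK_mul, ord_mul v (lamb_ne x) (lamb_ne y)]
  obtain ⟨a, ha⟩ := lam_even x hx v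
  obtain ⟨b, hb⟩ := lam_even y hy v
  rw [ha, hb]
  congr 1
  omega

theorem lam_epu : lam epu = 1 := by
  rw [lam]
  have h : ∀ v : Pl, om v ^ (ord v (NK (epu : KK)) / 2) = 1 := by
    intro v
    have e : NK (epu : KK) = -1 := NK_eps
    rw [e]
    have : ord v (-1) = 0 := by
      unfold ord
      rw [Valuation.map_neg, map_one, WithZero.log_one, neg_zero]
    rw [this]
    simp
  rw [finprod_congr h, finprod_one]

theorem lam_ccu : lam ccu = -1 := by
  obtain ⟨P2, P3, P17, P23, hS, m2, m3, m17, m23, n2, n3, n17, n23, -⟩ := S4_list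
  have k3 := three_mem P3 m3
  have e : NK (ccu : KK) = 3 := NK_cc
  have hval : ∀ v : Pl, v ≠ P3 → (3 : 𝓞 kk) ∉ v.asIdeal := by
    intro v hv h
    have h1 := three_mem v h
    have h2 := h1.1
    rw [hS] at h2
    simp only [Set.mem_insert_iff, Set.mem_singleton_iff] at h2
    have hcop : ∀ (Q : Pl) (n : ℕ), ((n : ℕ) : 𝓞 kk) ∈ Q.asIdeal → (3 : 𝓞 kk) ∈ Q.asIdeal →
        Nat.Coprime n 3 → False := by
      intro Q n hn h3 hc
      have h4 : (1 : 𝓞 kk) ∈ Q.asIdeal := by
        obtain ⟨a, b, hab⟩ := Nat.isCoprime_iff_coprime.2 hc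
        have h5 : ((a : ℤ) : 𝓞 kk) * ((n : ℕ) : 𝓞 kk) + ((b : ℤ) : 𝓞 kk) * 3 = 1 := by
          exact_mod_cast congrArg (fun z : ℤ => (z : 𝓞 kk)) hab
        rw [← h5]
        exact Ideal.add_mem _ (Ideal.mul_mem_left _ _ hn) (Ideal.mul_mem_left _ _ h3)
      exact Q.isPrime.ne_top ((Ideal.eq_top_iff_one _).2 h4)
    rcases h2 with rfl | rfl | rfl | rfl
    · exact hcop _ 2 (by exact_mod_cast m2) h (by norm_num)
    · exact hv rfl
    · exact hcop _ 17 (by exact_mod_cast m17) h (by norm_num)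
    · exact hcop _ 23 (by exact_mod_cast m23) h (by norm_num)
  rw [lam, finprod_eq_single _ P3]
  · rw [e, k3.2, om_S4 P3 k3.1]
    rfl
  · intro v hv
    rw [e]
    have h3 := hval v hv
    have : ord v 3 = 0 := by
      have h1 : v.valuation kk (algebraMap (𝓞 kk) kk 3) ≤ 1 := v.valuation_le_one _
      have h2 : ¬ v.valuation kk (algebraMap (𝓞 kk) kk 3) < 1 := by
        rw [HeightOneSpectrum.valuation_lt_one_iff_mem]
        exact h3
      rw [map_ofNat] at h1 h2
      have h4 := le_antisymm h1 (not_lt.1 h2)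
      unfold ord
      rw [h4, WithZero.log_one, neg_zero]
    rw [this]
    simp

end

end Pool.Agent.Work.MP_14c213_gt
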