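import Pool.Agent.Work.MP_14c213_gt.B.InGen
import Pool.Agent.Work.MP_14c213_gt.B.S4a

/-!
b is a norm modulo all powers of v (v ∉ SS4, so v does not divide 3 b). Start with norm_onto (for v over 2 the
residue field has characteristic 2: take x₁ = 0 and x₀ a square root; b is prime to v
so the norm form value is a unit), then lift: for β = s + tζ with N β - b ∈ v^n, N β a unit at v, find
δ ∈ v^n (pairs) with Tr(β σ δ) = b - N β modulo v^(n+1) (the trace form x₀y₀·2 - x₀y₁ - x₁y₀ + 2 x₁y₁ has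
determinant 3, a unit), N δ ∈ v^(2n).
-/

namespace Pool.Agent.Work.MP_14c213_gt

open Matrix IsDedekindDomain
open scoped Matrix NumberField QuadraticAlgebra

noncomputable section

/-- `b` as an integer. -/
def bO : 𝓞 kk := ⟨bq, by
  show IsIntegral ℤ bq
  simpa [bq] using int_kk 43 7⟩

private theorem NormLift_start (v : Pl) (hv : v ∉ SS4) : ∃ s t : 𝓞 kk,
    s ^ 2 - s * t + t ^ 2 - bO ∈ v.asIdeal := by
  classical
  have h3 : (3 : 𝓞 kk) ∉ v.asIdeal := fun h => hv (three_mem v h).1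
  by_cases h2 : (2 : 𝓞 kk) ∈ v.asIdeal
  · have hmax : v.asIdeal.IsMaximal := v.isMaximal
    let _ : Field (𝓞 kk ⧸ v.asIdeal) := Ideal.Quotient.field v.asIdeal
    have hfin : Finite (𝓞 kk ⧸ v.asIdeal) := Ring.HasFiniteQuotients.finiteQuotient v.ne_bot
    have h2' : (2 : 𝓞 kk ⧸ v.asIdeal) = 0 := by
      rw [← Ideal.Quotient.eq_zero_iff_mem, map_ofNat] at h2
      exact h2
    have hchar : ringChar (𝓞 kk ⧸ v.asIdeal) = 2 := by
      have h4 : ringChar (𝓞 kk ⧸ v.asIdeal) ∣ 2 := by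
        refine ringChar.dvd ?_
        exact_mod_cast h2'
      exact ((Nat.prime_two.eq_one_or_self_of_dvd _ h4).resolve_left CharP.ringChar_ne_one)
    obtain ⟨x, hx⟩ := FiniteField.isSquare_of_char_two hchar (Ideal.Quotient.mk v.asIdeal bO)
    obtain ⟨s, rfl⟩ := Ideal.Quotient.mk_surjective x
    refine ⟨s, 0, ?_⟩
    rw [← Ideal.Quotient.eq_zero_iff_mem, map_sub, hx]
    simp [pow_two]
  · exact norm_onto v h2 h3 bO

private theorem NormLift_step (v : Pl) (hv : v ∉ SS4) (n : ℕ) (s t : 𝓞 kk)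
    (h : s ^ 2 - s * t + t ^ 2 - bO ∈ v.asIdeal ^ (n + 1)) : ∃ s' t' : 𝓞 kk,
    s' ^ 2 - s' * t' + t' ^ 2 - bO ∈ v.asIdeal ^ (n + 2) ∧ s' - s ∈ v.asIdeal ^ (n + 1) ∧
      t' - t ∈ v.asIdeal ^ (n + 1) := by
  have h3 : (3 : 𝓞 kk) ∉ v.asIdeal := fun h => hv (three_mem v h).1
  have hb : bO ∉ v.asIdeal := by
    intro h
    apply hv
    have h1 : v.valuation kk bq < 1 := (v.valuation_lt_one_iff_mem bO).2 h
    have hb0 : bq ≠ 0 := by
      intro h0
      have := congrArg QuadraticAlgebra.im h0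
      simp [bq] at this
    have h4 := (val_lt_one hb0).1 h1
    show ord v bq ≠ 0
    exact h4.ne'
  have hprime := v.isPrime
  have hlow : s ^ 2 - s * t + t ^ 2 - bO ∈ v.asIdeal :=
    Ideal.pow_le_self (Nat.succ_ne_zero n) h
  have hinv : ∀ α : 𝓞 kk, α ∉ v.asIdeal → ∃ α' : 𝓞 kk, α * α' - 1 ∈ v.asIdeal := by
    intro α hα
    have hmax : v.asIdeal.IsMaximal := v.isMaximal
    obtain ⟨y, i, hi, hy⟩ := hmax.exists_inv hα
    refine ⟨y, ?_⟩
    have : α * y - 1 = -i := by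
      linear_combination hy
    rw [this]
    exact v.asIdeal.neg_mem hi
  have hquad : ∀ δ ε : 𝓞 kk, δ ∈ v.asIdeal ^ (n + 1) → ε ∈ v.asIdeal ^ (n + 1) →
      δ * ε ∈ v.asIdeal ^ (n + 2) := by
    intro δ ε h1 h2
    have h4 : δ * ε ∈ v.asIdeal ^ (n + 1 + (n + 1)) := by
      rw [pow_add]
      exact Ideal.mul_mem_mul h1 h2
    exact Ideal.pow_le_pow_right (by omega) h4
  have hlin : ∀ α α' : 𝓞 kk, α * α' - 1 ∈ v.asIdeal →
      (α * α' - 1) * (bO - (s ^ 2 - s * t + t ^ 2)) ∈ v.asIdeal ^ (n + 2) := by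
    intro α α' h1
    have h4 : v.asIdeal ^ (n + 2) = v.asIdeal * v.asIdeal ^ (n + 1) := by
      rw [← pow_succ']
    rw [h4]
    refine Ideal.mul_mem_mul h1 ?_
    rw [← neg_sub]
    exact (v.asIdeal ^ (n + 1)).neg_mem h
  have hc : bO - (s ^ 2 - s * t + t ^ 2) ∈ v.asIdeal ^ (n + 1) := by
    rw [← neg_sub]
    exact (v.asIdeal ^ (n + 1)).neg_mem h
  by_cases h1 : 2 * s - t ∈ v.asIdeal
  · have h2 : 2 * t - s ∉ v.asIdeal := by
      intro h2
      have ht : t ∈ v.asIdeal := by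
        have : 3 * t ∈ v.asIdeal := by
          have h4 : 3 * t = (2 * s - t) + 2 * (2 * t - s) := by ring
          rw [h4]
          exact v.asIdeal.add_mem h1 (v.asIdeal.mul_mem_left _ h2)
        exact (hprime.mem_or_mem this).resolve_left h3
      have hs : s ∈ v.asIdeal := by
        have h4 : s = 2 * t - (2 * t - s) := by ring
        rw [h4]
        exact v.asIdeal.sub_mem (v.asIdeal.mul_mem_left _ ht) h2
      apply hb
      have h4 : bO = (s * s - s * t + t * t) - (s ^ 2 - s * t + t ^ 2 - bO) := by ring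
      rw [h4]
      exact v.asIdeal.sub_mem (v.asIdeal.add_mem (v.asIdeal.sub_mem (v.asIdeal.mul_mem_left _ hs)
        (v.asIdeal.mul_mem_left _ ht)) (v.asIdeal.mul_mem_left _ ht)) hlow
    obtain ⟨α', hα'⟩ := hinv _ h2
    set c := bO - (s ^ 2 - s * t + t ^ 2) with hcdef
    have hδ : α' * c ∈ v.asIdeal ^ (n + 1) := (v.asIdeal ^ (n + 1)).mul_mem_left _ hc
    refine ⟨s, t + α' * c, ?_, by simp, by simpa using hδ⟩
    have h4 : s ^ 2 - s * (t + α' * c) + (t + α' * c) ^ 2 - bO =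
        ((2 * t - s) * α' - 1) * c + (α' * c) * (α' * c) := by
      rw [hcdef]
      ring
    rw [h4]
    exact (v.asIdeal ^ (n + 2)).add_mem (hlin _ _ hα') (hquad _ _ hδ hδ)
  · obtain ⟨α', hα'⟩ := hinv _ h1
    set c := bO - (s ^ 2 - s * t + t ^ 2) with hcdef
    have hδ : α' * c ∈ v.asIdeal ^ (n + 1) := (v.asIdeal ^ (n + 1)).mul_mem_left _ hc
    refine ⟨s + α' * c, t, ?_, by simpa using hδ, by simp⟩
    have h4 : (s + α' * c) ^ 2 - (s + α' * c) * t + t ^ 2 - bO =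
        ((2 * s - t) * α' - 1) * c + (α' * c) * (α' * c) := by
      rw [hcdef]
      ring
    rw [h4]
    exact (v.asIdeal ^ (n + 2)).add_mem (hlin _ _ hα') (hquad _ _ hδ hδ)

theorem norm_lift (v : Pl) (hv : v ∉ SS4) : ∃ s t : ℕ → 𝓞 kk, ∀ n,
    s n ^ 2 - s n * t n + t n ^ 2 - bO ∈ v.asIdeal ^ n ∧ s (n + 1) - s n ∈ v.asIdeal ^ n ∧
    t (n + 1) - t n ∈ v.asIdeal ^ n := by
  obtain ⟨s0, t0, h0⟩ := NormLift_start v hv
  choose S T hST using fun (n : ℕ) (p : {p : 𝓞 kk × 𝓞 kk //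
    p.1 ^ 2 - p.1 * p.2 + p.2 ^ 2 - bO ∈ v.asIdeal ^ (n + 1)}) =>
    NormLift_step v hv n p.1.1 p.1.2 p.2
  let F : ∀ n : ℕ, {p : 𝓞 kk × 𝓞 kk //
      p.1 ^ 2 - p.1 * p.2 + p.2 ^ 2 - bO ∈ v.asIdeal ^ (n + 1)} := fun n =>
    Nat.rec (motive := fun n => {p : 𝓞 kk × 𝓞 kk //
      p.1 ^ 2 - p.1 * p.2 + p.2 ^ 2 - bO ∈ v.asIdeal ^ (n + 1)})
      ⟨(s0, t0), by simpa using h0⟩ (fun n p => ⟨(S n p, T n p), (hST n p).1⟩) n
  have hF : ∀ n, F (n + 1) = ⟨(S n (F n), T n (F n)), (hST n (F n)).1⟩ := fun n => rfl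
  refine ⟨fun n => (F (n - 1)).1.1, fun n => (F (n - 1)).1.2, fun n => ?_⟩
  rcases n with _ | n
  · simp
  · refine ⟨(F n).2, ?_, ?_⟩
    · exact (hST n (F n)).2.1
    · exact (hST n (F n)).2.2

end

end Pool.Agent.Work.MP_14c213_gt
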