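import Pool.Agent.Work.MP_14c213_gt.B.CompV
import Pool.Agent.Work.MP_14c213_gt.B.KvTop
import Pool.Agent.Work.MP_14c213_gt.B.NormLift
import Pool.Agent.Work.MP_14c213_gt.B.S4b

/-!
A ⊗ k_v = M₂(k_v) for v ∉ SS4. β = lim (s_n + t_n ζ) (norm_lift, completeness) has norm b: β₀² - β₀β₁ + β₁² = b,
β₀, β₁ integral. A acts on K_v = k_v + k_v ζ by (x + y j) t = x t + y β σ(t). In the basis 1, ζ:
inK x ↦ (x₀, -x₁; x₁, x₀ - x₁), j ↦ (β₀, β₁ - β₀; β₁, -β₀). The map from the coordinates (re, imI, imJ, imK) to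
the four entries is given by a 4 by 4 integral matrix whose determinant is a unit at v (3 b up to sign and
squares), whence `int` and `dense`.
-/

namespace Pool.Agent.Work.MP_14c213_gt

open Matrix IsDedekindDomain
open scoped Matrix NumberField QuadraticAlgebra

noncomputable section

/-- Local splitting. -/
structure LocR (v : Pl) (φ : AA →+* Matrix (Fin 2) (Fin 2) (Kv v)) : Prop where
  sc : ∀ z : kk, φ (algebraMap kk AA z) = algebraMap kk (Kv v) z • (1 : Matrix (Fin 2) (Fin 2) (Kv v))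
  det : ∀ g, (φ g).det = algebraMap kk (Kv v) (nrd g)
  tr : ∀ g, (φ g).trace = algebraMap kk (Kv v) (trd g)
  int : ∀ g, g ∈ OO v ↔ ∀ i j, Valued.v (φ g i j) ≤ 1
  dense : DenseRange φ
  inK : ∀ x : KK, φ (inK x) = !![algebraMap kk (Kv v) x.re, -algebraMap kk (Kv v) x.im;
    algebraMap kk (Kv v) x.im, algebraMap kk (Kv v) (x.re - x.im)]

/-- `b` is a norm from `K_v`. -/
private lemma lp_beta (v : Pl) (hv : v ∉ SS4) : ∃ β₀ β₁ : Kv v, Valued.v β₀ ≤ 1 ∧ Valued.v β₁ ≤ 1 ∧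
    β₀ ^ 2 - β₀ * β₁ + β₁ ^ 2 = algebraMap kk (Kv v) bq := by
  obtain ⟨s, t, hst⟩ := norm_lift v hv
  set b : Kv v := algebraMap kk (Kv v) bq with hb
  let C : ℕ → Set (Kv v × Kv v) := fun n =>
    {p | (Valued.v p.1 ≤ 1 ∧ Valued.v p.2 ≤ 1) ∧
      Valued.v (p.1 ^ 2 - p.1 * p.2 + p.2 ^ 2 - b) ≤ WithZero.exp (-(n : ℤ))}
  have hK := (Kv_ball v 1).1
  have hcl : ∀ n, IsClosed (C n) := by
    intro n
    have h1 : IsClosed {x : Kv v | Valued.v x ≤ WithZero.exp (-(n : ℤ))} := (Kv_ball v _).1.isClosed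
    have h2 : Continuous fun p : Kv v × Kv v => p.1 ^ 2 - p.1 * p.2 + p.2 ^ 2 - b := by fun_prop
    have h3 : IsClosed {p : Kv v × Kv v | Valued.v p.1 ≤ 1} := hK.isClosed.preimage continuous_fst
    have h4 : IsClosed {p : Kv v × Kv v | Valued.v p.2 ≤ 1} := hK.isClosed.preimage continuous_snd
    exact (h3.inter h4).inter (h1.preimage h2)
  have hne : (⋂ n, C n).Nonempty := by
    refine IsCompact.nonempty_iInter_of_sequence_nonempty_isCompact_isClosed C ?_ ?_ ?_ hcl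
    · intro n p hp
      refine ⟨hp.1, hp.2.trans ?_⟩
      rw [WithZero.exp_le_exp]
      push_cast
      omega
    · intro n
      refine ⟨(algebraMap kk (Kv v) (s n : kk), algebraMap kk (Kv v) (t n : kk)), ⟨?_, ?_⟩, ?_⟩
      · show Valued.v (algebraMap kk (Kv v) (s n : kk)) ≤ 1
        rw [Kv_val]
        exact v.valuation_le_one (s n)
      · show Valued.v (algebraMap kk (Kv v) (t n : kk)) ≤ 1
        rw [Kv_val]
        exact v.valuation_le_one (t n)
      · show Valued.v (algebraMap kk (Kv v) (s n : kk) ^ 2 - algebraMap kk (Kv v) (s n : kk) *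
          algebraMap kk (Kv v) (t n : kk) + algebraMap kk (Kv v) (t n : kk) ^ 2 - b) ≤ _
        have h5 : algebraMap kk (Kv v) (s n : kk) ^ 2 - algebraMap kk (Kv v) (s n : kk) *
          algebraMap kk (Kv v) (t n : kk) + algebraMap kk (Kv v) (t n : kk) ^ 2 - b =
          algebraMap kk (Kv v) ((s n ^ 2 - s n * t n + t n ^ 2 - bO : 𝓞 kk) : kk) := by
          rw [hb]
          have e1 : ((s n ^ 2 - s n * t n + t n ^ 2 - bO : 𝓞 kk) : kk) =
            (s n : kk) ^ 2 - (s n : kk) * (t n : kk) + (t n : kk) ^ 2 - bq := rfl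
          rw [e1]
          simp only [map_sub, map_add, map_mul, map_pow]
        rw [h5, Kv_val]
        have h8 := (v.intValuation_le_pow_iff_mem (s n ^ 2 - s n * t n + t n ^ 2 - bO) n).2 (hst n).1
        have h9 := v.valuation_of_algebraMap (K := kk) (s n ^ 2 - s n * t n + t n ^ 2 - bO)
        rw [← h9] at h8
        exact h8
    · refine (hK.prod hK).of_isClosed_subset (hcl 0) ?_
      rintro p hp
      exact ⟨hp.1.1, hp.1.2⟩
  obtain ⟨⟨β₀, β₁⟩, hβ⟩ := hne
  rw [Set.mem_iInter] at hβ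
  refine ⟨β₀, β₁, (hβ 0).1.1, (hβ 0).1.2, ?_⟩
  have h6 : Valued.v (β₀ ^ 2 - β₀ * β₁ + β₁ ^ 2 - b) = 0 := by
    by_contra h7
    obtain ⟨n, hn⟩ := (kt_exp _ (kt_lt _ h7).2).exists
    exact absurd (((hβ n).2.trans hn).trans_lt (kt_lt _ h7).1) (lt_irrefl _)
  rw [map_eq_zero] at h6
  exact sub_eq_zero.1 h6

section gen

variable {F : Type*} [Field F] [Algebra kk F]

/-- The images of the basis. -/
def lpZ (F : Type*) [Field F] : Matrix (Fin 2) (Fin 2) F := !![0, -1; 1, -1]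
def lpJ (β₀ β₁ : F) : Matrix (Fin 2) (Fin 2) F := !![β₀, β₁ - β₀; β₁, -β₀]

private lemma lp_smul (z : kk) (M : Matrix (Fin 2) (Fin 2) F) :
    z • M = algebraMap kk F z • M := by
  ext i j
  rw [Matrix.smul_apply, Matrix.smul_apply, Algebra.smul_def, smul_eq_mul]

def lpB (β₀ β₁ : F) (h : β₀ ^ 2 - β₀ * β₁ + β₁ ^ 2 = algebraMap kk F bq) :
    QuaternionAlgebra.Basis (Matrix (Fin 2) (Fin 2) F) (-1 : kk) (-1) bq where
  i := lpZ F
  j := lpJ β₀ β₁
  k := lpZ F * lpJ β₀ β₁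
  i_mul_i := by
    rw [lpZ, Matrix.mul_fin_two]
    ext i j
    fin_cases i <;> fin_cases j <;> simp
  j_mul_j := by
    rw [lp_smul, ← h, lpJ, Matrix.mul_fin_two]
    ext i j
    fin_cases i <;> fin_cases j <;> simp <;> ring
  i_mul_j := rfl
  j_mul_i := by
    rw [lpZ, lpJ, Matrix.mul_fin_two, Matrix.mul_fin_two]
    ext i j
    fin_cases i <;> fin_cases j <;> simp <;> ring

/-- The splitting. -/
def lpF (β₀ β₁ : F) (h : β₀ ^ 2 - β₀ * β₁ + β₁ ^ 2 = algebraMap kk F bq) :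
    AA →+* Matrix (Fin 2) (Fin 2) F :=
  ((QuaternionAlgebra.lift (lpB β₀ β₁ h)) : AA →ₐ[kk] Matrix (Fin 2) (Fin 2) F).toRingHom

private lemma lpF_apply (β₀ β₁ : F)
    (h : β₀ ^ 2 - β₀ * β₁ + β₁ ^ 2 = algebraMap kk F bq) (g : AA) :
    lpF β₀ β₁ h g =
      !![algebraMap kk F g.re + algebraMap kk F g.imJ * β₀ - algebraMap kk F g.imK * β₁,
        -algebraMap kk F g.imI + algebraMap kk F g.imJ * (β₁ - β₀) +
          algebraMap kk F g.imK * β₀;
        algebraMap kk F g.imI + algebraMap kk F g.imJ * β₁ +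
          algebraMap kk F g.imK * (β₀ - β₁),
        algebraMap kk F g.re - algebraMap kk F g.imI - algebraMap kk F g.imJ * β₀ +
          algebraMap kk F g.imK * β₁] := by
  show (lpB β₀ β₁ h).lift g = _
  have e1 : (lpB β₀ β₁ h).lift g = algebraMap kk _ g.re + g.imI • lpZ F + g.imJ • lpJ β₀ β₁ +
      g.imK • (lpZ F * lpJ β₀ β₁) := rfl
  rw [e1, Algebra.algebraMap_eq_smul_one, lpZ, lpJ, Matrix.mul_fin_two]
  ext i j
  fin_cases i <;> fin_cases j <;> simp <;> simp only [Algebra.smul_def] <;> ring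

private lemma lpF_sc (β₀ β₁ : F) (h : β₀ ^ 2 - β₀ * β₁ + β₁ ^ 2 = algebraMap kk F bq) (z : kk) :
    lpF β₀ β₁ h (algebraMap kk AA z) = algebraMap kk F z • (1 : Matrix (Fin 2) (Fin 2) F) := by
  rw [lpF_apply]
  ext i j
  fin_cases i <;> fin_cases j <;> simp

private lemma lpF_inK (β₀ β₁ : F) (h : β₀ ^ 2 - β₀ * β₁ + β₁ ^ 2 = algebraMap kk F bq) (x : KK) :
    lpF β₀ β₁ h (inK x) = !![algebraMap kk F x.re, -algebraMap kk F x.im;
    algebraMap kk F x.im, algebraMap kk F (x.re - x.im)] := by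
  rw [lpF_apply]
  ext i j
  fin_cases i <;> fin_cases j <;> simp [inK, mkA]

/-- The entries of the matrix with coordinates `a b c d`. -/
def lpM (β₀ β₁ a b c d : F) : Matrix (Fin 2) (Fin 2) F :=
  !![a + c * β₀ - d * β₁, -b + c * (β₁ - β₀) + d * β₀;
     b + c * β₁ + d * (β₀ - β₁), a - b - c * β₀ + d * β₁]

omit [Algebra kk F] in
private lemma lpM_c (β₀ β₁ a b c d : F) :
    3 * (β₀ ^ 2 - β₀ * β₁ + β₁ ^ 2) * c = (β₀ + β₁) * (lpM β₀ β₁ a b c d 0 1 + lpM β₀ β₁ a b c d 1 0) +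
      (2 * β₀ - β₁) * (lpM β₀ β₁ a b c d 0 0 - lpM β₀ β₁ a b c d 1 1 - lpM β₀ β₁ a b c d 1 0) := by
  simp [lpM]
  ring

omit [Algebra kk F] in
private lemma lpM_d (β₀ β₁ a b c d : F) :
    3 * (β₀ ^ 2 - β₀ * β₁ + β₁ ^ 2) * d = (2 * β₀ - β₁) * (lpM β₀ β₁ a b c d 0 1 + lpM β₀ β₁ a b c d 1 0) -
      (2 * β₁ - β₀) * (lpM β₀ β₁ a b c d 0 0 - lpM β₀ β₁ a b c d 1 1 - lpM β₀ β₁ a b c d 1 0) := by
  simp [lpM]
  ring

omit [Algebra kk F] in
private lemma lpM_b (β₀ β₁ a b c d : F) :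
    b = lpM β₀ β₁ a b c d 1 0 - c * β₁ - d * (β₀ - β₁) := by
  simp [lpM]
  ring

omit [Algebra kk F] in
private lemma lpM_a (β₀ β₁ a b c d : F) :
    a = lpM β₀ β₁ a b c d 0 0 - c * β₀ + d * β₁ := by
  simp [lpM]
  ring

omit [Algebra kk F] in
private lemma lpM_surj (β₀ β₁ : F) (h : 3 * (β₀ ^ 2 - β₀ * β₁ + β₁ ^ 2) ≠ 0)
    (M : Matrix (Fin 2) (Fin 2) F) : ∃ a b c d, lpM β₀ β₁ a b c d = M := by
  set D := 3 * (β₀ ^ 2 - β₀ * β₁ + β₁ ^ 2) with hD
  set c := D⁻¹ * ((β₀ + β₁) * (M 0 1 + M 1 0) + (2 * β₀ - β₁) * (M 0 0 - M 1 1 - M 1 0)) with hc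
  set d := D⁻¹ * ((2 * β₀ - β₁) * (M 0 1 + M 1 0) - (2 * β₁ - β₀) * (M 0 0 - M 1 1 - M 1 0)) with hd
  refine ⟨M 0 0 - c * β₀ + d * β₁, M 1 0 - c * β₁ - d * (β₀ - β₁), c, d, ?_⟩
  have e1 : D * c = (β₀ + β₁) * (M 0 1 + M 1 0) + (2 * β₀ - β₁) * (M 0 0 - M 1 1 - M 1 0) := by
    rw [hc, mul_inv_cancel_left₀ h]
  have e2 : D * d = (2 * β₀ - β₁) * (M 0 1 + M 1 0) - (2 * β₁ - β₀) * (M 0 0 - M 1 1 - M 1 0) := by
    rw [hd, mul_inv_cancel_left₀ h]
  ext i j
  fin_cases i <;> fin_cases j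
  · simp [lpM]
    ring
  · simp only [lpM, Fin.zero_eta, Fin.mk_one, Matrix.of_apply, Matrix.cons_val', Matrix.cons_val_zero,
      Matrix.cons_val_one, Matrix.cons_val_fin_one]
    apply mul_left_cancel₀ h
    linear_combination (2 * β₁ - β₀) * e1 + (2 * β₀ - β₁) * e2 + M 0 1 * hD
  · simp [lpM]
    ring
  · simp only [lpM, Fin.zero_eta, Fin.mk_one, Matrix.of_apply, Matrix.cons_val', Matrix.cons_val_zero,
      Matrix.cons_val_one, Matrix.cons_val_fin_one]
    apply mul_left_cancel₀ h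
    linear_combination (-2 * β₀ + β₁) * e1 + (β₀ + β₁) * e2 + M 1 1 * hD

end gen

private lemma lp_unit (v : Pl) (hv : v ∉ SS4) :
    Valued.v (algebraMap kk (Kv v) (3 * bq)) = 1 := by
  have h3 : (3 : 𝓞 kk) ∉ v.asIdeal := fun h => hv (three_mem v h).1
  have hb0 : bq ≠ 0 := by
    intro h0
    have := congrArg QuadraticAlgebra.im h0
    simp [bq] at this
  have hb : bO ∉ v.asIdeal := by
    intro h
    apply hv
    have h1 : v.valuation kk bq < 1 := (v.valuation_lt_one_iff_mem bO).2 h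
    have h4 := (val_lt_one hb0).1 h1
    exact h4.ne'
  rw [Kv_val, map_mul]
  have e3 : v.valuation kk (3 : kk) = 1 := v.valuation_eq_one_iff_notMem.2 h3
  have eb : v.valuation kk bq = 1 := v.valuation_eq_one_iff_notMem.2 hb
  rw [e3, eb, one_mul]

theorem locphi (v : Pl) (hv : v ∉ SS4) :
    ∃ φ : AA →+* Matrix (Fin 2) (Fin 2) (Kv v), LocR v φ := by
  obtain ⟨β₀, β₁, h0, h1, hβ⟩ := lp_beta v hv
  refine ⟨lpF β₀ β₁ hβ, ?_⟩
  have hu := lp_unit v hv
  have hF := lpF_apply β₀ β₁ hβ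
  constructor
  · exact lpF_sc β₀ β₁ hβ
  · intro g
    rw [hF, Matrix.det_fin_two_of]
    simp only [nrd, NK, xp, yp, map_sub, map_add, map_mul, map_pow]
    linear_combination (-(algebraMap kk (Kv v) g.imJ ^ 2 - algebraMap kk (Kv v) g.imJ *
      algebraMap kk (Kv v) g.imK + algebraMap kk (Kv v) g.imK ^ 2)) * hβ
  · intro g
    rw [hF, Matrix.trace_fin_two_of]
    simp only [trd, map_sub, map_mul, map_ofNat]
    ring
  · intro g
    set a := algebraMap kk (Kv v) g.re with ha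
    set b := algebraMap kk (Kv v) g.imI with hb
    set c := algebraMap kk (Kv v) g.imJ with hc
    set d := algebraMap kk (Kv v) g.imK with hd
    have hM : lpF β₀ β₁ hβ g = lpM β₀ β₁ a b c d := hF g
    have hmem : g ∈ OO v ↔ Valued.v a ≤ 1 ∧ Valued.v b ≤ 1 ∧ Valued.v c ≤ 1 ∧ Valued.v d ≤ 1 := by
      rw [ha, hb, hc, hd, Kv_val, Kv_val, Kv_val, Kv_val]
      exact Iff.rfl
    rw [hmem, hM]
    have h0' : Valued.v β₀ ≤ 1 := h0
    have h1' : Valued.v β₁ ≤ 1 := h1
    simp only [← Valuation.mem_integer_iff] at *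
    constructor
    · rintro ⟨k1, k2, k3, k4⟩ i j
      fin_cases i <;> fin_cases j <;> simp only [lpM, Fin.zero_eta, Fin.mk_one, Matrix.of_apply,
        Matrix.cons_val', Matrix.cons_val_zero, Matrix.cons_val_one, Matrix.cons_val_fin_one] <;>
      repeat' first
        | assumption | apply Subring.add_mem | apply Subring.sub_mem | apply Subring.mul_mem
        | apply Subring.neg_mem | apply Subring.one_mem
    · intro k
      have hD : Valued.v (3 * (β₀ ^ 2 - β₀ * β₁ + β₁ ^ 2) : Kv v) = 1 := by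
        rw [hβ]
        rw [map_mul (algebraMap kk (Kv v)), map_ofNat] at hu
        exact hu
      have k2 : (2 : Kv v) ∈ (Valued.v (R := Kv v)).integer := by
        have := natCast_mem (Valued.v (R := Kv v)).integer 2
        exact_mod_cast this
      have kc : c ∈ (Valued.v (R := Kv v)).integer := by
        have e := lpM_c β₀ β₁ a b c d
        have h9 : Valued.v (3 * (β₀ ^ 2 - β₀ * β₁ + β₁ ^ 2) * c) ≤ 1 := by
          rw [e, ← Valuation.mem_integer_iff]
          have := k 0 0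
          have := k 0 1
          have := k 1 0
          have := k 1 1
          repeat' first
          | assumption | apply Subring.add_mem | apply Subring.sub_mem | apply Subring.mul_mem
        rw [map_mul, hD, one_mul] at h9
        exact h9
      have kd : d ∈ (Valued.v (R := Kv v)).integer := by
        have e := lpM_d β₀ β₁ a b c d
        have h9 : Valued.v (3 * (β₀ ^ 2 - β₀ * β₁ + β₁ ^ 2) * d) ≤ 1 := by
          rw [e, ← Valuation.mem_integer_iff]
          have := k 0 0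
          have := k 0 1
          have := k 1 0
          have := k 1 1
          repeat' first
          | assumption | apply Subring.add_mem | apply Subring.sub_mem | apply Subring.mul_mem
        rw [map_mul, hD, one_mul] at h9
        exact h9
      refine ⟨?_, ?_, kc, kd⟩
      · rw [lpM_a β₀ β₁ a b c d]
        have := k 0 0
        repeat' first
          | assumption | apply Subring.add_mem | apply Subring.sub_mem | apply Subring.mul_mem
      · rw [lpM_b β₀ β₁ a b c d]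
        have := k 1 0
        repeat' first
          | assumption | apply Subring.add_mem | apply Subring.sub_mem | apply Subring.mul_mem
  · intro M
    rw [kt_closure_mat]
    intro r hr
    have hD : (3 * (β₀ ^ 2 - β₀ * β₁ + β₁ ^ 2) : Kv v) ≠ 0 := by
      intro h9
      rw [map_mul (algebraMap kk (Kv v)), map_ofNat, ← hβ, h9, map_zero] at hu
      exact zero_ne_one hu
    obtain ⟨a, b, c, d, hM⟩ := lpM_surj β₀ β₁ hD M
    obtain ⟨a', ha'⟩ := Kv_approx v a r hr
    obtain ⟨b', hb'⟩ := Kv_approx v b r hr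
    obtain ⟨c', hc'⟩ := Kv_approx v c r hr
    obtain ⟨d', hd'⟩ := Kv_approx v d r hr
    refine ⟨_, ⟨⟨a', b', c', d'⟩, rfl⟩, ?_⟩
    intro i j
    have e1 : lpF β₀ β₁ hβ ⟨a', b', c', d'⟩ = lpM β₀ β₁ (algebraMap kk (Kv v) a')
      (algebraMap kk (Kv v) b') (algebraMap kk (Kv v) c') (algebraMap kk (Kv v) d') := hF _
    rw [e1, ← hM]
    have e2 : lpM β₀ β₁ (algebraMap kk (Kv v) a') (algebraMap kk (Kv v) b')
        (algebraMap kk (Kv v) c') (algebraMap kk (Kv v) d') i j - lpM β₀ β₁ a b c d i j =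
        -lpM β₀ β₁ (a - algebraMap kk (Kv v) a') (b - algebraMap kk (Kv v) b')
        (c - algebraMap kk (Kv v) c') (d - algebraMap kk (Kv v) d') i j := by
      fin_cases i <;> fin_cases j <;> simp only [lpM, Fin.zero_eta, Fin.mk_one, Matrix.of_apply,
        Matrix.cons_val', Matrix.cons_val_zero, Matrix.cons_val_one, Matrix.cons_val_fin_one] <;> ring
    rw [e2, Valuation.map_neg]
    have hs : ∀ x y : Kv v, Valued.v x ≤ r → Valued.v y ≤ 1 → Valued.v (x * y) ≤ r := by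
      intro x y hx hy
      rw [map_mul]
      calc _ ≤ r * 1 := mul_le_mul' hx hy
        _ = r := mul_one r
    have hsub : Valued.v (β₁ - β₀) ≤ 1 := Valued.v.map_sub_le h1 h0
    have hsub' : Valued.v (β₀ - β₁) ≤ 1 := Valued.v.map_sub_le h0 h1
    fin_cases i <;> fin_cases j <;> simp only [lpM, Fin.zero_eta, Fin.mk_one, Matrix.of_apply,
        Matrix.cons_val', Matrix.cons_val_zero, Matrix.cons_val_one, Matrix.cons_val_fin_one] <;>
      repeat' first
        | assumption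
        | apply Valued.v.map_add_le
        | apply Valued.v.map_sub_le
        | rw [Valuation.map_neg]
        | (apply hs <;> assumption)
  · exact lpF_inK β₀ β₁ hβ

end

end Pool.Agent.Work.MP_14c213_gt
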