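import Mathlib

/-!
Minkowski's theorem on linear forms: apply MeasureTheory.exists_ne_zero_mem_lattice_of_measure_mul_two_pow_lt_measure to the
lattice ℤⁿ and the convex symmetric body T⁻¹ [-B, B]ⁿ, of volume (2B)ⁿ/|det T| (Real.volume_preserving, 
MeasureTheory.Measure.addHaar_preimage_linearMap).
-/

namespace Pool.Agent.Work.MP_14c213_gt

open Matrix IsDedekindDomain
open scoped Matrix NumberField QuadraticAlgebra

noncomputable section

open MeasureTheory in
theorem mink_forms {n : ℕ} (T : Matrix (Fin n) (Fin n) ℝ) (hT : T.det ≠ 0) (B : ℝ) (hB : 0 < B)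
    (h : |T.det| < B ^ n) : ∃ x : Fin n → ℤ, x ≠ 0 ∧
      ∀ i, |∑ j, T i j * (x j : ℝ)| ≤ B := by
  classical
  -- the lattice
  set b : Module.Basis (Fin n) ℝ (Fin n → ℝ) := Pi.basisFun ℝ (Fin n) with hb
  set L : AddSubgroup (Fin n → ℝ) := (Submodule.span ℤ (Set.range b)).toAddSubgroup with hL
  have fund : IsAddFundamentalDomain L (ZSpan.fundamentalDomain b) volume :=
    ZSpan.isAddFundamentalDomain' b volume
  set s : Set (Fin n → ℝ) := (Matrix.toLin' T) ⁻¹' (Set.pi Set.univ fun _ => Set.Icc (-B) B) with hs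
  have h_symm : ∀ x ∈ s, -x ∈ s := by
    intro x hx i _
    have := hx i (Set.mem_univ i)
    simp only [map_neg, Pi.neg_apply, Set.mem_Icc] at this ⊢
    constructor <;> linarith [this.1, this.2]
  have h_conv : Convex ℝ s := by
    apply Convex.linear_preimage
    exact convex_pi fun i _ => convex_Icc _ _
  have hcount : Countable L := by
    rw [hL]
    exact inferInstanceAs (Countable (Submodule.span ℤ (Set.range b)))
  have hvolF : volume (ZSpan.fundamentalDomain b) = 1 := by
    rw [hb, ZSpan.fundamentalDomain_pi_basisFun, volume_pi_pi]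
    simp
  have hdet : LinearMap.det (Matrix.toLin' T) = T.det := LinearMap.det_toLin' T
  have hvols : volume s = ENNReal.ofReal (|T.det|⁻¹) * ENNReal.ofReal (2 * B) ^ n := by
    rw [hs, Measure.addHaar_preimage_linearMap volume (by rw [hdet]; exact hT), hdet,
      volume_pi_pi]
    simp only [Real.volume_Icc, Finset.prod_const, Finset.card_univ, Fintype.card_fin, abs_inv]
    congr 3
    ring
  have hTpos : 0 < |T.det| := abs_pos.mpr hT
  have hlt : volume (ZSpan.fundamentalDomain b) * 2 ^ Module.finrank ℝ (Fin n → ℝ) < volume s := by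
    rw [hvolF, hvols, one_mul, Module.finrank_fin_fun, ← ENNReal.ofReal_pow (by positivity),
      ← ENNReal.ofReal_mul (by positivity)]
    have e : (2 : ENNReal) ^ n = ENNReal.ofReal (2 ^ n) := by
      rw [ENNReal.ofReal_pow (by norm_num)]
      norm_num
    rw [e]
    apply (ENNReal.ofReal_lt_ofReal_iff (by positivity)).mpr
    rw [mul_pow, inv_mul_eq_div, lt_div_iff₀ hTpos]
    exact mul_lt_mul_of_pos_left h (by positivity)
  obtain ⟨x, hx0, hxs⟩ := exists_ne_zero_mem_lattice_of_measure_mul_two_pow_lt_measure fund h_symm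
    h_conv hlt
  have hxL : ((x : L) : Fin n → ℝ) ∈ Submodule.span ℤ (Set.range b) := x.2
  rw [b.mem_span_iff_repr_mem ℤ] at hxL
  have hz : ∀ i, ∃ z : ℤ, (z : ℝ) = ((x : L) : Fin n → ℝ) i := by
    intro i
    obtain ⟨z, hz⟩ := hxL i
    exact ⟨z, by simpa [hb] using hz⟩
  choose z hz using hz
  refine ⟨z, ?_, ?_⟩
  · intro h0
    apply hx0
    apply Subtype.ext
    funext i
    rw [← hz i, h0]
    simp
  · intro i
    have := hxs i (Set.mem_univ i)
    rw [abs_le]
    have e : (Matrix.toLin' T) (x : Fin n → ℝ) i = ∑ j, T i j * (z j : ℝ) := by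
      rw [Matrix.toLin'_apply]
      simp only [Matrix.mulVec, dotProduct]
      apply Finset.sum_congr rfl
      intro j _
      rw [hz j]
    rw [← e]
    exact this

end

end Pool.Agent.Work.MP_14c213_gt
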