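import Pool.Agent.Work.MP_14c213_gt.BDefs

/-!
Weighted orbit counts (abstract). Let c(y) = [H ∩ Stab y : C]. ms_equiv: F induces a bijection of the orbits
and H ∩ Stab (F y) = H ∩ Stab y; c is constant on orbits in S since C is normalised by H.
ms_fib: every orbit in S meets S₁, in exactly one E-orbit; H ∩ Stab y ≤ E for y ∈ S₁; an E-orbit of y has
[E : E ∩ Stab y] elements and [E : C] = [E : E ∩ Stab y] [E ∩ Stab y : C] (also when these are 0 = infinite:
S₁ is finite so [E : E ∩ Stab y] is finite).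
-/

namespace Pool.Agent.Work.MP_14c213_gt

open Matrix IsDedekindDomain
open scoped Matrix NumberField QuadraticAlgebra

noncomputable section

/-- Weighted number of the orbits of `H` in the invariant set `S`: an orbit counts
`1 / [H ∩ Stab : C]`. -/
def ms {G X : Type*} [Group G] [MulAction G X] (H C : Subgroup G) (S : Set X) : ℝ :=
  ∑ᶠ o : MulAction.orbitRel.Quotient H X, open Classical in
    if (Quotient.out o : X) ∈ S then
      (((C.relIndex (H ⊓ MulAction.stabilizer G (Quotient.out o : X))) : ℕ) : ℝ)⁻¹ else 0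

section msw

variable {G X : Type*} [Group G] [MulAction G X] (H C : Subgroup G)

open Classical in
/-- The weight of a point. -/
def msw (S : Set X) (y : X) : ℝ :=
  if y ∈ S then (((C.relIndex (H ⊓ MulAction.stabilizer G y)) : ℕ) : ℝ)⁻¹ else 0

theorem ms_def (S : Set X) :
    ms H C S = ∑ᶠ o : MulAction.orbitRel.Quotient H X, msw H C S (Quotient.out o) := rfl

theorem map_conj_self (h : G) (hh : h ∈ H) : H.map (MulAut.conj h).toMonoidHom = H := by
  ext x
  constructor
  · rintro ⟨y, hy, rfl⟩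
    exact H.mul_mem (H.mul_mem hh hy) (H.inv_mem hh)
  · intro hx
    refine ⟨h⁻¹ * x * h, H.mul_mem (H.mul_mem (H.inv_mem hh) hx) hh, ?_⟩
    simp [mul_assoc]

theorem relIndex_conj (hC : ∀ h ∈ H, ∀ c ∈ C, h * c * h⁻¹ ∈ C) (h : G) (hh : h ∈ H)
    (K : Subgroup G) : C.relIndex (K.map (MulAut.conj h).toMonoidHom) = C.relIndex K := by
  have h1 : C.map (MulAut.conj h).toMonoidHom = C := by
    ext x
    constructor
    · rintro ⟨y, hy, rfl⟩
      exact hC h hh y hy
    · intro hx
      refine ⟨h⁻¹ * x * h, ?_, ?_⟩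
      · have := hC h⁻¹ (H.inv_mem hh) x hx
        rwa [inv_inv] at this
      · simp [mul_assoc]
  conv_lhs => rw [← h1]
  exact Subgroup.relIndex_map_map_of_injective _ _ (MulAut.conj h).injective

theorem stab_conj (h : G) (hh : h ∈ H) (y : X) : H ⊓ MulAction.stabilizer G (h • y) =
    (H ⊓ MulAction.stabilizer G y).map (MulAut.conj h).toMonoidHom := by
  rw [Subgroup.map_inf _ _ _ (MulAut.conj h).injective, map_conj_self H h hh,
    MulAction.stabilizer_smul_eq_stabilizer_map_conj]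

theorem msw_smul (hC : ∀ h ∈ H, ∀ c ∈ C, h * c * h⁻¹ ∈ C) (S : Set X)
    (hS : ∀ h ∈ H, ∀ y ∈ S, h • y ∈ S) (h : G) (hh : h ∈ H) (y : X) :
    msw H C S (h • y) = msw H C S y := by
  have h1 : h • y ∈ S ↔ y ∈ S := by
    refine ⟨fun h2 => ?_, hS h hh y⟩
    have := hS h⁻¹ (H.inv_mem hh) _ h2
    rwa [inv_smul_smul] at this
  unfold msw
  rw [stab_conj H h hh, relIndex_conj H C hC h hh]
  by_cases h2 : y ∈ S
  · rw [if_pos h2, if_pos (h1.2 h2)]
  · rw [if_neg h2, if_neg fun h3 => h2 (h1.1 h3)]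

theorem out_orb (y : X) : ∃ h ∈ H, Quotient.out (Quotient.mk _ y : MulAction.orbitRel.Quotient H X) =
    h • y := by
  have h1 : MulAction.orbitRel H X
      (Quotient.out (Quotient.mk _ y : MulAction.orbitRel.Quotient H X)) y :=
    Quotient.exact (Quotient.out_eq _)
  rw [MulAction.orbitRel_apply] at h1
  obtain ⟨h, hh⟩ := h1
  exact ⟨h.1, h.2, hh.symm⟩

theorem msw_out (hC : ∀ h ∈ H, ∀ c ∈ C, h * c * h⁻¹ ∈ C) (S : Set X)
    (hS : ∀ h ∈ H, ∀ y ∈ S, h • y ∈ S) (y : X) :
    msw H C S (Quotient.out (Quotient.mk _ y : MulAction.orbitRel.Quotient H X)) =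
      msw H C S y := by
  obtain ⟨h, hh, e⟩ := out_orb H y
  rw [e, msw_smul H C hC S hS h hh]

theorem mk_eq_iff (y y' : X) : (Quotient.mk _ y : MulAction.orbitRel.Quotient H X) =
    Quotient.mk _ y' ↔ ∃ h ∈ H, y = h • y' := by
  rw [Quotient.eq, MulAction.orbitRel_apply]
  constructor
  · rintro ⟨h, hh⟩
    exact ⟨h.1, h.2, hh.symm⟩
  · rintro ⟨h, hh, e⟩
    exact ⟨⟨h, hh⟩, e.symm⟩

end msw

theorem ms_equiv {G X : Type*} [Group G] [MulAction G X] (H C : Subgroup G)
    (hC : ∀ h ∈ H, ∀ c ∈ C, h * c * h⁻¹ ∈ C) (S S' : Set X)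
    (hS : ∀ h ∈ H, ∀ y ∈ S, h • y ∈ S) (hS' : ∀ h ∈ H, ∀ y ∈ S', h • y ∈ S')
    (F : Equiv.Perm X) (hF : ∀ h ∈ H, ∀ y, F (h • y) = h • F y) (hSS : ∀ y, y ∈ S ↔ F y ∈ S') :
    ms H C S = ms H C S' := by
  rw [ms_def, ms_def]
  set e : MulAction.orbitRel.Quotient H X → MulAction.orbitRel.Quotient H X :=
    Quotient.map' F (by
      intro a b hab
      rw [MulAction.orbitRel_apply] at hab ⊢
      obtain ⟨h, rfl⟩ := hab
      exact ⟨h, (hF h.1 h.2 b).symm⟩) with he
  have hem : ∀ y : X, e (Quotient.mk _ y) = Quotient.mk _ (F y) := fun y => rfl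
  refine finsum_eq_of_bijective e ⟨?_, ?_⟩ ?_
  · intro a b
    induction a using Quotient.inductionOn with | _ a => ?_
    induction b using Quotient.inductionOn with | _ b => ?_
    intro hab
    rw [hem, hem, mk_eq_iff] at hab
    obtain ⟨h, hh, e1⟩ := hab
    rw [mk_eq_iff]
    refine ⟨h, hh, F.injective ?_⟩
    rw [e1, hF h hh]
  · intro a
    induction a using Quotient.inductionOn with | _ a => ?_
    exact ⟨Quotient.mk _ (F.symm a), by rw [hem, Equiv.apply_symm_apply]⟩
  · intro a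
    induction a using Quotient.inductionOn with | _ a => ?_
    rw [hem, msw_out H C hC S hS, msw_out H C hC S' hS']
    unfold msw
    have h1 : H ⊓ MulAction.stabilizer G (F a) = H ⊓ MulAction.stabilizer G a := by
      ext h
      simp only [Subgroup.mem_inf, MulAction.mem_stabilizer_iff]
      constructor
      · rintro ⟨hh, h2⟩
        refine ⟨hh, F.injective ?_⟩
        rw [hF h hh, h2]
      · rintro ⟨hh, h2⟩
        refine ⟨hh, ?_⟩
        rw [← hF h hh, h2]
    rw [h1]
    by_cases h2 : a ∈ S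
    · rw [if_pos h2, if_pos ((hSS a).1 h2)]
    · rw [if_neg h2, if_neg fun h3 => h2 ((hSS a).2 h3)]

theorem ms_fib {G X : Type*} [Group G] [MulAction G X] (H C E : Subgroup G)
    (hC : ∀ h ∈ H, ∀ c ∈ C, h * c * h⁻¹ ∈ C) (S S₁ : Set X)
    (hS : ∀ h ∈ H, ∀ y ∈ S, h • y ∈ S) (hCs : ∀ c ∈ C, ∀ y ∈ S, c • y = y)
    (hsub : S₁ ⊆ S) (hfin : S₁.Finite) (hE : E ≤ H) (hCE : C ≤ E)
    (h1 : ∀ y ∈ S, ∃ h ∈ H, h • y ∈ S₁) (h2 : ∀ y ∈ S₁, ∀ h ∈ H, (h • y ∈ S₁ ↔ h ∈ E)) :
    ms H C S = (S₁.ncard : ℝ) / (C.relIndex E : ℝ) := by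
  classical
  rw [ms_def]
  set T : Finset X := hfin.toFinset with hT
  have hTm : ∀ y, y ∈ T ↔ y ∈ S₁ := fun y => hfin.mem_toFinset
  set π : X → MulAction.orbitRel.Quotient H X := fun y => Quotient.mk _ y with hπ
  -- the weight of a point of `S₁`
  have hw : ∀ y ∈ S₁, msw H C S y =
      ((T.filter fun y' => π y' = π y).card : ℝ) / (C.relIndex E : ℝ) := by
    intro y hy
    have hyS := hsub hy
    have e1 : H ⊓ MulAction.stabilizer G y = E ⊓ MulAction.stabilizer G y := by
      ext h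
      simp only [Subgroup.mem_inf, MulAction.mem_stabilizer_iff]
      constructor
      · rintro ⟨hh, h3⟩
        exact ⟨(h2 y hy h hh).1 (by rw [h3]; exact hy), h3⟩
      · rintro ⟨hh, h3⟩
        exact ⟨hE hh, h3⟩
    have e2 : ((T.filter fun y' => π y' = π y) : Set X) = MulAction.orbit E y := by
      ext y'
      simp only [Finset.coe_filter, hTm, Set.mem_ofPred_eq, hπ]
      rw [mk_eq_iff]
      constructor
      · rintro ⟨h3, h, hh, h4⟩
        rw [h4] at h3
        exact ⟨⟨h, (h2 y hy h hh).1 h3⟩, h4.symm⟩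
      · rintro ⟨h, rfl⟩
        exact ⟨(h2 y hy h.1 (hE h.2)).2 h.2, h.1, hE h.2, rfl⟩
    have e3 : (T.filter fun y' => π y' = π y).card =
        (MulAction.stabilizer G y).relIndex E := by
      have h5 : (MulAction.stabilizer E y).index = (MulAction.orbit E y).ncard :=
        MulAction.index_stabilizer E y
      rw [← e2, Set.ncard_coe_finset] at h5
      rw [← h5]
      rfl
    have e4 : C.relIndex (E ⊓ MulAction.stabilizer G y) *
        (MulAction.stabilizer G y).relIndex E = C.relIndex E := by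
      rw [← Subgroup.inf_relIndex_left E]
      refine Subgroup.relIndex_mul_relIndex _ _ _ (le_inf hCE fun c hc => ?_) inf_le_left
      rw [MulAction.mem_stabilizer_iff]
      exact hCs c hc y hyS
    have e5 : (T.filter fun y' => π y' = π y).card ≠ 0 := by
      rw [Finset.card_ne_zero]
      exact ⟨y, Finset.mem_filter.2 ⟨(hTm y).2 hy, rfl⟩⟩
    unfold msw
    rw [if_pos hyS, e1, ← e4, ← e3]
    push_cast
    have e6 : ((T.filter fun y' => π y' = π y).card : ℝ) ≠ 0 := by exact_mod_cast e5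
    rw [div_mul_cancel_right₀ e6]
  have hsupp : (Function.support fun o : MulAction.orbitRel.Quotient H X =>
      msw H C S (Quotient.out o)) ⊆ ((T.image π : Finset _) : Set _) := by
    intro o ho
    rw [Function.mem_support] at ho
    have h3 : Quotient.out o ∈ S := by
      by_contra hc
      exact ho (if_neg hc)
    obtain ⟨h, hh, h4⟩ := h1 _ h3
    rw [Finset.coe_image]
    refine ⟨h • Quotient.out o, (hTm _).2 h4, ?_⟩
    have h5 : (Quotient.mk _ (h • Quotient.out o) : MulAction.orbitRel.Quotient H X) =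
        Quotient.mk _ (Quotient.out o) := (mk_eq_iff H _ _).2 ⟨h, hh, rfl⟩
    rw [hπ]
    simp only
    rw [h5, Quotient.out_eq]
  rw [finsum_eq_sum_of_support_subset _ hsupp]
  have h6 : S₁.ncard = T.card := by
    rw [hT, Set.ncard_eq_toFinset_card _ hfin]
  rw [h6, Finset.card_eq_sum_card_image π T]
  push_cast
  rw [Finset.sum_div]
  refine Finset.sum_congr rfl fun o ho => ?_
  obtain ⟨y, hy, rfl⟩ := Finset.mem_image.1 ho
  rw [hπ]
  simp only
  rw [msw_out H C hC S hS, hw y ((hTm y).1 hy)]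

end

end Pool.Agent.Work.MP_14c213_gt
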