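import Pool.Agent.Work.MP_14c213_gt.B.MsB

/-!
ms_kto1: for an H-orbit in S with base point y put E = H ∩ Stab y; the H-orbits of X over it correspond to the
E-orbits in the fibre over y (k elements), and the sum over these of 1/[E ∩ Stab x : C] is k / [E : C]
(proof as for ms_fib). The supports of the two finsums correspond, with finite nonempty fibres.
-/

namespace Pool.Agent.Work.MP_14c213_gt

open Matrix IsDedekindDomain
open scoped Matrix NumberField QuadraticAlgebra

noncomputable section

theorem ms_kto1 {G X Y : Type*} [Group G] [MulAction G X] [MulAction G Y] (H C : Subgroup G)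
    (hC : ∀ h ∈ H, ∀ c ∈ C, h * c * h⁻¹ ∈ C) (f : X → Y) (hf : ∀ h ∈ H, ∀ x, f (h • x) = h • f x)
    (S : Set Y) (hS : ∀ h ∈ H, ∀ y ∈ S, h • y ∈ S) (hCH : C ≤ H)
    (hCs : ∀ c ∈ C, ∀ x, f x ∈ S → c • x = x)
    (k : ℕ) (hk : k ≠ 0) (hfib : ∀ y ∈ S, (f ⁻¹' {y}).ncard = k) :
    ms H C (f ⁻¹' S) = k * ms H C S := by
  classical
  have hS' : ∀ h ∈ H, ∀ x ∈ f ⁻¹' S, h • x ∈ f ⁻¹' S := by
    intro h hh x hx
    rw [Set.mem_preimage, hf h hh]
    exact hS h hh _ hx
  have hfinF : ∀ y ∈ S, (f ⁻¹' {y}).Finite := fun y hy =>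
    Set.finite_of_ncard_ne_zero (by rw [hfib y hy]; exact hk)
  have hneF : ∀ y ∈ S, (f ⁻¹' {y}).Nonempty := fun y hy =>
    Set.nonempty_of_ncard_ne_zero (by rw [hfib y hy]; exact hk)
  -- the map of orbits
  set e : MulAction.orbitRel.Quotient H X → MulAction.orbitRel.Quotient H Y :=
    Quotient.map' f (by
      intro a b hab
      rw [MulAction.orbitRel_apply] at hab ⊢
      obtain ⟨h, rfl⟩ := hab
      exact ⟨h, (hf h.1 h.2 b).symm⟩) with he
  have hem : ∀ x : X, e (Quotient.mk _ x) = Quotient.mk _ (f x) := fun y => rfl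
  set WX : MulAction.orbitRel.Quotient H X → ℝ := fun o => msw H C (f ⁻¹' S) (Quotient.out o)
    with hWX
  set WY : MulAction.orbitRel.Quotient H Y → ℝ := fun o => msw H C S (Quotient.out o)
    with hWY
  have hWXm : ∀ x, WX (Quotient.mk _ x) = msw H C (f ⁻¹' S) x := fun x =>
    msw_out H C hC _ hS' x
  have hWYm : ∀ y, WY (Quotient.mk _ y) = msw H C S y := fun y => msw_out H C hC _ hS y
  -- orbits over a point
  have hlift : ∀ (o : MulAction.orbitRel.Quotient H X) (y : Y), e o = Quotient.mk _ y →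
      ∃ x, f x = y ∧ o = Quotient.mk _ x := by
    intro o y ho
    induction o using Quotient.inductionOn with | _ x => ?_
    rw [hem, mk_eq_iff] at ho
    obtain ⟨h, hh, h1⟩ := ho
    refine ⟨h⁻¹ • x, ?_, ?_⟩
    · rw [hf h⁻¹ (H.inv_mem hh), h1, inv_smul_smul]
    · rw [mk_eq_iff]
      exact ⟨h, hh, by rw [smul_inv_smul]⟩
  -- the fibre sums
  have hfibsum : ∀ y ∈ S, ∑ᶠ o, (if e o = Quotient.mk _ y then WX o else 0) = k * msw H C S y := by
    intro y hy
    set S₂ : Set X := {x | ∃ h ∈ H, h • y = f x} with hS₂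
    have hS₂' : ∀ h ∈ H, ∀ x ∈ S₂, h • x ∈ S₂ := by
      rintro h hh x ⟨h', hh', h1⟩
      exact ⟨h * h', H.mul_mem hh hh', by rw [mul_smul, h1, hf h hh]⟩
    have hsubS : S₂ ⊆ f ⁻¹' S := by
      rintro x ⟨h', hh', h1⟩
      rw [Set.mem_preimage, ← h1]
      exact hS h' hh' y hy
    have h1 := ms_fib H C (H ⊓ MulAction.stabilizer G y) hC S₂ (f ⁻¹' {y}) hS₂'
      (fun c hc x hx => hCs c hc x (hsubS hx))
      (fun x hx => ⟨1, H.one_mem, by rw [one_smul]; exact hx.symm⟩)
      (hfinF y hy) inf_le_left (le_inf hCH fun c hc => by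
        rw [MulAction.mem_stabilizer_iff]
        obtain ⟨x, hx⟩ := hneF y hy
        have h2 : f x = y := hx
        have h3 := hCs c hc x (by rw [h2]; exact hy)
        rw [← h2, ← hf c (hCH hc), h3])
      (by
        rintro x ⟨h', hh', h1⟩
        refine ⟨h'⁻¹, H.inv_mem hh', ?_⟩
        rw [Set.mem_preimage, Set.mem_singleton_iff, hf _ (H.inv_mem hh'), ← h1, inv_smul_smul])
      (by
        intro x hx h hh
        have h2 : f x = y := hx
        rw [Set.mem_preimage, Set.mem_singleton_iff, hf _ hh, h2, Subgroup.mem_inf,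
          MulAction.mem_stabilizer_iff]
        exact ⟨fun h3 => ⟨hh, h3⟩, fun h3 => h3.2⟩)
    rw [hfib y hy] at h1
    have h2 : msw H C S y = (C.relIndex (H ⊓ MulAction.stabilizer G y) : ℝ)⁻¹ := if_pos hy
    rw [h2, ← div_eq_mul_inv, ← h1, ms_def]
    refine finsum_congr fun o => ?_
    induction o using Quotient.inductionOn with | _ x => ?_
    rw [msw_out H C hC _ hS₂', hWXm, hem]
    by_cases hx : x ∈ S₂
    · obtain ⟨h, hh, h3⟩ := hx
      rw [if_pos ((mk_eq_iff H _ _).2 ⟨h, hh, h3.symm⟩)]
      unfold msw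
      rw [if_pos (hsubS ⟨h, hh, h3⟩), if_pos ⟨h, hh, h3⟩]
    · rw [if_neg (fun hc => by
        obtain ⟨h, hh, h3⟩ := (mk_eq_iff H _ _).1 hc
        exact hx ⟨h, hh, h3.symm⟩)]
      unfold msw
      rw [if_neg hx]
  -- fibres of e are finite over S
  have hefin : ∀ y ∈ S, {o | e o = Quotient.mk _ y}.Finite := by
    intro y hy
    refine ((hfinF y hy).image fun x => (Quotient.mk _ x :
      MulAction.orbitRel.Quotient H X)).subset ?_
    intro o ho
    obtain ⟨x, hx, rfl⟩ := hlift o y ho
    exact ⟨x, hx, rfl⟩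
  -- nonzero weights correspond
  have hnz : ∀ x, f x ∈ S → (msw H C (f ⁻¹' S) x ≠ 0 ↔ msw H C S (f x) ≠ 0) := by
    intro x hx
    have e1 : msw H C (f ⁻¹' S) x = (C.relIndex (H ⊓ MulAction.stabilizer G x) : ℝ)⁻¹ := if_pos hx
    have e2 : msw H C S (f x) = (C.relIndex (H ⊓ MulAction.stabilizer G (f x)) : ℝ)⁻¹ := if_pos hx
    have hle : H ⊓ MulAction.stabilizer G x ≤ H ⊓ MulAction.stabilizer G (f x) := by
      rintro h ⟨hh, h3⟩
      refine ⟨hh, ?_⟩
      have h4 : h • x = x := h3
      change h • f x = f x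
      rw [← hf h hh, h4]
    have hCx : C ≤ H ⊓ MulAction.stabilizer G x := le_inf hCH fun c hc => hCs c hc x hx
    have e3 := Subgroup.relIndex_mul_relIndex C _ _ hCx hle
    have e4 : (H ⊓ MulAction.stabilizer G x).relIndex (H ⊓ MulAction.stabilizer G (f x)) ≠ 0 := by
      -- the orbit of x under the stabilizer of f x is finite
      set E := H ⊓ MulAction.stabilizer G (f x) with hE
      have h5 : (MulAction.stabilizer E x).index = (MulAction.orbit E x).ncard :=
        MulAction.index_stabilizer E x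
      have h6 : (MulAction.orbit E x).Finite := by
        refine (hfinF (f x) hx).subset ?_
        rintro _ ⟨h, rfl⟩
        have h7 : h.1 • f x = f x := h.2.2
        change f (h.1 • x) = f x
        rw [hf h.1 h.2.1, h7]
      have h8 : (MulAction.orbit E x).ncard ≠ 0 :=
        Set.ncard_ne_zero_of_mem (MulAction.mem_orbit_self x) h6
      rw [← h5] at h8
      have h9 : (H ⊓ MulAction.stabilizer G x).relIndex E = (MulAction.stabilizer E x).index := by
        have h10 : (H ⊓ MulAction.stabilizer G x).subgroupOf E = MulAction.stabilizer E x := by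
          ext h
          constructor
          · rintro ⟨_, h11⟩
            exact h11
          · intro h11
            exact ⟨h.2.1, h11⟩
        rw [Subgroup.relIndex, h10]
      rw [h9]
      exact h8
    rw [e1, e2, Ne, Ne, inv_eq_zero, inv_eq_zero, ← Ne, ← Ne, Nat.cast_ne_zero, Nat.cast_ne_zero,
      ← e3]
    constructor
    · intro h5
      exact Nat.mul_ne_zero h5 e4
    · intro h5
      exact (Nat.mul_ne_zero_iff.1 h5).1
  have hsX : ∀ o, WX o ≠ 0 ↔ WY (e o) ≠ 0 := by
    intro o
    induction o using Quotient.inductionOn with | _ x => ?_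
    rw [hWXm, hem, hWYm]
    by_cases hx : f x ∈ S
    · exact hnz x hx
    · have a1 : msw H C (f ⁻¹' S) x = 0 := if_neg hx
      have a2 : msw H C S (f x) = 0 := if_neg hx
      rw [a1, a2]
  have hYS : ∀ p, WY p ≠ 0 → Quotient.out p ∈ S := by
    intro p hp
    by_contra hc
    exact hp (if_neg hc)
  change ∑ᶠ o, WX o = k * ∑ᶠ p, WY p
  by_cases hfin : (Function.support WY).Finite
  · have hfinX : (Function.support WX).Finite := by
      refine (hfin.biUnion (t := fun p => {o | e o = p}) fun p hp => ?_).subset ?_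
      · have h1 := hefin _ (hYS p hp)
        rwa [Quotient.out_eq] at h1
      · intro o ho
        exact Set.mem_biUnion ((hsX o).1 ho) rfl
    set A := hfinX.toFinset with hA
    set B := hfin.toFinset with hB
    have hAm : ∀ o, o ∈ A ↔ WX o ≠ 0 := fun o => hfinX.mem_toFinset
    have hBm : ∀ p, p ∈ B ↔ WY p ≠ 0 := fun p => hfin.mem_toFinset
    rw [finsum_eq_sum_of_support_subset WX (s := A) (fun o ho => (hAm o).2 ho),
      finsum_eq_sum_of_support_subset WY (s := B) (fun o ho => (hBm o).2 ho), Finset.mul_sum,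
      ← Finset.sum_fiberwise_of_maps_to (s := A) (t := B) (g := e)
        (fun o ho => (hBm _).2 ((hsX o).1 ((hAm o).1 ho)))]
    refine Finset.sum_congr rfl fun p hp => ?_
    have h1 := hfibsum _ (hYS p ((hBm p).1 hp))
    rw [Quotient.out_eq] at h1
    change _ = k * WY p at h1
    rw [← h1, finsum_eq_sum_of_support_subset (s := A), Finset.sum_filter]
    intro o ho
    rw [Function.mem_support] at ho
    refine (hAm o).2 fun h2 => ho ?_
    rw [h2, ite_self]
  · have hinfX : (Function.support WX).Infinite := by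
      intro hfinX
      refine hfin ((hfinX.image e).subset ?_)
      intro p hp
      obtain ⟨x, hx⟩ := hneF _ (hYS p hp)
      have h1 : e (Quotient.mk _ x) = p := by
        rw [hem]
        have h2 : f x = Quotient.out p := hx
        rw [h2, Quotient.out_eq]
      refine ⟨Quotient.mk _ x, ?_, h1⟩
      rw [Function.mem_support, hsX, h1]
      exact hp
    rw [finsum_of_infinite_support hfin, finsum_of_infinite_support hinfX, mul_zero]

end

end Pool.Agent.Work.MP_14c213_gt
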