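import Pool.Agent.Work.MP_14c213_gt.B.OrdB
import Pool.Agent.Work.MP_14c213_gt.B.S4a
import Pool.Agent.Work.MP_14c213_gt.B.HypB

/-!
Product formula: the norm of t is the product of the Nv ^ ord v t (for integral t: absNorm of the principal ideal,
Ideal.finprod_heightOneSpectrum_factorization; general t as a quotient). ‖phik t‖² is the norm form.
-/

namespace Pool.Agent.Work.MP_14c213_gt

open Matrix IsDedekindDomain
open scoped Matrix NumberField QuadraticAlgebra

noncomputable section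

/-- The product in question. -/
private def NP (t : kk) : ℝ := ∏ᶠ v : Pl, (Ideal.absNorm v.asIdeal : ℝ) ^ (ord v t)

private theorem NP_fin {t : kk} (ht : t ≠ 0) :
    Function.HasFiniteMulSupport (fun v : Pl => (Ideal.absNorm v.asIdeal : ℝ) ^ (ord v t)) := by
  refine (ord_finite ht).subset ?_
  intro v hv
  simp only [Function.mem_mulSupport] at hv
  simp only [Set.mem_ofPred_eq]
  intro h
  exact hv (by rw [h, zpow_zero])

private theorem NP_ne (v : Pl) : (Ideal.absNorm v.asIdeal : ℝ) ≠ 0 := by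
  have h : Ideal.absNorm v.asIdeal ≠ 0 := by
    rw [Ideal.absNorm_ne_zero_iff]
    exact Ideal.finiteQuotientOfFreeOfNeBot _ v.ne_bot
  exact_mod_cast h

private theorem NP_mul {s t : kk} (hs : s ≠ 0) (ht : t ≠ 0) : NP (s * t) = NP s * NP t := by
  rw [NP, NP, NP, ← finprod_mul_distrib (NP_fin hs) (NP_fin ht)]
  exact finprod_congr fun v => by rw [ord_mul v hs ht, zpow_add₀ (NP_ne v)]

private def cnt (v : Pl) (r : 𝓞 kk) : ℕ :=
  (Associates.mk v.asIdeal).count (Associates.mk (Ideal.span {r})).factors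

private theorem ord_cnt (v : Pl) {r : 𝓞 kk} (hr : r ≠ 0) : ord v (algebraMap (𝓞 kk) kk r) = cnt v r := by
  rw [ord, HeightOneSpectrum.valuation_of_algebraMap, v.intValuation_if_neg hr, WithZero.log_exp,
    cnt]
  ring

private theorem NP_int {r : 𝓞 kk} (hr : r ≠ 0) :
    ((Ideal.absNorm (Ideal.span {r}) : ℕ) : ℝ) = NP (algebraMap (𝓞 kk) kk r) := by
  have hI : Ideal.span {r} ≠ 0 := by simpa using hr
  have h1 := Ideal.finprod_heightOneSpectrum_factorization hI
  have hf := Ideal.hasFiniteMulSupport hI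
  let f : Ideal (𝓞 kk) →* ℝ := (Nat.castRingHom ℝ).toMonoidHom.comp (Ideal.absNorm (S := 𝓞 kk)).toMonoidHom
  have h2 := MonoidHom.map_finprod f hf
  rw [h1] at h2
  refine Eq.trans h2 (finprod_congr fun v => ?_)
  simp only [HeightOneSpectrum.maxPowDividing]
  rw [ord_cnt v hr, zpow_natCast, map_pow]
  rfl

theorem norm_prod {t : kk} (ht : t ≠ 0) :
    ((t.re ^ 2 + t.re * t.im + 4 * t.im ^ 2 : ℚ) : ℝ) =
      ∏ᶠ v : Pl, (Ideal.absNorm v.asIdeal : ℝ) ^ (ord v t) := by
  rw [← HypB.nm]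
  change _ = NP t
  obtain ⟨⟨r, s⟩, hrs⟩ := IsLocalization.surj (nonZeroDivisors (𝓞 kk)) t
  have hs : ((s : 𝓞 kk)) ≠ 0 := nonZeroDivisors.ne_zero s.2
  have hsk : algebraMap (𝓞 kk) kk s ≠ 0 := by simp
  simp only at hrs
  have hr : r ≠ 0 := by
    rintro rfl
    rw [map_zero] at hrs
    exact (mul_ne_zero ht hsk) hrs
  have key : ∀ r : 𝓞 kk, r ≠ 0 → ((QuadraticAlgebra.norm (algebraMap (𝓞 kk) kk r) : ℚ) : ℝ) =
      NP (algebraMap (𝓞 kk) kk r) := by
    intro r hr
    rw [← NP_int hr]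
    have := HypB.absNorm_coe r
    have h2 : QuadraticAlgebra.norm (algebraMap (𝓞 kk) kk r) = ((Ideal.absNorm (Ideal.span {r}) : ℕ) : ℚ) :=
      this.symm
    rw [h2]
    push_cast
    rfl
  have e1 := key r hr
  have e2 := key s hs
  rw [← hrs, map_mul, NP_mul ht hsk, ← e2, Rat.cast_mul] at e1
  have h0 : ((QuadraticAlgebra.norm (algebraMap (𝓞 kk) kk s) : ℚ) : ℝ) ≠ 0 := by
    exact_mod_cast HypB.nm_ne hsk
  exact mul_right_cancel₀ h0 e1

end

end Pool.Agent.Work.MP_14c213_gt
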