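import Pool.Agent.Work.MP_14c213_gt.B.EucB
import Pool.Agent.Work.MP_14c213_gt.B.S4a

/-!
The table for the parity statement: for every inert place of norm at most 193 there is an element of A
whose norm has odd valuation exactly at v and at P2 (the ramified place over 2). Places with om = -1 and
norm at most 193: norms 2, 3, 5, 17, 23, 47, 53, 83, 107, 113, 137, 167, 173 (inert rational primes have
norm p², = 1 mod 3). Each entry: (p, r), the place is the kernel of θ ↦ r mod p; then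
nrd = (a, b) meaning a + b θ, of norm a² + ab + 4b² = 2p, with a + b even and a + b r = 0 mod p; hence
(nrd g) = v P2; g = <g.re, g.imI, g.imJ, g.imK>, each (a, b) meaning a + b θ. All checked by computer.
The place P2 itself (p = 2, r = 1): g = 1.
(2, 0) nrd = (-2,0) g = <(-5,5), (0,-2), (-1,0), (0,-1)>
(3, 2) nrd = (-1,-1) g = <(-7,3), (3,-1), (-2,0), (0,-1)>
(5, 3) nrd = (3,-1) g = <(-5,1), (-2,-10), (-2,-1), (0,-2)>
(17, 6) nrd = (1,-3) g = <(-15,11), (0,0), (-2,1), (0,-1)>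
(17, 12) nrd = (5,1) g = <(-7,-1), (4,6), (-2,0), (0,1)>
(23, 7) nrd = (-7,1) g = <(-15,-11), (0,0), (-2,-2), (2,-1)>
(23, 17) nrd = (-5,3) g = <(-5,1), (5,-3), (-2,0), (0,-1)>
(47, 10) nrd = (-3,5) g = <(-5,-1), (0,-8), (0,-1), (0,0)>
(47, 38) nrd = (-9,-1) g = <(-9,1), (2,-4), (-2,0), (0,-1)>
(53, 21) nrd = (-1,-5) g = <(-11,3), (-2,-2), (-2,0), (0,-1)>
(53, 33) nrd = (7,3) g = <(-1,3), (1,-5), (0,-1), (0,0)>
(83, 32) nrd = (13,-3) g = <(-4,6), (2,0), (-1,0), (0,-1)>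
(83, 52) nrd = (11,-5) g = <(-9,3), (1,-1), (-2,0), (0,-1)>
(107, 15) nrd = (15,-1) g = <(-10,0), (-1,-13), (0,-1), (0,1)>
(107, 93) nrd = (9,-7) g = <(-6,0), (2,0), (-1,0), (0,0)>
(113, 48) nrd = (-3,-7) g = <(-2,-4), (0,4), (-1,0), (0,1)>
(113, 66) nrd = (9,5) g = <(-10,-2), (0,-4), (-1,0), (0,0)>
(137, 41) nrd = (-13,7) g = <(-10,2), (-1,-3), (-2,0), (0,-1)>
(137, 97) nrd = (-17,3) g = <(-6,4), (-3,-5), (0,-1), (0,0)>
(167, 37) nrd = (1,9) g = <(-4,6), (0,0), (-1,0), (0,-1)>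
(167, 131) nrd = (-13,-5) g = <(-14,4), (2,6), (-1,0), (1,0)>
(173, 19) nrd = (-19,1) g = <(-2,-6), (0,2), (-1,0), (0,1)>
(173, 155) nrd = (-11,9) g = <(-4,-6), (-2,2), (-1,0), (0,1)>
-/

namespace Pool.Agent.Work.MP_14c213_gt

open Matrix IsDedekindDomain
open scoped Matrix NumberField QuadraticAlgebra

noncomputable section

private def ParTab_mk (a b : ℤ) : 𝓞 kk := ⟨⟨a, b⟩, int_kk a b⟩

private theorem ParTab_coe (a b : ℤ) : ((ParTab_mk a b : 𝓞 kk) : kk) = ⟨a, b⟩ := rfl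

private theorem ParTab_ex (x : 𝓞 kk) : ∃ a b : ℤ, x = ParTab_mk a b := by
  obtain ⟨a, b, h⟩ := (int_iff (x : kk)).1 x.2
  exact ⟨a, b, Subtype.ext h⟩

private theorem ParTab_eq (a b : ℤ) :
    ParTab_mk a b = (a : 𝓞 kk) + (b : 𝓞 kk) * ParTab_mk 0 1 := by
  apply Subtype.ext
  show (⟨a, b⟩ : kk) = ((a : kk)) + (b : kk) * (⟨((0 : ℤ) : ℚ), ((1 : ℤ) : ℚ)⟩ : kk)
  ext <;> simp

private theorem ParTab_theta : ParTab_mk 0 1 * ParTab_mk 0 1 = ParTab_mk 0 1 - 4 := by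
  apply Subtype.ext
  show (⟨((0 : ℤ) : ℚ), ((1 : ℤ) : ℚ)⟩ : kk) * (⟨((0 : ℤ) : ℚ), ((1 : ℤ) : ℚ)⟩ : kk) =
    (⟨((0 : ℤ) : ℚ), ((1 : ℤ) : ℚ)⟩ : kk) - 4
  ext <;> simp [QuadraticAlgebra.re_ofNat, QuadraticAlgebra.im_ofNat]

private theorem ParTab_norm (a b : ℤ) :
    Ideal.absNorm (Ideal.span {ParTab_mk a b}) = (a ^ 2 + a * b + 4 * b ^ 2).natAbs := by
  rw [Ideal.absNorm_span_singleton]
  congr 1
  have h1 := Algebra.coe_norm_int (ParTab_mk a b)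
  have h2 : Algebra.norm ℚ ((ParTab_mk a b : 𝓞 kk) : kk) = ((a ^ 2 + a * b + 4 * b ^ 2 : ℤ) : ℚ) := by
    rw [ParTab_coe, Algebra.norm_apply]
    have h3 := QuadraticAlgebra.det_toLinearMap_eq_norm (⟨a, b⟩ : kk)
    have h4 : (QuadraticAlgebra.norm (⟨a, b⟩ : kk)) = ((a ^ 2 + a * b + 4 * b ^ 2 : ℤ) : ℚ) := by
      rw [QuadraticAlgebra.norm_def]
      push_cast
      ring
    rw [← h4, ← h3]
    congr 1
  rw [h2] at h1
  exact_mod_cast h1


private theorem ParTab_mem (v : Pl) (a b : ℤ) :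
    v.valuation kk (⟨a, b⟩ : kk) < 1 ↔ ParTab_mk a b ∈ v.asIdeal := by
  rw [← v.valuation_lt_one_iff_mem (K := kk)]
  exact Iff.rfl

/-- classification of the places with `om v = -1` and small norm -/
private theorem ParTab_class (v : Pl) (hv : om v = -1) (hn : Ideal.absNorm v.asIdeal ≤ 193) :
    ∃ p r : ℕ, p.Prime ∧ p ≤ 193 ∧ p % 3 ≠ 1 ∧ r < p ∧ p ∣ r * r + 4 + (p - r) ∧
      Ideal.absNorm v.asIdeal = p ∧
      ∀ a b : ℤ, ParTab_mk a b ∈ v.asIdeal ↔ (p : ℤ) ∣ a + b * r := by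
  classical
  have hom : Ideal.absNorm v.asIdeal % 3 ≠ 1 := by
    intro h
    rw [om, if_pos h] at hv
    exact absurd hv (by decide)
  have hmax : v.asIdeal.IsMaximal := v.isMaximal
  let _ : Field (𝓞 kk ⧸ v.asIdeal) := Ideal.Quotient.field v.asIdeal
  have hfin : Finite (𝓞 kk ⧸ v.asIdeal) := Ring.HasFiniteQuotients.finiteQuotient v.ne_bot
  let _ : Fintype (𝓞 kk ⧸ v.asIdeal) := Fintype.ofFinite _
  obtain ⟨p, hp⟩ := CharP.exists (𝓞 kk ⧸ v.asIdeal)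
  obtain ⟨n, hpp, hcard⟩ := FiniteField.card (𝓞 kk ⧸ v.asIdeal) p
  have _ : Fact p.Prime := ⟨hpp⟩
  have habs : Ideal.absNorm v.asIdeal = p ^ (n : ℕ) := by
    rw [Ideal.absNorm_apply, Submodule.cardQuot_apply, ← hcard, Nat.card_eq_fintype_card]
  let c : ZMod p →+* (𝓞 kk ⧸ v.asIdeal) := ZMod.castHom dvd_rfl _
  have hc : Function.Injective c := c.injective
  let t : 𝓞 kk ⧸ v.asIdeal := Ideal.Quotient.mk v.asIdeal (ParTab_mk 0 1)
  have ht : t * t = t - 4 := by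
    simp only [t, ← map_mul, ParTab_theta, map_sub]
    congr 1
  have hsurj : ∀ x : 𝓞 kk ⧸ v.asIdeal, ∃ a b : ZMod p, x = c a + c b * t := by
    intro x
    obtain ⟨y, rfl⟩ := Ideal.Quotient.mk_surjective x
    obtain ⟨a, b, rfl⟩ := ParTab_ex y
    refine ⟨a, b, ?_⟩
    rw [ParTab_eq]
    simp [c, t]
  have hle : Fintype.card (𝓞 kk ⧸ v.asIdeal) ≤ p ^ 2 := by
    have h1 : Function.Surjective (fun q : ZMod p × ZMod p => c q.1 + c q.2 * t) := by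
      intro x
      obtain ⟨a, b, h⟩ := hsurj x
      exact ⟨(a, b), h.symm⟩
    have h2 := Fintype.card_le_of_surjective _ h1
    rw [Fintype.card_prod, ZMod.card] at h2
    rw [pow_two]
    exact h2
  have hn1 : (n : ℕ) = 1 := by
    have hnpos := n.pos
    rw [hcard] at hle
    have h1 : (n : ℕ) ≤ 2 := (Nat.pow_le_pow_iff_right hpp.one_lt).1 hle
    by_contra hcon
    have h2 : (n : ℕ) = 2 := by omega
    rw [h2] at habs
    have h3 : p ≠ 3 := by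
      rintro rfl
      -- t = -1
      have h4 : (t + 1) * (t + 1) = 0 := by
        have h5 : (3 : 𝓞 kk ⧸ v.asIdeal) = 0 := by
          have := CharP.cast_eq_zero (𝓞 kk ⧸ v.asIdeal) 3
          exact_mod_cast this
        linear_combination ht + (t - 1) * h5
      have h6 : t = -1 := eq_neg_of_add_eq_zero_left (mul_self_eq_zero.1 h4)
      have h7 : Function.Surjective c := by
        intro x
        obtain ⟨a, b, h⟩ := hsurj x
        refine ⟨a - b, ?_⟩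
        rw [h, h6, map_sub]
        ring
      have h8 := Fintype.card_le_of_surjective _ h7
      rw [ZMod.card, hcard, h2] at h8
      omega
    apply hom
    rw [habs, Nat.pow_mod]
    have h4 : ¬ 3 ∣ p := fun h => h3 ((Nat.prime_dvd_prime_iff_eq Nat.prime_three hpp).1 h).symm
    have h5 : p % 3 = 1 ∨ p % 3 = 2 := by omega
    rcases h5 with h | h <;> rw [h]
  rw [hn1, pow_one] at habs
  rw [hn1, pow_one] at hcard
  have hbij : Function.Bijective c :=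
    (Fintype.bijective_iff_injective_and_card c).2 ⟨hc, by rw [ZMod.card, hcard]⟩
  obtain ⟨r, hr⟩ := hbij.2 t
  have hrr : r * r = r - 4 := by
    apply hc
    rw [map_mul, map_sub, hr, ht, map_ofNat]
  refine ⟨p, r.val, hpp, habs ▸ hn, habs ▸ hom, ZMod.val_lt r, ?_, habs, ?_⟩
  · rw [← ZMod.natCast_eq_zero_iff]
    rw [Nat.cast_add, Nat.cast_add, Nat.cast_mul, Nat.cast_sub (ZMod.val_lt r).le]
    simp only [ZMod.natCast_val, ZMod.cast_id', id_eq, CharP.cast_eq_zero, hrr]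
    push_cast
    ring
  · intro a b
    have h1 : ParTab_mk a b ∈ v.asIdeal ↔ Ideal.Quotient.mk v.asIdeal (ParTab_mk a b) = 0 :=
      Ideal.Quotient.eq_zero_iff_mem.symm
    have h2 : Ideal.Quotient.mk v.asIdeal (ParTab_mk a b) = c ((a : ZMod p) + (b : ZMod p) * r) := by
      rw [ParTab_eq, map_add, map_mul, map_add, map_mul, hr]
      simp [c, t]
    rw [h1, h2, map_eq_zero_iff c hc, ← ZMod.intCast_zmod_eq_zero_iff_dvd]
    push_cast
    simp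


/-- the integral formula for the reduced norm -/
private def ParTab_n (x y z w : ℤ × ℤ) : ℤ × ℤ :=
  let A := x.1 ^ 2 - 4 * x.2 ^ 2 - (x.1 * y.1 - 4 * (x.2 * y.2)) + y.1 ^ 2 - 4 * y.2 ^ 2
  let B := 2 * x.1 * x.2 + x.2 ^ 2 - (x.1 * y.2 + x.2 * y.1 + x.2 * y.2) + 2 * y.1 * y.2 + y.2 ^ 2
  let C := z.1 ^ 2 - 4 * z.2 ^ 2 - (z.1 * w.1 - 4 * (z.2 * w.2)) + w.1 ^ 2 - 4 * w.2 ^ 2
  let D := 2 * z.1 * z.2 + z.2 ^ 2 - (z.1 * w.2 + z.2 * w.1 + z.2 * w.2) + 2 * w.1 * w.2 + w.2 ^ 2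
  (A - 43 * C + 28 * D, B - 7 * C - 50 * D)

private theorem ParTab_nrd (x y z w : ℤ × ℤ) :
    nrd (⟨⟨x.1, x.2⟩, ⟨y.1, y.2⟩, ⟨z.1, z.2⟩, ⟨w.1, w.2⟩⟩ : AA) =
      ⟨((ParTab_n x y z w).1 : ℤ), ((ParTab_n x y z w).2 : ℤ)⟩ := by
  ext <;> simp [nrd, NK, xp, yp, bq, ParTab_n, pow_two] <;> ring

private theorem ParTab_unit {g : AA} (h : nrd g ≠ 0) : ∃ u : AAˣ, (u : AA) = g := by
  refine ⟨⟨g, cj g * algebraMap kk AA (nrd g)⁻¹, ?_, ?_⟩, rfl⟩
  · rw [← mul_assoc, (mul_cj g).1, ← map_mul, mul_inv_cancel₀ h, map_one]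
  · rw [mul_assoc, Algebra.commutes, ← mul_assoc, (mul_cj g).2, ← map_mul, mul_inv_cancel₀ h,
      map_one]

/-- the table: `(p, r, nrd, re, imI, imJ, imK)` -/
private def ParTab_T : List (ℕ × ℕ × (ℤ × ℤ) × (ℤ × ℤ) × (ℤ × ℤ) × (ℤ × ℤ) × (ℤ × ℤ)) := [
  (2, 0, (-2, 0), (-5, 5), (0, -2), (-1, 0), (0, -1)),
  (3, 2, (-1, -1), (-7, 3), (3, -1), (-2, 0), (0, -1)),
  (5, 3, (3, -1), (-5, 1), (-2, -10), (-2, -1), (0, -2)),
  (17, 6, (1, -3), (-15, 11), (0, 0), (-2, 1), (0, -1)),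
  (17, 12, (5, 1), (-7, -1), (4, 6), (-2, 0), (0, 1)),
  (23, 7, (-7, 1), (-15, -11), (0, 0), (-2, -2), (2, -1)),
  (23, 17, (-5, 3), (-5, 1), (5, -3), (-2, 0), (0, -1)),
  (47, 10, (-3, 5), (-5, -1), (0, -8), (0, -1), (0, 0)),
  (47, 38, (-9, -1), (-9, 1), (2, -4), (-2, 0), (0, -1)),
  (53, 21, (-1, -5), (-11, 3), (-2, -2), (-2, 0), (0, -1)),
  (53, 33, (7, 3), (-1, 3), (1, -5), (0, -1), (0, 0)),
  (83, 32, (13, -3), (-4, 6), (2, 0), (-1, 0), (0, -1)),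
  (83, 52, (11, -5), (-9, 3), (1, -1), (-2, 0), (0, -1)),
  (107, 15, (15, -1), (-10, 0), (-1, -13), (0, -1), (0, 1)),
  (107, 93, (9, -7), (-6, 0), (2, 0), (-1, 0), (0, 0)),
  (113, 48, (-3, -7), (-2, -4), (0, 4), (-1, 0), (0, 1)),
  (113, 66, (9, 5), (-10, -2), (0, -4), (-1, 0), (0, 0)),
  (137, 41, (-13, 7), (-10, 2), (-1, -3), (-2, 0), (0, -1)),
  (137, 97, (-17, 3), (-6, 4), (-3, -5), (0, -1), (0, 0)),
  (167, 37, (1, 9), (-4, 6), (0, 0), (-1, 0), (0, -1)),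
  (167, 131, (-13, -5), (-14, 4), (2, 6), (-1, 0), (1, 0)),
  (173, 19, (-19, 1), (-2, -6), (0, 2), (-1, 0), (0, 1)),
  (173, 155, (-11, 9), (-4, -6), (-2, 2), (-1, 0), (0, 1))]

private theorem ParTab_T_ok : ∀ e ∈ ParTab_T,
    e.2.2.1.1 ^ 2 + e.2.2.1.1 * e.2.2.1.2 + 4 * e.2.2.1.2 ^ 2 = 2 * (e.1 : ℤ) ∧
    (2 : ℤ) ∣ e.2.2.1.1 + e.2.2.1.2 ∧ (e.1 : ℤ) ∣ e.2.2.1.1 + e.2.2.1.2 * (e.2.1 : ℤ) ∧
    ParTab_n e.2.2.2.1 e.2.2.2.2.1 e.2.2.2.2.2.1 e.2.2.2.2.2.2 = e.2.2.1 ∧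
    ¬ (e.1 = 2 ∧ e.2.1 = 1) := by
  decide +kernel

private theorem ParTab_cover : ∀ p ∈ Finset.range 194, p.Prime → p % 3 ≠ 1 →
    ∀ r ∈ Finset.range p, p ∣ r * r + 4 + (p - r) →
    (p = 2 ∧ r = 1) ∨ ∃ e ∈ ParTab_T, e.1 = p ∧ e.2.1 = r := by
  decide +kernel


/-- the order of an element with `(t) = v P` -/
private theorem ParTab_ord {v P : Pl} (hvP : v ≠ P) {t : 𝓞 kk}
    (ht : Ideal.span {t} = v.asIdeal * P.asIdeal) (w : Pl) :
    Odd (ord w (t : kk)) ↔ (w = v ∨ w = P) := by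
  have hval : w.valuation kk (t : kk) = w.intValuation t := w.valuation_of_algebraMap t
  have ht0 : t ≠ 0 := by
    rintro rfl
    rw [Ideal.span_singleton_eq_bot.2 rfl] at ht
    rcases mul_eq_zero.1 (show v.asIdeal * P.asIdeal = 0 from ht.symm) with h | h
    · exact v.ne_bot h
    · exact P.ne_bot h
  have hne : w.intValuation t ≠ 0 := w.intValuation_ne_zero t ht0
  have key : ∀ w' : Pl, w'.asIdeal ∣ w.asIdeal → w' = w := by
    intro w' h
    have h1 := (w.prime.dvd_prime_iff_associated w'.prime).1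
    have h2 : w.asIdeal ≤ w'.asIdeal := Ideal.dvd_iff_le.1 h
    exact HeightOneSpectrum.ext (w.isMaximal.eq_of_le w'.isPrime.ne_top h2).symm
  have hle : ∀ n : ℕ, (n : ℤ) ≤ ord w (t : kk) ↔ w.asIdeal ^ n ∣ v.asIdeal * P.asIdeal := by
    intro n
    rw [← ht, ← w.intValuation_le_pow_iff_dvd, ord, hval, ← WithZero.exp_log hne,
      WithZero.exp_le_exp]
    rw [WithZero.log_exp]
    constructor <;> intro h <;> linarith
  have h0 : 0 ≤ ord w (t : kk) := by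
    have := (hle 0).2 (by simp)
    simpa using this
  by_cases hw : w = v ∨ w = P
  · refine iff_of_true ?_ hw
    have h1 : (1 : ℤ) ≤ ord w (t : kk) := by
      have := (hle 1).2 (by
        rw [pow_one]
        rcases hw with rfl | rfl
        · exact Dvd.intro _ rfl
        · exact Dvd.intro_left _ rfl)
      simpa using this
    have h2 : ¬ (2 : ℤ) ≤ ord w (t : kk) := by
      intro h
      have h3 := (hle 2).1 (by exact_mod_cast h)
      rw [pow_two] at h3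
      rcases hw with rfl | rfl
      · have h4 := (mul_dvd_mul_iff_left w.ne_bot).1 h3
        apply hvP
        have h5 : P.asIdeal ≤ w.asIdeal := Ideal.dvd_iff_le.1 h4
        exact HeightOneSpectrum.ext (P.isMaximal.eq_of_le w.isPrime.ne_top h5).symm
      · have h4 := (mul_dvd_mul_iff_right w.ne_bot).1 h3
        apply hvP
        have h5 : v.asIdeal ≤ w.asIdeal := Ideal.dvd_iff_le.1 h4
        exact HeightOneSpectrum.ext (v.isMaximal.eq_of_le w.isPrime.ne_top h5)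
    have h3 : ord w (t : kk) = 1 := by omega
    rw [h3]
    exact odd_one
  · refine iff_of_false ?_ hw
    have h2 : ¬ (1 : ℤ) ≤ ord w (t : kk) := by
      intro h
      have h3 := (hle 1).1 (by exact_mod_cast h)
      rw [pow_one] at h3
      rcases w.prime.dvd_or_dvd h3 with h4 | h4
      · have h5 : v.asIdeal ≤ w.asIdeal := Ideal.dvd_iff_le.1 h4
        exact hw (Or.inl (HeightOneSpectrum.ext (v.isMaximal.eq_of_le w.isPrime.ne_top h5)).symm)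
      · have h5 : P.asIdeal ≤ w.asIdeal := Ideal.dvd_iff_le.1 h4
        exact hw (Or.inr (HeightOneSpectrum.ext (P.isMaximal.eq_of_le w.isPrime.ne_top h5)).symm)
    have h3 : ord w (t : kk) = 0 := by omega
    rw [h3]
    simp

theorem parity_table (v : Pl) (hv : om v = -1) (hn : Ideal.absNorm v.asIdeal ≤ 193) :
    ∃ P : Pl, (2 : 𝓞 kk) ∈ P.asIdeal ∧ P ∈ SS4 ∧ ∃ g : AAˣ, ∀ w : Pl,
      Odd (ord w (nrd (g : AA))) ↔ ((w = v ∧ w ≠ P) ∨ (w = P ∧ w ≠ v)) := by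
  obtain ⟨P, P3, P17, P23, hS, h2, -, -, -, hN, -⟩ := S4_list
  have hP : P ∈ SS4 := by
    rw [hS]
    simp
  refine ⟨P, h2, hP, ?_⟩
  have hPm : ∀ a b : ℤ, ParTab_mk a b ∈ P.asIdeal ↔ (2 : ℤ) ∣ a + b := fun a b => by
    rw [← ParTab_mem]
    exact (S4_res P hP a b).1 h2
  obtain ⟨p, r, hp, hp1, hp3, hr, hdvd, habs, hmem⟩ := ParTab_class v hv hn
  rcases ParTab_cover p (Finset.mem_range.2 (by omega)) hp hp3 r (Finset.mem_range.2 hr) hdvd with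
    ⟨rfl, rfl⟩ | ⟨e, he, rfl, rfl⟩
  · have hvP : v = P := by
      apply HeightOneSpectrum.ext
      ext x
      obtain ⟨a, b, rfl⟩ := ParTab_ex x
      rw [hmem, hPm]
      simp
    refine ⟨1, fun w => ?_⟩
    rw [hvP]
    have : ¬ Odd (ord w (nrd ((1 : AAˣ) : AA))) := by
      rw [Units.val_one, nrd_one, ord_one]
      simp
    refine iff_of_false this ?_
    rintro (⟨h, h'⟩ | ⟨h, h'⟩) <;> exact h' h
  · obtain ⟨e1, e2, e3, e4, e5⟩ := ParTab_T_ok e he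
    have hvP : v ≠ P := by
      rintro rfl
      have h21 : e.1 = 2 := by rw [← habs, hN]
      apply e5
      refine ⟨h21, ?_⟩
      rw [h21] at hr
      -- `(−1, 1) ∈ P`
      have h3 := (hPm (-1) 1).2 (by norm_num)
      rw [hmem, h21] at h3
      omega
    let t := ParTab_mk e.2.2.1.1 e.2.2.1.2
    have htv : t ∈ v.asIdeal := (hmem _ _).2 e3
    have htP : t ∈ P.asIdeal := (hPm _ _).2 e2
    have hspan : Ideal.span {t} = v.asIdeal * P.asIdeal := by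
      have hcop : v.asIdeal ⊔ P.asIdeal = ⊤ := by
        refine Ideal.isCoprime_iff_sup_eq.1 ?_
        refine v.asIdeal.isCoprime_iff_sup_eq.2 ?_
        exact v.isMaximal.coprime_of_ne P.isMaximal (fun h => hvP (HeightOneSpectrum.ext h))
      have h3 : v.asIdeal * P.asIdeal ∣ Ideal.span {t} := by
        rw [Ideal.dvd_iff_le, Ideal.mul_eq_inf_of_coprime hcop, Ideal.span_singleton_le_iff_mem]
        exact ⟨htv, htP⟩
      obtain ⟨J, hJ⟩ := h3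
      have h4 : Ideal.absNorm (Ideal.span {t}) = e.1 * 2 := by
        rw [ParTab_norm, e1]
        omega
      rw [hJ, map_mul, map_mul, habs, hN] at h4
      have h5 : 0 < e.1 * 2 := by
        have := hp.pos
        omega
      have h6 : Ideal.absNorm J = 1 := by
        have h7 : e.1 * 2 * Ideal.absNorm J = e.1 * 2 * 1 := by rw [h4, mul_one]
        exact Nat.eq_of_mul_eq_mul_left h5 h7
      rw [Ideal.absNorm_eq_one_iff] at h6
      rw [hJ, h6, Ideal.mul_top]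
    have hnr := ParTab_nrd e.2.2.2.1 e.2.2.2.2.1 e.2.2.2.2.2.1 e.2.2.2.2.2.2
    rw [e4] at hnr
    have ht0 : t ≠ 0 := by
      intro h
      rw [h, Ideal.span_singleton_eq_bot.2 rfl] at hspan
      rcases mul_eq_zero.1 (show v.asIdeal * P.asIdeal = 0 from hspan.symm) with h | h
      · exact v.ne_bot h
      · exact P.ne_bot h
    obtain ⟨g, hg⟩ := ParTab_unit (g := ⟨⟨(e.2.2.2.1.1 : ℚ), (e.2.2.2.1.2 : ℚ)⟩, ⟨(e.2.2.2.2.1.1 : ℚ), (e.2.2.2.2.1.2 : ℚ)⟩,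
      ⟨(e.2.2.2.2.2.1.1 : ℚ), (e.2.2.2.2.2.1.2 : ℚ)⟩, ⟨(e.2.2.2.2.2.2.1 : ℚ), (e.2.2.2.2.2.2.2 : ℚ)⟩⟩) (by
        rw [hnr]
        intro h
        exact ht0 (Subtype.ext h))
    refine ⟨g, fun w => ?_⟩
    rw [hg, hnr]
    have h8 := ParTab_ord hvP hspan w
    have h9 : ((t : 𝓞 kk) : kk) = ⟨(e.2.2.1.1 : ℤ), (e.2.2.1.2 : ℤ)⟩ := rfl
    rw [h9] at h8
    rw [h8]
    constructor
    · rintro (rfl | rfl)
      · exact Or.inl ⟨rfl, hvP⟩
      · exact Or.inr ⟨rfl, hvP.symm⟩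
    · rintro (⟨h, -⟩ | ⟨h, -⟩)
      · exact Or.inl h
      · exact Or.inr h

end

end Pool.Agent.Work.MP_14c213_gt
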