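import Pool.Agent.Work.MP_14c213_gt.B.LamB
import Pool.Agent.Work.MP_14c213_gt.B.NormPr
import Pool.Agent.Work.MP_14c213_gt.B.CntB

/-!
The product over the unramified places. t = T - 2 = -3 im² / NK x (TT_K). For v ∉ SS4: ord v t = 2 nn v x ≥ 0.
For v ∈ SS4: kapg x ≠ 0 gives all four exponents ≠ 0 (kapA_ne, kapB_ne), so ww ≢ 1 modulo v (al_one) and ord v t = 0
(t = (w - 1)²/w). So ‖t‖² = ∏ over v ∉ SS4 of Nv^(2 nn) (norm_prod) and ‖phik t‖ = 2 (chl - cth). Sign:
reciprocity for im: ∏_{v ∉ SS4} om^(nn v) = ∏_{all} om^(ord im) ∏_{SS4} om^(ord im) ∏_{v ∉ SS4} om^(½ ord NK); at P2, P17, P23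
ord im = ½ ord NK, at P3 ord im = ½ ord NK - 1 (ord 3 = 2).
-/

namespace Pool.Agent.Work.MP_14c213_gt

open Matrix IsDedekindDomain
open scoped Matrix NumberField QuadraticAlgebra

noncomputable section

private theorem val3 {v : Pl} (h : (3 : 𝓞 kk) ∉ v.asIdeal) : ord v 3 = 0 := by
  have h1 : v.valuation kk (3 : kk) = 1 := by
    rw [show (3 : kk) = ((3 : 𝓞 kk) : kk) from (map_ofNat (algebraMap (𝓞 kk) kk) 3).symm,
      v.valuation_of_algebraMap]
    by_contra h3
    have h4 : v.intValuation (3 : 𝓞 kk) < 1 := lt_of_le_of_ne (v.intValuation_le_one _) h3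
    exact h ((v.intValuation_lt_one_iff_mem _).1 h4)
  rw [ord, h1]
  simp

private theorem not_both {v : Pl} (h : (3 : 𝓞 kk) ∈ v.asIdeal) {a b : ℤ} {p : ℕ}
    (hp : ((p : ℕ) : 𝓞 kk) ∈ v.asIdeal) (hab : a * 3 + b * p = 1) : False := by
  apply v.isPrime.ne_top
  rw [Ideal.eq_top_iff_one]
  have h1 : (1 : 𝓞 kk) = (a : 𝓞 kk) * 3 + (b : 𝓞 kk) * ((p : ℕ) : 𝓞 kk) := by
    have := congrArg (fun n : ℤ => (n : 𝓞 kk)) hab
    push_cast at this
    exact this.symm
  rw [h1]
  exact v.asIdeal.add_mem (v.asIdeal.mul_mem_left _ h) (v.asIdeal.mul_mem_left _ hp)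

private theorem ord3_vals : ord P2 3 = 0 ∧ ord P17 3 = 0 ∧ ord P3 3 = 2 ∧ ord P23 3 = 0 := by
  obtain ⟨h2, h17, h3, h23, -⟩ := four_spec
  have c2 : (2 : 𝓞 kk) ∈ P2.asIdeal := by
    rcases h2.cases with h | h | h | h
    · exact h.1
    · exact absurd h.2.1 (by norm_num)
    · exact absurd h.2.2.2 (by norm_num)
    · exact absurd h.2.2.2 (by norm_num)
  have c17 : (17 : 𝓞 kk) ∈ P17.asIdeal := by
    rcases h17.cases with h | h | h | h
    · exact absurd h.2.1 (by norm_num)
    · exact h.1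
    · exact absurd h.2.2.2 (by norm_num)
    · exact absurd h.2.2.2 (by norm_num)
  have c3 : (3 : 𝓞 kk) ∈ P3.asIdeal := by
    rcases h3.cases with h | h | h | h
    · exact absurd h.2.2.2 (by norm_num)
    · exact absurd h.2.2.2 (by norm_num)
    · exact h.1
    · exact absurd h.2.1 (by norm_num)
  have c23 : (23 : 𝓞 kk) ∈ P23.asIdeal := by
    rcases h23.cases with h | h | h | h
    · exact absurd h.2.2.2 (by norm_num)
    · exact absurd h.2.2.2 (by norm_num)
    · exact absurd h.2.1 (by norm_num)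
    · exact h.1
  refine ⟨val3 fun h => ?_, val3 fun h => ?_, (three_mem P3 c3).2, val3 fun h => ?_⟩
  · exact not_both h (a := 1) (b := -1) (p := 2) (by exact_mod_cast c2) (by norm_num)
  · exact not_both h (a := 6) (b := -1) (p := 17) (by exact_mod_cast c17) (by norm_num)
  · exact not_both h (a := 8) (b := -1) (p := 23) (by exact_mod_cast c23) (by norm_num)

private theorem NK_w1 (x : KKˣ) : NK (ww (inK (x : KK)) - 1) = 3 * (x : KK).im ^ 2 / NK (x : KK) := by
  have hx : (x : KK) ≠ 0 := x.ne_zero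
  have hs : star (x : KK) ≠ 0 := by simp [x.ne_zero]
  have h1 : xp (inK (x : KK)) = x := by
    rw [inK, xp, mkA]
  have h2 : ww (inK (x : KK)) - 1 = ((x : KK) - star (x : KK)) * (star (x : KK))⁻¹ := by
    rw [ww, h1]
    field_simp
  have h3 : NK ((star (x : KK))⁻¹) = (NK (x : KK))⁻¹ := by
    have h4 := NK_mul (star (x : KK)) (star (x : KK))⁻¹
    rw [mul_inv_cancel₀ hs, NK_one, NK_star] at h4
    exact eq_inv_of_mul_eq_one_right h4.symm
  rw [h2, NK_mul, h3, star_KK]
  have h5 : NK ((x : KK) - ⟨(x : KK).re - (x : KK).im, -(x : KK).im⟩) = 3 * (x : KK).im ^ 2 := by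
    simp only [NK, QuadraticAlgebra.re_sub, QuadraticAlgebra.im_sub]
    ring
  rw [h5, div_eq_mul_inv]

private theorem tt_eq (x : KKˣ) :
    TT (inK (x : KK)) - 2 = -NK (ww (inK (x : KK)) - 1) := by
  rw [TT_K, NK_w1]
  ring

private theorem ord_neg' (v : Pl) (t : kk) : ord v (-t) = ord v t := by
  rw [ord, ord, Valuation.map_neg]

private theorem ord_tt_ram {v : Pl} (hv : v ∈ SS4) (x : KKˣ)
    (h : ¬ cg v (ww (inK (x : KK))) 1) : ord v (TT (inK (x : KK)) - 2) = 0 := by
  rw [tt_eq, ord_neg']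
  have hx1 : xp (inK (x : KK)) ≠ 0 := by
    rw [inK, xp, mkA]
    exact x.ne_zero
  have h1 : v.valuation kk (NK (ww (inK (x : KK)) - 1)) ≤ 1 := by
    have := inert_add v hv (ww (inK (x : KK))) (-1)
    rw [← sub_eq_add_neg, NK_ww hx1] at this
    have h2 : NK (-1 : KK) = 1 := by
      simp [NK]
    rw [h2] at this
    simpa using this
  have h2 : v.valuation kk (NK (ww (inK (x : KK)) - 1)) = 1 := le_antisymm h1 (not_lt.1 h)
  rw [ord, h2]
  simp

private theorem not_cg (x : KKˣ) (hk : kapg x ≠ 0) {v : Pl} (hv : v ∈ SS4) :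
    ¬ cg v (ww (inK (x : KK))) 1 := by
  obtain ⟨h2, h17, h3, h23, hS, -⟩ := four_spec
  have hx1 : xp (inK (x : KK)) ≠ 0 := by
    rw [inK, xp, mkA]
    exact x.ne_zero
  have hw := NK_ww hx1
  have hA : kapA (a2 (inKu x)) (a17 (inKu x)) ≠ 0 := fun h => hk (by rw [kapg, h, zero_mul])
  have hB : kapB (a3 (inKu x)) (a23 (inKu x)) ≠ 0 := fun h => hk (by rw [kapg, h, mul_zero])
  obtain ⟨k1, k2⟩ := kapA_ne _ _ hA
  obtain ⟨k3, k4⟩ := kapB_ne _ _ hB
  intro hc
  rw [hS] at hv
  simp only [Set.mem_insert_iff, Set.mem_singleton_iff] at hv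
  rcases hv with rfl | rfl | rfl | rfl
  · exact k1 (al_one h2 hw hc)
  · exact k2 (al_one h17 hw hc)
  · exact k3 (al_one h3 hw hc)
  · exact k4 (al_one h23 hw hc)

private theorem ord_tt (v : Pl) (x : KKˣ) (him : (x : KK).im ≠ 0) :
    ord v (TT (inK (x : KK)) - 2) = ord v 3 + 2 * ord v (x : KK).im - ord v (NK (x : KK)) := by
  have hN := NK_ne x.ne_zero
  rw [TT_K, show (-3 * (x : KK).im ^ 2 / NK (x : KK) : kk) =
    -(3 * ((x : KK).im ^ 2 * (NK (x : KK))⁻¹)) by ring, ord_neg',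
    ord_mul v (by norm_num) (mul_ne_zero (pow_ne_zero 2 him) (inv_ne_zero hN)),
    ord_mul v (pow_ne_zero 2 him) (inv_ne_zero hN), ord_pow, ord_inv]
  push_cast
  ring

theorem prodS_eq (x : KKˣ) (hx : inKu x ∈ GO) (him : (x : KK).im ≠ 0) (hk : kapg x ≠ 0) :
    prodS x = -(((lam x : ℤˣ) : ℤ) : ℝ) * 2 * (chl ((Psi (inKu x) : (Mat 3)ˣ) : Mat 3) -
      cth ((Psi (inKu x) : (Mat 3)ˣ) : Mat 3)) := by
  classical
  have hx' := (mem_GO _).1 hx
  have hN := NK_ne x.ne_zero
  obtain ⟨-, -, -, -, hS, n1, n2, n3, n4, n5, n6⟩ := four_spec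
  obtain ⟨o2, o17, o3, o23⟩ := ord3_vals
  set t := TT (inK (x : KK)) - 2 with ht
  have ht0 : t ≠ 0 := by
    rw [ht, TT_K]
    exact div_ne_zero (mul_ne_zero (by norm_num) (pow_ne_zero 2 him)) hN
  -- the finite set of places
  have hSfin : SS4.Finite := by rw [hS]; exact Set.toFinite _
  set F : Finset Pl := (ord_finite him).toFinset ∪ (ord_finite hN).toFinset ∪ hSfin.toFinset with hF
  have hFS : ∀ v ∈ SS4, v ∈ F := fun v hv => by simp [hF, hv]
  have hFi : ∀ v, v ∉ F → ord v (x : KK).im = 0 := fun v hv => by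
    by_contra h; exact hv (by simp [hF, h])
  have hFn : ∀ v, v ∉ F → ord v (NK (x : KK)) = 0 := fun v hv => by
    by_contra h; exact hv (by simp [hF, h])
  have hev := lam_even x hx
  have hhalf : ∀ v, 2 * (ord v (NK (x : KK)) / 2) = ord v (NK (x : KK)) := fun v =>
    Int.two_mul_ediv_two_of_even (hev v)
  have h3 : ∀ v, v ∉ SS4 → ord v 3 = 0 := fun v hv => val3 fun h => hv (three_mem v h).1
  have hun : ∀ v, v ∉ SS4 → ord v t = 2 * nn v x ∧ 0 ≤ nn v x := by
    intro v hv
    refine ⟨?_, (mem_Rn ((UU_iff_Rn hv x).1 (hx' v)) him 0).1⟩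
    rw [ht, ord_tt v x him, h3 v hv, nn]
    linarith [hhalf v]
  have hra : ∀ v, v ∈ SS4 → ord v t = 0 ∧ 2 * nn v x = -ord v 3 := by
    intro v hv
    have h1 := ord_tt_ram hv x (not_cg x hk hv)
    refine ⟨h1, ?_⟩
    rw [ord_tt v x him] at h1
    rw [nn]
    linarith [hhalf v]
  set U : Finset Pl := F.filter (fun v => v ∉ SS4) with hU
  -- prodS as a finite product
  have hprod : prodS x = ∏ v ∈ U, ((((om v : ℤˣ) : ℤ) : ℝ) *
      (Ideal.absNorm v.asIdeal : ℝ)) ^ (nn v x).toNat := by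
    have hsub : Function.mulSupport (fun v : Pl => if v ∈ SS4 then (1 : ℝ) else
        ((((om v : ℤˣ) : ℤ) : ℝ) * (Ideal.absNorm v.asIdeal : ℝ)) ^ (nn v x).toNat) ⊆
        (U : Finset Pl) := by
      intro v hv
      rw [Function.mem_mulSupport] at hv
      rw [Finset.mem_coe, hU, Finset.mem_filter]
      by_cases h4 : v ∈ SS4
      · simp [h4] at hv
      · refine ⟨?_, h4⟩
        by_contra h5
        apply hv
        have : nn v x = 0 := by
          rw [nn, hFi v h5, hFn v h5]; rfl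
        simp [h4, this]
    rw [prodS, finprod_eq_prod_of_mulSupport_subset _ hsub]
    refine Finset.prod_congr rfl fun v hv => ?_
    rw [if_neg (Finset.mem_filter.1 hv).2]
  -- the absolute value
  have hpos : ∀ v : Pl, (0 : ℝ) < (Ideal.absNorm v.asIdeal : ℝ) := by
    intro v
    have : Ideal.absNorm v.asIdeal ≠ 0 := by
      rw [Ne, Ideal.absNorm_eq_zero_iff]
      exact v.ne_bot
    positivity
  have habs : ∏ v ∈ U, (Ideal.absNorm v.asIdeal : ℝ) ^ (nn v x).toNat =
      2 * (chl ((Psi (inKu x) : (Mat 3)ˣ) : Mat 3) - cth ((Psi (inKu x) : (Mat 3)ˣ) : Mat 3)) := by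
    have e1 : 2 * (chl ((Psi (inKu x) : (Mat 3)ˣ) : Mat 3) -
        cth ((Psi (inKu x) : (Mat 3)ˣ) : Mat 3)) = ‖phik t‖ := by
      rw [chl_T, cth_T, ht, map_sub, map_ofNat]
      have : ((inKu x : AAˣ) : AA) = inK (x : KK) := rfl
      rw [this]
      ring
    rw [e1]
    have e2 := phik_norm t
    rw [norm_prod ht0] at e2
    have hsub : Function.mulSupport (fun v : Pl => (Ideal.absNorm v.asIdeal : ℝ) ^ (ord v t)) ⊆
        (U : Finset Pl) := by
      intro v hv
      rw [Function.mem_mulSupport] at hv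
      rw [Finset.mem_coe, hU, Finset.mem_filter]
      by_cases h4 : v ∈ SS4
      · rw [(hra v h4).1] at hv; simp at hv
      · refine ⟨?_, h4⟩
        by_contra h5
        apply hv
        have : nn v x = 0 := by
          rw [nn, hFi v h5, hFn v h5]; rfl
        rw [(hun v h4).1, this]; simp
    rw [finprod_eq_prod_of_mulSupport_subset _ hsub] at e2
    have e3 : ∏ v ∈ U, (Ideal.absNorm v.asIdeal : ℝ) ^ (ord v t) =
        (∏ v ∈ U, (Ideal.absNorm v.asIdeal : ℝ) ^ (nn v x).toNat) ^ 2 := by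
      rw [← Finset.prod_pow]
      refine Finset.prod_congr rfl fun v hv => ?_
      have h4 := (Finset.mem_filter.1 hv).2
      obtain ⟨k1, k2⟩ := hun v h4
      rw [k1, ← pow_mul, ← zpow_natCast]
      congr 1
      push_cast
      rw [Int.toNat_of_nonneg k2]
      ring
    rw [e3] at e2
    have p1 : 0 ≤ ∏ v ∈ U, (Ideal.absNorm v.asIdeal : ℝ) ^ (nn v x).toNat :=
      Finset.prod_nonneg fun v _ => (pow_pos (hpos v) _).le
    exact ((sq_eq_sq₀ (norm_nonneg _) p1).1 e2).symm
  -- the sign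
  have hsign : ∏ v ∈ U, om v ^ (nn v x).toNat = -lam x := by
    have s1 : ∏ v ∈ U, om v ^ (nn v x).toNat = ∏ v ∈ U, om v ^ (nn v x) := by
      refine Finset.prod_congr rfl fun v hv => ?_
      have h4 := (Finset.mem_filter.1 hv).2
      conv_rhs => rw [← Int.toNat_of_nonneg (hun v h4).2]
      rw [zpow_natCast]
    have s2 : (∏ v ∈ U, om v ^ (nn v x)) * ∏ v ∈ F.filter (fun v => ¬ v ∉ SS4), om v ^ (nn v x) =
        ∏ v ∈ F, om v ^ (nn v x) := Finset.prod_filter_mul_prod_filter_not F _ _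
    have s3 : F.filter (fun v => ¬ v ∉ SS4) = {P2, P17, P3, P23} := by
      ext v
      rw [Finset.mem_filter, not_not]
      constructor
      · rintro ⟨-, h⟩
        rw [hS] at h
        simpa using h
      · intro h
        have : v ∈ SS4 := by rw [hS]; simpa using h
        exact ⟨hFS v this, this⟩
    have q : ∀ v, v ∈ SS4 → ord v 3 = 0 → nn v x = 0 := fun v hv h => by
      have := (hra v hv).2
      rw [h] at this
      omega
    obtain ⟨m2, m17, m3, m23⟩ : P2 ∈ SS4 ∧ P17 ∈ SS4 ∧ P3 ∈ SS4 ∧ P23 ∈ SS4 := by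
      rw [hS]; simp
    have q3 : nn P3 x = -1 := by
      have := (hra P3 m3).2
      rw [o3] at this
      omega
    have s4 : ∏ v ∈ F.filter (fun v => ¬ v ∉ SS4), om v ^ (nn v x) = -1 := by
      rw [s3, Finset.prod_insert, Finset.prod_insert, Finset.prod_insert, Finset.prod_singleton,
        q P2 m2 o2, q P17 m17 o17, q P23 m23 o23, q3, om_S4 P3 m3]
      · simp only [_root_.zpow_zero, one_mul, mul_one]
        decide
      all_goals simp [n1, n2, n3, n4, n5, n6]
    have s5 : ∏ v ∈ F, om v ^ (nn v x) = lam x := by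
      have r1 := reciprocity him
      have hsub1 : Function.mulSupport (fun v : Pl => om v ^ (ord v (x : KK).im)) ⊆
          (F : Finset Pl) := by
        intro v hv
        by_contra h5
        exact hv (by show om v ^ (ord v (x : KK).im) = 1; rw [hFi v h5]; simp)
      have hsub2 : Function.mulSupport (fun v : Pl => om v ^ (ord v (NK (x : KK)) / 2)) ⊆
          (F : Finset Pl) := by
        intro v hv
        by_contra h5
        exact hv (by show om v ^ (ord v (NK (x : KK)) / 2) = 1; rw [hFn v h5]; simp)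
      rw [finprod_eq_prod_of_mulSupport_subset _ hsub1] at r1
      rw [lam, finprod_eq_prod_of_mulSupport_subset _ hsub2]
      have r2 : ∏ v ∈ F, om v ^ (nn v x) = (∏ v ∈ F, om v ^ (ord v (x : KK).im)) *
          ∏ v ∈ F, om v ^ (ord v (NK (x : KK)) / 2) := by
        rw [← Finset.prod_mul_distrib]
        refine Finset.prod_congr rfl fun v _ => ?_
        rw [nn, sub_eq_add_neg, _root_.zpow_add, _root_.zpow_neg, ← _root_.inv_zpow, Int.units_inv_eq_self]
      rw [r2, r1, one_mul]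
    rw [s4, s5] at s2
    rw [s1]
    rw [mul_neg, mul_one] at s2
    exact neg_eq_iff_eq_neg.1 s2
  rw [hprod]
  simp only [mul_pow]
  rw [Finset.prod_mul_distrib, habs]
  have hs' := congrArg (fun e : ℤˣ => (((e : ℤ)) : ℝ)) hsign
  simp only [Units.coe_prod, Units.val_pow_eq_pow_val, Units.val_neg] at hs'
  push_cast at hs'
  rw [hs']
  ring

end

end Pool.Agent.Work.MP_14c213_gt
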