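import Pool.Agent.Work.MP_14c213_gt.B.OrdB
import Pool.Agent.Work.MP_14c213_gt.B.FldB
import Pool.Agent.Work.MP_14c213_gt.B.S4a

/-!
The groups Rn v n: elements of K^× which up to scalars are units congruent to scalars modulo v^n.
Here v ∉ SS4 (so v does not divide 3 b; O_v[ζ] is the full ring of integers at v). The index: the classes of
Rn v 0 modulo Rn v n are the points [w] of P¹(𝓞/v^n) with NK w a unit; over each of the q + 1 - (1 + om v)
such points modulo v (roots of X² - X + 1) there are q^(n-1).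
-/

namespace Pool.Agent.Work.MP_14c213_gt

open Matrix IsDedekindDomain
open scoped Matrix NumberField QuadraticAlgebra

noncomputable section

private def RnB_P (v : Pl) (n : ℕ) (u : KK) : Prop :=
  v.valuation kk u.re ≤ 1 ∧ v.valuation kk u.im ≤ WithZero.exp (-(n : ℤ)) ∧
    v.valuation kk (NK u) = 1

private theorem RnB_exp_le (n : ℕ) : WithZero.exp (-(n : ℤ)) ≤ (1 : WithZero (Multiplicative ℤ)) := by
  rw [← WithZero.exp_zero, WithZero.exp_le_exp]
  omega

private theorem RnB_P_mul {v : Pl} {n : ℕ} {u w : KK} (hu : RnB_P v n u) (hw : RnB_P v n w) :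
    RnB_P v n (u * w) := by
  obtain ⟨h1, h2, h3⟩ := hu
  obtain ⟨k1, k2, k3⟩ := hw
  have hn := RnB_exp_le n
  refine ⟨?_, ?_, ?_⟩
  · rw [QuadraticAlgebra.re_mul]
    refine (Valuation.map_add _ _ _).trans (max_le ?_ ?_)
    · rw [map_mul]
      exact mul_le_one' h1 k1
    · rw [map_mul, map_mul, Valuation.map_neg, map_one, one_mul]
      exact mul_le_one' (h2.trans hn) (k2.trans hn)
  · rw [QuadraticAlgebra.im_mul]
    refine (Valuation.map_add _ _ _).trans (max_le ?_ ?_)
    · refine (Valuation.map_add _ _ _).trans (max_le ?_ ?_)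
      · rw [map_mul]
        exact (mul_le_mul' h1 k2).trans (by rw [one_mul])
      · rw [map_mul]
        exact (mul_le_mul' h2 k1).trans (by rw [mul_one])
    · rw [map_mul, map_mul, Valuation.map_neg, map_one, one_mul]
      exact (mul_le_mul' h2 (k2.trans hn)).trans (by rw [mul_one])
  · rw [NK_mul, map_mul, h3, k3, one_mul]

private theorem RnB_inv {u : KK} (hu : u ≠ 0) :
    u⁻¹ = algebraMap kk KK (NK u)⁻¹ * star u := by
  have h := NK_ne hu
  have h1 : u * star u = algebraMap kk KK (NK u) := mul_star_KK u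
  have h2 : algebraMap kk KK (NK u) ≠ 0 := by simpa using h
  refine inv_eq_of_mul_eq_one_right ?_
  have h3 : u * (algebraMap kk KK (NK u)⁻¹ * star u) =
      (algebraMap kk KK (NK u))⁻¹ * (u * star u) := by
    rw [map_inv₀]
    ring
  rw [h3, h1, inv_mul_cancel₀ h2]

private theorem RnB_re (z : kk) (u : KK) : (algebraMap kk KK z * u).re = z * u.re := by simp

private theorem RnB_im (z : kk) (u : KK) : (algebraMap kk KK z * u).im = z * u.im := by simp

private theorem RnB_P_star {v : Pl} {n : ℕ} {u : KK} (hu : RnB_P v n u) : RnB_P v n (star u) := by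
  obtain ⟨h1, h2, h3⟩ := hu
  have hn := RnB_exp_le n
  rw [star_KK] at *
  refine ⟨?_, ?_, ?_⟩
  · exact (Valuation.map_sub _ _ _).trans (max_le h1 (h2.trans hn))
  · rw [Valuation.map_neg]
    exact h2
  · have := NK_star u
    rw [star_KK] at this
    rw [this, h3]

private theorem RnB_P_inv {v : Pl} {n : ℕ} {u : KK} (hu0 : u ≠ 0) (hu : RnB_P v n u) :
    RnB_P v n u⁻¹ := by
  obtain ⟨k1, k2, k3⟩ := RnB_P_star hu
  obtain ⟨h1, h2, h3⟩ := hu
  rw [RnB_inv hu0]
  refine ⟨?_, ?_, ?_⟩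
  · rw [RnB_re, map_mul, map_inv₀, h3, inv_one, one_mul]
    exact k1
  · rw [RnB_im, map_mul, map_inv₀, h3, inv_one, one_mul]
    exact k2
  · rw [NK_mul, NK_algebraMap, map_mul, map_pow, map_inv₀, h3, k3]
    simp

private theorem RnB_le_exp {v : Pl} {y : kk} (hy : y ≠ 0) (n : ℤ) :
    v.valuation kk y ≤ WithZero.exp (-n) ↔ n ≤ ord v y := by
  have h : v.valuation kk y ≠ 0 := by simpa using hy
  rw [← WithZero.exp_log h, WithZero.exp_le_exp, ord]
  constructor <;> intro h <;> linarith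

private theorem RnB_carrier (v : Pl) (n : ℕ) (x : KK) (hx : x ≠ 0) :
    (∃ z : kk, z ≠ 0 ∧ 0 ≤ ord v (z * x.re) ∧ (x.im = 0 ∨ (n : ℤ) ≤ ord v (z * x.im)) ∧
      2 * ord v z + ord v (NK x) = 0) ↔
    ∃ z : kk, z ≠ 0 ∧ RnB_P v n (algebraMap kk KK z * x) := by
  refine exists_congr fun z => and_congr_right fun hz => ?_
  unfold RnB_P
  rw [RnB_re, RnB_im]
  refine and_congr ?_ (and_congr ?_ ?_)
  · by_cases h : z * x.re = 0
    · rw [h]
      simp [ord]
    · exact (val_le_one h).symm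
  · by_cases h : x.im = 0
    · simp [h]
    · have h' : z * x.im ≠ 0 := mul_ne_zero hz h
      rw [RnB_le_exp h']
      simp [h]
  · have h1 : NK (algebraMap kk KK z * x) = z ^ 2 * NK x := by rw [NK_mul, NK_algebraMap]
    have h2 := NK_ne hx
    have h3 : z ^ 2 * NK x ≠ 0 := mul_ne_zero (pow_ne_zero 2 hz) h2
    rw [h1]
    have h4 : ord v (z ^ 2 * NK x) = 2 * ord v z + ord v (NK x) := by
      rw [ord_mul v (pow_ne_zero 2 hz) h2, ord_pow]
      norm_num
    rw [← h4]
    have h5 : v.valuation kk (z ^ 2 * NK x) ≠ 0 := by simpa using h3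
    constructor
    · intro h
      rw [← WithZero.exp_log h5, ← WithZero.exp_zero]
      congr 1
      unfold ord at h
      linarith
    · intro h
      rw [ord, h]
      simp

/-- Elements of `K^×` which up to scalars are units congruent to scalars modulo `v^n`. -/
def Rn (v : Pl) (n : ℕ) : Subgroup KKˣ where
  carrier := {x | ∃ z : kk, z ≠ 0 ∧ 0 ≤ ord v (z * (x : KK).re) ∧
    ((x : KK).im = 0 ∨ (n : ℤ) ≤ ord v (z * (x : KK).im)) ∧ 2 * ord v z + ord v (NK (x : KK)) = 0}
  one_mem' := by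
    show ∃ z : kk, _
    rw [RnB_carrier _ _ _ (Units.ne_zero _)]
    refine ⟨1, one_ne_zero, ?_, ?_, ?_⟩
    · simp
    · simp
    · simp [NK_one]
  mul_mem' := by
    rintro x y hx hy
    have hx' := (RnB_carrier v n x (Units.ne_zero _)).1 hx
    have hy' := (RnB_carrier v n y (Units.ne_zero _)).1 hy
    obtain ⟨z, hz, h⟩ := hx'
    obtain ⟨w, hw, k⟩ := hy'
    refine (RnB_carrier v n _ (Units.ne_zero _)).2 ⟨z * w, mul_ne_zero hz hw, ?_⟩
    have := RnB_P_mul h k
    have h1 : algebraMap kk KK (z * w) * ((x * y : KKˣ) : KK) =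
        algebraMap kk KK z * x * (algebraMap kk KK w * y) := by
      rw [map_mul, Units.val_mul]
      ring
    rw [h1]
    exact this
  inv_mem' := by
    rintro x hx
    have hx' := (RnB_carrier v n x (Units.ne_zero _)).1 hx
    obtain ⟨z, hz, h⟩ := hx'
    refine (RnB_carrier v n _ (Units.ne_zero _)).2 ⟨z⁻¹, inv_ne_zero hz, ?_⟩
    have hz' : algebraMap kk KK z ≠ 0 := by simpa using hz
    have := RnB_P_inv (mul_ne_zero hz' (Units.ne_zero x)) h
    have h1 : algebraMap kk KK z⁻¹ * ((x⁻¹ : KKˣ) : KK) = (algebraMap kk KK z * x)⁻¹ := by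
      rw [map_inv₀, Units.val_inv_eq_inv_val, mul_inv]
    rw [h1]
    exact this

private theorem RnB_mem (v : Pl) (n : ℕ) (x : KKˣ) :
    x ∈ Rn v n ↔ ∃ z : kk, z ≠ 0 ∧ RnB_P v n (algebraMap kk KK z * x) :=
  RnB_carrier v n x (Units.ne_zero _)

/-- The level of `x` at `v`. -/
def nn (v : Pl) (x : KKˣ) : ℤ := ord v (x : KK).im - ord v (NK (x : KK)) / 2

theorem Rn_mono (v : Pl) {m n : ℕ} (h : m ≤ n) : Rn v n ≤ Rn v m := by
  intro x hx
  rw [RnB_mem] at hx ⊢
  obtain ⟨z, hz, h1, h2, h3⟩ := hx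
  refine ⟨z, hz, h1, h2.trans ?_, h3⟩
  rw [WithZero.exp_le_exp]
  omega

theorem mem_Rn {v : Pl} {x : KKˣ} (hx : x ∈ Rn v 0) (him : (x : KK).im ≠ 0) (n : ℕ) :
    0 ≤ nn v x ∧ (x ∈ Rn v n ↔ (n : ℤ) ≤ nn v x) := by
  obtain ⟨z, hz, h1, h2, h3⟩ := hx
  have h4 : ord v (z * (x : KK).im) = ord v z + ord v (x : KK).im := ord_mul v hz him
  have h5 : nn v x = ord v z + ord v (x : KK).im := by
    unfold nn
    omega
  have h2' := h2.resolve_left him
  refine ⟨by rw [h5, ← h4]; simpa using h2', ?_⟩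
  constructor
  · rintro ⟨w, hw, k1, k2, k3⟩
    have k4 := k2.resolve_left him
    rw [ord_mul v hw him] at k4
    have : ord v w = ord v z := by omega
    rw [h5, ← this]
    exact k4
  · intro h
    refine ⟨z, hz, h1, Or.inr ?_, h3⟩
    rw [h4, ← h5]
    exact h

theorem UU_iff_Rn {v : Pl} (hv : v ∉ SS4) (x : KKˣ) : inKu x ∈ UU v ↔ x ∈ Rn v 0 := by
  rw [RnB_mem, UU, if_neg hv]
  have hin : ∀ (z : kk) (y : KK), z • inK y ∈ OO v ↔
      (v.valuation kk (algebraMap kk KK z * y).re ≤ 1 ∧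
        v.valuation kk (algebraMap kk KK z * y).im ≤ 1) := by
    intro z y
    rw [RnB_re, RnB_im]
    constructor
    · rintro ⟨h1, h2, h3, h4⟩
      exact ⟨by simpa [inK, mkA] using h1, by simpa [inK, mkA] using h2⟩
    · rintro ⟨h1, h2⟩
      refine ⟨by simpa [inK, mkA] using h1, by simpa [inK, mkA] using h2, ?_, ?_⟩ <;>
        simp [inK, mkA]
  constructor
  · rintro ⟨z, hz, h1, h2⟩
    have h1' := (hin z x).1 h1
    have h2' := (hin z⁻¹ ((x⁻¹ : KKˣ) : KK)).1 h2
    refine ⟨z, hz, h1'.1, by simpa using h1'.2, ?_⟩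
    have hN : ∀ u : KK, v.valuation kk u.re ≤ 1 → v.valuation kk u.im ≤ 1 →
        v.valuation kk (NK u) ≤ 1 := by
      intro u k1 k2
      unfold NK
      refine (Valuation.map_add _ _ _).trans (max_le ?_ ?_)
      · refine (Valuation.map_sub _ _ _).trans (max_le ?_ ?_)
        · rw [map_pow]
          exact pow_le_one' k1 2
        · rw [map_mul]
          exact mul_le_one' k1 k2
      · rw [map_pow]
        exact pow_le_one' k2 2
    have h3 := hN _ h1'.1 h1'.2
    have h4 := hN _ h2'.1 h2'.2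
    have h5 : NK (algebraMap kk KK z * (x : KK)) *
        NK (algebraMap kk KK z⁻¹ * ((x⁻¹ : KKˣ) : KK)) = 1 := by
      rw [← NK_mul]
      have : algebraMap kk KK z * (x : KK) * (algebraMap kk KK z⁻¹ * ((x⁻¹ : KKˣ) : KK)) = 1 := by
        have hz' : algebraMap kk KK z ≠ 0 := by simpa using hz
        rw [map_inv₀, Units.val_inv_eq_inv_val]
        have := Units.ne_zero x
        field_simp
      rw [this, NK_one]
    have h6 := congrArg (v.valuation kk) h5
    rw [map_mul, map_one] at h6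
    refine le_antisymm h3 ?_
    rw [← h6]
    exact (mul_le_mul' le_rfl h4).trans (by rw [mul_one])
  · rintro ⟨z, hz, h⟩
    have hz' : algebraMap kk KK z ≠ 0 := by simpa using hz
    have h' := RnB_P_inv (mul_ne_zero hz' (Units.ne_zero x)) h
    refine ⟨z, hz, (hin z x).2 ⟨h.1, by simpa using h.2.1⟩, ?_⟩
    have h1 : algebraMap kk KK z⁻¹ * ((x⁻¹ : KKˣ) : KK) = (algebraMap kk KK z * x)⁻¹ := by
      rw [map_inv₀, Units.val_inv_eq_inv_val, mul_inv]
    refine (hin z⁻¹ ((x⁻¹ : KKˣ) : KK)).2 ?_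
    rw [h1]
    exact ⟨h'.1, by simpa using h'.2.1⟩

/-! The index. -/

private theorem RnB_index_card {G : Type*} [Group G] (H K : Subgroup G) {T : Type*} (g : T → G)
    (hg : ∀ t, g t ∈ K) (hinj : ∀ t t', (g t)⁻¹ * g t' ∈ H → t = t')
    (hsurj : ∀ x ∈ K, ∃ t, (g t)⁻¹ * x ∈ H) : H.relIndex K = Nat.card T := by
  rw [Subgroup.relIndex, Subgroup.index]
  symm
  refine Nat.card_eq_of_bijective (fun t => ((⟨g t, hg t⟩ : K) : K ⧸ H.subgroupOf K)) ⟨?_, ?_⟩
  · intro t t' h
    have h1 := QuotientGroup.eq.1 h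
    rw [Subgroup.mem_subgroupOf] at h1
    exact hinj t t' (by simpa using h1)
  · intro y
    obtain ⟨x, rfl⟩ := QuotientGroup.mk_surjective y
    obtain ⟨t, ht⟩ := hsurj x.1 x.2
    refine ⟨t, QuotientGroup.eq.2 ?_⟩
    rw [Subgroup.mem_subgroupOf]
    simpa using ht

private theorem RnB_E {v : Pl} {n : ℕ} {x y : KKˣ} {u w : KK} {z z' : kk} (hz : z ≠ 0)
    (hz' : z' ≠ 0) (hu : RnB_P v 0 u) (hw : RnB_P v 0 w) (hux : u = algebraMap kk KK z * x)
    (hwy : w = algebraMap kk KK z' * y) :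
    x⁻¹ * y ∈ Rn v n ↔ v.valuation kk (u.re * w.im - u.im * w.re) ≤ WithZero.exp (-(n : ℤ)) := by
  have hza : algebraMap kk KK z ≠ 0 := by simpa using hz
  have hza' : algebraMap kk KK z' ≠ 0 := by simpa using hz'
  have hx0 : (x : KK) ≠ 0 := Units.ne_zero x
  have hu0 : u ≠ 0 := by rw [hux]; exact mul_ne_zero hza hx0
  have hN := NK_ne hu0
  set c := NK u * z⁻¹ * z' with hc
  have hc0 : c ≠ 0 := mul_ne_zero (mul_ne_zero hN (inv_ne_zero hz)) hz'
  have hs : star u * w = algebraMap kk KK c * ((x⁻¹ * y : KKˣ) : KK) := by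
    have h1 : u * star u = algebraMap kk KK (NK u) := mul_star_KK u
    rw [hc, map_mul, map_mul, ← h1, map_inv₀, hwy, Units.val_mul, Units.val_inv_eq_inv_val]
    have h2 : star u = u * star u * u⁻¹ := by field_simp
    have h3 : u⁻¹ = (algebraMap kk KK z)⁻¹ * (x : KK)⁻¹ := by rw [hux, mul_inv]
    calc star u * (algebraMap kk KK z' * y) = (u * star u * u⁻¹) * (algebraMap kk KK z' * y) := by
          rw [← h2]
      _ = _ := by
          rw [h3]
          ring
  have him : (star u * w).im = u.re * w.im - u.im * w.re := by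
    rw [star_KK, QuadraticAlgebra.im_mul]
    ring
  have hP := RnB_P_mul (RnB_P_star hu) hw
  rw [RnB_mem, ← him]
  constructor
  · rintro ⟨z1, hz1, k1, k2, k3⟩
    have h4 : v.valuation kk z1 = v.valuation kk c := by
      have h5 := hP.2.2
      rw [hs, NK_mul, NK_algebraMap, map_mul, map_pow] at h5
      rw [NK_mul, NK_algebraMap, map_mul, map_pow] at k3
      have h6 : v.valuation kk (NK ((x⁻¹ * y : KKˣ) : KK)) ≠ 0 := by
        simpa using NK_ne (Units.ne_zero (x⁻¹ * y))
      have h7 : v.valuation kk z1 ^ 2 = v.valuation kk c ^ 2 :=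
        mul_right_cancel₀ h6 (k3.trans h5.symm)
      exact (pow_left_inj₀ zero_le zero_le two_ne_zero).1 h7
    rw [hs, RnB_im, map_mul, ← h4, ← map_mul, ← RnB_im]
    exact k2
  · intro h
    exact ⟨c, hc0, by rw [← hs]; exact ⟨hP.1, h, hP.2.2⟩⟩

private theorem RnB_lt {v : Pl} {y : kk} (h : v.valuation kk y < 1) :
    v.valuation kk y ≤ WithZero.exp (-((1 : ℕ) : ℤ)) := by
  by_cases hy : y = 0
  · rw [hy, map_zero]
    exact zero_le
  · rw [RnB_le_exp hy]
    have := (val_lt_one hy).1 h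
    push_cast
    omega

private theorem RnB_lt' {v : Pl} {y : kk} (h : v.valuation kk y ≤ WithZero.exp (-((1 : ℕ) : ℤ))) :
    v.valuation kk y < 1 := by
  refine h.trans_lt ?_
  rw [← WithZero.exp_zero, WithZero.exp_lt_exp]
  norm_num

private theorem RnB_approx (v : Pl) {y : kk} (h : v.valuation kk y ≤ 1) :
    ∃ a : 𝓞 kk, v.valuation kk (y - a) < 1 := by
  obtain ⟨c, d, hd, rfl⟩ := IsFractionRing.div_surjective (A := 𝓞 kk) y
  have hd0 : d ≠ 0 := nonZeroDivisors.ne_zero hd
  have hd0' : algebraMap (𝓞 kk) kk d ≠ 0 := by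
    intro h
    exact hd0 ((map_eq_zero_iff _ (IsFractionRing.injective (𝓞 kk) kk)).1 h)
  have hdi := v.intValuation_ne_zero d hd0
  have hle1 := v.intValuation_le_one d
  obtain ⟨k, hk⟩ : ∃ k : ℕ, v.intValuation d = WithZero.exp (-(k : ℤ)) := by
    refine ⟨(-WithZero.log (v.intValuation d)).toNat, ?_⟩
    rw [← WithZero.exp_log hdi, ← WithZero.exp_zero, WithZero.exp_le_exp] at hle1
    rw [Int.toNat_of_nonneg (by omega), neg_neg, WithZero.exp_log hdi]
  have h1 : d ∈ v.asIdeal ^ k := (v.intValuation_le_pow_iff_mem d k).1 hk.le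
  have h2 : d ∉ v.asIdeal ^ (k + 1) := by
    intro h3
    have h4 := (v.intValuation_le_pow_iff_mem d (k + 1)).2 h3
    rw [hk, WithZero.exp_le_exp] at h4
    push_cast at h4
    omega
  have hvd : v.valuation kk (algebraMap (𝓞 kk) kk d) = WithZero.exp (-(k : ℤ)) := by
    rw [← hk]
    exact v.valuation_of_algebraMap d
  have h3 : c ∈ v.asIdeal ^ k := by
    rw [← v.intValuation_le_pow_iff_mem]
    rw [map_div₀, hvd] at h
    have h4 : v.valuation kk (algebraMap (𝓞 kk) kk c) = v.intValuation c :=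
      v.valuation_of_algebraMap c
    rw [h4] at h
    exact (div_le_one₀ (WithZero.exp_pos)).1 h
  obtain ⟨a, e, he, hae⟩ := Ideal.exists_mul_add_mem_pow_succ v.ne_bot d c h1 h2 h3
  refine ⟨a, ?_⟩
  have h5 : algebraMap (𝓞 kk) kk c / algebraMap (𝓞 kk) kk d - (a : kk) =
      algebraMap (𝓞 kk) kk e / algebraMap (𝓞 kk) kk d := by
    have h6 : algebraMap (𝓞 kk) kk c = algebraMap (𝓞 kk) kk d * (a : kk) + algebraMap (𝓞 kk) kk e := by
      rw [← hae, map_add, map_mul]
    rw [h6]
    field_simp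
    ring
  rw [h5, map_div₀, hvd, div_lt_one₀ (WithZero.exp_pos)]
  have h7 : v.valuation kk (algebraMap (𝓞 kk) kk e) = v.intValuation e :=
    v.valuation_of_algebraMap e
  rw [h7]
  refine ((v.intValuation_le_pow_iff_mem e (k + 1)).2 he).trans_lt ?_
  rw [WithZero.exp_lt_exp]
  push_cast
  omega

private theorem RnB_unit_of_re {v : Pl} {u : KK} (h : v.valuation kk (NK u) = 1)
    (h1 : v.valuation kk u.re ≤ 1) (h2 : v.valuation kk u.im ≤ 1) :
    v.valuation kk u.re = 1 ∨ v.valuation kk u.im = 1 := by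
  by_contra hcon
  rw [not_or] at hcon
  have k1 := lt_of_le_of_ne h1 hcon.1
  have k2 := lt_of_le_of_ne h2 hcon.2
  have h3 : v.valuation kk (NK u) < 1 := by
    unfold NK
    refine (Valuation.map_add _ _ _).trans_lt (max_lt ?_ ?_)
    · refine (Valuation.map_sub _ _ _).trans_lt (max_lt ?_ ?_)
      · rw [map_pow]
        exact pow_lt_one₀ zero_le k1 two_ne_zero
      · rw [map_mul]
        exact mul_lt_one_of_lt_of_le k1 h2
    · rw [map_pow]
      exact pow_lt_one₀ zero_le k2 two_ne_zero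
  rw [h] at h3
  exact lt_irrefl _ h3

private theorem RnB_out (v : Pl) (y : 𝓞 kk) :
    v.valuation kk (((Quotient.out (Ideal.Quotient.mk v.asIdeal y) : 𝓞 kk) : kk) - (y : kk)) < 1 := by
  have h : (Quotient.out (Ideal.Quotient.mk v.asIdeal y) : 𝓞 kk) - y ∈ v.asIdeal := by
    rw [← Ideal.Quotient.eq]
    exact Quotient.out_eq' (Ideal.Quotient.mk v.asIdeal y)
  have h1 := (v.valuation_lt_one_iff_mem (K := kk) _).2 h
  have h2 : algebraMap (𝓞 kk) kk ((Quotient.out (Ideal.Quotient.mk v.asIdeal y) : 𝓞 kk) - y) =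
      ((Quotient.out (Ideal.Quotient.mk v.asIdeal y) : 𝓞 kk) : kk) - (y : kk) := by
    rw [map_sub]
  rw [← h2]
  exact h1

private theorem RnB_out_eq (v : Pl) {t t' : 𝓞 kk ⧸ v.asIdeal}
    (h : v.valuation kk (((Quotient.out t : 𝓞 kk) : kk) - ((Quotient.out t' : 𝓞 kk) : kk)) < 1) :
    t = t' := by
  have h2 : algebraMap (𝓞 kk) kk ((Quotient.out t : 𝓞 kk) - Quotient.out t') =
      ((Quotient.out t : 𝓞 kk) : kk) - ((Quotient.out t' : 𝓞 kk) : kk) := by
    rw [map_sub]
  rw [← h2] at h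
  have h1 := (v.valuation_lt_one_iff_mem (K := kk) _).1 h
  rw [← Ideal.Quotient.eq] at h1
  have e1 : Ideal.Quotient.mk v.asIdeal (Quotient.out t) = t := Quotient.out_eq' t
  have e2 : Ideal.Quotient.mk v.asIdeal (Quotient.out t') = t' := Quotient.out_eq' t'
  rw [e1, e2] at h1
  exact h1

/-- the unit `a + b ζ` -/
private def RnB_u (a b : kk) (h : a ≠ 0 ∨ b ≠ 0) : KKˣ :=
  Units.mk0 (⟨a, b⟩ : KK) (by
    intro h0
    have h1 := congrArg QuadraticAlgebra.re h0
    have h2 := congrArg QuadraticAlgebra.im h0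
    rcases h with h | h
    · exact h h1
    · exact h h2)

private theorem RnB_u_coe (a b : kk) (h : a ≠ 0 ∨ b ≠ 0) : ((RnB_u a b h : KKˣ) : KK) = ⟨a, b⟩ := rfl

private theorem RnB_step (v : Pl) (m : ℕ) (hm : 1 ≤ m) :
    (Rn v (m + 1)).relIndex (Rn v m) = Nat.card (𝓞 kk ⧸ v.asIdeal) := by
  classical
  obtain ⟨π, hπ⟩ := v.intValuation_exists_uniformizer
  have hπ0 : π ≠ 0 := by
    rintro rfl
    rw [map_zero] at hπ
    exact WithZero.exp_ne_zero hπ.symm
  have hπv : v.valuation kk (π : kk) = WithZero.exp (-1 : ℤ) := by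
    rw [← hπ]
    exact v.valuation_of_algebraMap (K := kk) π
  have hπ0' : (π : kk) ≠ 0 := by exact_mod_cast hπ0
  have hπm : v.valuation kk ((π : kk) ^ m) = WithZero.exp (-(m : ℤ)) := by
    rw [map_pow, hπv, ← WithZero.exp_nsmul]
    congr 1
    simp
  have hmlt : WithZero.exp (-(m : ℤ)) < (1 : WithZero (Multiplicative ℤ)) := by
    rw [← WithZero.exp_zero, WithZero.exp_lt_exp]
    omega
  let tt : 𝓞 kk ⧸ v.asIdeal → kk := fun t => ((Quotient.out t : 𝓞 kk) : kk)
  have htt : ∀ t, v.valuation kk (tt t) ≤ 1 := fun t => v.valuation_le_one (K := kk) _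
  have hP : ∀ t, RnB_P v m (⟨1, tt t * (π : kk) ^ m⟩ : KK) := by
    intro t
    have h1 : v.valuation kk (tt t * (π : kk) ^ m) ≤ WithZero.exp (-(m : ℤ)) := by
      rw [map_mul, hπm]
      exact (mul_le_mul' (htt t) le_rfl).trans (by rw [one_mul])
    have h2 := h1.trans_lt hmlt
    refine ⟨by simp, h1, ?_⟩
    have h3 : NK (⟨1, tt t * (π : kk) ^ m⟩ : KK) =
        1 + (tt t * (π : kk) ^ m) * (tt t * (π : kk) ^ m - 1) := by
      simp only [NK]
      ring
    rw [h3]
    refine Valuation.map_one_add_of_lt _ ?_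
    rw [map_mul]
    refine mul_lt_one_of_lt_of_le h2 ?_
    exact (Valuation.map_sub _ _ _).trans (max_le h2.le (by rw [map_one]))
  have hP0 : ∀ {u : KK}, RnB_P v m u → RnB_P v 0 u := fun h =>
    ⟨h.1, h.2.1.trans (by rw [WithZero.exp_le_exp]; omega), h.2.2⟩
  refine RnB_index_card _ _ (fun t => RnB_u 1 (tt t * (π : kk) ^ m) (Or.inl one_ne_zero)) ?_ ?_ ?_
  · intro t
    rw [RnB_mem]
    refine ⟨1, one_ne_zero, ?_⟩
    rw [map_one, one_mul]
    exact hP t
  · intro t t' h
    rw [RnB_E one_ne_zero one_ne_zero (hP0 (hP t)) (hP0 (hP t')) (by rw [map_one, one_mul]; rfl)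
      (by rw [map_one, one_mul]; rfl)] at h
    symm
    apply RnB_out_eq v
    change v.valuation kk (tt t' - tt t) < 1
    have h1 : (1 : kk) * (tt t' * (π : kk) ^ m) - tt t * (π : kk) ^ m * 1 =
        (tt t' - tt t) * (π : kk) ^ m := by ring
    have h2 : v.valuation kk ((tt t' - tt t) * (π : kk) ^ m) ≤ WithZero.exp (-((m + 1 : ℕ) : ℤ)) := by
      rw [← h1]
      exact h
    rw [map_mul, hπm] at h2
    refine RnB_lt' ?_
    have h3 : WithZero.exp (-((m + 1 : ℕ) : ℤ)) =
        WithZero.exp (-((1 : ℕ) : ℤ)) * WithZero.exp (-(m : ℤ)) := by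
      rw [← WithZero.exp_add]
      congr 1
      push_cast
      ring
    rw [h3] at h2
    exact (mul_le_mul_iff_left₀ (WithZero.exp_pos)).1 h2
  · intro x hx
    rw [RnB_mem] at hx
    obtain ⟨z, hz, hu⟩ := hx
    set u := algebraMap kk KK z * (x : KK) with hudef
    have hre : v.valuation kk u.re = 1 := by
      rcases RnB_unit_of_re hu.2.2 hu.1 (hu.2.1.trans hmlt.le) with h | h
      · exact h
      · exact absurd h (hu.2.1.trans_lt hmlt).ne
    have hre0 : u.re ≠ 0 := by
      intro h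
      rw [h, map_zero] at hre
      exact zero_ne_one hre
    set y := u.im / (u.re * (π : kk) ^ m) with hy
    have hyv : v.valuation kk y ≤ 1 := by
      rw [hy, map_div₀, map_mul, hre, one_mul, hπm, div_le_one₀ WithZero.exp_pos]
      exact hu.2.1
    obtain ⟨a, ha⟩ := RnB_approx v hyv
    refine ⟨Ideal.Quotient.mk v.asIdeal a, ?_⟩
    rw [RnB_E one_ne_zero hz (hP0 (hP _)) (hP0 hu) (by rw [map_one, one_mul]; rfl) hudef]
    have h1 : (1 : kk) * u.im - tt (Ideal.Quotient.mk v.asIdeal a) * (π : kk) ^ m * u.re =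
        u.re * (π : kk) ^ m * ((y - a) - (tt (Ideal.Quotient.mk v.asIdeal a) - a)) := by
      rw [hy]
      have : (π : kk) ^ m ≠ 0 := pow_ne_zero m hπ0'
      field_simp
      ring
    show v.valuation kk ((1 : kk) * u.im - tt (Ideal.Quotient.mk v.asIdeal a) * (π : kk) ^ m * u.re) ≤ _
    rw [h1, map_mul, map_mul, hre, one_mul, hπm]
    have h3 : WithZero.exp (-((m + 1 : ℕ) : ℤ)) =
        WithZero.exp (-(m : ℤ)) * WithZero.exp (-((1 : ℕ) : ℤ)) := by
      rw [← WithZero.exp_add]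
      congr 1
      push_cast
      ring
    rw [h3]
    refine mul_le_mul' le_rfl (RnB_lt ?_)
    exact (Valuation.map_sub _ _ _).trans_lt (max_lt ha (RnB_out v a))

private theorem RnB_base (v : Pl) :
    (Rn v 1).relIndex (Rn v 0) =
      Nat.card (Option {t : 𝓞 kk ⧸ v.asIdeal // t ^ 2 - t + 1 ≠ 0}) := by
  classical
  let tt : 𝓞 kk ⧸ v.asIdeal → kk := fun t => ((Quotient.out t : 𝓞 kk) : kk)
  have htt : ∀ t, v.valuation kk (tt t) ≤ 1 := fun t => v.valuation_le_one (K := kk) _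
  have hmk : ∀ t, Ideal.Quotient.mk v.asIdeal (Quotient.out t : 𝓞 kk) = t :=
    fun t => Quotient.out_eq' t
  have hP : ∀ t : 𝓞 kk ⧸ v.asIdeal, t ^ 2 - t + 1 ≠ 0 → RnB_P v 0 (⟨1, tt t⟩ : KK) := by
    intro t ht
    refine ⟨by simp, by simpa using htt t, ?_⟩
    have h3 : NK (⟨1, tt t⟩ : KK) = algebraMap (𝓞 kk) kk
        ((Quotient.out t : 𝓞 kk) ^ 2 - (Quotient.out t : 𝓞 kk) + 1) := by
      simp only [NK, tt, map_add, map_sub, map_pow, map_one]
      ring
    rw [h3]
    refine le_antisymm (v.valuation_le_one (K := kk) _) (not_lt.1 fun h => ht ?_)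
    have h4 := (v.valuation_lt_one_iff_mem (K := kk) _).1 h
    rw [← Ideal.Quotient.eq_zero_iff_mem, map_add, map_sub, map_pow, hmk, map_one] at h4
    exact h4
  have hPz : RnB_P v 0 (⟨0, 1⟩ : KK) := by
    refine ⟨by simp, by simp, by simp [NK]⟩
  let g : Option {t : 𝓞 kk ⧸ v.asIdeal // t ^ 2 - t + 1 ≠ 0} → KKˣ := fun o =>
    match o with
    | none => RnB_u 0 1 (Or.inr one_ne_zero)
    | some t => RnB_u 1 (tt t.1) (Or.inl one_ne_zero)
  have hgP : ∀ o, RnB_P v 0 ((g o : KKˣ) : KK) := by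
    intro o
    rcases o with _ | t
    · exact hPz
    · exact hP t.1 t.2
  have hE : ∀ o o', (g o)⁻¹ * g o' ∈ Rn v 1 ↔ v.valuation kk
      (((g o : KKˣ) : KK).re * ((g o' : KKˣ) : KK).im - ((g o : KKˣ) : KK).im * ((g o' : KKˣ) : KK).re)
        ≤ WithZero.exp (-((1 : ℕ) : ℤ)) := fun o o' =>
    RnB_E one_ne_zero one_ne_zero (hgP o) (hgP o') (by rw [map_one, one_mul])
      (by rw [map_one, one_mul])
  have hnot : ¬ (1 : WithZero (Multiplicative ℤ)) ≤ WithZero.exp (-((1 : ℕ) : ℤ)) := by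
    rw [← WithZero.exp_zero, WithZero.exp_le_exp]
    norm_num
  refine RnB_index_card _ _ g ?_ ?_ ?_
  · intro o
    rw [RnB_mem]
    exact ⟨1, one_ne_zero, by rw [map_one, one_mul]; exact hgP o⟩
  · intro o o' h
    rw [hE] at h
    rcases o with _ | t <;> rcases o' with _ | t'
    · rfl
    · exfalso
      have h1 : v.valuation kk ((0 : kk) * tt t'.1 - 1 * 1) ≤ WithZero.exp (-((1 : ℕ) : ℤ)) := h
      rw [zero_mul, one_mul, zero_sub, Valuation.map_neg, map_one] at h1
      exact hnot h1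
    · exfalso
      have h1 : v.valuation kk ((1 : kk) * 1 - tt t.1 * 0) ≤ WithZero.exp (-((1 : ℕ) : ℤ)) := h
      rw [mul_zero, one_mul, sub_zero, map_one] at h1
      exact hnot h1
    · have h1 : v.valuation kk ((1 : kk) * tt t'.1 - tt t.1 * 1) ≤ WithZero.exp (-((1 : ℕ) : ℤ)) := h
      rw [one_mul, mul_one] at h1
      congr 1
      exact Subtype.ext (RnB_out_eq v (RnB_lt' h1)).symm
  · intro x hx
    rw [RnB_mem] at hx
    obtain ⟨z, hz, hu⟩ := hx
    set u := algebraMap kk KK z * (x : KK) with hudef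
    have him1 : v.valuation kk u.im ≤ 1 := by simpa using hu.2.1
    have hE' : ∀ o, v.valuation kk
        (((g o : KKˣ) : KK).re * u.im - ((g o : KKˣ) : KK).im * u.re)
        ≤ WithZero.exp (-((1 : ℕ) : ℤ)) → (g o)⁻¹ * x ∈ Rn v 1 := fun o =>
      (RnB_E one_ne_zero hz (hgP o) hu (by rw [map_one, one_mul]) hudef).2
    by_cases hre : v.valuation kk u.re = 1
    · have hre0 : u.re ≠ 0 := by
        intro h
        rw [h, map_zero] at hre
        exact zero_ne_one hre
      set y := u.im / u.re with hy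
      have hyv : v.valuation kk y ≤ 1 := by
        rw [hy, map_div₀, hre, div_one]
        exact him1
      obtain ⟨a, ha⟩ := RnB_approx v hyv
      have hout := RnB_out v a
      have hyt : v.valuation kk (y - tt (Ideal.Quotient.mk v.asIdeal a)) < 1 := by
        have : y - tt (Ideal.Quotient.mk v.asIdeal a) =
          (y - a) - (tt (Ideal.Quotient.mk v.asIdeal a) - a) := by ring
        rw [this]
        exact (Valuation.map_sub _ _ _).trans_lt (max_lt ha hout)
      have ht : (Ideal.Quotient.mk v.asIdeal a) ^ 2 - Ideal.Quotient.mk v.asIdeal a + 1 ≠ 0 := by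
        intro h0
        have h1 : a ^ 2 - a + 1 ∈ v.asIdeal := by
          rw [← Ideal.Quotient.eq_zero_iff_mem, map_add, map_sub, map_pow, map_one]
          exact h0
        have h2 := (v.valuation_lt_one_iff_mem (K := kk) _).2 h1
        have h3 : algebraMap (𝓞 kk) kk (a ^ 2 - a + 1) = (a : kk) ^ 2 - a + 1 := by
          rw [map_add, map_sub, map_pow, map_one]
        have h2' : v.valuation kk ((a : kk) ^ 2 - a + 1) < 1 := by
          rw [← h3]
          exact h2
        have h4 : NK u = u.re ^ 2 * (((a : kk) ^ 2 - a + 1) + (y - a) * (y + a - 1)) := by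
          rw [hy]
          simp only [NK]
          field_simp
          ring
        have h5 : v.valuation kk (NK u) < 1 := by
          rw [h4, map_mul, map_pow, hre, one_pow, one_mul]
          refine (Valuation.map_add _ _ _).trans_lt (max_lt h2' ?_)
          rw [map_mul]
          refine mul_lt_one_of_lt_of_le ha ?_
          refine (Valuation.map_sub _ _ _).trans (max_le ?_ (by rw [map_one]))
          exact (Valuation.map_add _ _ _).trans (max_le hyv (v.valuation_le_one (K := kk) a))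
        rw [hu.2.2] at h5
        exact lt_irrefl _ h5
      refine ⟨some ⟨_, ht⟩, hE' (some ⟨_, ht⟩) ?_⟩
      have h6 : (1 : kk) * u.im - tt (Ideal.Quotient.mk v.asIdeal a) * u.re =
          u.re * (y - tt (Ideal.Quotient.mk v.asIdeal a)) := by
        rw [hy]
        field_simp
      show v.valuation kk ((1 : kk) * u.im - tt (Ideal.Quotient.mk v.asIdeal a) * u.re) ≤ _
      rw [h6, map_mul, hre, one_mul]
      exact RnB_lt hyt
    · refine ⟨none, hE' none ?_⟩
      show v.valuation kk ((0 : kk) * u.im - 1 * u.re) ≤ _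
      rw [zero_mul, one_mul, zero_sub, Valuation.map_neg]
      exact RnB_lt (lt_of_le_of_ne hu.1 hre)

private theorem RnB_roots (v : Pl) (h3 : (3 : 𝓞 kk) ∉ v.asIdeal) :
    (Nat.card (Option {t : 𝓞 kk ⧸ v.asIdeal // t ^ 2 - t + 1 ≠ 0}) : ℤ) =
      (Ideal.absNorm v.asIdeal : ℤ) - (om v : ℤ) := by
  classical
  have hmax : v.asIdeal.IsMaximal := v.isMaximal
  let _ : Field (𝓞 kk ⧸ v.asIdeal) := Ideal.Quotient.field v.asIdeal
  have hfin : Finite (𝓞 kk ⧸ v.asIdeal) := Ring.HasFiniteQuotients.finiteQuotient v.ne_bot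
  let _ : Fintype (𝓞 kk ⧸ v.asIdeal) := Fintype.ofFinite _
  have habs : Ideal.absNorm v.asIdeal = Fintype.card (𝓞 kk ⧸ v.asIdeal) := by
    rw [Ideal.absNorm_apply, Submodule.cardQuot_apply, Nat.card_eq_fintype_card]
  have h3' : (3 : 𝓞 kk ⧸ v.asIdeal) ≠ 0 := by
    intro h
    apply h3
    rw [← Ideal.Quotient.eq_zero_iff_mem, map_ofNat]
    exact h
  have hcardO : (Nat.card (Option {t : 𝓞 kk ⧸ v.asIdeal // t ^ 2 - t + 1 ≠ 0}) : ℤ) =
      (Fintype.card (𝓞 kk ⧸ v.asIdeal) : ℤ) -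
        (Fintype.card {t : 𝓞 kk ⧸ v.asIdeal // t ^ 2 - t + 1 = 0} : ℤ) + 1 := by
    rw [Nat.card_eq_fintype_card, Fintype.card_option,
      Fintype.card_subtype_compl (fun t : 𝓞 kk ⧸ v.asIdeal => t ^ 2 - t + 1 = 0)]
    rw [Nat.cast_add, Nat.cast_sub (Fintype.card_subtype_le _)]
    push_cast
    rfl
  rw [hcardO, ← habs]
  have hpos : 0 < Ideal.absNorm v.asIdeal := by
    rw [habs]
    exact Fintype.card_pos
  have hcu : Fintype.card (𝓞 kk ⧸ v.asIdeal)ˣ = Ideal.absNorm v.asIdeal - 1 := by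
    rw [habs]
    exact Fintype.card_units _
  have _ : Fact (Nat.Prime 3) := ⟨Nat.prime_three⟩
  by_cases hq : Ideal.absNorm v.asIdeal % 3 = 1
  · have hom : om v = 1 := by rw [om, if_pos hq]
    rw [hom]
    have hd : 3 ∣ Fintype.card (𝓞 kk ⧸ v.asIdeal)ˣ := by
      rw [hcu]
      omega
    obtain ⟨g, hg⟩ := exists_prime_orderOf_dvd_card 3 hd
    set ρ : 𝓞 kk ⧸ v.asIdeal := (g : 𝓞 kk ⧸ v.asIdeal) with hρ
    have hroot : ρ ^ 2 + ρ + 1 = 0 := by
      have h1 : g ^ 3 = 1 := by rw [← hg]; exact pow_orderOf_eq_one g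
      have h2 : ρ ^ 3 = 1 := by
        rw [hρ, ← Units.val_pow_eq_pow_val, h1, Units.val_one]
      have h4 : ρ ≠ 1 := by
        intro h
        have : g = 1 := Units.ext h
        rw [this, orderOf_one] at hg
        omega
      have h5 : (ρ - 1) * (ρ ^ 2 + ρ + 1) = 0 := by
        linear_combination h2
      exact (mul_eq_zero.1 h5).resolve_left (sub_ne_zero.2 h4)
    have hne : -ρ ≠ 1 + ρ := by
      intro h
      apply h3'
      linear_combination 4 * hroot + (2 * ρ + 1) * h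
    have hset : Fintype.card {t : 𝓞 kk ⧸ v.asIdeal // t ^ 2 - t + 1 = 0} = 2 := by
      have h6 : ∀ t : 𝓞 kk ⧸ v.asIdeal, t ^ 2 - t + 1 = 0 ↔ t ∈ ({-ρ, 1 + ρ} : Finset _) := by
        intro t
        rw [Finset.mem_insert, Finset.mem_singleton]
        have h7 : t ^ 2 - t + 1 = (t - -ρ) * (t - (1 + ρ)) := by
          linear_combination hroot
        rw [h7, mul_eq_zero, sub_eq_zero, sub_eq_zero]
      rw [Fintype.card_congr (Equiv.subtypeEquivRight h6), Fintype.card_coe,
        Finset.card_pair hne]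
    rw [hset]
    push_cast
    ring
  · have hom : om v = -1 := by rw [om, if_neg hq]
    rw [hom]
    have hset : Fintype.card {t : 𝓞 kk ⧸ v.asIdeal // t ^ 2 - t + 1 = 0} = 0 := by
      rw [Fintype.card_eq_zero_iff]
      refine ⟨fun t => ?_⟩
      obtain ⟨t, ht⟩ := t
      have h1 : (-t) ^ 3 = 1 := by linear_combination (-(t + 1)) * ht
      have h0 : -t ≠ 0 := by
        intro h
        rw [h] at h1
        simp at h1
      have hne1 : -t ≠ 1 := by
        intro h
        apply h3'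
        linear_combination ht + (t - 2) * h
      let u : (𝓞 kk ⧸ v.asIdeal)ˣ := Units.mk0 (-t) h0
      have hu3 : u ^ 3 = 1 := Units.ext (by simpa [u] using h1)
      have hu1 : u ≠ 1 := by
        intro h
        apply hne1
        have := congrArg Units.val h
        simpa [u] using this
      have hord : orderOf u = 3 := orderOf_eq_prime hu3 hu1
      have hdvd : 3 ∣ Fintype.card (𝓞 kk ⧸ v.asIdeal)ˣ := by
        rw [← hord]
        exact orderOf_dvd_card
      rw [hcu] at hdvd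
      omega
    rw [hset]
    push_cast
    ring

theorem Rn_index {v : Pl} (hv : v ∉ SS4) (n : ℕ) :
    (((Rn v (n + 1)).relIndex (Rn v 0) : ℕ) : ℤ) =
      (Ideal.absNorm v.asIdeal : ℤ) ^ n * ((Ideal.absNorm v.asIdeal : ℤ) - (om v : ℤ)) := by
  have h3 : (3 : 𝓞 kk) ∉ v.asIdeal := fun h => hv (three_mem v h).1
  induction n with
  | zero =>
    rw [zero_add, RnB_base, RnB_roots v h3, pow_zero, one_mul]
  | succ n ih =>
    rw [← Subgroup.relIndex_mul_relIndex (Rn v (n + 1 + 1)) (Rn v (n + 1)) (Rn v 0)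
      (Rn_mono v (by omega)) (Rn_mono v (by omega))]
    rw [RnB_step v (n + 1) (by omega), Nat.cast_mul, ih]
    have : (Nat.card (𝓞 kk ⧸ v.asIdeal) : ℤ) = (Ideal.absNorm v.asIdeal : ℤ) := by
      rw [Ideal.absNorm_apply, Submodule.cardQuot_apply]
    rw [this]
    ring

end

end Pool.Agent.Work.MP_14c213_gt
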