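import Pool.Agent.Work.MP_14c213_gt.BDefs

/-!
Abstract: a closed multiplicative set of matrices, normalised by a dense set, containing a unipotent.
For invertible h choose d → h in D: h s h⁻¹ = lim d s d⁻¹ ∈ S. So S contains (1, x; 0, 1) for all x (conjugate
by diag (t, 1)) and the transposes; these generate SL₂(F).
-/

namespace Pool.Agent.Work.MP_14c213_gt

open Matrix IsDedekindDomain
open scoped Matrix NumberField QuadraticAlgebra

noncomputable section

private lemma saa_cont {F : Type*} [Field F] [TopologicalSpace F] [IsTopologicalDivisionRing F]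
    (a h : Matrix (Fin 2) (Fin 2) F) (hh : h.det ≠ 0) :
    ContinuousAt (fun m : Matrix (Fin 2) (Fin 2) F => m * a * m⁻¹) h := by
  have h1 : ContinuousAt (fun m : Matrix (Fin 2) (Fin 2) F => (m.det)⁻¹) h :=
    ContinuousAt.inv₀ (continuous_id.matrix_det).continuousAt hh
  have h2 : ContinuousAt (fun m : Matrix (Fin 2) (Fin 2) F => m⁻¹) h := by
    have h3 : (fun m : Matrix (Fin 2) (Fin 2) F => m⁻¹) = fun m => (m.det)⁻¹ • m.adjugate := by
      funext m
      rw [Matrix.inv_def, Ring.inverse_eq_inv']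
    rw [h3]
    exact h1.smul (Continuous.matrix_adjugate continuous_id).continuousAt
  exact (continuousAt_id.mul continuousAt_const).mul h2

theorem SA_unip {F : Type*} [Field F] [TopologicalSpace F] [IsTopologicalDivisionRing F] [T2Space F]
    (S D : Set (Matrix (Fin 2) (Fin 2) F)) (hS : IsClosed S) (hmul : ∀ a ∈ S, ∀ b ∈ S, a * b ∈ S)
    (hD : Dense D) (hn : ∀ d ∈ D, d.det ≠ 0 → ∀ a ∈ S, d * a * d⁻¹ ∈ S)
    (P : Matrix (Fin 2) (Fin 2) F) (hP : P.det ≠ 0) (c : F) (hc : c ≠ 0)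
    (hu : P * !![1, c; 0, 1] * P⁻¹ ∈ S) (g : Matrix (Fin 2) (Fin 2) F) (hg : g.det = 1) : g ∈ S := by
  have hopen : IsOpen {m : Matrix (Fin 2) (Fin 2) F | m.det ≠ 0} :=
    isOpen_ne_fun continuous_id.matrix_det continuous_const
  have conj : ∀ h : Matrix (Fin 2) (Fin 2) F, h.det ≠ 0 → ∀ a ∈ S, h * a * h⁻¹ ∈ S := by
    intro h hh a ha
    have h1 : h ∈ closure ({m : Matrix (Fin 2) (Fin 2) F | m.det ≠ 0} ∩ D) :=
      hD.open_subset_closure_inter hopen hh
    have h2 : (fun m : Matrix (Fin 2) (Fin 2) F => m * a * m⁻¹) h ∈ closure S := by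
      refine closure_mono ?_ (ContinuousAt.continuousWithinAt (saa_cont a h hh)
        |>.mem_closure_image h1)
      rintro _ ⟨m, ⟨hm1, hm2⟩, rfl⟩
      exact hn m hm2 hm1 a ha
    rwa [hS.closure_eq] at h2
  have hPu : IsUnit P.det := isUnit_iff_ne_zero.mpr hP
  have h1 : (!![1, c; 0, 1] : Matrix (Fin 2) (Fin 2) F) ∈ S := by
    have hdet : P⁻¹.det ≠ 0 := by
      rw [Matrix.det_nonsing_inv, Ring.inverse_eq_inv']
      exact inv_ne_zero hP
    have h2 := conj P⁻¹ hdet _ hu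
    rw [Matrix.nonsing_inv_nonsing_inv _ hPu] at h2
    have h3 : P⁻¹ * (P * !![1, c; 0, 1] * P⁻¹) * P = !![1, c; 0, 1] := by
      calc P⁻¹ * (P * !![1, c; 0, 1] * P⁻¹) * P = (P⁻¹ * P) * !![1, c; 0, 1] * (P⁻¹ * P) := by
            simp only [Matrix.mul_assoc]
        _ = _ := by rw [Matrix.nonsing_inv_mul _ hPu, Matrix.one_mul, Matrix.mul_one]
    rwa [h3] at h2
  have hU0 : ∀ x : F, x ≠ 0 → (!![1, x; 0, 1] : Matrix (Fin 2) (Fin 2) F) ∈ S := by
    intro x hx
    have hd : (!![x / c, 0; 0, 1] : Matrix (Fin 2) (Fin 2) F).det = x / c := by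
      rw [Matrix.det_fin_two_of]; ring
    have hxc : x / c ≠ 0 := div_ne_zero hx hc
    have h2 := conj !![x / c, 0; 0, 1] (by rw [hd]; exact hxc) _ h1
    have h3 : (!![x / c, 0; 0, 1] : Matrix (Fin 2) (Fin 2) F) * !![1, c; 0, 1] * !![x / c, 0; 0, 1]⁻¹ =
        !![1, x; 0, 1] := by
      have h4 : (!![x / c, 0; 0, 1] : Matrix (Fin 2) (Fin 2) F) * !![1, c; 0, 1] =
          !![1, x; 0, 1] * !![x / c, 0; 0, 1] := by
        rw [Matrix.mul_fin_two, Matrix.mul_fin_two]
        ext i j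
        fin_cases i <;> fin_cases j <;> simp [div_mul_cancel₀ x hc]
      rw [h4, Matrix.mul_assoc, Matrix.mul_nonsing_inv, Matrix.mul_one]
      rw [hd]
      exact isUnit_iff_ne_zero.mpr hxc
    rwa [h3] at h2
  have hU : ∀ x : F, (!![1, x; 0, 1] : Matrix (Fin 2) (Fin 2) F) ∈ S := by
    intro x
    by_cases hx : x = 0
    · subst hx
      have h2 := hmul _ (hU0 c hc) _ (hU0 (-c) (neg_ne_zero.mpr hc))
      have h3 : (!![1, c; 0, 1] : Matrix (Fin 2) (Fin 2) F) * !![1, -c; 0, 1] = !![1, 0; 0, 1] := by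
        rw [Matrix.mul_fin_two]
        ext i j
        fin_cases i <;> fin_cases j <;> simp
      rwa [h3] at h2
    · exact hU0 x hx
  have hL : ∀ x : F, (!![1, 0; x, 1] : Matrix (Fin 2) (Fin 2) F) ∈ S := by
    intro x
    have hd : (!![0, 1; 1, 0] : Matrix (Fin 2) (Fin 2) F).det = -1 := by
      rw [Matrix.det_fin_two_of]; ring
    have h2 := conj !![0, 1; 1, 0] (by rw [hd]; exact neg_ne_zero.mpr one_ne_zero) _ (hU x)
    have h3 : (!![0, 1; 1, 0] : Matrix (Fin 2) (Fin 2) F) * !![1, x; 0, 1] * !![0, 1; 1, 0]⁻¹ =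
        !![1, 0; x, 1] := by
      have h4 : (!![0, 1; 1, 0] : Matrix (Fin 2) (Fin 2) F) * !![1, x; 0, 1] =
          !![1, 0; x, 1] * !![0, 1; 1, 0] := by
        rw [Matrix.mul_fin_two, Matrix.mul_fin_two]
        ext i j
        fin_cases i <;> fin_cases j <;> simp
      rw [h4, Matrix.mul_assoc, Matrix.mul_nonsing_inv, Matrix.mul_one]
      rw [hd]
      exact isUnit_iff_ne_zero.mpr (neg_ne_zero.mpr one_ne_zero)
    rwa [h3] at h2
  have key : ∀ a b e d : F, e ≠ 0 → a * d - b * e = 1 →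
      (!![a, b; e, d] : Matrix (Fin 2) (Fin 2) F) ∈ S := by
    intro a b e d he hdet
    have h2 := hmul _ (hmul _ (hU ((a - 1) / e)) _ (hL e)) _ (hU ((d - 1) / e))
    have h3 : (!![1, (a - 1) / e; 0, 1] : Matrix (Fin 2) (Fin 2) F) * !![1, 0; e, 1] *
        !![1, (d - 1) / e; 0, 1] = !![a, b; e, d] := by
      rw [Matrix.mul_fin_two, Matrix.mul_fin_two]
      ext i j
      fin_cases i <;> fin_cases j <;> simp <;> field_simp
      · ring
      · linear_combination hdet
      · ring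
    rwa [h3] at h2
  obtain ⟨a, b, e, d, rfl⟩ : ∃ a b e d, g = !![a, b; e, d] := ⟨_, _, _, _, Matrix.eta_fin_two g⟩
  rw [Matrix.det_fin_two_of] at hg
  by_cases he : e = 0
  · subst he
    have hd : d ≠ 0 := by
      rintro rfl
      simp at hg
    have h2 := hmul _ (key (a + b) b d d hd (by linear_combination hg)) _ (hL (-1))
    have h3 : (!![a + b, b; d, d] : Matrix (Fin 2) (Fin 2) F) * !![1, 0; -1, 1] = !![a, b; 0, d] := by
      rw [Matrix.mul_fin_two]
      ext i j
      fin_cases i <;> fin_cases j <;> simp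
    rwa [h3] at h2
  · exact key a b e d he hg

end

end Pool.Agent.Work.MP_14c213_gt
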