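import Pool.Agent.Work.MP_14c213_gt.B.LocPhi
import Pool.Agent.Work.MP_14c213_gt.B.PowB

/-!
The congruence sets UN v N and the intersection Sv of the closures of their images. Normalised: for d in A^×
take M with M d, M d⁻¹ integral at all w (denom); d UN(N M²) d⁻¹ ⊆ UN(N).
-/

namespace Pool.Agent.Work.MP_14c213_gt

open Matrix IsDedekindDomain
open scoped Matrix NumberField QuadraticAlgebra

noncomputable section

/-- Norm one elements which are `1` modulo `N` at all places outside `SS4` and `v`. -/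
def UN (v : Pl) (N : ℕ) : Set AAˣ :=
  {γ | nrd (γ : AA) = 1 ∧ ∀ w, w ∉ SS4 → w ≠ v → ∃ h ∈ OO w, (γ : AA) = 1 + (N : kk) • h}

/-- The intersection of the closures. -/
def Sv (v : Pl) (φ : AA →+* Matrix (Fin 2) (Fin 2) (Kv v)) : Set (Matrix (Fin 2) (Fin 2) (Kv v)) :=
  {a | ∀ N : ℕ, 0 < N → a ∈ closure ((fun γ : AAˣ => φ (γ : AA)) '' UN v N)}

theorem Sv_closed (v : Pl) (φ : AA →+* Matrix (Fin 2) (Fin 2) (Kv v)) : IsClosed (Sv v φ) := by
  have h1 : Sv v φ = ⋂ N : ℕ, ⋂ _ : 0 < N, closure ((fun γ : AAˣ => φ (γ : AA)) '' UN v N) := by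
    ext a
    simp [Sv]
  rw [h1]
  exact isClosed_iInter fun N => isClosed_iInter fun _ => isClosed_closure

/-- The order is stable under natural numbers. -/
private lemma sab_nat (w : Pl) (N : ℕ) {h : AA} (hh : h ∈ OO w) : (N : kk) • h ∈ OO w := by
  have h1 : (N : kk) • h = (N : AA) * h := by
    rw [Algebra.smul_def]
    simp
  rw [h1]
  exact (OO w).mul_mem (natCast_mem (OO w) N) hh

private lemma sab_mul {v : Pl} {N : ℕ} {γ δ : AAˣ} (hγ : γ ∈ UN v N) (hδ : δ ∈ UN v N) :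
    γ * δ ∈ UN v N := by
  refine ⟨by rw [Units.val_mul, nrd_mul, hγ.1, hδ.1, one_mul], fun w hw hwv => ?_⟩
  obtain ⟨h, hh, e1⟩ := hγ.2 w hw hwv
  obtain ⟨h', hh', e2⟩ := hδ.2 w hw hwv
  refine ⟨h + h' + (N : kk) • (h * h'), (OO w).add_mem ((OO w).add_mem hh hh')
    (sab_nat w N ((OO w).mul_mem hh hh')), ?_⟩
  rw [Units.val_mul, e1, e2, add_mul, mul_add, mul_add, one_mul, mul_one, one_mul, smul_mul_smul_comm,
    smul_add, smul_add, smul_smul]
  abel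

theorem Sv_mul (v : Pl) (φ : AA →+* Matrix (Fin 2) (Fin 2) (Kv v)) :
    ∀ a ∈ Sv v φ, ∀ b ∈ Sv v φ, a * b ∈ Sv v φ := by
  intro a ha b hb N hN
  refine map_mem_closure₂ continuous_mul (ha N hN) (hb N hN) ?_
  rintro _ ⟨γ, hγ, rfl⟩ _ ⟨δ, hδ, rfl⟩
  exact ⟨γ * δ, sab_mul hγ hδ, by simp⟩

theorem Sv_conj (v : Pl) (φ : AA →+* Matrix (Fin 2) (Fin 2) (Kv v)) (d : AAˣ) :
    ∀ a ∈ Sv v φ, φ (d : AA) * a * φ ((d⁻¹ : AAˣ) : AA) ∈ Sv v φ := by
  intro a ha N hN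
  obtain ⟨M₁, hM₁, h1⟩ := denom (d : AA)
  obtain ⟨M₂, hM₂, h2⟩ := denom ((d⁻¹ : AAˣ) : AA)
  have h3 := ha (N * (M₁ * M₂)) (Nat.mul_pos hN (Nat.mul_pos hM₁ hM₂))
  refine map_mem_closure (f := fun x => φ (d : AA) * x * φ ((d⁻¹ : AAˣ) : AA))
    ((continuous_const.mul continuous_id).mul continuous_const) h3 ?_
  rintro _ ⟨γ, hγ, rfl⟩
  refine ⟨d * γ * d⁻¹, ⟨?_, fun w hw hwv => ?_⟩, by simp⟩
  · have h4 := nrd_mul (d : AA) ((d⁻¹ : AAˣ) : AA)
    rw [Units.mul_inv, nrd_one] at h4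
    rw [Units.val_mul, Units.val_mul, nrd_mul, nrd_mul, hγ.1, mul_one, ← h4]
  · obtain ⟨h, hh, e⟩ := hγ.2 w hw hwv
    refine ⟨((M₁ : kk) • (d : AA)) * h * ((M₂ : kk) • ((d⁻¹ : AAˣ) : AA)),
      (OO w).mul_mem ((OO w).mul_mem (h1 w) hh) (h2 w), ?_⟩
    rw [Units.val_mul, Units.val_mul, e, mul_add, add_mul, mul_one, Units.mul_inv]
    congr 1
    push_cast
    rw [smul_mul_assoc, smul_mul_smul_comm, smul_smul, mul_smul_comm, smul_mul_assoc]

private lemma sab_cj {w : Pl} {g : AA} (hg : g ∈ OO w) : cj g ∈ OO w := by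
  obtain ⟨h1, h2, h3, h4⟩ := hg
  have e1 : (cj g).re = g.re - g.imI := by
    simp [cj, mkA, xp, sub_eq_add_neg]
  have e2 : (cj g).imI = -g.imI := by simp [cj, mkA, xp]
  have e3 : (cj g).imJ = -g.imJ := rfl
  have e4 : (cj g).imK = -g.imK := rfl
  refine ⟨?_, ?_, ?_, ?_⟩
  · rw [e1]; exact (w.valuation kk).map_sub_le h1 h2
  · rw [e2, Valuation.map_neg]; exact h2
  · rw [e3, Valuation.map_neg]; exact h3
  · rw [e4, Valuation.map_neg]; exact h4

/-- Elements of `UN v 1` are in the local groups away from `v`. -/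
theorem UN_UU (v : Pl) {γ : AAˣ} (h : γ ∈ UN v 1) : ∀ w, w ≠ v → γ ∈ UU w := by
  intro w hw
  by_cases hS : w ∈ SS4
  · rw [UU, if_pos hS]
    show Even (ord w (nrd (γ : AA)))
    rw [h.1, ord_one]
    exact Even.zero
  · rw [UU, if_neg hS]
    obtain ⟨h', hh, e⟩ := h.2 w hS hw
    have h1 : (γ : AA) ∈ OO w := by
      rw [e]
      exact (OO w).add_mem (OO w).one_mem (sab_nat w 1 hh)
    have h2 : ((γ⁻¹ : AAˣ) : AA) = cj (γ : AA) := by
      apply Units.inv_eq_of_mul_eq_one_right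
      rw [(mul_cj (γ : AA)).1, h.1, map_one]
    have h3 : cj (γ : AA) ∈ OO w := sab_cj h1
    exact ⟨1, one_ne_zero, by simpa using h1, by rw [h2]; simpa using h3⟩

end

end Pool.Agent.Work.MP_14c213_gt
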