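import Pool.Agent.Work.MP_14c213_gt.B.EucB
import Pool.Agent.Work.MP_14c213_gt.B.PowB
import Pool.Agent.Work.MP_14c213_gt.B.CenB

/-!
A unit of infinite order not commuting with a. Take g₀ = inK (ε²) (NK ε = -1): some power of ε² is 1 modulo
3N OK (finite ring), so g₀^m = 1 + N h with h ∈ OO w for all w ∉ SS4 (OK_coord). If a ∉ inK(K) take g = g₀
(ε^(2m) is not in k). If a ∈ K (not scalar) take g = t g₀ t⁻¹ with t = 1 + j (denom for t, t⁻¹).
-/

namespace Pool.Agent.Work.MP_14c213_gt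

open Matrix IsDedekindDomain
open scoped Matrix NumberField QuadraticAlgebra

noncomputable section

private theorem unc_eps_pow (n : ℕ) :
    eps ^ (n + 1) = (Nat.fib n : KK) + (Nat.fib (n + 1) : KK) * eps := by
  induction n with
  | zero => simp
  | succ n ih =>
    have h1 : eps ^ (n + 1 + 1) = (eps ^ (n + 1)) * eps := pow_succ _ _
    have h2 : ((Nat.fib (n + 1 + 1) : ℕ) : KK) = (Nat.fib n : KK) + (Nat.fib (n + 1) : KK) := by
      rw [Nat.fib_add_two]; push_cast; rfl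
    rw [h1, ih, h2]
    linear_combination (Nat.fib (n + 1) : KK) * eps_sq

/-- the period of the Fibonacci numbers -/
private theorem unc_fib (N : ℕ) (hN : 0 < N) : ∃ m : ℕ, 0 < m ∧ (N : ℤ) ∣ Nat.fib m ∧
    (N : ℤ) ∣ Nat.fib (m + 1) - 1 := by
  have : NeZero N := ⟨hN.ne'⟩
  let T : Equiv.Perm (ZMod N × ZMod N) :=
    { toFun := fun p => (p.2, p.1 + p.2)
      invFun := fun p => (p.2 - p.1, p.1)
      left_inv := fun p => by simp
      right_inv := fun p => by simp }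
  have hT : ∀ n : ℕ, (T ^ n) (0, 1) = ((Nat.fib n : ZMod N), (Nat.fib (n + 1) : ZMod N)) := by
    intro n
    induction n with
    | zero => simp
    | succ n ih =>
      rw [pow_succ', Equiv.Perm.mul_apply, ih]
      have : T ((Nat.fib n : ZMod N), (Nat.fib (n + 1) : ZMod N)) =
        ((Nat.fib (n + 1) : ZMod N), (Nat.fib n : ZMod N) + (Nat.fib (n + 1) : ZMod N)) := rfl
      rw [this, Nat.fib_add_two]
      push_cast
      rfl
  obtain ⟨m, hm, hTm⟩ := isOfFinOrder_iff_pow_eq_one.mp (isOfFinOrder_of_finite T)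
  refine ⟨m, hm, ?_⟩
  have h := hT m
  rw [hTm, Equiv.Perm.one_apply, Prod.ext_iff] at h
  obtain ⟨h1, h2⟩ := h
  constructor
  · rw [← ZMod.intCast_zmod_eq_zero_iff_dvd]
    simpa using h1.symm
  · rw [← ZMod.intCast_zmod_eq_zero_iff_dvd]
    push_cast
    simp only at h2
    rw [← h2, sub_self]

/-- `ε^(2m) = 1 + N x` with `x ∈ OK`. -/
private theorem unc_eps_cong (N : ℕ) (hN : 0 < N) : ∃ m : ℕ, 0 < m ∧ ∃ x ∈ OK,
    (eps ^ 2) ^ m = 1 + (N : KK) * x := by
  obtain ⟨m, hm, h1, h2⟩ := unc_fib N hN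
  have h3 : ∀ j : ℕ, ∃ x ∈ OK, (eps ^ m) ^ j = 1 + (N : KK) * x := by
    obtain ⟨n, rfl⟩ : ∃ n, m = n + 1 := ⟨m - 1, by omega⟩
    obtain ⟨b, hb⟩ := h1
    obtain ⟨c, hc⟩ := h2
    have h4 : (Nat.fib n : ℤ) = 1 + N * (c - b) := by
      have : (Nat.fib (n + 1 + 1) : ℤ) = Nat.fib n + Nat.fib (n + 1) := by
        rw [Nat.fib_add_two]; push_cast; rfl
      rw [this] at hc
      linear_combination hc - hb
    have h5 : eps ^ (n + 1) = 1 + (N : KK) * (((c - b : ℤ) : KK) + ((b : ℤ) : KK) * eps) := by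
      rw [unc_eps_pow]
      have e1 : ((Nat.fib n : ℕ) : KK) = ((Nat.fib n : ℤ) : KK) := by simp
      have e2 : ((Nat.fib (n + 1) : ℕ) : KK) = ((Nat.fib (n + 1) : ℤ) : KK) := by simp
      rw [e1, e2, h4, hb]
      push_cast
      ring
    have hx : ((c - b : ℤ) : KK) + ((b : ℤ) : KK) * eps ∈ OK := by
      refine ⟨c - b, 0, b, 0, ?_⟩
      simp
    intro j
    induction j with
    | zero => exact ⟨0, OK.zero_mem, by simp⟩
    | succ j ih =>
      obtain ⟨x, hx1, hx2⟩ := ih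
      refine ⟨x + (((c - b : ℤ) : KK) + ((b : ℤ) : KK) * eps) + (N : KK) * (x * (((c - b : ℤ) : KK) + ((b : ℤ) : KK) * eps)), ?_, ?_⟩
      · refine OK.add_mem (OK.add_mem hx1 hx) (OK.mul_mem ?_ (OK.mul_mem hx1 hx))
        exact natCast_mem OK N
      · rw [pow_succ, hx2, h5]
        ring
  obtain ⟨x, hx1, hx2⟩ := h3 2
  refine ⟨m, hm, x, hx1, ?_⟩
  rw [← hx2, ← pow_mul, ← pow_mul, mul_comm]

private theorem unc_eps_ne : eps ≠ 0 := by
  intro h
  have := NK_eps
  rw [h] at this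
  simp [NK] at this

/-- `ε²` as a unit -/
private def unc_e : KKˣ := Units.mk0 (eps ^ 2) (pow_ne_zero 2 unc_eps_ne)

private theorem unc_coe_pow (m : ℕ) : (((inKu unc_e) ^ m : AAˣ) : AA) = inK ((eps ^ 2) ^ m) := by
  rw [← map_pow]
  show inK ((unc_e ^ m : KKˣ) : KK) = _
  rw [Units.val_pow_eq_pow_val]
  rfl

private theorem unc_im (m : ℕ) (hm : 0 < m) : ((eps ^ 2) ^ m).im ≠ 0 := by
  obtain ⟨n, hn⟩ : ∃ n, 2 * m = n + 1 := ⟨2 * m - 1, by omega⟩
  rw [← pow_mul, hn, unc_eps_pow]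
  have h1 : ((Nat.fib n : KK) + (Nat.fib (n + 1) : KK) * eps).im = (Nat.fib (n + 1) : kk) * eps.im := by
    simp
  rw [h1]
  have h2 : 0 < Nat.fib (n + 1) := Nat.fib_pos.mpr (by omega)
  refine mul_ne_zero (by exact_mod_cast h2.ne') ?_
  intro h
  have := congrArg QuadraticAlgebra.re h
  simp [eps] at this

/-- `ε^(2m)` commutes only with elements of `K`. -/
private theorem unc_comm (m : ℕ) (hm : 0 < m) (g : AA)
    (h : inK ((eps ^ 2) ^ m) * g = g * inK ((eps ^ 2) ^ m)) : yp g = 0 := by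
  have h1 := congrArg yp h
  rw [yp_mul, yp_mul] at h1
  set x := (eps ^ 2) ^ m with hx
  have e1 : xp (inK x) = x := rfl
  have e2 : yp (inK x) = 0 := rfl
  rw [e1, e2, zero_mul, add_zero, mul_zero, zero_add] at h1
  have h2 : (x - star x) * yp g = 0 := by
    rw [sub_mul, h1]; ring
  rcases mul_eq_zero.mp h2 with h3 | h3
  · exfalso
    rw [star_KK] at h3
    have h4 := congrArg QuadraticAlgebra.im h3
    simp only [QuadraticAlgebra.im_sub, QuadraticAlgebra.im_zero, sub_neg_eq_add] at h4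
    have h5 : x.im = 0 := by linear_combination (1 / 2 : kk) * h4
    exact unc_im m hm h5
  · exact h3

private theorem unc_mem_OO {x : KK} (hx : x ∈ OK) {w : Pl} (hw : w ∉ SS4) : inK x ∈ OO w := by
  obtain ⟨h1, h2⟩ := OK_coord hx hw
  refine ⟨h1, h2, ?_, ?_⟩
  · show w.valuation kk 0 ≤ 1
    simp
  · show w.valuation kk 0 ≤ 1
    simp

private theorem unc_cong (N : ℕ) (x : KK) : inK (1 + (N : KK) * x) = 1 + (N : kk) • inK x := by
  rw [inK_add, inK_one]
  congr 1
  apply QuaternionAlgebra.ext <;> simp [inK, mkA]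

private theorem unc_t_nrd : nrd (mkA 1 1) ≠ 0 := by
  intro h
  have h1 : nrd (mkA 1 1) = 1 - bq := by
    simp [nrd, NK, xp, yp, mkA]
  rw [h1] at h
  have := congrArg QuadraticAlgebra.im h
  simp [bq] at this

/-- `t = 1 + j` as a unit -/
private def unc_t : AAˣ where
  val := mkA 1 1
  inv := (nrd (mkA 1 1))⁻¹ • cj (mkA 1 1)
  val_inv := by
    rw [mul_smul_comm, (mul_cj (mkA 1 1)).1, Algebra.smul_def, ← map_mul,
      inv_mul_cancel₀ unc_t_nrd, map_one]
  inv_val := by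
    rw [smul_mul_assoc, (mul_cj (mkA 1 1)).2, Algebra.smul_def, ← map_mul,
      inv_mul_cancel₀ unc_t_nrd, map_one]

private theorem unc_t_OO (w : Pl) : (unc_t : AA) ∈ OO w := by
  show mkA 1 1 ∈ OO w
  refine ⟨?_, ?_, ?_, ?_⟩ <;> simp [mkA]

private theorem unc_yp_smul (c : kk) (g : AA) : yp (c • g) = algebraMap kk KK c * yp g := by
  apply QuadraticAlgebra.ext <;> simp [yp]

private theorem unc_mon (t s G a : AA) (hst : s * t = 1)
    (h : t * G * s * a = a * (t * G * s)) : G * (s * a * t) = (s * a * t) * G := by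
  have h1 : G * (s * a * t) = (s * t) * G * (s * a * t) := by rw [hst, one_mul]
  have h2 : (s * t) * G * (s * a * t) = s * (t * G * s * a) * t := by simp only [mul_assoc]
  have h3 : s * (a * (t * G * s)) * t = (s * a * t) * G * (s * t) := by simp only [mul_assoc]
  rw [h1, h2, h, h3, hst, mul_one]

private theorem unc_conj_yp {x : KK} (hx : x.im ≠ 0) :
    yp (((unc_t⁻¹ : AAˣ) : AA) * inK x * (unc_t : AA)) ≠ 0 := by
  have e1 : ((unc_t⁻¹ : AAˣ) : AA) = (nrd (mkA 1 1))⁻¹ • cj (mkA 1 1) := rfl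
  have e2 : (unc_t : AA) = mkA 1 1 := rfl
  rw [e1, e2, smul_mul_assoc, smul_mul_assoc, mul_assoc]
  have e3 : inK x * mkA 1 1 = mkA x x := by
    rw [inK, mkA_mul]
    simp
  have e4 : cj (mkA 1 1) = mkA 1 (-1) := by
    have h1 : xp (mkA 1 1) = 1 := rfl
    have h2 : yp (mkA 1 1) = 1 := rfl
    rw [cj, h1, h2, star_one]
  have e5 : yp (mkA 1 (-1) * mkA x x) = x - star x := by
    rw [yp_mul]
    have h1 : xp (mkA 1 (-1)) = 1 := rfl
    have h2 : yp (mkA 1 (-1)) = -1 := rfl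
    have h3 : xp (mkA x x) = x := rfl
    have h4 : yp (mkA x x) = x := rfl
    rw [h1, h2, h3, h4]
    ring
  rw [e3, e4]
  intro h
  rw [unc_yp_smul, e5] at h
  rcases mul_eq_zero.mp h with h7 | h7
  · have h8 := congrArg QuadraticAlgebra.re h7
    simp only [QuadraticAlgebra.algebraMap_re, QuadraticAlgebra.re_zero, inv_eq_zero] at h8
    exact unc_t_nrd h8
  · rw [star_KK] at h7
    have h8 := congrArg QuadraticAlgebra.im h7
    simp only [QuadraticAlgebra.im_sub, QuadraticAlgebra.im_zero, sub_neg_eq_add] at h8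
    exact hx (by linear_combination (1 / 2 : kk) * h8)

private theorem unc_conj_coe (t u : AAˣ) (m : ℕ) : (((t * u * t⁻¹) ^ m : AAˣ) : AA) =
    (t : AA) * ((u ^ m : AAˣ) : AA) * ((t⁻¹ : AAˣ) : AA) := by
  rw [Units.val_pow_eq_pow_val, Units.val_mul, Units.val_mul, Units.conj_pow,
    Units.val_pow_eq_pow_val]

theorem unit_nc (a : AAˣ) (ha : a ∉ ZZ) : ∃ g : AAˣ, nrd (g : AA) = 1 ∧
    (∀ m : ℕ, 0 < m → g ^ m * a ≠ a * g ^ m) ∧
    ∀ N : ℕ, 0 < N → ∃ m : ℕ, 0 < m ∧ ∀ w, w ∉ SS4 → ∃ h ∈ OO w,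
      ((g ^ m : AAˣ) : AA) = 1 + (N : kk) • h := by
  have hn0 : nrd ((inKu unc_e : AAˣ) : AA) = 1 := by
    show nrd (inK (eps ^ 2)) = 1
    rw [nrd_inK, pow_two, NK_mul, NK_eps]
    norm_num
  by_cases hy : yp (a : AA) = 0
  · -- `a ∈ K`
    have hax : (a : AA) = inK (xp (a : AA)) := by
      rw [← mkA_eta (a : AA), hy]
      rfl
    set x := xp (a : AA) with hx
    have him : x.im ≠ 0 := by
      intro h0
      apply ha
      rw [mem_ZZ]
      refine ⟨x.re, ?_, ?_⟩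
      · intro h1
        have h2 : x = 0 := QuadraticAlgebra.ext h1 h0
        have h3 : (a : AA) = 0 := by
          rw [hax, h2]
          rfl
        exact a.ne_zero h3
      · rw [hax]
        apply QuaternionAlgebra.ext <;> simp [inK, mkA, h0]
    refine ⟨unc_t * inKu unc_e * unc_t⁻¹, ?_, ?_, ?_⟩
    · rw [Units.val_mul, Units.val_mul, nrd_mul, nrd_mul, hn0, mul_one, ← nrd_mul, Units.mul_inv,
        nrd_one]
    · intro m hm h
      have h2 := congrArg (fun u : AAˣ => (u : AA)) h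
      beta_reduce at h2
      rw [Units.val_mul, Units.val_mul, unc_conj_coe, unc_coe_pow] at h2
      have h3 := unc_mon (unc_t : AA) ((unc_t⁻¹ : AAˣ) : AA) (inK ((eps ^ 2) ^ m)) (a : AA)
        (Units.inv_mul _) h2
      apply unc_conj_yp him
      rw [← hax]
      exact unc_comm m hm _ h3
    · intro N hN
      obtain ⟨M, hM, hMw⟩ := denom (((unc_t⁻¹ : AAˣ) : AA))
      obtain ⟨m, hm, y, hy2, hym⟩ := unc_eps_cong (N * M) (Nat.mul_pos hN hM)
      refine ⟨m, hm, fun w hw => ⟨(unc_t : AA) * inK y * ((M : kk) • ((unc_t⁻¹ : AAˣ) : AA)), ?_, ?_⟩⟩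
      · exact (OO w).mul_mem ((OO w).mul_mem (unc_t_OO w) (unc_mem_OO hy2 hw)) (hMw w)
      · rw [unc_conj_coe, unc_coe_pow, hym, unc_cong, mul_add, add_mul, mul_one, Units.mul_inv]
        congr 1
        rw [mul_smul_comm, smul_mul_assoc, mul_smul_comm, smul_smul]
        push_cast
        rfl
  · refine ⟨inKu unc_e, hn0, ?_, ?_⟩
    · intro m hm h
      apply hy
      apply unc_comm m hm
      have h1 := congrArg (fun u : AAˣ => (u : AA)) h
      simp only [Units.val_mul, unc_coe_pow] at h1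
      exact h1
    · intro N hN
      obtain ⟨m, hm, x, hx, hxm⟩ := unc_eps_cong N hN
      refine ⟨m, hm, fun w hw => ⟨inK x, unc_mem_OO hx hw, ?_⟩⟩
      rw [unc_coe_pow, hxm, unc_cong]

end

end Pool.Agent.Work.MP_14c213_gt
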