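import Pool.Agent.Work.MP_14c213_gt.B.SAb
import Pool.Agent.Work.MP_14c213_gt.B.EigV
import Pool.Agent.Work.MP_14c213_gt.B.HypB
import Pool.Agent.Work.MP_14c213_gt.B.UnitNC

/-!
A unipotent in Sv. a from hyp_elt, φ a = P diag(λ, λ⁻¹) P⁻¹ (eigV); g from unit_nc (a is not scalar: trd).
For N = k! take m_k from unit_nc: B_k = P⁻¹ φ(g^{m_k}) P → 1. g^m = x_m + y_m g with y_m ≠ 0, so the off
diagonal entries of B_k are y q₁, y r₁ where (q₁, r₁) ≠ 0 are those of P⁻¹ φ(g) P. If q₁ ≠ 0: conjugate by a^n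
with n = n_k ≥ 0 such that 1 ≤ |λ^{2n} q_k| < |λ|²: entries (p, λ^{2n} q; λ^{-2n} r, s), subsequence convergent to
(1, c; 0, 1), 1 ≤ |c| (Kv_ball). a^n g^{m_k} a^{-n} ∈ UN v N since a, a⁻¹ ∈ OO w for w ≠ v, w ∉ SS4; for k ≥ N
all of them lie in UN v N. If q₁ = 0 use a⁻¹ (swap: conjugate by (0,1;1,0)).
-/

namespace Pool.Agent.Work.MP_14c213_gt

open Matrix IsDedekindDomain
open scoped Matrix NumberField QuadraticAlgebra

noncomputable section

private lemma sac_n (L q : WithZero (Multiplicative ℤ)) (hL : 1 < L) (hq : q ≠ 0) (hq1 : q < 1) :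
    ∃ n : ℕ, 1 ≤ L ^ n * q ∧ L ^ n * q ≤ L := by
  classical
  have hL0 : L ≠ 0 := (lt_trans zero_lt_one hL).ne'
  have hex : ∃ n : ℕ, 1 ≤ L ^ n * q := by
    refine ⟨(-WithZero.log q).toNat, ?_⟩
    have h1 : WithZero.exp (1 : ℤ) ≤ L := by
      rw [← WithZero.exp_log hL0, WithZero.exp_le_exp]
      have := (WithZero.log_lt_log (one_ne_zero) hL0).2 hL
      rw [WithZero.log_one] at this
      omega
    have h3 := Int.self_le_toNat (-WithZero.log q)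
    calc (1 : WithZero (Multiplicative ℤ)) = WithZero.exp 0 := WithZero.exp_zero.symm
      _ ≤ WithZero.exp (((-WithZero.log q).toNat : ℤ) + WithZero.log q) := by
          rw [WithZero.exp_le_exp]; omega
      _ = WithZero.exp (1 : ℤ) ^ (-WithZero.log q).toNat * WithZero.exp (WithZero.log q) := by
          rw [WithZero.exp_add, ← WithZero.exp_nsmul]
          simp
      _ ≤ L ^ (-WithZero.log q).toNat * q := by
          rw [WithZero.exp_log hq]
          exact mul_le_mul_left (pow_le_pow_left' h1 _) _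
  refine ⟨Nat.find hex, Nat.find_spec hex, ?_⟩
  have hn0 : Nat.find hex ≠ 0 := by
    intro h
    have := Nat.find_spec hex
    rw [h, pow_zero, one_mul] at this
    exact absurd hq1 (not_lt.2 this)
  obtain ⟨m, hm⟩ := Nat.exists_eq_succ_of_ne_zero hn0
  have h1 : ¬ 1 ≤ L ^ m * q := Nat.find_min hex (by omega)
  rw [hm, Nat.succ_eq_add_one, pow_succ', mul_assoc]
  calc L * (L ^ m * q) ≤ L * 1 := mul_le_mul_right (not_le.1 h1).le _
    _ = L := mul_one L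

/-- conjugation by a diagonal matrix -/
private lemma sac_conj {F : Type*} [Field F] (l : F) (hl : l ≠ 0) (n : ℕ)
    (B : Matrix (Fin 2) (Fin 2) F) :
    !![l ^ n, 0; 0, (l ^ n)⁻¹] * B * !![(l ^ n)⁻¹, 0; 0, l ^ n] =
      !![B 0 0, l ^ n * l ^ n * B 0 1; (l ^ n * l ^ n)⁻¹ * B 1 0, B 1 1] := by
  have h0 : l ^ n ≠ 0 := pow_ne_zero n hl
  rw [Matrix.eta_fin_two B, Matrix.mul_fin_two, Matrix.mul_fin_two]
  ext i j
  fin_cases i <;> fin_cases j <;> simp <;> field_simp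

private lemma sac_pow {F : Type*} [Field F] {P A : Matrix (Fin 2) (Fin 2) F} {l : F}
    (hP : P.det ≠ 0) (hA : A = P * !![l, 0; 0, l⁻¹] * P⁻¹) (n : ℕ) :
    A ^ n = P * !![l ^ n, 0; 0, (l ^ n)⁻¹] * P⁻¹ := by
  have hu : IsUnit P.det := isUnit_iff_ne_zero.mpr hP
  induction n with
  | zero =>
    have h1 : (!![l ^ 0, 0; 0, (l ^ 0)⁻¹] : Matrix (Fin 2) (Fin 2) F) = 1 := by
      ext i j; fin_cases i <;> fin_cases j <;> simp
    rw [h1, pow_zero, Matrix.mul_one, Matrix.mul_nonsing_inv _ hu]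
  | succ n ih =>
    have h1 : (!![l ^ n, 0; 0, (l ^ n)⁻¹] : Matrix (Fin 2) (Fin 2) F) * !![l, 0; 0, l⁻¹] =
        !![l ^ (n + 1), 0; 0, (l ^ (n + 1))⁻¹] := by
      rw [Matrix.mul_fin_two]
      ext i j
      fin_cases i <;> fin_cases j <;> simp [pow_succ, mul_comm]
    rw [pow_succ, ih, hA, ← h1]
    calc P * !![l ^ n, 0; 0, (l ^ n)⁻¹] * P⁻¹ * (P * !![l, 0; 0, l⁻¹] * P⁻¹)
        = P * !![l ^ n, 0; 0, (l ^ n)⁻¹] * (P⁻¹ * P) * (!![l, 0; 0, l⁻¹] * P⁻¹) := by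
          simp only [Matrix.mul_assoc]
      _ = _ := by
          rw [Matrix.nonsing_inv_mul _ hu, Matrix.mul_one]
          simp only [Matrix.mul_assoc]

private lemma sac_inv {F : Type*} [Field F] {P A A' : Matrix (Fin 2) (Fin 2) F} {x : F} (hx : x ≠ 0)
    (hP : P.det ≠ 0) (hA : A = P * !![x, 0; 0, x⁻¹] * P⁻¹) (h : A' * A = 1) :
    A' = P * !![x⁻¹, 0; 0, x] * P⁻¹ := by
  have hu : IsUnit P.det := isUnit_iff_ne_zero.mpr hP
  have h1 : (!![x, 0; 0, x⁻¹] : Matrix (Fin 2) (Fin 2) F) * !![x⁻¹, 0; 0, x] = 1 := by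
    rw [Matrix.mul_fin_two]
    ext i j
    fin_cases i <;> fin_cases j <;> simp [hx]
  have h2 : A * (P * !![x⁻¹, 0; 0, x] * P⁻¹) = 1 := by
    rw [hA]
    calc P * !![x, 0; 0, x⁻¹] * P⁻¹ * (P * !![x⁻¹, 0; 0, x] * P⁻¹)
        = P * (!![x, 0; 0, x⁻¹] * (P⁻¹ * P) * !![x⁻¹, 0; 0, x]) * P⁻¹ := by
          simp only [Matrix.mul_assoc]
      _ = 1 := by
          rw [Matrix.nonsing_inv_mul _ hu, Matrix.mul_one, h1, Matrix.mul_one,
            Matrix.mul_nonsing_inv _ hu]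
  calc A' = A' * (A * (P * !![x⁻¹, 0; 0, x] * P⁻¹)) := by rw [h2, Matrix.mul_one]
    _ = _ := by rw [← Matrix.mul_assoc, h, Matrix.one_mul]

/-- the sequence of moduli -/
private def sac_N (v : Pl) (k : ℕ) : ℕ := Ideal.absNorm v.asIdeal ^ k * k.factorial

private lemma sac_N_val (v : Pl) (r : WithZero (Multiplicative ℤ)) (hr : r ≠ 0) :
    ∀ᶠ k : ℕ in Filter.atTop, v.valuation kk ((sac_N v k : ℕ) : kk) ≤ r := by
  have h1 : v.valuation kk ((Ideal.absNorm v.asIdeal : ℕ) : kk) < 1 := by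
    have h2 : ((Ideal.absNorm v.asIdeal : ℕ) : 𝓞 kk) ∈ v.asIdeal := Ideal.absNorm_mem _
    have h3 := (v.valuation_lt_one_iff_mem (K := kk) ((Ideal.absNorm v.asIdeal : ℕ) : 𝓞 kk)).2 h2
    simpa using h3
  have h0 : ∀ n : ℕ, v.valuation kk ((n : ℕ) : kk) ≤ 1 := by
    intro n
    have := v.valuation_le_one (K := kk) ((n : ℕ) : 𝓞 kk)
    simpa using this
  have h2 : v.valuation kk ((Ideal.absNorm v.asIdeal : ℕ) : kk) ≤ WithZero.exp (-1) := by
    by_cases hz : v.valuation kk ((Ideal.absNorm v.asIdeal : ℕ) : kk) = 0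
    · rw [hz]; exact zero_le
    · rw [← WithZero.exp_log hz, WithZero.exp_le_exp]
      have := (WithZero.log_lt_log hz (one_ne_zero)).2 h1
      rw [WithZero.log_one] at this
      omega
  filter_upwards [kt_exp r hr] with k hk
  refine le_trans ?_ hk
  unfold sac_N
  push_cast
  rw [map_mul, map_pow]
  calc (v.valuation kk ((Ideal.absNorm v.asIdeal : ℕ) : kk)) ^ k * v.valuation kk (k.factorial : kk)
      ≤ (WithZero.exp (-1)) ^ k * 1 := mul_le_mul' (pow_le_pow_left' h2 _) (h0 _)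
    _ = WithZero.exp (-(k : ℤ)) := by
        rw [← WithZero.exp_nsmul, mul_one]
        simp

private lemma sac_nat (w : Pl) (N : ℕ) {h : AA} (hh : h ∈ OO w) : (N : kk) • h ∈ OO w := by
  have h1 : (N : kk) • h = (N : AA) * h := by
    rw [Algebra.smul_def]
    simp
  rw [h1]
  exact (OO w).mul_mem (natCast_mem (OO w) N) hh

private lemma sac_UN {v : Pl} {a : AAˣ} (ha1 : nrd (a : AA) = 1)
    (ha : ∀ w, w ∉ SS4 → w ≠ v → (a : AA) ∈ OO w ∧ ((a⁻¹ : AAˣ) : AA) ∈ OO w) {G : AAˣ}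
    (hG1 : nrd (G : AA) = 1) {M N : ℕ} (hMN : N ∣ M)
    (hG : ∀ w, w ∉ SS4 → ∃ h ∈ OO w, (G : AA) = 1 + (M : kk) • h) (n : ℕ) :
    a ^ n * G * (a ^ n)⁻¹ ∈ UN v N := by
  obtain ⟨Q, rfl⟩ := hMN
  refine ⟨?_, fun w hw hwv => ?_⟩
  · have h1 : nrd ((a ^ n : AAˣ) : AA) = 1 := by
      induction n with
      | zero => simpa using nrd_one
      | succ n ih => rw [pow_succ, Units.val_mul, nrd_mul, ih, ha1, one_mul]
    have h4 := nrd_mul ((a ^ n : AAˣ) : AA) (((a ^ n)⁻¹ : AAˣ) : AA)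
    rw [Units.mul_inv, nrd_one, h1, one_mul] at h4
    rw [Units.val_mul, Units.val_mul, nrd_mul, nrd_mul, hG1, h1, ← h4, one_mul, one_mul]
  · obtain ⟨h, hh, e⟩ := hG w hw
    obtain ⟨k1, k2⟩ := ha w hw hwv
    have j1 : ((a ^ n : AAˣ) : AA) ∈ OO w := by
      rw [Units.val_pow_eq_pow_val]
      exact pow_mem k1 n
    have j2 : (((a ^ n)⁻¹ : AAˣ) : AA) ∈ OO w := by
      rw [← inv_pow, Units.val_pow_eq_pow_val]
      exact pow_mem k2 n
    refine ⟨(Q : kk) • (((a ^ n : AAˣ) : AA) * h * (((a ^ n)⁻¹ : AAˣ) : AA)),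
      sac_nat w Q ((OO w).mul_mem ((OO w).mul_mem j1 hh) j2), ?_⟩
    rw [Units.val_mul, Units.val_mul, e, mul_add, add_mul, mul_one, Units.mul_inv, smul_smul]
    congr 1
    push_cast
    rw [mul_smul_comm, smul_mul_assoc]

private lemma sac_tendsto {v : Pl} (hv : v ∉ SS4) {φ : AA →+* Matrix (Fin 2) (Fin 2) (Kv v)}
    (hφ : LocR v φ) {G : ℕ → AAˣ}
    (hG : ∀ k, ∀ w, w ∉ SS4 → ∃ h ∈ OO w, (G k : AA) = 1 + ((sac_N v k : ℕ) : kk) • h) :
    Filter.Tendsto (fun k => φ (G k : AA)) Filter.atTop (nhds 1) := by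
  rw [kt_tendsto_mat]
  intro i j
  rw [kt_tendsto]
  intro r hr
  filter_upwards [sac_N_val v r hr] with k hk
  obtain ⟨h, hh, e⟩ := hG k v hv
  have h1 : φ (G k : AA) = 1 + algebraMap kk (Kv v) ((sac_N v k : ℕ) : kk) • φ h := by
    rw [e, map_add, map_one, Algebra.smul_def, map_mul, hφ.sc, smul_mul_assoc, one_mul]
  have h2 : φ (G k : AA) i j - (1 : Matrix (Fin 2) (Fin 2) (Kv v)) i j =
      algebraMap kk (Kv v) ((sac_N v k : ℕ) : kk) * φ h i j := by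
    rw [h1, Matrix.add_apply, Matrix.smul_apply, smul_eq_mul, add_sub_cancel_left]
  rw [h2, map_mul, Kv_val]
  calc v.valuation kk ((sac_N v k : ℕ) : kk) * Valued.v (φ h i j) ≤ r * 1 :=
        mul_le_mul' hk ((hφ.int h).1 hh i j)
    _ = r := mul_one r

/-- The limit argument. -/
private lemma sac_main {v : Pl} (hv : v ∉ SS4) {φ : AA →+* Matrix (Fin 2) (Fin 2) (Kv v)}
    (hφ : LocR v φ) {a : AAˣ} (ha1 : nrd (a : AA) = 1)
    (ha : ∀ w, w ∉ SS4 → w ≠ v → (a : AA) ∈ OO w ∧ ((a⁻¹ : AAˣ) : AA) ∈ OO w)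
    {P : Matrix (Fin 2) (Fin 2) (Kv v)} {l : Kv v} (hP : P.det ≠ 0) (hl : 1 < Valued.v l)
    (hA : φ (a : AA) = P * !![l, 0; 0, l⁻¹] * P⁻¹) {G : ℕ → AAˣ} (hG1 : ∀ k, nrd (G k : AA) = 1)
    (hG : ∀ k, ∀ w, w ∉ SS4 → ∃ h ∈ OO w, (G k : AA) = 1 + ((sac_N v k : ℕ) : kk) • h)
    (hq : ∃ᶠ k in Filter.atTop, (P⁻¹ * φ (G k : AA) * P) 0 1 ≠ 0) :
    ∃ c : Kv v, c ≠ 0 ∧ P * !![1, c; 0, 1] * P⁻¹ ∈ Sv v φ := by
  have hu : IsUnit P.det := isUnit_iff_ne_zero.mpr hP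
  have hl0 : l ≠ 0 := by
    rintro rfl
    rw [map_zero] at hl
    exact absurd hl (not_lt.2 zero_le_one)
  set B : ℕ → Matrix (Fin 2) (Fin 2) (Kv v) := fun k => P⁻¹ * φ (G k : AA) * P with hB
  have hBt : Filter.Tendsto B Filter.atTop (nhds 1) := by
    have h1 := (tendsto_const_nhds (x := P⁻¹)).mul (sac_tendsto hv hφ hG)
    have h2 := h1.mul (tendsto_const_nhds (x := P))
    rw [mul_one, Matrix.nonsing_inv_mul _ hu] at h2
    exact h2
  have hBij := (kt_tendsto_mat v).1 hBt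
  set L : WithZero (Multiplicative ℤ) := Valued.v l * Valued.v l with hL
  have hL1 : 1 < L := one_lt_mul'' hl hl
  -- small off-diagonal entries
  have hsm : ∀ᶠ k in Filter.atTop, Valued.v (B k 0 1) < 1 := by
    have h1 := (kt_tendsto v _ _).1 (hBij 0 1) (WithZero.exp (-1)) WithZero.exp_ne_zero
    filter_upwards [h1] with k hk
    have h2 : (1 : Matrix (Fin 2) (Fin 2) (Kv v)) 0 1 = 0 := by
      rw [Matrix.one_apply_ne]; decide
    rw [h2, sub_zero] at hk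
    refine lt_of_le_of_lt hk ?_
    rw [← WithZero.exp_zero, WithZero.exp_lt_exp]
    norm_num
  have hex : ∀ k, ∃ n : ℕ, B k 0 1 ≠ 0 → Valued.v (B k 0 1) < 1 →
      1 ≤ Valued.v (l ^ n * l ^ n * B k 0 1) ∧ Valued.v (l ^ n * l ^ n * B k 0 1) ≤ L := by
    intro k
    by_cases h1 : B k 0 1 ≠ 0 ∧ Valued.v (B k 0 1) < 1
    · obtain ⟨n, hn⟩ := sac_n L (Valued.v (B k 0 1)) hL1 ((Valuation.ne_zero_iff _).2 h1.1) h1.2
      refine ⟨n, fun _ _ => ?_⟩
      rw [map_mul, map_mul, map_pow, ← mul_pow]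
      exact hn
    · exact ⟨0, fun h2 h3 => absurd ⟨h2, h3⟩ h1⟩
  choose n hn using hex
  -- ultrafilter
  have hfr : ∃ᶠ k in Filter.atTop, B k 0 1 ≠ 0 ∧ Valued.v (B k 0 1) < 1 := hq.and_eventually hsm
  set F : Filter ℕ := Filter.atTop ⊓ Filter.principal {k | B k 0 1 ≠ 0 ∧ Valued.v (B k 0 1) < 1}
    with hF
  have hFne : F.NeBot := Filter.frequently_iff_neBot.1 hfr
  set U : Ultrafilter ℕ := Ultrafilter.of F with hU
  have hUF : (U : Filter ℕ) ≤ F := Ultrafilter.of_le F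
  have hUtop : (U : Filter ℕ) ≤ Filter.atTop := hUF.trans inf_le_left
  have hUset : ∀ᶠ k in (U : Filter ℕ), B k 0 1 ≠ 0 ∧ Valued.v (B k 0 1) < 1 :=
    (hUF.trans inf_le_right) (Filter.mem_principal_self _)
  set f : ℕ → Kv v := fun k => l ^ n k * l ^ n k * B k 0 1 with hf
  have hfL : ∀ᶠ k in (U : Filter ℕ), 1 ≤ Valued.v (f k) ∧ Valued.v (f k) ≤ L := by
    filter_upwards [hUset] with k hk
    exact hn k hk.1 hk.2
  obtain ⟨c, -, hc⟩ := (Kv_ball v L).1.ultrafilter_le_nhds (U.map f) (by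
    rw [Filter.le_principal_iff, Ultrafilter.coe_map, Filter.mem_map]
    filter_upwards [hfL] with k hk
    exact hk.2)
  have hct : Filter.Tendsto f (U : Filter ℕ) (nhds c) := hc
  have hc0 : c ≠ 0 := by
    rintro rfl
    have h1 := (kt_tendsto v _ _).1 hct (WithZero.exp (-1)) WithZero.exp_ne_zero
    obtain ⟨k, hk1, hk2⟩ := (h1.and hfL).exists
    rw [sub_zero] at hk1
    have h2 := hk2.1.trans hk1
    rw [← WithZero.exp_zero, WithZero.exp_le_exp] at h2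
    norm_num at h2
  refine ⟨c, hc0, fun N hN => ?_⟩
  set C : ℕ → Matrix (Fin 2) (Fin 2) (Kv v) := fun k =>
    !![B k 0 0, l ^ n k * l ^ n k * B k 0 1; (l ^ n k * l ^ n k)⁻¹ * B k 1 0, B k 1 1] with hC
  have hCt : Filter.Tendsto C (U : Filter ℕ) (nhds !![1, c; 0, 1]) := by
    rw [kt_tendsto_mat]
    intro i j
    have e00 : (1 : Matrix (Fin 2) (Fin 2) (Kv v)) 0 0 = 1 := Matrix.one_apply_eq 0
    have e11 : (1 : Matrix (Fin 2) (Fin 2) (Kv v)) 1 1 = 1 := Matrix.one_apply_eq 1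
    have e10 : (1 : Matrix (Fin 2) (Fin 2) (Kv v)) 1 0 = 0 := Matrix.one_apply_ne (by decide)
    fin_cases i <;> fin_cases j
    · show Filter.Tendsto (fun k => B k 0 0) _ (nhds 1)
      have := (hBij 0 0).mono_left hUtop
      rwa [e00] at this
    · exact hct
    · show Filter.Tendsto (fun k => (l ^ n k * l ^ n k)⁻¹ * B k 1 0) _ (nhds 0)
      rw [kt_tendsto]
      intro r hr
      have h1 := (kt_tendsto v _ _).1 ((hBij 1 0).mono_left hUtop) r hr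
      filter_upwards [h1] with k hk
      rw [e10, sub_zero] at hk
      rw [sub_zero, map_mul, map_inv₀, map_mul, map_pow, ← mul_pow]
      have h2 : ((Valued.v l * Valued.v l) ^ n k)⁻¹ ≤ 1 := by
        refine inv_le_one_of_one_le₀ ?_
        exact one_le_pow_of_one_le' hL1.le _
      calc ((Valued.v l * Valued.v l) ^ n k)⁻¹ * Valued.v (B k 1 0) ≤ 1 * r := mul_le_mul' h2 hk
        _ = r := one_mul r
    · show Filter.Tendsto (fun k => B k 1 1) _ (nhds 1)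
      have := (hBij 1 1).mono_left hUtop
      rwa [e11] at this
  have hPC : Filter.Tendsto (fun k => P * C k * P⁻¹) (U : Filter ℕ)
      (nhds (P * !![1, c; 0, 1] * P⁻¹)) :=
    ((tendsto_const_nhds (x := P)).mul hCt).mul (tendsto_const_nhds (x := P⁻¹))
  refine mem_closure_of_tendsto hPC ?_
  filter_upwards [hUtop (Filter.eventually_ge_atTop N)] with k hk
  refine ⟨a ^ n k * G k * (a ^ n k)⁻¹, sac_UN ha1 ha (hG1 k) ?_ (hG k) (n k), ?_⟩
  · exact (Nat.dvd_factorial hN hk).mul_left _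
  · have h1 : φ ((a ^ n k : AAˣ) : AA) = P * !![l ^ n k, 0; 0, (l ^ n k)⁻¹] * P⁻¹ := by
      rw [Units.val_pow_eq_pow_val, map_pow]
      exact sac_pow hP hA (n k)
    have h2 : φ (((a ^ n k)⁻¹ : AAˣ) : AA) = P * !![(l ^ n k)⁻¹, 0; 0, l ^ n k] * P⁻¹ := by
      refine sac_inv (pow_ne_zero _ hl0) hP h1 ?_
      rw [← map_mul, Units.inv_mul, map_one]
    show φ ((a ^ n k * G k * (a ^ n k)⁻¹ : AAˣ) : AA) = P * C k * P⁻¹
    have h3 : φ ((a ^ n k * G k * (a ^ n k)⁻¹ : AAˣ) : AA) =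
        φ ((a ^ n k : AAˣ) : AA) * φ (G k : AA) * φ (((a ^ n k)⁻¹ : AAˣ) : AA) := by
      simp only [Units.val_mul, map_mul]
    have h4 : C k = !![l ^ n k, 0; 0, (l ^ n k)⁻¹] * B k * !![(l ^ n k)⁻¹, 0; 0, l ^ n k] :=
      (sac_conj l hl0 (n k) (B k)).symm
    rw [h3, h1, h2, h4, hB]
    simp only [Matrix.mul_assoc]

private lemma sac_ne {v : Pl} {a : AAˣ} (ha1 : nrd (a : AA) = 1)
    (ha : 1 < v.valuation kk (trd (a : AA))) : a ∉ ZZ := by
  intro h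
  obtain ⟨z, hz, e⟩ := (mem_ZZ a).1 h
  rw [e] at ha ha1
  have h1 : nrd (algebraMap kk AA z) = z * z := by
    simp [nrd, NK, xp, yp]
    ring
  have h2 : trd (algebraMap kk AA z) = 2 * z := by
    simp [trd]
  rw [h1] at ha1
  rw [h2, map_mul] at ha
  have h3 : v.valuation kk z * v.valuation kk z = 1 := by rw [← map_mul, ha1, map_one]
  have h4 : v.valuation kk z ≤ 1 := by
    by_contra hcon
    have := one_lt_mul'' (not_le.1 hcon) (not_le.1 hcon)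
    rw [h3] at this
    exact lt_irrefl _ this
  have h5 : v.valuation kk (2 : kk) ≤ 1 := by
    have e2 : (2 : kk) = ⟨((2 : ℤ) : ℚ), ((0 : ℤ) : ℚ)⟩ := by
      ext <;> simp [QuadraticAlgebra.re_ofNat, QuadraticAlgebra.im_ofNat]
    rw [e2]
    exact val_int v 2 0
  exact absurd ha (not_lt.2 (mul_le_one' h5 h4))

private lemma sac_inj {v : Pl} {φ : AA →+* Matrix (Fin 2) (Fin 2) (Kv v)}
    (hφ : LocR v φ) {x y : AA} (h : φ x = φ y) : x = y := by
  have h1 := hφ.det (x - y)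
  rw [map_sub, h, sub_self, Matrix.det_zero] at h1
  have h2 : nrd (x - y) = 0 := by
    have := h1.symm
    rwa [map_eq_zero] at this
  exact sub_eq_zero.1 ((nrd_eq_zero _).1 h2)

theorem unip_mem (v : Pl) (hv : v ∉ SS4) (φ : AA →+* Matrix (Fin 2) (Fin 2) (Kv v))
    (hφ : LocR v φ) : ∃ (P : Matrix (Fin 2) (Fin 2) (Kv v)) (c : Kv v), P.det ≠ 0 ∧ c ≠ 0 ∧
      P * !![1, c; 0, 1] * P⁻¹ ∈ Sv v φ := by
  obtain ⟨a, ha1, ha2, ha3⟩ := hyp_elt v hv
  have hAdet : (φ (a : AA)).det = 1 := by rw [hφ.det, ha1, map_one]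
  have hAtr : 1 < Valued.v (φ (a : AA)).trace := by rw [hφ.tr, Kv_val]; exact ha3
  obtain ⟨P, l, hP, hl, hA⟩ := eigV v _ hAdet hAtr
  have hu : IsUnit P.det := isUnit_iff_ne_zero.mpr hP
  have hl0 : l ≠ 0 := by
    rintro rfl
    rw [map_zero] at hl
    exact absurd hl (not_lt.2 zero_le_one)
  obtain ⟨g, hg1, hg2, hg3⟩ := unit_nc a (sac_ne ha1 ha3)
  have hNpos : ∀ k, 0 < sac_N v k := by
    intro k
    refine Nat.mul_pos (Nat.pow_pos ?_) (Nat.factorial_pos k)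
    rw [Nat.pos_iff_ne_zero, Ne, Ideal.absNorm_eq_zero_iff]
    exact v.ne_bot
  choose m hm0 hm using fun k => hg3 (sac_N v k) (hNpos k)
  have hgm : ∀ n : ℕ, nrd ((g ^ n : AAˣ) : AA) = 1 := by
    intro n
    induction n with
    | zero => simpa using nrd_one
    | succ n ih => rw [pow_succ, Units.val_mul, nrd_mul, ih, hg1, one_mul]
  set B : ℕ → Matrix (Fin 2) (Fin 2) (Kv v) := fun k => P⁻¹ * φ ((g ^ m k : AAˣ) : AA) * P with hB
  have hor : ∀ k, B k 0 1 ≠ 0 ∨ B k 1 0 ≠ 0 := by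
    intro k
    by_contra hcon
    rw [not_or, not_not, not_not] at hcon
    obtain ⟨h1, h2⟩ := hcon
    apply hg2 (m k) (hm0 k)
    apply Units.ext
    apply sac_inj hφ
    rw [Units.val_mul, Units.val_mul, map_mul, map_mul]
    have h3 : φ ((g ^ m k : AAˣ) : AA) = P * B k * P⁻¹ := by
      rw [hB]
      calc φ ((g ^ m k : AAˣ) : AA) = (P * P⁻¹) * φ ((g ^ m k : AAˣ) : AA) * (P * P⁻¹) := by
            rw [Matrix.mul_nonsing_inv _ hu, Matrix.one_mul, Matrix.mul_one]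
        _ = _ := by simp only [Matrix.mul_assoc]
    have h4 : B k * !![l, 0; 0, l⁻¹] = !![l, 0; 0, l⁻¹] * B k := by
      rw [Matrix.eta_fin_two (B k), h1, h2, Matrix.mul_fin_two, Matrix.mul_fin_two]
      simp only [mul_zero, zero_mul, add_zero, zero_add]
      rw [mul_comm l, mul_comm l⁻¹]
    rw [h3, hA]
    calc P * B k * P⁻¹ * (P * !![l, 0; 0, l⁻¹] * P⁻¹)
        = P * (B k * (P⁻¹ * P) * !![l, 0; 0, l⁻¹]) * P⁻¹ := by simp only [Matrix.mul_assoc]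
      _ = P * (!![l, 0; 0, l⁻¹] * (P⁻¹ * P) * B k) * P⁻¹ := by
          rw [Matrix.nonsing_inv_mul _ hu, Matrix.mul_one, Matrix.mul_one, h4]
      _ = P * !![l, 0; 0, l⁻¹] * P⁻¹ * (P * B k * P⁻¹) := by simp only [Matrix.mul_assoc]
  have hfr : (∃ᶠ k in Filter.atTop, B k 0 1 ≠ 0) ∨ (∃ᶠ k in Filter.atTop, B k 1 0 ≠ 0) :=
    Filter.frequently_or_distrib.1 (Filter.Frequently.of_forall hor)
  rcases hfr with hq | hq
  · obtain ⟨c, hc, h⟩ := sac_main hv hφ ha1 ha2 hP hl hA (G := fun k => g ^ m k)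
      (fun k => hgm (m k)) hm hq
    exact ⟨P, c, hP, hc, h⟩
  · have hJ : (!![0, 1; 1, 0] : Matrix (Fin 2) (Fin 2) (Kv v)) * !![0, 1; 1, 0] = 1 := by
      rw [Matrix.mul_fin_two, Matrix.one_fin_two]
      simp only [mul_zero, mul_one, add_zero, zero_add]
    have hJi : (!![0, 1; 1, 0] : Matrix (Fin 2) (Fin 2) (Kv v))⁻¹ = !![0, 1; 1, 0] :=
      Matrix.inv_eq_left_inv hJ
    have hJd : (!![0, 1; 1, 0] : Matrix (Fin 2) (Fin 2) (Kv v)).det ≠ 0 := by
      rw [Matrix.det_fin_two_of]; simp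
    have hPJ : (P * !![0, 1; 1, 0]).det ≠ 0 := by
      rw [Matrix.det_mul]
      exact mul_ne_zero hP hJd
    have hA' : φ ((a⁻¹ : AAˣ) : AA) = (P * !![0, 1; 1, 0]) * !![l, 0; 0, l⁻¹] *
        (P * !![0, 1; 1, 0])⁻¹ := by
      have h1 : φ ((a⁻¹ : AAˣ) : AA) = P * !![l⁻¹, 0; 0, l] * P⁻¹ := by
        refine sac_inv hl0 hP hA ?_
        rw [← map_mul, Units.inv_mul, map_one]
      have h2 : (!![l⁻¹, 0; 0, l] : Matrix (Fin 2) (Fin 2) (Kv v)) =
          !![0, 1; 1, 0] * !![l, 0; 0, l⁻¹] * !![0, 1; 1, 0] := by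
        rw [Matrix.mul_fin_two, Matrix.mul_fin_two]
        simp only [mul_zero, mul_one, add_zero, zero_add, zero_mul, one_mul]
      rw [h1, h2, Matrix.mul_inv_rev, hJi]
      simp only [Matrix.mul_assoc]
    have ha1' : nrd ((a⁻¹ : AAˣ) : AA) = 1 := by
      have h4 := nrd_mul (a : AA) ((a⁻¹ : AAˣ) : AA)
      rw [Units.mul_inv, nrd_one, ha1, one_mul] at h4
      exact h4.symm
    obtain ⟨c, hc, h⟩ := sac_main hv hφ (a := a⁻¹) ha1'
      (fun w hw hwv => ⟨(ha2 w hw hwv).2, by rw [inv_inv]; exact (ha2 w hw hwv).1⟩) hPJ hl hA'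
      (G := fun k => g ^ m k) (fun k => hgm (m k)) hm (by
        refine hq.mono fun k hk => ?_
        have h1 : (P * !![0, 1; 1, 0])⁻¹ * φ ((g ^ m k : AAˣ) : AA) * (P * !![0, 1; 1, 0]) =
            !![0, 1; 1, 0] * B k * !![0, 1; 1, 0] := by
          rw [Matrix.mul_inv_rev, hJi, hB]
          simp only [Matrix.mul_assoc]
        rw [h1, Matrix.eta_fin_two (B k), Matrix.mul_fin_two, Matrix.mul_fin_two]
        simpa using hk)
    exact ⟨_, c, hPJ, hc, h⟩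

end

end Pool.Agent.Work.MP_14c213_gt
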