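import Pool.Agent.Work.MP_14c213_gt.B.SAc
import Pool.Agent.Work.MP_14c213_gt.B.SAa
import Pool.Agent.Work.MP_14c213_gt.B.OrdB

/-!
Strong approximation at one place. By SA_unip (D = image of A, dense; d with det ≠ 0 is a unit) Sv contains
SL₂(k_v). Given h, scale so that nrd is a unit u at v; h₁ = φ(h) diag(u⁻¹, 1) has determinant 1; choose
γ ∈ UN v 1 so close to h₁ that φ(γ⁻¹) h₁ is integral; then γ⁻¹h ∈ OO v with unit norm.
-/

namespace Pool.Agent.Work.MP_14c213_gt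

open Matrix IsDedekindDomain
open scoped Matrix NumberField QuadraticAlgebra

noncomputable section

private theorem SAd_inv {F : Type*} [Field F] {R : Type*} [Ring R] (φ : R →+* Matrix (Fin 2) (Fin 2) F)
    (u : Rˣ) : φ ((u⁻¹ : Rˣ) : R) = (φ (u : R))⁻¹ := by
  symm
  apply Matrix.inv_eq_left_inv
  rw [← map_mul, Units.inv_mul, map_one]

/-- `Sv` contains all matrices of determinant one. -/
private theorem SAd_SL (v : Pl) (hv : v ∉ SS4) (φ : AA →+* Matrix (Fin 2) (Fin 2) (Kv v))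
    (hφ : LocR v φ) (g : Matrix (Fin 2) (Fin 2) (Kv v)) (hg : g.det = 1) : g ∈ Sv v φ := by
  obtain ⟨P, c, hP, hc, hu⟩ := unip_mem v hv φ hφ
  refine SA_unip (Sv v φ) (Set.range φ) (Sv_closed v φ) (Sv_mul v φ) hφ.dense ?_ P hP c hc hu g hg
  rintro _ ⟨x, rfl⟩ hd a ha
  have hx : x ≠ 0 := by
    rintro rfl
    apply hd
    rw [map_zero, Matrix.det_zero]
  obtain ⟨u, rfl⟩ := exists_unit hx
  rw [← SAd_inv]
  exact Sv_conj v φ u a ha

private theorem SAd_open' {F : Type*} [Field F] [TopologicalSpace F] [IsTopologicalRing F] (U : Set F)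
    (hU : IsOpen U) (B : Matrix (Fin 2) (Fin 2) F) :
    IsOpen {X : Matrix (Fin 2) (Fin 2) F | ∀ i j, (X.adjugate * B) i j ∈ U} := by
  have h1 : {X : Matrix (Fin 2) (Fin 2) F | ∀ i j, (X.adjugate * B) i j ∈ U} =
      ⋂ i, ⋂ j, (fun X : Matrix (Fin 2) (Fin 2) F => (X.adjugate * B) i j) ⁻¹' U := by
    ext X
    simp
  rw [h1]
  refine isOpen_iInter_of_finite fun i => isOpen_iInter_of_finite fun j => ?_
  refine hU.preimage ?_
  have hc : Continuous (fun X : Matrix (Fin 2) (Fin 2) F => X.adjugate * B) := by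
    fun_prop
  exact (continuous_apply_apply i j).comp hc

private theorem SAd_open (v : Pl) (B : Matrix (Fin 2) (Fin 2) (Kv v)) :
    IsOpen {X : Matrix (Fin 2) (Fin 2) (Kv v) | ∀ i j, Valued.v ((X.adjugate * B) i j) ≤ 1} :=
  SAd_open' {x : Kv v | Valued.v x ≤ 1} (Kv_ball v 1).2 B

private theorem SAd_alg {F : Type*} [Field F] (B : Matrix (Fin 2) (Fin 2) F) (hB : B.det ≠ 0) :
    (B * !![B.det⁻¹, 0; 0, 1]).det = 1 ∧
      (B * !![B.det⁻¹, 0; 0, 1]).adjugate * B = !![B.det, 0; 0, 1] := by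
  constructor
  · rw [Matrix.det_mul, Matrix.det_fin_two_of]
    field_simp
    ring
  · rw [Matrix.adjugate_mul_distrib, Matrix.mul_assoc, Matrix.adjugate_mul, Matrix.adjugate_fin_two_of]
    ext i j
    fin_cases i <;> fin_cases j <;> simp [hB]

private theorem SAd_adj {F : Type*} [Field F] {R : Type*} [Ring R] (φ : R →+* Matrix (Fin 2) (Fin 2) F)
    (u : Rˣ) (hu : (φ (u : R)).det = 1) : φ ((u⁻¹ : Rˣ) : R) = (φ (u : R)).adjugate := by
  rw [SAd_inv, Matrix.inv_def, hu, Ring.inverse_one, one_smul]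

private theorem SAd_val {F Γ : Type*} [Field F] [LinearOrderedCommGroupWithZero Γ] (w : Valuation F Γ)
    (A : Matrix (Fin 2) (Fin 2) F) (hA : ∀ i j, w (A i j) ≤ 1) (hd : w A.det = 1) :
    ∀ i j, w (A⁻¹ i j) ≤ 1 := by
  have h0 : A.det ≠ 0 := by
    intro h
    rw [h, map_zero] at hd
    exact zero_ne_one hd
  have h1 : w (A.det⁻¹) = 1 := by rw [map_inv₀, hd, inv_one]
  intro i j
  rw [Matrix.inv_def, Ring.inverse_eq_inv', Matrix.smul_apply, smul_eq_mul, map_mul, h1, one_mul,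
    Matrix.adjugate_fin_two]
  fin_cases i <;> fin_cases j <;> simp [hA]

private theorem SAd_unit (v : Pl) {x : kk} (hx : x ≠ 0) (h : ord v x = 0) : v.valuation kk x = 1 := by
  apply le_antisymm ((val_le_one hx).2 h.ge)
  by_contra hc
  have := (val_lt_one hx).1 (not_le.1 hc)
  omega

private theorem SAd_sc {F R : Type*} [Field F] [Ring R] (a : F →+* R) (ha : ∀ z x, a z * x = x * a z)
    (z : F) (hz : z ≠ 0) (zz : Rˣ) (hzz : (zz : R) = a z) (γ h : Rˣ) :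
    a z * ((γ⁻¹ * h : Rˣ) : R) = ((γ⁻¹ * (zz * h) : Rˣ) : R) ∧
    a z⁻¹ * (((γ⁻¹ * h)⁻¹ : Rˣ) : R) = (((γ⁻¹ * (zz * h))⁻¹ : Rˣ) : R) := by
  have hi : ((zz⁻¹ : Rˣ) : R) = a z⁻¹ := by
    apply Units.inv_eq_of_mul_eq_one_right
    rw [hzz, ← map_mul, mul_inv_cancel₀ hz, map_one]
  constructor
  · rw [Units.val_mul, Units.val_mul, Units.val_mul, hzz, ← mul_assoc, ha, mul_assoc]
  · rw [_root_.mul_inv_rev, _root_.mul_inv_rev, _root_.mul_inv_rev, Units.val_mul, Units.val_mul,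
      Units.val_mul, hi, ← mul_assoc, ha, mul_assoc]

theorem SA (v : Pl) (hv : v ∉ SS4) (h : AAˣ) (he : Even (ord v (nrd (h : AA)))) :
    ∃ γ : AAˣ, γ⁻¹ * h ∈ UU v ∧ ∀ w, w ≠ v → γ ∈ UU w := by
  obtain ⟨φ, hφ⟩ := locphi v hv
  obtain ⟨k, hk⟩ := he
  obtain ⟨z, hz, hzk⟩ := ord_surj v (-k)
  have hzs : IsUnit (algebraMap kk AA z) := (IsUnit.mk0 z hz).map _
  obtain ⟨zz, hzz⟩ := hzs
  have hnz : nrd (zz : AA) = z ^ 2 := by
    rw [hzz]
    simp [nrd, NK, xp, yp]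
  have hn : nrd ((zz * h : AAˣ) : AA) = z ^ 2 * nrd (h : AA) := by
    rw [Units.val_mul, nrd_mul, hnz]
  have hval : v.valuation kk (nrd ((zz * h : AAˣ) : AA)) = 1 := by
    apply SAd_unit v (nrd_ne _)
    rw [hn, ord_mul v (pow_ne_zero _ hz) (nrd_ne h), ord_pow, hk, hzk]
    push_cast
    ring
  set h' : AAˣ := zz * h with hh'
  have hdet : (φ (h' : AA)).det = algebraMap kk (Kv v) (nrd (h' : AA)) := hφ.det _
  have hd0 : (φ (h' : AA)).det ≠ 0 := by
    rw [hdet]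
    exact (map_ne_zero _).2 (nrd_ne h')
  have hd1 : Valued.v (φ (h' : AA)).det = 1 := by
    rw [hdet, Kv_val, hval]
  obtain ⟨hM1, hM2⟩ := SAd_alg (φ (h' : AA)) hd0
  have hM := SAd_SL v hv φ hφ _ hM1 1 one_pos
  have hW := SAd_open v (φ (h' : AA))
  obtain ⟨_, hX, γ, hγ, rfl⟩ := mem_closure_iff.1 hM _ hW (by
    intro i j
    rw [hM2]
    fin_cases i <;> fin_cases j <;> simp [hd1])
  have hγd : (φ (γ : AA)).det = 1 := by rw [hφ.det, hγ.1, map_one]
  have hg : ((γ⁻¹ * h' : AAˣ) : AA) ∈ OO v := by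
    rw [hφ.int, Units.val_mul, map_mul, SAd_adj φ γ hγd]
    exact hX
  have hnγ : nrd ((γ⁻¹ : AAˣ) : AA) = 1 := by
    have := nrd_mul (γ : AA) ((γ⁻¹ : AAˣ) : AA)
    rw [Units.mul_inv, nrd_one, hγ.1, one_mul] at this
    exact this.symm
  have hg' : (((γ⁻¹ * h')⁻¹ : AAˣ) : AA) ∈ OO v := by
    rw [hφ.int, SAd_inv]
    apply SAd_val _ _ ((hφ.int _).1 hg)
    rw [hφ.det, Kv_val, Units.val_mul, nrd_mul, hnγ, one_mul, hval]
  refine ⟨γ, ?_, UN_UU v hγ⟩
  rw [UU, if_neg hv]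
  obtain ⟨e1, e2⟩ := SAd_sc (algebraMap kk AA) (fun z x => Algebra.commutes z x) z hz zz hzz γ h
  refine ⟨z, hz, ?_, ?_⟩
  · rw [Algebra.smul_def, e1]
    exact hg
  · rw [Algebra.smul_def, e2]
    exact hg'

end

end Pool.Agent.Work.MP_14c213_gt
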