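import Pool.Agent.Work.MP_14c213_gt.B.FlipB
import Pool.Agent.Work.MP_14c213_gt.B.GLM
import Pool.Agent.Work.MP_14c213_gt.B.OrbB
import Pool.Agent.Work.MP_14c213_gt.B.GGB

/-!
Equality of the masses for K-free γ. v, t from flip; n = odd_exists element. mass_eq and GG_index_eq reduce to
ms H C (cosS (GG 1) GO γ) = ms H C (cosS (GG (-1)) GO γ), H = elements commuting with γ (cen_psi, chl_gt),
commutative (cen_comm). If v = P2: g⁻¹ t g commutes with g⁻¹γg and is odd at P2, so a2 (g⁻¹γg) = 0 (chg_flip) and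
the two sets are equal; take F = id. If v ≠ P2: F (g GO) = g' GO where g'⁻¹ t g ∈ UU v, g'⁻¹ g n ∈ UU P2,
g'⁻¹ g ∈ UU w for the other w (orb; parity: two sign changes; unique since GO = ⋂ UU w). F is a bijection
(inverse with t⁻¹, n⁻¹) commuting with H (H commutes with t). At P2 g'⁻¹γg' has exponent -a2, at all other places the
exponent of g⁻¹γg: the conditions for s and -s are exchanged.
-/

namespace Pool.Agent.Work.MP_14c213_gt

open Matrix IsDedekindDomain
open scoped Matrix NumberField QuadraticAlgebra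

noncomputable section

private theorem t1_nrd (n u : AAˣ) : nrd ((n⁻¹ * u * n : AAˣ) : AA) = nrd (u : AA) := by
  have h : nrd ((n⁻¹ : AAˣ) : AA) * nrd (n : AA) = 1 := by
    rw [← nrd_mul, Units.inv_mul, nrd_one]
  rw [Units.val_mul, Units.val_mul, nrd_mul, nrd_mul]
  linear_combination (nrd (u : AA)) * h

private theorem t1_norm {w : Pl} (hw : w ∈ SS4) (n u : AAˣ) : n⁻¹ * u * n ∈ UU w ↔ u ∈ UU w := by
  have h : ∀ z : AAˣ, z ∈ UU w ↔ Even (ord w (nrd (z : AA))) := by
    intro z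
    unfold UU
    rw [if_pos hw]
    exact Iff.rfl
  rw [h, h, t1_nrd]

/-- `t` at `v` and `1` elsewhere -/
private def t1_at (v : Pl) (t : AAˣ) (w : Pl) : AAˣ := open Classical in if w = v then t else 1

private theorem t1_at_self (v : Pl) (t : AAˣ) : t1_at v t v = t := by simp [t1_at]

private theorem t1_at_ne {v w : Pl} (t : AAˣ) (h : w ≠ v) : t1_at v t w = 1 := by simp [t1_at, h]

private theorem t1_at_inv (v : Pl) (t : AAˣ) (w : Pl) : t1_at v t⁻¹ w = (t1_at v t w)⁻¹ := by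
  by_cases h : w = v
  · subst h
    rw [t1_at_self, t1_at_self]
  · rw [t1_at_ne _ h, t1_at_ne _ h, inv_one]

private theorem t1_prod (v : Pl) (hv : om v = -1) (t : AAˣ) (ht : Odd (ord v (nrd (t : AA)))) :
    (Function.mulSupport fun w => om w ^ ord w (nrd ((t1_at v t w : AAˣ) : AA))).Finite ∧
      ∏ᶠ w : Pl, om w ^ ord w (nrd ((t1_at v t w : AAˣ) : AA)) = -1 := by
  have h : ∀ w, w ≠ v → om w ^ ord w (nrd ((t1_at v t w : AAˣ) : AA)) = 1 := by
    intro w hw
    rw [t1_at_ne _ hw, Units.val_one, nrd_one, ord_one, zpow_zero]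
  constructor
  · refine (Set.finite_singleton v).subset fun w hw => ?_
    by_contra hc
    exact hw (h w hc)
  · rw [finprod_eq_single _ v h, t1_at_self, hv]
    exact ht.neg_one_zpow

private theorem t1_ex {v : Pl} (hv : om v = -1) {t n : AAˣ} (ht : Odd (ord v (nrd (t : AA))))
    (hn : Odd (ord P2 (nrd (n : AA)))) (h2 : om P2 = -1) (g : AAˣ) :
    ∃ g' : AAˣ, ∀ w, g'⁻¹ * (t1_at v t w * g * t1_at P2 n w) ∈ UU w := by
  have hg : (Function.mulSupport fun w => om w ^ ord w (nrd (g : AA))).Finite := by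
    refine (ord_finite (nrd_ne g)).subset fun w hw hc => hw ?_
    show _ ^ _ = _
    rw [hc, zpow_zero]
  obtain ⟨f1, e1⟩ := t1_prod v hv t ht
  obtain ⟨f2, e2⟩ := t1_prod P2 h2 n hn
  apply orb (fun w => t1_at v t w * g * t1_at P2 n w)
  · refine ((UU_finite g).union ((Set.finite_singleton v).union (Set.finite_singleton P2))).subset ?_
    intro w hw
    by_contra hc
    simp only [Set.mem_union, Set.mem_singleton_iff, not_or] at hc
    apply hw
    show t1_at v t w * g * t1_at P2 n w ∈ UU w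
    rw [t1_at_ne _ hc.2.1, t1_at_ne _ hc.2.2, one_mul, mul_one]
    by_contra hc2
    exact hc.1 hc2
  · have e : ∀ w, om w ^ ord w (nrd ((t1_at v t w * g * t1_at P2 n w : AAˣ) : AA)) =
        om w ^ ord w (nrd ((t1_at v t w : AAˣ) : AA)) * om w ^ ord w (nrd (g : AA)) *
          om w ^ ord w (nrd ((t1_at P2 n w : AAˣ) : AA)) := by
      intro w
      rw [Units.val_mul, Units.val_mul, nrd_mul, nrd_mul,
        ord_mul w (mul_ne_zero (nrd_ne _) (nrd_ne _)) (nrd_ne _), ord_mul w (nrd_ne _) (nrd_ne _),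
        _root_.zpow_add, _root_.zpow_add]
    rw [finprod_congr e, finprod_mul_distrib ((f1.union hg).subset (Function.mulSupport_mul _ _)) f2,
      finprod_mul_distrib f1 hg, e1, e2, par_global g]
    simp

theorem T1 (γ : AAˣ) (hc : 1 < chl ((Psi γ : (Mat 3)ˣ) : Mat 3))
    (hK : ¬ ∃ x : AA, x * γ = γ * x ∧ x * x + x + 1 = 0) :
    massP Psi (GG 1) γ = massP Psi (GG (-1)) γ := by
  classical
  obtain ⟨hγ, htr⟩ := chl_gt hc
  obtain ⟨v, t, hv, htγ, hodd⟩ := flip γ hγ hK
  have hker : ∀ s, Psi.ker ≤ GG s := fun s g hg => ZZ_le_GG s ((Psi_ker g).1 hg)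
  have hP2 : P2 ∈ SS4 := by
    rw [four_spec.2.2.2.2.1]
    simp
  have hom2 := om_S4 P2 hP2
  rw [mass_eq Psi (GG 1) GO (hker 1) (GG_le 1) (GG_normal 1) (GG_index 1) γ,
    mass_eq Psi (GG (-1)) GO (hker (-1)) (GG_le (-1)) (GG_normal (-1)) (GG_index (-1)) γ,
    GG_index_eq]
  congr 1
  obtain ⟨hS, -, hC⟩ := cosS_act Psi (GG 1) GO (hker 1) (GG_le 1) (GG_normal 1) γ
  obtain ⟨hS', -, -⟩ := cosS_act Psi (GG (-1)) GO (hker (-1)) (GG_le (-1)) (GG_normal (-1)) γ
  have hγ' : ∀ z : kk, (γ : AA) ≠ algebraMap kk AA z := by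
    intro z hz
    apply hγ
    rw [mem_ZZ]
    refine ⟨z, ?_, hz⟩
    rintro rfl
    rw [map_zero] at hz
    exact γ.ne_zero hz
  have htγ' : t * γ = γ * t := htγ
  have hH : ∀ h ∈ (Subgroup.centralizer {Psi γ}).comap Psi, h * t = t * h := by
    intro h hh
    have h1 : Psi (h * γ * h⁻¹) = Psi γ := by
      have h2 := Subgroup.mem_centralizer_singleton_iff.1 (Subgroup.mem_comap.1 hh)
      rw [map_mul, map_mul, map_inv, h2, mul_inv_cancel_right]
    have h3 := cen_psi htr h1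
    apply Units.ext
    exact cen_comm hγ' (by simpa using congrArg Units.val h3) (by simpa using congrArg Units.val htγ)
  by_cases hvP : v = P2
  · have : cosS (GG 1) GO γ = cosS (GG (-1)) GO γ := by
      ext y
      obtain ⟨g, rfl⟩ := QuotientGroup.mk_surjective y
      rw [mem_cosS _ _ (GG_le 1) (GG_normal 1), mem_cosS _ _ (GG_le (-1)) (GG_normal (-1))]
      have key : g⁻¹ * γ * g ∈ GO → a2 (g⁻¹ * γ * g) = 0 := by
        intro hg
        have h1 : g⁻¹ * t * g ∉ UU P2 := by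
          intro h2
          have h3 := UU_even h2
          rw [t1_nrd, ← hvP] at h3
          exact (Int.not_even_iff_odd.2 hodd) h3
        have h2 := chg_flip four_spec.1 ((mem_GO _).1 hg P2) h1
        have h3 : (g⁻¹ * t * g)⁻¹ * (g⁻¹ * γ * g) * (g⁻¹ * t * g) = g⁻¹ * γ * g := by
          calc _ = g⁻¹ * (t⁻¹ * (γ * t)) * g := by group
            _ = g⁻¹ * γ * g := by rw [← htγ', inv_mul_cancel_left]
        rw [h3] at h2
        have h4 : ∀ a : ZMod 3, a = -a → a = 0 := by decide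
        exact h4 _ h2
      constructor
      · rintro ⟨h1, h2, h3⟩
        refine ⟨h1, ?_, h3⟩
        rw [key h1] at h2 ⊢
        simp at h2 ⊢
        exact h2
      · rintro ⟨h1, h2, h3⟩
        refine ⟨h1, ?_, h3⟩
        rw [key h1] at h2 ⊢
        simp at h2 ⊢
        exact h2
    rw [this]
  · obtain ⟨n, hn⟩ := odd_exists
    have hn2 : Odd (ord P2 (nrd (n : AA))) := by
      rw [← Int.not_even_iff_odd]
      intro h
      apply hn P2 hP2
      unfold UU
      rw [if_pos hP2]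
      exact h
    set R : AAˣ → AAˣ → Prop := fun g g' => ∀ w, g'⁻¹ * (t1_at v t w * g * t1_at P2 n w) ∈ UU w
      with hR
    have hm : ∀ w u, (t1_at P2 n w)⁻¹ * u * t1_at P2 n w ∈ UU w ↔ u ∈ UU w := by
      intro w u
      by_cases h : w = P2
      · subst h
        exact t1_norm hP2 _ _
      · rw [t1_at_ne _ h]
        simp
    have hsγ : ∀ w, t1_at v t w * γ = γ * t1_at v t w := by
      intro w
      by_cases h : w = v
      · subst h
        rw [t1_at_self, htγ']
      · rw [t1_at_ne _ h]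
        simp
    have hsH : ∀ h ∈ (Subgroup.centralizer {Psi γ}).comap Psi, ∀ w,
        h * t1_at v t w = t1_at v t w * h := by
      intro h hh w
      by_cases hw : w = v
      · subst hw
        rw [t1_at_self, hH h hh]
      · rw [t1_at_ne _ hw]
        simp
    have hex : ∀ g, ∃ g', R g g' := fun g => t1_ex hv hodd hn2 hom2 g
    have hoddi : ∀ (w : Pl) (z : AAˣ), Odd (ord w (nrd (z : AA))) →
        Odd (ord w (nrd ((z⁻¹ : AAˣ) : AA))) := by
      intro w z hz
      have h1 := ord_mul w (nrd_ne z) (nrd_ne z⁻¹)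
      rw [← nrd_mul, Units.mul_inv, nrd_one, ord_one] at h1
      have h2 : ord w (nrd ((z⁻¹ : AAˣ) : AA)) = -ord w (nrd (z : AA)) := by linarith
      rw [h2]
      exact hz.neg
    have hex' : ∀ g', ∃ g, R g g' := by
      intro g'
      obtain ⟨g, hg⟩ := t1_ex hv (hoddi v t hodd) (hoddi P2 n hn2) hom2 g'
      refine ⟨g, fun w => ?_⟩
      have h1 := (UU w).inv_mem (hg w)
      rw [t1_at_inv, t1_at_inv] at h1
      rw [← hm] at h1
      convert h1 using 1
      group
    have hun : ∀ g g' g₁ g₁', R g g' → R g₁ g₁' → (g⁻¹ * g₁ ∈ GO ↔ g'⁻¹ * g₁' ∈ GO) := by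
      intro g g' g₁ g₁' h h1
      rw [mem_GO, mem_GO]
      refine forall_congr' fun w => ?_
      rw [← hm w (g⁻¹ * g₁)]
      have e : (t1_at P2 n w)⁻¹ * (g⁻¹ * g₁) * t1_at P2 n w =
          (g'⁻¹ * (t1_at v t w * g * t1_at P2 n w))⁻¹ * (g'⁻¹ * g₁') *
            (g₁'⁻¹ * (t1_at v t w * g₁ * t1_at P2 n w)) := by group
      rw [e, Subgroup.mul_mem_cancel_right _ (h1 w),
        Subgroup.mul_mem_cancel_left _ ((UU w).inv_mem (h w))]
    choose f hf using hex
    let F : AAˣ ⧸ GO → AAˣ ⧸ GO := fun y => ((f (Quotient.out y) : AAˣ) : AAˣ ⧸ GO)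
    have hFR : ∀ g g', R g g' → F (g : AAˣ ⧸ GO) = (g' : AAˣ ⧸ GO) := by
      intro g g' h
      show ((f (Quotient.out (g : AAˣ ⧸ GO)) : AAˣ) : AAˣ ⧸ GO) = g'
      rw [QuotientGroup.eq, ← hun _ _ _ _ (hf _) h, ← QuotientGroup.eq]
      exact QuotientGroup.out_eq' _
    have hbij : Function.Bijective F := by
      constructor
      · intro y y' h
        obtain ⟨g, rfl⟩ := QuotientGroup.mk_surjective y
        obtain ⟨g₁, rfl⟩ := QuotientGroup.mk_surjective y'
        rw [hFR g _ (hf g), hFR g₁ _ (hf g₁), QuotientGroup.eq, ← hun _ _ _ _ (hf g) (hf g₁)] at h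
        exact QuotientGroup.eq.2 h
      · intro y
        obtain ⟨g', rfl⟩ := QuotientGroup.mk_surjective y
        obtain ⟨g, hg⟩ := hex' g'
        exact ⟨(g : AAˣ ⧸ GO), hFR g g' hg⟩
    have hSS : ∀ y, y ∈ cosS (GG 1) GO γ ↔ F y ∈ cosS (GG (-1)) GO γ := by
      intro y
      obtain ⟨g, rfl⟩ := QuotientGroup.mk_surjective y
      have hg := hf g
      set g' := f g with hg'
      rw [hFR g g' hg, mem_cosS _ _ (GG_le 1) (GG_normal 1),
        mem_cosS _ _ (GG_le (-1)) (GG_normal (-1))]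
      -- conjugation
      have hcj : ∀ w, g'⁻¹ * γ * g' = ((g'⁻¹ * (t1_at v t w * g * t1_at P2 n w))⁻¹)⁻¹ *
          ((t1_at P2 n w)⁻¹ * (g⁻¹ * γ * g) * t1_at P2 n w) *
            (g'⁻¹ * (t1_at v t w * g * t1_at P2 n w))⁻¹ := by
        intro w
        calc g'⁻¹ * γ * g' = g'⁻¹ * (γ * t1_at v t w * (t1_at v t w)⁻¹) * g' := by group
          _ = g'⁻¹ * (t1_at v t w * γ * (t1_at v t w)⁻¹) * g' := by rw [hsγ]
          _ = _ := by group
      have hmem : ∀ w, g⁻¹ * γ * g ∈ UU w ↔ g'⁻¹ * γ * g' ∈ UU w := by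
        intro w
        rw [hcj w, Subgroup.mul_mem_cancel_right _ ((UU w).inv_mem (hg w)),
          Subgroup.mul_mem_cancel_left _ ((UU w).inv_mem ((UU w).inv_mem (hg w))), hm]
      have hGO : g⁻¹ * γ * g ∈ GO ↔ g'⁻¹ * γ * g' ∈ GO := by
        rw [mem_GO, mem_GO]
        exact forall_congr' hmem
      have hal : ∀ (w : Pl) (m : ℕ) (η : KK) (k : ℕ), IsCh w m η k → w ≠ P2 → g⁻¹ * γ * g ∈ GO →
          al w m η k (ww ((g'⁻¹ * γ * g' : AAˣ) : AA)) = al w m η k (ww ((g⁻¹ * γ * g : AAˣ) : AA)) := by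
        intro w m η k hch hw hG
        have h1 := (mem_GO _).1 hG w
        rw [hcj w]
        have h2 : (t1_at P2 n w)⁻¹ * (g⁻¹ * γ * g) * t1_at P2 n w = g⁻¹ * γ * g := by
          rw [t1_at_ne _ hw]
          simp
        rw [h2]
        exact chg_conj hch h1 ((UU w).inv_mem (hg w))
      have hal2 : g⁻¹ * γ * g ∈ GO → a2 (g'⁻¹ * γ * g') = -a2 (g⁻¹ * γ * g) := by
        intro hG
        have h1 := (mem_GO _).1 hG P2
        unfold a2
        rw [hcj P2, t1_at_self]
        have h3 : n⁻¹ * (g⁻¹ * γ * g) * n ∈ UU P2 := (t1_norm hP2 _ _).2 h1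
        have h4 := hg P2
        rw [t1_at_self] at h4
        rw [chg_conj four_spec.1 h3 ((UU P2).inv_mem h4)]
        exact chg_flip four_spec.1 h1 (hn P2 hP2)
      have h17 : P17 ≠ P2 := (four_spec.2.2.2.2.2.1).symm
      have h3' : P3 ≠ P2 := (four_spec.2.2.2.2.2.2.1).symm
      have h23 : P23 ≠ P2 := (four_spec.2.2.2.2.2.2.2.1).symm
      have hc4 : g⁻¹ * γ * g ∈ GO → (a17 (g'⁻¹ * γ * g') = a17 (g⁻¹ * γ * g) ∧
          a3 (g'⁻¹ * γ * g') = a3 (g⁻¹ * γ * g) ∧ a23 (g'⁻¹ * γ * g') = a23 (g⁻¹ * γ * g)) :=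
        fun hG => ⟨hal P17 _ _ _ four_spec.2.1 h17 hG, hal P3 _ _ _ four_spec.2.2.1 h3' hG,
          hal P23 _ _ _ four_spec.2.2.2.1 h23 hG⟩
      constructor
      · rintro ⟨h1, h2, h3⟩
        obtain ⟨e1, e2, e3⟩ := hc4 h1
        refine ⟨hGO.1 h1, ?_, ?_⟩
        · rw [hal2 h1, e1]
          simp at h2 ⊢
          linear_combination -h2
        · rw [e2, e3]
          exact h3
      · rintro ⟨h1, h2, h3⟩
        have h0 := hGO.2 h1
        obtain ⟨e1, e2, e3⟩ := hc4 h0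
        rw [hal2 h0, e1] at h2
        rw [e2, e3] at h3
        refine ⟨h0, ?_, h3⟩
        simp at h2 ⊢
        linear_combination -h2
    have hF : ∀ h ∈ (Subgroup.centralizer {Psi γ}).comap Psi, ∀ y, F (h • y) = h • F y := by
      intro h hh y
      obtain ⟨g, rfl⟩ := QuotientGroup.mk_surjective y
      have e1 : h • ((g : AAˣ) : AAˣ ⧸ GO) = ((h * g : AAˣ) : AAˣ ⧸ GO) := rfl
      have e2 : h • ((f g : AAˣ) : AAˣ ⧸ GO) = ((h * f g : AAˣ) : AAˣ ⧸ GO) := rfl
      have hRh : R (h * g) (h * f g) := by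
        intro w
        have h1 := hf g w
        have e : (h * f g)⁻¹ * (t1_at v t w * (h * g) * t1_at P2 n w) =
            (f g)⁻¹ * (t1_at v t w * g * t1_at P2 n w) := by
          calc _ = (f g)⁻¹ * h⁻¹ * (t1_at v t w * h) * g * t1_at P2 n w := by group
            _ = (f g)⁻¹ * h⁻¹ * (h * t1_at v t w) * g * t1_at P2 n w := by rw [hsH h hh w]
            _ = _ := by group
        rw [e]
        exact h1
      rw [e1, hFR _ _ hRh, hFR g _ (hf g), e2]
    exact ms_equiv _ _ hC _ _ hS hS' (Equiv.ofBijective F hbij) hF hSS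

end

end Pool.Agent.Work.MP_14c213_gt
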