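import Pool.Agent.Work.MP_14c213_gt.B.LocPhi
import Pool.Agent.Work.MP_14c213_gt.B.RnB

/-!
Lattices in K_v = k_v + k_v ζ, v ∉ SS4 (so 3 is a unit at v). mx x₀ x₁ is multiplication by x₀ + x₁ζ in the basis 1, ζ.
Existence: let m₁, m₂ be the columns of M (elements of K_v). Find w in the lattice (w = m₁, m₂ or m₁ + m₂) such
that m₁/w, m₂/w are integral: take the one of the three with maximal |N w| (an element of K_v is integral if its
norm and trace are, since 3 is a unit; N w ≠ 0 as the discriminant of the norm form is -3).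
Then mx(w)⁻¹ M has integral entries and its column lattice contains
(1, 0): column operations give diag(1, d), d = p^n unit.
Uniqueness: the entries of diag(1, p^-n) mx diag(1, p^m) are x₀, -p^m x₁, p^-n x₁, p^(m-n) (x₀ - x₁); after scaling z
= 1 they are integral and p^(m-n) N x is a unit. m > n: N x not integral, contradiction. m < n: x₁ ∈ p^n,
x₀ ∈ p^(n-m), so N x ∈ p^(2(n-m)), contradiction.
-/

namespace Pool.Agent.Work.MP_14c213_gt

open Matrix IsDedekindDomain
open scoped Matrix NumberField QuadraticAlgebra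

noncomputable section

/-- Multiplication by `x₀ + x₁ ζ`. -/
def mx {v : Pl} (x₀ x₁ : Kv v) : Matrix (Fin 2) (Fin 2) (Kv v) := !![x₀, -x₁; x₁, x₀ - x₁]

/-- Integral invertible matrices. -/
def GLO {v : Pl} (U : Matrix (Fin 2) (Fin 2) (Kv v)) : Prop :=
  (∀ i j, Valued.v (U i j) ≤ 1) ∧ Valued.v U.det = 1

private theorem treeA_three {v : Pl} (hv : v ∉ SS4) : Valued.v (3 : Kv v) = 1 := by
  have h3 : (3 : 𝓞 kk) ∉ v.asIdeal := fun h => hv (three_mem v h).1
  have h := v.valuation_lt_one_iff_mem (K := kk) (3 : 𝓞 kk)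
  have h2 := v.valuation_le_one (K := kk) (3 : 𝓞 kk)
  have h4 : v.valuation kk (algebraMap (𝓞 kk) kk 3) = 1 :=
    le_antisymm h2 (not_lt.1 fun hh => h3 (h.1 hh))
  rw [map_ofNat] at h4
  have := Kv_val v 3
  rw [map_ofNat] at this
  rw [this, h4]

section abs
variable {F : Type*} [Field F] (V : Valuation F (WithZero (Multiplicative ℤ)))

private theorem treeA_int (h3 : V 3 = 1) {x y : F} (ht : V (2 * x - y) ≤ 1)
    (hn : V (x ^ 2 - x * y + y ^ 2) ≤ 1) : V x ≤ 1 ∧ V y ≤ 1 := by
  have h4 : V 4 ≤ 1 := by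
    have : (4 : F) = 3 + 1 := by norm_num
    rw [this]
    exact V.map_add_le h3.le (by simp)
  have hy : V y ≤ 1 := by
    have e : 3 * y ^ 2 = 4 * (x ^ 2 - x * y + y ^ 2) - (2 * x - y) ^ 2 := by ring
    have h5 : V (3 * y ^ 2) ≤ 1 := by
      rw [e]
      refine V.map_sub_le ?_ ?_
      · rw [map_mul]; exact mul_le_one' h4 hn
      · rw [map_pow]; exact pow_le_one' ht 2
    rw [map_mul, h3, one_mul, map_pow] at h5
    exact (pow_le_one_iff (by norm_num)).1 h5
  refine ⟨?_, hy⟩
  by_contra hx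
  push Not at hx
  have hx0 : 0 < V x := lt_trans zero_lt_one hx
  have e : x ^ 2 = (x ^ 2 - x * y + y ^ 2) + (x * y - y ^ 2) := by ring
  have h5 : V (x ^ 2) ≤ V x := by
    rw [e]
    refine V.map_add_le (hn.trans hx.le) (V.map_sub_le ?_ ?_)
    · rw [map_mul]; exact mul_le_of_le_one_right' hy
    · rw [map_pow]; exact (pow_le_one' hy 2).trans hx.le
  rw [map_pow, pow_two] at h5
  have h6 : V x * 1 < V x * V x := by
    exact mul_lt_mul_of_pos_left hx hx0
  rw [mul_one] at h6
  exact absurd h5 (not_le.2 h6)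

private def treeA_N (x y : F) : F := x ^ 2 - x * y + y ^ 2

/-- `w⁻¹ m` is integral -/
private theorem treeA_quot (h3 : V 3 = 1) {w₀ w₁ m₀ m₁ : F} (hw : treeA_N w₀ w₁ ≠ 0)
    (h1 : V (treeA_N m₀ m₁) ≤ V (treeA_N w₀ w₁))
    (h2 : V (treeA_N (m₀ + w₀) (m₁ + w₁)) ≤ V (treeA_N w₀ w₁) ∨
      V (treeA_N (w₀ - m₀) (w₁ - m₁)) ≤ V (treeA_N w₀ w₁)) :
    V ((w₀ * m₀ - w₁ * m₀ + w₁ * m₁) / treeA_N w₀ w₁) ≤ 1 ∧
      V ((w₀ * m₁ - w₁ * m₀) / treeA_N w₀ w₁) ≤ 1 := by
  have hwp : 0 < V (treeA_N w₀ w₁) := by simpa [zero_lt_iff] using hw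
  set D := treeA_N w₀ w₁ with hD
  set x := (w₀ * m₀ - w₁ * m₀ + w₁ * m₁) / D with hx
  set y := (w₀ * m₁ - w₁ * m₀) / D with hy
  have ex : x * D = w₀ * m₀ - w₁ * m₀ + w₁ * m₁ := by rw [hx]; field_simp
  have ey : y * D = w₀ * m₁ - w₁ * m₀ := by rw [hy]; field_simp
  have eN : (x ^ 2 - x * y + y ^ 2) = treeA_N m₀ m₁ / D := by
    rw [eq_div_iff hw]
    have : (x ^ 2 - x * y + y ^ 2) * D * D = treeA_N m₀ m₁ * D := by
      have e1 : (x ^ 2 - x * y + y ^ 2) * D * D = (x * D) ^ 2 - (x * D) * (y * D) + (y * D) ^ 2 := by ring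
      rw [e1, ex, ey, hD]
      unfold treeA_N
      ring
    exact mul_right_cancel₀ hw this
  have eT1 : 2 * x - y = treeA_N (m₀ + w₀) (m₁ + w₁) / D - 1 - treeA_N m₀ m₁ / D := by
    have e1 : (2 * x - y) * D = treeA_N (m₀ + w₀) (m₁ + w₁) - D - treeA_N m₀ m₁ := by
      have : (2 * x - y) * D = 2 * (x * D) - y * D := by ring
      rw [this, ex, ey, hD]
      unfold treeA_N
      ring
    field_simp
    linear_combination e1
  have eT2 : 2 * x - y = 1 + treeA_N m₀ m₁ / D - treeA_N (w₀ - m₀) (w₁ - m₁) / D := by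
    have e1 : (2 * x - y) * D = D + treeA_N m₀ m₁ - treeA_N (w₀ - m₀) (w₁ - m₁) := by
      have : (2 * x - y) * D = 2 * (x * D) - y * D := by ring
      rw [this, ex, ey, hD]
      unfold treeA_N
      ring
    field_simp
    linear_combination e1
  have q : ∀ z : F, V z ≤ V D → V (z / D) ≤ 1 := by
    intro z hz
    rw [map_div₀]
    exact div_le_one_of_le₀ hz zero_le
  refine treeA_int V h3 ?_ ?_
  · rcases h2 with h2 | h2
    · rw [eT1]
      exact V.map_sub_le (V.map_sub_le (q _ h2) (by simp)) (q _ h1)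
    · rw [eT2]
      exact V.map_sub_le (V.map_add_le (by simp) (q _ h1)) (q _ h2)
  · rw [eN]
    exact q _ h1

private theorem treeA_max (h3 : V 3 = 1) {a b c d : F} (hM : a * d - b * c ≠ 0) :
    (treeA_N a c ≠ 0 ∧ V (treeA_N b d) ≤ V (treeA_N a c) ∧ V (treeA_N (a + b) (c + d)) ≤ V (treeA_N a c)) ∨
    (treeA_N b d ≠ 0 ∧ V (treeA_N a c) ≤ V (treeA_N b d) ∧ V (treeA_N (a + b) (c + d)) ≤ V (treeA_N b d)) ∨
    (treeA_N (a + b) (c + d) ≠ 0 ∧ V (treeA_N a c) ≤ V (treeA_N (a + b) (c + d)) ∧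
      V (treeA_N b d) ≤ V (treeA_N (a + b) (c + d))) := by
  have hne : ¬ (treeA_N a c = 0 ∧ treeA_N b d = 0 ∧ treeA_N (a + b) (c + d) = 0) := by
    rintro ⟨h1, h2, h4⟩
    have e : 3 * (a * d - b * c) ^ 2 = 4 * treeA_N a c * treeA_N b d
      - (treeA_N (a + b) (c + d) - treeA_N a c - treeA_N b d) ^ 2 := by
      unfold treeA_N; ring
    rw [h1, h2, h4] at e
    have h30 : (3 : F) ≠ 0 := by
      intro h
      rw [h, map_zero] at h3
      exact zero_ne_one h3
    have : (a * d - b * c) ^ 2 = 0 := by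
      have : 3 * (a * d - b * c) ^ 2 = 0 := by rw [e]; ring
      exact (mul_eq_zero.1 this).resolve_left h30
    exact hM (pow_eq_zero_iff (by norm_num) |>.1 this)
  have key : ∀ x y : F, V y ≤ V x → x = 0 → y = 0 := by
    intro x y h hx
    rw [hx, map_zero] at h
    exact (V.zero_iff).1 (le_antisymm h zero_le)
  rcases le_total (V (treeA_N a c)) (V (treeA_N b d)) with h1 | h1
  · rcases le_total (V (treeA_N b d)) (V (treeA_N (a + b) (c + d))) with h2 | h2
    · right; right
      refine ⟨fun h0 => hne ⟨key _ _ (h1.trans h2) h0, key _ _ h2 h0, h0⟩, h1.trans h2, h2⟩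
    · right; left
      refine ⟨fun h0 => hne ⟨key _ _ h1 h0, h0, key _ _ h2 h0⟩, h1, h2⟩
  · rcases le_total (V (treeA_N a c)) (V (treeA_N (a + b) (c + d))) with h2 | h2
    · right; right
      refine ⟨fun h0 => hne ⟨key _ _ h2 h0, key _ _ (h1.trans h2) h0, h0⟩, h2, h1.trans h2⟩
    · left
      refine ⟨fun h0 => hne ⟨h0, key _ _ h1 h0, key _ _ h2 h0⟩, h1, h2⟩

/-- `y = p^n u` -/
private theorem treeA_unif {p y : F} (hp : V p = WithZero.exp (-1 : ℤ)) (hy0 : y ≠ 0) (hy : V y ≤ 1) :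
    ∃ (n : ℕ) (u : F), V u = 1 ∧ y = p ^ n * u := by
  have hp0 : p ≠ 0 := by
    rintro rfl
    rw [map_zero] at hp
    exact WithZero.exp_ne_zero hp.symm
  have hV : V y ≠ 0 := by simpa using hy0
  have e := WithZero.exp_log hV
  have hl : WithZero.log (V y) ≤ 0 := by
    rw [← e, ← WithZero.exp_zero, WithZero.exp_le_exp] at hy
    exact hy
  refine ⟨(-WithZero.log (V y)).toNat, y / p ^ (-WithZero.log (V y)).toNat, ?_, ?_⟩
  · rw [map_div₀, map_pow, hp, ← WithZero.exp_nsmul, nsmul_eq_mul, Int.toNat_of_nonneg (by linarith)]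
    rw [mul_neg, mul_one, neg_neg, e]
    exact div_self hV
  · field_simp

private theorem treeA_mat {R : Type*} {a b c d a' b' c' d' : R} :
    !![a, b; c, d] = !![a', b'; c', d'] ↔ a = a' ∧ b = b' ∧ c = c' ∧ d = d' := by
  constructor
  · intro h
    refine ⟨?_, ?_, ?_, ?_⟩
    · simpa using congrFun (congrFun h 0) 0
    · simpa using congrFun (congrFun h 0) 1
    · simpa using congrFun (congrFun h 1) 0
    · simpa using congrFun (congrFun h 1) 1
  · rintro ⟨rfl, rfl, rfl, rfl⟩
    rfl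

private theorem treeA_smul (z a b c d : F) : z • !![a, b; c, d] = !![z * a, z * b; z * c, z * d] := by
  ext i j
  fin_cases i <;> fin_cases j <;> simp

end abs

private theorem treeA_p {v : Pl} {p : kk} (hp : ord v p = 1) :
    Valued.v (algebraMap kk (Kv v) p) = WithZero.exp (-1 : ℤ) := by
  have hp0 : p ≠ 0 := by
    rintro rfl
    simp [ord] at hp
  have h : v.valuation kk p ≠ 0 := by simpa using hp0
  rw [Kv_val, ← WithZero.exp_log h]
  unfold ord at hp
  congr 1
  linarith

theorem tree_exists (v : Pl) (hv : v ∉ SS4) (p : kk) (hp : ord v p = 1)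
    (M : Matrix (Fin 2) (Fin 2) (Kv v)) (hM : M.det ≠ 0) :
    ∃ (n : ℕ) (x₀ x₁ : Kv v) (U : Matrix (Fin 2) (Fin 2) (Kv v)), (mx x₀ x₁).det ≠ 0 ∧ GLO U ∧
      M = mx x₀ x₁ * !![1, 0; 0, algebraMap kk (Kv v) p ^ n] * U := by
  have h3 := treeA_three hv
  have hP := treeA_p hp
  set P := algebraMap kk (Kv v) p with hPd
  obtain ⟨a, ha⟩ : ∃ a, a = M 0 0 := ⟨_, rfl⟩
  obtain ⟨b, hb⟩ : ∃ b, b = M 0 1 := ⟨_, rfl⟩
  obtain ⟨c, hc⟩ : ∃ c, c = M 1 0 := ⟨_, rfl⟩
  obtain ⟨d, hd⟩ : ∃ d, d = M 1 1 := ⟨_, rfl⟩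
  have eM : M = !![a, b; c, d] := by
    rw [ha, hb, hc, hd]; exact Matrix.eta_fin_two M
  have hdet : a * d - b * c ≠ 0 := by
    rw [eM, Matrix.det_fin_two_of] at hM
    exact hM
  have hmx : ∀ x y : Kv v, (mx x y).det = treeA_N x y := by
    intro x y
    rw [mx, Matrix.det_fin_two_of, treeA_N]; ring
  have one : Valued.v (1 : Kv v) = 1 := map_one _
  rcases treeA_max Valued.v h3 hdet with ⟨h0, h1, h2⟩ | ⟨h0, h1, h2⟩ | ⟨h0, h1, h2⟩
  · -- w = first column
    obtain ⟨k0, k1⟩ := treeA_quot Valued.v h3 h0 h1 (Or.inl (by rwa [add_comm b a, add_comm d c]))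
    have hy0 : (a * d - c * b) / treeA_N a c ≠ 0 := div_ne_zero (by rwa [mul_comm c b]) h0
    obtain ⟨n, u, hu, hyu⟩ := treeA_unif Valued.v hP hy0 k1
    set x := (a * b - c * b + c * d) / treeA_N a c with hx
    set y := (a * d - c * b) / treeA_N a c with hy
    have ex : x * treeA_N a c = a * b - c * b + c * d := by rw [hx]; field_simp
    have ey : y * treeA_N a c = a * d - c * b := by rw [hy]; field_simp
    refine ⟨n, a, c, !![1, x; 0, u], ?_, ⟨?_, ?_⟩, ?_⟩
    · rw [hmx]; exact h0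
    · intro i j
      fin_cases i <;> fin_cases j <;> simp [k0, hu]
    · rw [Matrix.det_fin_two_of]; simp [hu]
    · rw [eM, mx, Matrix.mul_fin_two, Matrix.mul_fin_two]
      have hN : treeA_N a c = a ^ 2 - a * c + c ^ 2 := rfl
      refine treeA_mat.2 ⟨by ring, ?_, by ring, ?_⟩
      · have : b * treeA_N a c = (a * x - c * y) * treeA_N a c := by
          linear_combination (-a) * ex + c * ey + b * hN
        have := mul_right_cancel₀ h0 this
        linear_combination this + (-c) * hyu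
      · have : d * treeA_N a c = (c * x + (a - c) * y) * treeA_N a c := by
          linear_combination (-c) * ex - (a - c) * ey + d * hN
        have := mul_right_cancel₀ h0 this
        linear_combination this + (a - c) * hyu
  · -- w = second column
    obtain ⟨k0, k1⟩ := treeA_quot Valued.v h3 h0 h1 (Or.inl h2)
    have hy0 : (b * c - d * a) / treeA_N b d ≠ 0 := div_ne_zero (by
      intro h; apply hdet; linear_combination -h) h0
    obtain ⟨n, u, hu, hyu⟩ := treeA_unif Valued.v hP hy0 k1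
    set x := (b * a - d * a + d * c) / treeA_N b d with hx
    set y := (b * c - d * a) / treeA_N b d with hy
    have ex : x * treeA_N b d = b * a - d * a + d * c := by rw [hx]; field_simp
    have ey : y * treeA_N b d = b * c - d * a := by rw [hy]; field_simp
    refine ⟨n, b, d, !![x, 1; u, 0], ?_, ⟨?_, ?_⟩, ?_⟩
    · rw [hmx]; exact h0
    · intro i j
      fin_cases i <;> fin_cases j <;> simp [k0, hu]
    · rw [Matrix.det_fin_two_of]; simp [hu]
    · rw [eM, mx, Matrix.mul_fin_two, Matrix.mul_fin_two]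
      have hN : treeA_N b d = b ^ 2 - b * d + d ^ 2 := rfl
      refine treeA_mat.2 ⟨?_, by ring, ?_, by ring⟩
      · have : a * treeA_N b d = (b * x - d * y) * treeA_N b d := by
          linear_combination (-b) * ex + d * ey + a * hN
        have := mul_right_cancel₀ h0 this
        linear_combination this + (-d) * hyu
      · have : c * treeA_N b d = (d * x + (b - d) * y) * treeA_N b d := by
          linear_combination (-d) * ex - (b - d) * ey + c * hN
        have := mul_right_cancel₀ h0 this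
        linear_combination this + (b - d) * hyu
  · -- w = sum
    have e1 : a + b - a = b := by ring
    have e2 : c + d - c = d := by ring
    obtain ⟨k0, k1⟩ := treeA_quot Valued.v h3 h0 h1 (Or.inr (by rwa [e1, e2]))
    set A := a + b with hA
    set C := c + d with hC
    have hy0 : (A * c - C * a) / treeA_N A C ≠ 0 := div_ne_zero (by
      intro h; apply hdet; rw [hA, hC] at h; linear_combination -h) h0
    obtain ⟨n, u, hu, hyu⟩ := treeA_unif Valued.v hP hy0 k1
    set x := (A * a - C * a + C * c) / treeA_N A C with hx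
    set y := (A * c - C * a) / treeA_N A C with hy
    have ex : x * treeA_N A C = A * a - C * a + C * c := by rw [hx]; field_simp
    have ey : y * treeA_N A C = A * c - C * a := by rw [hy]; field_simp
    have hN : treeA_N A C = A ^ 2 - A * C + C ^ 2 := rfl
    have ha' : a = A * x - C * y := by
      have : a * treeA_N A C = (A * x - C * y) * treeA_N A C := by
        linear_combination (-A) * ex + C * ey + a * hN
      exact mul_right_cancel₀ h0 this
    have hc' : c = C * x + (A - C) * y := by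
      have : c * treeA_N A C = (C * x + (A - C) * y) * treeA_N A C := by
        linear_combination (-C) * ex - (A - C) * ey + c * hN
      exact mul_right_cancel₀ h0 this
    refine ⟨n, A, C, !![x, 1 - x; u, -u], ?_, ⟨?_, ?_⟩, ?_⟩
    · rw [hmx]; exact h0
    · intro i j
      have k2 : Valued.v (1 - x) ≤ 1 := Valuation.map_sub_le _ one.le k0
      fin_cases i <;> fin_cases j <;> simp [k0, hu, k2]
    · rw [Matrix.det_fin_two_of]
      have : x * -u - (1 - x) * u = -u := by ring
      rw [this, Valuation.map_neg, hu]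
    · rw [eM, mx, Matrix.mul_fin_two, Matrix.mul_fin_two]
      refine treeA_mat.2 ⟨?_, ?_, ?_, ?_⟩
      · linear_combination ha' - C * hyu
      · linear_combination -ha' - hA + C * hyu
      · linear_combination hc' + (A - C) * hyu
      · linear_combination -hc' - hC - (A - C) * hyu

theorem tree_unique (v : Pl) (p : kk) (hp : ord v p = 1) (m n : ℕ) (x₀ x₁ z : Kv v) (hz : z ≠ 0)
    (U : Matrix (Fin 2) (Fin 2) (Kv v)) (hU : GLO U)
    (h : mx x₀ x₁ * !![1, 0; 0, algebraMap kk (Kv v) p ^ m] =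
      z • (!![1, 0; 0, algebraMap kk (Kv v) p ^ n] * U)) :
    n = m ∧ Valued.v (x₀ / z) ≤ 1 ∧ Valued.v (x₁ / z) ≤ Valued.v (algebraMap kk (Kv v) p ^ n) ∧
      Valued.v ((mx x₀ x₁).det / z ^ 2) = 1 := by
  have hP := treeA_p hp
  set P := algebraMap kk (Kv v) p with hPd
  have hP0 : P ≠ 0 := by
    intro h0
    rw [h0, map_zero] at hP
    exact WithZero.exp_ne_zero hP.symm
  obtain ⟨hU1, hU2⟩ := hU
  obtain ⟨a, ha⟩ : ∃ a, a = U 0 0 := ⟨_, rfl⟩
  obtain ⟨b, hb⟩ : ∃ b, b = U 0 1 := ⟨_, rfl⟩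
  obtain ⟨c, hc⟩ : ∃ c, c = U 1 0 := ⟨_, rfl⟩
  obtain ⟨d, hd⟩ : ∃ d, d = U 1 1 := ⟨_, rfl⟩
  have eU : U = !![a, b; c, d] := by
    rw [ha, hb, hc, hd]; exact Matrix.eta_fin_two U
  have va : Valued.v a ≤ 1 := ha ▸ hU1 0 0
  have vb : Valued.v b ≤ 1 := hb ▸ hU1 0 1
  have vc : Valued.v c ≤ 1 := hc ▸ hU1 1 0
  have vd : Valued.v d ≤ 1 := hd ▸ hU1 1 1
  have vdet : Valued.v (a * d - b * c) = 1 := by
    rw [eU, Matrix.det_fin_two_of] at hU2
    exact hU2
  rw [eU, mx, Matrix.mul_fin_two, Matrix.mul_fin_two, treeA_smul] at h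
  obtain ⟨h00, h01, h10, h11⟩ := treeA_mat.1 h
  set X := x₀ / z with hX
  set Y := x₁ / z with hY
  have eX : x₀ = z * X := by rw [hX]; field_simp
  have eY : x₁ = z * Y := by rw [hY]; field_simp
  have i00 : X = a := by
    apply mul_left_cancel₀ hz; rw [← eX]; linear_combination h00
  have i01 : -(Y * P ^ m) = b := by
    apply mul_left_cancel₀ hz; linear_combination h01 + P ^ m * eY
  have i10 : Y = P ^ n * c := by
    apply mul_left_cancel₀ hz; rw [← eY]; linear_combination h10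
  have i11 : (X - Y) * P ^ m = P ^ n * d := by
    apply mul_left_cancel₀ hz; linear_combination h11 - P ^ m * eX + P ^ m * eY
  have vX : Valued.v X ≤ 1 := i00 ▸ va
  have vY : Valued.v Y ≤ Valued.v (P ^ n) := by
    rw [i10, map_mul]; exact mul_le_of_le_one_right' vc
  have hPn : ∀ k : ℕ, Valued.v (P ^ k) = WithZero.exp (-(k : ℤ)) := by
    intro k
    rw [map_pow, hP, ← WithZero.exp_nsmul]; simp
  have hdet0 : (mx x₀ x₁).det / z ^ 2 = X ^ 2 - X * Y + Y ^ 2 := by
    rw [mx, Matrix.det_fin_two_of, eX, eY]; field_simp; ring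
  have eN : (X ^ 2 - X * Y + Y ^ 2) * P ^ m = P ^ n * (a * d - b * c) := by
    have e1 : P ^ n * (a * d - b * c) = a * (P ^ n * d) - b * (P ^ n * c) := by ring
    rw [e1, ← i11, ← i10, ← i01, ← i00]; ring
  have vN : Valued.v (X ^ 2 - X * Y + Y ^ 2) * WithZero.exp (-(m : ℤ)) = WithZero.exp (-(n : ℤ)) := by
    rw [← hPn m, ← map_mul, eN, map_mul, vdet, mul_one, hPn]
  have vN2 : Valued.v (X ^ 2 - X * Y + Y ^ 2) = WithZero.exp ((m : ℤ) - n) := by
    have e1 : WithZero.exp (-(n : ℤ)) = WithZero.exp ((m : ℤ) - n) * WithZero.exp (-(m : ℤ)) := by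
      rw [← WithZero.exp_add]; congr 1; ring
    rw [e1] at vN
    exact mul_right_cancel₀ WithZero.exp_ne_zero vN
  have hn1 : WithZero.exp (-(n : ℤ)) ≤ (1 : WithZero (Multiplicative ℤ)) := by
    rw [← WithZero.exp_zero, WithZero.exp_le_exp]; omega
  have vY1 : Valued.v Y ≤ 1 := by
    refine vY.trans ?_
    rw [hPn]; exact hn1
  have hle : m ≤ n := by
    have : Valued.v (X ^ 2 - X * Y + Y ^ 2) ≤ 1 := by
      refine Valuation.map_add_le _ (Valuation.map_sub_le _ ?_ ?_) ?_
      · rw [map_pow]; exact pow_le_one' vX 2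
      · rw [map_mul]; exact mul_le_one' vX vY1
      · rw [map_pow]; exact pow_le_one' vY1 2
    rw [vN2, ← WithZero.exp_zero, WithZero.exp_le_exp] at this
    omega
  have hge : n ≤ m := by
    by_contra hc'
    push Not at hc'
    have q1 : Valued.v (X - Y) ≤ WithZero.exp ((m : ℤ) - n) := by
      have e1 : X - Y = P ^ (n - m) * d := by
        have : (X - Y) * P ^ m = P ^ (n - m) * d * P ^ m := by
          rw [i11]
          have : P ^ n = P ^ (n - m) * P ^ m := by rw [← pow_add]; congr 1; omega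
          rw [this]; ring
        exact mul_right_cancel₀ (pow_ne_zero _ hP0) this
      rw [e1, map_mul, hPn]
      refine (mul_le_of_le_one_right' vd).trans ?_
      rw [WithZero.exp_le_exp]
      omega
    have q2 : Valued.v Y ≤ WithZero.exp ((m : ℤ) - n) := by
      refine vY.trans ?_
      rw [hPn, WithZero.exp_le_exp]; omega
    have q3 : Valued.v X ≤ WithZero.exp ((m : ℤ) - n) := by
      have : X = (X - Y) + Y := by ring
      rw [this]
      exact Valuation.map_add_le _ q1 q2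
    have q4 : Valued.v (X ^ 2 - X * Y + Y ^ 2) ≤ WithZero.exp (((m : ℤ) - n) + ((m : ℤ) - n)) := by
      have : X ^ 2 - X * Y + Y ^ 2 = X * (X - Y) + Y * Y := by ring
      rw [this, WithZero.exp_add]
      refine Valuation.map_add_le _ ?_ ?_
      · rw [map_mul]; exact mul_le_mul' q3 q1
      · rw [map_mul]; exact mul_le_mul' q2 q2
    rw [vN2, WithZero.exp_le_exp] at q4
    omega
  have hnm : n = m := le_antisymm hge hle
  refine ⟨hnm, vX, vY, ?_⟩
  rw [hdet0, vN2, hnm, sub_self, WithZero.exp_zero]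

end

end Pool.Agent.Work.MP_14c213_gt
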