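import Pool.Agent.Work.MP_14c213_gt.B.TreeA
import Pool.Agent.Work.MP_14c213_gt.B.SplGen
import Pool.Agent.Work.MP_14c213_gt.B.KvTop

/-!
Globalisation of TreeA through φ (LocPhi): g ∈ UU v iff φ g = z U with z ∈ k^×, GLO U. d n: by density an
element of A with φ(d n) = diag(1, p^n) U, U near 1. Last clause: φ g = mx(x) diag(1, p^n) U; approximate x by
t ∈ K^× so well that mx(t)⁻¹ mx(x) is congruent to 1 modulo p^n; then write t = x y with y ∈ Rn v 0 and
x = q^a, q from split_gen (om v = 1; q is a unit at all w ≠ v, so inKu x ∈ UU w), x = 1 if om v = -1.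
-/

namespace Pool.Agent.Work.MP_14c213_gt

open Matrix IsDedekindDomain
open scoped Matrix NumberField QuadraticAlgebra

noncomputable section

/-! The global part. -/

private theorem TreeB_val (v : Pl) {x : kk} (hx : x ≠ 0) :
    v.valuation kk x = WithZero.exp (-(ord v x)) := by
  have h : v.valuation kk x ≠ 0 := by simpa using hx
  rw [ord, neg_neg, WithZero.exp_log h]

private theorem TreeB_ord (v : Pl) {x : kk} {n : ℤ} (h : v.valuation kk x = WithZero.exp (-n)) :
    x ≠ 0 ∧ ord v x = n := by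
  constructor
  · rintro rfl
    rw [map_zero] at h
    exact WithZero.exp_ne_zero h.symm
  · rw [ord, h, WithZero.log_exp, neg_neg]

private theorem TreeB_noroot (v : Pl) (hv : Ideal.absNorm v.asIdeal % 3 ≠ 1)
    (h3 : (3 : 𝓞 kk) ∉ v.asIdeal) {a b : 𝓞 kk} (h : a ^ 2 - a * b + b ^ 2 ∈ v.asIdeal) :
    a ∈ v.asIdeal ∧ b ∈ v.asIdeal := by
  classical
  have hmax : v.asIdeal.IsMaximal := v.isMaximal
  let _ : Field (𝓞 kk ⧸ v.asIdeal) := Ideal.Quotient.field v.asIdeal
  have hfin : Finite (𝓞 kk ⧸ v.asIdeal) := Ring.HasFiniteQuotients.finiteQuotient v.ne_bot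
  let _ : Fintype (𝓞 kk ⧸ v.asIdeal) := Fintype.ofFinite _
  have habs : Ideal.absNorm v.asIdeal = Fintype.card (𝓞 kk ⧸ v.asIdeal) := by
    rw [Ideal.absNorm_apply, Submodule.cardQuot_apply, Nat.card_eq_fintype_card]
  rw [← Ideal.Quotient.eq_zero_iff_mem] at h h3
  rw [← Ideal.Quotient.eq_zero_iff_mem, ← Ideal.Quotient.eq_zero_iff_mem]
  rw [map_add, map_sub, map_pow, map_mul, map_pow] at h
  generalize Ideal.Quotient.mk v.asIdeal a = A at *
  generalize Ideal.Quotient.mk v.asIdeal b = B at *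
  have h3' : (3 : 𝓞 kk ⧸ v.asIdeal) ≠ 0 := by
    intro h4
    apply h3
    rw [map_ofNat]
    exact h4
  have hB : B = 0 := by
    by_contra hB
    have h1 : (-A / B) ^ 2 + (-A / B) + 1 = 0 := by
      field_simp
      linear_combination h
    set ρ := -A / B
    have h2 : ρ ^ 3 = 1 := by linear_combination (ρ - 1) * h1
    have hρ0 : ρ ≠ 0 := by
      intro h0
      rw [h0] at h1
      simp at h1
    have hρ1 : ρ ≠ 1 := by
      intro h0
      rw [h0] at h1
      apply h3'
      linear_combination h1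
    let u : (𝓞 kk ⧸ v.asIdeal)ˣ := Units.mk0 ρ hρ0
    have hu3 : u ^ 3 = 1 := Units.ext (by simpa [u] using h2)
    have hu1 : u ≠ 1 := by
      intro h0
      apply hρ1
      have := congrArg Units.val h0
      simpa [u] using this
    have _ : Fact (Nat.Prime 3) := ⟨Nat.prime_three⟩
    have hord : orderOf u = 3 := orderOf_eq_prime hu3 hu1
    have hdvd : 3 ∣ Fintype.card (𝓞 kk ⧸ v.asIdeal)ˣ := by
      rw [← hord]
      exact orderOf_dvd_card
    rw [Fintype.card_units _, ← habs] at hdvd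
    have hpos : 0 < Ideal.absNorm v.asIdeal := by
      rw [habs]
      exact Fintype.card_pos
    omega
  refine ⟨?_, hB⟩
  rw [hB] at h
  simpa using h

/-- integral at `v` -/
private def TreeB_I (v : Pl) (t : KK) : Prop :=
  v.valuation kk t.re ≤ 1 ∧ v.valuation kk t.im ≤ 1

/-- divisible by `v` -/
private def TreeB_J (v : Pl) (t : KK) : Prop :=
  v.valuation kk t.re < 1 ∧ v.valuation kk t.im < 1

private theorem TreeB_sub {v : Pl} {x y : kk} {r : WithZero (Multiplicative ℤ)}
    (hx : v.valuation kk x < r) (hy : v.valuation kk y < r) : v.valuation kk (x - y) < r :=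
  (Valuation.map_sub _ _ _).trans_lt (max_lt hx hy)

private theorem TreeB_add {v : Pl} {x y : kk} {r : WithZero (Multiplicative ℤ)}
    (hx : v.valuation kk x < r) (hy : v.valuation kk y < r) : v.valuation kk (x + y) < r :=
  (Valuation.map_add _ _ _).trans_lt (max_lt hx hy)

private theorem TreeB_NK_le {v : Pl} {t : KK} (h : TreeB_I v t) : v.valuation kk (NK t) ≤ 1 := by
  obtain ⟨h1, h2⟩ := h
  simp only [NK, ← Valuation.mem_integer_iff] at *
  refine Subring.add_mem _ (Subring.sub_mem _ ?_ ?_) ?_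
  · exact Subring.pow_mem _ h1 2
  · exact Subring.mul_mem _ h1 h2
  · exact Subring.pow_mem _ h2 2

private theorem TreeB_mul_I {v : Pl} {t q : KK} (h : TreeB_I v t) (hq : TreeB_I v q) :
    TreeB_I v (t * q) := by
  obtain ⟨h1, h2⟩ := h
  obtain ⟨k1, k2⟩ := hq
  unfold TreeB_I
  simp only [← Valuation.mem_integer_iff, QuadraticAlgebra.re_mul, QuadraticAlgebra.im_mul] at *
  constructor
  · repeat' first
      | apply Subring.add_mem | apply Subring.sub_mem | apply Subring.mul_mem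
      | apply Subring.neg_mem | apply Subring.one_mem | assumption
  · repeat' first
      | apply Subring.add_mem | apply Subring.sub_mem | apply Subring.mul_mem
      | apply Subring.neg_mem | apply Subring.one_mem | assumption

private theorem TreeB_star_I {v : Pl} {q : KK} (hq : TreeB_I v q) : TreeB_I v (star q) := by
  obtain ⟨k1, k2⟩ := hq
  unfold TreeB_I
  rw [star_KK]
  simp only [← Valuation.mem_integer_iff] at *
  exact ⟨Subring.sub_mem _ k1 k2, Subring.neg_mem _ k2⟩

private theorem TreeB_val3 {v : Pl} (hv : v ∉ SS4) : v.valuation kk (3 : kk) = 1 := by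
  have h3 : (3 : 𝓞 kk) ∉ v.asIdeal := fun h => hv (three_mem v h).1
  have h1 : v.valuation kk ((3 : 𝓞 kk) : kk) ≤ 1 := v.valuation_le_one (K := kk) (3 : 𝓞 kk)
  have h2 : ¬ v.valuation kk ((3 : 𝓞 kk) : kk) < 1 := fun hh =>
    h3 ((v.valuation_lt_one_iff_mem (3 : 𝓞 kk)).1 hh)
  have h4 : ((3 : 𝓞 kk) : kk) = 3 := map_ofNat (algebraMap (𝓞 kk) kk) 3
  rw [h4] at h1 h2
  exact le_antisymm h1 (not_lt.1 h2)

private theorem TreeB_aniso {v : Pl} (hv : om v = -1) (hS : v ∉ SS4) {t : KK} (ht : TreeB_I v t)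
    (h : v.valuation kk (NK t) < 1) : TreeB_J v t := by
  have h3 : (3 : 𝓞 kk) ∉ v.asIdeal := fun h => hS (three_mem v h).1
  have hN : Ideal.absNorm v.asIdeal % 3 ≠ 1 := by
    intro h
    rw [om, if_pos h] at hv
    exact absurd hv (by decide)
  obtain ⟨a, ha⟩ := v.exists_valuation_sub_lt_of_integer ht.1 1
  obtain ⟨b, hb⟩ := v.exists_valuation_sub_lt_of_integer ht.2 1
  rw [Units.val_one] at ha hb
  have ha1 : v.valuation kk (algebraMap (𝓞 kk) kk a) ≤ 1 := v.valuation_le_one a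
  have hb1 : v.valuation kk (algebraMap (𝓞 kk) kk b) ≤ 1 := v.valuation_le_one b
  set A := algebraMap (𝓞 kk) kk a with hA
  set B := algebraMap (𝓞 kk) kk b with hB
  have h5 : a ^ 2 - a * b + b ^ 2 ∈ v.asIdeal := by
    rw [← v.valuation_lt_one_iff_mem (K := kk)]
    have h6 : algebraMap (𝓞 kk) kk (a ^ 2 - a * b + b ^ 2) =
        NK t + ((A - t.re) * (A + t.re) - ((A - t.re) * B + t.re * (B - t.im)) +
          (B - t.im) * (B + t.im)) := by
      rw [map_add, map_sub, map_pow, map_mul, map_pow, NK, ← hA, ← hB]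
      ring
    have hm : ∀ x y : kk, v.valuation kk x < 1 → v.valuation kk y ≤ 1 →
        v.valuation kk (x * y) < 1 := by
      intro x y hx hy
      rw [map_mul]
      exact mul_lt_one_of_lt_of_le hx hy
    have hp : ∀ x y : kk, v.valuation kk x ≤ 1 → v.valuation kk y ≤ 1 →
        v.valuation kk (x + y) ≤ 1 := fun x y hx hy =>
      (Valuation.map_add _ _ _).trans (max_le hx hy)
    change v.valuation kk (algebraMap (𝓞 kk) kk (a ^ 2 - a * b + b ^ 2)) < 1
    rw [h6]
    refine TreeB_add h (TreeB_add (TreeB_sub (hm _ _ ha (hp _ _ ha1 ht.1)) (TreeB_add (hm _ _ ha hb1) ?_))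
      (hm _ _ hb (hp _ _ hb1 ht.2)))
    rw [mul_comm]
    exact hm _ _ hb ht.1
  obtain ⟨h7, h8⟩ := TreeB_noroot v hN h3 h5
  have h9 : v.valuation kk A < 1 := (v.valuation_lt_one_iff_mem a).2 h7
  have h10 : v.valuation kk B < 1 := (v.valuation_lt_one_iff_mem b).2 h8
  constructor
  · have := TreeB_sub h9 ha
    simpa using this
  · have := TreeB_sub h10 hb
    simpa using this

/-- If `t` and `q` have norms divisible by `v` then `t q` or `t σ(q)` is divisible by `v`. -/
private theorem TreeB_key {v : Pl} (hS : v ∉ SS4) {t q : KK} (ht : TreeB_I v t) (hq : TreeB_I v q)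
    (h : v.valuation kk (NK t) < 1) (h' : v.valuation kk (NK q) < 1) :
    TreeB_J v (t * q) ∨ TreeB_J v (t * star q) := by
  have hA : TreeB_I v (t * q) := TreeB_mul_I ht hq
  have hB : TreeB_I v (t * star q) := TreeB_mul_I ht (TreeB_star_I hq)
  have h3 := TreeB_val3 hS
  -- the coordinates of `A (B + σ B)` and `A (B ζ + σ (B ζ))`
  have e1 : t * q * (t * star q) = t * t * algebraMap kk KK (NK q) := by
    rw [← mul_star_KK]; ring
  have e2 : t * q * star (t * star q) = q * q * algebraMap kk KK (NK t) := by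
    rw [← mul_star_KK, star_mul, star_star]; ring
  set A := t * q with hAd
  set B := t * star q with hBd
  have hsm : ∀ (x : KK) (z : kk), TreeB_I v x → v.valuation kk z < 1 →
      TreeB_J v (x * algebraMap kk KK z) := by
    intro x z hx hz
    constructor
    · have : (x * algebraMap kk KK z).re = z * x.re := by
        simp [QuadraticAlgebra.re_mul]; ring
      rw [this, map_mul]
      exact mul_lt_one_of_lt_of_le hz hx.1
    · have : (x * algebraMap kk KK z).im = z * x.im := by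
        simp [QuadraticAlgebra.im_mul]; ring
      rw [this, map_mul]
      exact mul_lt_one_of_lt_of_le hz hx.2
  have f1 : TreeB_J v (A * B) := by
    rw [e1]; exact hsm _ _ (TreeB_mul_I ht ht) h'
  have f2 : TreeB_J v (A * star B) := by
    rw [e2]; exact hsm _ _ (TreeB_mul_I hq hq) h
  have hJmul : ∀ x y : KK, TreeB_J v x → TreeB_I v y → TreeB_J v (x * y) := by
    intro x y hx hy
    have hm : ∀ x y : kk, v.valuation kk x < 1 → v.valuation kk y ≤ 1 →
        v.valuation kk (x * y) < 1 := by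
      intro x y hx hy
      rw [map_mul]
      exact mul_lt_one_of_lt_of_le hx hy
    constructor
    · have : (x * y).re = x.re * y.re - x.im * y.im := by
        simp [QuadraticAlgebra.re_mul]; ring
      rw [this]
      exact TreeB_sub (hm _ _ hx.1 hy.1) (hm _ _ hx.2 hy.2)
    · have : (x * y).im = x.re * y.im + x.im * y.re - x.im * y.im := by
        simp [QuadraticAlgebra.im_mul]; ring
      rw [this]
      exact TreeB_sub (TreeB_add (hm _ _ hx.1 hy.2) (hm _ _ hx.2 hy.1)) (hm _ _ hx.2 hy.2)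
  have hzeta : TreeB_I v zeta := ⟨by simp [zeta], by simp [zeta]⟩
  have f3 : TreeB_J v (A * B * zeta) := hJmul _ _ f1 hzeta
  have f4 : TreeB_J v (A * star B * star zeta) := hJmul _ _ f2 (TreeB_star_I hzeta)
  have hJadd : ∀ x y : KK, TreeB_J v x → TreeB_J v y → TreeB_J v (x + y) := by
    intro x y hx hy
    exact ⟨by rw [QuadraticAlgebra.re_add]; exact TreeB_add hx.1 hy.1,
      by rw [QuadraticAlgebra.im_add]; exact TreeB_add hx.2 hy.2⟩
  have g1 : TreeB_J v (algebraMap kk KK (2 * B.re - B.im) * A) := by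
    have : algebraMap kk KK (2 * B.re - B.im) * A = A * B + A * star B := by
      rw [star_KK B]
      apply QuadraticAlgebra.ext
      · simp [QuadraticAlgebra.re_mul]; ring
      · simp [QuadraticAlgebra.im_mul]; ring
    rw [this]
    exact hJadd _ _ f1 f2
  have g2 : TreeB_J v (algebraMap kk KK (-B.re - B.im) * A) := by
    have : algebraMap kk KK (-B.re - B.im) * A = A * B * zeta + A * star B * star zeta := by
      rw [star_KK B, star_KK zeta]
      apply QuadraticAlgebra.ext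
      · simp [QuadraticAlgebra.re_mul, zeta]; ring
      · simp [QuadraticAlgebra.im_mul, zeta]; ring
    rw [this]
    exact hJadd _ _ f3 f4
  have hprod : ∀ z : kk, TreeB_J v (algebraMap kk KK z * A) →
      TreeB_J v A ∨ v.valuation kk z < 1 := by
    intro z hz
    by_cases h0 : v.valuation kk z < 1
    · exact Or.inr h0
    left
    have hz1 : 1 ≤ v.valuation kk z := not_lt.1 h0
    have r1 : (algebraMap kk KK z * A).re = z * A.re := by
      simp [QuadraticAlgebra.re_mul]
    have r2 : (algebraMap kk KK z * A).im = z * A.im := by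
      simp [QuadraticAlgebra.im_mul]
    obtain ⟨k1, k2⟩ := hz
    rw [r1, map_mul] at k1
    rw [r2, map_mul] at k2
    constructor
    · refine lt_of_le_of_lt ?_ k1
      exact le_mul_of_one_le_left zero_le hz1
    · refine lt_of_le_of_lt ?_ k2
      exact le_mul_of_one_le_left zero_le hz1
  rcases hprod _ g1 with k1 | k1
  · exact Or.inl k1
  rcases hprod _ g2 with k2 | k2
  · exact Or.inl k2
  right
  have hre : v.valuation kk (3 * B.re) < 1 := by
    have : 3 * B.re = (2 * B.re - B.im) - (-B.re - B.im) := by ring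
    rw [this]
    exact TreeB_sub k1 k2
  rw [map_mul, h3, one_mul] at hre
  refine ⟨hre, ?_⟩
  have : B.im = -B.re - (-B.re - B.im) := by ring
  rw [this]
  refine TreeB_sub ?_ k2
  rwa [Valuation.map_neg]

private theorem TreeB_re (z : kk) (x : KK) : (algebraMap kk KK z * x).re = z * x.re := by
  simp [QuadraticAlgebra.re_mul]

private theorem TreeB_im (z : kk) (x : KK) : (algebraMap kk KK z * x).im = z * x.im := by
  simp [QuadraticAlgebra.im_mul]

/-- `t` is a product of an element which is a local unit outside `v` and a local unit at `v` -/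
private def TreeB_D (v : Pl) (t : KKˣ) : Prop :=
  ∃ x y : KKˣ, (∀ w, w ≠ v → inKu x ∈ UU w) ∧ y ∈ Rn v 0 ∧ t = x * y

private theorem TreeB_scal (v : Pl) (z : kk) (hz : z ≠ 0) (u : KKˣ)
    (hu : (u : KK) = algebraMap kk KK z) : u ∈ Rn v 0 := by
  refine ⟨z⁻¹, inv_ne_zero hz, ?_, Or.inl ?_, ?_⟩
  · rw [hu, QuadraticAlgebra.algebraMap_re, inv_mul_cancel₀ hz, ord_one]
  · rw [hu, QuadraticAlgebra.algebraMap_im]
  · rw [hu, NK_algebraMap, ord_inv, ord_pow]
    push_cast
    ring

private theorem TreeB_unit0 (v : Pl) (t : KKˣ) (hI : TreeB_I v t)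
    (h : v.valuation kk (NK (t : KK)) = 1) : t ∈ Rn v 0 := by
  refine ⟨1, one_ne_zero, ?_, ?_, ?_⟩
  · rw [one_mul]
    by_cases h0 : (t : KK).re = 0
    · rw [h0]; simp [ord]
    · exact (val_le_one h0).1 hI.1
  · rw [one_mul]
    by_cases h0 : (t : KK).im = 0
    · exact Or.inl h0
    · right
      simpa using (val_le_one h0).1 hI.2
  · rw [ord_one, ord, h]
    simp

private theorem TreeB_div {v : Pl} {p : kk} (hp : v.valuation kk p = WithZero.exp (-1 : ℤ)) {x : kk}
    (hx : v.valuation kk x < 1) : v.valuation kk (p⁻¹ * x) ≤ 1 := by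
  by_cases h0 : x = 0
  · rw [h0]; simp
  have h1 := (val_lt_one h0).1 hx
  rw [map_mul, map_inv₀, hp, TreeB_val v h0, ← WithZero.exp_neg, ← WithZero.exp_add,
    ← WithZero.exp_zero, WithZero.exp_le_exp]
  omega

private theorem TreeB_split {v : Pl} (hS : v ∉ SS4) {p : kk}
    (hp : v.valuation kk p = WithZero.exp (-1 : ℤ)) (q q' : KKˣ) (hqq : (q' : KK) = star (q : KK))
    (hI : TreeB_I v q)
    (hN : v.valuation kk (NK (q : KK)) = WithZero.exp (-1 : ℤ)) (h1 : ∀ w, w ≠ v → inKu q ∈ UU w)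
    (h2 : ∀ w, w ≠ v → inKu q' ∈ UU w) (m : ℕ) : ∀ t : KKˣ, TreeB_I v t →
      v.valuation kk (NK (t : KK)) = WithZero.exp (-(m : ℤ)) → TreeB_D v t := by
  have hp0 : p ≠ 0 := by
    rintro rfl
    rw [map_zero] at hp
    exact WithZero.exp_ne_zero hp.symm
  have hlt : WithZero.exp (-1 : ℤ) < (1 : WithZero (Multiplicative ℤ)) := by
    rw [← WithZero.exp_zero, WithZero.exp_lt_exp]; norm_num
  let P : KKˣ := Units.map (algebraMap kk KK : kk →* KK) (Units.mk0 p hp0)
  have hP : (P : KK) = algebraMap kk KK p := rfl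
  induction m with
  | zero =>
    intro t ht hm
    refine ⟨1, t, fun w _ => ?_, TreeB_unit0 v t ht (by simpa using hm), (one_mul t).symm⟩
    rw [map_one]
    exact (UU w).one_mem
  | succ m ih =>
    intro t ht hm
    have step : ∀ r : KKˣ, v.valuation kk (NK (r : KK)) = WithZero.exp (-1 : ℤ) →
        (∀ w, w ≠ v → inKu r ∈ UU w) → TreeB_J v ((t : KK) * r) → TreeB_D v t := by
      intro r hr hr' hJ
      have e : ((t * r * P⁻¹ : KKˣ) : KK) = algebraMap kk KK p⁻¹ * (t * r) := by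
        have : ((P⁻¹ : KKˣ) : KK) = algebraMap kk KK p⁻¹ := by
          rw [Units.val_inv_eq_inv_val, hP, map_inv₀]
        rw [Units.val_mul, Units.val_mul, this, mul_comm]
      obtain ⟨x, y, hx, hy, hxy⟩ := ih (t * r * P⁻¹) (by
        rw [e]
        constructor
        · rw [TreeB_re]
          exact TreeB_div hp hJ.1
        · rw [TreeB_im]
          exact TreeB_div hp hJ.2) (by
        rw [e, NK_mul, NK_mul, NK_algebraMap, map_mul, map_mul, map_pow, map_inv₀, hp, hr, hm,
          ← WithZero.exp_neg, pow_two, ← WithZero.exp_add, ← WithZero.exp_add, ← WithZero.exp_add]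
        congr 1
        push_cast
        ring)
      refine ⟨x * r⁻¹, y * P, fun w hw => ?_, Subgroup.mul_mem _ hy (TreeB_scal v p hp0 P hP), ?_⟩
      · rw [map_mul, map_inv]
        exact (UU w).mul_mem (hx w hw) ((UU w).inv_mem (hr' w hw))
      · have h3 : t * r * P⁻¹ * (P * r⁻¹) = x * y * (P * r⁻¹) := by rw [hxy]
        have h4 : t * r * P⁻¹ * (P * r⁻¹) = t := by group
        rw [← h4, h3]
        rw [mul_mul_mul_comm, mul_assoc x r⁻¹, mul_comm r⁻¹ (y * P), mul_assoc y P, ← mul_assoc x y,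
          mul_mul_mul_comm]
    have hlt1 : v.valuation kk (NK (t : KK)) < 1 := by
      rw [hm, ← WithZero.exp_zero, WithZero.exp_lt_exp]
      push_cast
      omega
    rcases TreeB_key hS ht hI hlt1 (hN.trans_lt hlt) with h | h
    · exact step q hN h1 h
    · rw [← hqq] at h
      refine step q' ?_ h2 h
      rw [hqq, NK_star]
      exact hN

private theorem TreeB_inert {v : Pl} (hv : om v = -1) (hS : v ∉ SS4) {p : kk}
    (hp : v.valuation kk p = WithZero.exp (-1 : ℤ)) (m : ℕ) : ∀ t : KKˣ, TreeB_I v t →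
      v.valuation kk (NK (t : KK)) = WithZero.exp (-(m : ℤ)) → t ∈ Rn v 0 := by
  have hp0 : p ≠ 0 := by
    rintro rfl
    rw [map_zero] at hp
    exact WithZero.exp_ne_zero hp.symm
  let P : KKˣ := Units.map (algebraMap kk KK : kk →* KK) (Units.mk0 p hp0)
  have hP : (P : KK) = algebraMap kk KK p := rfl
  induction m using Nat.strong_induction_on with
  | _ m ih =>
    intro t ht hm
    rcases Nat.eq_zero_or_pos m with h0 | h0
    · subst h0
      exact TreeB_unit0 v t ht (by simpa using hm)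
    have hlt1 : v.valuation kk (NK (t : KK)) < 1 := by
      rw [hm, ← WithZero.exp_zero, WithZero.exp_lt_exp]
      omega
    have hJ := TreeB_aniso hv hS ht hlt1
    have e : ((t * P⁻¹ : KKˣ) : KK) = algebraMap kk KK p⁻¹ * t := by
      have : ((P⁻¹ : KKˣ) : KK) = algebraMap kk KK p⁻¹ := by
        rw [Units.val_inv_eq_inv_val, hP, map_inv₀]
      rw [Units.val_mul, this, mul_comm]
    have hI : TreeB_I v ((t * P⁻¹ : KKˣ) : KK) := by
      rw [e]
      constructor
      · rw [TreeB_re]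
        exact TreeB_div hp hJ.1
      · rw [TreeB_im]
        exact TreeB_div hp hJ.2
    have hN : v.valuation kk (NK ((t * P⁻¹ : KKˣ) : KK)) = WithZero.exp (2 - (m : ℤ)) := by
      rw [e, NK_mul, NK_algebraMap, map_mul, map_pow, map_inv₀, hp, hm,
        ← WithZero.exp_neg, pow_two, ← WithZero.exp_add, ← WithZero.exp_add]
      norm_num [sub_eq_add_neg]
    have h2 : 2 ≤ m := by
      have h3 := TreeB_NK_le hI
      rw [hN, ← WithZero.exp_zero, WithZero.exp_le_exp] at h3
      omega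
    have h4 := ih (m - 2) (by omega) (t * P⁻¹) hI (by
      rw [hN]
      congr 1
      omega)
    have h5 : t = t * P⁻¹ * P := by group
    rw [h5]
    exact Subgroup.mul_mem _ h4 (TreeB_scal v p hp0 P hP)

private theorem TreeB_prim (v : Pl) (t : KKˣ) : ∃ (z : kk) (_ : z ≠ 0),
    TreeB_I v (algebraMap kk KK z * t) := by
  obtain ⟨p, hp0, hp⟩ := ord_surj v 1
  have hv : ∀ x : kk, ∃ n : ℕ, ∀ m : ℕ, n ≤ m → v.valuation kk (p ^ m * x) ≤ 1 := by
    intro x
    by_cases hx : x = 0
    · exact ⟨0, fun m _ => by rw [hx]; simp⟩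
    · refine ⟨(-(ord v x)).toNat, fun m hm => ?_⟩
      rw [val_le_one (mul_ne_zero (pow_ne_zero _ hp0) hx), ord_mul v (pow_ne_zero _ hp0) hx, ord_pow,
        hp]
      have := Int.self_le_toNat (-(ord v x))
      omega
  obtain ⟨a, ha⟩ := hv (t : KK).re
  obtain ⟨b, hb⟩ := hv (t : KK).im
  refine ⟨p ^ (max a b), pow_ne_zero _ hp0, ?_, ?_⟩
  · rw [TreeB_re]
    exact ha _ (le_max_left _ _)
  · rw [TreeB_im]
    exact hb _ (le_max_right _ _)

private def TreeB_mk (a b : ℤ) : 𝓞 kk := ⟨⟨a, b⟩, int_kk a b⟩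

private theorem TreeB_coord {x : KK} (hx : x ∈ OK) :
    ∃ a b : 𝓞 kk, (a : kk) = 3 * x.re ∧ (b : kk) = 3 * x.im := by
  obtain ⟨a, b, c, d, rfl⟩ := hx
  refine ⟨TreeB_mk (3 * a + 2 * c - d) (-c + 2 * d), TreeB_mk (3 * b + c + d) (-2 * c + d), ?_, ?_⟩
  · show (⟨((3 * a + 2 * c - d : ℤ) : ℚ), ((-c + 2 * d : ℤ) : ℚ)⟩ : kk) = _
    ext <;> simp [zeta, eps, QuadraticAlgebra.re_ofNat, QuadraticAlgebra.im_ofNat] <;> ring
  · show (⟨((3 * b + c + d : ℤ) : ℚ), ((-2 * c + d : ℤ) : ℚ)⟩ : kk) = _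
    ext <;> simp [zeta, eps, QuadraticAlgebra.re_ofNat, QuadraticAlgebra.im_ofNat] <;> ring

private theorem TreeB_OK_I {x : KK} (hx : x ∈ OK) {w : Pl} (hw : w ∉ SS4) : TreeB_I w x := by
  obtain ⟨a, b, ha, hb⟩ := TreeB_coord hx
  have h3 := TreeB_val3 hw
  have ha1 : w.valuation kk (a : kk) ≤ 1 := w.valuation_le_one a
  have hb1 : w.valuation kk (b : kk) ≤ 1 := w.valuation_le_one b
  rw [ha, map_mul, h3, one_mul] at ha1
  rw [hb, map_mul, h3, one_mul] at hb1
  exact ⟨ha1, hb1⟩

private theorem TreeB_dec {v : Pl} (hS : v ∉ SS4) (t : KKˣ) : TreeB_D v t := by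
  obtain ⟨p, hp0, hp⟩ := ord_surj v 1
  have hpv : v.valuation kk p = WithZero.exp (-1 : ℤ) := by rw [TreeB_val v hp0, hp]
  obtain ⟨z, hz, hI⟩ := TreeB_prim v t
  let Z : KKˣ := Units.map (algebraMap kk KK : kk →* KK) (Units.mk0 z hz)
  have hZ : (Z : KK) = algebraMap kk KK z := rfl
  have hI' : TreeB_I v ((Z * t : KKˣ) : KK) := by
    rw [Units.val_mul, hZ]; exact hI
  have hN0 : NK ((Z * t : KKˣ) : KK) ≠ 0 := NK_ne (Units.ne_zero _)
  have hN1 := TreeB_NK_le hI'
  have hpos := (val_le_one hN0).1 hN1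
  have hm : v.valuation kk (NK ((Z * t : KKˣ) : KK)) =
      WithZero.exp (-(((ord v (NK ((Z * t : KKˣ) : KK))).toNat : ℕ) : ℤ)) := by
    rw [TreeB_val v hN0, Int.toNat_of_nonneg hpos]
  have hD : TreeB_D v (Z * t) := by
    rcases Int.units_eq_one_or (om v) with hv | hv
    · obtain ⟨q, hq, hq0, hqv, hqw⟩ := split_gen v hv
      let Q : KKˣ := Units.mk0 q hq0
      have hs0 : star q ≠ 0 := by simpa using hq0
      let Q' : KKˣ := Units.mk0 (star q) hs0
      have hNq : NK q ≠ 0 := NK_ne hq0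
      have hUU : ∀ (R : KKˣ), (∀ w, w ∉ SS4 → TreeB_I w R) → NK (R : KK) = NK q →
          ∀ w, w ≠ v → inKu R ∈ UU w := by
        intro R hR hRq w hw
        by_cases hwS : w ∈ SS4
        · rw [UU, if_pos hwS]
          show Even (ord w (nrd (inK (R : KK))))
          rw [nrd_inK, hRq, hqw w hw]
          exact Even.zero
        · rw [UU_iff_Rn hwS]
          refine TreeB_unit0 w R (hR w hwS) ?_
          rw [hRq, TreeB_val w hNq, hqw w hw]
          simp
      refine TreeB_split hS hpv Q Q' rfl (TreeB_OK_I hq hS) ?_ (hUU Q (fun w hw => TreeB_OK_I hq hw) rfl)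
        (hUU Q' (fun w hw => TreeB_star_I (TreeB_OK_I hq hw)) (NK_star q)) _ _ hI' hm
      show v.valuation kk (NK q) = _
      rw [TreeB_val v hNq, hqv]
    · refine ⟨1, Z * t, fun w _ => ?_, TreeB_inert hv hS hpv _ _ hI' hm, (one_mul _).symm⟩
      rw [map_one]
      exact (UU w).one_mem
  obtain ⟨x, y, hx, hy, hxy⟩ := hD
  refine ⟨x, y * Z⁻¹, hx, Subgroup.mul_mem _ hy (Subgroup.inv_mem _ (TreeB_scal v z hz Z hZ)), ?_⟩
  rw [← mul_assoc, ← hxy, mul_comm Z t, mul_assoc, mul_inv_cancel, mul_one]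

/-! Matrices. -/

private theorem TreeB_GLO_mul {v : Pl} {U V : Matrix (Fin 2) (Fin 2) (Kv v)} (hU : GLO U)
    (hV : GLO V) : GLO (U * V) := by
  refine ⟨fun i j => ?_, ?_⟩
  · rw [Matrix.mul_apply, Fin.sum_univ_two]
    refine (Valuation.map_add _ _ _).trans (max_le ?_ ?_)
    · rw [map_mul]
      exact mul_le_one' (hU.1 _ _) (hV.1 _ _)
    · rw [map_mul]
      exact mul_le_one' (hU.1 _ _) (hV.1 _ _)
  · rw [Matrix.det_mul, map_mul, hU.2, hV.2, one_mul]

private theorem TreeB_det_le {v : Pl} {U : Matrix (Fin 2) (Fin 2) (Kv v)}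
    (hU : ∀ i j, Valued.v (U i j) ≤ 1) : Valued.v U.det ≤ 1 := by
  rw [Matrix.det_fin_two]
  refine (Valuation.map_sub _ _ _).trans (max_le ?_ ?_)
  · rw [map_mul]
    exact mul_le_one' (hU _ _) (hU _ _)
  · rw [map_mul]
    exact mul_le_one' (hU _ _) (hU _ _)

private theorem TreeB_GLO_inv {v : Pl} {U V : Matrix (Fin 2) (Fin 2) (Kv v)} (hU : GLO U)
    (h : U * V = 1) : GLO V := by
  have hd : U.det * V.det = 1 := by rw [← Matrix.det_mul, h, Matrix.det_one]
  have hd0 : U.det ≠ 0 := left_ne_zero_of_mul_eq_one hd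
  have hadj : U.adjugate = U.det • V := by
    calc U.adjugate = U.adjugate * (U * V) := by rw [h, Matrix.mul_one]
      _ = (U.adjugate * U) * V := by rw [Matrix.mul_assoc]
      _ = U.det • V := by rw [Matrix.adjugate_mul, Matrix.smul_mul, Matrix.one_mul]
  refine ⟨fun i j => ?_, ?_⟩
  · have h1 : Valued.v (U.adjugate i j) = Valued.v (V i j) := by
      rw [hadj, Matrix.smul_apply, smul_eq_mul, map_mul, hU.2, one_mul]
    rw [← h1, Matrix.adjugate_fin_two]
    fin_cases i <;> fin_cases j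
    · exact hU.1 1 1
    · simpa [Valuation.map_neg] using hU.1 0 1
    · simpa [Valuation.map_neg] using hU.1 1 0
    · exact hU.1 0 0
  · have := congrArg Valued.v hd
    rw [map_mul, hU.2, one_mul, map_one] at this
    exact this

private theorem TreeB_GLO_smul {v : Pl} {U : Matrix (Fin 2) (Fin 2) (Kv v)} (hU : GLO U)
    {c : Kv v} (hc : Valued.v c = 1) : GLO (c • U) := by
  refine ⟨fun i j => ?_, ?_⟩
  · rw [Matrix.smul_apply, smul_eq_mul, map_mul, hc, one_mul]
    exact hU.1 i j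
  · rw [Matrix.det_smul, map_mul, map_pow, hc, one_pow, one_mul, hU.2]

private theorem TreeB_inv_ex {v : Pl} {U : Matrix (Fin 2) (Fin 2) (Kv v)} (hU : GLO U) :
    ∃ V, GLO V ∧ U * V = 1 ∧ V * U = 1 := by
  have hd0 : U.det ≠ 0 := by
    intro h
    have := hU.2
    rw [h, map_zero] at this
    exact zero_ne_one this
  have hu : IsUnit U.det := isUnit_iff_ne_zero.2 hd0
  have h1 := Matrix.mul_nonsing_inv U hu
  exact ⟨U⁻¹, TreeB_GLO_inv hU h1, h1, Matrix.nonsing_inv_mul U hu⟩

private theorem TreeB_near {v : Pl} {U : Matrix (Fin 2) (Fin 2) (Kv v)}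
    (h : ∀ i j, Valued.v (U i j - (1 : Matrix (Fin 2) (Fin 2) (Kv v)) i j) < 1) : GLO U := by
  have hint : ∀ i j, Valued.v (U i j) ≤ 1 := by
    intro i j
    have h1 : U i j = (U i j - (1 : Matrix (Fin 2) (Fin 2) (Kv v)) i j) +
        (1 : Matrix (Fin 2) (Fin 2) (Kv v)) i j := by ring
    rw [h1]
    refine (Valuation.map_add _ _ _).trans (max_le (h i j).le ?_)
    rw [Matrix.one_apply]
    split_ifs <;> simp
  refine ⟨hint, ?_⟩
  have h00 := h 0 0
  have h11 := h 1 1
  have h01 := h 0 1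
  simp only [Matrix.one_apply_eq] at h00 h11
  rw [Matrix.one_apply_ne (by decide), sub_zero] at h01
  have e : U.det = 1 + ((U 0 0 - 1) * U 1 1 + (U 1 1 - 1) - U 0 1 * U 1 0) := by
    rw [Matrix.det_fin_two]; ring
  rw [e]
  refine Valuation.map_one_add_of_lt (v := Valued.v) ?_
  refine (Valuation.map_sub _ _ _).trans_lt (max_lt ((Valuation.map_add _ _ _).trans_lt
    (max_lt ?_ h11)) ?_)
  · rw [map_mul]
    exact mul_lt_one_of_lt_of_le h00 (hint 1 1)
  · rw [map_mul]
    exact mul_lt_one_of_lt_of_le h01 (hint 1 0)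

/-- `S E T` is small if `E` is small. -/
private theorem TreeB_small {v : Pl} (S T : Matrix (Fin 2) (Fin 2) (Kv v)) :
    ∃ r : WithZero (Multiplicative ℤ), r ≠ 0 ∧ ∀ E : Matrix (Fin 2) (Fin 2) (Kv v),
      (∀ i j, Valued.v (E i j) ≤ r) → ∀ i j, Valued.v ((S * E * T) i j) < 1 := by
  have hb : ∀ M : Matrix (Fin 2) (Fin 2) (Kv v), ∃ C : WithZero (Multiplicative ℤ), C ≠ 0 ∧
      ∀ i j, Valued.v (M i j) ≤ C := by
    intro M
    refine ⟨max 1 (max (max (Valued.v (M 0 0)) (Valued.v (M 0 1)))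
      (max (Valued.v (M 1 0)) (Valued.v (M 1 1)))), ?_, ?_⟩
    · exact (lt_of_lt_of_le zero_lt_one (le_max_left _ _)).ne'
    · intro i j
      fin_cases i <;> fin_cases j <;> simp
  obtain ⟨C, hC, hS⟩ := hb S
  obtain ⟨D, hD, hT⟩ := hb T
  have hlt : WithZero.exp (-1 : ℤ) < (1 : WithZero (Multiplicative ℤ)) := by
    rw [← WithZero.exp_zero, WithZero.exp_lt_exp]; norm_num
  refine ⟨C⁻¹ * WithZero.exp (-1) * D⁻¹, mul_ne_zero (mul_ne_zero (inv_ne_zero hC)
    WithZero.exp_ne_zero) (inv_ne_zero hD), fun E hE i j => ?_⟩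
  have h1 : ∀ k l, Valued.v (S i k * E k l * T l j) ≤ WithZero.exp (-1 : ℤ) := by
    intro k l
    rw [map_mul, map_mul]
    calc Valued.v (S i k) * Valued.v (E k l) * Valued.v (T l j) ≤
        C * (C⁻¹ * WithZero.exp (-1) * D⁻¹) * D :=
          mul_le_mul' (mul_le_mul' (hS i k) (hE k l)) (hT l j)
      _ = (C * C⁻¹) * WithZero.exp (-1) * (D⁻¹ * D) := by simp only [mul_assoc]
      _ = WithZero.exp (-1) := by rw [mul_inv_cancel₀ hC, inv_mul_cancel₀ hD, one_mul, mul_one]
  refine lt_of_le_of_lt ?_ hlt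
  rw [Matrix.mul_apply, Fin.sum_univ_two, Matrix.mul_apply, Matrix.mul_apply, Fin.sum_univ_two,
    Fin.sum_univ_two, add_mul, add_mul]
  refine (Valuation.map_add _ _ _).trans (max_le ((Valuation.map_add _ _ _).trans (max_le ?_ ?_))
    ((Valuation.map_add _ _ _).trans (max_le ?_ ?_))) <;> exact h1 _ _

private theorem TreeB_val_ex {v : Pl} (Z : Kv v) (hZ : Z ≠ 0) :
    ∃ z : kk, z ≠ 0 ∧ Valued.v (algebraMap kk (Kv v) z) = Valued.v Z := by
  have hZ' : Valued.v Z ≠ 0 := by simpa using hZ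
  obtain ⟨h1, h2⟩ := kt_lt (Valued.v Z) hZ'
  obtain ⟨z, hz⟩ := Kv_approx v Z _ h2
  have h3 : Valued.v (algebraMap kk (Kv v) z) = Valued.v Z := by
    have h4 : algebraMap kk (Kv v) z = Z - (Z - algebraMap kk (Kv v) z) := by ring
    rw [h4]
    exact Valuation.map_sub_eq_of_lt_left _ (hz.trans_lt h1)
  refine ⟨z, ?_, h3⟩
  rintro rfl
  rw [map_zero, map_zero] at h3
  exact hZ' h3.symm

private theorem TreeB_phi_smul {v : Pl} {φ : AA →+* Matrix (Fin 2) (Fin 2) (Kv v)} (hφ : LocR v φ)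
    (z : kk) (g : AA) : φ (z • g) = algebraMap kk (Kv v) z • φ g := by
  rw [Algebra.smul_def, map_mul, hφ.sc, Matrix.smul_mul, Matrix.one_mul]

private theorem TreeB_UU {v : Pl} (hv : v ∉ SS4) {φ : AA →+* Matrix (Fin 2) (Fin 2) (Kv v)}
    (hφ : LocR v φ) (g : AAˣ) : g ∈ UU v ↔ ∃ Z : Kv v, Z ≠ 0 ∧ GLO (Z • φ (g : AA)) := by
  rw [UU, if_neg hv]
  have hmul : φ (g : AA) * φ ((g⁻¹ : AAˣ) : AA) = 1 := by
    rw [← map_mul, Units.mul_inv, map_one]
  have hprod : ∀ z : kk, z ≠ 0 → (algebraMap kk (Kv v) z • φ (g : AA)) *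
      (algebraMap kk (Kv v) z⁻¹ • φ ((g⁻¹ : AAˣ) : AA)) = 1 := by
    intro z hz
    rw [Matrix.smul_mul, Matrix.mul_smul, smul_smul, hmul, ← map_mul, mul_inv_cancel₀ hz, map_one,
      one_smul]
  constructor
  · rintro ⟨z, hz, h1, h2⟩
    rw [hφ.int, TreeB_phi_smul hφ] at h1 h2
    refine ⟨algebraMap kk (Kv v) z, by simpa using hz, h1, ?_⟩
    have h3 := congrArg Matrix.det (hprod z hz)
    rw [Matrix.det_mul, Matrix.det_one] at h3
    have h4 := congrArg Valued.v h3
    rw [map_mul, map_one] at h4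
    exact le_antisymm (TreeB_det_le h1) (by
      rw [← h4]
      exact mul_le_of_le_one_right' (TreeB_det_le h2))
  · rintro ⟨Z, hZ, hG⟩
    obtain ⟨z, hz, hzZ⟩ := TreeB_val_ex Z hZ
    have hG' : GLO (algebraMap kk (Kv v) z • φ (g : AA)) := by
      have h1 : algebraMap kk (Kv v) z • φ (g : AA) =
          (algebraMap kk (Kv v) z / Z) • (Z • φ (g : AA)) := by
        rw [smul_smul, div_mul_cancel₀ _ hZ]
      rw [h1]
      refine TreeB_GLO_smul hG ?_
      rw [map_div₀, hzZ, div_self]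
      simpa using hZ
    refine ⟨z, hz, ?_, ?_⟩
    · rw [hφ.int, TreeB_phi_smul hφ]
      exact hG'.1
    · rw [hφ.int, TreeB_phi_smul hφ]
      exact (TreeB_GLO_inv hG' (hprod z hz)).1

private theorem TreeB_unit {v : Pl} {φ : AA →+* Matrix (Fin 2) (Fin 2) (Kv v)}
    (hφ : LocR v φ) (g : AA) (h : (φ g).det ≠ 0) : ∃ u : AAˣ, (u : AA) = g := by
  have hn : nrd g ≠ 0 := by
    intro h0
    apply h
    rw [hφ.det, h0, map_zero]
  obtain ⟨h1, h2⟩ := mul_cj g
  refine ⟨⟨g, algebraMap kk AA (nrd g)⁻¹ * cj g, ?_, ?_⟩, rfl⟩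
  · rw [← mul_assoc, ← Algebra.commutes, mul_assoc, h1, ← map_mul, inv_mul_cancel₀ hn, map_one]
  · rw [mul_assoc, h2, ← map_mul, inv_mul_cancel₀ hn, map_one]

/-- Density, up to integral invertible matrices. -/
private theorem TreeB_dense {v : Pl} {φ : AA →+* Matrix (Fin 2) (Fin 2) (Kv v)}
    (hφ : LocR v φ) (M : Matrix (Fin 2) (Fin 2) (Kv v)) (hM : M.det ≠ 0) :
    ∃ (u : AAˣ) (U : Matrix (Fin 2) (Fin 2) (Kv v)), GLO U ∧ φ (u : AA) = M * U := by
  have hu : IsUnit M.det := isUnit_iff_ne_zero.2 hM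
  obtain ⟨r, hr, hrE⟩ := TreeB_small M⁻¹ 1
  obtain ⟨y, ⟨g, rfl⟩, hy⟩ := (kt_closure_mat v M (Set.range φ)).1 (hφ.dense M) r hr
  have h1 := hrE (φ g - M) (fun i j => by rw [Matrix.sub_apply]; exact hy i j)
  have hG : GLO (M⁻¹ * φ g) := by
    apply TreeB_near
    intro i j
    have h2 := h1 i j
    rw [Matrix.mul_one, Matrix.mul_sub, Matrix.nonsing_inv_mul M hu, Matrix.sub_apply] at h2
    exact h2
  have hMg : φ g = M * (M⁻¹ * φ g) := by
    rw [← Matrix.mul_assoc, Matrix.mul_nonsing_inv M hu, Matrix.one_mul]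
  have hdet : (φ g).det ≠ 0 := by
    rw [hMg, Matrix.det_mul]
    refine mul_ne_zero hM ?_
    intro h0
    have := hG.2
    rw [h0, map_zero] at this
    exact zero_ne_one this
  obtain ⟨u, rfl⟩ := TreeB_unit hφ g hdet
  exact ⟨u, _, hG, hMg⟩

private theorem TreeB_phi_K {v : Pl} {φ : AA →+* Matrix (Fin 2) (Fin 2) (Kv v)}
    (hφ : LocR v φ) (x : KK) :
    φ (inK x) = mx (algebraMap kk (Kv v) x.re) (algebraMap kk (Kv v) x.im) := by
  rw [hφ.inK, mx, map_sub]

private theorem TreeB_det_mx {v : Pl} {φ : AA →+* Matrix (Fin 2) (Fin 2) (Kv v)}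
    (hφ : LocR v φ) (x : KK) :
    (mx (algebraMap kk (Kv v) x.re) (algebraMap kk (Kv v) x.im)).det =
      algebraMap kk (Kv v) (NK x) := by
  rw [← TreeB_phi_K hφ, hφ.det, nrd_inK]

theorem tree (v : Pl) (hv : v ∉ SS4) : ∃ d : ℕ → AAˣ, d 0 = 1 ∧
    (∀ n, Even (ord v (nrd (d n : AA)) - n)) ∧
    (∀ (n m : ℕ) (x : KKˣ), (d n)⁻¹ * inKu x * d m ∈ UU v ↔ n = m ∧ x ∈ Rn v n) ∧
    (∀ g : AAˣ, ∃ (n : ℕ) (x y : KKˣ), (∀ w, w ≠ v → inKu x ∈ UU w) ∧ y ∈ Rn v 0 ∧
      (d n)⁻¹ * (inKu (x * y))⁻¹ * g ∈ UU v) := by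
  classical
  obtain ⟨φ, hφ⟩ := locphi v hv
  obtain ⟨p, hp0, hp⟩ := ord_surj v 1
  set P : Kv v := algebraMap kk (Kv v) p with hPd
  have hP0 : P ≠ 0 := by simpa [hPd] using hp0
  have hPv : Valued.v P = WithZero.exp (-1 : ℤ) := by
    rw [hPd, Kv_val, TreeB_val v hp0, hp]
  have hPn : ∀ n : ℕ, Valued.v (P ^ n) = WithZero.exp (-(n : ℤ)) := by
    intro n
    rw [map_pow, hPv, ← WithZero.exp_nsmul]
    congr 1
    simp
  have hPn1 : ∀ n : ℕ, Valued.v (P ^ n) ≤ 1 := by
    intro n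
    rw [hPn, ← WithZero.exp_zero, WithZero.exp_le_exp]
    omega
  let D : ℕ → Matrix (Fin 2) (Fin 2) (Kv v) := fun n => !![1, 0; 0, P ^ n]
  have hDdet : ∀ n, (D n).det = P ^ n := by
    intro n
    simp [D, Matrix.det_fin_two]
  have hD0 : ∀ n, (D n).det ≠ 0 := by
    intro n
    rw [hDdet]
    exact pow_ne_zero _ hP0
  have hDinv : ∀ n, (D n)⁻¹ * D n = 1 := fun n =>
    Matrix.nonsing_inv_mul _ (isUnit_iff_ne_zero.2 (hD0 n))
  have hex : ∀ n, ∃ u : AAˣ, (n = 0 → u = 1) ∧ ∃ U, GLO U ∧ φ (u : AA) = D n * U := by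
    intro n
    rcases Nat.eq_zero_or_pos n with h0 | h0
    · refine ⟨1, fun _ => rfl, 1, ?_, ?_⟩
      · exact TreeB_near (fun i j => by simp)
      · rw [Units.val_one, map_one, h0, Matrix.mul_one]
        simp only [D, pow_zero]
        exact Matrix.one_fin_two
    · obtain ⟨u, U, hU, hu⟩ := TreeB_dense hφ (D n) (hD0 n)
      exact ⟨u, fun h => absurd h h0.ne', U, hU, hu⟩
  choose d hd0 U hU hdU using hex
  choose V hV hUV hVU using fun n => TreeB_inv_ex (hU n)
  have hcancel : ∀ n (A B : Matrix (Fin 2) (Fin 2) (Kv v)), D n * A = D n * B → A = B := by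
    intro n A B h
    have := congrArg (fun X => (D n)⁻¹ * X) h
    simpa [← Matrix.mul_assoc, hDinv] using this
  refine ⟨d, hd0 0 rfl, ?_, ?_, ?_⟩
  · intro n
    have h1 := congrArg Matrix.det (hdU n)
    rw [hφ.det, Matrix.det_mul, hDdet] at h1
    have h2 := congrArg Valued.v h1
    rw [Kv_val, map_mul, (hU n).2, mul_one, hPn] at h2
    obtain ⟨-, h3⟩ := TreeB_ord v h2
    rw [h3, sub_self]
    exact Even.zero
  · intro n m x
    set x₀ : Kv v := algebraMap kk (Kv v) (x : KK).re with hx₀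
    set x₁ : Kv v := algebraMap kk (Kv v) (x : KK).im with hx₁
    set h : AAˣ := (d n)⁻¹ * inKu x * d m with hh
    have hrel : d n * h = inKu x * d m := by rw [hh]; group
    have hrel' : D n * U n * φ (h : AA) = mx x₀ x₁ * (D m * U m) := by
      have h1 := congrArg (fun u : AAˣ => φ (u : AA)) hrel
      simp only [Units.val_mul, map_mul] at h1
      rw [hdU, hdU] at h1
      have h2 : ((inKu x : AAˣ) : AA) = inK (x : KK) := rfl
      rw [h2, TreeB_phi_K hφ] at h1
      exact h1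
    rw [TreeB_UU hv hφ]
    constructor
    · rintro ⟨Z, hZ, hG⟩
      have hG2 : GLO (U n * (Z • φ (h : AA)) * V m) :=
        TreeB_GLO_mul (TreeB_GLO_mul (hU n) hG) (hV m)
      have hkey : mx x₀ x₁ * !![1, 0; 0, algebraMap kk (Kv v) p ^ m] =
          Z⁻¹ • (!![1, 0; 0, algebraMap kk (Kv v) p ^ n] * (U n * (Z • φ (h : AA)) * V m)) := by
        show mx x₀ x₁ * D m = Z⁻¹ • (D n * (U n * (Z • φ (h : AA)) * V m))
        have h3 : D n * (U n * (Z • φ (h : AA)) * V m) = Z • ((D n * U n * φ (h : AA)) * V m) := by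
          simp only [Matrix.mul_smul, Matrix.smul_mul, Matrix.mul_assoc]
        rw [h3, hrel', smul_smul, inv_mul_cancel₀ hZ, one_smul]
        rw [Matrix.mul_assoc, Matrix.mul_assoc, hUV, Matrix.mul_one]
      obtain ⟨hnm, k1, k2, k3⟩ := tree_unique v p hp m n x₀ x₁ Z⁻¹ (inv_ne_zero hZ) _ hG2 hkey
      refine ⟨hnm, ?_⟩
      obtain ⟨z, hz, hzZ⟩ := TreeB_val_ex Z hZ
      rw [Kv_val] at hzZ
      rw [map_div₀, map_inv₀, div_inv_eq_mul, ← hzZ, hx₀, Kv_val, ← map_mul] at k1
      rw [map_div₀, map_inv₀, div_inv_eq_mul, ← hzZ, hx₁, Kv_val, ← map_mul] at k2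
      have k3' : v.valuation kk (z ^ 2 * NK (x : KK)) = 1 := by
        rw [TreeB_det_mx hφ, map_div₀, Kv_val, inv_pow, map_inv₀, map_pow, div_inv_eq_mul,
          ← hzZ, ← map_pow, ← map_mul] at k3
        rw [mul_comm]
        exact k3
      refine ⟨z, hz, ?_, ?_, ?_⟩
      · by_cases h0 : (x : KK).re = 0
        · rw [h0]; simp [ord]
        · rw [mul_comm z]
          exact (val_le_one (mul_ne_zero h0 hz)).1 k1
      · by_cases h0 : (x : KK).im = 0
        · exact Or.inl h0
        · right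
          change _ ≤ Valued.v (P ^ n) at k2
          rw [hPn, TreeB_val v (mul_ne_zero h0 hz), WithZero.exp_le_exp] at k2
          rw [mul_comm z]
          omega
      · have hN0 := NK_ne (Units.ne_zero x)
        rw [TreeB_val v (mul_ne_zero (pow_ne_zero _ hz) hN0), ord_mul v (pow_ne_zero _ hz) hN0,
          ord_pow, ← WithZero.exp_zero, WithZero.exp_inj] at k3'
        push_cast at k3'
        omega
    · rintro ⟨rfl, z, hz, h1, h2, h3⟩
      set Z : Kv v := algebraMap kk (Kv v) z with hZd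
      have hZ : Z ≠ 0 := by simpa [hZd] using hz
      have hx0 : Valued.v (Z * x₀) ≤ 1 := by
        rw [hZd, hx₀, ← map_mul, Kv_val]
        by_cases h0 : (x : KK).re = 0
        · rw [h0]; simp
        · exact (val_le_one (mul_ne_zero hz h0)).2 h1
      have hx1 : Valued.v (Z * x₁) ≤ Valued.v (P ^ n) := by
        rw [hZd, hx₁, ← map_mul, Kv_val, hPn]
        rcases h2 with h2 | h2
        · rw [h2]; simp
        · by_cases h0 : (x : KK).im = 0
          · rw [h0]; simp
          · rw [TreeB_val v (mul_ne_zero hz h0), WithZero.exp_le_exp]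
            omega
      have hx1' : Valued.v (Z * x₁) ≤ 1 := hx1.trans (hPn1 n)
      let W : Matrix (Fin 2) (Fin 2) (Kv v) :=
        !![Z * x₀, -(Z * x₁ * P ^ n); Z * x₁ / P ^ n, Z * x₀ - Z * x₁]
      have hW : GLO W := by
        refine ⟨?_, ?_⟩
        · intro i j
          fin_cases i <;> fin_cases j
          · exact hx0
          · show Valued.v (-(Z * x₁ * P ^ n)) ≤ 1
            rw [Valuation.map_neg, map_mul]
            exact mul_le_one' hx1' (hPn1 n)
          · show Valued.v (Z * x₁ / P ^ n) ≤ 1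
            rw [map_div₀]
            exact div_le_one_of_le₀ hx1 zero_le
          · show Valued.v (Z * x₀ - Z * x₁) ≤ 1
            exact (Valuation.map_sub _ _ _).trans (max_le hx0 hx1')
        · have hPn0 : P ^ n ≠ 0 := pow_ne_zero _ hP0
          have h4 : W.det = Z ^ 2 * (mx x₀ x₁).det := by
            rw [Matrix.det_fin_two, Matrix.det_fin_two]
            simp only [W, mx, Matrix.of_apply, Matrix.cons_val', Matrix.cons_val_zero,
              Matrix.cons_val_one, Matrix.cons_val_fin_one]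
            field_simp
          have hN0 := NK_ne (Units.ne_zero x)
          rw [h4, TreeB_det_mx hφ, hZd, ← map_pow, ← map_mul, Kv_val,
            TreeB_val v (mul_ne_zero (pow_ne_zero _ hz) hN0), ord_mul v (pow_ne_zero _ hz) hN0,
            ord_pow, ← WithZero.exp_zero]
          congr 1
          push_cast
          omega
      have hDW : D n * W = Z • (mx x₀ x₁ * D n) := by
        have hPn0 : P ^ n ≠ 0 := pow_ne_zero _ hP0
        have e10 : P ^ n * (Z * x₁ / P ^ n) = Z * x₁ := mul_div_cancel₀ _ hPn0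
        refine Matrix.ext fun i j => ?_
        fin_cases i <;> fin_cases j <;>
          simp only [D, W, mx, Matrix.mul_apply, Fin.sum_univ_two, Matrix.smul_apply, Matrix.of_apply,
            Matrix.cons_val', Matrix.cons_val_zero, Matrix.cons_val_one, Matrix.cons_val_fin_one,
            Fin.zero_eta, Fin.mk_one, smul_eq_mul, e10]
        · ring
        · ring
        · ring
        · ring
      refine ⟨Z, hZ, ?_⟩
      have h5 : Z • φ (h : AA) = V n * (W * U n) := by
        have h6 : U n * (Z • φ (h : AA)) = W * U n := by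
          apply hcancel n
          calc D n * (U n * (Z • φ (h : AA))) = Z • (D n * U n * φ (h : AA)) := by
                simp only [Matrix.mul_smul, Matrix.mul_assoc]
            _ = Z • (mx x₀ x₁ * (D n * U n)) := by rw [hrel']
            _ = (Z • (mx x₀ x₁ * D n)) * U n := by
                simp only [Matrix.smul_mul, Matrix.mul_assoc]
            _ = D n * (W * U n) := by rw [← hDW, Matrix.mul_assoc]
        rw [← h6, ← Matrix.mul_assoc, hVU, Matrix.one_mul]
      rw [h5]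
      exact TreeB_GLO_mul (hV n) (TreeB_GLO_mul hW (hU n))
  · intro g
    have hdet : (φ (g : AA)).det ≠ 0 := by
      rw [hφ.det]
      simpa using nrd_ne g
    obtain ⟨n, x₀, x₁, T, hx, hT, hM⟩ := tree_exists v hv p hp (φ (g : AA)) hdet
    change φ (g : AA) = mx x₀ x₁ * D n * T at hM
    set X := mx x₀ x₁ with hX
    have hXu : IsUnit X.det := isUnit_iff_ne_zero.2 hx
    obtain ⟨r, hr, hrE⟩ := TreeB_small ((D n)⁻¹ * X⁻¹) (D n)
    obtain ⟨t₀, ht₀⟩ := Kv_approx v x₀ r hr
    obtain ⟨t₁, ht₁⟩ := Kv_approx v x₁ r hr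
    let t : KK := ⟨t₀, t₁⟩
    set Y := mx (algebraMap kk (Kv v) t.re) (algebraMap kk (Kv v) t.im) with hY
    have hE : ∀ i j, Valued.v ((Y - X) i j) ≤ r := by
      have e0 : Valued.v (algebraMap kk (Kv v) t₀ - x₀) ≤ r := by
        rw [Valuation.map_sub_swap]; exact ht₀
      have e1 : Valued.v (algebraMap kk (Kv v) t₁ - x₁) ≤ r := by
        rw [Valuation.map_sub_swap]; exact ht₁
      intro i j
      fin_cases i <;> fin_cases j
      · show Valued.v (algebraMap kk (Kv v) t₀ - x₀) ≤ r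
        exact e0
      · show Valued.v (-algebraMap kk (Kv v) t₁ - -x₁) ≤ r
        rw [← neg_sub', Valuation.map_neg]
        exact e1
      · show Valued.v (algebraMap kk (Kv v) t₁ - x₁) ≤ r
        exact e1
      · show Valued.v (algebraMap kk (Kv v) t₀ - algebraMap kk (Kv v) t₁ - (x₀ - x₁)) ≤ r
        have : algebraMap kk (Kv v) t₀ - algebraMap kk (Kv v) t₁ - (x₀ - x₁) =
          (algebraMap kk (Kv v) t₀ - x₀) - (algebraMap kk (Kv v) t₁ - x₁) := by ring
        rw [this]
        exact (Valuation.map_sub _ _ _).trans (max_le e0 e1)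
    have hW : GLO ((D n)⁻¹ * X⁻¹ * Y * D n) := by
      apply TreeB_near
      intro i j
      have h1 := hrE (Y - X) hE i j
      have h2 : (D n)⁻¹ * X⁻¹ * (Y - X) * D n = (D n)⁻¹ * X⁻¹ * Y * D n - 1 := by
        rw [Matrix.mul_sub, Matrix.sub_mul, Matrix.mul_assoc (D n)⁻¹ X⁻¹ X,
          Matrix.nonsing_inv_mul X hXu, Matrix.mul_one, hDinv]
      rw [h2, Matrix.sub_apply] at h1
      exact h1
    obtain ⟨W', hW', hWW', -⟩ := TreeB_inv_ex hW
    have hDu : IsUnit (D n).det := isUnit_iff_ne_zero.2 (hD0 n)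
    have hYD : Y * D n = X * D n * ((D n)⁻¹ * X⁻¹ * Y * D n) := by
      calc Y * D n = (X * ((D n * (D n)⁻¹) * X⁻¹)) * (Y * D n) := by
            rw [Matrix.mul_nonsing_inv _ hDu, Matrix.one_mul, Matrix.mul_nonsing_inv X hXu,
              Matrix.one_mul]
        _ = X * D n * ((D n)⁻¹ * X⁻¹ * Y * D n) := by simp only [Matrix.mul_assoc]
    have hg : φ (g : AA) = Y * D n * (W' * T) := by
      rw [hYD, Matrix.mul_assoc (X * D n), ← Matrix.mul_assoc _ W' T, hWW', Matrix.one_mul, hM]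
    have hYdet : Y.det ≠ 0 := by
      intro h0
      apply hdet
      rw [hg, Matrix.det_mul, Matrix.det_mul, h0, zero_mul, zero_mul]
    have ht0 : t ≠ 0 := by
      intro h0
      apply hYdet
      rw [hY, TreeB_det_mx hφ, h0]
      simp [NK]
    obtain ⟨x, y, hx, hy, hxy⟩ := TreeB_dec hv (Units.mk0 t ht0)
    refine ⟨n, x, y, hx, hy, ?_⟩
    rw [← hxy, TreeB_UU hv hφ]
    refine ⟨1, one_ne_zero, ?_⟩
    rw [one_smul]
    set h : AAˣ := (d n)⁻¹ * (inKu (Units.mk0 t ht0))⁻¹ * g with hh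
    have hrel : inKu (Units.mk0 t ht0) * d n * h = g := by rw [hh]; group
    have h1 := congrArg (fun u : AAˣ => φ (u : AA)) hrel
    simp only [Units.val_mul, map_mul] at h1
    have h2 : ((inKu (Units.mk0 t ht0) : AAˣ) : AA) = inK t := rfl
    rw [h2, TreeB_phi_K hφ, ← hY, hdU, hg] at h1
    have hYu : IsUnit Y.det := isUnit_iff_ne_zero.2 hYdet
    have h3 : U n * φ (h : AA) = W' * T := by
      apply hcancel n
      have h4 := congrArg (fun X => Y⁻¹ * X) h1
      simp only [← Matrix.mul_assoc] at h4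
      rw [Matrix.nonsing_inv_mul Y hYu, Matrix.one_mul] at h4
      simpa only [Matrix.mul_assoc] using h4
    have h5 : φ (h : AA) = V n * (W' * T) := by
      rw [← h3, ← Matrix.mul_assoc, hVU, Matrix.one_mul]
    rw [h5]
    exact TreeB_GLO_mul (hV n) (TreeB_GLO_mul hW' hT)

end

end Pool.Agent.Work.MP_14c213_gt
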