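import Mathlib

/-!
The zeta function as a sum over ideals in ENNReal. Mathlib: NumberField.dedekindZeta,
NumberField.tendsto_sub_one_mul_dedekindZeta_nhdsGT, residue positive (dedekindZeta_residue_pos).
-/

namespace Pool.Agent.Work.MP_14c213_gt

open Matrix IsDedekindDomain
open scoped Matrix NumberField QuadraticAlgebra

noncomputable section

/-- `∑ N(I)^{-s}` over the nonzero ideals. -/
def ZZt (L : Type) [Field L] [NumberField L] (s : ℝ) : ENNReal :=
  ∑' I : {I : Ideal (𝓞 L) // I ≠ ⊥}, ENNReal.ofReal ((Ideal.absNorm I.1 : ℝ) ^ (-s))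

open Filter Topology NumberField in
private lemma zetaA_lim (L : Type) [Field L] [NumberField L] :
    Tendsto (fun n : ℕ => (∑ k ∈ Finset.Icc 1 n,
      ((Nat.card {I : Ideal (𝓞 L) // Ideal.absNorm I = k} : ℕ) : ℝ)) / (n : ℝ)) atTop
      (𝓝 (dedekindZeta_residue L)) := by
  refine ((Ideal.tendsto_norm_le_div_atTop₀ L).comp tendsto_natCast_atTop_atTop).congr fun n ↦ ?_
  simp only [Function.comp_apply, Nat.cast_le, ← Nat.cast_sum]
  congr
  rw [← add_left_inj 1, ← Ideal.card_norm_le_eq_card_norm_le_add_one,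
    show Finset.Icc 1 n = Finset.Ioc 0 n from Finset.Icc_succ_left_eq_Ioc _ _,
    show 1 = Nat.card {I : Ideal (𝓞 L) // Ideal.absNorm I = 0} by simp [Ideal.absNorm_eq_zero_iff],
    Finset.sum_Ioc_add_eq_sum_Icc (n.zero_le),
    ← Finset.card_preimage_eq_sum_card_image_eq (fun k _ ↦ Ideal.finite_setOfPred_absNorm_eq k)]
  simp [Set.coe_eq_subtype]

private def zetaA_t (L : Type) [Field L] [NumberField L] (s : ℝ) (n : ℕ) : ℝ :=
  if n = 0 then 0 else ((Nat.card {I : Ideal (𝓞 L) // Ideal.absNorm I = n} : ℕ) : ℝ) * (n : ℝ) ^ (-s)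

private lemma zetaA_t_nonneg (L : Type) [Field L] [NumberField L] (s : ℝ) (n : ℕ) : 0 ≤ zetaA_t L s n := by
  unfold zetaA_t
  split_ifs <;> positivity

private lemma zetaA_term (L : Type) [Field L] [NumberField L] (s : ℝ) (n : ℕ) :
    LSeries.term (fun n => (((Nat.card {I : Ideal (𝓞 L) // Ideal.absNorm I = n} : ℕ) : ℝ) : ℂ)) s n
      = ((zetaA_t L s n : ℝ) : ℂ) := by
  unfold zetaA_t
  rcases eq_or_ne n 0 with rfl | hn
  · simp
  · rw [LSeries.term_of_ne_zero hn, if_neg hn]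
    push_cast
    rw [div_eq_mul_inv]
    congr 1
    rw [Complex.ofReal_cpow (by positivity)]
    push_cast
    rw [Complex.cpow_neg]

private lemma zetaA_summable (L : Type) [Field L] [NumberField L] {s : ℝ} (hs : 1 < s) :
    Summable (zetaA_t L s) := by
  have h := LSeriesSummable_of_sum_norm_bigO_and_nonneg (r := 1) (s := (s : ℂ))
    (f := fun n => ((Nat.card {I : Ideal (𝓞 L) // Ideal.absNorm I = n} : ℕ) : ℝ))
    (Asymptotics.isBigO_atTop_natCast_rpow_of_tendsto_div_rpow (a := (NumberField.dedekindZeta_residue L : ℝ)) (by simpa using zetaA_lim L))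
    (fun _ => Nat.cast_nonneg _) zero_le_one (by simpa using hs)
  unfold LSeriesSummable at h
  rw [funext (zetaA_term L s)] at h
  exact Complex.summable_ofReal.1 h

private lemma zetaA_ZZt (L : Type) [Field L] [NumberField L] (s : ℝ) :
    ZZt L s = ∑' n, ENNReal.ofReal (zetaA_t L s n) := by
  unfold ZZt
  rw [← (Equiv.sigmaFiberEquiv (fun I : {I : Ideal (𝓞 L) // I ≠ ⊥} => Ideal.absNorm I.1)).tsum_eq,
    ENNReal.tsum_sigma']
  refine tsum_congr fun n => ?_
  have h1 : ∀ b : {x : {I : Ideal (𝓞 L) // I ≠ ⊥} // Ideal.absNorm x.1 = n},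
      ENNReal.ofReal ((Ideal.absNorm ((Equiv.sigmaFiberEquiv
        (fun I : {I : Ideal (𝓞 L) // I ≠ ⊥} => Ideal.absNorm I.1)) ⟨n, b⟩).1 : ℝ) ^ (-s))
        = ENNReal.ofReal ((n : ℝ) ^ (-s)) := by
    intro b
    have : Ideal.absNorm ((Equiv.sigmaFiberEquiv
        (fun I : {I : Ideal (𝓞 L) // I ≠ ⊥} => Ideal.absNorm I.1)) ⟨n, b⟩).1 = n := b.2
    rw [this]
  rw [tsum_congr h1]
  unfold zetaA_t
  rcases eq_or_ne n 0 with rfl | hn
  · rw [if_pos rfl]
    have : IsEmpty {x : {I : Ideal (𝓞 L) // I ≠ ⊥} // Ideal.absNorm x.1 = 0} :=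
      ⟨fun x => x.1.2 (Ideal.absNorm_eq_zero_iff.1 x.2)⟩
    simp
  · rw [if_neg hn]
    let e : {x : {I : Ideal (𝓞 L) // I ≠ ⊥} // Ideal.absNorm x.1 = n} ≃
        {I : Ideal (𝓞 L) // Ideal.absNorm I = n} :=
      { toFun := fun x => ⟨x.1.1, x.2⟩
        invFun := fun x => ⟨⟨x.1, fun h => hn (by rw [← x.2, h]; simp)⟩, x.2⟩
        left_inv := fun x => rfl
        right_inv := fun x => rfl }
    have hf : Finite {I : Ideal (𝓞 L) // Ideal.absNorm I = n} := Ideal.finite_setOfPred_absNorm_eq n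
    have := Fintype.ofFinite {I : Ideal (𝓞 L) // Ideal.absNorm I = n}
    rw [← e.symm.tsum_eq]
    rw [tsum_fintype, Finset.sum_const, Finset.card_univ, ← Nat.card_eq_fintype_card, nsmul_eq_mul,
      ENNReal.ofReal_mul (by positivity), ENNReal.ofReal_natCast]

private lemma zetaA_real (L : Type) [Field L] [NumberField L] {s : ℝ} (hs : 1 < s) :
    ZZt L s = ENNReal.ofReal (∑' n, zetaA_t L s n) := by
  rw [zetaA_ZZt, ENNReal.ofReal_tsum_of_nonneg (zetaA_t_nonneg L s) (zetaA_summable L hs)]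

theorem zeta_fin (L : Type) [Field L] [NumberField L] (s : ℝ) (hs : 1 < s) : ZZt L s ≠ ⊤ := by
  rw [zetaA_real L hs]
  exact ENNReal.ofReal_ne_top

theorem zeta_lim (L : Type) [Field L] [NumberField L] : ∃ κ : ℝ, 0 < κ ∧
    Filter.Tendsto (fun s : ℝ => (s - 1) * (ZZt L s).toReal) (nhdsWithin 1 (Set.Ioi 1)) (nhds κ) := by
  refine ⟨NumberField.dedekindZeta_residue L, NumberField.dedekindZeta_residue_pos L, ?_⟩
  have h := NumberField.tendsto_sub_one_mul_dedekindZeta_nhdsGT L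
  have h2 := (Complex.continuous_re.tendsto _).comp h
  refine (h2.congr' ?_)
  filter_upwards [self_mem_nhdsWithin] with s hs
  have hs' : 1 < s := hs
  rw [zetaA_real L hs', ENNReal.toReal_ofReal (tsum_nonneg (zetaA_t_nonneg L s))]
  have h3 : NumberField.dedekindZeta L s = ((∑' n, zetaA_t L s n : ℝ) : ℂ) := by
    rw [Complex.ofReal_tsum]
    unfold NumberField.dedekindZeta LSeries
    refine tsum_congr fun n => ?_
    rw [← zetaA_term]
    simp
  simp only [Function.comp_apply]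
  rw [h3]
  norm_cast

end

end Pool.Agent.Work.MP_14c213_gt
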