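import Pool.Agent.Work.MP_14c213_gt.B.ZetaT

/-!
A number field without a root of x² + x + 1 has a prime of norm 2 mod 3: otherwise ZZt L s² ≤ C² ZZt (MM L) s by
zeta_three, zeta_ineq; multiply by (s-1)² and let s → 1+: κ_L² ≤ C² · 0.
-/

namespace Pool.Agent.Work.MP_14c213_gt

open Matrix IsDedekindDomain
open scoped Matrix NumberField QuadraticAlgebra

noncomputable section

theorem zeta_prime (L : Type) [Field L] [NumberField L] (h : ¬ ∃ x : L, x ^ 2 + x + 1 = 0) :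
    ∃ P : HeightOneSpectrum (𝓞 L), Ideal.absNorm P.asIdeal % 3 = 2 := by
  by_contra hcon
  have hcon' : ∀ P : HeightOneSpectrum (𝓞 L), Ideal.absNorm P.asIdeal % 3 ≠ 2 :=
    fun P hP => hcon ⟨P, hP⟩
  have hno : Fact (NoRoot L) := ⟨fun r hr => h ⟨r, by rw [hr]; ring⟩⟩
  have hnf : NumberField (MM L) := MM_nf L
  obtain ⟨C, hC, h3⟩ := zeta_three L
  obtain ⟨κ, hκ, hL⟩ := zeta_lim L
  obtain ⟨κ', hκ', hM⟩ := zeta_lim (MM L)
  have h1 : ∀ s : ℝ, 1 < s → (ZZt L s).toReal * (ZZt L s).toReal ≤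
      C.toReal * C.toReal * (ZZt (MM L) s).toReal := by
    intro s hs
    rw [← ENNReal.toReal_mul, ← ENNReal.toReal_mul, ← ENNReal.toReal_mul]
    refine ENNReal.toReal_mono (ENNReal.mul_ne_top (ENNReal.mul_ne_top hC hC) (zeta_fin _ s hs)) ?_
    calc ZZt L s * ZZt L s ≤ (C * Z3 L s) * (C * Z3 L s) := mul_le_mul' (h3 s hs) (h3 s hs)
      _ = C * C * (Z3 L s * Z3 L s) := by ring
      _ ≤ C * C * ZZt (MM L) s := mul_le_mul_right (zeta_ineq L hcon' s hs) _
  have h2 : Filter.Tendsto (fun s : ℝ => ((s - 1) * (ZZt L s).toReal) * ((s - 1) * (ZZt L s).toReal))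
      (nhdsWithin 1 (Set.Ioi 1)) (nhds (κ * κ)) := hL.mul hL
  have h4 : Filter.Tendsto (fun s : ℝ => C.toReal * C.toReal *
      ((s - 1) * ((s - 1) * (ZZt (MM L) s).toReal))) (nhdsWithin 1 (Set.Ioi 1))
      (nhds (C.toReal * C.toReal * ((1 - 1) * κ'))) := by
    refine Filter.Tendsto.const_mul _ (Filter.Tendsto.mul ?_ hM)
    have : Filter.Tendsto (fun s : ℝ => s - 1) (nhds 1) (nhds (1 - 1)) :=
      (continuous_id.sub continuous_const).tendsto 1
    exact this.mono_left nhdsWithin_le_nhds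
  have h5 : κ * κ ≤ C.toReal * C.toReal * ((1 - 1) * κ') := by
    refine le_of_tendsto_of_tendsto h2 h4 ?_
    filter_upwards [self_mem_nhdsWithin] with s hs
    have hs' : (1 : ℝ) < s := hs
    have h6 := mul_le_mul_of_nonneg_left (h1 s hs') (mul_self_nonneg (s - 1))
    nlinarith [h6]
  have h6 : 0 < κ * κ := mul_pos hκ hκ
  simp at h5
  linarith

end

end Pool.Agent.Work.MP_14c213_gt
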