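import Pool.Agent.Work.MP_14c213_gt.B.ZetaA

/-!
Ideals prime to 3. Every nonzero ideal is J I' with J a product of primes over 3, I' prime to 3 (factorization);
the number 3^k bounds: Σ over the J of N(J)^{-1} is finite (finite product of geometric series over the finitely many
primes over 3).
-/

namespace Pool.Agent.Work.MP_14c213_gt

open Matrix IsDedekindDomain
open scoped Matrix NumberField QuadraticAlgebra

noncomputable section

/-- `∑ N(I)^{-s}` over the nonzero ideals prime to 3. -/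
def Z3 (L : Type) [Field L] [NumberField L] (s : ℝ) : ENNReal :=
  ∑' I : {I : Ideal (𝓞 L) // I ≠ ⊥ ∧ I ⊔ Ideal.span {3} = ⊤},
    ENNReal.ofReal ((Ideal.absNorm I.1 : ℝ) ^ (-s))

open Classical in
/-- `∑ N(I)^{-s}` over the nonzero ideals not divisible by the elements of `T`. -/
private def zetaC_F (L : Type) [Field L] [NumberField L] (s : ℝ) (T : Finset (Ideal (𝓞 L)))
    (I : Ideal (𝓞 L)) : ENNReal :=
  if I ≠ ⊥ ∧ ∀ Q ∈ T, ¬ Q ∣ I then ENNReal.ofReal ((Ideal.absNorm I : ℝ) ^ (-s)) else 0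

private lemma zetaC_empty (L : Type) [Field L] [NumberField L] (s : ℝ) :
    ZZt L s = ∑' I, zetaC_F L s ∅ I := by
  classical
  unfold ZZt
  have := tsum_subtype {I : Ideal (𝓞 L) | I ≠ ⊥} (fun I => ENNReal.ofReal ((Ideal.absNorm I : ℝ) ^ (-s)))
  refine this.trans ?_
  refine tsum_congr fun I => ?_
  simp [Set.indicator_apply, zetaC_F]

private lemma zetaC_le {L : Type} [Field L] [NumberField L] {s : ℝ} (T : Finset (Ideal (𝓞 L)))
    (I : Ideal (𝓞 L)) : zetaC_F L s T I ≤ zetaC_F L s ∅ I := by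
  classical
  unfold zetaC_F
  by_cases h : I = ⊥
  · simp [h]
  · by_cases h2 : ∀ Q ∈ T, ¬ Q ∣ I
    · simp [h]
      split_ifs <;> simp
    · simp [h]
      split_ifs <;> simp

private lemma zetaC_fin {L : Type} [Field L] [NumberField L] {s : ℝ} (hs : 1 < s)
    (T : Finset (Ideal (𝓞 L))) : ∑' I, zetaC_F L s T I ≠ ⊤ := by
  refine ne_top_of_le_ne_top (zeta_fin L s hs) ?_
  rw [zetaC_empty]
  exact ENNReal.tsum_le_tsum (zetaC_le T)

private lemma zetaC_step {L : Type} [Field L] [NumberField L] {s : ℝ} (hs : 1 < s)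
    (T : Finset (Ideal (𝓞 L))) [DecidableEq (Ideal (𝓞 L))] {P : Ideal (𝓞 L)} (hP0 : P ≠ ⊥) (hP1 : P ≠ ⊤) :
    ∑' I, zetaC_F L s T I ≤ 2 * ∑' I, zetaC_F L s (insert P T) I := by
  classical
  set x := ∑' I, zetaC_F L s T I with hx
  have hxf : x ≠ ⊤ := zetaC_fin hs T
  -- pointwise splitting
  have h1 : ∀ I, zetaC_F L s T I ≤ zetaC_F L s (insert P T) I + (if P ∣ I then zetaC_F L s T I else 0) := by
    intro I
    by_cases hd : P ∣ I
    · simp [hd]
    · rw [if_neg hd, add_zero]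
      unfold zetaC_F
      apply le_of_eq
      congr 1
      simp [hd]
  have hinj : Function.Injective (fun I : Ideal (𝓞 L) => P * I) := mul_right_injective₀ hP0
  have h2 : ∑' I, (if P ∣ I then zetaC_F L s T I else 0) = ∑' I, zetaC_F L s T (P * I) := by
    rw [← hinj.tsum_eq (f := fun I => if P ∣ I then zetaC_F L s T I else 0)]
    · refine tsum_congr fun I => ?_
      simp
    · intro I hI
      by_cases hd : P ∣ I
      · obtain ⟨J, rfl⟩ := hd
        exact ⟨J, rfl⟩
      · simp [hd] at hI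
  have hN : (2 : ℝ) ≤ (Ideal.absNorm P : ℝ) := by
    have h0 : Ideal.absNorm P ≠ 0 := fun h => hP0 (Ideal.absNorm_eq_zero_iff.1 h)
    have h1 : Ideal.absNorm P ≠ 1 := fun h => hP1 (Ideal.absNorm_eq_one_iff.1 h)
    have : 2 ≤ Ideal.absNorm P := by omega
    exact_mod_cast this
  have hN2 : (Ideal.absNorm P : ℝ) ^ (-s) ≤ 1 / 2 := by
    have hpos : (0:ℝ) < Ideal.absNorm P := by linarith
    calc (Ideal.absNorm P : ℝ) ^ (-s) ≤ (Ideal.absNorm P : ℝ) ^ (-1 : ℝ) :=
          Real.rpow_le_rpow_of_exponent_le (by linarith) (by linarith)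
      _ = 1 / (Ideal.absNorm P : ℝ) := by rw [Real.rpow_neg_one, one_div]
      _ ≤ 1 / 2 := by gcongr
  have h3 : ∀ I, zetaC_F L s T (P * I) ≤ ENNReal.ofReal (1/2) * zetaC_F L s T I := by
    intro I
    unfold zetaC_F
    by_cases hI : I ≠ ⊥ ∧ ∀ Q ∈ T, ¬ Q ∣ I
    · rw [if_pos hI]
      split_ifs with h
      · rw [← ENNReal.ofReal_mul (by norm_num)]
        apply ENNReal.ofReal_le_ofReal
        rw [map_mul, Nat.cast_mul, Real.mul_rpow (by positivity) (by positivity)]
        gcongr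
      · exact zero_le
    · rw [if_neg hI, mul_zero, if_neg]
      rintro ⟨k1, k2⟩
      apply hI
      refine ⟨?_, fun Q hQ hd => k2 Q hQ (hd.mul_left P)⟩
      rintro rfl
      simp at k1
  have h4 : x ≤ ∑' I, zetaC_F L s (insert P T) I + ENNReal.ofReal (1/2) * x := by
    calc x ≤ ∑' I, (zetaC_F L s (insert P T) I + (if P ∣ I then zetaC_F L s T I else 0)) :=
          ENNReal.tsum_le_tsum h1
      _ = ∑' I, zetaC_F L s (insert P T) I + ∑' I, zetaC_F L s T (P * I) := by
          rw [ENNReal.tsum_add, h2]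
      _ ≤ ∑' I, zetaC_F L s (insert P T) I + ENNReal.ofReal (1/2) * x := by
          gcongr
          rw [hx, ← ENNReal.tsum_mul_left]
          exact ENNReal.tsum_le_tsum h3
  set y := ∑' I, zetaC_F L s (insert P T) I with hy
  have hyf : y ≠ ⊤ := zetaC_fin hs _
  clear_value x y
  lift x to NNReal using hxf
  lift y to NNReal using hyf
  have e : ENNReal.ofReal (1/2) = ((1/2 : NNReal) : ENNReal) := by
    rw [ENNReal.ofReal, Real.toNNReal_div (by norm_num)]; simp
  rw [e] at h4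
  norm_cast at h4 ⊢
  have h5 : (x : ℝ) ≤ y + 1/2 * x := by
    have := NNReal.coe_le_coe.2 h4
    push_cast at this
    linarith
  rw [← NNReal.coe_le_coe]
  push_cast
  linarith

private lemma zetaC_ind {L : Type} [Field L] [NumberField L] {s : ℝ} (hs : 1 < s)
    (T : Finset (Ideal (𝓞 L))) (hT : ∀ P ∈ T, P ≠ ⊥ ∧ P ≠ ⊤) :
    ZZt L s ≤ 2 ^ T.card * ∑' I, zetaC_F L s T I := by
  classical
  induction T using Finset.induction_on with
  | empty => simp [zetaC_empty]
  | insert P T hPT ih =>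
    have h1 := ih fun Q hQ => hT Q (Finset.mem_insert_of_mem hQ)
    have h2 := zetaC_step hs T (hT P (Finset.mem_insert_self _ _)).1 (hT P (Finset.mem_insert_self _ _)).2
    rw [Finset.card_insert_of_notMem hPT, pow_succ, mul_assoc]
    exact h1.trans (by gcongr)

theorem zeta_three (L : Type) [Field L] [NumberField L] : ∃ C : ENNReal, C ≠ ⊤ ∧
    ∀ s : ℝ, 1 < s → ZZt L s ≤ C * Z3 L s := by
  classical
  have h3 : (Ideal.span {3} : Ideal (𝓞 L)) ≠ ⊥ := by
    rw [Ne, Ideal.span_singleton_eq_bot]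
    norm_num
  have hfin : {P : Ideal (𝓞 L) | P.IsPrime ∧ P ∣ Ideal.span {3}}.Finite := by
    have := Ideal.finite_factors h3
    refine (this.image fun v => v.asIdeal).subset ?_
    rintro P ⟨hP, hd⟩
    refine ⟨⟨P, hP, ?_⟩, hd, rfl⟩
    rintro rfl
    exact h3 (by simpa using hd)
  set T := hfin.toFinset with hT
  refine ⟨2 ^ T.card, ENNReal.pow_ne_top (by simp), fun s hs => ?_⟩
  have h1 := zetaC_ind hs T (by
    intro P hP
    rw [hT, Set.Finite.mem_toFinset] at hP
    refine ⟨?_, hP.1.ne_top⟩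
    rintro rfl
    exact h3 (by simpa using hP.2))
  refine h1.trans ?_
  gcongr
  unfold Z3
  have := tsum_subtype {I : Ideal (𝓞 L) | I ≠ ⊥ ∧ I ⊔ Ideal.span {3} = ⊤}
    (fun I => ENNReal.ofReal ((Ideal.absNorm I : ℝ) ^ (-s)))
  refine le_trans ?_ this.symm.le
  refine ENNReal.tsum_le_tsum fun I => ?_
  unfold zetaC_F
  split_ifs with h
  · rw [Set.indicator_apply, if_pos]
    refine ⟨h.1, ?_⟩
    by_contra hc
    obtain ⟨M, hM, hle⟩ := Ideal.exists_le_maximal _ hc
    refine h.2 M ?_ ?_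
    · rw [hT, Set.Finite.mem_toFinset]
      exact ⟨hM.isPrime, Ideal.dvd_iff_le.2 (le_sup_right.trans hle)⟩
    · exact Ideal.dvd_iff_le.2 (le_sup_left.trans hle)
  · exact zero_le

end

end Pool.Agent.Work.MP_14c213_gt
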