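import Pool.Agent.Work.MP_14c213_gt.B.ZetaA

/-!
Splitting in M = L(ζ). A prime P of L with absNorm P = 1 mod 3: X² + X + 1 has a root r modulo P. A prime Q of M over P
contains ζ - r or ζ - r' (r' = -1 - r); if Q is stable under σ (ζ ↦ ζ²) it contains both, so 2r + 1 ∈ P, 3 ∈ P,
contradiction. So there are two primes over P, and Σ e f = 2 gives absNorm Q = absNorm P.
-/

namespace Pool.Agent.Work.MP_14c213_gt

open Matrix IsDedekindDomain
open scoped Matrix NumberField QuadraticAlgebra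

noncomputable section

/-- Condition that `X² + X + 1` has no root. -/
abbrev NoRoot (L : Type) [Field L] : Prop := ∀ r : L, r ^ 2 ≠ -1 + -1 * r

/-- The quadratic extension `L(ζ)`. -/
abbrev MM (L : Type) [Field L] := QuadraticAlgebra L (-1) (-1)

theorem MM_nf (L : Type) [Field L] [NumberField L] [Fact (NoRoot L)] :
    NumberField (MM L) where
  to_charZero := inferInstance
  to_finiteDimensional := Module.Finite.trans L (MM L)

set_option linter.unusedSectionVars false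

section
variable (L : Type) [Field L] [NumberField L] [Fact (NoRoot L)] [NumberField (MM L)]

private lemma zs_zint : IsIntegral ℤ (⟨0, 1⟩ : MM L) := by
  refine ⟨Polynomial.X ^ 2 + Polynomial.X + 1, ?_, ?_⟩
  · monicity!
  · simp only [Polynomial.eval₂_add, Polynomial.eval₂_pow, Polynomial.eval₂_X, Polynomial.eval₂_one]
    ext <;> simp [pow_two]

/-- `ζ` as an integer of `M`. -/
private def zs_z : 𝓞 (MM L) := ⟨⟨0, 1⟩, zs_zint L⟩

private lemma zs_z_coe : ((zs_z L : 𝓞 (MM L)) : MM L) = ⟨0, 1⟩ := rfl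

private lemma zs_z_rel : zs_z L * zs_z L + zs_z L + 1 = 0 := by
  apply NumberField.RingOfIntegers.ext
  show (⟨0, 1⟩ : MM L) * ⟨0, 1⟩ + ⟨0, 1⟩ + 1 = 0
  ext <;> simp

/-- The automorphism. -/
private def zs_s : 𝓞 (MM L) →+* 𝓞 (MM L) :=
  NumberField.RingOfIntegers.mapRingHom (starRingEnd (MM L))

private lemma zs_s_z : zs_s L (zs_z L) = -1 - zs_z L := by
  apply NumberField.RingOfIntegers.ext
  show star (⟨0, 1⟩ : MM L) = -1 - ⟨0, 1⟩
  ext <;> simp

private lemma zs_s_alg (x : 𝓞 L) : zs_s L (algebraMap (𝓞 L) (𝓞 (MM L)) x) =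
    algebraMap (𝓞 L) (𝓞 (MM L)) x := by
  apply NumberField.RingOfIntegers.ext
  show star (algebraMap L (MM L) (x : L)) = algebraMap L (MM L) (x : L)
  ext <;> simp

/-- Three times an integer is in `𝓞 L [ζ]`. -/
private lemma zs_three (s : 𝓞 (MM L)) : ∃ X Y : 𝓞 L,
    3 * s = algebraMap (𝓞 L) (𝓞 (MM L)) X + algebraMap (𝓞 L) (𝓞 (MM L)) Y * zs_z L := by
  have hinj : Function.Injective (algebraMap L (MM L)) := (algebraMap L (MM L)).injective
  have hsi : IsIntegral ℤ (s : MM L) := s.isIntegral_coe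
  have hs2 : IsIntegral ℤ ((zs_s L s : 𝓞 (MM L)) : MM L) := (zs_s L s).isIntegral_coe
  have hz := zs_zint L
  have h3 : IsIntegral ℤ (3 : MM L) := by
    have := isIntegral_algebraMap (R := ℤ) (A := MM L) (x := 3)
    simpa using this
  have h2 : IsIntegral ℤ (2 : MM L) := by
    have := isIntegral_algebraMap (R := ℤ) (A := MM L) (x := 2)
    simpa using this
  have hY : IsIntegral ℤ (3 * (s : MM L).im) := by
    rw [← isIntegral_algebraMap_iff (B := MM L) hinj]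
    have h4 : algebraMap L (MM L) (3 * (s : MM L).im) =
        -(((s : MM L) - ((zs_s L s : 𝓞 (MM L)) : MM L)) * (1 + 2 * ⟨0, 1⟩)) := by
      have h5 : ((zs_s L s : 𝓞 (MM L)) : MM L) = star (s : MM L) := rfl
      rw [h5]
      ext
      · simp [QuadraticAlgebra.re_star, QuadraticAlgebra.im_star]
        ring
      · simp [QuadraticAlgebra.re_star, QuadraticAlgebra.im_star]
        ring
    rw [h4]
    exact (((hsi.sub hs2).mul (isIntegral_one.add (h2.mul hz)))).neg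
  have hX : IsIntegral ℤ (3 * (s : MM L).re) := by
    rw [← isIntegral_algebraMap_iff (B := MM L) hinj]
    have h4 : algebraMap L (MM L) (3 * (s : MM L).re) =
        3 * (s : MM L) - algebraMap L (MM L) (3 * (s : MM L).im) * ⟨0, 1⟩ := by
      ext
      · simp
      · simp
    rw [h4]
    exact (h3.mul hsi).sub (((isIntegral_algebraMap_iff (B := MM L) hinj).2 hY).mul hz)
  refine ⟨⟨_, hX⟩, ⟨_, hY⟩, ?_⟩
  apply NumberField.RingOfIntegers.ext
  show 3 * (s : MM L) = algebraMap L (MM L) (3 * (s : MM L).re) +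
    algebraMap L (MM L) (3 * (s : MM L).im) * ⟨0, 1⟩
  ext <;> simp

/-- A prime over `P` which contains `ζ - r` has the same norm. -/
private lemma zs_norm (P : Ideal (𝓞 L)) [P.IsMaximal] (h3 : (3 : 𝓞 L) ∉ P)
    (Q : Ideal (𝓞 (MM L))) (hQ : Q.comap (algebraMap (𝓞 L) (𝓞 (MM L))) = P) (r : 𝓞 L)
    (hr : zs_z L - algebraMap (𝓞 L) (𝓞 (MM L)) r ∈ Q) : Ideal.absNorm Q = Ideal.absNorm P := by
  set f : 𝓞 L →+* 𝓞 (MM L) ⧸ Q := (Ideal.Quotient.mk Q).comp (algebraMap (𝓞 L) (𝓞 (MM L))) with hf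
  have hker : RingHom.ker f = P := by
    rw [← hQ, hf]
    ext x
    rw [RingHom.mem_ker, RingHom.comp_apply, Ideal.Quotient.eq_zero_iff_mem, Ideal.mem_comap]
  obtain ⟨c, hc⟩ : ∃ c : 𝓞 L, 3 * c - 1 ∈ P := by
    have h4 : Ideal.Quotient.mk P 3 ≠ 0 := fun h => h3 (Ideal.Quotient.eq_zero_iff_mem.1 h)
    let _ := Ideal.Quotient.field P
    obtain ⟨c, hc⟩ := Ideal.Quotient.mk_surjective (I := P) (Ideal.Quotient.mk P 3)⁻¹
    refine ⟨c, Ideal.Quotient.eq_zero_iff_mem.1 ?_⟩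
    rw [map_sub, map_mul, hc, map_one, mul_inv_cancel₀ h4, sub_self]
  have hsurj : Function.Surjective f := by
    intro y
    obtain ⟨s, rfl⟩ := Ideal.Quotient.mk_surjective y
    obtain ⟨X, Y, hXY⟩ := zs_three L s
    refine ⟨c * (X + Y * r), ?_⟩
    have hc' : algebraMap (𝓞 L) (𝓞 (MM L)) (3 * c - 1) ∈ Q := by
      have : 3 * c - 1 ∈ Q.comap (algebraMap (𝓞 L) (𝓞 (MM L))) := by rw [hQ]; exact hc
      exact this
    rw [hf, RingHom.comp_apply, Ideal.Quotient.eq]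
    have h5 : algebraMap (𝓞 L) (𝓞 (MM L)) (c * (X + Y * r)) - s =
        algebraMap (𝓞 L) (𝓞 (MM L)) (3 * c - 1) * s -
          algebraMap (𝓞 L) (𝓞 (MM L)) (c * Y) * (zs_z L - algebraMap (𝓞 L) (𝓞 (MM L)) r) := by
      have h6 : algebraMap (𝓞 L) (𝓞 (MM L)) (3 * c - 1) * s =
          algebraMap (𝓞 L) (𝓞 (MM L)) c * (3 * s) - s := by
        rw [map_sub, map_mul, map_one]
        have : algebraMap (𝓞 L) (𝓞 (MM L)) 3 = 3 := map_ofNat _ 3
        rw [this]; ring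
      rw [h6, hXY, map_mul, map_mul, map_add, map_mul]
      ring
    rw [h5]
    exact Q.sub_mem (Q.mul_mem_right _ hc') (Q.mul_mem_left _ hr)
  rw [Ideal.absNorm_apply, Ideal.absNorm_apply, Submodule.cardQuot_apply, Submodule.cardQuot_apply]
  have e := RingHom.quotientKerEquivOfSurjective hsurj
  exact (Nat.card_congr e.toEquiv).symm.trans
    (congrArg (fun I : Ideal (𝓞 L) => Nat.card (𝓞 L ⧸ I)) hker)

end

private lemma zs_fin (k : Type*) [Field k] [Finite k] (h : Nat.card k % 3 = 1) :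
    (3 : k) ≠ 0 ∧ ∃ x : k, x * x + x + 1 = 0 := by
  have h3p : Fact (Nat.Prime 3) := ⟨Nat.prime_three⟩
  constructor
  · intro h3
    have h5 : 3 • (1 : k) = 0 := by
      rw [nsmul_one]
      exact_mod_cast h3
    have h6 := addOrderOf_eq_prime h5 one_ne_zero
    have h7 := addOrderOf_dvd_natCard (1 : k)
    rw [h6] at h7
    omega
  · have hcu : Nat.card kˣ = Nat.card k - 1 := by
      classical
      have := Fintype.ofFinite k
      rw [Nat.card_eq_fintype_card, Nat.card_eq_fintype_card, Fintype.card_units]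
    have hdvd : 3 ∣ Nat.card kˣ := by
      rw [hcu]; omega
    obtain ⟨x, hx⟩ := exists_prime_orderOf_dvd_card' 3 hdvd
    have hx1 : (x : k) ≠ 1 := by
      intro h
      have : x = 1 := Units.ext h
      rw [this, orderOf_one] at hx
      norm_num at hx
    have hx3 : (x : k) ^ 3 = 1 := by
      have := pow_orderOf_eq_one x
      rw [hx] at this
      rw [← Units.val_pow_eq_pow_val, this, Units.val_one]
    refine ⟨x, ?_⟩
    have h8 : ((x : k) - 1) * ((x : k) * x + x + 1) = 0 := by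
      linear_combination hx3
    exact (mul_eq_zero.1 h8).resolve_left (sub_ne_zero.2 hx1)

/-- Roots of `X² + X + 1` modulo `P`. -/
private lemma zs_root (L : Type) [Field L] [NumberField L]
    (P : HeightOneSpectrum (𝓞 L)) (hP : Ideal.absNorm P.asIdeal % 3 = 1) :
    (3 : 𝓞 L) ∉ P.asIdeal ∧ ∃ r : 𝓞 L, r * r + r + 1 ∈ P.asIdeal := by
  have hmax : P.asIdeal.IsMaximal := P.isMaximal
  have hcard : Nat.card (𝓞 L ⧸ P.asIdeal) = Ideal.absNorm P.asIdeal := by
    rw [Ideal.absNorm_apply, Submodule.cardQuot_apply]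
  have hne : Nat.card (𝓞 L ⧸ P.asIdeal) ≠ 0 := by
    rw [hcard]; omega
  have hfin : Finite (𝓞 L ⧸ P.asIdeal) := Nat.finite_of_card_ne_zero hne
  obtain ⟨h1, x, hx⟩ := @zs_fin (𝓞 L ⧸ P.asIdeal) (Ideal.Quotient.field P.asIdeal) hfin
    (by rw [hcard]; exact hP)
  constructor
  · intro h3
    have h4 : Ideal.Quotient.mk P.asIdeal 3 = 0 := Ideal.Quotient.eq_zero_iff_mem.2 h3
    exact h1 ((map_ofNat (Ideal.Quotient.mk P.asIdeal) 3).symm.trans h4)
  · obtain ⟨r, hr⟩ := Ideal.Quotient.mk_surjective (I := P.asIdeal) x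
    refine ⟨r, Ideal.Quotient.eq_zero_iff_mem.1 ?_⟩
    rw [map_add, map_add, map_mul, map_one, hr]
    exact hx

theorem zeta_split (L : Type) [Field L] [NumberField L] [Fact (NoRoot L)] [NumberField (MM L)]
    (P : HeightOneSpectrum (𝓞 L)) (hP : Ideal.absNorm P.asIdeal % 3 = 1) :
    ∃ Q₁ Q₂ : HeightOneSpectrum (𝓞 (MM L)), Q₁ ≠ Q₂ ∧
      Q₁.asIdeal.comap (algebraMap (𝓞 L) (𝓞 (MM L))) = P.asIdeal ∧
      Q₂.asIdeal.comap (algebraMap (𝓞 L) (𝓞 (MM L))) = P.asIdeal ∧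
      Ideal.absNorm Q₁.asIdeal = Ideal.absNorm P.asIdeal ∧
      Ideal.absNorm Q₂.asIdeal = Ideal.absNorm P.asIdeal := by
  obtain ⟨h3, r₀, hr₀⟩ := zs_root L P hP
  have hmax : P.asIdeal.IsMaximal := P.isMaximal
  have hinj : Function.Injective (algebraMap (𝓞 L) (𝓞 (MM L))) := by
    intro x y h
    apply NumberField.RingOfIntegers.ext
    have h1 := congrArg (fun z : 𝓞 (MM L) => (z : MM L)) h
    exact (algebraMap L (MM L)).injective h1
  have hbot : ∀ Q : Ideal (𝓞 (MM L)), Q.comap (algebraMap (𝓞 L) (𝓞 (MM L))) = P.asIdeal → Q ≠ ⊥ := by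
    rintro Q hQ rfl
    apply P.ne_bot
    rw [← hQ]
    exact Ideal.comap_bot_of_injective _ hinj
  obtain ⟨Q, hQmax, hQ⟩ := Ideal.exists_ideal_over_maximal_of_isIntegral (S := 𝓞 (MM L)) P.asIdeal
    (by rw [(RingHom.injective_iff_ker_eq_bot _).1 hinj]; exact bot_le)
  have hmem : ∀ x : 𝓞 L, x ∈ P.asIdeal → algebraMap (𝓞 L) (𝓞 (MM L)) x ∈ Q := by
    intro x hx
    rw [← hQ] at hx
    exact hx
  -- a root r with ζ - r in Q
  obtain ⟨r, hr, hrQ⟩ : ∃ r : 𝓞 L, r * r + r + 1 ∈ P.asIdeal ∧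
      zs_z L - algebraMap (𝓞 L) (𝓞 (MM L)) r ∈ Q := by
    have h1 : (zs_z L - algebraMap (𝓞 L) (𝓞 (MM L)) r₀) *
        (zs_z L - algebraMap (𝓞 L) (𝓞 (MM L)) (-1 - r₀)) ∈ Q := by
      have h2 : (zs_z L - algebraMap (𝓞 L) (𝓞 (MM L)) r₀) *
        (zs_z L - algebraMap (𝓞 L) (𝓞 (MM L)) (-1 - r₀)) =
          -algebraMap (𝓞 L) (𝓞 (MM L)) (r₀ * r₀ + r₀ + 1) := by
        simp only [map_sub, map_neg, map_one, map_add, map_mul]
        linear_combination zs_z_rel L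
      rw [h2]
      exact Q.neg_mem (hmem _ hr₀)
    rcases hQmax.isPrime.mem_or_mem h1 with h | h
    · exact ⟨r₀, hr₀, h⟩
    · refine ⟨-1 - r₀, ?_, h⟩
      have : (-1 - r₀) * (-1 - r₀) + (-1 - r₀) + 1 = r₀ * r₀ + r₀ + 1 := by ring
      rw [this]
      exact hr₀
  set Q' : Ideal (𝓞 (MM L)) := Q.comap (zs_s L) with hQ'
  have hprime' : Q'.IsPrime := Ideal.comap_isPrime _ _
  have hQ'c : Q'.comap (algebraMap (𝓞 L) (𝓞 (MM L))) = P.asIdeal := by
    rw [← hQ]
    ext x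
    rw [Ideal.mem_comap, hQ', Ideal.mem_comap, zs_s_alg, Ideal.mem_comap]
  have hrQ' : zs_z L - algebraMap (𝓞 L) (𝓞 (MM L)) (-1 - r) ∈ Q' := by
    rw [hQ', Ideal.mem_comap, map_sub, zs_s_z, zs_s_alg]
    have : -1 - zs_z L - algebraMap (𝓞 L) (𝓞 (MM L)) (-1 - r) =
        -(zs_z L - algebraMap (𝓞 L) (𝓞 (MM L)) r) := by
      simp only [map_sub, map_neg, map_one]
      ring
    rw [this]
    exact Q.neg_mem hrQ
  refine ⟨⟨Q, hQmax.isPrime, hbot Q hQ⟩, ⟨Q', hprime', hbot Q' hQ'c⟩, ?_, hQ, hQ'c,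
    zs_norm L P.asIdeal h3 Q hQ r hrQ, zs_norm L P.asIdeal h3 Q' hQ'c _ hrQ'⟩
  intro heq
  have heq' : Q = Q' := congrArg HeightOneSpectrum.asIdeal heq
  rw [← heq'] at hrQ'
  have h4 : algebraMap (𝓞 L) (𝓞 (MM L)) (2 * r + 1) ∈ Q := by
    have h5 := Q.sub_mem hrQ' hrQ
    have h6 : zs_z L - algebraMap (𝓞 L) (𝓞 (MM L)) (-1 - r) -
        (zs_z L - algebraMap (𝓞 L) (𝓞 (MM L)) r) = algebraMap (𝓞 L) (𝓞 (MM L)) (2 * r + 1) := by
      have : algebraMap (𝓞 L) (𝓞 (MM L)) 2 = 2 := map_ofNat _ 2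
      simp only [map_sub, map_neg, map_one, map_add, map_mul, this]
      ring
    rwa [h6] at h5
  have h7 : 2 * r + 1 ∈ P.asIdeal := by
    rw [← hQ]
    exact h4
  apply h3
  have h8 : (3 : 𝓞 L) = 4 * (r * r + r + 1) - (2 * r + 1) * (2 * r + 1) := by ring
  rw [h8]
  exact P.asIdeal.sub_mem (P.asIdeal.mul_mem_left _ hr) (P.asIdeal.mul_mem_left _ h7)

end

end Pool.Agent.Work.MP_14c213_gt
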