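import Pool.Agent.Work.MP_14c213_gt.B.ZetaC
import Pool.Agent.Work.MP_14c213_gt.B.ZetaS

/-!
If no prime has norm 2 mod 3, every prime not over 3 has norm 1 mod 3 and splits, P ↦ P₁, P₂ (zeta_split). The map
(I, J) ↦ ∏ P₁^{ord_P I} P₂^{ord_P J} from pairs of ideals prime to 3 to ideals of M is injective (factorization; the
P₁, P₂ for different P are different) and multiplies norms.
-/

namespace Pool.Agent.Work.MP_14c213_gt

open Matrix IsDedekindDomain
open scoped Matrix NumberField QuadraticAlgebra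

noncomputable section

open UniqueFactorizationMonoid

private def zt_good {L : Type} [Field L] [NumberField L] (I : Ideal (𝓞 L)) : Prop :=
  ∃ P : HeightOneSpectrum (𝓞 L), P.asIdeal = I ∧ Ideal.absNorm I % 3 = 1

/-- Factors of ideals prime to 3 are good. -/
private lemma zt_factor {L : Type} [Field L] [NumberField L]
    (h : ∀ P : HeightOneSpectrum (𝓞 L), Ideal.absNorm P.asIdeal % 3 ≠ 2) {I : Ideal (𝓞 L)}
    (hI : I ≠ ⊥) (hI3 : I ⊔ Ideal.span {3} = ⊤) {p : Ideal (𝓞 L)} (hp : p ∈ normalizedFactors I) :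
    zt_good p := by
  have hprime : Prime p := prime_of_normalized_factor p hp
  have hp0 : p ≠ ⊥ := hprime.ne_zero
  have hpp : p.IsPrime := (Ideal.prime_iff_isPrime hp0).1 hprime
  refine ⟨⟨p, hpp, hp0⟩, rfl, ?_⟩
  have h2 := h ⟨p, hpp, hp0⟩
  have h2' : Ideal.absNorm p % 3 ≠ 2 := h2
  have h3 : (3 : 𝓞 L) ∉ p := by
    intro h3
    apply hpp.ne_top
    rw [eq_top_iff, ← hI3]
    refine sup_le (Ideal.dvd_iff_le.1 (dvd_of_mem_normalizedFactors hp)) ?_
    rw [Ideal.span_singleton_le_iff_mem]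
    exact h3
  have h0 : Ideal.absNorm p % 3 ≠ 0 := by
    intro h0
    have hmax : p.IsMaximal := hpp.isMaximal hp0
    have hcard : Nat.card (𝓞 L ⧸ p) = Ideal.absNorm p := by
      rw [Ideal.absNorm_apply, Submodule.cardQuot_apply]
    have hfin : Finite (𝓞 L ⧸ p) := by
      apply Nat.finite_of_card_ne_zero
      rw [hcard]
      exact fun h => hp0 (Ideal.absNorm_eq_zero_iff.1 h)
    have h3p : Fact (Nat.Prime 3) := ⟨Nat.prime_three⟩
    obtain ⟨x, hx⟩ := exists_prime_addOrderOf_dvd_card' (G := 𝓞 L ⧸ p) 3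
      (by rw [hcard]; exact Nat.dvd_of_mod_eq_zero h0)
    have hx3 : 3 • x = 0 := by rw [← hx]; exact addOrderOf_nsmul_eq_zero x
    have hx0 : x ≠ 0 := by
      rintro rfl
      rw [addOrderOf_zero] at hx
      norm_num at hx
    obtain ⟨y, rfl⟩ := Ideal.Quotient.mk_surjective x
    have h5 : 3 * y ∈ p := by
      rw [← Ideal.Quotient.eq_zero_iff_mem, map_mul, ← hx3, nsmul_eq_mul]
      congr 1
    rcases hpp.mem_or_mem h5 with h6 | h6
    · exact h3 h6
    · exact hx0 (Ideal.Quotient.eq_zero_iff_mem.2 h6)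
  omega

private lemma zt_multiset {α β : Type*} [DecidableEq β] {g₁ g₂ : α → β} {c : β → α} {s t : Multiset α}
    (h1 : ∀ p ∈ s, c (g₁ p) = p) (h1' : ∀ p ∈ s, g₁ (c (g₁ p)) = g₁ p)
    (h2 : ∀ p ∈ t, g₁ (c (g₂ p)) ≠ g₂ p) :
    ((s.map g₁ + t.map g₂).filter fun q => g₁ (c q) = q).map c = s := by
  rw [Multiset.filter_add]
  have e1 : (s.map g₁).filter (fun q => g₁ (c q) = q) = s.map g₁ := by
    rw [Multiset.filter_eq_self]
    intro q hq
    obtain ⟨p, hp, rfl⟩ := Multiset.mem_map.1 hq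
    exact h1' p hp
  have e2 : (t.map g₂).filter (fun q => g₁ (c q) = q) = 0 := by
    rw [Multiset.filter_eq_nil]
    intro q hq
    obtain ⟨p, hp, rfl⟩ := Multiset.mem_map.1 hq
    exact h2 p hp
  rw [e1, e2, add_zero, Multiset.map_map]
  conv_rhs => rw [← Multiset.map_id s]
  exact Multiset.map_congr rfl fun p hp => h1 p hp

theorem zeta_ineq (L : Type) [Field L] [NumberField L] [Fact (NoRoot L)] [NumberField (MM L)]
    (h : ∀ P : HeightOneSpectrum (𝓞 L), Ideal.absNorm P.asIdeal % 3 ≠ 2) (s : ℝ) (hs : 1 < s) :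
    Z3 L s * Z3 L s ≤ ZZt (MM L) s := by
  classical
  set c : Ideal (𝓞 (MM L)) → Ideal (𝓞 L) := fun Q => Q.comap (algebraMap (𝓞 L) (𝓞 (MM L))) with hc
  have hex : ∀ I : Ideal (𝓞 L), ∃ Q : Ideal (𝓞 (MM L)) × Ideal (𝓞 (MM L)), zt_good I →
      Prime Q.1 ∧ Prime Q.2 ∧ Q.1 ≠ Q.2 ∧ c Q.1 = I ∧ c Q.2 = I ∧
      Ideal.absNorm Q.1 = Ideal.absNorm I ∧ Ideal.absNorm Q.2 = Ideal.absNorm I := by
    intro I
    by_cases hI : zt_good I
    · obtain ⟨P, rfl, hP⟩ := hI
      obtain ⟨Q₁, Q₂, hne, h1, h2, h3, h4⟩ := zeta_split L P hP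
      refine ⟨⟨Q₁.asIdeal, Q₂.asIdeal⟩, fun _ => ⟨?_, ?_, ?_, h1, h2, h3, h4⟩⟩
      · exact (Ideal.prime_iff_isPrime Q₁.ne_bot).2 Q₁.isPrime
      · exact (Ideal.prime_iff_isPrime Q₂.ne_bot).2 Q₂.isPrime
      · exact fun e => hne (HeightOneSpectrum.ext e)
    · exact ⟨⟨⊥, ⊥⟩, fun h => absurd h hI⟩
  choose g hg using hex
  set S : Type := {I : Ideal (𝓞 L) // I ≠ ⊥ ∧ I ⊔ Ideal.span {3} = ⊤} with hS
  have hgood : ∀ I : S, ∀ p ∈ normalizedFactors I.1, zt_good p :=
    fun I p hp => zt_factor h I.2.1 I.2.2 hp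
  set m : S × S → Multiset (Ideal (𝓞 (MM L))) := fun x =>
    (normalizedFactors x.1.1).map (fun p => (g p).1) + (normalizedFactors x.2.1).map (fun p => (g p).2)
    with hm
  have hmp : ∀ x, ∀ q ∈ m x, Prime q := by
    intro x q hq
    rw [hm, Multiset.mem_add] at hq
    rcases hq with hq | hq
    · obtain ⟨p, hp, rfl⟩ := Multiset.mem_map.1 hq
      exact (hg p (hgood x.1 p hp)).1
    · obtain ⟨p, hp, rfl⟩ := Multiset.mem_map.1 hq
      exact (hg p (hgood x.2 p hp)).2.1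
  have hm0 : ∀ x, (m x).prod ≠ ⊥ := by
    intro x
    rw [← Ideal.zero_eq_bot]
    refine Multiset.prod_ne_zero ?_
    intro h0
    exact (hmp x 0 h0).ne_zero rfl
  set Φ : S × S → {I : Ideal (𝓞 (MM L)) // I ≠ ⊥} := fun x => ⟨(m x).prod, hm0 x⟩ with hΦ
  have hrec1 : ∀ x, ((m x).filter fun q => (g (c q)).1 = q).map c = normalizedFactors x.1.1 := by
    intro x
    refine zt_multiset (g₁ := fun p => (g p).1) (g₂ := fun p => (g p).2) ?_ ?_ ?_
    · intro p hp
      exact (hg p (hgood x.1 p hp)).2.2.2.1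
    · intro p hp
      show (g (c (g p).1)).1 = (g p).1
      rw [(hg p (hgood x.1 p hp)).2.2.2.1]
    · intro p hp
      show (g (c (g p).2)).1 ≠ (g p).2
      rw [(hg p (hgood x.2 p hp)).2.2.2.2.1]
      exact (hg p (hgood x.2 p hp)).2.2.1
  have hrec2 : ∀ x, ((m x).filter fun q => (g (c q)).2 = q).map c = normalizedFactors x.2.1 := by
    intro x
    have h0 : m x = (normalizedFactors x.2.1).map (fun p => (g p).2) +
        (normalizedFactors x.1.1).map (fun p => (g p).1) := add_comm _ _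
    rw [h0]
    refine zt_multiset (g₁ := fun p => (g p).2) (g₂ := fun p => (g p).1) ?_ ?_ ?_
    · intro p hp
      exact (hg p (hgood x.2 p hp)).2.2.2.2.1
    · intro p hp
      show (g (c (g p).2)).2 = (g p).2
      rw [(hg p (hgood x.2 p hp)).2.2.2.2.1]
    · intro p hp
      show (g (c (g p).1)).2 ≠ (g p).1
      rw [(hg p (hgood x.1 p hp)).2.2.2.1]
      exact (hg p (hgood x.1 p hp)).2.2.1.symm
  have hinj : Function.Injective Φ := by
    intro x y hxy
    have h1 : (m x).prod = (m y).prod := congrArg Subtype.val hxy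
    have h2 : m x = m y := by
      rw [← normalizedFactors_prod_of_prime (hmp x), h1, normalizedFactors_prod_of_prime (hmp y)]
    have h3 : normalizedFactors x.1.1 = normalizedFactors y.1.1 := by
      rw [← hrec1 x, ← hrec1 y, h2]
    have h4 : normalizedFactors x.2.1 = normalizedFactors y.2.1 := by
      rw [← hrec2 x, ← hrec2 y, h2]
    refine Prod.ext (Subtype.ext ?_) (Subtype.ext ?_)
    · rw [← Ideal.prod_normalizedFactors_eq_self x.1.2.1, h3,
        Ideal.prod_normalizedFactors_eq_self y.1.2.1]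
    · rw [← Ideal.prod_normalizedFactors_eq_self x.2.2.1, h4,
        Ideal.prod_normalizedFactors_eq_self y.2.2.1]
  have hnorm : ∀ x, Ideal.absNorm (Φ x).1 = Ideal.absNorm x.1.1 * Ideal.absNorm x.2.1 := by
    intro x
    show Ideal.absNorm (m x).prod = _
    rw [hm, Multiset.prod_add, map_mul, map_multiset_prod, map_multiset_prod, Multiset.map_map,
      Multiset.map_map]
    congr 1
    · conv_rhs => rw [← Ideal.prod_normalizedFactors_eq_self x.1.2.1, map_multiset_prod]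
      congr 1
      exact Multiset.map_congr rfl fun p hp => (hg p (hgood x.1 p hp)).2.2.2.2.2.1
    · conv_rhs => rw [← Ideal.prod_normalizedFactors_eq_self x.2.2.1, map_multiset_prod]
      congr 1
      exact Multiset.map_congr rfl fun p hp => (hg p (hgood x.2 p hp)).2.2.2.2.2.2
  have hprod : Z3 L s * Z3 L s = ∑' x : S × S,
      ENNReal.ofReal ((Ideal.absNorm (Φ x).1 : ℝ) ^ (-s)) := by
    have h1 : ∀ x : S × S, ENNReal.ofReal ((Ideal.absNorm (Φ x).1 : ℝ) ^ (-s)) =
        ENNReal.ofReal ((Ideal.absNorm x.1.1 : ℝ) ^ (-s)) *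
          ENNReal.ofReal ((Ideal.absNorm x.2.1 : ℝ) ^ (-s)) := by
      intro x
      rw [hnorm, Nat.cast_mul, Real.mul_rpow (Nat.cast_nonneg _) (Nat.cast_nonneg _),
        ENNReal.ofReal_mul (by positivity)]
    rw [tsum_congr h1]
    rw [ENNReal.tsum_prod (f := fun (I J : S) => ENNReal.ofReal ((Ideal.absNorm I.1 : ℝ) ^ (-s)) *
      ENNReal.ofReal ((Ideal.absNorm J.1 : ℝ) ^ (-s)))]
    simp only [ENNReal.tsum_mul_left, ENNReal.tsum_mul_right]
    rfl
  rw [hprod]
  exact ENNReal.tsum_comp_le_tsum_of_injective hinj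
    (fun I => ENNReal.ofReal ((Ideal.absNorm I.1 : ℝ) ^ (-s)))

end

end Pool.Agent.Work.MP_14c213_gt
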